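import Mathlib

/-! Generic tools for the moment lemma: box Cauchy-Schwarz inequalities, a product bound and
Moebius type coefficients on a finite poset. -/

namespace SD.Moa

open Finset
open scoped BigOperators

section CS

variable {Ω A B C : Type*} [Fintype Ω] [Fintype A] [Fintype B] [Fintype C]

theorem ex_prod (f : A × B → ℝ) : 𝔼 p, f p = 𝔼 a, 𝔼 b, f (a, b) := by
  rw [← Finset.univ_product_univ, Finset.expect_product]

theorem ex_comm (f : A → B → ℝ) : 𝔼 a, 𝔼 b, f a b = 𝔼 b, 𝔼 a, f a b :=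
  Finset.expect_comm _ _ _

theorem ex_le {f g : A → ℝ} (h : ∀ a, f a ≤ g a) : 𝔼 a, f a ≤ 𝔼 a, g a :=
  Finset.expect_le_expect fun a _ => h a

theorem ex_nonneg {f : A → ℝ} (h : ∀ a, 0 ≤ f a) : 0 ≤ 𝔼 a, f a :=
  Finset.expect_nonneg fun a _ => h a

theorem ex_congr {f g : A → ℝ} (h : ∀ a, f a = g a) : 𝔼 a, f a = 𝔼 a, g a :=
  Finset.expect_congr rfl fun a _ => h a

theorem ex_sq (f : A → ℝ) : (𝔼 a, f a) ^ 2 = 𝔼 a, 𝔼 a', f a * f a' := by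
  rw [sq, Fintype.expect_mul_expect]

theorem ex_cs (f g : A → ℝ) : (𝔼 a, f a * g a) ^ 2 ≤ (𝔼 a, f a ^ 2) * 𝔼 a, g a ^ 2 :=
  Finset.expect_mul_sq_le_sq_mul_sq _ _ _

theorem ex_sq_le [Nonempty A] (f : A → ℝ) : (𝔼 a, f a) ^ 2 ≤ 𝔼 a, f a ^ 2 := by
  have := ex_cs (fun _ : A => (1 : ℝ)) f
  simpa using this

/-- One Cauchy-Schwarz step: the factor `G` does not depend on the variable `a`. -/
theorem cs_step (G : Ω → ℝ) (P : Ω → A → ℝ) :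
    (𝔼 w, 𝔼 a, G w * P w a) ^ 2 ≤ (𝔼 w, G w ^ 2) * 𝔼 w, 𝔼 a, 𝔼 a', P w a * P w a' := by
  have h1 : (𝔼 w, 𝔼 a, G w * P w a) = 𝔼 w, G w * 𝔼 a, P w a :=
    ex_congr fun w => by rw [Finset.mul_expect]
  rw [h1]
  refine (ex_cs _ _).trans (le_of_eq ?_)
  congr 1
  exact ex_congr fun w => ex_sq _

theorem pair_pow_le [Nonempty A] (H : Ω → A → ℝ) (n : ℕ) :
    (𝔼 w, 𝔼 a, 𝔼 a', (H w a * H w a') ^ n) ≤ 𝔼 w, 𝔼 a, H w a ^ (2 * n) := by
  refine ex_le fun w => ?_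
  have h1 : (𝔼 a, 𝔼 a', (H w a * H w a') ^ n) = (𝔼 a, H w a ^ n) ^ 2 := by
    rw [ex_sq]; exact ex_congr fun a => ex_congr fun a' => by rw [mul_pow]
  rw [h1]
  refine (ex_sq_le _).trans (le_of_eq ?_)
  exact ex_congr fun a => by rw [← pow_mul, mul_comm]

/-- Box inequality with two free variables. -/
theorem box2_cs [Nonempty A] (Fn : Ω → A → B → ℝ) (G : Ω → B → ℝ) (H : Ω → A → ℝ) :
    (𝔼 w, 𝔼 a, 𝔼 b, Fn w a b * G w b * H w a) ^ 4 ≤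
      (𝔼 w, 𝔼 b, G w b ^ 2) ^ 2 * (𝔼 w, 𝔼 a, H w a ^ 4) *
        𝔼 w, 𝔼 a, 𝔼 a', 𝔼 b, 𝔼 b', Fn w a b * Fn w a' b * (Fn w a b' * Fn w a' b') := by
  have s1 := cs_step (Ω := Ω × B) (A := A) (fun p => G p.1 p.2)
    (fun p a => Fn p.1 a p.2 * H p.1 a)
  have s2 := cs_step (Ω := Ω × A × A) (A := B) (fun p => H p.1 p.2.1 * H p.1 p.2.2)
    (fun p b => Fn p.1 p.2.1 b * Fn p.1 p.2.2 b)
  simp only [ex_prod] at s1 s2
  have e1 : (𝔼 w, 𝔼 a, 𝔼 b, Fn w a b * G w b * H w a) =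
      𝔼 w, 𝔼 b, 𝔼 a, G w b * (Fn w a b * H w a) :=
    ex_congr fun w => by
      rw [ex_comm]; exact ex_congr fun b => ex_congr fun a => by ring
  have e2 : (𝔼 w, 𝔼 b, 𝔼 a, 𝔼 a', Fn w a b * H w a * (Fn w a' b * H w a')) =
      𝔼 w, 𝔼 a, 𝔼 a', 𝔼 b, H w a * H w a' * (Fn w a b * Fn w a' b) :=
    ex_congr fun w => by
      rw [ex_comm]
      refine ex_congr fun a => ?_
      rw [ex_comm]
      exact ex_congr fun a' => ex_congr fun b => by ring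
  rw [e2] at s1
  rw [e1]
  have s3 := pair_pow_le H 2
  set S := 𝔼 w, 𝔼 b, 𝔼 a, G w b * (Fn w a b * H w a)
  set g := 𝔼 w, 𝔼 b, G w b ^ 2 with hg
  set T := 𝔼 w, 𝔼 a, 𝔼 a', 𝔼 b, H w a * H w a' * (Fn w a b * Fn w a' b)
  set bx := 𝔼 w, 𝔼 a, 𝔼 a', 𝔼 b, 𝔼 b', Fn w a b * Fn w a' b * (Fn w a b' * Fn w a' b')
    with hbx
  have hb : 0 ≤ bx := by
    rw [hbx]
    refine ex_nonneg fun w => ex_nonneg fun a => ex_nonneg fun a' => ?_
    rw [← ex_sq (fun b => Fn w a b * Fn w a' b)]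
    positivity
  have h4 : S ^ 4 ≤ (g * T) ^ 2 := by
    have : S ^ 4 = (S ^ 2) ^ 2 := by ring
    rw [this]
    exact pow_le_pow_left₀ (sq_nonneg _) s1 2
  have h5 : T ^ 2 ≤ (𝔼 w, 𝔼 a, H w a ^ 4) * bx :=
    s2.trans (mul_le_mul_of_nonneg_right s3 hb)
  calc S ^ 4 ≤ g ^ 2 * T ^ 2 := by rw [← mul_pow]; exact h4
    _ ≤ g ^ 2 * ((𝔼 w, 𝔼 a, H w a ^ 4) * bx) := mul_le_mul_of_nonneg_left h5 (sq_nonneg _)
    _ = _ := by ring

theorem box2_nonneg (Fn : Ω → A → B → ℝ) :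
    0 ≤ 𝔼 w, 𝔼 a, 𝔼 a', 𝔼 b, 𝔼 b', Fn w a b * Fn w a' b * (Fn w a b' * Fn w a' b') := by
  refine ex_nonneg fun w => ex_nonneg fun a => ex_nonneg fun a' => ?_
  rw [← ex_sq (fun b => Fn w a b * Fn w a' b)]
  positivity

/-- Box inequality with three free variables. -/
theorem box3_cs [Nonempty A] [Nonempty B] (Fn : Ω → A → B → C → ℝ) (G1 : Ω → B → C → ℝ)
    (G2 : Ω → A → C → ℝ) (G3 : Ω → A → B → ℝ) :
    (𝔼 w, 𝔼 a, 𝔼 b, 𝔼 c, Fn w a b c * G1 w b c * G2 w a c * G3 w a b) ^ 8 ≤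
      (𝔼 w, 𝔼 b, 𝔼 c, G1 w b c ^ 2) ^ 4 * (𝔼 w, 𝔼 a, 𝔼 c, G2 w a c ^ 4) ^ 2 *
        (𝔼 w, 𝔼 a, 𝔼 b, G3 w a b ^ 8) *
        𝔼 w, 𝔼 a, 𝔼 a', 𝔼 b, 𝔼 b', 𝔼 c, 𝔼 c',
          (Fn w a b c * Fn w a' b c) * (Fn w a b' c * Fn w a' b' c) *
            ((Fn w a b c' * Fn w a' b c') * (Fn w a b' c' * Fn w a' b' c')) := by
  have s1 := cs_step (Ω := Ω × B × C) (A := A) (fun p => G1 p.1 p.2.1 p.2.2)
    (fun p a => Fn p.1 a p.2.1 p.2.2 * G2 p.1 a p.2.2 * G3 p.1 a p.2.1)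
  have s2 := box2_cs (Ω := Ω × A × A) (A := B) (B := C)
    (fun p b c => Fn p.1 p.2.1 b c * Fn p.1 p.2.2 b c)
    (fun p c => G2 p.1 p.2.1 c * G2 p.1 p.2.2 c) (fun p b => G3 p.1 p.2.1 b * G3 p.1 p.2.2 b)
  have s0 := box2_nonneg (Ω := Ω × A × A) (A := B) (B := C)
    (fun p b c => Fn p.1 p.2.1 b c * Fn p.1 p.2.2 b c)
  have s3 := pair_pow_le (Ω := Ω × C) (A := A) (fun p a => G2 p.1 a p.2) 2
  have s4 := pair_pow_le (Ω := Ω × B) (A := A) (fun p a => G3 p.1 a p.2) 4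
  simp only [ex_prod] at s0 s1 s2 s3 s4
  have e1 : (𝔼 w, 𝔼 a, 𝔼 b, 𝔼 c, Fn w a b c * G1 w b c * G2 w a c * G3 w a b) =
      𝔼 w, 𝔼 b, 𝔼 c, 𝔼 a, G1 w b c * (Fn w a b c * G2 w a c * G3 w a b) :=
    ex_congr fun w => by
      rw [ex_comm]
      refine ex_congr fun b => ?_
      rw [ex_comm]
      exact ex_congr fun c => ex_congr fun a => by ring
  have e2 : (𝔼 w, 𝔼 b, 𝔼 c, 𝔼 a, 𝔼 a', Fn w a b c * G2 w a c * G3 w a b *
        (Fn w a' b c * G2 w a' c * G3 w a' b)) =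
      𝔼 w, 𝔼 a, 𝔼 a', 𝔼 b, 𝔼 c, Fn w a b c * Fn w a' b c * (G2 w a c * G2 w a' c) *
        (G3 w a b * G3 w a' b) :=
    ex_congr fun w => by
      have : ∀ f : B → C → A → A → ℝ, (𝔼 b, 𝔼 c, 𝔼 a, 𝔼 a', f b c a a') =
          𝔼 a, 𝔼 a', 𝔼 b, 𝔼 c, f b c a a' := fun f => by
        have := ex_comm (A := B × C) (B := A × A) (fun p r => f p.1 p.2 r.1 r.2)
        simpa only [ex_prod] using this
      rw [this]
      exact ex_congr fun a => ex_congr fun a' => ex_congr fun b => ex_congr fun c => by ring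
  have e3 : (𝔼 w, 𝔼 a, 𝔼 a', 𝔼 c, (G2 w a c * G2 w a' c) ^ 2) ≤
      𝔼 w, 𝔼 a, 𝔼 c, G2 w a c ^ 4 := by
    have x1 : (𝔼 w, 𝔼 a, 𝔼 a', 𝔼 c, (G2 w a c * G2 w a' c) ^ 2) =
        𝔼 w, 𝔼 c, 𝔼 a, 𝔼 a', (G2 w a c * G2 w a' c) ^ 2 := ex_congr fun w => by
      rw [ex_comm (fun c a => 𝔼 a', (G2 w a c * G2 w a' c) ^ 2)]
      exact ex_congr fun a => ex_comm _
    have x2 : (𝔼 w, 𝔼 a, 𝔼 c, G2 w a c ^ 4) = 𝔼 w, 𝔼 c, 𝔼 a, G2 w a c ^ (2 * 2) :=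
      ex_congr fun w => ex_comm _
    rw [x1, x2]; exact s3
  have e4 : (𝔼 w, 𝔼 a, 𝔼 a', 𝔼 b, (G3 w a b * G3 w a' b) ^ 4) ≤
      𝔼 w, 𝔼 a, 𝔼 b, G3 w a b ^ 8 := by
    have x1 : (𝔼 w, 𝔼 a, 𝔼 a', 𝔼 b, (G3 w a b * G3 w a' b) ^ 4) =
        𝔼 w, 𝔼 b, 𝔼 a, 𝔼 a', (G3 w a b * G3 w a' b) ^ 4 := ex_congr fun w => by
      rw [ex_comm (fun b a => 𝔼 a', (G3 w a b * G3 w a' b) ^ 4)]
      exact ex_congr fun a => ex_comm _
    have x2 : (𝔼 w, 𝔼 a, 𝔼 b, G3 w a b ^ 8) = 𝔼 w, 𝔼 b, 𝔼 a, G3 w a b ^ (2 * 4) :=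
      ex_congr fun w => ex_comm _
    rw [x1, x2]; exact s4
  rw [e2] at s1
  rw [e1]
  set S := 𝔼 w, 𝔼 b, 𝔼 c, 𝔼 a, G1 w b c * (Fn w a b c * G2 w a c * G3 w a b)
  set g := 𝔼 w, 𝔼 b, 𝔼 c, G1 w b c ^ 2 with hg
  set T := 𝔼 w, 𝔼 a, 𝔼 a', 𝔼 b, 𝔼 c, Fn w a b c * Fn w a' b c * (G2 w a c * G2 w a' c) *
        (G3 w a b * G3 w a' b)
  set bx := 𝔼 w, 𝔼 a, 𝔼 a', 𝔼 b, 𝔼 b', 𝔼 c, 𝔼 c',
          (Fn w a b c * Fn w a' b c) * (Fn w a b' c * Fn w a' b' c) *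
            ((Fn w a b c' * Fn w a' b c') * (Fn w a b' c' * Fn w a' b' c'))
  set u2 := 𝔼 w, 𝔼 a, 𝔼 a', 𝔼 c, (G2 w a c * G2 w a' c) ^ 2 with hu2
  set u3 := 𝔼 w, 𝔼 a, 𝔼 a', 𝔼 b, (G3 w a b * G3 w a' b) ^ 4 with hu3
  have p2 : 0 ≤ u2 := by
    rw [hu2]
    exact ex_nonneg fun _ => ex_nonneg fun _ => ex_nonneg fun _ => ex_nonneg fun _ => by
      positivity
  have p3 : 0 ≤ u3 := by
    rw [hu3]
    exact ex_nonneg fun _ => ex_nonneg fun _ => ex_nonneg fun _ => ex_nonneg fun _ => by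
      positivity
  have h8 : S ^ 8 ≤ (g * T) ^ 4 := by
    have : S ^ 8 = (S ^ 2) ^ 4 := by ring
    rw [this]
    exact pow_le_pow_left₀ (sq_nonneg _) s1 4
  have h5 : T ^ 4 ≤ (𝔼 w, 𝔼 a, 𝔼 c, G2 w a c ^ 4) ^ 2 * (𝔼 w, 𝔼 a, 𝔼 b, G3 w a b ^ 8) * bx := by
    refine s2.trans (mul_le_mul_of_nonneg_right ?_ s0)
    exact mul_le_mul (pow_le_pow_left₀ p2 e3 2) e4 p3 (sq_nonneg _)
  have hg4 : 0 ≤ g ^ 4 := by positivity
  calc S ^ 8 ≤ g ^ 4 * T ^ 4 := by rw [← mul_pow]; exact h8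
    _ ≤ g ^ 4 * ((𝔼 w, 𝔼 a, 𝔼 c, G2 w a c ^ 4) ^ 2 * (𝔼 w, 𝔼 a, 𝔼 b, G3 w a b ^ 8) * bx) :=
      mul_le_mul_of_nonneg_left h5 hg4
    _ = _ := by ring

end CS

/-- A product of at most `R` nonnegative numbers is at most `1 + ∑ x ^ R`. -/
theorem prod_le_one_add_sum {ι : Type*} (s : Finset ι) (x : ι → ℝ) (hx : ∀ i, 0 ≤ x i) (R : ℕ)
    (hR : s.card ≤ R) : ∏ i ∈ s, x i ≤ 1 + ∑ i ∈ s, x i ^ R := by
  rcases s.eq_empty_or_nonempty with rfl | hs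
  · simp
  obtain ⟨j, hj, hmax⟩ := s.exists_max_image x hs
  have h1 : ∏ i ∈ s, x i ≤ x j ^ s.card := by
    rw [← Finset.prod_const]
    exact Finset.prod_le_prod (fun i _ => hx i) hmax
  have h2 : x j ^ R ≤ ∑ i ∈ s, x i ^ R :=
    Finset.single_le_sum (f := fun i => x i ^ R) (fun i _ => pow_nonneg (hx i) R) hj
  have h3 : x j ^ s.card ≤ 1 + x j ^ R := by
    rcases le_total (x j) 1 with h | h
    · have := pow_le_one₀ (n := s.card) (hx j) h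
      have := pow_nonneg (hx j) R
      linarith
    · have := pow_le_pow_right₀ h hR
      linarith
  linarith

/-- Moebius type coefficients on a finite subset of a poset. -/
theorem exists_moebius {P : Type*} [PartialOrder P] [DecidableEq P] [DecidableLE P]
    (s : Finset P) :
    ∃ a : P → ℝ, (∀ U ∈ s, ∑ T ∈ s with U ≤ T, a T = 1) ∧ ∑ T ∈ s, |a T| + 1 ≤ 2 ^ s.card := by
  induction hn : s.card generalizing s with
  | zero =>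
    rw [Finset.card_eq_zero] at hn
    subst hn
    exact ⟨fun _ => 0, by simp, by simp⟩
  | succ n ih =>
    have hne : s.Nonempty := by rw [← Finset.card_pos]; omega
    obtain ⟨U, hU⟩ := s.exists_minimal hne
    have hUs : U ∈ s := hU.prop
    obtain ⟨a, ha, hb⟩ := ih (s.erase U) (by rw [Finset.card_erase_of_mem hUs]; omega)
    obtain ⟨z, hz⟩ : ∃ z, z = 1 - ∑ T ∈ s.erase U with U ≤ T, a T := ⟨_, rfl⟩
    refine ⟨Function.update a U z, ?_, ?_⟩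
    · intro V hV
      by_cases hVU : V = U
      · subst hVU
        have : s.filter (fun T => V ≤ T) = insert V ((s.erase V).filter (fun T => V ≤ T)) := by
          ext T
          simp only [Finset.mem_filter, Finset.mem_insert, Finset.mem_erase]
          constructor
          · rintro ⟨h1, h2⟩
            by_cases h : T = V
            · exact Or.inl h
            · exact Or.inr ⟨⟨h, h1⟩, h2⟩
          · rintro (rfl | ⟨⟨_, h1⟩, h2⟩)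
            · exact ⟨hV, le_rfl⟩
            · exact ⟨h1, h2⟩
        rw [this, Finset.sum_insert (by simp), Function.update_self]
        rw [Finset.sum_congr rfl (g := a) (fun T hT => Function.update_of_ne
          (Finset.mem_erase.1 (Finset.mem_filter.1 hT).1).1 _ _), hz]
        ring
      · have : s.filter (fun T => V ≤ T) = (s.erase U).filter (fun T => V ≤ T) := by
          ext T
          simp only [Finset.mem_filter, Finset.mem_erase]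
          constructor
          · rintro ⟨h1, h2⟩
            refine ⟨⟨?_, h1⟩, h2⟩
            rintro rfl
            exact hVU (le_antisymm h2 (hU.le_of_le hV h2))
          · rintro ⟨⟨_, h1⟩, h2⟩
            exact ⟨h1, h2⟩
        rw [this, Finset.sum_congr rfl (g := a) (fun T hT => Function.update_of_ne
          (Finset.mem_erase.1 (Finset.mem_filter.1 hT).1).1 _ _)]
        exact ha V (Finset.mem_erase.2 ⟨hVU, hV⟩)
    · rw [← Finset.add_sum_erase s _ hUs, Function.update_self]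
      rw [Finset.sum_congr rfl (g := fun T => |a T|) (fun T hT => by
        rw [Function.update_of_ne (Finset.mem_erase.1 hT).1])]
      have h1 : |∑ T ∈ s.erase U with U ≤ T, a T| ≤ ∑ T ∈ s.erase U, |a T| :=
        (Finset.abs_sum_le_sum_abs _ _).trans
          (Finset.sum_le_sum_of_subset_of_nonneg (Finset.filter_subset _ _)
            (fun _ _ _ => abs_nonneg _))
      have h2 : |z| ≤ 1 + ∑ T ∈ s.erase U, |a T| := by
        rw [hz]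
        refine (abs_sub _ _).trans ?_
        rw [abs_one]; linarith
      rw [pow_succ]
      linarith

end SD.Moa
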