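import Pool.Agent.Lib.MP_ecee09_co.SD.Defs

/-! Basic API for `sm`, `av`, `ind`, `sg`, `cnt`, `cond`. -/

namespace SD

open Module
open scoped BigOperators

section sums
variable {α β : Type}

lemma sm_eq [Fintype α] (f : α → ℝ) : sm f = ∑ x, f x := finsum_eq_sum_of_fintype f

lemma av_def (f : α → ℝ) : av f = sm f / (Nat.card α : ℝ) := rfl

lemma av_eq [Fintype α] (f : α → ℝ) : av f = (∑ x, f x) / (Fintype.card α : ℝ) := by
  rw [av_def, sm_eq, Nat.card_eq_fintype_card]

lemma av_eq_expect [Fintype α] (f : α → ℝ) : av f = Finset.univ.expect f := by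
  rw [av_eq, Fintype.expect_eq_sum_div_card]

lemma card_pos' [Finite α] [Nonempty α] : (0 : ℝ) < Nat.card α := by
  exact_mod_cast Nat.card_pos

lemma sm_eq_card_mul_av [Finite α] [Nonempty α] (f : α → ℝ) : sm f = Nat.card α * av f := by
  rw [av_def]; have := card_pos' (α := α); field_simp

lemma sm_congr {f g : α → ℝ} (h : ∀ x, f x = g x) : sm f = sm g := by rw [funext h]

lemma av_congr {f g : α → ℝ} (h : ∀ x, f x = g x) : av f = av g := by rw [funext h]

lemma sm_zero : sm (fun _ : α => (0 : ℝ)) = 0 := by simp [sm]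

lemma av_zero : av (fun _ : α => (0 : ℝ)) = 0 := by simp [av]

variable [Finite α] [Finite β]

lemma sm_add (f g : α → ℝ) : sm (fun x => f x + g x) = sm f + sm g := by
  let _ := Fintype.ofFinite α; simp only [sm_eq, Finset.sum_add_distrib]

lemma sm_sub (f g : α → ℝ) : sm (fun x => f x - g x) = sm f - sm g := by
  let _ := Fintype.ofFinite α; simp only [sm_eq, Finset.sum_sub_distrib]

lemma sm_mul_left (c : ℝ) (f : α → ℝ) : sm (fun x => c * f x) = c * sm f := by
  let _ := Fintype.ofFinite α; simp only [sm_eq, Finset.mul_sum]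

lemma sm_mul_right (c : ℝ) (f : α → ℝ) : sm (fun x => f x * c) = sm f * c := by
  let _ := Fintype.ofFinite α; simp only [sm_eq, Finset.sum_mul]

lemma sm_div (c : ℝ) (f : α → ℝ) : sm (fun x => f x / c) = sm f / c := by
  simp only [div_eq_mul_inv, sm_mul_right]

lemma sm_neg (f : α → ℝ) : sm (fun x => - f x) = - sm f := by
  let _ := Fintype.ofFinite α; simp only [sm_eq, Finset.sum_neg_distrib]

lemma sm_const (c : ℝ) : sm (fun _ : α => c) = Nat.card α * c := by
  let _ := Fintype.ofFinite α; simp [sm_eq]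

lemma sm_mono {f g : α → ℝ} (h : ∀ x, f x ≤ g x) : sm f ≤ sm g := by
  let _ := Fintype.ofFinite α; simp only [sm_eq]; exact Finset.sum_le_sum fun x _ => h x

lemma sm_nonneg {f : α → ℝ} (h : ∀ x, 0 ≤ f x) : 0 ≤ sm f := by
  let _ := Fintype.ofFinite α; simp only [sm_eq]; exact Finset.sum_nonneg fun x _ => h x

lemma single_le_sm {f : α → ℝ} (h : ∀ x, 0 ≤ f x) (a : α) : f a ≤ sm f := by
  let _ := Fintype.ofFinite α; simp only [sm_eq]
  exact Finset.single_le_sum (fun x _ => h x) (Finset.mem_univ a)

lemma abs_sm_le (f : α → ℝ) : |sm f| ≤ sm fun x => |f x| := by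
  let _ := Fintype.ofFinite α; simp only [sm_eq]; exact Finset.abs_sum_le_sum_abs _ _

lemma sm_comm (f : α → β → ℝ) : sm (fun x => sm fun y => f x y) = sm fun y => sm fun x => f x y := by
  let _ := Fintype.ofFinite α; let _ := Fintype.ofFinite β; simp only [sm_eq]
  exact Finset.sum_comm

lemma sm_prod (f : α × β → ℝ) : sm f = sm fun x => sm fun y => f (x, y) := by
  let _ := Fintype.ofFinite α; let _ := Fintype.ofFinite β; simp only [sm_eq]
  exact Fintype.sum_prod_type f

omit [Finite α] [Finite β] in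
lemma sm_equiv (e : α ≃ β) (f : β → ℝ) : sm (fun x => f (e x)) = sm f :=
  finsum_comp_equiv e

lemma sm_mul_sm (f : α → ℝ) (g : β → ℝ) : sm f * sm g = sm fun x => sm fun y => f x * g y := by
  simp only [sm_mul_left, sm_mul_right]

lemma sm_sum {ι : Type} (s : Finset ι) (f : ι → α → ℝ) :
    sm (fun x => ∑ i ∈ s, f i x) = ∑ i ∈ s, sm (f i) := by
  let _ := Fintype.ofFinite α; simp only [sm_eq]; exact Finset.sum_comm

lemma sm_cs (f g : α → ℝ) :
    (sm fun x => f x * g x) ^ 2 ≤ (sm fun x => f x ^ 2) * sm fun x => g x ^ 2 := by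
  let _ := Fintype.ofFinite α; simp only [sm_eq]
  exact Finset.sum_mul_sq_le_sq_mul_sq _ _ _

lemma prod_sm {ι : Type} [Fintype ι] (f : ι → α → ℝ) :
    ∏ i, sm (f i) = sm fun x : ι → α => ∏ i, f i (x i) := by
  classical
  let _ := Fintype.ofFinite α; simp only [sm_eq]
  rw [Finset.prod_univ_sum]; simp

lemma av_add (f g : α → ℝ) : av (fun x => f x + g x) = av f + av g := by
  simp only [av_def, sm_add, add_div]

lemma av_sub (f g : α → ℝ) : av (fun x => f x - g x) = av f - av g := by
  simp only [av_def, sm_sub, sub_div]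

lemma av_neg (f : α → ℝ) : av (fun x => - f x) = - av f := by
  simp only [av_def, sm_neg, neg_div]

lemma av_mul_left (c : ℝ) (f : α → ℝ) : av (fun x => c * f x) = c * av f := by
  simp only [av_def, sm_mul_left, mul_div_assoc]

lemma av_mul_right (c : ℝ) (f : α → ℝ) : av (fun x => f x * c) = av f * c := by
  simp only [av_def, sm_mul_right]; ring

lemma av_div (c : ℝ) (f : α → ℝ) : av (fun x => f x / c) = av f / c := by
  simp only [div_eq_mul_inv, av_mul_right]

lemma av_const [Nonempty α] (c : ℝ) : av (fun _ : α => c) = c := by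
  rw [av_def, sm_const]; have := card_pos' (α := α); field_simp

lemma av_mono {f g : α → ℝ} (h : ∀ x, f x ≤ g x) : av f ≤ av g := by
  simp only [av_def]; exact div_le_div_of_nonneg_right (sm_mono h) (Nat.cast_nonneg _)

lemma av_nonneg {f : α → ℝ} (h : ∀ x, 0 ≤ f x) : 0 ≤ av f :=
  div_nonneg (sm_nonneg h) (Nat.cast_nonneg _)

lemma av_le_const [Nonempty α] {f : α → ℝ} {c : ℝ} (h : ∀ x, f x ≤ c) : av f ≤ c :=
  (av_mono h).trans (av_const c).le

lemma const_le_av [Nonempty α] {f : α → ℝ} {c : ℝ} (h : ∀ x, c ≤ f x) : c ≤ av f :=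
  (av_const c).ge.trans (av_mono h)

lemma abs_av_le (f : α → ℝ) : |av f| ≤ av fun x => |f x| := by
  simp only [av_def, abs_div, Nat.abs_cast]
  exact div_le_div_of_nonneg_right (abs_sm_le f) (Nat.cast_nonneg _)

lemma av_sm_comm (f : α → β → ℝ) :
    av (fun x => sm fun y => f x y) = sm fun y => av fun x => f x y := by
  simp only [av_def, sm_div]; rw [sm_comm]

lemma av_comm (f : α → β → ℝ) : av (fun x => av fun y => f x y) = av fun y => av fun x => f x y := by
  simp only [av_def, sm_div]; rw [sm_comm]; ring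

lemma av_prod (f : α × β → ℝ) : av f = av fun x => av fun y => f (x, y) := by
  simp only [av_def, sm_div]; rw [sm_prod, Nat.card_prod]; push_cast; ring

omit [Finite α] [Finite β] in
lemma av_equiv (e : α ≃ β) (f : β → ℝ) : av (fun x => f (e x)) = av f := by
  simp only [av_def, sm_equiv e f, Nat.card_congr e]

lemma av_mul_av (f : α → ℝ) (g : β → ℝ) : av f * av g = av fun x => av fun y => f x * g y := by
  simp only [av_mul_left, av_mul_right]

lemma av_sum {ι : Type} (s : Finset ι) (f : ι → α → ℝ) :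
    av (fun x => ∑ i ∈ s, f i x) = ∑ i ∈ s, av (f i) := by
  simp only [av_def, sm_sum, Finset.sum_div]

lemma prod_av {ι : Type} [Fintype ι] (f : ι → α → ℝ) :
    ∏ i, av (f i) = av fun x : ι → α => ∏ i, f i (x i) := by
  simp only [av_def, Finset.prod_div_distrib, prod_sm, Finset.prod_const, Finset.card_univ]
  rw [Nat.card_fun, Nat.card_eq_fintype_card (α := ι)]; push_cast; rfl

lemma av_cs (f g : α → ℝ) :
    (av fun x => f x * g x) ^ 2 ≤ (av fun x => f x ^ 2) * av fun x => g x ^ 2 := by
  simp only [av_def, div_pow, div_mul_div_comm]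
  rw [← sq]
  exact div_le_div_of_nonneg_right (sm_cs f g) (by positivity)

lemma av_one_le : av (fun _ : α => (1 : ℝ)) ≤ 1 := by
  cases isEmpty_or_nonempty α with
  | inl h => simp [av]
  | inr h => exact (av_const 1).le

lemma av_sq_le (f : α → ℝ) : (av f) ^ 2 ≤ av fun x => f x ^ 2 := by
  have h := av_cs f (fun _ => 1)
  simp only [mul_one, one_pow] at h
  exact h.trans (mul_le_of_le_one_right (av_nonneg fun x => sq_nonneg _) av_one_le)

/-- Cauchy-Schwarz in the form `|<f,g>| <= sqrt a * sqrt b` -/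
lemma abs_av_mul_le (f g : α → ℝ) :
    |av fun x => f x * g x| ≤ Real.sqrt (av fun x => f x ^ 2) * Real.sqrt (av fun x => g x ^ 2) := by
  rw [← Real.sqrt_mul (av_nonneg fun x => sq_nonneg _)]
  exact Real.abs_le_sqrt (av_cs f g)

/-- Jensen -/
lemma abs_av_pow_le [Nonempty α] (f : α → ℝ) (p : ℕ) : |av f| ^ p ≤ av fun x => |f x| ^ p := by
  let _ := Fintype.ofFinite α
  refine (pow_le_pow_left₀ (abs_nonneg _) (abs_av_le f) p).trans ?_
  rcases p with _ | p
  · simp [av_const]
  · simp only [av_eq]
    have h := pow_sum_div_card_le_sum_pow (s := Finset.univ) (f := fun x => |f x|)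
      (fun x _ => abs_nonneg _) p
    have hc : (0 : ℝ) < Fintype.card α := by exact_mod_cast Fintype.card_pos
    rw [Finset.card_univ] at h
    rw [div_pow, div_le_div_iff₀ (by positivity) hc]
    rw [div_le_iff₀ (by positivity)] at h
    calc _ ≤ ((∑ x, |f x| ^ (p + 1)) * (Fintype.card α : ℝ) ^ p) * Fintype.card α :=
          mul_le_mul_of_nonneg_right h hc.le
      _ = _ := by ring

lemma exists_av_le [Nonempty α] (f : α → ℝ) : ∃ x, av f ≤ f x := by
  obtain ⟨x, hx⟩ := Finite.exists_max f
  exact ⟨x, av_le_const hx⟩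

lemma exists_le_av [Nonempty α] (f : α → ℝ) : ∃ x, f x ≤ av f := by
  obtain ⟨x, hx⟩ := Finite.exists_min f
  exact ⟨x, const_le_av hx⟩

omit [Finite α] in
lemma av_add_right [AddGroup α] (f : α → ℝ) (a : α) : av (fun x => f (x + a)) = av f :=
  av_equiv (Equiv.addRight a) f

omit [Finite α] in
lemma av_add_left [AddGroup α] (f : α → ℝ) (a : α) : av (fun x => f (a + x)) = av f :=
  av_equiv (Equiv.addLeft a) f

omit [Finite α] in
lemma sm_add_right [AddGroup α] (f : α → ℝ) (a : α) : sm (fun x => f (x + a)) = sm f :=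
  sm_equiv (Equiv.addRight a) f

omit [Finite α] in
lemma sm_add_left [AddGroup α] (f : α → ℝ) (a : α) : sm (fun x => f (a + x)) = sm f :=
  sm_equiv (Equiv.addLeft a) f

end sums

section inds

lemma ind_pos {p : Prop} (h : p) : ind p = 1 := by simp [ind, h]

lemma ind_neg {p : Prop} (h : ¬ p) : ind p = 0 := by simp [ind, h]

lemma ind_eq (p : Prop) [Decidable p] : ind p = if p then 1 else 0 := by
  by_cases h : p <;> simp [ind, h]

lemma ind_nonneg (p : Prop) : 0 ≤ ind p := by by_cases h : p <;> simp [ind, h]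

lemma ind_le_one (p : Prop) : ind p ≤ 1 := by by_cases h : p <;> simp [ind, h]

lemma abs_ind (p : Prop) : |ind p| = ind p := abs_of_nonneg (ind_nonneg p)

lemma ind_and (p q : Prop) : ind (p ∧ q) = ind p * ind q := by
  by_cases h : p <;> by_cases h' : q <;> simp [ind, h, h']

lemma ind_not (p : Prop) : ind (¬ p) = 1 - ind p := by by_cases h : p <;> simp [ind, h]

lemma ind_mul_self (p : Prop) : ind p * ind p = ind p := by by_cases h : p <;> simp [ind, h]

lemma ind_sq (p : Prop) : ind p ^ 2 = ind p := by rw [sq, ind_mul_self]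

lemma ind_congr {p q : Prop} (h : p ↔ q) : ind p = ind q := by rw [propext h]

lemma ind_mono {p q : Prop} (h : p → q) : ind p ≤ ind q := by
  by_cases hp : p
  · rw [ind_pos hp, ind_pos (h hp)]
  · rw [ind_neg hp]; exact ind_nonneg q

lemma ind_or_le (p q : Prop) : ind (p ∨ q) ≤ ind p + ind q := by
  by_cases h : p <;> by_cases h' : q <;> simp [ind, h, h']

lemma ind_forall {ι : Type} [Fintype ι] (p : ι → Prop) : ind (∀ i, p i) = ∏ i, ind (p i) := by
  by_cases h : ∀ i, p i
  · rw [ind_pos h]; exact (Finset.prod_eq_one fun i _ => ind_pos (h i)).symm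
  · rw [ind_neg h]; push Not at h; obtain ⟨i, hi⟩ := h
    exact (Finset.prod_eq_zero (Finset.mem_univ i) (ind_neg hi)).symm

variable {α : Type} [Finite α]

lemma ind_exists_le (p : α → Prop) : ind (∃ x, p x) ≤ sm fun x => ind (p x) := by
  by_cases h : ∃ x, p x
  · obtain ⟨x, hx⟩ := h
    rw [ind_pos ⟨x, hx⟩, ← ind_pos hx]
    exact single_le_sm (f := fun x => ind (p x)) (fun _ => ind_nonneg _) x
  · rw [ind_neg h]; exact sm_nonneg fun _ => ind_nonneg _

lemma sm_ind_eq (a : α) (f : α → ℝ) : sm (fun x => ind (x = a) * f x) = f a := by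
  classical
  let _ := Fintype.ofFinite α; simp [sm_eq, ind_eq]

lemma sm_ind_eq' (a : α) (f : α → ℝ) : sm (fun x => ind (a = x) * f x) = f a := by
  rw [← sm_ind_eq a f]; exact sm_congr fun x => by rw [ind_congr eq_comm]

lemma sm_ind_one (a : α) : sm (fun x => ind (x = a)) = 1 := by
  simpa using sm_ind_eq a fun _ => 1

lemma av_ind_eq (a : α) (f : α → ℝ) : av (fun x => ind (x = a) * f x) = f a / Nat.card α := by
  rw [av_def, sm_ind_eq]

lemma av_ind_nonneg (p : α → Prop) : 0 ≤ av fun x => ind (p x) := av_nonneg fun _ => ind_nonneg _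

lemma av_ind_le_one (p : α → Prop) : av (fun x => ind (p x)) ≤ 1 :=
  (av_mono fun _ => ind_le_one _).trans av_one_le

/-- Markov -/
lemma markov {f : α → ℝ} (h : ∀ x, 0 ≤ f x) {t : ℝ} (ht : 0 < t) :
    av (fun x => ind (t ≤ f x)) ≤ av f / t := by
  rw [← av_div]
  refine av_mono fun x => ?_
  by_cases hx : t ≤ f x
  · rw [ind_pos hx, le_div_iff₀ ht]; simpa using hx
  · rw [ind_neg hx]; exact div_nonneg (h x) ht.le

lemma cnt_eq_ncard (s : Set α) : cnt s = s.ncard := by
  classical
  let _ := Fintype.ofFinite α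
  rw [cnt, sm_eq, Set.ncard_eq_toFinset_card' s]
  simp [ind_eq]

lemma cnt_eq_card (s : Set α) : cnt s = Nat.card s := by
  rw [cnt_eq_ncard, Nat.card_coe_set_eq]

lemma cnt_finset (s : Finset α) : cnt (s : Set α) = s.card := by
  rw [cnt_eq_ncard, Set.ncard_coe_finset]

lemma cnt_nonneg (s : Set α) : 0 ≤ cnt s := sm_nonneg fun _ => ind_nonneg _

lemma cnt_mono {s t : Set α} (h : s ⊆ t) : cnt s ≤ cnt t := sm_mono fun _ => ind_mono fun hx => h hx

/-- sum over a subtype -/
lemma sm_subtype (p : α → Prop) (f : α → ℝ) :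
    sm (fun x : {x // p x} => f x) = sm fun x => ind (p x) * f x := by
  classical
  let _ := Fintype.ofFinite α
  rw [sm_eq, sm_eq, ← Finset.sum_subtype (Finset.univ.filter p) (by simp) f, Finset.sum_filter]
  exact Finset.sum_congr rfl fun x _ => by by_cases h : p x <;> simp [ind, h]

/-- group a sum by the fibres of a map -/
lemma sm_fiber {β : Type} [Finite β] (g : α → β) (f : α → ℝ) :
    sm f = sm fun y => sm fun x => ind (g x = y) * f x := by
  rw [sm_comm]
  refine sm_congr fun x => ?_
  rw [sm_mul_right]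
  have := sm_ind_eq' (g x) fun _ => (1 : ℝ)
  simp only [mul_one] at this
  rw [this, one_mul]

/-- counting by an injection -/
lemma sm_ind_le_of_inj {β : Type} [Finite β] (p : α → Prop) (q : β → Prop) (r : α → β → Prop)
    (hex : ∀ x, p x → ∃ y, q y ∧ r x y) (hinj : ∀ x x' y, p x → p x' → r x y → r x' y → x = x') :
    sm (fun x => ind (p x)) ≤ sm fun y => ind (q y) := by
  have h1 := cnt_eq_card {x | p x}
  have h2 := cnt_eq_card {y | q y}
  simp only [cnt, Set.mem_setOf_eq] at h1 h2
  rw [h1, h2]
  choose g hg using hex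
  exact_mod_cast Nat.card_le_card_of_injective
    (fun x : {x | p x} => (⟨g x.1 x.2, (hg x.1 x.2).1⟩ : {y | q y})) fun x x' h =>
      Subtype.ext (hinj x.1 x'.1 (g x.1 x.2) x.2 x'.2 (hg x.1 x.2).2 (by
        have h' : g x.1 x.2 = g x'.1 x'.2 := congrArg Subtype.val h
        rw [h']; exact (hg x'.1 x'.2).2))

/-- a crude Hoelder bound for products -/
lemma abs_prod_le {ι : Type} [Fintype ι] (a : ι → ℝ) :
    |∏ i, a i| ≤ 1 + ∑ i, |a i| ^ Fintype.card ι := by
  cases isEmpty_or_nonempty ι with
  | inl h => simp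
  | inr h =>
    obtain ⟨j, hj⟩ := Finite.exists_max fun i => |a i|
    have h1 : |∏ i, a i| ≤ |a j| ^ Fintype.card ι := by
      rw [Finset.abs_prod, ← Finset.card_univ, ← Finset.prod_const]
      exact Finset.prod_le_prod (fun i _ => abs_nonneg _) fun i _ => hj i
    have h2 : |a j| ^ Fintype.card ι ≤ ∑ i, |a i| ^ Fintype.card ι :=
      Finset.single_le_sum (f := fun i => |a i| ^ Fintype.card ι) (fun i _ => by positivity)
        (Finset.mem_univ j)
    linarith

end inds

section chartwo
variable {X Y : Type} [AddCommGroup X] [Module F X]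

lemma F_cases (a : F) : a = 0 ∨ a = 1 := by revert a; decide

lemma F_add_self (a : F) : a + a = 0 := by revert a; decide

lemma F_mul_self (a : F) : a * a = a := by revert a; decide

lemma add_self2 (x : X) : x + x = 0 := by
  have : (1 + 1 : F) • x = x + x := by rw [add_smul, one_smul]
  rw [← this, F_add_self, zero_smul]

lemma neg_eq2 (x : X) : -x = x := neg_eq_of_add_eq_zero_left (add_self2 x)

lemma sub_eq2 (x y : X) : x - y = x + y := by rw [sub_eq_add_neg, neg_eq2]

lemma add_eq_zero2 {x y : X} : x + y = 0 ↔ x = y := by rw [← sub_eq2, sub_eq_zero]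

/-- an additive map between `F`-spaces is linear -/
def linOf [AddCommGroup Y] [Module F Y] (f : X → Y) (h : ∀ a b, f (a + b) = f a + f b) :
    X →ₗ[F] Y where
  toFun := f
  map_add' := h
  map_smul' a x := by
    have h0 : f 0 = 0 := by simpa using h 0 0
    rcases F_cases a with rfl | rfl <;> simp [h0]

@[simp] lemma linOf_apply [AddCommGroup Y] [Module F Y] (f : X → Y)
    (h : ∀ a b, f (a + b) = f a + f b) (x : X) : linOf f h x = f x := rfl

lemma card_eq_pow [Finite X] : Nat.card X = 2 ^ finrank F X := by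
  rw [Module.natCard_eq_pow_finrank (K := F), Nat.card_zmod]

lemma finrank_Fk (k : ℕ) : finrank F (Fk k) = k := by simp

lemma exists_inj [Finite X] {k : ℕ} (h : k ≤ finrank F X) :
    ∃ Φ : Hom k X, Function.Injective Φ := by
  have := (finrank_le_iff_exists_linearMap (R := F) (M := Fk k) (M' := X)).1 (by simpa using h)
  exact this

@[simp] lemma sg_zero : sg 0 = 1 := by simp [sg]

@[simp] lemma sg_one : sg 1 = -1 := by simp [sg]

lemma sg_add (a b : F) : sg (a + b) = sg a * sg b := by
  rcases F_cases a with rfl | rfl <;> rcases F_cases b with rfl | rfl <;> simp [F_add_self]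

lemma sg_mul_self (a : F) : sg a * sg a = 1 := by rcases F_cases a with rfl | rfl <;> simp

lemma sg_sq (a : F) : sg a ^ 2 = 1 := by rw [sq, sg_mul_self]

lemma abs_sg (a : F) : |sg a| = 1 := by rcases F_cases a with rfl | rfl <;> simp

lemma sg_le_one (a : F) : sg a ≤ 1 := (le_abs_self _).trans (abs_sg a).le

lemma sg_sum {ι : Type} (s : Finset ι) (f : ι → F) : sg (∑ i ∈ s, f i) = ∏ i ∈ s, sg (f i) := by
  classical
  induction s using Finset.induction_on with
  | empty => simp
  | insert a s ha ih => rw [Finset.sum_insert ha, Finset.prod_insert ha, sg_add, ih]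

end chartwo

section groups
variable {X Y : Type} [AddCommGroup X] [Finite X] [AddCommGroup Y] [Finite Y]

/-- orthogonality for an additive map to `F` -/
lemma av_sg (f : X → F) (h : ∀ a b, f (a + b) = f a + f b) :
    av (fun x => sg (f x)) = ind (∀ x, f x = 0) := by
  by_cases h0 : ∀ x, f x = 0
  · rw [ind_pos h0]; simp [h0, av_const]
  · rw [ind_neg h0]; push Not at h0; obtain ⟨a, ha⟩ := h0
    have ha1 : f a = 1 := (F_cases _).resolve_left ha
    have h1 := av_add_right (fun x => sg (f x)) a
    simp only [h, sg_add, ha1, sg_one, av_mul_right] at h1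
    linarith

/-- averaging is preserved by an onto additive map -/
lemma av_surj (L : X → Y) (h : ∀ a b, L (a + b) = L a + L b) (hs : Function.Surjective L)
    (f : Y → ℝ) : av (fun x => f (L x)) = av f := by
  choose s hs using hs
  have h1 : ∀ y, av (fun x => f (L x)) = av fun x => f (L x + y) := fun y => by
    rw [← av_add_right (fun x => f (L x)) (s y)]; simp only [h, hs]
  calc av (fun x => f (L x)) = av fun y : Y => av fun x => f (L x + y) := by
        rw [← av_const (α := Y) (av fun x => f (L x))]; exact av_congr h1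
    _ = av fun x : X => av f := by rw [av_comm]; exact av_congr fun x => av_add_left f _
    _ = av f := av_const _

/-- a random shift does not change the average -/
lemma av_shift {O : Type} [Finite O] [Nonempty O] (f : X → ℝ) (s : O → X) :
    av (fun x => av fun o => f (x + s o)) = av f := by
  rw [av_comm]; simp only [av_add_right]; exact av_const _

lemma cond_mul (L : X → Y) (g : X → ℝ) (φ : Y → ℝ) (y : Y) :
    cond L (fun x => g x * φ (L x)) y = cond L g y * φ y := by
  simp only [cond]
  rw [mul_assoc, ← av_mul_right]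
  congr 1
  refine av_congr fun x => ?_
  by_cases h : L x = y
  · rw [h]; ring
  · rw [ind_neg h]; ring

lemma av_cond_mul (L : X → Y) (g : X → ℝ) (φ : Y → ℝ) :
    av (fun y => cond L g y * φ y) = av fun x => g x * φ (L x) := by
  simp only [← cond_mul]
  simp only [cond]
  rw [av_mul_left, av_comm]
  have hc := card_pos' (α := Y)
  have : ∀ x, (av fun y => ind (L x = y) * (g x * φ (L x))) = g x * φ (L x) / Nat.card Y := by
    intro x; rw [av_def, sm_ind_eq' (L x) fun _ => g x * φ (L x)]
  simp only [this, av_div]; field_simp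

lemma av_cond (L : X → Y) (g : X → ℝ) : av (cond L g) = av g := by
  simpa using av_cond_mul L g fun _ => 1

lemma cond_add (L : X → Y) (f g : X → ℝ) (y : Y) :
    cond L (fun x => f x + g x) y = cond L f y + cond L g y := by
  simp only [cond, mul_add, av_add]

lemma cond_mul_left (L : X → Y) (c : ℝ) (g : X → ℝ) (y : Y) :
    cond L (fun x => c * g x) y = c * cond L g y := by
  simp only [cond, mul_left_comm _ c, av_mul_left]

lemma cond_mono (L : X → Y) {f g : X → ℝ} (h : ∀ x, f x ≤ g x) (y : Y) :
    cond L f y ≤ cond L g y :=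
  mul_le_mul_of_nonneg_left
    (av_mono fun x => mul_le_mul_of_nonneg_left (h x) (ind_nonneg _)) (Nat.cast_nonneg _)

lemma cond_nonneg (L : X → Y) {g : X → ℝ} (h : ∀ x, 0 ≤ g x) (y : Y) : 0 ≤ cond L g y :=
  mul_nonneg (Nat.cast_nonneg _) (av_nonneg fun x => mul_nonneg (ind_nonneg _) (h x))

lemma cond_shift (L : X → Y) (h : ∀ a b, L (a + b) = L a + L b) (g : X → ℝ) (z : X) (y : Y) :
    cond L (fun x => g (x + z)) y = cond L g (y + L z) := by
  simp only [cond]
  rw [← av_add_right (fun x => ind (L x = y + L z) * g x) z]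
  simp only [h, add_left_inj]

lemma cond_av {O : Type} [Finite O] (L : X → Y) (g : X → O → ℝ) (y : Y) :
    cond L (fun x => av (g x)) y = av fun o => cond L (fun x => g x o) y := by
  simp only [cond]
  rw [av_mul_left, ← av_comm]
  congr 1
  exact av_congr fun x => (av_mul_left _ _).symm

lemma cond_comp (L : X → Y) (h : ∀ a b, L (a + b) = L a + L b) (hs : Function.Surjective L)
    (φ : Y → ℝ) (y : Y) : cond L (fun x => φ (L x)) y = φ y := by
  simp only [cond]
  rw [av_surj L h hs fun y' => ind (y' = y) * φ y', av_ind_eq]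
  have hc := card_pos' (α := Y); field_simp

/-- Jensen for `cond` -/
lemma abs_cond_pow_le (L : X → Y) (h : ∀ a b, L (a + b) = L a + L b) (hs : Function.Surjective L)
    (g : X → ℝ) (p : ℕ) (y : Y) : |cond L g y| ^ p ≤ cond L (fun x => |g x| ^ p) y := by
  obtain ⟨x0, hx0⟩ := hs y
  have : Nonempty {x // L x = y} := ⟨⟨x0, hx0⟩⟩
  have hc := card_pos' (α := Y)
  have hX := card_pos' (α := X)
  have hf := card_pos' (α := {x // L x = y})
  have h1 := cond_comp L h hs (fun _ => 1) y
  have key : ∀ f : X → ℝ, cond L f y =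
      (Nat.card Y * Nat.card {x // L x = y} / Nat.card X) * av fun x : {x // L x = y} => f x := by
    intro f
    rw [cond, av_def, ← sm_subtype (fun x => L x = y) f, sm_eq_card_mul_av]; ring
  rw [key, av_const, mul_one] at h1
  rw [key, key, h1, one_mul, one_mul]
  exact abs_av_pow_le _ p

lemma Tame.cond {D : ℕ → ℝ} {g : X → ℝ} (hg : Tame D g) (L : X → Y)
    (h : ∀ a b, L (a + b) = L a + L b) (hs : Function.Surjective L) : Tame D (cond L g) :=
  fun p => (av_mono fun y => abs_cond_pow_le L h hs g p y).trans ((av_cond L _).trans_le (hg p))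

lemma Tame.comp {D : ℕ → ℝ} {g : Y → ℝ} (hg : Tame D g) (L : X → Y)
    (h : ∀ a b, L (a + b) = L a + L b) (hs : Function.Surjective L) :
    Tame D (fun x => g (L x)) :=
  fun p => (av_surj L h hs fun y => |g y| ^ p).trans_le (hg p)

/-- averaging shifted copies with weights of modulus at most one keeps the profile -/
lemma Tame.avShift {O : Type} [Finite O] [Nonempty O] {D : ℕ → ℝ} {g : X → ℝ} (hg : Tame D g)
    (s : O → X) (w : X → O → ℝ) (hw : ∀ x o, |w x o| ≤ 1) :
    Tame D (fun x => av fun o => g (x + s o) * w x o) := fun p => by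
  refine le_trans (av_mono fun x => ?_) ((av_shift (fun x => |g x| ^ p) s).trans_le (hg p))
  refine (abs_av_pow_le _ p).trans (av_mono fun o => ?_)
  rw [abs_mul]
  exact pow_le_pow_left₀ (by positivity) (mul_le_of_le_one_right (abs_nonneg _) (hw x o)) p

omit [AddCommGroup X] in
lemma Tame.mono {D : ℕ → ℝ} {f g : X → ℝ} (hg : Tame D g) (h : ∀ x, |f x| ≤ |g x|) : Tame D f :=
  fun p => (av_mono fun x => pow_le_pow_left₀ (abs_nonneg _) (h x) p).trans (hg p)

omit [AddCommGroup X] in
lemma Tame.sq {D : ℕ → ℝ} {g : X → ℝ} (hg : Tame D g) : av (fun x => g x ^ 2) ≤ D 2 := by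
  simpa only [sq_abs] using hg 2

omit [AddCommGroup X] in
lemma Tame.nonneg {D : ℕ → ℝ} {g : X → ℝ} (hg : Tame D g) (p : ℕ) : 0 ≤ D p :=
  (av_nonneg fun _ => by positivity).trans (hg p)

end groups

section pairing
variable {X Y : Type} [AddCommGroup X] [Module F X] [Finite X] [AddCommGroup Y] [Finite Y]

lemma av_sg_dual (x : X) : av (fun l : Dual F X => sg (l x)) = ind (x = 0) := by
  rw [av_sg (fun l : Dual F X => l x) fun _ _ => rfl]
  exact ind_congr (Module.forall_dual_apply_eq_zero_iff F x)

lemma av_sg_lin (l : Dual F X) : av (fun x => sg (l x)) = ind (l = 0) := by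
  rw [av_sg l l.map_add]
  exact ind_congr ⟨fun h => LinearMap.ext h, fun h x => by simp [h]⟩

lemma card_dual : Nat.card (Dual F X) = Nat.card X := by
  rw [card_eq_pow, card_eq_pow (X := X), Subspace.dual_finrank_eq]

/-- Fourier inversion for a pairing with trivial left kernel and equal sizes -/
lemma pair_inv (β : X → Y → F) (h1 : ∀ x x' y, β (x + x') y = β x y + β x' y)
    (h2 : ∀ x y y', β x (y + y') = β x y + β x y') (hl : ∀ x, (∀ y, β x y = 0) → x = 0)
    (hc : Nat.card X = Nat.card Y) (f : X → ℝ) (x : X) :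
    sm (fun y => (av fun x' => f x' * sg (β x' y)) * sg (β x y)) = f x := by
  have h0 : ∀ y, β 0 y = 0 := fun y => by simpa using h1 0 0 y
  have e : ∀ x', sm (fun y => f x' * sg (β x' y) * sg (β x y)) =
      Nat.card X * (ind (x' = x) * f x') := by
    intro x'
    simp only [mul_assoc, ← sg_add, ← h1]
    rw [sm_mul_left, sm_eq_card_mul_av, av_sg (β (x' + x)) (h2 _), ← hc,
      ind_congr (q := x' = x) ⟨fun h => add_eq_zero2.1 (hl _ h), fun h y => by
        rw [add_eq_zero2.2 h, h0]⟩]
    ring
  simp only [← av_mul_right]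
  rw [← av_sm_comm]
  simp only [e]
  rw [av_mul_left, av_ind_eq]
  have := card_pos' (α := X); field_simp

/-- Parseval for such a pairing -/
lemma pair_parseval (β : X → Y → F) (h1 : ∀ x x' y, β (x + x') y = β x y + β x' y)
    (h2 : ∀ x y y', β x (y + y') = β x y + β x y') (hl : ∀ x, (∀ y, β x y = 0) → x = 0)
    (hc : Nat.card X = Nat.card Y) (f g : X → ℝ) :
    sm (fun y => (av fun x => f x * sg (β x y)) * av fun x => g x * sg (β x y)) =
      av fun x => f x * g x := by
  have e : ∀ y, ((av fun x => f x * sg (β x y)) * av fun x => g x * sg (β x y)) =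
      av fun x => g x * ((av fun x' => f x' * sg (β x' y)) * sg (β x y)) := by
    intro y; rw [← av_mul_left]; exact av_congr fun x => by ring
  simp only [e]
  rw [← av_sm_comm]
  refine av_congr fun x => ?_
  rw [sm_mul_left, pair_inv β h1 h2 hl hc, mul_comm]

end pairing

end SD
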