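import Pool.Agent.Lib.MP_ecee09_co.SD.Stmts

/-! (TH): one gauge function that controls all moments. -/

namespace SD

open Finset

/-- Coefficients of the gauge. -/
noncomputable def thCoef (D : ℕ → ℝ) (p : ℕ) : ℝ :=
  (1 / 2) ^ (p + 1) / (max (D (2 * p)) 1 * p.factorial)

theorem thCoef_pos (D : ℕ → ℝ) (p : ℕ) : 0 < thCoef D p := by
  unfold thCoef
  have : (0 : ℝ) < max (D (2 * p)) 1 := lt_of_lt_of_le one_pos (le_max_right _ _)
  positivity

theorem thCoef_le (D : ℕ → ℝ) (p : ℕ) : thCoef D p ≤ 1 / p.factorial := by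
  unfold thCoef
  have h1 : (1 : ℝ) ≤ max (D (2 * p)) 1 := le_max_right _ _
  have h2 : (0 : ℝ) < p.factorial := by positivity
  have h3 : ((1 : ℝ) / 2) ^ (p + 1) ≤ 1 := pow_le_one₀ (by norm_num) (by norm_num)
  rw [div_le_div_iff₀ (by positivity) h2]
  nlinarith [mul_le_mul_of_nonneg_right h1 h2.le, mul_le_mul_of_nonneg_right h3 h2.le]

theorem thCoef_mul_le (D : ℕ → ℝ) (p : ℕ) : thCoef D p * D (2 * p) ≤ (1 / 2) ^ (p + 1) := by
  unfold thCoef
  have h1 : (1 : ℝ) ≤ max (D (2 * p)) 1 := le_max_right _ _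
  have h2 : (1 : ℝ) ≤ p.factorial := by exact_mod_cast Nat.factorial_pos p
  have h3 : D (2 * p) ≤ max (D (2 * p)) 1 * p.factorial :=
    (le_max_left _ _).trans (le_mul_of_one_le_right (by linarith) h2)
  rw [div_mul_eq_mul_div, div_le_iff₀ (by positivity)]
  exact mul_le_mul_of_nonneg_left h3 (by positivity)

/-- The gauge attached to a profile `D`. -/
noncomputable def Theta (D : ℕ → ℝ) (t : ℝ) : ℝ := ∑' p, thCoef D p * t ^ (2 * p)

theorem theta_term_nonneg (D : ℕ → ℝ) (t : ℝ) (p : ℕ) : 0 ≤ thCoef D p * t ^ (2 * p) :=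
  mul_nonneg (thCoef_pos D p).le (by rw [pow_mul]; positivity)

theorem theta_summable (D : ℕ → ℝ) (t : ℝ) : Summable fun p => thCoef D p * t ^ (2 * p) := by
  refine Summable.of_nonneg_of_le (theta_term_nonneg D t) (fun p => ?_)
    (Real.summable_pow_div_factorial (t ^ 2))
  rw [pow_mul, div_eq_mul_one_div, mul_comm ((t ^ 2) ^ p)]
  exact mul_le_mul_of_nonneg_right (thCoef_le D p) (by positivity)

theorem theta_nonneg (D : ℕ → ℝ) (t : ℝ) : 0 ≤ Theta D t := tsum_nonneg (theta_term_nonneg D t)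

theorem theta_mono (D : ℕ → ℝ) {s t : ℝ} (h : |s| ≤ |t|) : Theta D s ≤ Theta D t := by
  refine (theta_summable D s).tsum_le_tsum (fun p => ?_) (theta_summable D t)
  refine mul_le_mul_of_nonneg_left ?_ (thCoef_pos D p).le
  rw [pow_mul, pow_mul]
  exact pow_le_pow_left₀ (sq_nonneg _) (sq_le_sq.2 h) p

theorem theta_term_le (D : ℕ → ℝ) (t : ℝ) (p : ℕ) : thCoef D p * t ^ (2 * p) ≤ Theta D t :=
  (theta_summable D t).le_tsum p fun q _ => theta_term_nonneg D t q

/-- The constant `C_p` with `|t| ^ p ≤ C_p * Theta t`. -/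
noncomputable def thC (D : ℕ → ℝ) (p : ℕ) : ℝ := 1 / thCoef D 0 + 1 / thCoef D p

theorem thC_pos (D : ℕ → ℝ) (p : ℕ) : 0 < thC D p := by
  unfold thC
  have := thCoef_pos D 0
  have := thCoef_pos D p
  positivity

theorem abs_pow_le_theta (D : ℕ → ℝ) (p : ℕ) (t : ℝ) : |t| ^ p ≤ thC D p * Theta D t := by
  have h0 := theta_term_le D t 0
  have hp := theta_term_le D t p
  have c0 := thCoef_pos D 0
  have cp := thCoef_pos D p
  have e : t ^ (2 * p) = (|t| ^ p) ^ 2 := by rw [← pow_mul, mul_comm p 2, pow_mul, pow_mul, sq_abs]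
  have h1 : 1 ≤ 1 / thCoef D 0 * Theta D t := by
    rw [one_div_mul_eq_div, le_div_iff₀ c0]; simpa using h0
  have h2 : t ^ (2 * p) ≤ 1 / thCoef D p * Theta D t := by
    rw [one_div_mul_eq_div, le_div_iff₀ cp]; linarith
  unfold thC
  nlinarith [sq_nonneg (|t| ^ p - 1), pow_nonneg (abs_nonneg t) p]

/-- Weighted form: a function with moments bounded by `D` has gauge average at most one. -/
theorem sum_theta_le {X : Type*} (s : Finset X) (w : X → ℝ) (D : ℕ → ℝ) (h : X → ℝ)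
    (hD : ∀ p, ∑ x ∈ s, w x * |h x| ^ p ≤ D p) : ∑ x ∈ s, w x * Theta D (h x) ≤ 1 := by
  have hs : ∀ x ∈ s, Summable fun p => w x * (thCoef D p * h x ^ (2 * p)) := fun x _ =>
    (theta_summable D (h x)).mul_left _
  have e : ∑ x ∈ s, w x * Theta D (h x) =
      ∑' p, ∑ x ∈ s, w x * (thCoef D p * h x ^ (2 * p)) := by
    rw [Summable.tsum_finsetSum hs]
    exact sum_congr rfl fun x _ => by rw [Theta, tsum_mul_left]
  have hg : HasSum (fun p : ℕ => ((1 : ℝ) / 2) ^ (p + 1)) 1 := by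
    have := hasSum_geometric_two.mul_left (1 / 2 : ℝ)
    rw [show (1 / 2 : ℝ) * 2 = 1 by norm_num] at this
    simpa only [pow_succ, mul_comm] using this
  rw [e, ← hg.tsum_eq]
  refine (summable_sum hs).tsum_le_tsum (fun p => ?_) hg.summable
  have e2 : ∑ x ∈ s, w x * (thCoef D p * h x ^ (2 * p)) =
      thCoef D p * ∑ x ∈ s, w x * |h x| ^ (2 * p) := by
    rw [mul_sum]
    refine sum_congr rfl fun x _ => ?_
    rw [pow_mul, pow_mul, sq_abs]; ring
  rw [e2]
  exact (mul_le_mul_of_nonneg_left (hD _) (thCoef_pos D p).le).trans (thCoef_mul_le D p)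

/-- Uniform average form. -/
theorem expect_theta_le {X : Type*} [Fintype X] (D : ℕ → ℝ) (h : X → ℝ)
    (hD : ∀ p, (∑ x, |h x| ^ p) / Fintype.card X ≤ D p) :
    (∑ x, Theta D (h x)) / Fintype.card X ≤ 1 := by
  have := sum_theta_le univ (fun _ => (1 : ℝ) / Fintype.card X) D h fun p => by
    rw [← mul_sum, one_div_mul_eq_div]; exact hD p
  rwa [← mul_sum, one_div_mul_eq_div] at this

theorem av21 {α : Type} [Fintype α] (f : α → ℝ) : av f = (∑ x, f x) / Fintype.card α := by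
  rw [av, finsum_eq_sum_of_fintype, Nat.card_eq_fintype_card]

theorem sm21 {α : Type} [Fintype α] (f : α → ℝ) : sm f = ∑ x, f x := by
  rw [sm, finsum_eq_sum_of_fintype]

theorem th : TH := by
  intro D
  refine ⟨Theta D, theta_nonneg D, fun s t h => theta_mono D h, fun α _ h hD => ?_,
    fun p => ⟨thC D p, (thC_pos D p).le, abs_pow_le_theta D p⟩⟩
  have := Fintype.ofFinite α
  rw [av21]
  exact expect_theta_le D h fun p => by rw [← av21 (fun x => |h x| ^ p)]; exact hD p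

end SD
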