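import Pool.Agent.Lib.MP_ecee09_co.SD.PuD

/-! Section 7: abstract counting lemmas and (P0). -/

namespace SD

open Module

lemma pu_peel_one {ι X : Type} [Fintype ι] [DecidableEq ι] [Finite X] (G : (ι → X) → ℝ) (r : ι) :
    Nat.card X * sm G = sm fun p => sm fun a => G (Function.update p r a) := by
  let e : (ι → X) × X → (ι → X) × X := fun z => (Function.update z.1 r z.2, z.1 r)
  have he : Function.Involutive e := fun z => by simp [e]
  rw [← sm_mul_left, ← sm_prod fun z : (ι → X) × X => G (Function.update z.1 r z.2)]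
  refine Eq.trans ?_ (sm_equiv he.toPerm fun z => G z.1).symm
  rw [sm_prod]
  exact sm_congr fun p => (sm_const (G p)).symm

lemma pu_peel_fin {ι X : Type} [Fintype ι] [DecidableEq ι] [Finite X] [Nonempty X] (A : Set X)
    (S : Finset ι) (H : (ι → X) → ℝ) {B T : ℝ} (h : ∀ p, |H p| ≤ B)
    (e : (Nat.card X : ℝ) ^ S.card * T = sm fun p : ι → X => ind (∀ j, j ∉ S → p j ∈ A) * H p) :
    |T| ≤ B * cnt A ^ (Fintype.card ι - S.card) := by
  have hN : (0 : ℝ) < (Nat.card X : ℝ) ^ S.card := pow_pos card_pos' _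
  have k : (sm fun p : ι → X => ind (∀ j, j ∉ S → p j ∈ A)) =
      (Nat.card X : ℝ) ^ S.card * cnt A ^ (Fintype.card ι - S.card) := by
    simp only [ind_forall (ι := ι)]
    rw [← prod_sm fun j x => ind (j ∉ S → x ∈ A), ← Finset.prod_mul_prod_compl S,
      ← Finset.card_compl, ← Finset.prod_const, ← Finset.prod_const]
    refine congrArg₂ _ (Finset.prod_congr rfl fun j hj => ?_) (Finset.prod_congr rfl fun j hj => ?_)
    · rw [sm_congr fun x => ind_pos fun n => absurd hj n, sm_const, mul_one]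
    · exact sm_congr fun x => ind_congr ⟨fun l => l (Finset.mem_compl.1 hj), fun l _ => l⟩
  refine le_of_mul_le_mul_left ?_ hN
  rw [← abs_of_pos hN, ← abs_mul, e, abs_of_pos hN, mul_left_comm, ← k, ← sm_mul_left]
  refine (abs_sm_le _).trans (sm_mono fun p => ?_)
  rw [abs_mul, abs_ind, mul_comm]
  exact mul_le_mul_of_nonneg_right (h p) (ind_nonneg _)

/-- peel two coordinates off a sum over tuples -/
lemma pu_peel2 {ι X : Type} [Fintype ι] [DecidableEq ι] [Finite X] [Nonempty X] (A : Set X)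
    (Fn : (ι → X) → ℝ) (r s : ι) (hrs : r ≠ s) (B : ℝ)
    (h : ∀ p : ι → X, |sm fun a => sm fun b => ind (a ∈ A) * ind (b ∈ A) *
      Fn (Function.update (Function.update p r a) s b)| ≤ B) :
    |sm fun p : ι → X => ind (∀ j, p j ∈ A) * Fn p| ≤ B * cnt A ^ (Fintype.card ι - 2) := by
  refine Finset.card_pair hrs ▸ pu_peel_fin A {r, s} _ h ?_
  rw [Finset.card_pair hrs, sq, mul_assoc, pu_peel_one _ s, pu_peel_one _ r]
  refine sm_congr fun p => ?_
  simp only [← sm_mul_left, ← mul_assoc, ← ind_and]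
  refine sm_congr fun a => sm_congr fun b => congrArg (· * _) (ind_congr ?_)
  simp only [Finset.mem_insert, Finset.mem_singleton, not_or]
  refine ⟨fun l => ⟨fun j hj => ?_, ?_, ?_⟩, fun l j => ?_⟩
  · simpa [hj.1, hj.2] using l j
  · simpa [hrs] using l r
  · simpa using l s
  · simp only [Function.update_apply]
    split_ifs with h1 h2
    exacts [l.2.2, l.2.1, l.1 j ⟨h2, h1⟩]

/-- peel three coordinates off a sum over tuples -/
lemma pu_peel3 {ι X : Type} [Fintype ι] [DecidableEq ι] [Finite X] [Nonempty X] (A : Set X)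
    (Fn : (ι → X) → ℝ) (r s u : ι) (hrs : r ≠ s) (hru : r ≠ u) (hsu : s ≠ u) (B : ℝ)
    (h : ∀ p : ι → X, |sm fun a => sm fun b => sm fun c =>
      ind (a ∈ A) * ind (b ∈ A) * ind (c ∈ A) *
        Fn (Function.update (Function.update (Function.update p r a) s b) u c)| ≤ B) :
    |sm fun p : ι → X => ind (∀ j, p j ∈ A) * Fn p| ≤ B * cnt A ^ (Fintype.card ι - 3) := by
  have c3 : ({r, s, u} : Finset ι).card = 3 := Finset.card_eq_three.2 ⟨r, s, u, hrs, hru, hsu, rfl⟩
  refine c3 ▸ pu_peel_fin A {r, s, u} _ h ?_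
  rw [c3, pow_three, mul_assoc, mul_assoc, pu_peel_one _ u, pu_peel_one _ s, pu_peel_one _ r]
  refine sm_congr fun p => ?_
  simp only [← sm_mul_left, ← mul_assoc, ← ind_and]
  refine sm_congr fun a => sm_congr fun b => sm_congr fun c => congrArg (· * _) (ind_congr ?_)
  simp only [Finset.mem_insert, Finset.mem_singleton, not_or]
  refine ⟨fun l => ⟨fun j hj => ?_, ⟨?_, ?_⟩, ?_⟩, fun l j => ?_⟩
  · simpa [hj.1, hj.2.1, hj.2.2] using l j
  · simpa [hrs, hru] using l r
  · simpa [hsu] using l s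
  · simpa using l u
  · simp only [Function.update_apply]
    split_ifs with h1 h2 h3
    exacts [l.2.2, l.2.1.2, l.2.1.1, l.1 j ⟨h3, h2, h1⟩]

lemma pu_c2_fib {X Y : Type} [Finite X] [Finite Y] (u : X → ℝ) (f g : X → Y) :
    (sm fun a => sm fun b => u a * u b * ind (f a = g b)) =
      sm fun y => (sm fun a => ind (f a = y) * u a) * sm fun b => ind (g b = y) * u b := by
  simp only [sm_mul_sm]
  rw [sm_comm fun y a => sm fun b => ind (f a = y) * u a * (ind (g b = y) * u b)]
  refine sm_congr fun a => ?_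
  rw [sm_comm]
  refine sm_congr fun b => ?_
  simp only [mul_assoc]
  rw [sm_ind_eq' (f a) fun y => u a * (ind (g b = y) * u b), ind_congr eq_comm]
  ring

lemma pu_c2_col {X Y : Type} [Finite X] [Finite Y] (u : X → ℝ) (f g : X → Y) :
    (sm fun a => sm fun b => u a * u b * ind (f a = g b)) ≤
      ((sm fun a => sm fun b => u a * u b * ind (f a = f b)) +
        sm fun a => sm fun b => u a * u b * ind (g a = g b)) / 2 := by
  rw [pu_c2_fib, pu_c2_fib, pu_c2_fib, ← sm_add, ← sm_div]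
  exact sm_mono fun y => by
    nlinarith [sq_nonneg ((sm fun a => ind (f a = y) * u a) - sm fun b => ind (g b = y) * u b)]

/-- solutions of `f a + g b = z` against collisions -/
lemma pu_c2 {X Y : Type} [Finite X] [AddCommGroup Y] [Finite Y] (A : Set X) (f g : X → Y)
    (z : Y) :
    (sm fun a => sm fun b => ind (a ∈ A) * ind (b ∈ A) * ind (f a + g b = z)) ≤
      ((sm fun a => sm fun b => ind (a ∈ A ∧ b ∈ A ∧ f a = f b)) +
        sm fun a => sm fun b => ind (a ∈ A ∧ b ∈ A ∧ g a = g b)) / 2 := by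
  have := pu_c2_col (fun a => ind (a ∈ A)) f fun b => z - g b
  simp only [sub_right_inj] at this
  simpa only [ind_and, ← mul_assoc, eq_sub_iff_add_eq] using this

lemma pu_c3_inj {X Y : Type} [Finite X] [Finite Y] {e : X → Y} (he : Function.Injective e)
    {φ : Y → ℝ} (h : ∀ y, 0 ≤ φ y) : (sm fun a => φ (e a)) ≤ sm φ := by
  classical
  let _ := Fintype.ofFinite X; let _ := Fintype.ofFinite Y
  rw [sm_eq, sm_eq, ← Finset.sum_image he.injOn]
  exact Finset.sum_le_sum_of_subset_of_nonneg (Finset.subset_univ _) fun y _ _ => h y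

lemma pu_c3_en {X : Type} [AddCommGroup X] [Module F X] [Finite X] (A : Set X) :
    (sm fun a : X × X => sm fun b : X × X => ind (a.1 ∈ A) * ind (a.2 ∈ A) *
      (ind (b.1 ∈ A) * ind (b.2 ∈ A)) * ind (a.1 + a.2 = b.1 + b.2)) = energy A := by
  simp only [sm_prod, energy, ind_and]
  refine sm_congr fun a => sm_congr fun b => sm_congr fun c => ?_
  rw [← sm_ind_eq' (a + b + c) fun d => ind (a ∈ A) * (ind (b ∈ A) * (ind (c ∈ A) * ind (d ∈ A)))]
  refine sm_congr fun d => ?_
  rw [ind_congr (p := a + b + c = d) (q := a + b = c + d) (by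
    rw [← sub_eq2 _ c, sub_eq_iff_eq_add'])]
  ring

/-- solutions of `f a + g b + h c = z` against the energy -/
lemma pu_c3 {X Y : Type} [AddCommGroup X] [Module F X] [Finite X] [AddCommGroup Y] [Module F Y]
    [Finite Y] (A : Set X) (f g h : X → Y) (hf : Function.Injective f)
    (hg : Function.Injective g) (hh : Function.Injective h)
    (ag : ∀ a b, g (a + b) = g a + g b) (ah : ∀ a b, h (a + b) = h a + h b) (z : Y) :
    (sm fun a => sm fun b => sm fun c =>
      ind (a ∈ A) * ind (b ∈ A) * ind (c ∈ A) * ind (f a + g b + h c = z)) ^ 2 ≤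
      cnt A * energy A := by
  let u : X × X → ℝ := fun x => ind (x.1 ∈ A) * ind (x.2 ∈ A)
  let R : Y → ℝ := fun y => sm fun x : X × X => ind (g x.1 + h x.2 = y) * u x
  have e1 : (sm fun a => sm fun b => sm fun c =>
      ind (a ∈ A) * ind (b ∈ A) * ind (c ∈ A) * ind (f a + g b + h c = z)) =
      sm fun a => ind (a ∈ A) * R (z - f a) := sm_congr fun a => by
    simp only [R, u, sm_prod, ← sm_mul_left]
    refine sm_congr fun b => sm_congr fun c => ?_
    rw [ind_congr (p := g b + h c = z - f a) (by rw [eq_sub_iff_add_eq', ← add_assoc])]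
    ring
  have e2 : (sm fun y => R y ^ 2) = sm fun a : X × X => sm fun b : X × X =>
      u a * u b * ind (g (a.1 + a.2) = h (b.1 + b.2)) := by
    simp only [sq, R]
    rw [← pu_c2_fib]
    simp only [sm_prod, u]
    refine sm_congr fun a => (sm_comm _).trans (sm_congr fun b => sm_congr fun c =>
      sm_congr fun d => ?_)
    rw [ind_congr (p := g a + h c = g b + h d) (q := g (a + b) = h (c + d)) (by
      rw [ag, ah, ← add_eq_zero2, ← add_eq_zero2 (x := g a + g b), add_add_add_comm,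
        add_add_add_comm (g a) (g b), add_add_add_comm (g a) (h c)])]
    ring
  rw [e1]
  refine (sm_cs _ _).trans (mul_le_mul ?_ ?_ (sm_nonneg fun _ => sq_nonneg _) (cnt_nonneg _))
  · exact (sm_congr fun a => ind_sq _).le
  · refine (pu_c3_inj (sub_right_injective.comp hf) fun y => sq_nonneg (R y)).trans ?_
    rw [e2]
    refine (pu_c2_col u _ _).trans_eq ?_
    simp only [hg.eq_iff, hh.eq_iff, u, pu_c3_en, add_self_div_two]

variable {ρ m : ℕ} {U V : Type} [AddCommGroup U] [Module F U] [Finite U] [AddCommGroup V]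
  [Module F V] [Finite V]

lemma pu_at_sq {X Y : Type} [Finite X] [Finite Y] (A : Set X) (f : X → Y) :
    (sm fun a => sm fun b => ind (a ∈ A ∧ b ∈ A ∧ f a = f b)) =
      sm fun y => (sm fun a => ind (a ∈ A) * ind (f a = y)) ^ 2 := by
  simp only [sq, sm_mul_sm]
  refine Eq.trans (sm_congr fun a => ?_) (sm_comm _)
  refine Eq.trans (sm_congr fun b => ?_) (sm_comm _)
  rw [ind_and, ind_and, ind_congr (eq_comm (a := f a)),
    ← sm_ind_eq' (f a) fun y => ind (a ∈ A) * (ind (b ∈ A) * ind (f b = y))]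
  exact sm_congr fun y => by ring

lemma pu_at_pair {X Y Z : Type} [Finite X] [Finite Y] [Finite Z] (A : Set X) (f : X → Y × Z) :
    (sm fun a => sm fun b => ind (a ∈ A ∧ b ∈ A ∧ (f a).1 = (f b).1)) ≤
      Nat.card Z * sm fun a => sm fun b => ind (a ∈ A ∧ b ∈ A ∧ f a = f b) := by
  rw [pu_at_sq A fun a => (f a).1, pu_at_sq A f, sm_prod, ← sm_mul_left]
  refine sm_mono fun y => ?_
  have h := sm_cs (fun _ : Z => (1 : ℝ)) fun z => sm fun a => ind (a ∈ A) * ind (f a = (y, z))
  simp only [one_mul, one_pow, sm_const, mul_one] at h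
  refine le_of_eq_of_le ?_ h
  rw [sm_comm]
  congr 1
  refine sm_congr fun a => ?_
  rw [← sm_ind_eq' (f a).2 fun _ => ind (a ∈ A) * ind ((f a).1 = y)]
  exact sm_congr fun z => by rw [ind_congr Prod.ext_iff, ind_and]; ring

lemma pu_at_en {Y Z : Type} [AddCommGroup Y] [Module F Y] [Finite Y] [AddCommGroup Z] [Module F Z]
    [Finite Z] (A : Set (Y × Z)) :
    (sm fun a => sm fun b => ind (a ∈ A ∧ b ∈ A ∧ a.1 = b.1)) ^ 2 ≤ Nat.card Z * energy A := by
  have h := pu_at_pair (A ×ˢ A) fun x => x.1 + x.2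
  rw [pu_at_sq (A ×ˢ A) fun x => (x.1 + x.2).1] at h
  refine le_trans (le_of_eq_of_le ?_ (single_le_sm (fun _ => sq_nonneg _) 0)) (h.trans_eq ?_)
  · rw [sm_prod (α := Y × Z)]
    congr 1
    refine sm_congr fun a => sm_congr fun b => ?_
    rw [← ind_and]
    exact ind_congr (by simp only [Set.mem_prod, Prod.fst_add, add_eq_zero2, and_assoc])
  · rw [sm_prod, energy]
    congr 1
    refine sm_congr fun a => sm_congr fun b => ?_
    rw [sm_prod]
    refine sm_congr fun c => ?_
    rw [← sm_ind_eq (a + b + c) fun d => ind (a ∈ A ∧ b ∈ A ∧ c ∈ A ∧ d ∈ A)]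
    refine sm_congr fun d => ?_
    rw [← ind_and]
    have e : a + b = c + d ↔ d = a + b + c := by
      rw [← add_eq_zero2, ← add_eq_zero2 (x := d)]
      exact Eq.congr_left (by abel)
    exact ind_congr (by simp only [Set.mem_prod, e]; tauto)

/-- (P0), first part -/
lemma pu_at (P : Set (Pt ρ V)) (η1 : ℝ) (h0 : 0 ≤ η1)
    (hc : ∀ DD : Submodule F (Fk ρ), DD ≠ ⊥ → DD ≠ ⊤ → coll P DD ≤ η1)
    (he : energy P ≤ η1 * DP V (3 * ρ)) (l : Fk ρ) (hl : l ≠ 0) :
    puAt P l ≤ η1 + Real.sqrt η1 := by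
  have hD := DP_pos (V := V) (2 * ρ)
  by_cases ht : Submodule.span F {l} = ⊤
  · refine le_add_of_nonneg_of_le h0 (Real.le_sqrt_of_sq_le ?_)
    have h1 : puAt P l ≤ (sm fun p => sm fun p' => ind (p ∈ P ∧ p' ∈ P ∧ p.1 = p'.1)) /
        DP V (2 * ρ) := by
      refine div_le_div_of_nonneg_right (sm_mono fun p => sm_mono fun p' => ind_mono
        fun ⟨a, b, e⟩ => ⟨a, b, funext fun i => ?_⟩) hD.le
      obtain ⟨c, hc⟩ := Submodule.mem_span_singleton.1 (ht ▸ Submodule.mem_top :
        (Pi.single i 1 : Fk ρ) ∈ Submodule.span F {l})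
      have h2 := congrArg Prod.fst (comb_single i p)
      have h3 := congrArg Prod.fst (comb_single i p')
      rw [← hc, comb_smul, Prod.smul_fst] at h2 h3
      exact h2.symm.trans ((congrArg _ e).trans h3)
    have h2 := pu_at_en P
    have h3 : (Nat.card (Fin ρ → V) : ℝ) = DP V ρ := by simp [DP, Nat.card_fun]
    have h4 : DP V ρ * DP V (3 * ρ) = DP V (2 * ρ) ^ 2 := by
      rw [← DP_add, ← DP_mul]
      congr 1
      ring
    refine (pow_le_pow_left₀ (div_nonneg (sm_nonneg fun _ => sm_nonneg fun _ => ind_nonneg _)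
      hD.le) h1 2).trans ?_
    rw [div_pow, div_le_iff₀ (pow_pos hD 2), ← h4]
    rw [h3] at h2
    exact h2.trans ((mul_le_mul_of_nonneg_left he (DP_pos ρ).le).trans_eq (by ring))
  · refine le_add_of_le_of_nonneg (le_trans ?_ (hc _ (by simpa using hl) ht)) (Real.sqrt_nonneg _)
    rw [coll, finrank_span_singleton hl, div_mul_eq_mul_div, DP, pow_one]
    refine div_le_div_of_nonneg_right ((pu_at_pair P (comb l)).trans_eq ?_) hD.le
    congr 1
    refine sm_congr fun p => sm_congr fun p' => ind_congr (and_congr_right fun _ =>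
      and_congr_right fun _ => ⟨fun e l' h => ?_, fun h => h l (Submodule.mem_span_singleton_self l)⟩)
    obtain ⟨c, rfl⟩ := Submodule.mem_span_singleton.1 h
    rw [comb_smul, comb_smul, e]

lemma pu_dep_one {P : Set (Pt ρ V)} {lam η : ℝ} (h : PuH P lam η) (l : Fin m → Fk ρ) :
    (sm fun p : Fin m → Pt ρ V => ind (∀ r, p r ∈ P) * ind (l ≠ 0 ∧ l ∈ puDD p)) ≤
      η * lam ^ m * DP V (ρ * m) := by
  have hl := zero_le_one.trans h.one
  by_cases h0 : l ≠ 0 ∧ ∑ r, l r = 0
  swap
  · rw [sm_congr fun p => by rw [ind_neg (p := l ≠ 0 ∧ _) fun e => h0 ⟨e.1, e.2.1⟩, mul_zero],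
      sm_zero]
    exact mul_nonneg (mul_nonneg h.pos.le (pow_nonneg hl _)) (DP_pos _).le
  obtain ⟨r, hr⟩ := Function.ne_iff.1 h0.1
  obtain ⟨s, hs, hs0⟩ : ∃ s, s ≠ r ∧ l s ≠ 0 := by
    by_contra! e
    exact hr ((Finset.sum_eq_single r (fun s _ => e s) (by simp)).symm.trans h0.2)
  have hm : 2 ≤ m := by
    have := r.2
    have := s.2
    have := Fin.val_ne_of_ne hs
    omega
  have hD := DP_pos (V := V) (2 * ρ)
  have h1 := pu_peel2 P (fun p => ind (l ≠ 0 ∧ l ∈ puDD p)) r s hs.symm (η * DP V (2 * ρ))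
    fun p => by
      rw [abs_of_nonneg (sm_nonneg fun _ => sm_nonneg fun _ =>
        mul_nonneg (mul_nonneg (ind_nonneg _) (ind_nonneg _)) (ind_nonneg _))]
      refine le_trans (sm_mono fun a => sm_mono fun b => mul_le_mul_of_nonneg_left
        (ind_mono fun e => ?_) (mul_nonneg (ind_nonneg _) (ind_nonneg _)))
        ((pu_c2 P (fun a => (comb (l r) a).1) (fun b => (comb (l s) b).1)
          (-∑ j ∈ (Finset.univ.erase s).erase r, (comb (l j) (p j)).1)).trans ?_)
      · have e2 := e.2.2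
        rw [← Finset.add_sum_erase _ _ (Finset.mem_univ s),
          ← Finset.add_sum_erase _ _ (Finset.mem_erase.2 ⟨hs.symm, Finset.mem_univ r⟩),
          Function.update_self, Function.update_of_ne hs.symm, Function.update_self,
          Finset.sum_congr rfl fun j hj => by
            rw [Function.update_of_ne (Finset.mem_erase.1 (Finset.mem_erase.1 hj).2).1,
              Function.update_of_ne (Finset.mem_erase.1 hj).1]] at e2
        rw [eq_neg_iff_add_eq_zero, ← e2]
        abel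
      · have a1 := (div_le_iff₀ hD).1 (h.att _ hr)
        have a2 := (div_le_iff₀ hD).1 (h.att _ hs0)
        linarith
  obtain ⟨k, rfl⟩ := Nat.exists_eq_add_of_le hm
  rw [Fintype.card_fin, Nat.add_sub_cancel_left] at h1
  refine (le_abs_self _).trans (h1.trans ?_)
  have h2 : cnt P ^ k ≤ lam ^ (2 + k) * DP V ρ ^ k :=
    (pow_le_pow_left₀ (cnt_nonneg _) h.lam k).trans (by
      rw [mul_pow]
      exact mul_le_mul_of_nonneg_right (pow_le_pow_right₀ h.one (by omega))
        (pow_pos (DP_pos _) _).le)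
  refine (mul_le_mul_of_nonneg_left h2 (mul_pos h.pos hD).le).trans_eq ?_
  rw [mul_add ρ, DP_add, DP_mul ρ k, mul_comm ρ 2]
  ring

/-- (P0), second part: dependent tuples are rare -/
lemma pu_dep {P : Set (Pt ρ V)} {lam η : ℝ} (h : PuH P lam η) :
    (sm fun p : Fin m → Pt ρ V => ind (∀ r, p r ∈ P) * ind (puDD p ≠ ⊥)) ≤
      2 ^ (m * ρ) * η * lam ^ m * DP V (ρ * m) := by
  refine (sm_mono (g := fun p => sm fun l => ind (∀ r, p r ∈ P) * ind (l ≠ 0 ∧ l ∈ puDD p))
    fun p => ?_).trans ?_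
  · rw [sm_mul_left]
    refine mul_le_mul_of_nonneg_left ((ind_mono fun e => ?_).trans (ind_exists_le _)) (ind_nonneg _)
    obtain ⟨l, a, b⟩ := (Submodule.ne_bot_iff _).1 e
    exact ⟨l, b, a⟩
  · rw [sm_comm]
    refine (sm_mono (pu_dep_one h)).trans_eq ?_
    have : (Nat.card (Fin m → Fk ρ) : ℝ) = 2 ^ (m * ρ) := by
      simp [← pow_mul, mul_comm]
    rw [sm_const, this]
    ring

/-- a random probe is injective with high probability -/
lemma pu_inj : (av fun Φ : U →ₗ[F] V => ind (¬ Function.Injective Φ)) ≤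
    (Nat.card U : ℝ) / Nat.card V := by
  refine (av_mono (g := fun Φ => sm fun u => ind (u ≠ 0 ∧ Φ u = 0)) fun Φ =>
    (ind_mono fun e => ?_).trans (ind_exists_le _)).trans ?_
  · by_contra! l
    exact e ((injective_iff_map_eq_zero Φ).2 fun u hu => by_contra fun h => l u h hu)
  · rw [av_sm_comm, div_eq_mul_one_div, ← sm_const]
    refine sm_mono fun u => ?_
    by_cases hu : u = 0
    · rw [av_congr fun Φ => ind_neg fun e => e.1 hu, av_zero]
      positivity
    · obtain ⟨y, hy⟩ := Module.Projective.exists_dual_eq_one F hu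
      rw [← av_ind_eq (0 : V) fun _ => 1, ← av_surj (fun Φ : U →ₗ[F] V => Φ u) (fun _ _ => rfl)
        fun v => ⟨y.smulRight v, by simp [hy]⟩]
      exact av_mono fun Φ => by rw [mul_one]; exact ind_mono fun e => e.2

lemma pu_nu_one {P : Set (Pt ρ V)} {lam η : ℝ} (h : PuH P lam η) {s : Fin ρ → U} (hs : s ≠ 0) :
    (av fun Φ : U →ₗ[F] V => puNu P (fun w => sg (∑ i, w i (s i))) Φ ^ 2) ≤ η := by
  obtain ⟨i₀, hi⟩ := Function.ne_iff.1 hs
  obtain ⟨y, hy⟩ := Module.Projective.exists_dual_eq_one F hi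
  refine le_trans ?_ (h.att (fun i => y (s i)) fun e => one_ne_zero (hy.symm.trans (congrFun e i₀)))
  simp only [puNu, div_pow, ← DP_mul]
  rw [av_div, mul_comm ρ 2]
  refine div_le_div_of_nonneg_right ?_ (DP_pos _).le
  simp only [sq, sm_mul_sm]
  rw [av_sm_comm]
  refine sm_mono fun p => ?_
  rw [av_sm_comm]
  refine sm_mono fun p' => ?_
  rw [av_congr (g := fun Φ => ind (p ∈ P) * (ind (p' ∈ P) *
    sg (∑ i, puV p Φ i (s i) + ∑ i, puV p' Φ i (s i)))) fun Φ => by rw [sg_add]; ring,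
    av_mul_left, av_mul_left, ind_and, ind_and, av_sg _ fun a b => by
      simp only [puV, LinearMap.comp_apply, LinearMap.add_apply, map_add, Finset.sum_add_distrib]
      ring]
  refine mul_le_mul_of_nonneg_left (mul_le_mul_of_nonneg_left (ind_mono fun e => ?_)
    (ind_nonneg _)) (ind_nonneg _)
  refine LinearMap.ext fun x => add_eq_zero2.1 ?_
  simpa [puV, comb] using e (y.smulRight x)

/-- mean zero weights have small mean square count -/
lemma pu_nu {P : Set (Pt ρ V)} {lam η : ℝ} (h : PuH P lam η) (c : (Fin ρ → U) → ℝ)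
    (hc : ∀ s, |c s| ≤ 1) (h0 : c 0 = 0) :
    (av fun Φ : U →ₗ[F] V => puNu P (puF c) Φ ^ 2) ≤ (Nat.card (Fin ρ → U) : ℝ) ^ 2 * η := by
  have e : ∀ Φ : U →ₗ[F] V, puNu P (puF c) Φ =
      sm fun s => 1 * (c s * puNu P (fun w => sg (∑ i, w i (s i))) Φ) := fun Φ => by
    simp only [puNu, puF, one_mul, ← mul_div_assoc, ← sm_mul_left]
    rw [sm_div, sm_comm]
    congr 1
    exact sm_congr fun s => sm_congr fun p => by ring
  refine (av_mono fun Φ => (e Φ).symm ▸ sm_cs _ _).trans ?_
  rw [av_mul_left, av_sm_comm, sm_const, one_pow, mul_one, sq (Nat.card _ : ℝ), mul_assoc,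
    ← sm_const η]
  refine mul_le_mul_of_nonneg_left (sm_mono fun s => ?_) (Nat.cast_nonneg _)
  simp only [mul_pow]
  rw [av_mul_left]
  by_cases hs : s = 0
  · rw [hs, h0, zero_pow two_ne_zero, zero_mul]
    exact h.pos.le
  · exact (mul_le_of_le_one_left (av_nonneg fun _ => sq_nonneg _)
      ((sq_le_one_iff_abs_le_one _).2 (hc s))).trans (pu_nu_one h hs)

end SD
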