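import Pool.Agent.Lib.MP_ecee09_co.SD.Pu5b

/-! Section 7, (P5): the truncated product. -/

namespace SD

open Module

lemma pu5_esym_card {α : Type} [Fintype α] [DecidableEq α] (S : Finset α) (m : ℕ)
    (hS : S.card = m) :
    (Finset.univ.filter fun z : Fin m → α => (∀ r, z r ∈ S) ∧ Function.Injective z).card =
      m.factorial := by
  classical
  have h1 : Fintype.card (Fin m ↪ S) = m.factorial := by
    rw [Fintype.card_embedding_eq, Fintype.card_coe, Fintype.card_fin, hS,
      Nat.descFactorial_self]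
  rw [← h1, ← Fintype.card_subtype]
  refine Fintype.card_congr
    { toFun := fun z => ⟨fun r => ⟨z.1 r, z.2.1 r⟩, fun a b h => z.2.2 (congrArg Subtype.val h)⟩
      invFun := fun e => ⟨fun r => (e r).1, fun r => (e r).2,
        fun a b h => e.injective (Subtype.ext h)⟩
      left_inv := fun z => rfl
      right_inv := fun e => rfl }

/-- sums over injective tuples and elementary symmetric sums -/
lemma pu5_esym {α : Type} [Finite α] (s : Finset α) (f : α → ℝ) (m : ℕ) :
    (sm fun z : Fin m → α => ind ((∀ r, z r ∈ s) ∧ Function.Injective z) * ∏ r, f (z r)) =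
      m.factorial * ∑ S ∈ s.powersetCard m, ∏ z ∈ S, f z := by
  classical
  let _ := Fintype.ofFinite α
  rw [sm_eq]
  simp only [ind_eq, ite_mul, one_mul, zero_mul]
  rw [← Finset.sum_filter, Finset.mul_sum]
  have hmap : ∀ z ∈ (Finset.univ.filter fun z : Fin m → α =>
      (∀ r, z r ∈ s) ∧ Function.Injective z), Finset.univ.image z ∈ s.powersetCard m := by
    intro z hz
    obtain ⟨h1, h2⟩ := (Finset.mem_filter.1 hz).2
    refine Finset.mem_powersetCard.2 ⟨?_, ?_⟩
    · intro x hx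
      obtain ⟨r, _, rfl⟩ := Finset.mem_image.1 hx
      exact h1 r
    · rw [Finset.card_image_of_injective _ h2, Finset.card_univ, Fintype.card_fin]
  rw [← Finset.sum_fiberwise_of_maps_to hmap]
  refine Finset.sum_congr rfl fun S hS => ?_
  obtain ⟨hSs, hSc⟩ := Finset.mem_powersetCard.1 hS
  have hfib : ((Finset.univ.filter fun z : Fin m → α =>
      (∀ r, z r ∈ s) ∧ Function.Injective z).filter fun z => Finset.univ.image z = S) =
      Finset.univ.filter fun z : Fin m → α => (∀ r, z r ∈ S) ∧ Function.Injective z := by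
    ext z
    simp only [Finset.mem_filter, Finset.mem_univ, true_and]
    constructor
    · rintro ⟨⟨_, h2⟩, h3⟩
      exact ⟨fun r => h3 ▸ Finset.mem_image_of_mem z (Finset.mem_univ r), h2⟩
    · rintro ⟨h1, h2⟩
      refine ⟨⟨fun r => hSs (h1 r), h2⟩, ?_⟩
      refine Finset.eq_of_subset_of_card_le ?_ ?_
      · intro x hx
        obtain ⟨r, _, rfl⟩ := Finset.mem_image.1 hx
        exact h1 r
      · rw [Finset.card_image_of_injective _ h2, Finset.card_univ, Fintype.card_fin, hSc]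
  have hval : ∀ z ∈ ((Finset.univ.filter fun z : Fin m → α =>
      (∀ r, z r ∈ s) ∧ Function.Injective z).filter fun z => Finset.univ.image z = S),
      ∏ r, f (z r) = ∏ x ∈ S, f x := by
    intro z hz
    obtain ⟨hz1, hz2⟩ := Finset.mem_filter.1 hz
    have h2 := (Finset.mem_filter.1 hz1).2.2
    rw [← hz2, Finset.prod_image fun a _ b _ h => h2 h]
  rw [Finset.sum_congr rfl hval, Finset.sum_const, hfib, pu5_esym_card S m hSc, nsmul_eq_mul]

/-- pointwise truncation bound -/
lemma pu5_trunc {α : Type} (s : Finset α) (f : α → ℝ) (Γ : ℝ) (hΓ : 0 ≤ Γ) (hf : ∀ z, |f z| ≤ Γ)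
    (L : ℕ) :
    |ind (s.card ≤ L) * ∏ z ∈ s, (1 + f z) -
      ∑ m ∈ Finset.range (L + 1), ∑ S ∈ s.powersetCard m, ∏ z ∈ S, f z| ≤
      (1 + Γ) ^ (L + 1) * (s.card.choose (L + 1) : ℝ) := by
  classical
  by_cases hL : s.card ≤ L
  · have h1 : ∏ z ∈ s, (1 + f z) =
        ∑ m ∈ Finset.range (L + 1), ∑ S ∈ s.powersetCard m, ∏ z ∈ S, f z := by
      rw [Finset.prod_one_add, Finset.sum_powerset]
      refine Finset.sum_subset (Finset.range_subset_range.2 (by omega)) ?_
      intro m _ hm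
      have : s.card < m := by
        simp only [Finset.mem_range] at hm
        omega
      rw [Finset.powersetCard_eq_empty.2 this, Finset.sum_empty]
    rw [ind_pos hL, one_mul, h1, sub_self, abs_zero]
    positivity
  · rw [ind_neg hL, zero_mul, zero_sub, abs_neg]
    have hN : L + 1 ≤ s.card := by omega
    have h2 : ∀ m ∈ Finset.range (L + 1), |∑ S ∈ s.powersetCard m, ∏ z ∈ S, f z| ≤
        (Γ ^ m * 1 ^ (L + 1 - m) * ((L + 1).choose m : ℝ)) * (s.card.choose (L + 1) : ℝ) := by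
      intro m hm
      have hm' : m ≤ L + 1 := (Finset.mem_range.1 hm).le
      have h3 : |∑ S ∈ s.powersetCard m, ∏ z ∈ S, f z| ≤ (s.card.choose m : ℝ) * Γ ^ m := by
        refine (Finset.abs_sum_le_sum_abs _ _).trans ?_
        have h4 : ∀ S ∈ s.powersetCard m, |∏ z ∈ S, f z| ≤ Γ ^ m := by
          intro S hS
          rw [Finset.abs_prod, ← (Finset.mem_powersetCard.1 hS).2]
          refine (Finset.prod_le_prod (fun z _ => abs_nonneg _) fun z _ => hf z).trans ?_
          rw [Finset.prod_const]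
        refine (Finset.sum_le_sum h4).trans ?_
        rw [Finset.sum_const, Finset.card_powersetCard, nsmul_eq_mul]
      have h5 : s.card.choose m ≤ s.card.choose (L + 1) * (L + 1).choose m := by
        rw [Nat.choose_mul hm']
        exact Nat.le_mul_of_pos_right _ (Nat.choose_pos (by omega))
      have h6 : (s.card.choose m : ℝ) ≤ (s.card.choose (L + 1) : ℝ) * ((L + 1).choose m : ℝ) := by
        exact_mod_cast h5
      refine h3.trans ?_
      have h7 := mul_le_mul_of_nonneg_right h6 (pow_nonneg hΓ m)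
      refine h7.trans (le_of_eq ?_)
      rw [one_pow]
      ring
    refine (Finset.abs_sum_le_sum_abs _ _).trans ((Finset.sum_le_sum h2).trans ?_)
    rw [← Finset.sum_mul]
    refine mul_le_mul_of_nonneg_right ?_ (Nat.cast_nonneg _)
    rw [add_comm 1 Γ, add_pow]
    refine Finset.sum_le_sum_of_subset_of_nonneg (Finset.range_subset_range.2 (by omega)) ?_
    intro m _ _
    positivity

section main
variable {ρ : ℕ} {U V : Type} [AddCommGroup U] [Module F U] [Finite U] [AddCommGroup V]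
  [Module F V] [Finite V]

/-- pointwise expansion of the truncated product -/
lemma pu5_point (ε : Fk ρ) (P : Set (Pt ρ V)) (LL : Set (Fin ρ → U))
    (c : (Fin ρ → U) → (Fin ρ → U) → ℝ) (hc : ∀ t s, |c t s| ≤ 1) {Γ : ℝ} (hΓ : 0 < Γ)
    (hN : (Nat.card (Fin ρ → U) : ℝ) ≤ Γ) (L : ℕ) (Φ : U →ₗ[F] V) (x : Gam ρ V) :
    |puPi ε P LL c L x Φ - ind (Function.Injective Φ) * (1 + ∑ m ∈ Finset.range L,
      Γ ^ (m + 1) / (m + 1).factorial *
        P5.XX (m + 1) ε P LL (fun t w => puF (c t) w / Γ) Φ x)| ≤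
      (1 + Γ) ^ (L + 1) / (L + 1).factorial * P5.XX (L + 1) ε P LL (fun _ _ => 1) Φ x := by
  by_cases hΦ : Function.Injective Φ
  swap
  · rw [puPi, ind_neg hΦ, zero_mul, zero_mul, zero_mul, sub_zero, abs_zero]
    refine mul_nonneg (by positivity) (sm_nonneg fun t => mul_nonneg (ind_nonneg _)
      (sm_nonneg fun p => mul_nonneg (ind_nonneg _) (by simp)))
  have h1 := pu5_trunc (puC ε P LL x Φ) (fun z => puF (c z.2) (puV z.1 Φ)) Γ hΓ.le
    (fun z => P5.abs_puF hN _ (hc _) _) L
  have e1 : ∀ m : ℕ, ∑ S ∈ (puC ε P LL x Φ).powersetCard m, ∏ z ∈ S, puF (c z.2) (puV z.1 Φ) =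
      Γ ^ m / m.factorial * P5.XX m ε P LL (fun t w => puF (c t) w / Γ) Φ x := fun m => by
    have hm : (0 : ℝ) < m.factorial := by exact_mod_cast m.factorial_pos
    rw [← P5.tuples m ε P LL _ hΦ x, div_mul_eq_mul_div, eq_div_iff hm.ne', mul_comm,
      ← pu5_esym, ← sm_mul_left]
    refine sm_congr fun z => ?_
    rw [Finset.prod_div_distrib, Finset.prod_const, Finset.card_univ, Fintype.card_fin]
    field_simp
  have e2 : ((puC ε P LL x Φ).card.choose (L + 1) : ℝ) =
      P5.XX (L + 1) ε P LL (fun _ _ => 1) Φ x / (L + 1).factorial := by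
    have hm : (0 : ℝ) < (L + 1).factorial := by exact_mod_cast (L + 1).factorial_pos
    rw [← P5.tuples (L + 1) ε P LL _ hΦ x, eq_div_iff hm.ne', mul_comm,
      pu5_esym (puC ε P LL x Φ) (fun _ => 1) (L + 1)]
    simp
  rw [Finset.sum_range_succ', Finset.powersetCard_zero, Finset.sum_singleton, Finset.prod_empty,
    e2] at h1
  simp only [e1] at h1
  rw [puPi, ind_pos hΦ, one_mul, one_mul, add_comm (1 : ℝ) (∑ m ∈ Finset.range L, _)]
  refine h1.trans (le_of_eq ?_)
  ring

end main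

theorem pu5_of (h4 : PU4) : PU5 := by
  intro ρ D lam N δ hρ hδ
  set Γ : ℝ := N + 1 with hΓ
  have hΓ0 : 0 < Γ := by positivity
  obtain ⟨L0, hL0⟩ := Filter.eventually_atTop.1
    ((FloorSemiring.tendsto_pow_div_factorial_atTop ((1 + Γ) * Γ * lam)).eventually
      (gt_mem_nhds (half_pos hδ)))
  refine ⟨L0, fun L hL => ?_⟩
  set k : ℕ → ℝ := fun m => (Γ * Γ) ^ (m + 1) * (2 + |lam| ^ m + (m + 1 : ℕ) * |D (m + 1)|)
    with hk
  set K : ℝ := 1 + ((1 + Γ) * Γ) ^ (L + 1) + ∑ m ∈ Finset.range L, k m with hK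
  have hK0 : 0 < K := by
    have : 0 ≤ ∑ m ∈ Finset.range L, k m := Finset.sum_nonneg fun m _ => by positivity
    positivity
  set θ : ℝ := δ / (2 * K) with hθ
  have hθ0 : 0 < θ := by positivity
  choose g hg0 hg using fun m => h4 ρ m D lam θ hρ hθ0
  obtain ⟨e, he0, he⟩ := P5.fin_min g hg0 (L + 1)
  obtain ⟨n0, hn0⟩ := exists_nat_ge (Γ / θ)
  refine ⟨min e (θ ^ 2), lt_min he0 (by positivity), n0,
    fun η hη U V _ _ _ _ _ _ ε P hN hV hT hP LL c hc1 hc0 => ?_⟩
  have hN' : (Nat.card (Fin ρ → U) : ℝ) ≤ Γ := by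
    have : (Nat.card (Fin ρ → U) : ℝ) ≤ N := by exact_mod_cast hN
    linarith
  have hl : 0 ≤ lam := zero_le_one.trans hP.one
  have hs : Real.sqrt η ≤ θ := Real.sqrt_le_iff.2 ⟨hθ0.le, hη.trans (min_le_right _ _)⟩
  have hj : (av fun Φ : U →ₗ[F] V => ind (¬ Function.Injective Φ)) ≤ θ :=
    P5.junk_le hρ hN' hθ0 hn0 hV
  have H4 : ∀ m ≤ L + 1, ∀ (t : Fin m → Fin ρ → U) (a : Fin m → (Fin ρ → Dual F U) → ℝ),
      (∀ r w, |a r w| ≤ 1) → ∀ B : ℝ, |av fun Φ : U →ₗ[F] V => ∏ r, puNu P (a r) Φ| ≤ B →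
      |av fun Φ : U →ₗ[F] V => av fun x => P5.inn ε P t a Φ x| ≤ θ + B := by
    intro m hm t a ha B hB
    have := hg m η (hη.trans ((min_le_left _ _).trans (he m hm))) U V ε P hT hP t a ha
    have h2 := abs_sub_abs_le_abs_sub (av fun Φ : U →ₗ[F] V => av fun x => P5.inn ε P t a Φ x)
      (av fun Φ : U →ₗ[F] V => ∏ r, puNu P (a r) Φ)
    exact (sub_le_iff_le_add.1 (h2.trans this)).trans (add_le_add le_rfl hB)
  set b : (Fin ρ → U) → (Fin ρ → Dual F U) → ℝ := fun t w => puF (c t) w / Γ with hb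
  have hb1 : ∀ t w, |b t w| ≤ 1 := fun t w => by
    rw [hb, abs_div, abs_of_pos hΓ0, div_le_one hΓ0]
    exact P5.abs_puF hN' _ (hc1 t) w
  have hfac : ∀ m : ℕ, (1 : ℝ) ≤ m.factorial := fun m => by exact_mod_cast m.factorial_pos
  have T1 : |av fun Φ : U →ₗ[F] V => av fun x : Gam ρ V =>
      puPi ε P LL c L x Φ - ind (Function.Injective Φ) * (1 + ∑ m ∈ Finset.range L,
        Γ ^ (m + 1) / (m + 1).factorial * P5.XX (m + 1) ε P LL b Φ x)| ≤
      δ / 2 + ((1 + Γ) * Γ) ^ (L + 1) * θ := by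
    refine (abs_av_le _).trans ((av_mono fun Φ => (abs_av_le _).trans
      (av_mono fun x => pu5_point ε P LL c hc1 hΓ0 hN' L Φ x)).trans ?_)
    simp only [av_mul_left]
    have h1 := (le_abs_self _).trans (P5.abs_av_XX (ε := ε) (P := P) (B := θ + lam ^ (L + 1)) hN'
      (by positivity) (L + 1) LL (fun _ _ => 1) fun t => H4 _ le_rfl t _ (by simp) _
        ((abs_av_le _).trans (av_le_const fun Φ => P5.abs_prod_nu hP _ (by simp) Φ)))
    refine (mul_le_mul_of_nonneg_left h1 (by positivity)).trans ?_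
    have h2 := (hL0 (L + 1) (by omega)).le
    have h3 : ((1 + Γ) * Γ) ^ (L + 1) * θ / (L + 1).factorial ≤ ((1 + Γ) * Γ) ^ (L + 1) * θ :=
      div_le_self (by positivity) (hfac _)
    have h5 : (1 + Γ) ^ (L + 1) / (L + 1).factorial * (Γ ^ (L + 1) * (θ + lam ^ (L + 1))) =
        ((1 + Γ) * Γ * lam) ^ (L + 1) / (L + 1).factorial +
          ((1 + Γ) * Γ) ^ (L + 1) * θ / (L + 1).factorial := by
      rw [mul_pow, mul_pow]
      ring
    rw [h5]
    exact add_le_add h2 h3
  have T2 : ∀ m ∈ Finset.range L, |Γ ^ (m + 1) / (m + 1).factorial *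
      av fun Φ : U →ₗ[F] V => ind (Function.Injective Φ) * av fun x : Gam ρ V =>
        P5.XX (m + 1) ε P LL b Φ x| ≤ k m * θ := by
    intro m hm
    have hm' : m + 1 ≤ L + 1 := by have := Finset.mem_range.1 hm; omega
    have hD := hT.nonneg (m + 1)
    have h1 := P5.abs_av_XX (ε := ε) (P := P) (B := θ + θ * lam ^ m) hN' (by positivity) (m + 1)
      LL b fun t => H4 _ hm' t _ (fun r => hb1 _) _
        ((P5.main_small hP hΓ0 hN' (fun r => c (t r)) (fun r => hc1 _) fun r => hc0 _).trans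
          (mul_le_mul_of_nonneg_right hs (by positivity)))
    have h2 : |av fun Φ : U →ₗ[F] V => ind (¬ Function.Injective Φ) * av fun x : Gam ρ V =>
        P5.XX (m + 1) ε P LL b Φ x| ≤ θ * (Γ ^ (m + 1) * (1 + (m + 1 : ℕ) * D (m + 1))) := by
      refine (abs_av_le _).trans ((av_mono (g := fun Φ : U →ₗ[F] V =>
        ind (¬ Function.Injective Φ) * (Γ ^ (m + 1) * (1 + (m + 1 : ℕ) * D (m + 1))))
        fun Φ => ?_).trans ?_)
      · rw [abs_mul, abs_ind]
        exact mul_le_mul_of_nonneg_left ((abs_av_le _).trans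
          (P5.av_abs_XX hT hN' (m + 1) LL b hb1 Φ)) (ind_nonneg _)
      · rw [av_mul_right]
        exact mul_le_mul_of_nonneg_right hj (by positivity)
    have h3 : (av fun Φ : U →ₗ[F] V => ind (Function.Injective Φ) * av fun x : Gam ρ V =>
        P5.XX (m + 1) ε P LL b Φ x) =
        (av fun Φ : U →ₗ[F] V => av fun x : Gam ρ V => P5.XX (m + 1) ε P LL b Φ x) -
          av fun Φ : U →ₗ[F] V => ind (¬ Function.Injective Φ) * av fun x : Gam ρ V =>
            P5.XX (m + 1) ε P LL b Φ x := by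
      rw [← av_sub]
      exact av_congr fun Φ => by rw [ind_not]; ring
    rw [abs_mul, h3, abs_of_nonneg (by positivity)]
    refine (mul_le_mul (div_le_self (by positivity) (hfac _))
      ((abs_sub _ _).trans (add_le_add h1 h2)) (abs_nonneg _) (by positivity)).trans (le_of_eq ?_)
    simp only [hk]
    rw [abs_of_nonneg hl, abs_of_nonneg hD, mul_pow]
    ring
  have E : (av fun Φ : U →ₗ[F] V => av fun x : Gam ρ V => puPi ε P LL c L x Φ) - 1 =
      (av fun Φ : U →ₗ[F] V => av fun x : Gam ρ V =>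
        puPi ε P LL c L x Φ - ind (Function.Injective Φ) * (1 + ∑ m ∈ Finset.range L,
          Γ ^ (m + 1) / (m + 1).factorial * P5.XX (m + 1) ε P LL b Φ x)) +
      (∑ m ∈ Finset.range L, Γ ^ (m + 1) / (m + 1).factorial *
        av fun Φ : U →ₗ[F] V => ind (Function.Injective Φ) * av fun x : Gam ρ V =>
          P5.XX (m + 1) ε P LL b Φ x) -
      av fun Φ : U →ₗ[F] V => ind (¬ Function.Injective Φ) := by
    simp only [ind_not, av_sub, av_add, av_mul_left, av_const, av_sum, mul_add, mul_one,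
      Finset.mul_sum, mul_left_comm (ind _)]
    ring
  rw [E]
  refine (abs_sub _ _).trans ((add_le_add (abs_add_le _ _) le_rfl).trans ?_)
  have T3 := (Finset.abs_sum_le_sum_abs _ _).trans (Finset.sum_le_sum T2)
  rw [← Finset.sum_mul] at T3
  rw [abs_of_nonneg (av_ind_nonneg _)]
  have T4 : K * θ = δ / 2 := by
    rw [hθ]
    field_simp
  have T5 : K * θ = θ + ((1 + Γ) * Γ) ^ (L + 1) * θ + (∑ m ∈ Finset.range L, k m) * θ := by
    rw [hK]
    ring
  linarith

end SD
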