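import Mathlib

/-! Balog-Szemeredi-Gowers theorem with polynomial constants (Schoen-type proof). -/

namespace SD

open Finset
open scoped Pointwise

variable {G : Type*} [AddCommGroup G] [DecidableEq G]

/-- pairs of `A` with difference `d` -/
def bsgR (A : Finset G) (d : G) : Finset (G × G) := (A ×ˢ A).filter (fun p => p.1 - p.2 = d)

/-- `A ∩ (A + s)` -/
def bsgX (A : Finset G) (s : G) : Finset G := A.filter (fun a => a - s ∈ A)

lemma bsg_cardX (A : Finset G) (s : G) : (bsgX A s).card = (bsgR A s).card := by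
  refine Finset.card_bij (fun a _ => (a, a - s)) ?_ ?_ ?_
  · intro a ha
    simp only [bsgX, mem_filter] at ha
    simp [bsgR, ha.1, ha.2]
  · intro a _ b _ h
    exact (Prod.ext_iff.1 h).1
  · intro p hp
    simp only [bsgR, mem_filter, mem_product] at hp
    obtain ⟨⟨h1, h2⟩, h3⟩ := hp
    have h4 : p.1 - s = p.2 := by rw [← h3]; abel
    refine ⟨p.1, ?_, ?_⟩
    · simp [bsgX, h1, h4, h2]
    · simp [h4]

lemma bsg_energy (A : Finset G) :
    Finset.addEnergy A A = ∑ p ∈ A ×ˢ A, (bsgX A (p.1 - p.2)).card := by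
  simp only [bsg_cardX]
  unfold Finset.addEnergy
  rw [Finset.card_filter, Finset.sum_product]
  refine Finset.sum_congr rfl fun p _ => ?_
  rw [← Finset.card_filter]
  refine Finset.card_bij (fun q _ => (q.2, q.1)) ?_ ?_ ?_
  · intro q hq
    simp only [mem_filter, mem_product] at hq
    obtain ⟨⟨h1, h2⟩, h3⟩ := hq
    simp only [bsgR, mem_filter, mem_product]
    refine ⟨⟨h2, h1⟩, ?_⟩
    rw [sub_eq_sub_iff_add_eq_add, add_comm, ← h3, add_comm]
  · intro a _ b _ h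
    have := Prod.ext_iff.1 h
    exact Prod.ext this.2 this.1
  · intro q hq
    simp only [bsgR, mem_filter, mem_product] at hq
    obtain ⟨⟨h1, h2⟩, h3⟩ := hq
    refine ⟨(q.2, q.1), ?_, rfl⟩
    simp only [mem_filter, mem_product]
    refine ⟨⟨h2, h1⟩, ?_⟩
    rw [sub_eq_sub_iff_add_eq_add] at h3
    rw [← h3, add_comm]

lemma bsg_pair (A : Finset G) (x y : G) :
    ((A ×ˢ A).filter (fun p => x - (p.1 - p.2) ∈ A ∧ y - (p.1 - p.2) ∈ A)).card
      ≤ A.card * (bsgR A (x - y)).card := by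
  rw [← Finset.card_product]
  refine Finset.card_le_card_of_injOn
    (fun p => (p.1, (x - (p.1 - p.2), y - (p.1 - p.2)))) ?_ ?_
  · intro p hp
    simp only [coe_filter, mem_product, Set.mem_ofPred_eq] at hp
    obtain ⟨⟨h1, _⟩, h3, h4⟩ := hp
    simp only [coe_product, Set.mem_prod, mem_coe, bsgR, mem_filter, mem_product]
    refine ⟨h1, ⟨h3, h4⟩, by abel⟩
  · intro p _ q _ h
    simp only [Prod.mk.injEq] at h
    obtain ⟨h1, h2, _⟩ := h
    refine Prod.ext h1 ?_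
    rw [h1] at h2
    simpa using h2

/-- number of unpopular pairs inside `X` -/
noncomputable def bsgBad (A X : Finset G) (t : ℝ) : ℕ :=
  ((X ×ˢ X).filter (fun q => ((bsgR A (q.1 - q.2)).card : ℝ) ≤ t)).card

lemma bsg_bad_sum (A : Finset G) (t : ℝ) (ht : 0 ≤ t) :
    ∑ p ∈ A ×ˢ A, (bsgBad A (bsgX A (p.1 - p.2)) t : ℝ) ≤ (A.card : ℝ) ^ 3 * t := by
  classical
  have h1 : ∀ p : G × G, (bsgBad A (bsgX A (p.1 - p.2)) t : ℝ)
      = ∑ q ∈ (A ×ˢ A).filter (fun q => ((bsgR A (q.1 - q.2)).card : ℝ) ≤ t),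
          if q.1 - (p.1 - p.2) ∈ A ∧ q.2 - (p.1 - p.2) ∈ A then (1 : ℝ) else 0 := by
    intro p
    rw [Finset.sum_boole]
    unfold bsgBad
    congr 2
    ext q
    simp only [bsgX, mem_filter, mem_product]
    tauto
  simp only [h1]
  rw [Finset.sum_comm]
  have h2 : ∀ q ∈ (A ×ˢ A).filter (fun q => ((bsgR A (q.1 - q.2)).card : ℝ) ≤ t),
      (∑ p ∈ A ×ˢ A, if q.1 - (p.1 - p.2) ∈ A ∧ q.2 - (p.1 - p.2) ∈ A then (1 : ℝ) else 0)
        ≤ A.card * t := by
    intro q hq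
    rw [Finset.sum_boole]
    have h3 := bsg_pair A q.1 q.2
    have h4 := (mem_filter.1 hq).2
    have h5 : (((A ×ˢ A).filter
        (fun p => q.1 - (p.1 - p.2) ∈ A ∧ q.2 - (p.1 - p.2) ∈ A)).card : ℝ)
        ≤ A.card * (bsgR A (q.1 - q.2)).card := by exact_mod_cast h3
    exact h5.trans (mul_le_mul_of_nonneg_left h4 (Nat.cast_nonneg _))
  refine (Finset.sum_le_card_nsmul _ _ _ h2).trans ?_
  rw [nsmul_eq_mul]
  have h6 : (((A ×ˢ A).filter (fun q => ((bsgR A (q.1 - q.2)).card : ℝ) ≤ t)).card : ℝ)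
      ≤ A.card * A.card := by
    have := Finset.card_filter_le (A ×ˢ A) (fun q => ((bsgR A (q.1 - q.2)).card : ℝ) ≤ t)
    rw [Finset.card_product] at this
    exact_mod_cast this
  have h7 : (0 : ℝ) ≤ A.card * t := by positivity
  calc _ ≤ (A.card * A.card : ℝ) * (A.card * t) := mul_le_mul_of_nonneg_right h6 h7
    _ = _ := by ring

lemma bsg_exists (A : Finset G) (hA : A.Nonempty) (k : ℝ) (hk : 0 < k)
    (hE : k * (A.card : ℝ) ^ 3 ≤ Finset.addEnergy A A) :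
    ∃ X ⊆ A, k ^ 2 * (A.card : ℝ) ^ 2 / 2
      ≤ (X.card : ℝ) ^ 2 - 8 * bsgBad A X (k ^ 2 / 16 * A.card) := by
  have hN : (0 : ℝ) < A.card := by exact_mod_cast hA.card_pos
  have h1 : k * (A.card : ℝ) ^ 3 ≤ ∑ p ∈ A ×ˢ A, ((bsgX A (p.1 - p.2)).card : ℝ) := by
    rw [bsg_energy] at hE
    exact_mod_cast hE
  have h2 := sq_sum_le_card_mul_sum_sq (s := A ×ˢ A)
    (f := fun p : G × G => ((bsgX A (p.1 - p.2)).card : ℝ))
  rw [Finset.card_product, Nat.cast_mul] at h2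
  have h3 : k ^ 2 * (A.card : ℝ) ^ 4 ≤ ∑ p ∈ A ×ˢ A, ((bsgX A (p.1 - p.2)).card : ℝ) ^ 2 := by
    have h4 : (k * (A.card : ℝ) ^ 3) ^ 2 ≤ _ := (pow_le_pow_left₀ (by positivity) h1 2).trans h2
    have h5 : (0 : ℝ) < A.card * A.card := by positivity
    refine le_of_mul_le_mul_left ?_ h5
    calc _ = (k * (A.card : ℝ) ^ 3) ^ 2 := by ring
      _ ≤ _ := h4
  have h6 := bsg_bad_sum A (k ^ 2 / 16 * A.card) (by positivity)
  have h7 : ∑ _p ∈ A ×ˢ A, k ^ 2 * (A.card : ℝ) ^ 2 / 2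
      ≤ ∑ p ∈ A ×ˢ A, (((bsgX A (p.1 - p.2)).card : ℝ) ^ 2
        - 8 * bsgBad A (bsgX A (p.1 - p.2)) (k ^ 2 / 16 * A.card)) := by
    rw [Finset.sum_sub_distrib, ← Finset.mul_sum, Finset.sum_const, Finset.card_product,
      nsmul_eq_mul, Nat.cast_mul]
    nlinarith
  obtain ⟨p, _, hp⟩ := Finset.exists_le_of_sum_le (hA.product hA) h7
  exact ⟨_, Finset.filter_subset _ _, hp⟩

lemma bsg_rep (A Y : Finset G) (x z : G) (t : ℝ) (ht : 0 ≤ t)
    (hx : ∀ y ∈ Y, t ≤ (bsgR A (x - y)).card) (hz : ∀ y ∈ Y, t ≤ (bsgR A (z - y)).card) :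
    Y.card * t ^ 2 ≤ ((((A ×ˢ A) ×ˢ (A ×ˢ A)).filter
      (fun q => (q.1.1 - q.1.2) - (q.2.1 - q.2.2) = x - z)).card : ℝ) := by
  have h1 : (Y.sigma (fun y => bsgR A (x - y) ×ˢ bsgR A (z - y))).card
      ≤ (((A ×ˢ A) ×ˢ (A ×ˢ A)).filter
        (fun q => (q.1.1 - q.1.2) - (q.2.1 - q.2.2) = x - z)).card := by
    refine Finset.card_le_card_of_injOn (fun w => w.2) ?_ ?_
    · intro w hw
      simp only [coe_sigma, Set.mem_sigma_iff, mem_coe, mem_product, bsgR, mem_filter] at hw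
      obtain ⟨_, ⟨h1, h2⟩, h3, h4⟩ := hw
      simp only [coe_filter, mem_product, Set.mem_ofPred_eq]
      refine ⟨⟨h1, h3⟩, ?_⟩
      rw [h2, h4]; abel
    · intro w hw v hv h
      simp only [coe_sigma, Set.mem_sigma_iff, mem_coe, mem_product, bsgR, mem_filter] at hw hv
      obtain ⟨w1, w2⟩ := w
      obtain ⟨v1, v2⟩ := v
      simp only at h hw hv
      subst h
      have : x - w1 = x - v1 := by rw [← hw.2.1.2, ← hv.2.1.2]
      have h2 : w1 = v1 := by simpa using this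
      subst h2
      rfl
  rw [Finset.card_sigma] at h1
  have h2 : ((∑ y ∈ Y, (bsgR A (x - y) ×ˢ bsgR A (z - y)).card : ℕ) : ℝ) ≤ _ :=
    Nat.cast_le.2 h1
  refine le_trans ?_ h2
  rw [Nat.cast_sum, ← nsmul_eq_mul]
  refine Finset.card_nsmul_le_sum _ _ _ fun y hy => ?_
  rw [Finset.card_product, Nat.cast_mul, sq]
  exact mul_le_mul (hx y hy) (hz y hy) ht (Nat.cast_nonneg _)

/-- Balog-Szemeredi-Gowers -/
theorem bsg (A : Finset G) (hA : A.Nonempty) (k : ℝ) (hk : 0 < k)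
    (hE : k * (A.card : ℝ) ^ 3 ≤ Finset.addEnergy A A) :
    ∃ B ⊆ A, k * A.card / 3 ≤ B.card ∧ ((B - B).card : ℝ) ≤ 2 ^ 10 / k ^ 5 * A.card := by
  classical
  have hN : (0 : ℝ) < A.card := by exact_mod_cast hA.card_pos
  obtain ⟨X, hXA, hX⟩ := bsg_exists A hA k hk hE
  set t : ℝ := k ^ 2 / 16 * A.card with htdef
  have ht : 0 < t := by positivity
  have hb0 : (0 : ℝ) ≤ bsgBad A X t := Nat.cast_nonneg _
  have hX0 : (0 : ℝ) ≤ X.card := Nat.cast_nonneg _
  have hX1 : 2 * k * A.card / 3 ≤ X.card := by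
    refine le_of_sq_le_sq ?_ hX0
    nlinarith [sq_nonneg (k * A.card)]
  have hXp : (0 : ℝ) < X.card := lt_of_lt_of_le (by positivity) hX1
  have hbad : 8 * (bsgBad A X t : ℝ) ≤ (X.card : ℝ) ^ 2 := by
    nlinarith [sq_nonneg (k * A.card)]
  let f : G → ℕ := fun x => (X.filter (fun y => ((bsgR A (x - y)).card : ℝ) ≤ t)).card
  have hf : (bsgBad A X t : ℝ) = ∑ x ∈ X, (f x : ℝ) := by
    unfold bsgBad
    rw [Finset.card_filter, Finset.sum_product]
    push_cast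
    refine Finset.sum_congr rfl fun x _ => ?_
    simp only [f]
    rw [Finset.card_filter]
    push_cast
    rfl
  let B := X.filter (fun x => (f x : ℝ) ≤ X.card / 4)
  have hB : (X.card : ℝ) / 2 ≤ B.card := by
    have h1 := Finset.card_filter_add_card_filter_not (s := X)
      (fun x => (f x : ℝ) ≤ X.card / 4)
    have h2 : ((X.filter (fun x => ¬ (f x : ℝ) ≤ X.card / 4)).card : ℝ) * (X.card / 4)
        ≤ ∑ x ∈ X, (f x : ℝ) := by
      rw [← nsmul_eq_mul]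
      refine (Finset.card_nsmul_le_sum _ (fun x => (f x : ℝ)) _ fun x hx => ?_).trans ?_
      · exact (not_le.1 (mem_filter.1 hx).2).le
      · exact Finset.sum_le_sum_of_subset_of_nonneg (Finset.filter_subset _ _)
          fun _ _ _ => Nat.cast_nonneg _
    have h3 : (B.card : ℝ) + ((X.filter (fun x => ¬ (f x : ℝ) ≤ X.card / 4)).card : ℝ)
        = X.card := by exact_mod_cast h1
    have h4 : ((X.filter (fun x => ¬ (f x : ℝ) ≤ X.card / 4)).card : ℝ) ≤ X.card / 2 := by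
      refine le_of_mul_le_mul_right ?_ (show (0 : ℝ) < X.card / 4 by positivity)
      nlinarith
    linarith
  refine ⟨B, (Finset.filter_subset _ _).trans hXA, by linarith, ?_⟩
  have hrep : ∀ d ∈ B - B, (X.card : ℝ) / 2 * t ^ 2 ≤ ((((A ×ˢ A) ×ˢ (A ×ˢ A)).filter
      (fun q => (q.1.1 - q.1.2) - (q.2.1 - q.2.2) = d)).card : ℝ) := by
    intro d hd
    obtain ⟨x, hx, z, hz, rfl⟩ := Finset.mem_sub.1 hd
    let Y := X.filter (fun y => ¬ ((bsgR A (x - y)).card : ℝ) ≤ t ∧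
      ¬ ((bsgR A (z - y)).card : ℝ) ≤ t)
    have hY : (X.card : ℝ) / 2 ≤ Y.card := by
      have h1 : X ⊆ Y ∪ (X.filter (fun y => ((bsgR A (x - y)).card : ℝ) ≤ t) ∪
          X.filter (fun y => ((bsgR A (z - y)).card : ℝ) ≤ t)) := by
        intro y hy
        simp only [Y, mem_union, mem_filter]
        tauto
      have h2 := (Finset.card_le_card h1).trans ((Finset.card_union_le _ _).trans
        (Nat.add_le_add_left (Finset.card_union_le _ _) _))
      have h3 : (X.card : ℝ) ≤ Y.card + (f x + f z) := by exact_mod_cast h2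
      have h4 := (mem_filter.1 hx).2
      have h5 := (mem_filter.1 hz).2
      linarith
    refine le_trans (mul_le_mul_of_nonneg_right hY (by positivity)) ?_
    exact bsg_rep A Y x z t ht.le (fun y hy => (not_le.1 (mem_filter.1 hy).2.1).le)
      (fun y hy => (not_le.1 (mem_filter.1 hy).2.2).le)
  have hsum := Finset.card_nsmul_le_sum _ _ _ hrep
  rw [← Nat.cast_sum, Finset.sum_card_fiberwise_eq_card_filter, nsmul_eq_mul] at hsum
  have h4 : ((((A ×ˢ A) ×ˢ (A ×ˢ A)).filter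
      (fun q => (q.1.1 - q.1.2) - (q.2.1 - q.2.2) ∈ B - B)).card : ℝ) ≤ (A.card : ℝ) ^ 4 := by
    have := Finset.card_filter_le ((A ×ˢ A) ×ˢ (A ×ˢ A))
      (fun q => (q.1.1 - q.1.2) - (q.2.1 - q.2.2) ∈ B - B)
    simp only [Finset.card_product] at this
    have h5 : ((((A ×ˢ A) ×ˢ (A ×ˢ A)).filter
      (fun q => (q.1.1 - q.1.2) - (q.2.1 - q.2.2) ∈ B - B)).card : ℝ)
        ≤ ((A.card * A.card * (A.card * A.card) : ℕ) : ℝ) := Nat.cast_le.2 this
    refine h5.trans (le_of_eq ?_)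
    push_cast; ring
  have h5 : ((B - B).card : ℝ) * (k * A.card / 3 * t ^ 2) ≤ (A.card : ℝ) ^ 4 := by
    refine le_trans (mul_le_mul_of_nonneg_left ?_ (Nat.cast_nonneg _)) (hsum.trans h4)
    exact mul_le_mul_of_nonneg_right (by linarith) (by positivity)
  have h6 : (0 : ℝ) < k * A.card / 3 * t ^ 2 := by positivity
  refine le_of_mul_le_mul_right (h5.trans ?_) h6
  rw [htdef]
  have h7 : 2 ^ 10 / k ^ 5 * (A.card : ℝ) * (k * A.card / 3 * (k ^ 2 / 16 * A.card) ^ 2)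
      = 4 / 3 * (A.card : ℝ) ^ 4 := by
    field_simp
    ring
  rw [h7]
  nlinarith [pow_pos hN 4]

/-- Balog-Szemeredi-Gowers, doubling form -/
theorem bsg' (A : Finset G) (hA : A.Nonempty) (k : ℝ) (hk : 0 < k)
    (hE : k * (A.card : ℝ) ^ 3 ≤ Finset.addEnergy A A) :
    ∃ B ⊆ A, B.Nonempty ∧ k * A.card / 3 ≤ B.card ∧
      ((B - B).card : ℝ) ≤ 2 ^ 12 / k ^ 6 * B.card := by
  obtain ⟨B, hBA, h1, h2⟩ := bsg A hA k hk hE
  have hN : (0 : ℝ) < A.card := by exact_mod_cast hA.card_pos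
  have hB : (0 : ℝ) < B.card := lt_of_lt_of_le (by positivity) h1
  refine ⟨B, hBA, Finset.card_pos.1 (by exact_mod_cast hB), h1, h2.trans ?_⟩
  have h3 : (A.card : ℝ) ≤ 3 / k * B.card := by
    rw [div_mul_eq_mul_div, le_div_iff₀ hk]; linarith
  calc 2 ^ 10 / k ^ 5 * (A.card : ℝ) ≤ 2 ^ 10 / k ^ 5 * (3 / k * B.card) := by gcongr
    _ = 3 * 2 ^ 10 / k ^ 6 * B.card := by field_simp
    _ ≤ _ := by gcongr; norm_num

end SD
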