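import Pool.Agent.Lib.MP_ecee09_co.SD.Defs

/-! Interface statements. Each module proves one of them from others given as hypotheses. -/

namespace SD

open Module

/-- BSG and Ruzsa in spaces over `F` -/
def BF : Prop :=
  ∀ c : ℝ, 0 < c → ∃ C : ℝ, 0 < C ∧
    ∀ (X : Type) [AddCommGroup X] [Module F X] [Finite X] (A : Set X), A.Nonempty →
      c * cnt A ^ 3 ≤ energy A →
        ∃ H : Submodule F X, (Nat.card H : ℝ) ≤ C * cnt A ∧ cnt A ≤ C * cnt (A ∩ (H : Set X))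

def LP : Prop :=
  ∀ J p : ℕ, ∃ C : ℝ, 0 ≤ C ∧
    ∀ (V : Type) [AddCommGroup V] [Module F V] [Finite V] (h : G V → ℝ),
      av (fun M => |proj (Top J) h M| ^ p) ≤ C * (1 + av fun M => |h M| ^ (2 * p))

def TH : Prop :=
  ∀ D : ℕ → ℝ, ∃ Θ : ℝ → ℝ, (∀ t, 0 ≤ Θ t) ∧ (∀ s t, |s| ≤ |t| → Θ s ≤ Θ t) ∧
    (∀ (α : Type) [Finite α] (h : α → ℝ), Tame D h → av (fun x => Θ (h x)) ≤ 1) ∧
    ∀ p : ℕ, ∃ C : ℝ, 0 ≤ C ∧ ∀ t, |t| ^ p ≤ C * Θ t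

def MR : Prop :=
  ∀ (η : ℝ) (N : ℕ), 0 < η → ∃ η0 : ℝ, 0 < η0 ∧
    ∀ (X C O : Type) [AddCommGroup X] [Finite X] [AddCommGroup C] [Finite C] [Finite O]
      [Nonempty O] (a : O → C → X) (good : O → Prop) (ψ : X → O → ℝ),
      (∀ o c c', a o (c + c') = a o c + a o c') → Nat.card C ≤ N →
      (∀ x o, 0 ≤ ψ x o) → (∀ x o c, ψ (x + a o c) o = ψ x o) →
      av (fun x => |av (ψ x) - 1|) ≤ η0 →
      av (fun x => av fun o => ψ x o * ind (¬ good o)) ≤ η0 →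
      ∃ ψ' : X → O → ℝ, (∀ x o, 0 ≤ ψ' x o) ∧ (∀ x o, ψ' x o ≤ ψ x o) ∧
        (∀ x o c, ψ' (x + a o c) o = ψ' x o) ∧ (∀ x o, ¬ good o → ψ' x o = 0) ∧
        (∀ x, av (ψ' x) ≤ 1) ∧ av (fun x => av fun o => ψ x o - ψ' x o) ≤ η

def CL : Prop :=
  ∀ (E : Type) [AddCommGroup E] [Module F E] [Finite E] [Nontrivial E] (q : QF E), ND q →
    ∀ (R : ℕ) (W : Submodule F (Fin R → E)),
      (∀ x, (∀ w ∈ W, brk q x w = 0) → x ∈ W) → (∀ e : E, (fun _ => e) ∈ W) →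
      (∃ (r : Fin R) (C : Set (Fin R)) (S : Submodule F E), r ∉ C ∧ S ≠ ⊥ ∧ S ≠ ⊤ ∧
        (∀ s ∈ S, ∃ x ∈ W, x r = s ∧ ∀ j ∈ C, x j = 0) ∧
        (∀ s ∈ perp q S, ∃ x ∈ W, x r = s ∧ ∀ j, j ∉ C → j ≠ r → x j = 0)) ∨
      (∃ (r : Fin R) (cl : Fin R → Fin 3), ∀ (i : Fin 3) (s : E),
        ∃ x ∈ W, x r = s ∧ ∀ j, j ≠ r → cl j = i → x j = 0) ∨
      (∃ m : Fin R → Fin R, (∀ r, m (m r) = r) ∧ (∀ r, m r ≠ r) ∧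
        ∀ x, x ∈ W ↔ ∀ r, x (m r) = x r)

def MOM : Prop :=
  ∀ (D : ℕ → ℝ) (J R : ℕ) (δ : ℝ), 0 < δ → ∃ η : ℝ, 0 < η ∧
    ∀ (n : ℕ) (E : Type) [AddCommGroup E] [Module F E] [Finite E] (q : QF E)
      (c : (Fin n → E) → ℝ), finrank F E = J → 1 ≤ J → ND q → Tame D (fld q c) →
      (∀ S : Submodule F E, S ≠ ⊥ → S ≠ ⊤ → box (fld q c) S (perp q S) ≤ η) →
      box3 (fld q c) ≤ η →
      ∀ (κ : Type) [Fintype κ] (R' : ℕ), R' ≤ R → ∀ t : Fin R' → κ → E,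
        |(av fun M => av fun y : κ → Fk n => ∏ r, fld q c (M + tau (star y (t r)))) -
          Real.sqrt (sm fun Z => c Z ^ 2) ^ R' * pm t| ≤ δ

/-- `Psi` depends only on the sum and the sum of squares -/
def Inv2 {T : Type} [Fintype T] (Ψ : (T → ℝ) → ℝ) : Prop :=
  ∀ X X' : T → ℝ, ∑ t, X t = ∑ t, X' t → ∑ t, X t ^ 2 = ∑ t, X' t ^ 2 → Ψ X = Ψ X'

def GT : Prop :=
  ∃ τ : ℝ, 0 < τ ∧ ∀ (T : Type) [Fintype T] (o : T) (η : ℝ), 0 < η →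
    ∃ (Ψ Ψ1 Ψ2 : (T → ℝ) → ℝ) (C : ℝ) (R : ℕ) (δ : ℝ), 0 < δ ∧
      Inv2 Ψ ∧ Inv2 Ψ1 ∧ Inv2 Ψ2 ∧ (∀ X, 0 ≤ Ψ X) ∧ (∀ X, Ψ X ≤ C) ∧ (∀ X, 0 ≤ Ψ2 X) ∧
      (∀ X, Ψ1 X ^ 2 ≤ Ψ X * Ψ2 X) ∧
      ∀ (Ω L : Type) [Finite Ω] [Nonempty Ω] (Y : Ω → L → ℝ) (e1 e2 : T → L),
        Function.Injective e1 → Function.Injective e2 → e1 o = e2 o →
        (∀ t t', e1 t = e2 t' → t = o) →
        (∀ R' : ℕ, R' ≤ R → ∀ l : Fin R' → L, |(av fun w => ∏ r, Y w (l r)) - pm l| ≤ δ) →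
        av (fun w => (Ψ (Y w ∘ e1) - 1) * (Ψ (Y w ∘ e2) - 1)) ≤ η ∧
        av (fun w => (Ψ1 (Y w ∘ e1) - τ * Y w (e1 o)) * (Ψ1 (Y w ∘ e2) - τ * Y w (e1 o))) ≤ η ∧
        av (fun w => Ψ2 (Y w ∘ e1)) ≤ 1

/-- the Gaussian step (G) -/
def GG : Prop :=
  ∀ (D : ℕ → ℝ) (m : ℝ), 0 < m → ∃ cG : ℝ, 0 < cG ∧ ∀ (J k : ℕ) (η : ℝ), 0 < η →
    ∃ ηS : ℝ, 0 < ηS ∧ ∃ n0 : ℕ, ∀ n : ℕ, n0 ≤ n →
      ∀ (E : Type) [AddCommGroup E] [Module F E] [Finite E] (q : QF E) (u : G (Fk n × E) → ℝ),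
        Setup J D q u → m ≤ sm (fun Z => cf q u Z ^ 2) →
        (∀ S : Submodule F E, S ≠ ⊥ → S ≠ ⊤ → box (fld q (cf q u)) S (perp q S) ≤ ηS) →
        box3 (fld q (cf q u)) ≤ ηS → Gain J u k η cG

/-- structured case, `S` nondegenerate -/
def PR (J : ℕ) : Prop :=
  ∀ (D : ℕ → ℝ) (ηS : ℝ), 0 < ηS → ∃ cS : ℝ, 0 < cS ∧ ∀ (k : ℕ) (η : ℝ), 0 < η →
    ∃ n0 : ℕ, ∀ n : ℕ, n0 ≤ n →
      ∀ (E : Type) [AddCommGroup E] [Module F E] [Finite E] (q : QF E) (u : G (Fk n × E) → ℝ),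
        Setup J D q u → ∀ S : Submodule F E, S ≠ ⊥ → S ≠ ⊤ → S ⊓ perp q S = ⊥ →
        ηS ≤ box (fld q (cf q u)) S (perp q S) → Gain J u k η cS

/-- structured case, `S` degenerate -/
def PA (J : ℕ) : Prop :=
  ∀ (D : ℕ → ℝ) (ηS : ℝ), 0 < ηS → ∃ cS : ℝ, 0 < cS ∧ ∀ (k : ℕ) (η : ℝ), 0 < η →
    ∃ n0 : ℕ, ∀ n : ℕ, n0 ≤ n →
      ∀ (E : Type) [AddCommGroup E] [Module F E] [Finite E] (q : QF E) (u : G (Fk n × E) → ℝ),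
        Setup J D q u → ∀ S : Submodule F E, S ⊓ perp q S ≠ ⊥ →
        ηS ≤ box (fld q (cf q u)) S (perp q S) → Gain J u k η cS

/-- structured case, large `box3` -/
def U3 (J : ℕ) : Prop :=
  ∀ (D : ℕ → ℝ) (ηS : ℝ), 0 < ηS → ∃ cS : ℝ, 0 < cS ∧ ∀ (k : ℕ) (η : ℝ), 0 < η →
    ∃ n0 : ℕ, ∀ n : ℕ, n0 ≤ n →
      ∀ (E : Type) [AddCommGroup E] [Module F E] [Finite E] (q : QF E) (u : G (Fk n × E) → ℝ),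
        Setup J D q u → ηS ≤ box3 (fld q (cf q u)) → Gain J u k η cS

/-- lattice freeze -/
def LF : Prop :=
  ∀ (ρ : ℕ) (C : ℝ) (k R0 : ℕ) (η : ℝ), 0 < η → ∃ n0 : ℕ,
    ∀ (V : Type) [AddCommGroup V] [Module F V] [Finite V], n0 ≤ finrank F V →
      ∀ H : Submodule F (Pt ρ V), (Nat.card H : ℝ) ≤ C * DP V ρ →
        ∃ A : GFam k V,
          (A.E fun M Φ => ind (¬ (Function.Injective Φ ∧ (Fr H M Φ ∨ High H R0 M Φ)))) ≤ η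

def LZ : Prop :=
  ∀ (ρ : ℕ) (ε : Fk ρ) (C : ℝ) (k : ℕ) (η : ℝ), 0 < η → ∃ n0 : ℕ,
    ∀ (V : Type) [AddCommGroup V] [Module F V] [Finite V], n0 ≤ finrank F V →
      ∀ H : Submodule F (Pt ρ V), (Nat.card H : ℝ) ≤ C * DP V ρ →
        ∃ A : PFam ρ k V, A.junk ≤ η ∧
          (A.E fun x Φ => av fun B : Gam ρ (Fk k) =>
            ind (∃ p ∈ H, resid ε p (x + gpush Φ B) = 0 ∧ ∃ i, (p.1 i).comp Φ ≠ 0)) ≤ η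

/-- hierarchy case (H) -/
def HH (ρ : ℕ) : Prop :=
  ∀ (ε : Fk ρ) (D : ℕ → ℝ) (η1 : ℝ), 0 < η1 → ∃ c : ℝ, 0 < c ∧
    ∀ (k : ℕ) (η : ℝ), 0 < η → ∃ n0 : ℕ,
      ∀ (V : Type) [AddCommGroup V] [Module F V] [Finite V], n0 ≤ finrank F V →
        ∀ P : Set (Pt ρ V), Tame D (NN ε P) →
          ∀ DD : Submodule F (Fk ρ), DD ≠ ⊥ → DD ≠ ⊤ → η1 ≤ coll P DD → PDrop ε P k η c

/-- lattice case (LG) -/
def LG (ρ : ℕ) : Prop :=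
  ∀ (ε : Fk ρ) (D : ℕ → ℝ) (η1 : ℝ), 0 < η1 → ∃ c : ℝ, 0 < c ∧
    ∀ (k : ℕ) (η : ℝ), 0 < η → ∃ n0 : ℕ,
      ∀ (V : Type) [AddCommGroup V] [Module F V] [Finite V], n0 ≤ finrank F V →
        ∀ P : Set (Pt ρ V), Tame D (NN ε P) → η1 * DP V (3 * ρ) ≤ energy P → PDrop ε P k η c

def PURE (ρ : ℕ) : Prop :=
  ∀ (ε : Fk ρ) (D : ℕ → ℝ) (k : ℕ) (η : ℝ), 0 < η → ∃ η1 : ℝ, 0 < η1 ∧ ∃ n0 : ℕ,
    ∀ (V : Type) [AddCommGroup V] [Module F V] [Finite V], n0 ≤ finrank F V →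
      ∀ P : Set (Pt ρ V), Tame D (NN ε P) →
        (∀ DD : Submodule F (Fk ρ), DD ≠ ⊥ → DD ≠ ⊤ → coll P DD ≤ η1) →
        energy P ≤ η1 * DP V (3 * ρ) → Solve ε P k η

end SD
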