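import Pool.Agent.Lib.MP_ecee09_co.SD.Stmts

/-!
Classification of the subspaces `W` of `E ^ ι` that contain their orthogonal complement and the
diagonal (statement (CL) of the paper, section 3).
-/

set_option autoImplicit false

namespace SD

section CL

variable {E ι : Type*} [AddCommGroup E] [Module (ZMod 2) E] [Finite E] [Fintype ι] [DecidableEq ι]

/-- The values at `r` of the elements of `W` that vanish on `C`. -/
def slc (W : Submodule (ZMod 2) (ι → E)) (r : ι) (C : Finset ι) : Submodule (ZMod 2) E where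
  carrier := {y | ∃ x ∈ W, (∀ i ∈ C, x i = 0) ∧ x r = y}
  add_mem' := by
    rintro _ _ ⟨x, hx, h1, rfl⟩ ⟨y, hy, h2, rfl⟩
    exact ⟨x + y, W.add_mem hx hy, fun i hi => by simp [h1 i hi, h2 i hi], rfl⟩
  zero_mem' := ⟨0, W.zero_mem, fun _ _ => rfl, rfl⟩
  smul_mem' := by
    rintro c _ ⟨x, hx, h1, rfl⟩
    exact ⟨c • x, W.smul_mem c hx, fun i hi => by simp [h1 i hi], rfl⟩

omit [Finite E] [Fintype ι] [DecidableEq ι] in
lemma mem_slc {W : Submodule (ZMod 2) (ι → E)} {r : ι} {C : Finset ι} {y : E} :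
    y ∈ slc W r C ↔ ∃ x ∈ W, (∀ i ∈ C, x i = 0) ∧ x r = y := Iff.rfl

/-- The complement of `C` in the set of parties other than `r`. -/
def cpl (r : ι) (C : Finset ι) : Finset ι := Finset.univ.filter fun i => i ∉ C ∧ i ≠ r

lemma mem_cpl {r i : ι} {C : Finset ι} : i ∈ cpl r C ↔ i ∉ C ∧ i ≠ r := by simp [cpl]

lemma cpl_cpl {r : ι} {C : Finset ι} (h : r ∉ C) : cpl r (cpl r C) = C := by
  ext i
  simp only [mem_cpl, not_and, not_not, ne_eq]
  constructor
  · rintro ⟨h1, h2⟩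
    by_contra h3
    exact h2 (h1 h3)
  · intro hi
    exact ⟨fun h3 => absurd hi h3, fun h3 => h (h3 ▸ hi)⟩

lemma om_surj (om : LinearMap.BilinForm (ZMod 2) E) (hn : ∀ a, (∀ b, om a b = 0) → a = 0)
    (f : Module.Dual (ZMod 2) E) : ∃ u, ∀ b, om u b = f b := by
  have hi : Function.Injective (om : E →ₗ[ZMod 2] Module.Dual (ZMod 2) E) := by
    rw [injective_iff_map_eq_zero]
    intro a ha
    exact hn a fun b => by rw [ha]; rfl
  have hs := (LinearMap.injective_iff_surjective_of_finrank_eq_finrank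
    (f := (om : E →ₗ[ZMod 2] Module.Dual (ZMod 2) E)) (Subspace.dual_finrank_eq).symm).1 hi
  obtain ⟨u, hu⟩ := hs f
  exact ⟨u, fun b => by rw [hu]⟩

lemma perp_le_slc (om : LinearMap.BilinForm (ZMod 2) E) (hn : ∀ a, (∀ b, om a b = 0) → a = 0)
    {W : Submodule (ZMod 2) (ι → E)}
    (hperp : ∀ x : ι → E, (∀ w ∈ W, ∑ r, om (x r) (w r) = 0) → x ∈ W)
    {r : ι} {C : Finset ι} (hr : r ∉ C) {y : E} (hy : ∀ t ∈ slc W r C, om y t = 0) :
    y ∈ slc W r (cpl r C) := by
  let f : W →ₗ[ZMod 2] (ι → E) :=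
    { toFun := fun x i => if i ∈ C then x.1 i else 0
      map_add' := fun a b => by funext i; by_cases h : i ∈ C <;> simp [h]
      map_smul' := fun c a => by funext i; by_cases h : i ∈ C <;> simp [h] }
  let φ : Module.Dual (ZMod 2) W := (om y) ∘ₗ (LinearMap.proj r) ∘ₗ W.subtype
  have h1 : φ ∈ (LinearMap.ker f).dualAnnihilator := by
    rw [Submodule.mem_dualAnnihilator]
    intro w hw
    refine hy _ ⟨w.1, w.2, fun i hi => ?_, rfl⟩
    have := congrFun (LinearMap.mem_ker.1 hw) i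
    simpa [f, hi] using this
  rw [← LinearMap.range_dualMap_eq_dualAnnihilator_ker] at h1
  obtain ⟨ψ, hψ⟩ := h1
  choose u hu using fun i => om_surj om hn (ψ ∘ₗ LinearMap.single (ZMod 2) (fun _ => E) i)
  refine ⟨fun i => if i = r then y else if i ∈ C then -u i else 0, hperp _ fun w hw => ?_,
    fun i hi => ?_, by simp⟩
  · have h2 : ψ (f ⟨w, hw⟩) = om y (w r) := by
      have := LinearMap.congr_fun hψ ⟨w, hw⟩
      simpa [φ] using this
    have h3 : ψ (f ⟨w, hw⟩) = ∑ i, if i ∈ C then om (u i) (w i) else 0 := by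
      conv_lhs => rw [← Finset.univ_sum_single (f ⟨w, hw⟩)]
      rw [map_sum]
      refine Finset.sum_congr rfl fun i _ => ?_
      by_cases h : i ∈ C
      · simp [f, h, hu]
      · simp [f, h]
    have h4 : ∀ i, om (if i = r then y else if i ∈ C then -u i else 0) (w i) =
        (if i = r then om y (w r) else 0) - if i ∈ C then om (u i) (w i) else 0 := by
      intro i
      by_cases h : i = r
      · subst h; simp [hr]
      · by_cases h' : i ∈ C <;> simp [h, h']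
    simp only [h4, Finset.sum_sub_distrib, ← h3, h2]
    simp
  · rw [mem_cpl] at hi
    simp [hi.1, hi.2]

/-- Statement (CL). -/
theorem cl_gen [Nontrivial E] (om : LinearMap.BilinForm (ZMod 2) E)
    (halt : ∀ a, om a a = 0) (hn : ∀ a, (∀ b, om a b = 0) → a = 0)
    (W : Submodule (ZMod 2) (ι → E))
    (hperp : ∀ x : ι → E, (∀ w ∈ W, ∑ r, om (x r) (w r) = 0) → x ∈ W)
    (hdiag : ∀ e : E, (fun _ => e) ∈ W) :
    (∃ (r : ι) (C : Finset ι) (S : Submodule (ZMod 2) E), r ∉ C ∧ S ≠ ⊥ ∧ S ≠ ⊤ ∧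
      (∀ s ∈ S, ∃ x ∈ W, (∀ i ∈ C, x i = 0) ∧ x r = s) ∧
      ∀ s, (∀ t ∈ S, om s t = 0) → ∃ x ∈ W, (∀ i, i ∉ C → i ≠ r → x i = 0) ∧ x r = s) ∨
    (∃ (r : ι) (cls : ι → Fin 3), ∀ (j : Fin 3) (s : E),
      ∃ x ∈ W, (∀ i, i ≠ r → cls i = j → x i = 0) ∧ x r = s) ∨
    ∃ m : ι → ι, (∀ r, m (m r) = r) ∧ (∀ r, m r ≠ r) ∧
      ∀ x : ι → E, x ∈ W ↔ ∀ r, x (m r) = x r := by
  by_contra hc
  rw [not_or, not_or] at hc
  obtain ⟨ha, hb, hc⟩ := hc
  obtain ⟨e0, he0⟩ := exists_ne (0 : E)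
  have hcp : ∀ {r : ι} {C : Finset ι} {s : E}, s ∈ slc W r (cpl r C) →
      ∃ x ∈ W, (∀ i, i ∉ C → i ≠ r → x i = 0) ∧ x r = s := by
    rintro r C s ⟨x, hx, h1, h2⟩
    exact ⟨x, hx, fun i h3 h4 => h1 i (mem_cpl.2 ⟨h3, h4⟩), h2⟩
  have h1 : ∀ (r : ι) (C : Finset ι), r ∉ C → slc W r C ≠ ⊤ → slc W r C = ⊥ := by
    intro r C hr h
    by_contra h'
    exact ha ⟨r, C, _, hr, h', h, fun s hs => hs, fun s hs => hcp (perp_le_slc om hn hperp hr hs)⟩
  have h2 : ∀ (r : ι) (C : Finset ι), r ∉ C → slc W r C = ⊤ → slc W r (cpl r C) = ⊥ := by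
    intro r C hr h
    refine h1 r _ (fun q => (mem_cpl.1 q).2 rfl) fun h' => ?_
    refine ha ⟨r, C, Submodule.span (ZMod 2) {e0}, hr, by simpa using he0, fun q => ?_,
      fun s _ => (h ▸ Submodule.mem_top : s ∈ slc W r C),
      fun s _ => hcp (h' ▸ Submodule.mem_top : s ∈ slc W r (cpl r C))⟩
    refine he0 (hn _ fun b => ?_)
    obtain ⟨c, rfl⟩ := Submodule.mem_span_singleton.1 (q ▸ Submodule.mem_top :
      b ∈ Submodule.span (ZMod 2) {e0})
    simp [halt]
  have h3 : ∀ (r : ι) (C : Finset ι), r ∉ C → slc W r C ≠ ⊤ → slc W r (cpl r C) = ⊤ := by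
    intro r C hr h
    rw [eq_top_iff]
    intro y _
    refine perp_le_slc om hn hperp hr fun t ht => ?_
    rw [h1 r C hr h, Submodule.mem_bot] at ht
    simp [ht]
  have h4 : ∀ r : ι, slc W r ∅ = ⊤ := fun r =>
    eq_top_iff.2 fun y _ => ⟨_, hdiag y, by simp, rfl⟩
  have key : ∀ r : ι, ∃ r', r' ≠ r ∧ (∀ x ∈ W, x r' = x r) ∧
      ∃ x ∈ W, (∀ i, i ≠ r → i ≠ r' → x i = 0) ∧ x r = e0 := by
    intro r
    obtain ⟨C, hC, hmax⟩ := Finset.exists_max_image
      (Finset.univ.filter fun C : Finset ι => r ∉ C ∧ slc W r C = ⊤) Finset.card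
      ⟨∅, by simp [h4]⟩
    simp only [Finset.mem_filter, Finset.mem_univ, true_and] at hC hmax
    obtain ⟨hr, hC⟩ := hC
    have hB := h2 r C hr hC
    have hne : (cpl r C).Nonempty := by
      rw [Finset.nonempty_iff_ne_empty]
      intro q
      rw [q, h4] at hB
      exact top_ne_bot hB
    obtain ⟨a, ha'⟩ := hne
    have hbig : ∀ D : Finset ι, r ∉ D → C ⊆ D → (∃ b ∈ D, b ∉ C) → slc W r (cpl r D) = ⊤ := by
      rintro D hD hCD ⟨b, hb1, hb2⟩
      refine h3 r D hD fun q => ?_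
      have := hmax D ⟨hD, q⟩
      have h5 : C.card < D.card := Finset.card_lt_card ⟨hCD, fun q' => hb2 (q' hb1)⟩
      omega
    rw [mem_cpl] at ha'
    by_cases hone : ∀ b, b ∉ C → b ≠ r → b = a
    · have h5 : ∀ x ∈ W, x a = 0 → x r = 0 := by
        intro x hx hxa
        have : x r ∈ slc W r (cpl r C) := ⟨x, hx, fun i hi => by
          rw [hone i (mem_cpl.1 hi).1 (mem_cpl.1 hi).2, hxa], rfl⟩
        rwa [hB, Submodule.mem_bot] at this
      refine ⟨a, ha'.2, fun x hx => ?_, ?_⟩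
      · have := h5 _ (W.sub_mem hx (hdiag (x a))) (by simp)
        simp only [Pi.sub_apply] at this
        exact (sub_eq_zero.1 this).symm
      · obtain ⟨x, hx, q1, q2⟩ := (hC ▸ Submodule.mem_top : e0 ∈ slc W r C)
        refine ⟨x, hx, fun i hi hi' => q1 i ?_, q2⟩
        by_contra q
        exact hi' (hone i q hi)
    · exfalso
      push Not at hone
      obtain ⟨b, hb1, hb2, hb3⟩ := hone
      have t1 := hbig (insert a C) (by simp [hr, ha'.2.symm]) (Finset.subset_insert _ _)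
        ⟨a, by simp, ha'.1⟩
      have t2 := hbig (cpl r {a}) (fun q => (mem_cpl.1 q).2 rfl)
        (fun i hi => mem_cpl.2 ⟨fun q => ha'.1 (Finset.mem_singleton.1 q ▸ hi),
          fun q => hr (q ▸ hi)⟩) ⟨b, mem_cpl.2 ⟨by simpa using hb3, hb2⟩, hb1⟩
      rw [cpl_cpl (by simpa using ha'.2.symm)] at t2
      refine hb ⟨r, fun i => if i ∈ C then 0 else if i = a then 1 else 2, fun j s => ?_⟩
      have hj : j = 0 ∨ j = 1 ∨ j = 2 := by fin_cases j <;> simp
      rcases hj with rfl | rfl | rfl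
      · obtain ⟨x, hx, q1, q2⟩ := (hC ▸ Submodule.mem_top : s ∈ slc W r C)
        refine ⟨x, hx, fun i _ hi => q1 i ?_, q2⟩
        by_contra q
        simp only [if_neg q] at hi
        by_cases q' : i = a <;> simp [q'] at hi
      · obtain ⟨x, hx, q1, q2⟩ := (t2 ▸ Submodule.mem_top : s ∈ slc W r {a})
        refine ⟨x, hx, fun i _ hi => q1 i ?_, q2⟩
        by_contra q
        rw [Finset.mem_singleton] at q
        by_cases q' : i ∈ C <;> simp [q, q'] at hi
      · obtain ⟨x, hx, q1, q2⟩ := (t1 ▸ Submodule.mem_top : s ∈ slc W r (cpl r (insert a C)))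
        refine ⟨x, hx, fun i hi' hi => q1 i (mem_cpl.2 ⟨fun q => ?_, hi'⟩), q2⟩
        rcases Finset.mem_insert.1 q with q | q
        · simp [q, ha'.1] at hi
        · simp [q] at hi
  choose m hm1 hm2 hm3 using key
  have hinv : ∀ r, m (m r) = r := by
    intro r
    obtain ⟨x, hx, q1, q2⟩ := hm3 (m r)
    by_contra q
    have := q1 r (hm1 r).symm (fun q' => q q'.symm)
    rw [← hm2 r x hx, q2] at this
    exact he0 this
  refine hc ⟨m, hinv, hm1, fun x => ⟨fun hx r => hm2 r x hx, fun hx => hperp x fun w hw => ?_⟩⟩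
  refine Finset.sum_involution (fun r _ => m r) (fun r _ => ?_) (fun r _ _ => hm1 r)
    (fun _ _ => Finset.mem_univ _) fun r _ => hinv r
  rw [hx r, hm2 r w hw]
  exact CharTwo.add_self_eq_zero _

end CL

theorem cl : CL := by
  intro E _ _ _ _ q hq R W h1 h2
  have halt : ∀ a, QuadraticMap.polarBilin q a a = 0 := fun a => by
    rw [QuadraticMap.polarBilin_apply_apply, QuadraticMap.polar_self, two_smul]
    exact CharTwo.add_self_eq_zero _
  have hn : ∀ a, (∀ b, QuadraticMap.polarBilin q a b = 0) → a = 0 := fun a ha =>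
    hq a fun x => by rw [QuadraticMap.polar_comm]; exact ha x
  rcases cl_gen (QuadraticMap.polarBilin q) halt hn W (fun x hx => h1 x hx) h2 with
    ⟨r, C, S, a1, a2, a3, a4, a5⟩ | ⟨r, c, a⟩ | h
  · refine Or.inl ⟨r, C, S, by simpa using a1, a2, a3, fun s hs => ?_, fun s hs => ?_⟩
    · obtain ⟨x, b1, b2, b3⟩ := a4 s hs
      exact ⟨x, b1, b3, fun j hj => b2 j (by simpa using hj)⟩
    · obtain ⟨x, b1, b2, b3⟩ := a5 s fun t ht => by
        have := (LinearMap.BilinForm.mem_orthogonal_iff.1 hs) t ht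
        rw [QuadraticMap.polarBilin_apply_apply, QuadraticMap.polar_comm]
        exact this
      exact ⟨x, b1, b3, fun j hj => b2 j (by simpa using hj)⟩
  · refine Or.inr (Or.inl ⟨r, c, fun i s => ?_⟩)
    obtain ⟨x, b1, b2, b3⟩ := a i s
    exact ⟨x, b1, b3, b2⟩
  · exact Or.inr (Or.inr h)

end SD
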