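import Mathlib

/-! Zero count for systems of maps of degree at most two over the field with two elements. -/

namespace SD

open Finset

section Deg

variable {V : Type*} [AddCommGroup V] {R : Type*} [CommRing R]

/-- `DegLt d f`: all `d`-fold differences of `f` vanish (degree less than `d`). -/
def DegLt : ℕ → (V → R) → Prop
  | 0, f => ∀ x, f x = 0
  | d + 1, f => ∀ h, DegLt d (fun x => f (x + h) - f x)

theorem DegLt.zero : ∀ d : ℕ, DegLt d (fun _ : V => (0 : R))
  | 0 => fun _ => rfl
  | d + 1 => fun _ => by simpa using DegLt.zero d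

theorem DegLt.of_eq_zero {f : V → R} (d : ℕ) (hf : ∀ x, f x = 0) : DegLt d f := by
  have : f = fun _ => 0 := funext hf
  rw [this]; exact DegLt.zero d

theorem DegLt.add : ∀ {d : ℕ} {f g : V → R}, DegLt d f → DegLt d g →
    DegLt d (fun x => f x + g x)
  | 0, f, g, hf, hg => fun x => by
      have h1 : f x = 0 := hf x
      have h2 : g x = 0 := hg x
      simp [h1, h2]
  | d + 1, f, g, hf, hg => fun h => by
      have := DegLt.add (hf h) (hg h)
      convert this using 2 with x
      ring

theorem DegLt.shift : ∀ {d : ℕ} {f : V → R}, DegLt d f → ∀ t, DegLt d (fun x => f (x + t))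
  | 0, f, hf, t => fun x => hf (x + t)
  | d + 1, f, hf, t => fun h => by
      have := DegLt.shift (hf h) t
      convert this using 3 with x
      rw [add_right_comm]

theorem DegLt.succ : ∀ {d : ℕ} {f : V → R}, DegLt d f → DegLt (d + 1) f
  | 0, f, hf => fun h x => by
      have h1 : f (x + h) = 0 := hf _
      have h2 : f x = 0 := hf _
      simp [h1, h2]
  | d + 1, f, hf => fun h => DegLt.succ (hf h)

theorem DegLt.mono {d e : ℕ} {f : V → R} (hf : DegLt d f) (hde : d ≤ e) : DegLt e f := by
  induction hde with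
  | refl => exact hf
  | step _ ih => exact ih.succ

theorem DegLt.const (c : R) : DegLt 1 (fun _ : V => c) := fun _ _ => by simp

theorem DegLt.mul_aux (n : ℕ) : ∀ (a b : ℕ) (f g : V → R), a + b = n → DegLt a f →
    DegLt (b + 1) g → DegLt (a + b) (fun x => f x * g x) := by
  induction n with
  | zero =>
    intro a b f g hab hf _
    obtain rfl : a = 0 := by omega
    exact DegLt.of_eq_zero _ fun x => by
      have h1 : f x = 0 := hf x
      simp [h1]
  | succ n ih =>
    intro a b f g hab hf hg
    rcases a with _ | a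
    · exact DegLt.of_eq_zero _ fun x => by
        have h1 : f x = 0 := hf x
        simp [h1]
    · have e : a + 1 + b = (a + b) + 1 := by omega
      rw [e]
      intro h
      have h1 := ih a b _ _ (by omega) (hf h) (hg.shift h)
      have h2 : DegLt (a + b) (fun x => f x * (g (x + h) - g x)) := by
        rcases b with _ | b
        · exact DegLt.of_eq_zero _ fun x => by
            have h3 : g (x + h) - g x = 0 := hg h x
            simp [h3]
        · have := ih (a + 1) b _ _ (by omega) hf (hg h)
          rwa [show a + 1 + b = a + (b + 1) by omega] at this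
      have := h1.add h2
      convert this using 2 with x
      ring

theorem DegLt.mul {a b : ℕ} {f g : V → R} (hf : DegLt (a + 1) f) (hg : DegLt (b + 1) g) :
    DegLt (a + b + 1) (fun x => f x * g x) := by
  have := DegLt.mul_aux _ (a + 1) b f g rfl hf hg
  rwa [show a + 1 + b = a + b + 1 by omega] at this

theorem DegLt.prod {ι : Type*} (s : Finset ι) (d : ℕ) (f : ι → V → R)
    (hf : ∀ i ∈ s, DegLt (d + 1) (f i)) :
    DegLt (d * s.card + 1) (fun x => ∏ i ∈ s, f i x) := by
  classical
  induction s using Finset.induction_on with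
  | empty => simpa using DegLt.const (V := V) (1 : R)
  | insert i s hi ih =>
    have h1 := (hf i (mem_insert_self _ _)).mul (ih fun j hj => hf j (mem_insert_of_mem hj))
    rw [card_insert_of_notMem hi, show d * (s.card + 1) + 1 = d + d * s.card + 1 by ring]
    convert h1 using 2 with x
    rw [prod_insert hi]

theorem DegLt.of_addHom (l : V →+ R) : DegLt 2 (fun x => l x) := fun h h' x => by simp

/-- A nonzero map of degree at most `d` is nonzero on at least a `2 ^ (-d)` share of `V`. -/
theorem DegLt.card_le [Finite V] : ∀ (d : ℕ) (f : V → R), DegLt (d + 1) f → (∃ x, f x ≠ 0) →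
    Nat.card V ≤ 2 ^ d * Nat.card {x // f x ≠ 0} := by
  classical
  have hconst : ∀ f : V → R, (∀ h x, f (x + h) - f x = 0) → (∃ x, f x ≠ 0) →
      Nat.card V ≤ Nat.card {x // f x ≠ 0} := by
    rintro f hf ⟨x0, hx0⟩
    have hall : ∀ x, f x ≠ 0 := fun x => by
      have := hf (x - x0) x0
      rw [add_sub_cancel, sub_eq_zero] at this
      rwa [this]
    exact Nat.card_le_card_of_injective (fun x => (⟨x, hall x⟩ : {x // f x ≠ 0}))
      fun x y hxy => congrArg Subtype.val hxy
  intro d
  induction d with
  | zero =>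
    intro f hf hx
    simpa using hconst f (fun h x => hf h x) hx
  | succ d ih =>
    intro f hf hx
    by_cases hc : ∀ h x, f (x + h) - f x = 0
    · exact (hconst f hc hx).trans (Nat.le_mul_of_pos_left _ (by positivity))
    · push Not at hc
      obtain ⟨h, x1, hx1⟩ := hc
      have h1 := ih _ (hf h) ⟨x1, hx1⟩
      have h2 : Nat.card {x // f (x + h) - f x ≠ 0} ≤
          Nat.card ({x // f x ≠ 0} ⊕ {x // f x ≠ 0}) := by
        refine Nat.card_le_card_of_injective
          (fun x => if hx : f x.1 ≠ 0 then Sum.inl ⟨x.1, hx⟩ else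
            Sum.inr ⟨x.1 + h, fun h0 => x.2 (by rw [h0, not_not.mp hx, sub_zero])⟩) ?_
        intro x y hxy
        by_cases hx : f x.1 ≠ 0 <;> by_cases hy : f y.1 ≠ 0 <;>
          simp only [hx, hy, dite_true, dite_false, not_false_eq_true, ne_eq, Sum.inl.injEq,
            Sum.inr.injEq, Subtype.mk.injEq, reduceCtorEq, add_left_inj] at hxy
        · exact Subtype.ext hxy
        · exact Subtype.ext hxy
      rw [Nat.card_sum] at h2
      calc Nat.card V ≤ 2 ^ d * Nat.card {x // f (x + h) - f x ≠ 0} := h1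
        _ ≤ 2 ^ d * (Nat.card {x // f x ≠ 0} + Nat.card {x // f x ≠ 0}) :=
          Nat.mul_le_mul_left _ h2
        _ = 2 ^ (d + 1) * Nat.card {x // f x ≠ 0} := by ring

end Deg

section Two

variable {V : Type*} [AddCommGroup V]

/-- Maps of degree at most `d` into `ZMod 2` with a common zero. -/
theorem card_le_zeros_deg [Finite V] {ι : Type*} [Fintype ι] (d : ℕ) (f : ι → V → ZMod 2)
    (hf : ∀ i, DegLt (d + 1) (f i)) (x0 : V) (h0 : ∀ i, f i x0 = 0) :
    Nat.card V ≤ 2 ^ (d * Fintype.card ι) * Nat.card {x // ∀ i, f i x = 0} := by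
  have hp := DegLt.prod (V := V) (R := ZMod 2) univ d (fun i x => 1 + f i x) fun i _ =>
    ((DegLt.const (V := V) (1 : ZMod 2)).mono (by omega)).add (hf i)
  have key : ∀ x, (∏ i, (1 + f i x)) ≠ 0 ↔ ∀ i, f i x = 0 := fun x => by
    rw [prod_ne_zero_iff]
    have : ∀ a : ZMod 2, 1 + a ≠ 0 ↔ a = 0 := by decide
    simp [this]
  have h1 := DegLt.card_le _ _ hp ⟨x0, (key x0).2 h0⟩
  rw [card_univ] at h1
  rwa [Nat.card_congr (Equiv.subtypeEquivRight key)] at h1

variable [Module (ZMod 2) V]

theorem DegLt.quadratic (Q : QuadraticForm (ZMod 2) V) : DegLt 3 (fun x => Q x) := by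
  intro h h' h'' x
  have e : ∀ y, Q (y + h) - Q y = Q h + QuadraticMap.polar Q y h := fun y => by
    rw [QuadraticMap.polar]; ring
  simp only [e, QuadraticMap.polar_add_left]
  ring

theorem DegLt.linear (l : V →ₗ[ZMod 2] ZMod 2) : DegLt 3 (fun x => l x) :=
  (DegLt.of_addHom l.toAddMonoidHom).succ

theorem DegLt.bilin {U W : Type*} [AddCommGroup U] [Module (ZMod 2) U] [AddCommGroup W]
    [Module (ZMod 2) W] (B : U →ₗ[ZMod 2] W →ₗ[ZMod 2] ZMod 2) (a : V →ₗ[ZMod 2] U)
    (b : V →ₗ[ZMod 2] W) : DegLt 3 (fun x => B (a x) (b x)) := by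
  intro h h' h'' x
  simp only [map_add, LinearMap.add_apply]
  ring

/-- (CW), sharp form. -/
theorem cw_sharp [Finite V] {ι : Type*} [Fintype ι] (Q : ι → QuadraticForm (ZMod 2) V) :
    Nat.card V ≤ 2 ^ (2 * Fintype.card ι) * Nat.card {x // ∀ i, Q i x = 0} :=
  card_le_zeros_deg 2 (fun i x => Q i x) (fun i => DegLt.quadratic (Q i)) 0 fun i => by simp

/-- (CW) in the form of the paper. -/
theorem cw [Finite V] {ι : Type*} [Fintype ι] (Q : ι → QuadraticForm (ZMod 2) V) :
    Nat.card V ≤ 2 ^ (2 * Fintype.card ι + 1) * Nat.card {x | ∀ i, Q i x = 0} :=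
  (cw_sharp Q).trans (Nat.mul_le_mul_right _ (Nat.pow_le_pow_right (by norm_num) (by omega)))

end Two

end SD
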