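import Pool.Agent.Lib.MP_ecee09_co.SD.Base

/-! Consequences of the main theorem for families of sets. -/

namespace SD

open Module Finset

/-- values of a quadratic map at nonzero points are symmetric differences in dense families -/
theorem cor_quad (h : MAIN) (δ : ℝ) (hδ : 0 < δ) :
    ∃ k₀ : ℕ, ∀ k ≥ k₀, ∀ (X : Type) [Fintype X] [DecidableEq X]
      (q : X → QuadraticForm (ZMod 2) (Fin k → ZMod 2)) (𝓕 : Finset (Finset X)),
      δ * 2 ^ Fintype.card X ≤ 𝓕.card →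
      ∃ A ∈ 𝓕, ∃ B ∈ 𝓕, ∃ x : Fin k → ZMod 2, x ≠ 0 ∧
        symmDiff A B = univ.filter fun p => q p x = 1 := by
  obtain ⟨k₀, hk⟩ := h δ hδ
  refine ⟨k₀, fun k hk' X _ _ q 𝓕 hF => ?_⟩
  let φ : (X → F) → Finset X := fun w => univ.filter fun p => w p = 1
  have hφ : ∀ A : Finset X, φ (fun p => if p ∈ A then 1 else 0) = A := fun A => by
    ext p
    simp [φ]
  have h1 : δ ≤ av fun w : X → F => ind (φ w ∈ 𝓕) := by
    have c := sm_ind_le_of_inj (fun A : Finset X => A ∈ (𝓕 : Set (Finset X)))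
      (fun w : X → F => φ w ∈ 𝓕) (fun A w => φ w = A)
      (fun A hA => ⟨_, (hφ A).symm ▸ hA, hφ A⟩) fun _ _ _ _ _ e e' => e.symm.trans e'
    rw [av_def, le_div_iff₀ card_pos', Nat.card_fun, Nat.card_zmod, Nat.card_eq_fintype_card]
    push_cast
    exact hF.trans ((cnt_finset 𝓕).ge.trans c)
  let i : G (Fk k) → X → F := fun M p => M (q p)
  rw [← av_shift _ i] at h1
  obtain ⟨w, hw⟩ := exists_av_le fun w : X → F => av fun M => ind (φ (w + i M) ∈ 𝓕)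
  obtain ⟨M, hM, x, hx, hM'⟩ := hk (Fk k) (hk'.trans (finrank_Fk k).ge)
    {M | φ (w + i M) ∈ 𝓕} (h1.trans hw)
  refine ⟨_, hM, _, hM', x, hx, ?_⟩
  ext p
  have e : (w + i (M + ev x)) p = (w + i M) p + q p x := (add_assoc _ _ _).symm
  simp only [mem_symmDiff, φ, mem_filter, mem_univ, true_and, e]
  generalize (w + i M) p = a
  generalize q p x = b
  revert a b
  decide

/-- the general form for sets: the symmetric difference is the set of points whose two labels lie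
in `S` -/
theorem cor_ab (h : MAIN) (δ : ℝ) (hδ : 0 < δ) (m : ℕ) :
    ∃ n₀ : ℕ, ∀ n ≥ n₀, ∀ (X : Type) [Fintype X] [DecidableEq X] (a b : X → Fin n)
      (𝓕 : Finset (Finset X)), δ * 2 ^ Fintype.card X ≤ 𝓕.card →
      ∃ A ∈ 𝓕, ∃ B ∈ 𝓕, ∃ S : Finset (Fin n), m < S.card ∧
        symmDiff A B = univ.filter fun p => a p ∈ S ∧ b p ∈ S := by
  obtain ⟨k, hk⟩ := cor_quad h δ hδ
  refine ⟨(k + 1) * (m + 1), fun n hn X _ _ a b 𝓕 hF => ?_⟩
  let β : Fin n → Fin (k + 1) := fun j => ⟨j % (k + 1), Nat.mod_lt _ k.succ_pos⟩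
  obtain ⟨A, hA, B, hB, x, hx, e⟩ := hk (k + 1) k.le_succ X
    (fun p => QuadraticMap.linMulLin (LinearMap.proj (β (a p))) (LinearMap.proj (β (b p)))) 𝓕 hF
  refine ⟨A, hA, B, hB, univ.filter fun j => x (β j) = 1, ?_, e.trans (filter_congr fun p _ => ?_)⟩
  · obtain ⟨i, hi⟩ := Function.ne_iff.1 hx
    have l : ∀ t : Fin (m + 1), i + (k + 1) * t < n := fun t => by
      have h1 := (Nat.mul_le_mul_left (k + 1) (Nat.succ_le_of_lt t.2)).trans hn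
      have h2 := i.2
      rw [Nat.mul_succ] at h1
      omega
    refine (card_fin (m + 1)).ge.trans (card_le_card_of_injOn (fun t => ⟨_, l t⟩)
      (fun t _ => ?_) fun t _ t' _ e => ?_)
    · have q : β ⟨_, l t⟩ = i := Fin.ext (by
        simp only [β, Nat.add_mul_mod_self_left, Nat.mod_eq_of_lt i.2])
      simpa [q] using (F_cases (x i)).resolve_left hi
    · exact Fin.ext (Nat.eq_of_mul_eq_mul_left k.succ_pos
        (Nat.add_left_cancel (congrArg Fin.val e)))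
  · simp only [QuadraticMap.linMulLin_apply, LinearMap.proj_apply, mem_filter, mem_univ, true_and]
    generalize x (β (a p)) = u
    generalize x (β (b p)) = v
    revert u v
    decide

/-- squares -/
theorem cor_square (h : MAIN) (δ : ℝ) (hδ : 0 < δ) (m : ℕ) :
    ∃ n₀ : ℕ, ∀ n ≥ n₀, ∀ 𝓕 : Finset (Finset (Fin n × Fin n)), δ * 2 ^ (n ^ 2) ≤ 𝓕.card →
      ∃ A ∈ 𝓕, ∃ B ∈ 𝓕, ∃ S : Finset (Fin n), m < S.card ∧ symmDiff A B = S ×ˢ S := by
  obtain ⟨n₀, hn⟩ := cor_ab h δ hδ m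
  refine ⟨n₀, fun n hn' 𝓕 hF => ?_⟩
  obtain ⟨A, hA, B, hB, S, hS, e⟩ := hn n hn' _ Prod.fst Prod.snd 𝓕 (by simpa [sq] using hF)
  exact ⟨A, hA, B, hB, S, hS, e.trans (by ext p; simp)⟩

/-- several parts with exponents one or two; the threshold does not depend on the parts -/
theorem cor_poly (h : MAIN) (δ : ℝ) (hδ : 0 < δ) (m : ℕ) :
    ∃ n₀ : ℕ, ∀ n, n₀ ≤ n → ∀ (s : ℕ) (d : Fin s → ℕ), (∀ r, d r = 1 ∨ d r = 2) →
      ∀ 𝓕 : Finset (Finset (Σ r : Fin s, Fin (d r) → Fin n)),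
        δ * 2 ^ Fintype.card (Σ r : Fin s, Fin (d r) → Fin n) ≤ 𝓕.card →
        ∃ A ∈ 𝓕, ∃ B ∈ 𝓕, ∃ S : Finset (Fin n), S.Nonempty ∧ m ≤ S.card ∧
          symmDiff A B = univ.filter fun x => ∀ j, x.2 j ∈ S := by
  obtain ⟨n₀, hn⟩ := cor_ab h δ hδ m
  refine ⟨n₀, fun n hn' s d hd 𝓕 hF => ?_⟩
  have p : ∀ r, 0 < d r := fun r => by rcases hd r with e | e <;> omega
  obtain ⟨A, hA, B, hB, S, hS, e⟩ := hn n hn' _ (fun x => x.2 ⟨0, p _⟩)
    (fun x => x.2 ⟨d x.1 - 1, Nat.sub_lt (p _) one_pos⟩) 𝓕 hF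
  refine ⟨A, hA, B, hB, S, card_pos.1 (Nat.zero_lt_of_lt hS), hS.le,
    e.trans (filter_congr fun x _ => ⟨fun k i => ?_, fun k => ⟨k _, k _⟩⟩)⟩
  by_cases c : i.1 = 0
  · rw [show i = ⟨0, p _⟩ from Fin.ext c]
    exact k.1
  · rw [show i = ⟨d x.1 - 1, Nat.sub_lt (p _) one_pos⟩ from Fin.ext (by
      have := i.2
      have := hd x.1
      simp only
      omega)]
    exact k.2

theorem cor_of (h : MAIN) : ∀ (s : ℕ) (d : Fin s → ℕ), (∀ r, d r = 1 ∨ d r = 2) →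
    ∀ δ : ℝ, 0 < δ → ∀ m : ℕ, ∃ n₀ : ℕ, ∀ n, n₀ ≤ n →
      ∀ 𝓕 : Finset (Finset (Σ r : Fin s, Fin (d r) → Fin n)),
        δ * 2 ^ Fintype.card (Σ r : Fin s, Fin (d r) → Fin n) ≤ 𝓕.card →
        ∃ A ∈ 𝓕, ∃ B ∈ 𝓕, ∃ S : Finset (Fin n), S.Nonempty ∧ m ≤ S.card ∧
          symmDiff A B = univ.filter fun x => ∀ j, x.2 j ∈ S :=
  fun s d hd δ hδ m => (cor_poly h δ hδ m).imp fun _ k n hn => k n hn s d hd

end SD
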