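import Mathlib

/-! Definitions for the symmetric-difference square theorem (paper: team store, ecee09 paper). -/

namespace SD

open Module

/-- the field with two elements -/
abbrev F : Type := ZMod 2

/-- `(-1)^a` -/
def sg (a : F) : ℝ := if a = 0 then 1 else -1

/-- sum over a finite type (no instance argument) -/
noncomputable def sm {α : Type} (f : α → ℝ) : ℝ := ∑ᶠ x, f x

/-- uniform average over a finite type (no instance argument) -/
noncomputable def av {α : Type} (f : α → ℝ) : ℝ := (∑ᶠ x, f x) / (Nat.card α : ℝ)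

open Classical in
/-- indicator of a proposition -/
noncomputable def ind (p : Prop) : ℝ := if p then 1 else 0

/-- number of elements of a set, as a real -/
noncomputable def cnt {α : Type} (s : Set α) : ℝ := sm fun x => ind (x ∈ s)

/-- all moments are bounded by the profile `D` -/
def Tame {α : Type} (D : ℕ → ℝ) (h : α → ℝ) : Prop := ∀ p : ℕ, av (fun x => |h x| ^ p) ≤ D p

/-- conditional expectation of `g` given `L x = y` (for `L` an onto homomorphism) -/
noncomputable def cond {X Y : Type} (L : X → Y) (g : X → ℝ) (y : Y) : ℝ :=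
  (Nat.card Y : ℝ) * av fun x => ind (L x = y) * g x

/-- additive energy of a set in a group of exponent two -/
noncomputable def energy {X : Type} [Add X] (A : Set X) : ℝ :=
  sm fun a => sm fun b => sm fun c => ind (a ∈ A ∧ b ∈ A ∧ c ∈ A ∧ a + b + c ∈ A)

instance finLin {U V : Type} [AddCommGroup U] [Module F U] [AddCommGroup V] [Module F V]
    [Finite U] [Finite V] : Finite (U →ₗ[F] V) := DFunLike.finite _

abbrev Fk (k : ℕ) : Type := Fin k → F

abbrev QF (V : Type) [AddCommGroup V] [Module F V] : Type := QuadraticForm F V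

instance finQF {V : Type} [AddCommGroup V] [Module F V] [Finite V] : Finite (QF V) :=
  DFunLike.finite _

abbrev G (V : Type) [AddCommGroup V] [Module F V] : Type := Dual F (QF V)

abbrev Hom (k : ℕ) (V : Type) [AddCommGroup V] [Module F V] : Type := Fk k →ₗ[F] V

section forms
variable {U V : Type} [AddCommGroup U] [Module F U] [AddCommGroup V] [Module F V]

/-- evaluation of forms at `x` (the matrix `x x^T`) -/
def ev (x : V) : G V where
  toFun Q := Q x
  map_add' _ _ := rfl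
  map_smul' _ _ := rfl

/-- `Q -> Q o Phi` -/
def pull (Φ : U →ₗ[F] V) : QF V →ₗ[F] QF U where
  toFun Q := Q.comp Φ
  map_add' _ _ := rfl
  map_smul' _ _ := rfl

/-- `Phi_*` -/
def push (Φ : U →ₗ[F] V) : G U →ₗ[F] G V := (pull Φ).dualMap

def chi (Q : QF V) (M : G V) : ℝ := sg (M Q)

noncomputable def coef (h : G V → ℝ) (Q : QF V) : ℝ := av fun M => h M * chi Q M

noncomputable def rank (Q : QF V) : ℕ := finrank F (V ⧸ Q.radical)

/-- `Q` vanishes on the radical of its polar form -/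
def Clean (Q : QF V) : Prop := ∀ y, (∀ x, QuadraticMap.polar Q x y = 0) → Q y = 0

/-- nondegenerate polar form -/
def ND (q : QF V) : Prop := ∀ y, (∀ x, QuadraticMap.polar q x y = 0) → y = 0

def Low (J : ℕ) (Q : QF V) : Prop := rank Q < J

def Top (J : ℕ) (Q : QF V) : Prop := rank Q = J ∧ Clean Q

def CJ (J : ℕ) (Q : QF V) : Prop := Low J Q ∨ Top J Q

noncomputable def proj (P : QF V → Prop) (h : G V → ℝ) (M : G V) : ℝ :=
  sm fun Q => ind (P Q) * coef h Q * chi Q M

noncomputable def en (P : QF V → Prop) (h : G V → ℝ) : ℝ :=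
  sm fun Q => ind (P Q) * coef h Q ^ 2

def Spec (P : QF V → Prop) (h : G V → ℝ) : Prop := ∀ Q, coef h Q ≠ 0 → P Q

/-- restriction of `h` to the cell `x + Phi_* G(U)` -/
def res (h : G V → ℝ) (x : G V) (Φ : U →ₗ[F] V) (B : G U) : ℝ := h (x + push Φ B)

/-- orthogonal complement for the polar form -/
def perp (q : QF V) (S : Submodule F V) : Submodule F V :=
  LinearMap.BilinForm.orthogonal (QuadraticMap.polarBilin q) S

/-- `y -> y * v` -/
def mulL (v : Dual F V) : Dual F V →ₗ[F] QF V where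
  toFun y := QuadraticMap.linMulLin y v
  map_add' _ _ := QuadraticMap.add_linMulLin _ _ _
  map_smul' a y := by
    ext x
    simp [QuadraticMap.linMulLin_apply, mul_assoc]

/-- `y -> y * y` -/
def sqL : Dual F V →ₗ[F] QF V where
  toFun y := QuadraticMap.linMulLin y y
  map_add' y z := by
    ext x
    simp only [QuadraticMap.linMulLin_apply, add_apply, LinearMap.add_apply]
    generalize y x = a
    generalize z x = b
    revert a b
    decide
  map_smul' a y := by
    ext x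
    simp only [QuadraticMap.linMulLin_apply, smul_apply, LinearMap.smul_apply,
      smul_eq_mul, RingHom.id_apply]
    generalize y x = b
    revert a b
    decide

variable [Finite V]

/-- `M v`, the vector with `y (M v) = M (y * v)` -/
noncomputable def mv (M : G V) (v : Dual F V) : V := (evalEquiv F V).symm (M.comp (mulL v))

/-- the diagonal of `M`, the vector with `y (d M) = M (y * y)` -/
noncomputable def dg (M : G V) : V := (evalEquiv F V).symm (M.comp sqL)

end forms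

/-- A family of cells `x + a l C` in `X`: a positive functional on functions of (base point,
label) whose random point of the random cell is uniform on `X`. -/
structure Fam {X C Λ : Type} [Add X] (a : Λ → C → X) where
  E : (X → Λ → ℝ) → ℝ
  add : ∀ f g, E (fun x l => f x l + g x l) = E f + E g
  smul : ∀ (c : ℝ) f, E (fun x l => c * f x l) = c * E f
  pos : ∀ f, (∀ x l, 0 ≤ f x l) → 0 ≤ E f
  marg : ∀ g : X → ℝ, E (fun x l => av fun B => g (x + a l B)) = av g

section fams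
variable {U V : Type} [AddCommGroup U] [Module F U] [AddCommGroup V] [Module F V]

abbrev Gam (ρ : ℕ) (V : Type) [AddCommGroup V] [Module F V] : Type := G V × (Fin ρ → V)

/-- the cell map on `Gam` -/
def gpush {ρ : ℕ} (Φ : U →ₗ[F] V) : Gam ρ U →ₗ[F] Gam ρ V :=
  (push Φ).prodMap (Φ.compLeft (Fin ρ))

abbrev GFam (k : ℕ) (V : Type) [AddCommGroup V] [Module F V] : Type :=
  Fam (fun (Φ : Hom k V) (B : G (Fk k)) => push Φ B)

abbrev PFam (ρ k : ℕ) (V : Type) [AddCommGroup V] [Module F V] : Type :=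
  Fam (fun (Φ : Hom k V) (B : Gam ρ (Fk k)) => gpush Φ B)

/-- mass of the cells with a non injective label -/
noncomputable def Fam.junk {X C : Type} [Add X] {a : (U →ₗ[F] V) → C → X} (A : Fam a) : ℝ :=
  A.E fun _ Φ => ind (¬ Function.Injective Φ)

/-- some `k`-family moves energy `c` of `u` to rank below `J` -/
def Gain (J : ℕ) (u : G V → ℝ) (k : ℕ) (η c : ℝ) : Prop :=
  ∃ A : GFam k V, A.junk ≤ η ∧ c ≤ A.E fun x Φ => en (Low J) (res u x Φ)

/-- some `k`-family has mean top energy at most `b` -/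
def Drop (J : ℕ) (h : G V → ℝ) (k : ℕ) (η b : ℝ) : Prop :=
  ∃ A : GFam k V, A.junk ≤ η ∧ (A.E fun x Φ => en (Top J) (res h x Φ)) ≤ b

end fams

def FULL (J : ℕ) : Prop :=
  ∀ (D : ℕ → ℝ) (k : ℕ) (η : ℝ), 0 < η → ∃ n0 : ℕ,
    ∀ (V : Type) [AddCommGroup V] [Module F V] [Finite V], n0 ≤ finrank F V →
      ∀ h : G V → ℝ, Spec (CJ J) h → Tame D h → Drop J h k η η

def RSTEP (J : ℕ) : Prop :=
  ∀ (D : ℕ → ℝ) (m : ℝ), 0 < m → ∃ cG : ℝ, 0 < cG ∧ ∀ (k : ℕ) (η : ℝ), 0 < η →
    ∃ cS : ℝ, 0 < cS ∧ ∀ (k' : ℕ) (η' : ℝ), 0 < η' → ∃ n0 : ℕ,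
      ∀ (V : Type) [AddCommGroup V] [Module F V] [Finite V], n0 ≤ finrank F V →
        ∀ h : G V → ℝ, Spec (CJ J) h → Tame D h → m ≤ en (Top J) h →
          Drop J h k η (en (Top J) h - cG) ∨ Drop J h k' η' (en (Top J) h - cS)

/-- the main theorem on `G V` -/
def MAIN : Prop :=
  ∀ δ : ℝ, 0 < δ → ∃ n0 : ℕ,
    ∀ (V : Type) [AddCommGroup V] [Module F V] [Finite V], n0 ≤ finrank F V →
      ∀ A : Set (G V), δ ≤ av (fun M => ind (M ∈ A)) → ∃ M ∈ A, ∃ x : V, x ≠ 0 ∧ M + ev x ∈ A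

section fields
variable {n : ℕ} {E : Type} [AddCommGroup E] [Module F E]

/-- the linear map with rows `Z` -/
def lin {V : Type} [AddCommGroup V] [Module F V] (Z : Fin n → V) : Fk n →ₗ[F] V :=
  Fintype.linearCombination F Z

/-- `Q_Z = q o (Z + id)` -/
def QZ (q : QF E) (Z : Fin n → E) : QF (Fk n × E) := q.comp ((lin Z).coprod LinearMap.id)

/-- the field with coefficients `c` -/
noncomputable def fld (q : QF E) (c : (Fin n → E) → ℝ) (M : G (Fk n × E)) : ℝ :=
  sm fun Z => c Z * chi (QZ q Z) M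

noncomputable def cf (q : QF E) (u : G (Fk n × E) → ℝ) (Z : Fin n → E) : ℝ := coef u (QZ q Z)

/-- `[b, Z]` -/
def brk {ι : Type} [Fintype ι] (q : QF E) (b Z : ι → E) : F :=
  ∑ i, QuadraticMap.polar q (b i) (Z i)

def tau (b : Fin n → E) : G (Fk n × E) :=
  ∑ i, (ev (Pi.single i 1, b i) + ev (Pi.single i 1, 0) + ev (0, b i))

/-- `y * t` for a probe `y` -/
def star {κ : Type} [Fintype κ] (y : κ → Fk n) (t : κ → E) : Fin n → E :=
  fun i => ∑ a, y a i • t a

noncomputable def box (K : G (Fk n × E) → ℝ) (S1 S2 : Submodule F E) : ℝ :=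
  av fun M => av fun h1 : Fin n → S1 => av fun h2 : Fin n → S2 =>
    K M * K (M + tau fun i => (h1 i : E)) * K (M + tau fun i => (h2 i : E)) *
      K (M + (tau fun i => (h1 i : E)) + tau fun i => (h2 i : E))

noncomputable def box3 (K : G (Fk n × E) → ℝ) : ℝ :=
  av fun M => av fun h1 : Fin n → E => av fun h2 : Fin n → E => av fun h3 : Fin n → E =>
    K M * K (M + tau h1) * K (M + tau h2) * K (M + tau h1 + tau h2) *
      (K (M + tau h3) * K (M + tau h1 + tau h3) * K (M + tau h2 + tau h3) *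
        K (M + tau h1 + tau h2 + tau h3))

/-- the standing hypotheses of sections 3 to 6 -/
structure Setup (J : ℕ) (D : ℕ → ℝ) (q : QF E) (u : G (Fk n × E) → ℝ) : Prop where
  dim : finrank F E = J
  pos : 1 ≤ J
  nd : ND q
  tu : Tame D u
  tK : Tame D (fld q (cf q u))
  su : Spec (Top J) u

end fields

/-- number of perfect matchings of `Fin R` that pair equal labels -/
noncomputable def pm {L : Type} {R : ℕ} (t : Fin R → L) : ℝ :=
  cnt {m : Fin R → Fin R | (∀ r, m (m r) = r) ∧ (∀ r, m r ≠ r) ∧ ∀ r, t (m r) = t r}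

section particles
variable {ρ : ℕ} {U V : Type} [AddCommGroup U] [Module F U] [AddCommGroup V] [Module F V]

abbrev Pt (ρ : ℕ) (V : Type) [AddCommGroup V] [Module F V] : Type :=
  (Fin ρ → Dual F V) × (Fin ρ → V)

/-- `D^j`, `D = |V|` -/
noncomputable def DP (V : Type) (j : ℕ) : ℝ := (Nat.card V : ℝ) ^ j

/-- the labels pulled back by `Phi` are dependent -/
def Red (p : Pt ρ V) (Φ : U →ₗ[F] V) : Prop := ¬ LinearIndependent F fun i => (p.1 i).comp Φ

def comb (l : Fk ρ) (p : Pt ρ V) : Dual F V × V := (∑ i, l i • p.1 i, ∑ i, l i • p.2 i)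

noncomputable def coll (P : Set (Pt ρ V)) (DD : Submodule F (Fk ρ)) : ℝ :=
  DP V (finrank F DD) / DP V (2 * ρ) *
    sm fun p => sm fun p' => ind (p ∈ P ∧ p' ∈ P ∧ ∀ l ∈ DD, comb l p = comb l p')

variable [Finite V]

noncomputable def resid (ε : Fk ρ) (p : Pt ρ V) (x : Gam ρ V) : Fin ρ → V :=
  fun i => mv x.1 (p.1 i) + x.2 i + ε i • dg x.1 + p.2 i

/-- number of present particles -/
noncomputable def NN (ε : Fk ρ) (P : Set (Pt ρ V)) (x : Gam ρ V) : ℝ :=
  sm fun p => ind (p ∈ P ∧ resid ε p x = 0)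

/-- probability, over the cell, that an unreduced particle is present -/
noncomputable def bad (ε : Fk ρ) (P : Set (Pt ρ V)) (x : Gam ρ V) (Φ : U →ₗ[F] V) : ℝ :=
  av fun B : Gam ρ U => ind (∃ p ∈ P, resid ε p (x + gpush Φ B) = 0 ∧ ¬ Red p Φ)

/-- mean number, over the cell, of present unreduced particles -/
noncomputable def unred (ε : Fk ρ) (P : Set (Pt ρ V)) (x : Gam ρ V) (Φ : U →ₗ[F] V) : ℝ :=
  av fun B : Gam ρ U => sm fun p => ind (p ∈ P ∧ resid ε p (x + gpush Φ B) = 0 ∧ ¬ Red p Φ)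

/-- the particle set seen on a cell -/
def subP (ε : Fk ρ) (P : Set (Pt ρ V)) (x : Gam ρ V) (Φ : U →ₗ[F] V) : Set (Pt ρ U) :=
  {p' | ∃ p ∈ P, (∀ i, p'.1 i = (p.1 i).comp Φ) ∧ (∀ i, resid ε p x i = Φ (p'.2 i)) ∧ ¬ Red p Φ}

def Solve (ε : Fk ρ) (P : Set (Pt ρ V)) (k : ℕ) (η : ℝ) : Prop :=
  ∃ A : PFam ρ k V, A.junk ≤ η ∧ (A.E fun x Φ => bad ε P x Φ) ≤ η

def PDrop (ε : Fk ρ) (P : Set (Pt ρ V)) (k : ℕ) (η c : ℝ) : Prop :=
  ∃ A : PFam ρ k V, A.junk ≤ η ∧ (A.E fun x Φ => unred ε P x Φ) ≤ av (NN ε P) - c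

/-- `T_M h = M v + xi` -/
noncomputable def TM (M : G V) (h : Pt ρ V) : Fin ρ → V := fun i => mv M (h.1 i) + h.2 i

def Fr (H : Submodule F (Pt ρ V)) (M : G V) (Φ : U →ₗ[F] V) : Prop :=
  ∀ h ∈ H, (∀ i, TM M h i ∈ LinearMap.range Φ) → ∀ i, (h.1 i).comp Φ = 0

def High (H : Submodule F (Pt ρ V)) (R0 : ℕ) (M : G V) (Φ : U →ₗ[F] V) : Prop :=
  ∀ B : G U, cnt (TM (M + push Φ B) '' (H : Set (Pt ρ V))) * 2 ^ R0 ≤ DP V ρ

end particles

def RP (ρ : ℕ) : Prop :=
  ∀ (ε : Fk ρ) (D : ℕ → ℝ) (k : ℕ) (η : ℝ), 0 < η → ∃ n0 : ℕ,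
    ∀ (V : Type) [AddCommGroup V] [Module F V] [Finite V], n0 ≤ finrank F V →
      ∀ P : Set (Pt ρ V), Tame D (NN ε P) → Solve ε P k η

def PSTEP (ρ : ℕ) : Prop :=
  ∀ (ε : Fk ρ) (D : ℕ → ℝ) (k : ℕ) (η : ℝ), 0 < η → ∃ c : ℝ, 0 < c ∧
    ∀ (k' : ℕ) (η' : ℝ), 0 < η' → ∃ n0 : ℕ,
      ∀ (V : Type) [AddCommGroup V] [Module F V] [Finite V], n0 ≤ finrank F V →
        ∀ P : Set (Pt ρ V), Tame D (NN ε P) → Solve ε P k η ∨ PDrop ε P k' η' c

end SD
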