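import Pool.Agent.Lib.MP_ecee09_co.SD.Four

/-! Families: algebra of the functional `E` and the constructions (F1)-(F4), FamOf, GC, DROP. -/

namespace SD

open Module

namespace Fam

section alg
variable {X C Λ : Type} [Add X] {a : Λ → C → X} (A : Fam a)

lemma congr' {f g : X → Λ → ℝ} (h : ∀ x l, f x l = g x l) : A.E f = A.E g := by
  have : f = g := funext fun x => funext fun l => h x l
  rw [this]

lemma zero : A.E (fun _ _ => 0) = 0 := by simpa using A.smul 0 fun _ _ => 0

lemma sub (f g : X → Λ → ℝ) : A.E (fun x l => f x l - g x l) = A.E f - A.E g := by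
  have := A.add f fun x l => (-1) * g x l
  rw [A.smul] at this
  rw [A.congr' (g := fun x l => f x l + (-1) * g x l) fun x l => by ring, this]; ring

lemma mono {f g : X → Λ → ℝ} (h : ∀ x l, f x l ≤ g x l) : A.E f ≤ A.E g := by
  have := A.pos (fun x l => g x l - f x l) fun x l => sub_nonneg.2 (h x l)
  rw [A.sub] at this; linarith

lemma mul_right (c : ℝ) (f : X → Λ → ℝ) : A.E (fun x l => f x l * c) = A.E f * c := by
  rw [A.congr' (g := fun x l => c * f x l) fun x l => mul_comm _ _, A.smul, mul_comm]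

lemma div (c : ℝ) (f : X → Λ → ℝ) : A.E (fun x l => f x l / c) = A.E f / c := by
  simp only [div_eq_mul_inv, A.mul_right]

lemma sum {ι : Type} (s : Finset ι) (f : ι → X → Λ → ℝ) :
    A.E (fun x l => ∑ i ∈ s, f i x l) = ∑ i ∈ s, A.E (f i) := by
  classical
  induction s using Finset.induction_on with
  | empty => simpa using A.zero
  | insert i s hi ih => simp only [Finset.sum_insert hi]; rw [A.add, ih]

lemma sm {O : Type} [Finite O] (f : O → X → Λ → ℝ) :
    A.E (fun x l => SD.sm fun o => f o x l) = SD.sm fun o => A.E (f o) := by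
  let _ := Fintype.ofFinite O
  simp only [sm_eq]; exact A.sum _ f

lemma av {O : Type} [Finite O] (f : O → X → Λ → ℝ) :
    A.E (fun x l => SD.av fun o => f o x l) = SD.av fun o => A.E (f o) := by
  simp only [av_def]; rw [A.div, A.sm]

lemma abs_le (f : X → Λ → ℝ) : |A.E f| ≤ A.E fun x l => |f x l| := by
  rw [_root_.abs_le]
  refine ⟨?_, A.mono fun x l => le_abs_self _⟩
  have := A.mono (f := fun x l => (-1) * |f x l|) (g := f) fun x l => by
    simpa using neg_abs_le (f x l)
  rw [A.smul] at this; linarith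

lemma cs (f g : X → Λ → ℝ) :
    (A.E fun x l => f x l * g x l) ^ 2 ≤
      (A.E fun x l => f x l ^ 2) * A.E fun x l => g x l ^ 2 := by
  have h : ∀ t : ℝ, 0 ≤ (A.E fun x l => f x l ^ 2) * (t * t) +
      (2 * A.E fun x l => f x l * g x l) * t + A.E fun x l => g x l ^ 2 := by
    intro t
    have := A.pos (fun x l => (t * t) * f x l ^ 2 + ((2 * t) * (f x l * g x l) + g x l ^ 2))
      fun x l => by nlinarith [sq_nonneg (t * f x l + g x l)]
    rw [A.add, A.add, A.smul, A.smul] at this
    linarith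
  have := discrim_le_zero h
  rw [discrim] at this
  nlinarith

/-- Cauchy-Schwarz jointly over the family and an inner average -/
lemma cs_av {O : Type} [Finite O] (f g : X → Λ → O → ℝ) :
    (A.E fun x l => SD.av fun o => f x l o * g x l o) ^ 2 ≤
      (A.E fun x l => SD.av fun o => f x l o ^ 2) * A.E fun x l => SD.av fun o => g x l o ^ 2 := by
  have h : ∀ t : ℝ, 0 ≤ (A.E fun x l => SD.av fun o => f x l o ^ 2) * (t * t) +
      (2 * A.E fun x l => SD.av fun o => f x l o * g x l o) * t +
        A.E fun x l => SD.av fun o => g x l o ^ 2 := by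
    intro t
    have := A.pos (fun x l => (t * t) * (SD.av fun o => f x l o ^ 2) +
      ((2 * t) * (SD.av fun o => f x l o * g x l o) + SD.av fun o => g x l o ^ 2))
      fun x l => by
        rw [← av_mul_left, ← av_mul_left, ← av_add, ← av_add]
        exact av_nonneg fun o => by nlinarith [sq_nonneg (t * f x l o + g x l o)]
    rw [A.add, A.add, A.smul, A.smul] at this
    linarith
  have := discrim_le_zero h
  rw [discrim] at this
  nlinarith

lemma abs_av_mul_le {O : Type} [Finite O] (f g : X → Λ → O → ℝ) :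
    |A.E fun x l => SD.av fun o => f x l o * g x l o| ≤
      Real.sqrt (A.E fun x l => SD.av fun o => f x l o ^ 2) *
        Real.sqrt (A.E fun x l => SD.av fun o => g x l o ^ 2) := by
  rw [← Real.sqrt_mul (A.pos _ fun _ _ => av_nonneg fun _ => sq_nonneg _)]
  exact Real.abs_le_sqrt (A.cs_av f g)

variable [Finite X] [Nonempty X] [Finite C] [Nonempty C]

lemma const (c : ℝ) : A.E (fun _ _ => c) = c := by
  simpa only [av_const] using A.marg fun _ => c

lemma le_const {f : X → Λ → ℝ} {c : ℝ} (h : ∀ x l, f x l ≤ c) : A.E f ≤ c :=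
  (A.mono h).trans (A.const c).le

lemma const_le {f : X → Λ → ℝ} {c : ℝ} (h : ∀ x l, c ≤ f x l) : c ≤ A.E f :=
  (A.const c).ge.trans (A.mono h)

lemma sq_le (f : X → Λ → ℝ) : A.E f ^ 2 ≤ A.E fun x l => f x l ^ 2 := by
  simpa only [mul_one, one_pow, A.const] using A.cs f fun _ _ => 1

end alg

section cons
variable {X Y C C' C'' Λ Λ' Λ'' : Type}

/-- (F1) all base points, one label -/
lemma triv [AddCommGroup X] [Finite X] [Finite C] [Nonempty C] (a : Λ → C → X) (l0 : Λ) :
    ∃ A : Fam a, ∀ f, A.E f = SD.av fun x => f x l0 :=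
  ⟨⟨fun f => SD.av fun x => f x l0, fun _ _ => av_add _ _, fun _ _ => av_mul_left _ _,
    fun _ h => av_nonneg fun x => h x l0, fun g => av_shift g (a l0)⟩, fun _ => rfl⟩

/-- (F2) composition; the family on the cell may depend on the cell -/
lemma comp [AddCommGroup X] [AddCommGroup C'] {a : Λ → C → X} {a' : Λ' → C' → X}
    {a'' : Λ'' → C → C'} (A : Fam a') (S : X → Λ' → Fam a'') (r : Λ' → Λ'' → Λ)
    (hadd : ∀ l c c', a' l (c + c') = a' l c + a' l c') (hr : ∀ l m c, a (r l m) c = a' l (a'' m c)) :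
    ∃ A' : Fam a, ∀ f, A'.E f = A.E fun x l => (S x l).E fun B m => f (x + a' l B) (r l m) := by
  refine ⟨⟨fun f => A.E fun x l => (S x l).E fun B m => f (x + a' l B) (r l m), ?_, ?_, ?_, ?_⟩,
    fun _ => rfl⟩
  · intro f g; simp only [Fam.add]
  · intro c f; simp only [Fam.smul]
  · intro f h; exact A.pos _ fun x l => (S x l).pos _ fun _ _ => h _ _
  · intro g
    rw [← A.marg g]
    refine A.congr' fun x l => ?_
    rw [← (S x l).marg fun B => g (x + a' l B)]
    refine (S x l).congr' fun B m => ?_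
    simp only [hr, hadd, add_assoc]

/-- (F4) smaller cells inside the cells of `A`; the label may depend on the cell -/
lemma refine [AddCommGroup X] [AddCommGroup C'] [Finite C'] [Finite C] [Nonempty C]
    {a : Λ → C → X} {a' : Λ' → C' → X} (A : Fam a') (r : X → Λ' → Λ) (i : X → Λ' → C → C')
    (hadd : ∀ l c c', a' l (c + c') = a' l c + a' l c')
    (hr : ∀ x l c, a (r x l) c = a' l (i x l c)) :
    ∃ A' : Fam a, ∀ f, A'.E f = A.E fun x l => SD.av fun B => f (x + a' l B) (r x l) := by
  refine ⟨⟨fun f => A.E fun x l => SD.av fun B => f (x + a' l B) (r x l), ?_, ?_, ?_, ?_⟩,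
    fun _ => rfl⟩
  · intro f g; simp only [av_add, Fam.add]
  · intro c f; simp only [av_mul_left, Fam.smul]
  · intro f h; exact A.pos _ fun x l => av_nonneg fun _ => h _ _
  · intro g
    rw [← A.marg g]
    refine A.congr' fun x l => ?_
    simp only [hr, add_assoc, ← hadd]
    exact av_shift (fun B => g (x + a' l B)) (i x l)

/-- (F3) lift along an onto additive map `L`; `cond L` averages over the fibre -/
lemma lift [AddCommGroup X] [Finite X] [AddCommGroup Y] [Finite Y] [AddCommGroup C] [Finite C]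
    [AddCommGroup C'] [Finite C'] {a : Λ → C → X} {a' : Λ' → C' → Y} (A : Fam a') (L : X → Y)
    (hL : ∀ x x', L (x + x') = L x + L x') (r : Λ' → Λ) (j : C → C')
    (hj : ∀ c c', j (c + c') = j c + j c') (hjs : Function.Surjective j)
    (hr : ∀ l c, L (a (r l) c) = a' l (j c)) :
    ∃ A' : Fam a, ∀ f, A'.E f = A.E fun y l => cond L (fun x => f x (r l)) y := by
  refine ⟨⟨fun f => A.E fun y l => cond L (fun x => f x (r l)) y, ?_, ?_, ?_, ?_⟩, fun _ => rfl⟩
  · intro f g; simp only [cond_add, Fam.add]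
  · intro c f; simp only [cond_mul_left, Fam.smul]
  · intro f h; exact A.pos _ fun y l => cond_nonneg L (fun x => h x _) y
  · intro g
    rw [← av_cond L g, ← A.marg (cond L g)]
    refine A.congr' fun y l => ?_
    rw [cond_av L fun x B => g (x + a (r l) B)]
    simp only [cond_shift L hL, hr]
    exact av_surj j hj hjs fun B => cond L g (y + a' l B)

/-- a density invariant along its cells, completed by junk cells with label `z` -/
lemma ofDens [AddCommGroup X] [Finite X] [Finite C] [Nonempty C] {O : Type} [Finite O]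
    (a : Λ → C → X) (φ : O → Λ) (z : Λ) (hz : ∀ c, a z c = 0) (ψ : X → O → ℝ)
    (h0 : ∀ x o, 0 ≤ ψ x o) (hinv : ∀ x o c, ψ (x + a (φ o) c) o = ψ x o)
    (h1 : ∀ x, SD.av (ψ x) ≤ 1) :
    ∃ A : Fam a, ∀ f, A.E f =
      SD.av fun x => (SD.av fun o => ψ x o * f x (φ o)) + (1 - SD.av (ψ x)) * f x z := by
  refine ⟨⟨fun f => SD.av fun x => (SD.av fun o => ψ x o * f x (φ o)) + (1 - SD.av (ψ x)) * f x z,
    ?_, ?_, ?_, ?_⟩, fun _ => rfl⟩
  · intro f g
    rw [← av_add]
    refine av_congr fun x => ?_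
    simp only [mul_add, av_add]; ring
  · intro c f
    rw [← av_mul_left]
    refine av_congr fun x => ?_
    simp only [mul_left_comm _ c, av_mul_left]; ring
  · intro f h
    exact av_nonneg fun x => add_nonneg (av_nonneg fun o => mul_nonneg (h0 x o) (h _ _))
      (mul_nonneg (sub_nonneg.2 (h1 x)) (h _ _))
  · intro g
    simp only [hz, add_zero, av_const]
    have e : (SD.av fun x => SD.av fun o => ψ x o * SD.av fun B => g (x + a (φ o) B)) =
        SD.av fun x => SD.av (ψ x) * g x := by
      simp only [← av_mul_right]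
      rw [av_comm, av_comm (fun x o => ψ x o * g x)]
      refine av_congr fun o => ?_
      rw [← av_shift (fun x => ψ x o * g x) (a (φ o))]
      refine av_congr fun x => ?_
      simp only [hinv, av_mul_left]
    rw [av_add, e, ← av_add]
    exact av_congr fun x => by ring

end cons

section G
variable {U V X C : Type} [AddCommGroup U] [Module F U] [AddCommGroup V] [Module F V]

lemma junk_nonneg [Add X] {a : (U →ₗ[F] V) → C → X} (A : Fam a) : 0 ≤ A.junk :=
  A.pos _ fun _ _ => ind_nonneg _

lemma ind_comp_le {W : Type} [AddCommGroup W] [Module F W] (Φ : V →ₗ[F] W) (Ψ : U →ₗ[F] V) :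
    ind (¬ Function.Injective (Φ.comp Ψ)) ≤
      ind (¬ Function.Injective Φ) + ind (¬ Function.Injective Ψ) :=
  (ind_mono fun h => by
    by_contra hc; push Not at hc; exact h (hc.1.comp hc.2)).trans (ind_or_le _ _)

variable [Finite U] [Finite V] {k k' : ℕ}

/-- composition of `G`-families -/
lemma gcomp (A : GFam k' V) (S : G V → Hom k' V → GFam k (Fk k')) :
    ∃ A' : GFam k V, (∀ f, A'.E f = A.E fun x Φ => (S x Φ).E fun B Ψ => f (x + push Φ B) (Φ.comp Ψ)) ∧
      A'.junk ≤ A.junk + A.E fun x Φ => (S x Φ).junk := by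
  obtain ⟨A', h⟩ := Fam.comp (a := fun (Φ : Hom k V) (B : G (Fk k)) => push Φ B) A S
    (fun Φ Ψ => Φ.comp Ψ) (fun Φ => (push Φ).map_add) fun _ _ _ => rfl
  refine ⟨A', h, ?_⟩
  rw [Fam.junk, h, Fam.junk, ← A.add]
  refine A.mono fun x Φ => ?_
  rw [Fam.junk, ← (S x Φ).const (ind (¬ Function.Injective Φ)), ← (S x Φ).add]
  exact (S x Φ).mono fun _ Ψ => ind_comp_le Φ Ψ

/-- composition of `Gam`-families -/
lemma pcomp {ρ : ℕ} (A : PFam ρ k' V) (S : Gam ρ V → Hom k' V → PFam ρ k (Fk k')) :
    ∃ A' : PFam ρ k V,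
      (∀ f, A'.E f = A.E fun x Φ => (S x Φ).E fun B Ψ => f (x + gpush Φ B) (Φ.comp Ψ)) ∧
      A'.junk ≤ A.junk + A.E fun x Φ => (S x Φ).junk := by
  obtain ⟨A', h⟩ := Fam.comp (a := fun (Φ : Hom k V) (B : Gam ρ (Fk k)) => gpush Φ B) A S
    (fun Φ Ψ => Φ.comp Ψ) (fun Φ => (gpush Φ).map_add) fun _ _ _ => rfl
  refine ⟨A', h, ?_⟩
  rw [Fam.junk, h, Fam.junk, ← A.add]
  refine A.mono fun x Φ => ?_
  rw [Fam.junk, ← (S x Φ).const (ind (¬ Function.Injective Φ)), ← (S x Φ).add]
  exact (S x Φ).mono fun _ Ψ => ind_comp_le Φ Ψ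

/-- the marginal identity for restrictions -/
lemma res_marg (A : GFam k V) (g : G V → ℝ) : (A.E fun x Φ => SD.av (res g x Φ)) = SD.av g :=
  A.marg g

lemma res_inner (A : GFam k V) (f g : G V → ℝ) :
    (A.E fun x Φ => SD.av fun B => res f x Φ B * res g x Φ B) = SD.av fun M => f M * g M :=
  A.marg fun M => f M * g M

lemma res_sq (A : GFam k V) (f : G V → ℝ) :
    (A.E fun x Φ => SD.av fun B => res f x Φ B ^ 2) = SD.av fun M => f M ^ 2 :=
  A.marg fun M => f M ^ 2

end G

end Fam

end SD
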