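import Pool.Agent.Lib.MP_ecee09_co.SD.Four
import Pool.Agent.Lib.MP_ecee09_co.SD.Stmts

/-! The Gaussian step, field identities: the sum and the sum of squares of the probe values are
constant on the cell of the probe. -/

namespace SD

open Module QuadraticMap

section gen
variable {V : Type} [AddCommGroup V] [Module F V] [Finite V]

omit [Finite V] in
lemma gg_rank_zero : rank (0 : QF V) = 0 := by
  have h : (0 : QF V).radical = ⊤ := by
    refine eq_top_iff.2 fun m _ => ?_
    rw [QuadraticMap.mem_radical_iff']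
    simp
  have : Subsingleton (V ⧸ (0 : QF V).radical) := Submodule.Quotient.subsingleton_iff.2 h
  exact Module.finrank_zero_of_subsingleton

lemma gg_en_ge {J : ℕ} (hJ : 1 ≤ J) (h : G V → ℝ) : (av h) ^ 2 ≤ en (Low J) h := by
  have h1 : Low J (0 : QF V) := by unfold Low; rw [gg_rank_zero]; exact hJ
  have h2 := coef_sq_le_en h h1
  simpa [coef] using h2

lemma gg_lin_apply {k : ℕ} {W : Type} [AddCommGroup W] [Module F W] (y : Fin k → W) (l : Fk k) :
    lin y l = ∑ i, l i • y i := Fintype.linearCombination_apply F y l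

/-- a random probe is injective with high probability -/
lemma gg_noninj (k : ℕ) :
    av (fun y : Fin k → V => ind (¬ Function.Injective (lin y))) ≤ 2 ^ k / Nat.card V := by
  have h1 : ∀ y : Fin k → V, ind (¬ Function.Injective (lin y)) ≤
      sm fun l : Fk k => ind (l ≠ 0 ∧ lin y l = 0) := fun y => by
    refine le_trans (ind_mono fun h => ?_) (ind_exists_le _)
    by_contra hc
    exact h ((injective_iff_map_eq_zero _).2 fun l hl => by_contra fun h0 => hc ⟨l, h0, hl⟩)
  refine (av_mono h1).trans ?_
  rw [av_sm_comm]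
  have hV := card_pos' (α := V)
  have h2 : ∀ l : Fk k, av (fun y : Fin k → V => ind (l ≠ 0 ∧ lin y l = 0)) ≤ 1 / Nat.card V := by
    intro l
    by_cases h0 : l = 0
    · simp only [h0, ne_eq, not_true_eq_false, false_and, ind_neg not_false, av_zero]
      positivity
    · obtain ⟨i, hi⟩ := Function.ne_iff.1 h0
      have hi1 : l i = 1 := (F_cases (l i)).resolve_left hi
      have hs : Function.Surjective fun y : Fin k → V => lin y l := fun v => by
        refine ⟨Pi.single i v, ?_⟩
        simp only [gg_lin_apply]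
        rw [Finset.sum_eq_single i]
        · simp [hi1]
        · intro j _ hj; simp [Pi.single_eq_of_ne hj]
        · simp
      have ha : ∀ a b : Fin k → V, lin (a + b) l = lin a l + lin b l := fun a b => by
        simp only [gg_lin_apply, Pi.add_apply, smul_add, Finset.sum_add_distrib]
      have := av_surj (fun y : Fin k → V => lin y l) ha hs fun v => ind (v = 0) * 1
      rw [av_ind_eq 0 fun _ : V => (1 : ℝ)] at this
      rw [← this]
      exact av_mono fun y => by rw [mul_one]; exact ind_mono fun h => h.2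
  refine (sm_mono h2).trans_eq ?_
  rw [sm_const, card_eq_pow (X := Fk k), finrank_Fk]
  push_cast; ring

end gen

section fld
variable {n k : ℕ} {E : Type} [AddCommGroup E] [Module F E]

/-- the label of the probe `y` -/
def ggPhi (E : Type) [AddCommGroup E] [Module F E] (y : Fin k → Fk n) : Hom k (Fk n × E) :=
  (LinearMap.inl F (Fk n) E).comp (lin y)

lemma gg_phi_inj (y : Fin k → Fk n) (h : Function.Injective (lin y)) :
    Function.Injective (ggPhi E y) := LinearMap.inl_injective.comp h

lemma gg_QZ_apply (q : QF E) (Z : Fin n → E) (x : Fk n) (e : E) :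
    QZ q Z (x, e) = q (lin Z x + e) := rfl

lemma gg_chi_tau (q : QF E) (Z b : Fin n → E) : chi (QZ q Z) (tau b) = sg (brk q b Z) := by
  unfold chi tau brk
  congr 1
  rw [LinearMap.sum_apply]
  refine Finset.sum_congr rfl fun i _ => ?_
  have h1 : lin Z (Pi.single i 1) = Z i := by
    unfold lin; rw [Fintype.linearCombination_apply_single, one_smul]
  change QZ q Z (Pi.single i 1, b i) + QZ q Z (Pi.single i 1, 0) + QZ q Z (0, b i) = _
  rw [gg_QZ_apply, gg_QZ_apply, gg_QZ_apply, h1, map_zero, add_zero, zero_add, polar_comm,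
    polar_eq]

lemma gg_QZ_comp (q : QF E) (Z : Fin n → E) (y : Fin k → Fk n) :
    (QZ q Z).comp (ggPhi E y) = q.comp (lin fun a => lin Z (y a)) := by
  ext l
  change q (lin Z (lin y l) + 0) = q (lin (fun a => lin Z (y a)) l)
  rw [add_zero, gg_lin_apply y, map_sum, gg_lin_apply]
  simp only [map_smul]

lemma gg_brk_star (q : QF E) (Z : Fin n → E) (y : Fin k → Fk n) (t : Fin k → E) :
    brk q (star y t) Z = brk q t fun a => lin Z (y a) := by
  unfold brk star
  simp only [← polarBilin_apply_apply, map_sum, LinearMap.sum_apply, map_smul,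
    LinearMap.smul_apply, gg_lin_apply]
  exact Finset.sum_comm

lemma gg_brk_add (q : QF E) (t w w' : Fin k → E) :
    brk q t (w + w') = brk q t w + brk q t w' := by
  simp only [brk, Pi.add_apply, polar_add_right, Finset.sum_add_distrib]

variable [Finite E]

lemma gg_av_brk {q : QF E} (hq : ND q) (w : Fin k → E) :
    av (fun t : Fin k → E => sg (brk q t w)) = ind (w = 0) := by
  rw [av_sg (fun t : Fin k → E => brk q t w) fun a b => by
    simp only [brk, Pi.add_apply, polar_add_left, Finset.sum_add_distrib]]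
  refine ind_congr ⟨fun h => funext fun a => hq _ fun x => ?_, fun h t => by simp [brk, h]⟩
  have := h (Pi.single a x)
  unfold brk at this
  rw [Finset.sum_eq_single a] at this
  · simpa using this
  · intro j _ hj; simp [Pi.single_eq_of_ne hj]
  · simp

omit [Finite E] in
lemma gg_fld_cell (q : QF E) (c : (Fin n → E) → ℝ) (M : G (Fk n × E)) (y : Fin k → Fk n)
    (B : G (Fk k)) (t : Fin k → E) :
    fld q c (M + push (ggPhi E y) B + tau (star y t)) = sm fun Z => c Z * chi (QZ q Z) M *
      chi (q.comp (lin fun a => lin Z (y a))) B * sg (brk q t fun a => lin Z (y a)) := by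
  unfold fld
  refine sm_congr fun Z => ?_
  rw [chi_add, chi_add, chi_push, gg_QZ_comp, gg_chi_tau, gg_brk_star]; ring

lemma gg_av1 {q : QF E} (hq : ND q) (c : (Fin n → E) → ℝ) (M : G (Fk n × E)) (y : Fin k → Fk n)
    (B : G (Fk k)) :
    av (fun t => fld q c (M + push (ggPhi E y) B + tau (star y t))) =
      sm fun Z => c Z * chi (QZ q Z) M * ind ((fun a => lin Z (y a)) = 0) := by
  simp only [gg_fld_cell]
  rw [av_sm_comm]
  refine sm_congr fun Z => ?_
  rw [av_mul_left, gg_av_brk hq]
  by_cases h : (fun a => lin Z (y a)) = 0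
  · have h0 : lin (0 : Fin k → E) = 0 := LinearMap.ext fun l => by simp [gg_lin_apply]
    rw [h, h0, comp_zero', chi_zero, mul_one]
  · rw [ind_neg h, mul_zero, mul_zero]

lemma gg_av2 {q : QF E} (hq : ND q) (c : (Fin n → E) → ℝ) (M : G (Fk n × E)) (y : Fin k → Fk n)
    (B : G (Fk k)) :
    av (fun t => fld q c (M + push (ggPhi E y) B + tau (star y t)) ^ 2) =
      sm fun Z => sm fun Z' => c Z * chi (QZ q Z) M * (c Z' * chi (QZ q Z') M) *
        ind ((fun a => lin Z (y a)) = fun a => lin Z' (y a)) := by
  simp only [gg_fld_cell, pow_two, sm_mul_sm]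
  rw [av_sm_comm]
  refine sm_congr fun Z => ?_
  rw [av_sm_comm]
  refine sm_congr fun Z' => ?_
  set w : Fin k → E := fun a => lin Z (y a)
  set w' : Fin k → E := fun a => lin Z' (y a)
  have e : ∀ t : Fin k → E, c Z * chi (QZ q Z) M * chi (q.comp (lin w)) B * sg (brk q t w) *
      (c Z' * chi (QZ q Z') M * chi (q.comp (lin w')) B * sg (brk q t w')) =
      c Z * chi (QZ q Z) M * (c Z' * chi (QZ q Z') M) *
        (chi (q.comp (lin w)) B * chi (q.comp (lin w')) B) * sg (brk q t (w + w')) := fun t => by
    rw [gg_brk_add, sg_add]; ring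
  simp only [e]
  rw [av_mul_left, gg_av_brk hq, ind_congr add_eq_zero2]
  by_cases h : w = w'
  · rw [← h, chi_mul_self, mul_one]
  · rw [ind_neg h, mul_zero, mul_zero]

/-- functions of the sum and the sum of squares of the probe values are invariant -/
lemma gg_inv {q : QF E} (hq : ND q) (c : (Fin n → E) → ℝ) {T : Type} [Fintype T]
    (φ : T ≃ (Fin k → E)) (σ : ℝ) {Ψ : (T → ℝ) → ℝ} (hΨ : Inv2 Ψ) (M : G (Fk n × E))
    (y : Fin k → Fk n) (B : G (Fk k)) :
    Ψ (fun t => fld q c (M + push (ggPhi E y) B + tau (star y (φ t))) / σ) =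
      Ψ fun t => fld q c (M + tau (star y (φ t))) / σ := by
  have a1 := (gg_av1 hq c M y B).trans (gg_av1 hq c M y 0).symm
  have a2 := (gg_av2 hq c M y B).trans (gg_av2 hq c M y 0).symm
  rw [map_zero, add_zero] at a1 a2
  have : Nonempty T := ⟨φ.symm 0⟩
  refine hΨ _ _ ?_ ?_
  · rw [← sm_eq, ← sm_eq, sm_eq_card_mul_av, sm_eq_card_mul_av, av_div, av_div,
      av_equiv φ fun t => fld q c (M + push (ggPhi E y) B + tau (star y t)),
      av_equiv φ fun t => fld q c (M + tau (star y t)), a1]
  · simp only [div_pow]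
    rw [← sm_eq, ← sm_eq, sm_eq_card_mul_av, sm_eq_card_mul_av, av_div, av_div,
      av_equiv φ fun t => fld q c (M + push (ggPhi E y) B + tau (star y t)) ^ 2,
      av_equiv φ fun t => fld q c (M + tau (star y t)) ^ 2, a2]

lemma gg_inner (q : QF E) (u : G (Fk n × E) → ℝ) :
    av (fun M => u M * fld q (cf q u) M) = sm fun Z => cf q u Z ^ 2 := by
  unfold fld
  simp only [← sm_mul_left]
  rw [av_sm_comm]
  refine sm_congr fun Z => ?_
  simp only [mul_left_comm (u _), av_mul_left]
  rw [pow_two]; rfl

omit [Finite E] in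
lemma gg_star_inl (y : Fin k ⊕ Fin k → Fk n) (t : Fin k → E) :
    star y (Sum.elim t 0) = star (fun a => y (Sum.inl a)) t := by
  funext i; simp [star, Fintype.sum_sum_type]

omit [Finite E] in
lemma gg_star_inr (y : Fin k ⊕ Fin k → Fk n) (t : Fin k → E) :
    star y (Sum.elim 0 t) = star (fun a => y (Sum.inr a)) t := by
  funext i; simp [star, Fintype.sum_sum_type]

omit [Finite E] in
lemma gg_tau_star_zero (y : Fin k → Fk n) : tau (star y (0 : Fin k → E)) = 0 := by
  have : star y (0 : Fin k → E) = 0 := by funext i; simp [star]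
  rw [this]
  unfold tau
  refine Finset.sum_eq_zero fun i _ => ?_
  rw [Pi.zero_apply, add_self2, zero_add]
  exact ev_zero

end fld

/-- an average over a joint probe -/
lemma gg_joint {X Y : Type} [Finite X] [Finite Y] {k : ℕ} (f g : X → (Fin k → Y) → ℝ) :
    av (fun w : X × (Fin k ⊕ Fin k → Y) =>
      f w.1 (fun a => w.2 (Sum.inl a)) * g w.1 fun a => w.2 (Sum.inr a)) =
      av fun x => av (f x) * av (g x) := by
  rw [av_prod]
  refine av_congr fun x => ?_
  rw [av_mul_av, ← av_prod (fun p : (Fin k → Y) × (Fin k → Y) => f x p.1 * g x p.2),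
    ← av_equiv (Equiv.sumArrowEquivProdArrow (Fin k) (Fin k) Y)]
  rfl

end SD
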