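import Pool.Agent.Lib.MP_ecee09_co.SD.GGa
import Pool.Agent.Lib.MP_ecee09_co.SD.GGb

/-! The Gaussian step (G). -/

namespace SD

open Module

lemma gg_labels {T E κ : Type} [Zero E] (φ : T ≃ (κ → E)) :
    (Function.Injective fun t => (Sum.elim (φ t) 0 : κ ⊕ κ → E)) ∧
    (Function.Injective fun t => (Sum.elim 0 (φ t) : κ ⊕ κ → E)) ∧
    ∀ t t', (Sum.elim (φ t) 0 : κ ⊕ κ → E) = (Sum.elim 0 (φ t') : κ ⊕ κ → E) → φ t = 0 := by
  refine ⟨fun t t' h => φ.injective (funext fun a => congrFun h (Sum.inl a)),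
    fun t t' h => φ.injective (funext fun a => congrFun h (Sum.inr a)),
    fun t t' h => funext fun a => congrFun h (Sum.inl a)⟩

lemma gg_norm {σ r δ A P : ℝ} {R R' : ℕ} (hr : 0 < r) (hσ : r ≤ σ) (hδ : 0 < δ) (hR : R' ≤ R)
    (h : |A - σ ^ R' * P| ≤ δ * min 1 r ^ R) : |A / σ ^ R' - P| ≤ δ := by
  have hs : 0 < σ ^ R' := pow_pos (hr.trans_le hσ) _
  have e : A / σ ^ R' - P = (A - σ ^ R' * P) / σ ^ R' := by field_simp
  rw [e, abs_div, abs_of_pos hs, div_le_iff₀ hs]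
  refine h.trans (mul_le_mul_of_nonneg_left ?_ hδ.le)
  have h0 : 0 ≤ min 1 r := le_min zero_le_one hr.le
  exact (pow_le_pow_of_le_one h0 (min_le_left _ _) hR).trans
    (pow_le_pow_left₀ h0 ((min_le_right _ _).trans hσ) _)

lemma gg_abs_le {X : Type} [Finite X] [Nonempty X] (f : X → ℝ) {a : ℝ} (ha : 0 ≤ a)
    (h : av (fun x => f x ^ 2) ≤ a ^ 2) : av (fun x => |f x|) ≤ a := by
  have h1 := av_sq_le fun x => |f x|
  simp only [sq_abs] at h1
  exact le_of_sq_le_sq (h1.trans h) ha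

lemma gg_arith {τ r σ d2 d8 e1 e4 B μ : ℝ} (hτ : 0 < τ) (hr : 0 < r) (hσ : r ≤ σ)
    (hμ : 0 < μ) (hB : 0 < B) (h1 : μ * d2 ≤ τ * r / 8) (h2 : e1 ≤ μ * (τ * r / 8)) (h3 : e1 ≤ 1)
    (h4 : B * e4 ≤ τ ^ 2 * r ^ 2 / 8) (h5 : 4 + d8 ≤ 2 * B * (τ ^ 2 * r ^ 2 / 8)) :
    τ ^ 2 * r ^ 2 / 4 ≤ 2 * (τ * r / 2) * (τ * σ) - τ * r / 2 * (μ * d2 + e1 / μ) -
      (τ * r / 2) ^ 2 - (B * e4 + (2 + 2 * e1 + d8) / (2 * B)) := by
  have a1 : e1 / μ ≤ τ * r / 8 := by rw [div_le_iff₀ hμ]; linarith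
  have a2 : (2 + 2 * e1 + d8) / (2 * B) ≤ τ ^ 2 * r ^ 2 / 8 := by
    rw [div_le_iff₀ (by positivity)]; linarith
  have a3 : τ * r / 2 * (μ * d2 + e1 / μ) ≤ τ * r / 2 * (τ * r / 4) :=
    mul_le_mul_of_nonneg_left (by linarith) (by positivity)
  have a4 : τ ^ 2 * r * r ≤ τ ^ 2 * r * σ := mul_le_mul_of_nonneg_left hσ (by positivity)
  nlinarith [mul_pos (pow_pos hτ 2) (pow_pos hr 2)]

theorem gg_of (h1 : MOM) (h2 : GT) (h3 : MR) : GG := by
  obtain ⟨τ, hτ, h2⟩ := h2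
  intro D m hm
  set r := Real.sqrt m with hr
  have hr0 : 0 < r := Real.sqrt_pos.2 hm
  refine ⟨τ ^ 2 * r ^ 2 / 4, by positivity, fun J k η hη => ?_⟩
  have hw : 0 < τ ^ 2 * r ^ 2 / 8 := by positivity
  obtain ⟨B, hB, hB5⟩ : ∃ B : ℝ, 0 < B ∧ 4 + D 8 ≤ 2 * B * (τ ^ 2 * r ^ 2 / 8) := by
    refine ⟨(4 + |D 8|) / (2 * (τ ^ 2 * r ^ 2 / 8)), by positivity, ?_⟩
    have : 2 * ((4 + |D 8|) / (2 * (τ ^ 2 * r ^ 2 / 8))) * (τ ^ 2 * r ^ 2 / 8) = 4 + |D 8| := by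
      field_simp
    rw [this]; linarith [le_abs_self (D 8)]
  obtain ⟨e4, he4, he4B, he4η⟩ : ∃ e4 : ℝ, 0 < e4 ∧ B * e4 ≤ τ ^ 2 * r ^ 2 / 8 ∧ e4 ≤ η / 2 := by
    refine ⟨min (τ ^ 2 * r ^ 2 / 8 / B) (η / 2), lt_min (by positivity) (by positivity), ?_,
      min_le_right _ _⟩
    rw [← le_div_iff₀' hB]; exact min_le_left _ _
  obtain ⟨η0, hη0, h3⟩ := h3 e4 (Nat.card (G (Fk k))) he4
  obtain ⟨μ, hμ, hμ1⟩ : ∃ μ : ℝ, 0 < μ ∧ μ * D 2 ≤ τ * r / 8 := by
    refine ⟨τ * r / 8 / (|D 2| + 1), by positivity, ?_⟩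
    rw [div_mul_eq_mul_div, div_le_iff₀ (by positivity)]
    exact mul_le_mul_of_nonneg_left (by linarith [le_abs_self (D 2)]) (by positivity)
  obtain ⟨e1, he1, k1, k2, k3, k4⟩ : ∃ e1 : ℝ, 0 < e1 ∧ e1 ≤ η0 ^ 2 ∧ e1 ≤ 1 ∧ e1 ≤ (η / 2) ^ 2 ∧
      e1 ≤ μ * (τ * r / 8) :=
    ⟨min (min (η0 ^ 2) 1) (min ((η / 2) ^ 2) (μ * (τ * r / 8))),
      lt_min (lt_min (by positivity) one_pos) (lt_min (by positivity) (by positivity)),
      (min_le_left _ _).trans (min_le_left _ _), (min_le_left _ _).trans (min_le_right _ _),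
      (min_le_right _ _).trans (min_le_left _ _), (min_le_right _ _).trans (min_le_right _ _)⟩
  obtain ⟨Ψ, Ψ1, Ψ2, C, R, δ, hδ, j0, j1, -, p0, pC, p2, p12, h2⟩ := h2 (Fin k → Fk J) 0 e1 he1
  obtain ⟨ηS, hηS, h1⟩ := h1 D J R (δ * min 1 r ^ R) (mul_pos hδ (pow_pos (lt_min one_pos hr0) _))
  obtain ⟨n0, hn0⟩ : ∃ n0 : ℕ, C * 2 ^ k / η0 < 2 ^ n0 := pow_unbounded_of_one_lt _ one_lt_two
  refine ⟨ηS, hηS, n0, fun n hn E _ _ _ q u hS hm' hb hb3 => ?_⟩
  set c := cf q u with hc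
  set σ := Real.sqrt (sm fun Z => c Z ^ 2) with hσ
  have hrσ : r ≤ σ := Real.sqrt_le_sqrt hm'
  have hσ0 : 0 < σ := hr0.trans_le hrσ
  have hσ2 : σ ^ 2 = sm fun Z => c Z ^ 2 := Real.sq_sqrt (hm.le.trans hm')
  obtain ⟨φ0⟩ : Nonempty (Fk J ≃ₗ[F] E) :=
    FiniteDimensional.nonempty_linearEquiv_of_finrank_eq (by rw [finrank_Fk, hS.dim])
  let φ : (Fin k → Fk J) ≃ (Fin k → E) := Equiv.piCongrRight fun _ => φ0.toEquiv
  have hφ0 : φ 0 = 0 := funext fun _ => φ0.map_zero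
  obtain ⟨l1, l2, l3⟩ := gg_labels φ
  let X : G (Fk n × E) → (Fin k → Fk n) → (Fin k → Fk J) → ℝ :=
    fun M y t => fld q c (M + tau (star y (φ t))) / σ
  obtain ⟨g1, g2, g3⟩ := h2 (G (Fk n × E) × (Fin k ⊕ Fin k → Fk n)) (Fin k ⊕ Fin k → E)
    (fun w l => fld q c (w.1 + tau (star w.2 l)) / σ) (fun t => Sum.elim (φ t) 0)
    (fun t => Sum.elim 0 (φ t)) l1 l2 (by simp only [hφ0])
    (fun t t' h => φ.injective ((l3 t t' h).trans hφ0.symm)) (fun R' hR' l => by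
      simp only [Finset.prod_div_distrib, Finset.prod_const, Finset.card_univ, Fintype.card_fin]
      rw [av_div, av_prod]
      exact gg_norm hr0 hrσ hδ hR' (h1 n E q c hS.dim hS.pos hS.nd hS.tK hb hb3 _ R' hR' l))
  simp only [Function.comp_def, gg_star_inl, gg_star_inr, hφ0, gg_tau_star_zero, add_zero]
    at g1 g2 g3
  have f1 : av (fun M => (av (fun y => Ψ (X M y)) - 1) ^ 2) ≤ e1 := by
    refine le_trans (le_of_eq ?_) g1
    rw [gg_joint (fun M y => Ψ (X M y) - 1) fun M y => Ψ (X M y) - 1]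
    simp only [av_sub, av_const, pow_two]
  have f2 : av (fun M => (av (fun y => Ψ1 (X M y)) - τ * (fld q c M / σ)) ^ 2) ≤ e1 := by
    refine le_trans (le_of_eq ?_) g2
    rw [gg_joint (fun M y => Ψ1 (X M y) - τ * (fld q c M / σ))
      fun M y => Ψ1 (X M y) - τ * (fld q c M / σ)]
    simp only [av_sub, av_const, pow_two]
  have f3 : av (fun M => av fun y => Ψ2 (X M y)) ≤ 1 := by
    refine le_trans (le_of_eq ?_) g3
    have := gg_joint (fun M y => Ψ2 (X M y)) fun _ _ => 1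
    simp only [mul_one, av_const] at this
    exact this.symm
  have i0 : ∀ M y B, Ψ (X (M + push (ggPhi E y) B) y) = Ψ (X M y) :=
    fun M y B => gg_inv hS.nd c φ σ j0 M y B
  have i1 : ∀ M y B, Ψ1 (X (M + push (ggPhi E y) B) y) = Ψ1 (X M y) :=
    fun M y B => gg_inv hS.nd c φ σ j1 M y B
  have hC : 0 ≤ C := (p0 0).trans (pC 0)
  have f4 : av (fun M => av fun y => Ψ (X M y) * ind (¬ Function.Injective (ggPhi E y))) ≤ η0 := by
    refine av_le_const fun M => ?_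
    have a1 : av (fun y => Ψ (X M y) * ind (¬ Function.Injective (ggPhi E y))) ≤
        av fun y : Fin k → Fk n => C * ind (¬ Function.Injective (lin y)) :=
      av_mono fun y => mul_le_mul (pC _) (ind_mono fun h h' => h (gg_phi_inj y h'))
        (ind_nonneg _) hC
    rw [av_mul_left] at a1
    have a2 := mul_le_mul_of_nonneg_left (gg_noninj (V := Fk n) k) hC
    refine a1.trans (a2.trans ?_)
    rw [card_eq_pow (X := Fk n), finrank_Fk, ← mul_div_assoc]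
    push_cast
    rw [div_le_iff₀ (by positivity), mul_comm η0, ← div_le_iff₀ hη0]
    exact hn0.le.trans (pow_le_pow_right₀ one_le_two hn)
  obtain ⟨ψ', q0, q1, q2, q3, q4, q5⟩ := h3 (G (Fk n × E)) (G (Fk k)) (Fin k → Fk n)
    (fun y B => push (ggPhi E y) B) (fun y => Function.Injective (ggPhi E y))
    (fun M y => Ψ (X M y)) (fun _ _ _ => map_add _ _ _) le_rfl (fun _ _ => p0 _) i0
    (gg_abs_le _ hη0.le (f1.trans k1)) f4
  refine ⟨ggFam _ (ggPhi E) 0 push_zero ψ' q0 q2 q4, ?_, ?_⟩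
  · change av (fun M => (av fun y => ψ' M y * ind (¬ Function.Injective (ggPhi E y))) +
      (1 - av (ψ' M)) * ind (¬ Function.Injective (0 : Hom k (Fk n × E)))) ≤ η
    have a1 : ∀ M, (av fun y => ψ' M y * ind (¬ Function.Injective (ggPhi E y))) +
        (1 - av (ψ' M)) * ind (¬ Function.Injective (0 : Hom k (Fk n × E))) ≤
        |av (fun y => Ψ (X M y)) - 1| + av fun y => Ψ (X M y) - ψ' M y := fun M => by
      have b1 : (av fun y => ψ' M y * ind (¬ Function.Injective (ggPhi E y))) = 0 := by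
        rw [← av_zero (α := Fin k → Fk n)]
        refine av_congr fun y => ?_
        by_cases h : Function.Injective (ggPhi E y)
        · rw [ind_neg (not_not.2 h), mul_zero]
        · rw [q3 M y h, zero_mul]
      have b2 := mul_le_of_le_one_right (sub_nonneg.2 (q4 M))
        (ind_le_one (¬ Function.Injective (0 : Hom k (Fk n × E))))
      rw [b1, av_sub]
      linarith [neg_abs_le (av (fun y => Ψ (X M y)) - 1)]
    refine (av_mono a1).trans ?_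
    rw [av_add]
    linarith [gg_abs_le _ (half_pos hη).le (f1.trans k3)]
  · have a1 := gg_gain (fun y B => push (ggPhi E y) B) u (fun M => τ * (fld q c M / σ))
      (fun M y => Ψ (X M y)) (fun M y => Ψ1 (X M y)) (fun M y => Ψ2 (X M y)) ψ' (τ * r / 2) μ B
      (by positivity) hμ hB q0 q1 (fun _ _ => p2 _) (fun _ _ => p12 _) i0 i1 q2 e1 e1 e4 (D 2) (D 8)
      f1 f2 f3 q5 hS.tu.sq (hS.tu 8)
    have a2 : av (fun M => u M * (τ * (fld q c M / σ))) = τ * σ := by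
      have : ∀ M, u M * (τ * (fld q c M / σ)) = τ / σ * (u M * fld q c M) := fun M => by ring
      simp only [this]
      rw [av_mul_left, hc, gg_inner, ← hc, ← hσ2]
      field_simp
    rw [a2] at a1
    refine (gg_arith hτ hr0 hrσ hμ hB hμ1 k4 k2 he4B hB5).trans (a1.trans ?_)
    change _ ≤ av (fun M => (av fun y => ψ' M y * en (Low J) (res u M (ggPhi E y))) +
      (1 - av (ψ' M)) * en (Low J) (res u M (0 : Hom k (Fk n × E))))
    refine av_mono fun M => le_add_of_le_of_nonneg (av_mono fun y => ?_)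
      (mul_nonneg (sub_nonneg.2 (q4 M)) (en_nonneg _ _))
    exact mul_le_mul_of_nonneg_left (gg_en_ge hS.pos (res u M (ggPhi E y))) (q0 M y)

end SD
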