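import Pool.Agent.Lib.MP_ecee09_co.SD.GTa

/-! Gaussian tilts and their mixtures. -/

namespace SD

open MeasureTheory ProbabilityTheory Finset Filter Topology

/-- continuous and bounded -/
def GB {Z : Type} [TopologicalSpace Z] (f : Z → ℝ) : Prop :=
  Continuous f ∧ ∃ C : ℝ, ∀ z, |f z| ≤ C

section gb
variable {Z : Type} [TopologicalSpace Z] {f g : Z → ℝ}

lemma GB.const (c : ℝ) : GB fun _ : Z => c := ⟨continuous_const, |c|, fun _ => le_rfl⟩

lemma GB.mul (hf : GB f) (hg : GB g) : GB fun z => f z * g z := by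
  obtain ⟨h1, C, hC⟩ := hf
  obtain ⟨h2, D, hD⟩ := hg
  refine ⟨h1.mul h2, C * D, fun z => ?_⟩
  rw [abs_mul]
  exact mul_le_mul (hC z) (hD z) (abs_nonneg _) ((abs_nonneg _).trans (hC z))

lemma GB.sub (hf : GB f) (hg : GB g) : GB fun z => f z - g z := by
  obtain ⟨h1, C, hC⟩ := hf
  obtain ⟨h2, D, hD⟩ := hg
  exact ⟨h1.sub h2, C + D, fun z => (abs_sub _ _).trans (add_le_add (hC z) (hD z))⟩

lemma GB.int [MeasurableSpace Z] [OpensMeasurableSpace Z] (hf : GB f) (ρ : Measure Z)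
    [IsFiniteMeasure ρ] : Integrable f ρ := by
  obtain ⟨h1, C, hC⟩ := hf
  exact Integrable.of_bound h1.measurable.aestronglyMeasurable C (ae_of_all _ hC)

end gb

/-- jointly continuous, and bounded for almost every parameter -/
def GK {Θ Z : Type} [TopologicalSpace Θ] [MeasurableSpace Θ] [TopologicalSpace Z] (μ : Measure Θ)
    (k : Θ → Z → ℝ) : Prop :=
  Continuous (fun p : Θ × Z => k p.1 p.2) ∧ ∃ C : ℝ, ∀ᵐ t ∂μ, ∀ z, |k t z| ≤ C

section gk
variable {Θ Z : Type} [TopologicalSpace Θ] [MeasurableSpace Θ] [TopologicalSpace Z]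
  {μ : Measure Θ} {k k' : Θ → Z → ℝ}

lemma GK.mul (h : GK μ k) (h' : GK μ k') : GK μ fun t z => k t z * k' t z := by
  obtain ⟨h1, C, hC⟩ := h
  obtain ⟨h2, D, hD⟩ := h'
  refine ⟨h1.mul h2, C * D, ?_⟩
  filter_upwards [hC, hD] with t a b z
  rw [abs_mul]
  exact mul_le_mul (a z) (b z) (abs_nonneg _) ((abs_nonneg _).trans (a z))

lemma GK.prod {ι : Type} (s : Finset ι) {c : ι → Θ → Z → ℝ} (h : ∀ i, GK μ (c i)) :
    GK μ fun t z => ∏ i ∈ s, c i t z := by
  classical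
  induction s using Finset.induction_on with
  | empty => exact ⟨by simpa using continuous_const, 1, by simp⟩
  | insert i s hi ih => simpa only [Finset.prod_insert hi] using (h i).mul ih

lemma GK.comp {Z' : Type} [TopologicalSpace Z'] (h : GK μ k) {g : Z' → Z} (hg : Continuous g) :
    GK μ fun t z => k t (g z) := by
  obtain ⟨h1, C, hC⟩ := h
  exact ⟨h1.comp (continuous_fst.prodMk (hg.comp continuous_snd)), C,
    hC.mono fun t a z => a _⟩

lemma GK.two [SFinite μ] (h : GK μ k) (h' : GK μ k') :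
    GK (μ.prod μ) fun t z => k t.1 z * k' t.2 z := by
  obtain ⟨h1, C, hC⟩ := h
  obtain ⟨h2, D, hD⟩ := h'
  refine GK.mul (k := fun (t : Θ × Θ) z => k t.1 z) (k' := fun (t : Θ × Θ) z => k' t.2 z)
    ⟨?_, C, ?_⟩ ⟨?_, D, ?_⟩
  · exact h1.comp (continuous_fst.fst.prodMk continuous_snd)
  · exact Measure.quasiMeasurePreserving_fst.ae hC
  · exact h2.comp (continuous_fst.snd.prodMk continuous_snd)
  · exact Measure.quasiMeasurePreserving_snd.ae hD

variable [OpensMeasurableSpace Θ] [IsFiniteMeasure μ]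

lemma GK.int (h : GK μ k) (z : Z) : Integrable (fun t => k t z) μ := by
  obtain ⟨h1, C, hC⟩ := h
  exact Integrable.of_bound
    (h1.comp (continuous_id.prodMk continuous_const)).measurable.aestronglyMeasurable C
    (hC.mono fun t a => a z)

lemma GK.gb [FirstCountableTopology Z] (h : GK μ k) : GB fun z => ∫ t, k t z ∂μ := by
  have h0 := h.int
  obtain ⟨h1, C, hC⟩ := h
  refine ⟨continuous_of_dominated (bound := fun _ => C) (fun z => (h0 z).1)
    (fun z => hC.mono fun t a => a z) (integrable_const C)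
    (ae_of_all _ fun t => h1.comp (continuous_const.prodMk continuous_id)), C * μ.real Set.univ,
    fun z => ?_⟩
  exact norm_integral_le_of_norm_le_const (f := fun t => k t z) (hC.mono fun t a => a z)

lemma GK.swap [SecondCountableTopology Z] [MeasurableSpace Z] [OpensMeasurableSpace Z]
    (h : GK μ k) (ρ : Measure Z) [IsFiniteMeasure ρ] :
    ∫ z, ∫ t, k t z ∂μ ∂ρ = ∫ t, ∫ z, k t z ∂ρ ∂μ := by
  obtain ⟨h1, C, hC⟩ := h
  refine (integral_integral_swap ?_).symm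
  exact Integrable.of_bound h1.measurable.aestronglyMeasurable C
    ((Measure.quasiMeasurePreserving_fst.ae hC).mono fun p a => a p.2)

end gk

lemma gt_cs (μ : Measure ℝ) (k : ℝ → ℝ) (h : ∀ t, 0 ≤ k t)
    (hi : ∀ j : ℕ, Integrable (fun t => t ^ j * k t) μ) :
    (∫ t, t ^ 1 * k t ∂μ) ^ 2 ≤ (∫ t, t ^ 0 * k t ∂μ) * ∫ t, t ^ 2 * k t ∂μ := by
  have h1 := discrim_le_zero (a := ∫ t, t ^ 0 * k t ∂μ) (b := 2 * ∫ t, t ^ 1 * k t ∂μ)
    (c := ∫ t, t ^ 2 * k t ∂μ) fun x => by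
      have h2 : 0 ≤ ∫ t, (t ^ 0 * k t * (x * x) + 2 * (t ^ 1 * k t) * x + t ^ 2 * k t) ∂μ :=
        integral_nonneg fun t => by
          have := mul_nonneg (sq_nonneg (x + t)) (h t)
          simp only [Pi.zero_apply]
          nlinarith
      have h3 : Integrable (fun t => t ^ 0 * k t * (x * x) + 2 * (t ^ 1 * k t) * x) μ :=
        ((hi 0).mul_const _).add (((hi 1).const_mul 2).mul_const _)
      rwa [integral_add h3 (hi 2),
        integral_add ((hi 0).mul_const _) (((hi 1).const_mul 2).mul_const _), integral_mul_const,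
        integral_mul_const, integral_const_mul] at h2
  rw [discrim] at h1
  nlinarith

/-- the tilt -/
noncomputable def gtf (t x : ℝ) : ℝ := √2 * Real.exp (2 * x * t - t ^ 2 - x ^ 2 / 2)

/-- the law of the parameter -/
noncomputable abbrev gtN : Measure ℝ := gaussianReal 0 (1 / 2)

/-- the truncated law of the parameter -/
noncomputable abbrev gtU (r : ℝ) : Measure ℝ := gtN.restrict (Set.Icc (-r) r)

lemma gtf_pos (t x : ℝ) : 0 < gtf t x := by unfold gtf; positivity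

lemma gtf_one (t : ℝ) : ∫ x, gtf t x ∂gtG = 1 := by
  rw [integral_gaussianReal_eq_integral_smul one_ne_zero,
    ← integral_gaussianPDFReal_eq_one t (v := 1 / 2) (by norm_num)]
  congr 1
  funext x
  have h1 : √(2 * Real.pi * ((1 : NNReal) : ℝ)) = √2 * √Real.pi := by
    rw [NNReal.coe_one, mul_one, Real.sqrt_mul (by norm_num)]
  have h2 : √(2 * Real.pi * ((1 / 2 : NNReal) : ℝ)) = √Real.pi := by
    congr 1; push_cast; ring
  have h3 : Real.exp (-(x - t) ^ 2 / (2 * ((1 / 2 : NNReal) : ℝ))) =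
      Real.exp (-(x - 0) ^ 2 / (2 * ((1 : NNReal) : ℝ))) *
        Real.exp (2 * x * t - t ^ 2 - x ^ 2 / 2) := by
    rw [← Real.exp_add]; congr 1; push_cast; ring
  simp only [gaussianPDFReal, gtf, smul_eq_mul, h1, h2, h3]
  field_simp

lemma gtf_two (x : ℝ) (f : ℝ → ℝ) :
    ∫ t, f t * gtf t x ∂gtN = ∫ t, f t ∂gaussianReal (x / 2) (1 / 4) := by
  rw [integral_gaussianReal_eq_integral_smul (by norm_num),
    integral_gaussianReal_eq_integral_smul (by norm_num)]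
  congr 1
  funext t
  have h0 : √2 * √2 = 2 := Real.mul_self_sqrt (by norm_num)
  have h1 : √(2 * Real.pi * ((1 / 4 : NNReal) : ℝ)) = √Real.pi / √2 := by
    rw [← Real.sqrt_div Real.pi_pos.le]; congr 1; push_cast; ring
  have h2 : √(2 * Real.pi * ((1 / 2 : NNReal) : ℝ)) = √Real.pi := by
    congr 1; push_cast; ring
  have h3 : Real.exp (-(t - x / 2) ^ 2 / (2 * ((1 / 4 : NNReal) : ℝ))) =
      Real.exp (-(t - 0) ^ 2 / (2 * ((1 / 2 : NNReal) : ℝ))) *
        Real.exp (2 * x * t - t ^ 2 - x ^ 2 / 2) := by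
    rw [← Real.exp_add]; congr 1; push_cast; ring
  simp only [gaussianPDFReal, gtf, smul_eq_mul, h1, h2, h3]
  field_simp

lemma gt_ae (r : ℝ) : ∀ᵐ t ∂gtU r, |t| ≤ r :=
  (ae_restrict_mem measurableSet_Icc).mono fun _ h => abs_le.2 h

lemma gtf_le {r t : ℝ} (h : |t| ≤ r) (x : ℝ) :
    gtf t x ≤ √2 * Real.exp (r ^ 2) * Real.exp (-(x - 2 * t) ^ 2 / 2) := by
  rw [gtf, mul_assoc √2, ← Real.exp_add]
  have h1 : t ^ 2 ≤ r ^ 2 := by rw [← sq_abs]; exact pow_le_pow_left₀ (abs_nonneg _) h 2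
  gcongr
  nlinarith

lemma gk_pow {Z : Type} [TopologicalSpace Z] (r : ℝ) (j : ℕ) :
    GK (gtU r) fun (t : ℝ) (_ : Z) => t ^ j := by
  refine ⟨by fun_prop, r ^ j, (gt_ae r).mono fun t h _ => ?_⟩
  rw [abs_pow]; exact pow_le_pow_left₀ (abs_nonneg _) h j

lemma gk_f (r : ℝ) : GK (gtU r) gtf := by
  refine ⟨by unfold gtf; fun_prop, √2 * Real.exp (r ^ 2), (gt_ae r).mono fun t h x => ?_⟩
  rw [abs_of_pos (gtf_pos t x)]
  refine (gtf_le h x).trans (mul_le_of_le_one_right (by positivity) ?_)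
  rw [Real.exp_le_one_iff]
  nlinarith [sq_nonneg (x - 2 * t)]

lemma gk_xf (r : ℝ) : GK (gtU r) fun t x => x * gtf t x := by
  refine ⟨by unfold gtf; fun_prop, (1 + 2 * r) * (√2 * Real.exp (r ^ 2)),
    (gt_ae r).mono fun t h x => ?_⟩
  rw [abs_mul, abs_of_pos (gtf_pos t x)]
  refine (mul_le_mul_of_nonneg_left (gtf_le h x) (abs_nonneg _)).trans ?_
  rw [mul_left_comm, mul_comm]
  refine mul_le_mul_of_nonneg_right ?_ (by positivity)
  have h1 : |x| ≤ |x - 2 * t| + 2 * r := by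
    have := abs_add_le (x - 2 * t) (2 * t)
    rw [abs_mul, abs_two, sub_add_cancel] at this
    linarith
  have h2 := Real.add_one_le_exp ((x - 2 * t) ^ 2 / 2)
  have h3 : 0 ≤ r := (abs_nonneg _).trans h
  rw [neg_div, Real.exp_neg, ← div_eq_mul_inv, div_le_iff₀ (Real.exp_pos _)]
  rw [← sq_abs] at h2 ⊢
  nlinarith [sq_nonneg (|x - 2 * t| - 1), abs_nonneg (x - 2 * t), sq_nonneg |x - 2 * t|,
    mul_nonneg h3 (sq_nonneg |x - 2 * t|), mul_le_mul_of_nonneg_left h2 h3]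

/-- the one dimensional mixtures -/
noncomputable def gtp (r : ℝ) (j : ℕ) (x : ℝ) : ℝ := ∫ t, t ^ j * gtf t x ∂gtU r

lemma gtp_eq (r : ℝ) (j : ℕ) (x : ℝ) :
    gtp r j x = ∫ t in Set.Icc (-r) r, t ^ j ∂gaussianReal (x / 2) (1 / 4) := by
  rw [gtp, ← integral_indicator measurableSet_Icc, ← integral_indicator measurableSet_Icc,
    ← gtf_two]
  congr 1
  funext t
  by_cases h : t ∈ Set.Icc (-r) r <;> simp [h]

lemma gtp_zero (r x : ℝ) : gtp r 0 x * gtp r 0 x ≤ 1 := by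
  rw [gtp_eq]
  simp only [pow_zero, integral_const, smul_eq_mul, mul_one]
  have h1 : ((gaussianReal (x / 2) (1 / 4)).restrict (Set.Icc (-r) r)).real Set.univ ≤ 1 := by
    rw [measureReal_restrict_apply_univ]; exact measureReal_le_one
  exact mul_le_one₀ h1 measureReal_nonneg h1

lemma gt_sq (m : ℝ) (v : NNReal) : ∫ t, t ^ 2 ∂gaussianReal m v = v + m ^ 2 := by
  have h := variance_eq_sub (memLp_id_gaussianReal (μ := m) (v := v) 2)
  rw [variance_id_gaussianReal] at h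
  simp only [id_eq, integral_id_gaussianReal, Pi.pow_apply] at h
  linarith

lemma gt_int_pow (m : ℝ) (v : NNReal) (j : ℕ) : Integrable (fun t => t ^ j) (gaussianReal m v) :=
  integrable_pow_of_mem_interior_integrableExpSet (X := fun x : ℝ => x) (by simp) _

lemma gtp_one (r x : ℝ) : gtp r 1 x * gtp r 1 x - x * gtp r 1 x ≤ 1 / 4 - gtp r 2 x := by
  rw [gtp_eq, gtp_eq]
  set ρ := gaussianReal (x / 2) (1 / 4) with hρ
  have h1 := integral_add_compl (s := Set.Icc (-r) r) measurableSet_Icc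
    (gt_int_pow (x / 2) (1 / 4) 1)
  have h2 := integral_add_compl (s := Set.Icc (-r) r) measurableSet_Icc
    (gt_int_pow (x / 2) (1 / 4) 2)
  have h3 := gt_cs (ρ.restrict (Set.Icc (-r) r)ᶜ) (fun _ => 1) (fun _ => zero_le_one)
    fun j => by simpa only [mul_one] using (gt_int_pow (x / 2) (1 / 4) j).restrict
  rw [gt_sq] at h2
  simp only [pow_one, integral_id_gaussianReal, mul_one, pow_zero, integral_const,
    smul_eq_mul] at h1 h3 ⊢
  have h4 : (ρ.restrict (Set.Icc (-r) r)ᶜ).real Set.univ ≤ 1 := by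
    rw [measureReal_restrict_apply_univ]; exact measureReal_le_one
  have h5 : 0 ≤ ∫ t in (Set.Icc (-r) r)ᶜ, t ^ 2 ∂ρ := integral_nonneg fun t => sq_nonneg t
  have h6 := h3.trans (mul_le_of_le_one_left h5 h4)
  rw [← hρ] at h1 h2
  push_cast at h2
  have h7 : ∫ t in Set.Icc (-r) r, t ∂ρ = x / 2 - ∫ t in (Set.Icc (-r) r)ᶜ, t ∂ρ := by linarith
  rw [h7]
  nlinarith

lemma gt_cut (η : ℝ) (hη : 0 < η) : ∃ r : ℝ, 1 - η ≤ ∫ t, t ^ 0 ∂gtU r ∧
    1 / 2 - η ≤ ∫ t, t ^ 2 ∂gtU r ∧ ∫ t, t ^ 2 ∂gtU r ≤ 1 / 2 := by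
  have hU : ⋃ n : ℕ, Set.Icc (-(n : ℝ)) n = Set.univ := by
    refine Set.eq_univ_of_forall fun t => ?_
    obtain ⟨n, hn⟩ := exists_nat_ge |t|
    exact Set.mem_iUnion.2 ⟨n, abs_le.1 hn⟩
  have h : ∀ j : ℕ, Tendsto (fun n : ℕ => ∫ t, t ^ j ∂gtU n) atTop (𝓝 (∫ t, t ^ j ∂gtN)) := by
    intro j
    have h1 := tendsto_setIntegral_of_monotone (μ := gtN) (f := fun t : ℝ => t ^ j)
      (s := fun n : ℕ => Set.Icc (-(n : ℝ)) n) (fun _ => measurableSet_Icc)
      (fun a b hab => Set.Icc_subset_Icc (by simpa using hab) (by simpa using hab))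
      (gt_int_pow _ _ j).integrableOn
    rwa [hU, Measure.restrict_univ] at h1
  have h0 : ∫ t : ℝ, t ^ 0 ∂gtN = 1 := by simp
  have h2 : ∫ t : ℝ, t ^ 2 ∂gtN = 1 / 2 := by rw [gt_sq]; simp
  obtain ⟨n, a, b⟩ := (((h 0).eventually (lt_mem_nhds (a := 1 - η) (by linarith))).and
    ((h 2).eventually (lt_mem_nhds (a := 1 / 2 - η) (by linarith)))).exists
  refine ⟨n, a.le, b.le, h2 ▸ ?_⟩
  exact setIntegral_le_integral (gt_int_pow _ _ 2) (ae_of_all _ fun t => sq_nonneg t)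

end SD
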