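import Pool.Agent.Lib.MP_ecee09_co.SD.GTb
import Pool.Agent.Lib.MP_ecee09_co.SD.GTc
import Pool.Agent.Lib.MP_ecee09_co.SD.Stmts

/-! The Gaussian test functions. -/

namespace SD

open MeasureTheory ProbabilityTheory Finset

lemma gt_split {I : Type} [Fintype I] (c : I) (A B : Finset I) (hA : c ∉ A) (hB : c ∉ B)
    (hAB : ∀ i ∈ A, i ∉ B) (h f g : ℝ → ℝ) (hf : ∫ x, f x ∂gtG = 1) (hg : ∫ x, g x ∂gtG = 1) :
    ∫ y, h (y c) * ((∏ i ∈ A, f (y i)) * ∏ i ∈ B, g (y i)) ∂gtP I = ∫ x, h x ∂gtG := by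
  classical
  have h1 : ∀ y : I → ℝ, h (y c) * ((∏ i ∈ A, f (y i)) * ∏ i ∈ B, g (y i)) =
      ∏ i, (if i = c then h (y i) else 1) *
        ((if i ∈ A then f (y i) else 1) * if i ∈ B then g (y i) else 1) := by
    intro y
    rw [Finset.prod_mul_distrib, Finset.prod_mul_distrib]
    simp
  simp only [h1]
  rw [integral_fintype_prod_eq_prod (fun i (x : ℝ) => (if i = c then h x else 1) *
    ((if i ∈ A then f x else 1) * if i ∈ B then g x else 1)), Finset.prod_eq_single c]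
  · simp [hA, hB]
  · intro i _ hi
    by_cases a : i ∈ A
    · simp [hi, a, hAB i a, hf]
    · by_cases b : i ∈ B <;> simp [hi, a, b, hg]
  · simp

/-- the test functions -/
noncomputable def gtS {T : Type} [Fintype T] (r : ℝ) (j : ℕ) (X : T → ℝ) : ℝ :=
  ∫ t, t ^ j * ∏ i, gtf t (X i) ∂gtU r

section two
variable {T I : Type} [Fintype T] [Fintype I] (o : T) {a b : T → I}

lemma gt_e2 (ha : Function.Injective a) (hb : Function.Injective b) (ho : a o = b o)
    (hab : ∀ t t', a t = b t' → t = o) (t s : ℝ) :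
    ∫ y, (∏ i, gtf t (y (a i))) * ∏ i, gtf s (y (b i)) ∂gtP I = ∫ x, gtf t x * gtf s x ∂gtG := by
  classical
  rw [← gt_split (a o) ((univ.erase o).image a) ((univ.erase o).image b) (by simp [ha.eq_iff])
    (by simp [ho, hb.eq_iff]) ?_ (fun x => gtf t x * gtf s x) (gtf t) (gtf s) (gtf_one t)
    (gtf_one s)]
  · congr 1
    funext y
    rw [Finset.prod_image ha.injOn, Finset.prod_image hb.injOn,
      ← Finset.mul_prod_erase univ _ (Finset.mem_univ o),
      ← Finset.mul_prod_erase univ (fun i => gtf s (y (b i))) (Finset.mem_univ o), ← ho]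
    ring
  · intro i h1 h2
    obtain ⟨u, hu, rfl⟩ := Finset.mem_image.1 h1
    obtain ⟨v, -, hv⟩ := Finset.mem_image.1 h2
    exact (Finset.mem_erase.1 hu).1 (hab u v hv.symm)

lemma gt_e1 (ha : Function.Injective a) (h : ℝ → ℝ) (t : ℝ) :
    ∫ y, h (y (a o)) * ∏ i, gtf t (y (a i)) ∂gtP I = ∫ x, h x * gtf t x ∂gtG := by
  classical
  rw [← gt_split (a o) ((univ.erase o).image a) ∅ (by simp [ha.eq_iff])
    (by simp) (by simp) (fun x => h x * gtf t x) (gtf t) (gtf t) (gtf_one t) (gtf_one t)]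
  congr 1
  funext y
  rw [Finset.prod_image ha.injOn, ← Finset.mul_prod_erase univ _ (Finset.mem_univ o),
    Finset.prod_empty]
  ring

omit [Fintype I] in
lemma gk_S (a : T → I) (r : ℝ) (j : ℕ) :
    GK (gtU r) fun t (y : I → ℝ) => t ^ j * ∏ i, gtf t (y (a i)) :=
  (gk_pow r j).mul (GK.prod _ fun i => (gk_f r).comp (continuous_apply (a i)))

omit [Fintype I] in
lemma gk_xS (a : T → I) (r : ℝ) (j : ℕ) :
    GK (gtU r) fun t (y : I → ℝ) => y (a o) * (t ^ j * ∏ i, gtf t (y (a i))) := by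
  classical
  have h := (gk_pow r j).mul (((gk_xf r).comp (continuous_apply (a o))).mul
    (GK.prod (univ.erase o) fun i => (gk_f r).comp (continuous_apply (A := fun _ => ℝ) (a i))))
  convert h using 3 with t y
  rw [← Finset.mul_prod_erase univ _ (Finset.mem_univ o)]
  ring

lemma gb_S (a : T → I) (r : ℝ) (j : ℕ) : GB fun y : I → ℝ => gtS r j (y ∘ a) := (gk_S a r j).gb

lemma gb_xS (a : T → I) (r : ℝ) (j : ℕ) : GB fun y : I → ℝ => y (a o) * gtS r j (y ∘ a) := by
  simpa only [integral_const_mul, gtS, Function.comp_apply] using (gk_xS o a r j).gb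

lemma gb_p (r : ℝ) (j : ℕ) : GB (gtp r j) := ((gk_pow r j).mul (gk_f r)).gb

lemma gk_xp (r : ℝ) (j : ℕ) : GK (gtU r) fun t x => x * (t ^ j * gtf t x) := by
  simpa only [mul_left_comm] using (gk_pow r j).mul (gk_xf r)

lemma gb_xp (r : ℝ) (j : ℕ) : GB fun x => x * gtp r j x := by
  simpa only [integral_const_mul, gtp] using (gk_xp r j).gb

lemma gt_f0 (r : ℝ) (j : ℕ) : ∫ x, gtp r j x ∂gtG = ∫ t, t ^ j ∂gtU r := by
  simp only [gtp]
  rw [((gk_pow r j).mul (gk_f r)).swap]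
  simp only [integral_const_mul, gtf_one, mul_one]

include o in
lemma gt_f1 (ha : Function.Injective a) (r : ℝ) (j : ℕ) :
    ∫ y, gtS r j (y ∘ a) ∂gtP I = ∫ t, t ^ j ∂gtU r := by
  simp only [gtS, Function.comp_apply]
  rw [(gk_S a r j).swap]
  have h := fun t => gt_e1 o ha (fun _ => 1) t
  simp only [one_mul] at h
  simp only [integral_const_mul, h, gtf_one, mul_one]

lemma gt_fx (ha : Function.Injective a) (r : ℝ) (j : ℕ) :
    ∫ y, y (a o) * gtS r j (y ∘ a) ∂gtP I = ∫ x, x * gtp r j x ∂gtG := by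
  simp only [gtS, gtp, Function.comp_apply, ← integral_const_mul]
  rw [(gk_xS o a r j).swap, (gk_xp r j).swap]
  congr 1
  funext t
  simp only [mul_left_comm _ (t ^ j), integral_const_mul]
  rw [gt_e1 o ha (fun x => x) t]

lemma gt_f2 (ha : Function.Injective a) (hb : Function.Injective b) (ho : a o = b o)
    (hab : ∀ t t', a t = b t' → t = o) (r : ℝ) (j : ℕ) :
    ∫ y, gtS r j (y ∘ a) * gtS r j (y ∘ b) ∂gtP I = ∫ x, gtp r j x * gtp r j x ∂gtG := by
  simp only [gtS, gtp, Function.comp_apply, ← integral_prod_mul]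
  rw [((gk_S a r j).two (gk_S b r j)).swap,
    (((gk_pow r j).mul (gk_f r)).two ((gk_pow r j).mul (gk_f r))).swap]
  congr 1
  funext t
  simp only [mul_mul_mul_comm (t.1 ^ j) _ (t.2 ^ j), integral_const_mul]
  rw [gt_e2 o ha hb ho hab]

lemma gt_g1 (ha : Function.Injective a) (hb : Function.Injective b) (ho : a o = b o)
    (hab : ∀ t t', a t = b t' → t = o) (r : ℝ) :
    ∫ y, (gtS r 0 (y ∘ a) - 1) * (gtS r 0 (y ∘ b) - 1) ∂gtP I ≤ 2 - 2 * ∫ t, t ^ 0 ∂gtU r := by
  have h1 : ∀ y : I → ℝ, (gtS r 0 (y ∘ a) - 1) * (gtS r 0 (y ∘ b) - 1) =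
      gtS r 0 (y ∘ a) * gtS r 0 (y ∘ b) - gtS r 0 (y ∘ a) - (gtS r 0 (y ∘ b) - 1) := fun y => by
    ring
  have A := gb_S a r 0
  have B := gb_S b r 0
  simp only [h1]
  rw [integral_sub (((A.mul B).sub A).int _) ((B.sub (GB.const 1)).int _),
    integral_sub ((A.mul B).int _) (A.int _), integral_sub (B.int _) (integrable_const _),
    gt_f2 o ha hb ho hab, gt_f1 o ha, gt_f1 o hb]
  have h2 := integral_mono (((gb_p r 0).mul (gb_p r 0)).int gtG) (integrable_const 1) (gtp_zero r)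
  simp only [integral_const, probReal_univ, smul_eq_mul, mul_one] at h2 ⊢
  linarith

lemma gt_g2 (ha : Function.Injective a) (hb : Function.Injective b) (ho : a o = b o)
    (hab : ∀ t t', a t = b t' → t = o) (r : ℝ) :
    ∫ y, (gtS r 1 (y ∘ a) * gtS r 1 (y ∘ b) - 1 / 2 * (y (a o) * gtS r 1 (y ∘ a)) -
      1 / 2 * (y (b o) * gtS r 1 (y ∘ b))) ∂gtP I ≤ 1 / 4 - ∫ t, t ^ 2 ∂gtU r := by
  have A := (gb_S a r 1).mul (gb_S b r 1)
  have B := (GB.const (1 / 2)).mul (gb_xS o a r 1)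
  have C := (GB.const (1 / 2)).mul (gb_xS o b r 1)
  rw [integral_sub ((A.sub B).int _) (C.int _), integral_sub (A.int _) (B.int _),
    integral_const_mul, integral_const_mul, gt_f2 o ha hb ho hab, gt_fx o ha, gt_fx o hb]
  have D := (gb_p r 1).mul (gb_p r 1)
  have h2 := integral_mono ((D.sub (gb_xp r 1)).int gtG)
    (((GB.const (1 / 4)).sub (gb_p r 2)).int gtG) (gtp_one r)
  rw [integral_sub (D.int _) ((gb_xp r 1).int _),
    integral_sub (integrable_const _) ((gb_p r 2).int _), gt_f0] at h2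
  simp only [integral_const, probReal_univ, smul_eq_mul, one_mul] at h2
  linarith

end two

lemma gt_inv {T : Type} [Fintype T] (r : ℝ) (j : ℕ) : Inv2 (gtS (T := T) r j) := by
  intro X X' h1 h2
  have h : ∀ (t : ℝ) (X : T → ℝ), ∏ i, gtf t (X i) = √2 ^ Fintype.card T *
      Real.exp (2 * (∑ i, X i) * t - Fintype.card T * t ^ 2 - (∑ i, X i ^ 2) / 2) := by
    intro t X
    simp only [gtf, Finset.prod_mul_distrib, Finset.prod_const, Finset.card_univ, ← Real.exp_sum,
      Finset.sum_sub_distrib, Finset.sum_const, nsmul_eq_mul, Finset.mul_sum, Finset.sum_mul,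
      Finset.sum_div]
  simp only [gtS, h, h1, h2]

theorem gt : GT := by
  classical
  refine ⟨1 / 2, by norm_num, fun T _ o η hη => ?_⟩
  obtain ⟨r, r0, r2, r2'⟩ := gt_cut (η / 4) (by linarith)
  let I : Type := T ⊕ {t : T // t ≠ o}
  let a : T → I := Sum.inl
  let b : T → I := fun t => if h : t = o then Sum.inl o else Sum.inr ⟨t, h⟩
  have ha : Function.Injective a := Sum.inl_injective
  have hb : Function.Injective b := by
    intro t t' h
    by_cases h1 : t = o <;> by_cases h2 : t' = o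
    · rw [h1, h2]
    · simp [b, I, h1, h2] at h
    · simp [b, I, h1, h2] at h
    · simpa [b, I, h1, h2] using h
  have ho : a o = b o := by simp [a, b]
  have hab : ∀ t t', a t = b t' → t = o := by
    intro t t' h
    by_cases h2 : t' = o
    · simpa [a, b, I, h2] using h
    · simp [a, b, I, h2] at h
  obtain ⟨c1, C1, b1⟩ := ((gb_S a r 0).sub (GB.const 1)).mul ((gb_S b r 0).sub (GB.const 1))
  obtain ⟨c2, C2, b2⟩ := (((gb_S a r 1).mul (gb_S b r 1)).sub
    ((GB.const (1 / 2)).mul (gb_xS o a r 1))).sub ((GB.const (1 / 2)).mul (gb_xS o b r 1))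
  obtain ⟨c3, C3, b3⟩ := gb_S a r 2
  obtain ⟨-, C, b0⟩ := gb_S (id : T → T) r 0
  obtain ⟨R1, δ1, p1, t1⟩ := gt_trans _ c1 C1 b1 (η / 2) (by linarith)
  obtain ⟨R2, δ2, p2, t2⟩ := gt_trans _ c2 C2 b2 (η / 4) (by linarith)
  obtain ⟨R3, δ3, p3, t3⟩ := gt_trans _ c3 C3 b3 (1 / 2) (by linarith)
  have hk : ∀ (X : T → ℝ) (t : ℝ), 0 ≤ ∏ i, gtf t (X i) := fun X t =>
    Finset.prod_nonneg fun i _ => (gtf_pos _ _).le
  refine ⟨gtS r 0, gtS r 1, gtS r 2, C, R1 + R2 + R3 + 2, min (min δ1 δ2) (min δ3 η),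
    by positivity, gt_inv r 0, gt_inv r 1, gt_inv r 2,
    fun X => integral_nonneg fun t => mul_nonneg (by simp) (hk X t),
    fun X => (le_abs_self _).trans (b0 X),
    fun X => integral_nonneg fun t => mul_nonneg (sq_nonneg t) (hk X t),
    fun X => gt_cs _ _ (hk X) fun j => (gk_S (id : T → T) r j).int X, ?_⟩
  intro Ω L _ _ Y e1 e2 i1 i2 eo e12 hm
  let j : I → L := Sum.elim e1 fun t => e2 t.1
  have hj : Function.Injective j := by
    rintro (t | t) (t' | t') h
    · exact congrArg _ (i1 h)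
    · have h1 := e12 _ _ h
      subst h1
      exact absurd (i2 (eo.symm.trans h)).symm t'.2
    · have h1 := e12 _ _ h.symm
      subst h1
      exact absurd (i2 (eo.symm.trans h.symm)).symm t.2
    · exact congrArg _ (Subtype.ext (i2 h))
  have ja : ∀ w, (fun i => Y w (j i)) ∘ a = Y w ∘ e1 := fun w => rfl
  have jb : ∀ w, (fun i => Y w (j i)) ∘ b = Y w ∘ e2 := fun w => by
    funext t
    by_cases h : t = o
    · simp [j, b, h, eo]
    · simp [j, b, h]
  have hm' : ∀ R' : ℕ, R' ≤ R1 + R2 + R3 + 2 → ∀ l : Fin R' → I,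
      |(av fun w => ∏ r, Y w (j (l r))) - pm l| ≤ min (min δ1 δ2) (min δ3 η) := fun R' h l => by
    rw [← gt_pm_comp j hj l]; exact hm R' h _
  have s1 := t1 Ω (fun w i => Y w (j i)) fun R' h l =>
    (hm' R' (by omega) l).trans ((min_le_left _ _).trans (min_le_left _ _))
  have s2 := t2 Ω (fun w i => Y w (j i)) fun R' h l =>
    (hm' R' (by omega) l).trans ((min_le_left _ _).trans (min_le_right _ _))
  have s3 := t3 Ω (fun w i => Y w (j i)) fun R' h l =>
    (hm' R' (by omega) l).trans ((min_le_right _ _).trans (min_le_left _ _))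
  have s4 := (hm' 2 (by omega) fun _ => a o).trans ((min_le_right _ _).trans (min_le_right _ _))
  have s5 : pm (fun _ : Fin 2 => a o) = 1 := by
    have h := gt_split (a o) ∅ ∅ (by simp) (by simp) (by simp) (fun x => x ^ 2) (gtf 0) (gtf 0)
      (gtf_one 0) (gtf_one 0)
    rw [gt_sq] at h
    rw [gt_pm_eq]
    simpa using h
  rw [s5] at s4
  simp only [ja, jb, ← ho] at s1 s2 s3
  have g1 := gt_g1 o ha hb ho hab r
  have g2 := gt_g2 o ha hb ho hab r
  rw [gt_f1 o ha] at s3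
  simp only [← ho] at g2
  refine ⟨by linarith, ?_, by linarith⟩
  have h5 : ∀ w, (gtS r 1 (Y w ∘ e1) - 1 / 2 * Y w (e1 o)) *
      (gtS r 1 (Y w ∘ e2) - 1 / 2 * Y w (e1 o)) =
      (gtS r 1 (Y w ∘ e1) * gtS r 1 (Y w ∘ e2) - 1 / 2 * (Y w (j (a o)) * gtS r 1 (Y w ∘ e1)) -
        1 / 2 * (Y w (j (a o)) * gtS r 1 (Y w ∘ e2))) +
        1 / 4 * ∏ _r : Fin 2, Y w (j (a o)) := fun w => by
    have : j (a o) = e1 o := rfl
    rw [this, Fin.prod_univ_two]; ring
  rw [av_congr h5, av_add, av_mul_left]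
  linarith [(abs_le.1 s4).2]

end SD
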