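import Pool.Agent.Lib.MP_ecee09_co.SD.HC

/-! The hierarchy case. -/

namespace SD

open Module

section pi
variable {ρ r : ℕ} {W W' : Type} [AddCommGroup W] [Module F W] [AddCommGroup W'] [Module F W']

/-- combinations of a tuple with coefficients `l j` -/
def hhPi (l : Fin r → Fk ρ) (w : Fin ρ → W) : Fin r → W := fun j => ∑ i, l j i • w i

lemma hhPi_add (l : Fin r → Fk ρ) (w w' : Fin ρ → W) : hhPi l (w + w') = hhPi l w + hhPi l w' := by
  funext j; simp [hhPi, Finset.sum_add_distrib]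

lemma hhPi_zero (l : Fin r → Fk ρ) : hhPi l (0 : Fin ρ → W) = 0 := by funext j; simp [hhPi]

lemma hhPi_map (l : Fin r → Fk ρ) (Φ : W →ₗ[F] W') (w : Fin ρ → W) (j : Fin r) :
    Φ (hhPi l w j) = hhPi l (fun i => Φ (w i)) j := by simp [hhPi, map_sum]

lemma hhPi_surj {l : Fin r → Fk ρ} (hl : LinearIndependent F l) :
    Function.Surjective (hhPi l : (Fin ρ → W) → Fin r → W) := by
  obtain ⟨s, hs⟩ := (Fintype.linearCombination F l).exists_leftInverse_of_injective
    (LinearMap.ker_eq_bot.2 hl.fintypeLinearCombination_injective)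
  intro w
  refine ⟨fun i => ∑ j, s (Pi.single i 1) j • w j, funext fun j => ?_⟩
  have h1 : s (l j) = Pi.single j 1 := by
    have := LinearMap.congr_fun hs (Pi.single j 1)
    simpa using this
  have h2 : ∀ j', ∑ i, l j i * s (Pi.single i 1) j' = (Pi.single j 1 : Fk r) j' := by
    intro j'
    rw [← h1]
    conv_rhs => rw [pi_eq_sum_univ' (l j)]
    simp [map_sum]
  simp only [hhPi, Finset.smul_sum, smul_smul]
  rw [Finset.sum_comm]
  simp only [← Finset.sum_smul, h2]
  simp [Pi.single_apply]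

lemma hhPi_li {l : Fin r → Fk ρ} (hl : LinearIndependent F l) {w : Fin ρ → W}
    (hw : LinearIndependent F w) : LinearIndependent F (hhPi l w) := by
  rw [Fintype.linearIndependent_iff] at *
  intro a ha
  refine hl a (funext fun i => ?_)
  simp only [hhPi, Finset.smul_sum, smul_smul] at ha
  rw [Finset.sum_comm] at ha
  simp only [← Finset.sum_smul] at ha
  simpa using hw _ ha i

end pi

section part
variable {ρ r : ℕ} {U V : Type} [AddCommGroup U] [Module F U] [AddCommGroup V] [Module F V]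

/-- the parent of a particle -/
def hhPar (l : Fin r → Fk ρ) (p : Pt ρ V) : Pt r V := (hhPi l p.1, hhPi l p.2)

/-- the projection of tagged points -/
def hhL (l : Fin r → Fk ρ) (x : Gam ρ V) : Gam r V := (x.1, hhPi l x.2)

lemma hhL_add (l : Fin r → Fk ρ) (x y : Gam ρ V) : hhL l (x + y) = hhL l x + hhL l y :=
  Prod.ext rfl (hhPi_add l _ _)

lemma hhL_surj {l : Fin r → Fk ρ} (hl : LinearIndependent F l) :
    Function.Surjective (hhL l : Gam ρ V → Gam r V) := fun y => by
  obtain ⟨w, hw⟩ := hhPi_surj hl y.2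
  exact ⟨(y.1, w), Prod.ext rfl hw⟩

lemma hhL_gpush (l : Fin r → Fk ρ) (Φ : U →ₗ[F] V) (B : Gam ρ U) :
    hhL l (gpush Φ B) = gpush Φ (hhL l B) :=
  Prod.ext rfl (funext fun j => (hhPi_map l Φ B.2 j).symm)

lemma hh_red {l : Fin r → Fk ρ} (hl : LinearIndependent F l) {p : Pt ρ V} {Φ : U →ₗ[F] V}
    (h : ¬ Red p Φ) : ¬ Red (hhPar l p) Φ := by
  refine not_not.2 ?_
  have e : (fun i => ((hhPar l p).1 i).comp Φ) = hhPi l fun i => (p.1 i).comp Φ :=
    funext fun j => hhPi_map l Φ.dualMap p.1 j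
  rw [e]
  exact hhPi_li hl (not_not.1 h)

variable [Finite V]

lemma hh_resid (l : Fin r → Fk ρ) (ε : Fk ρ) (p : Pt ρ V) (x : Gam ρ V) :
    resid (hhPi l ε) (hhPar l p) (hhL l x) = hhPi l (resid ε p x) := by
  funext j
  have := hhPi_map l (hcMv x.1) p.1 j
  simp only [hcMv_apply] at this
  simp only [resid, hhPar, hhL, this]
  simp only [hhPi, resid, smul_add, Finset.sum_add_distrib, Finset.sum_smul, smul_assoc]

lemma hh_resid_iff (ε : Fk ρ) (p : Pt ρ V) (M : G V) (β : Fin ρ → V) :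
    resid ε p (M, β) = 0 ↔ β = resid ε p (M, 0) := by
  rw [← add_eq_zero2 (x := β)]
  refine Eq.congr_left (funext fun i => ?_)
  simp only [resid, Pi.add_apply, Pi.zero_apply]; abel

lemma hh_cond (l : Fin r → Fk ρ) (ε : Fk ρ) (p : Pt ρ V) (y : Gam r V) :
    cond (hhL l) (fun x => ind (resid ε p x = 0)) y =
      DP V r / DP V ρ * ind (resid (hhPi l ε) (hhPar l p) y = 0) := by
  obtain ⟨M', β'⟩ := y
  have e : ∀ M : G V, (av fun β : Fin ρ → V =>
      ind (hhL l (M, β) = (M', β')) * ind (resid ε p (M, β) = 0)) =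
      ind (M = M') * (ind (resid (hhPi l ε) (hhPar l p) (M, β') = 0) / DP V ρ) := by
    intro M
    simp only [hh_resid_iff ε p M, mul_comm (ind (hhL l _ = _))]
    rw [av_ind_eq (resid ε p (M, 0)) fun β => ind (hhL l (M, β) = (M', β')), hc_card_fun,
      ← mul_div_assoc, ← ind_and]
    congr 1
    refine ind_congr ?_
    have h0 := hh_resid l ε p (M, 0)
    simp only [hhL, hhPi_zero] at h0
    rw [hh_resid_iff, h0, hhL, Prod.mk.injEq, eq_comm (a := β')]
  rw [cond, av_prod]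
  simp only [e]
  rw [av_ind_eq M' fun M => ind (resid (hhPi l ε) (hhPar l p) (M, β') = 0) / DP V ρ,
    Nat.card_prod, Nat.cast_mul, hc_card_fun]
  have := card_pos' (α := G V)
  field_simp

/-- normalised number of children -/
noncomputable def hhM (l : Fin r → Fk ρ) (P : Set (Pt ρ V)) (p' : Pt r V) : ℝ :=
  DP V r / DP V ρ * sm fun p => ind (hhPar l p = p') * ind (p ∈ P)

lemma hhM_nonneg (l : Fin r → Fk ρ) (P : Set (Pt ρ V)) (p' : Pt r V) : 0 ≤ hhM l P p' :=
  mul_nonneg (div_pos (hc_DP_pos _) (hc_DP_pos _)).le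
    (sm_nonneg fun _ => mul_nonneg (ind_nonneg _) (ind_nonneg _))

lemma hh_cond_NN (l : Fin r → Fk ρ) (ε : Fk ρ) (P : Set (Pt ρ V)) (y : Gam r V) :
    cond (hhL l) (NN ε P) y = sm fun p' => hhM l P p' * ind (resid (hhPi l ε) p' y = 0) := by
  have e : cond (hhL l) (NN ε P) y =
      sm fun p => ind (p ∈ P) * cond (hhL l) (fun x => ind (resid ε p x = 0)) y := by
    simp only [cond, NN, ← sm_mul_left, ind_and]
    rw [av_sm_comm, ← sm_mul_left]
    refine sm_congr fun p => ?_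
    rw [mul_left_comm, ← av_mul_left (ind (p ∈ P))]
    congr 1
    exact av_congr fun x => by ring
  rw [e, sm_fiber (hhPar l)]
  refine sm_congr fun p' => ?_
  rw [hhM, mul_assoc, ← sm_mul_right, ← sm_mul_left]
  refine sm_congr fun p => ?_
  rw [hh_cond]
  by_cases h : hhPar l p = p'
  · rw [h]; ring
  · rw [ind_neg h]; ring

lemma hh_mass (l : Fin r → Fk ρ) (P : Set (Pt ρ V)) (S : Set (Pt r V)) :
    cnt {p | p ∈ P ∧ hhPar l p ∈ S} / DP V ρ =
      (sm fun p' => ind (p' ∈ S) * hhM l P p') / DP V r := by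
  have h1 := hc_DP_pos (V := V) r
  have h2 := hc_DP_pos (V := V) ρ
  rw [cnt, sm_fiber (hhPar l), ← sm_div, ← sm_div]
  refine sm_congr fun p' => ?_
  have e : (sm fun p => ind (hhPar l p = p') * ind (p ∈ {p | p ∈ P ∧ hhPar l p ∈ S})) =
      ind (p' ∈ S) * sm fun p => ind (hhPar l p = p') * ind (p ∈ P) := by
    rw [← sm_mul_left]
    refine sm_congr fun p => ?_
    by_cases h : hhPar l p = p'
    · rw [Set.mem_ofPred_eq, ind_and, h]; ring
    · rw [ind_neg h]; ring
  rw [e, hhM]; field_simp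

lemma hh_coll (l : Fin r → Fk ρ) (P : Set (Pt ρ V)) (DD : Submodule F (Fk ρ))
    (hr : finrank F DD = r) (hl : ∀ j, l j ∈ DD) :
    coll P DD ≤ (sm fun p' => hhM l P p' ^ 2) / DP V r := by
  have h1 := hc_DP_pos (V := V) r
  have h2 := hc_DP_pos (V := V) ρ
  have h3 : DP V (2 * ρ) = DP V ρ ^ 2 := by unfold DP; rw [mul_comm, pow_mul]
  have e : (sm fun p => sm fun p' => ind (p ∈ P ∧ p' ∈ P ∧ ∀ l ∈ DD, comb l p = comb l p')) ≤
      sm fun q => (sm fun p => ind (hhPar l p = q) * ind (p ∈ P)) ^ 2 := by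
    rw [sm_fiber (hhPar l)]
    refine sm_mono fun q => ?_
    rw [sq, sm_mul_sm]
    refine sm_mono fun p => ?_
    rw [← sm_mul_left]
    refine sm_mono fun p' => ?_
    simp only [← ind_and]
    refine ind_mono ?_
    rintro ⟨h, hp, hp', hc⟩
    refine ⟨⟨h, hp⟩, ?_, hp'⟩
    rw [← h]
    exact Prod.ext (funext fun j => (congrArg Prod.fst (hc _ (hl j))).symm)
      (funext fun j => (congrArg Prod.snd (hc _ (hl j))).symm)
  rw [coll, hr, h3]
  refine (mul_le_mul_of_nonneg_left e (by positivity)).trans (le_of_eq ?_)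
  simp only [hhM, mul_pow, sm_mul_left]
  field_simp

lemma hh_cube {D : ℕ → ℝ} {l : Fin r → Fk ρ} (hl : LinearIndependent F l) {ε : Fk ρ}
    {P : Set (Pt ρ V)} (hP : Tame D (NN ε P)) :
    (sm fun p' => hhM l P p' ^ 3) / DP V r ≤ D 3 := by
  refine le_trans ?_ (hP.cond (hhL l) (hhL_add l) (hhL_surj hl) 3)
  have e : (sm fun p' => hhM l P p' ^ 3) / DP V r =
      av fun y => sm fun p' => hhM l P p' ^ 3 * ind (resid (hhPi l ε) p' y = 0) := by
    rw [av_sm_comm, ← sm_div]
    exact sm_congr fun p' => by rw [av_mul_left, hc_present]; ring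
  rw [e]
  refine av_mono fun y => ?_
  have h0 : ∀ p', 0 ≤ hhM l P p' * ind (resid (hhPi l ε) p' y = 0) :=
    fun p' => mul_nonneg (hhM_nonneg l P p') (ind_nonneg _)
  rw [hh_cond_NN, abs_of_nonneg (sm_nonneg h0), pow_succ, ← sm_mul_left]
  refine sm_mono fun p' => ?_
  have h1 := pow_le_pow_left₀ (h0 p') (single_le_sm h0 p') 2
  refine le_trans (le_of_eq ?_) (mul_le_mul_of_nonneg_right h1 (h0 p'))
  by_cases h : resid (hhPi l ε) p' y = 0
  · rw [ind_pos h]; ring
  · rw [ind_neg h]; ring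

lemma hh_solve {l : Fin r → Fk ρ} (hl : LinearIndependent F l) (ε : Fk ρ) (P : Set (Pt ρ V))
    (S : Set (Pt r V)) {k : ℕ} {η : ℝ} (h : Solve (hhPi l ε) S k η) :
    Solve ε {p | p ∈ P ∧ hhPar l p ∈ S} k η := by
  obtain ⟨A, hj, hb⟩ := h
  refine ⟨hcLift A (hhL l) (hhL_add l) id (hhL l) (hhL_add l) (hhL_surj hl) (hhL_gpush l),
    le_trans ?_ hj, le_trans ?_ hb⟩
  · exact hcLift_le A _ _ (hhL_surj hl) _ _ _ _ _ _ _ fun _ _ => le_rfl
  · refine hcLift_le A _ _ (hhL_surj hl) _ _ _ _ _ _ _ fun x Φ => ?_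
    unfold bad
    rw [← av_surj (hhL l) (hhL_add l) (hhL_surj hl)]
    refine av_mono fun B => ind_mono ?_
    rintro ⟨p, hp, hr, hn⟩
    refine ⟨hhPar l p, hp.2, ?_, hh_red hl hn⟩
    rw [← hhL_gpush, ← hhL_add, hh_resid]
    exact (congrArg (hhPi l) hr).trans (hhPi_zero l)

end part

theorem hh_of (ρ : ℕ) (h : ∀ r, 1 ≤ r → r < ρ → RP r) : HH ρ := by
  intro ε D η1 hη1
  set c := η1 ^ 2 / (6 * (|D 3| + 1)) with hc
  set th := η1 / (3 * (|D 1| + 1)) with hth
  have hc0 : 0 < c := by positivity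
  have hth0 : 0 < th := by positivity
  refine ⟨c, hc0, fun k η hη => ?_⟩
  have hη' : 0 < min η (c ^ 2 / (|D 2| + 1)) := by positivity
  have hex : ∀ s : (Σ r : Fin ρ, Fk r), ∃ n0 : ℕ, 1 ≤ s.1.1 →
      ∀ (V : Type) [AddCommGroup V] [Module F V] [Finite V], n0 ≤ finrank F V →
        ∀ P : Set (Pt s.1 V), Tame (fun p => D p / th ^ p) (NN s.2 P) →
          Solve s.2 P k (min η (c ^ 2 / (|D 2| + 1))) := by
    intro s
    by_cases h1 : 1 ≤ s.1.1
    · obtain ⟨n0, h0⟩ := h s.1 h1 s.1.2 s.2 _ k _ hη'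
      exact ⟨n0, fun _ => h0⟩
    · exact ⟨0, fun h2 => absurd h2 h1⟩
  choose n hn using hex
  obtain ⟨n0, hn0⟩ := (Set.finite_range n).bddAbove
  refine ⟨n0, fun V _ _ _ hV P hP DD hb ht hco => ?_⟩
  have hr : finrank F DD < ρ := by simpa using Submodule.finrank_lt ht
  have hr1 : 1 ≤ finrank F DD := by
    rw [Nat.one_le_iff_ne_zero]; exact fun h0 => hb (Submodule.finrank_eq_zero.1 h0)
  set l : Fin (finrank F DD) → Fk ρ := fun j => (Module.finBasis F DD j : Fk ρ) with hl0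
  have hl : LinearIndependent F l :=
    (Module.finBasis F DD).linearIndependent.map' DD.subtype DD.ker_subtype
  have hN := hc_DP_pos (V := V) (finrank F DD)
  set S : Set (Pt (finrank F DD) V) := {p' | th ≤ hhM l P p'} with hS
  have hs := hn ⟨⟨_, hr⟩, hhPi l ε⟩ hr1 V ((hn0 ⟨_, rfl⟩).trans hV) S (by
    intro p
    rw [le_div_iff₀ (by positivity), ← av_mul_right]
    refine le_trans (av_mono fun y => ?_) (hP.cond (hhL l) (hhL_add l) (hhL_surj hl) p)
    rw [← abs_of_pos hth0, ← mul_pow, ← abs_mul]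
    refine pow_le_pow_left₀ (abs_nonneg _) ?_ p
    rw [abs_of_nonneg (mul_nonneg (hc_NN_nonneg _ _ _) hth0.le)]
    refine le_trans ?_ (le_abs_self _)
    rw [hh_cond_NN, NN, ← sm_mul_right]
    refine sm_mono fun p' => ?_
    by_cases hp : p' ∈ S
    · rw [ind_and, ind_pos hp, one_mul, mul_comm]
      exact mul_le_mul_of_nonneg_right hp (ind_nonneg _)
    · rw [ind_and, ind_neg hp, zero_mul, zero_mul]
      exact mul_nonneg (hhM_nonneg _ _ _) (ind_nonneg _))
  rw [abs_of_nonneg (hP.nonneg 2)] at hs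
  refine hc_drop hc0 ε P _ k hP (fun p hp => hp.1) ?_ (hh_solve hl ε P S hs)
  rw [hh_mass]
  have h1 : (sm fun p' => hhM l P p') / DP V (finrank F DD) ≤ D 1 := by
    have := hh_mass l P Set.univ
    simp only [Set.mem_univ, and_true, Set.ofPred_mem_eq, ind_pos trivial, one_mul] at this
    rw [← this]; exact hc_av_NN_le hP
  have h2 := hco.trans (hh_coll l P DD rfl fun j => (Module.finBasis F DD j).2)
  have h3 := hh_cube hl hP
  have hD1 := hP.nonneg 1
  have hD3 := hP.nonneg 3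
  rw [abs_of_nonneg hD3] at hc
  rw [abs_of_nonneg hD1] at hth
  set s := (D 3 + 1) / η1 with hs0
  have hs1 : 0 < s := by positivity
  have h4 : (sm fun p' => hhM l P p' ^ 2) ≤ th * (sm fun p' => hhM l P p') +
      (s * (sm fun p' => ind (p' ∈ S) * hhM l P p') +
        1 / (4 * s) * sm fun p' => hhM l P p' ^ 3) := by
    rw [← sm_mul_left, ← sm_mul_left, ← sm_mul_left, ← sm_add, ← sm_add]
    refine sm_mono fun p' => ?_
    have hm := hhM_nonneg l P p'
    by_cases hp : p' ∈ S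
    · rw [ind_pos hp]
      have : 0 ≤ hhM l P p' * (hhM l P p' - 2 * s) ^ 2 / (4 * s) := by positivity
      have e : hhM l P p' * (hhM l P p' - 2 * s) ^ 2 / (4 * s) =
          s * (1 * hhM l P p') + 1 / (4 * s) * hhM l P p' ^ 3 - hhM l P p' ^ 2 := by
        field_simp; ring
      have := mul_nonneg hth0.le hm
      linarith
    · rw [ind_neg hp]
      have h5 : hhM l P p' ≤ th := (not_le.1 hp).le
      have : 0 ≤ 1 / (4 * s) * hhM l P p' ^ 3 := by positivity
      nlinarith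
  have h5 := div_le_div_of_nonneg_right h4 hN.le
  rw [add_div, add_div, mul_div_assoc, mul_div_assoc, mul_div_assoc] at h5
  have h6 : th * D 1 ≤ η1 / 3 := by
    rw [hth, div_mul_eq_mul_div, div_le_div_iff₀ (by positivity) (by norm_num)]; nlinarith
  have h7 : 1 / (4 * s) * D 3 ≤ η1 / 4 := by
    rw [hs0, show 1 / (4 * ((D 3 + 1) / η1)) * D 3 = η1 * D 3 / (4 * (D 3 + 1)) by field_simp,
      div_le_div_iff₀ (by positivity) (by norm_num)]
    nlinarith
  have h8 := mul_le_mul_of_nonneg_left h1 hth0.le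
  have h9 := mul_le_mul_of_nonneg_left h3 (by positivity : 0 ≤ 1 / (4 * s))
  have h10 : s * (2 * c) = η1 / 3 := by rw [hs0, hc]; field_simp; ring
  refine le_of_mul_le_mul_left ?_ hs1
  linarith

end SD
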