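import Pool.Agent.Lib.MP_ecee09_co.SD.LFe
import Pool.Agent.Lib.MP_ecee09_co.SD.Stmts

/-! Lattice freeze (LF). -/

namespace SD.Lf

open Module

lemma exists_pow (A η : ℝ) (hη : 0 < η) : ∃ n : ℕ, ∀ m, n ≤ m → A / 2 ^ m ≤ η := by
  obtain ⟨n, hn⟩ := pow_unbounded_of_one_lt (A / η) (by norm_num : (1 : ℝ) < 2)
  refine ⟨n, fun m hm => ?_⟩
  have h1 : (2 : ℝ) ^ n ≤ 2 ^ m := pow_le_pow_right₀ (by norm_num) hm
  rw [div_lt_iff₀ hη] at hn
  rw [div_le_iff₀ (by positivity)]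
  nlinarith

/-- some window of a monotone sequence is rarely hit -/
lemma pigeon {Ω I : Type} [Finite Ω] [Finite I] (q : I → Ω → ℕ) (R : ℕ → ℕ) (hR : Monotone R)
    (T : ℕ) (hT : 0 < T) :
    ∃ i < T, av (fun w => ind (∃ j, R i < q j w ∧ q j w ≤ R (i + 1))) ≤ Nat.card I / T := by
  have h1 : ∀ (x n : ℕ), ∑ i ∈ Finset.range n, ind (R i < x ∧ x ≤ R (i + 1)) ≤ ind (x ≤ R n) := by
    intro x n
    induction n with
    | zero => simpa using ind_nonneg _
    | succ n ih =>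
      rw [Finset.sum_range_succ]
      have := hR (Nat.le_succ n)
      by_cases hx : x ≤ R n
      · rw [ind_neg (p := R n < x ∧ x ≤ R (n + 1)) fun h => by omega, add_zero]
        exact ih.trans (ind_mono fun h => h.trans this)
      · rw [ind_neg hx] at ih
        have := ind_mono (p := R n < x ∧ x ≤ R (n + 1)) (q := x ≤ R (n + 1)) fun h => h.2
        linarith
  have h2 : ∑ i ∈ Finset.range T, av (fun w => ind (∃ j, R i < q j w ∧ q j w ≤ R (i + 1))) ≤
      Nat.card I := by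
    rw [← av_sum]
    have h3 : ∀ w, ∑ i ∈ Finset.range T, ind (∃ j, R i < q j w ∧ q j w ≤ R (i + 1)) ≤
        (Nat.card I : ℝ) * 1 := by
      intro w
      refine (Finset.sum_le_sum fun i _ => ind_exists_le _).trans ?_
      rw [← sm_sum, ← sm_const]
      exact sm_mono fun j => (h1 _ _).trans (ind_le_one _)
    refine (av_mono h3).trans ?_
    rw [av_mul_left]
    exact mul_le_of_le_one_right (Nat.cast_nonneg _) av_one_le
  by_contra hc
  have h4 : ∑ _i ∈ Finset.range T, (Nat.card I : ℝ) / T <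
      ∑ i ∈ Finset.range T, av (fun w => ind (∃ j, R i < q j w ∧ q j w ≤ R (i + 1))) :=
    Finset.sum_lt_sum_of_nonempty ⟨0, Finset.mem_range.2 hT⟩ fun i hi =>
      not_le.1 fun h => hc ⟨i, Finset.mem_range.1 hi, h⟩
  rw [Finset.sum_const, Finset.card_range, nsmul_eq_mul, mul_div_cancel₀ _ (by positivity)] at h4
  linarith

lemma step (ρ C' k R0 : ℕ) (η : ℝ) (hη : 0 < η) (R : ℕ) : ∃ Fb n0 : ℕ, R ≤ Fb ∧
    ∀ (V : Type) [AddCommGroup V] [Module F V] [Finite V], n0 ≤ finrank F V →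
      ∀ H : Submodule F (Pt ρ V), finrank F H ≤ C' + finrank F (Fin ρ → V) → R0 ≤ R →
        av (fun M => ind (∃ j, R < qq H j M ∧ qq H j M ≤ Fb)) ≤ η / 4 →
        ∃ A : GFam k V,
          (A.E fun M Φ => ind (¬ (Function.Injective Φ ∧ (Fr H M Φ ∨ High H R0 M Φ)))) ≤ η := by
  obtain ⟨ε, hε, hε1, hε2⟩ : ∃ ε : ℝ, 0 < ε ∧ ε ≤ 1 ∧ 4 * ε ≤ η / 4 :=
    ⟨min 1 (η / 16), by positivity, min_le_left _ _, by linarith [min_le_right 1 (η / 16)]⟩
  obtain ⟨s, hs⟩ : ∃ s, s = Fintype.card (JJ ρ) * Fintype.card (Fin k) := ⟨_, rfl⟩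
  have hP := card_pos' (α := Fin k → Fin k → JJ ρ → F)
  have hδ : 0 < ε / 3 / Nat.card (Fin k → Fin k → JJ ρ → F) := by positivity
  obtain ⟨F', hF'⟩ := exists_pow (2 ^ cN (JJ ρ) (Fin k) R (R + s) * (Nat.card (G (Fk k)) *
    (Nat.card (Fin k → Fin k → JJ ρ → F) * (2 ^ cN (JJ ρ) (Fin k) R (R + s) /
      (ε / 3 / Nat.card (Fin k → Fin k → JJ ρ → F)) ^ 2)))) (η / 4) (by positivity)
  obtain ⟨n0, hn0⟩ := exists_pow (2 ^ cN (JJ ρ) (Fin k) R (R + s) * 2 ^ k) (η / 4) (by positivity)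
  refine ⟨F' + s + (R + 2 * s) + (R + ρ * k) + ρ * (2 * R + C'), n0, by omega, ?_⟩
  intro V _ _ _ hn H hH hR hw
  have hK : (0 : ℝ) ≤ (1 + ε) ^ 2 := by positivity
  obtain ⟨A, hA⟩ := Fam.ofDens (fun (Φ : Hom k V) (B : G (Fk k)) => push Φ B) id 0 push_zero
    (psi H R (R + s) ((1 + ε) ^ 2)) (psi_nonneg hK) psi_shift av_psi_le
  refine ⟨A, ?_⟩
  rw [hA]
  simp only [id, psi_supp hR, av_zero, zero_add]
  refine le_trans (av_mono fun M => (mul_le_of_le_one_right (sub_nonneg.2 (av_psi_le M))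
    (ind_le_one _)).trans (loss (F' := F')
      (Fb := F' + s + (R + 2 * s) + (R + ρ * k) + ρ * (2 * R + C')) hε.le hε1 hs (by omega)
      (by omega) (by omega) (by omega) hH M)) ?_
  rw [av_add, av_add, av_const, av_mul_left, av_add, av_const]
  have h1 := hn0 _ hn
  have h2 := hF' _ le_rfl
  have h3 := noninj (k := k) (V := V)
  have h4 : (av fun M : G V => av fun Φ : Hom k V => sm fun B => ind (BadW H R (R + s) F'
      (ε / 3 / Nat.card (Fin k → Fin k → JJ ρ → F)) (M + push Φ B) Φ)) ≤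
      Nat.card (G (Fk k)) * (Nat.card (Fin k → Fin k → JJ ρ → F) *
        (2 ^ cN (JJ ρ) (Fin k) R (R + s) /
          (ε / 3 / Nat.card (Fin k → Fin k → JJ ρ → F)) ^ 2) / 2 ^ F') := by
    rw [av_comm]
    have e : ∀ Φ : Hom k V, (av fun M : G V => sm fun B => ind (BadW H R (R + s) F'
        (ε / 3 / Nat.card (Fin k → Fin k → JJ ρ → F)) (M + push Φ B) Φ)) =
        Nat.card (G (Fk k)) * av fun M : G V => ind (BadW H R (R + s) F'
          (ε / 3 / Nat.card (Fin k → Fin k → JJ ρ → F)) M Φ) := by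
      intro Φ
      rw [av_sm_comm, ← sm_const]
      exact sm_congr fun B => av_add_right (fun M : G V => ind (BadW H R (R + s) F'
        (ε / 3 / Nat.card (Fin k → Fin k → JJ ρ → F)) M Φ)) _
    simp only [e]
    rw [av_mul_left, av_comm]
    exact mul_le_mul_of_nonneg_left (av_le_const fun M => av_BadW hδ M) (Nat.cast_nonneg _)
  have hc : (0 : ℝ) ≤ 2 ^ cN (JJ ρ) (Fin k) R (R + s) := by positivity
  have h5 := mul_le_mul_of_nonneg_left h3 hc
  have h6 := mul_le_mul_of_nonneg_left h4 hc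
  rw [mul_div_assoc] at h1
  rw [mul_div_assoc, mul_div_assoc] at h2
  rw [mul_add ((2 : ℝ) ^ cN (JJ ρ) (Fin k) R (R + s))]
  linarith

end SD.Lf

namespace SD

open Module Lf

theorem lf : LF := by
  intro ρ C k R0 η hη
  obtain ⟨C', hC'⟩ := pow_unbounded_of_one_lt C (by norm_num : (1 : ℝ) < 2)
  choose Fb n0 h using step ρ C' k R0 η hη
  let R : ℕ → ℕ := fun i => Fb^[i] R0
  have hRs : ∀ i, R (i + 1) = Fb (R i) := fun i => Function.iterate_succ_apply' _ _ _
  have hR : Monotone R := monotone_nat_of_le_succ fun i => by rw [hRs]; exact (h _).1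
  obtain ⟨T, hT⟩ := exists_nat_gt ((Nat.card (Option (JJ ρ → F)) : ℝ) / (η / 4))
  have hT0 : (0 : ℝ) < T := lt_of_le_of_lt (by positivity) hT
  refine ⟨∑ i ∈ Finset.range T, n0 (R i), ?_⟩
  intro V _ _ _ hn H hH
  obtain ⟨i, hi, hw⟩ := pigeon (qq H) R hR T (by exact_mod_cast hT0)
  rw [hRs] at hw
  refine (h (R i)).2 V (le_trans ?_ hn) H ?_ (hR (Nat.zero_le i)) (hw.trans ?_)
  · exact Finset.single_le_sum (f := fun i => n0 (R i)) (fun _ _ => Nat.zero_le _)
      (Finset.mem_range.2 hi)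
  · have h2 : DP V ρ = 2 ^ finrank F (Fin ρ → V) := by
      have := card_eq_pow (X := Fin ρ → V)
      rw [Nat.card_fun, Nat.card_eq_fintype_card (α := Fin ρ), Fintype.card_fin] at this
      rw [DP]; exact_mod_cast this
    rw [h2, card_eq_pow] at hH
    push_cast at hH
    have h3 : (2 : ℝ) ^ finrank F H ≤ 2 ^ (C' + finrank F (Fin ρ → V)) := by
      rw [pow_add]
      exact hH.trans (mul_le_mul_of_nonneg_right hC'.le (by positivity))
    exact (pow_le_pow_iff_right₀ (by norm_num)).1 h3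
  · rw [div_lt_iff₀ (by positivity)] at hT
    rw [div_le_iff₀ hT0]
    linarith

end SD
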