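import Pool.Agent.Lib.MP_ecee09_co.SD.HC

/-! The lattice case. -/

namespace SD

open Module

lemma lg_energy_le {X : Type} [Add X] [Finite X] (A : Set X) : energy A ≤ cnt A ^ 3 := by
  have e : cnt A ^ 3 = sm fun a => sm fun b => sm fun c =>
      ind (a ∈ A) * (ind (b ∈ A) * ind (c ∈ A)) := by
    simp only [sm_mul_left, sm_mul_right]
    unfold cnt; ring
  rw [e]
  refine sm_mono fun a => sm_mono fun b => sm_mono fun c => ?_
  rw [← ind_and, ← ind_and]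
  exact ind_mono fun h => ⟨h.1, h.2.1, h.2.2.1⟩

theorem lg_of (hBF : BF) (hLZ : LZ) (ρ : ℕ) (hρ : 1 ≤ ρ) : LG ρ := by
  intro ε D η1 hη1
  set D1 := max (D 1) 1 with hD1
  have hD : 0 < D1 := lt_of_lt_of_le one_pos (le_max_right _ _)
  obtain ⟨C, hC, hB⟩ := hBF (η1 / D1 ^ 3) (by positivity)
  set c := η1 / (2 * C * D1 ^ 2) with hc
  have hc0 : 0 < c := by positivity
  refine ⟨c, hc0, fun k η hη => ?_⟩
  have hD2 : 0 < |D 2| + 1 := by positivity
  obtain ⟨n0, h0⟩ := hLZ ρ ε (C * D1) k (min η (c ^ 2 / (|D 2| + 1))) (by positivity)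
  refine ⟨n0, fun V _ _ _ hV P hP hE => ?_⟩
  have hN := hc_DP_pos (V := V) ρ
  have h3 : DP V (3 * ρ) = DP V ρ ^ 3 := by unfold DP; rw [mul_comm, pow_mul]
  have hle : cnt P ≤ D1 * DP V ρ := by
    have := (hc_av_NN_le hP).trans (le_max_left (D 1) 1)
    rwa [div_le_iff₀ hN] at this
  have hP0 := cnt_nonneg P
  have hlow : η1 * DP V ρ ^ 3 ≤ cnt P ^ 3 := by rw [← h3]; exact hE.trans (lg_energy_le P)
  have hne : P.Nonempty := by
    by_contra hn
    rw [Set.not_nonempty_iff_eq_empty] at hn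
    have : cnt P = 0 := by rw [hn, cnt_eq_ncard]; simp
    rw [this] at hlow
    have : 0 < η1 * DP V ρ ^ 3 := by positivity
    linarith
  obtain ⟨H, hH1, hH2⟩ := hB (Pt ρ V) P hne (by
    refine le_trans ?_ hE
    rw [h3, div_mul_eq_mul_div, div_le_iff₀ (by positivity), mul_assoc, ← mul_pow,
      mul_comm (DP V ρ)]
    exact mul_le_mul_of_nonneg_left (pow_le_pow_left₀ hP0 hle 3) hη1.le)
  obtain ⟨A, hj, hA⟩ := h0 V hV H (hH1.trans (by
    rw [mul_assoc]; exact mul_le_mul_of_nonneg_left hle hC.le))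
  refine hc_drop hc0 ε P (P ∩ H) k hP Set.inter_subset_left ?_ ⟨A, ?_, ?_⟩
  · have h1 : η1 * DP V ρ ≤ D1 ^ 2 * cnt P := by
      have h2 : cnt P ^ 3 ≤ (D1 * DP V ρ) ^ 2 * cnt P := by
        rw [pow_succ]; exact mul_le_mul_of_nonneg_right (pow_le_pow_left₀ hP0 hle 2) hP0
      have h4 : η1 * DP V ρ * DP V ρ ^ 2 ≤ D1 ^ 2 * cnt P * DP V ρ ^ 2 := by nlinarith
      exact le_of_mul_le_mul_right h4 (by positivity)
    rw [le_div_iff₀ hN, hc]
    have h5 : 2 * (η1 / (2 * C * D1 ^ 2)) * DP V ρ = η1 * DP V ρ / (C * D1 ^ 2) := by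
      field_simp
    rw [h5, div_le_iff₀ (by positivity)]
    nlinarith [mul_le_mul_of_nonneg_left hH2 (sq_nonneg D1)]
  · rwa [abs_of_nonneg (hP.nonneg 2)] at hj
  · rw [abs_of_nonneg (hP.nonneg 2)] at hA
    refine le_trans (hc_mono A fun x Φ => av_mono fun B => ind_mono ?_) hA
    rintro ⟨p, hp, hr, hn⟩
    exact ⟨p, hp.2, hr, ⟨0, hρ⟩, (not_not.1 hn).ne_zero ⟨0, hρ⟩⟩

end SD
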