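import Pool.Agent.Lib.MP_ecee09_co.SD.LPb
import Pool.Agent.Lib.MP_ecee09_co.SD.Base
import Pool.Agent.Lib.MP_ecee09_co.SD.Stmts

/-! (LP): moments of the top projection. -/

namespace SD

open Finset Module

section
variable {V : Type} [AddCommGroup V] [Module F V] [Finite V]

/-- the eigenvalue of `chi Q` for the average over shifts by `ev x` -/
noncomputable def lpLam (Q : QF V) : ℝ := av fun x : V => sg (Q x)

omit [Finite V] in
theorem lp_map_add (Q : QF V) (x y : V) : Q (x + y) = Q x + Q y + QuadraticMap.polar Q x y := by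
  rw [QuadraticMap.polar]; abel

theorem lpLam_not_clean {Q : QF V} (h : ¬ Clean Q) : lpLam Q = 0 := by
  unfold Clean at h
  push Not at h
  obtain ⟨y, hy, hQ⟩ := h
  have h1 : Q y = 1 := (F_cases _).resolve_left hQ
  have h2 := av_add_right (fun x : V => sg (Q x)) y
  simp only [lp_map_add, hy, add_zero, sg_add, h1, sg_one, av_mul_right] at h2
  unfold lpLam
  linarith

theorem lpLam_sq_clean {Q : QF V} (h : Clean Q) : lpLam Q ^ 2 = (1 / 2) ^ rank Q := by
  have h1 : lpLam Q ^ 2 = av fun y : V => ind (y ∈ Q.radical) := by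
    rw [sq, lpLam, av_mul_av]
    have e : ∀ x : V, (av fun y : V => sg (Q x) * sg (Q y)) =
        av fun y : V => sg (Q y) * sg (QuadraticMap.polar Q x y) := by
      intro x
      rw [← av_add_left (fun y : V => sg (Q x) * sg (Q y)) x]
      refine av_congr fun y => ?_
      rw [lp_map_add, sg_add, sg_add, ← mul_assoc, ← mul_assoc, sg_mul_self, one_mul]
    simp only [e]
    rw [av_comm]
    refine av_congr fun y => ?_
    rw [av_mul_left, av_sg (fun x => QuadraticMap.polar Q x y)
      fun a b => QuadraticMap.polar_add_left Q a b y]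
    by_cases hy : ∀ x, QuadraticMap.polar Q x y = 0
    · rw [ind_pos hy, h y hy, sg_zero, one_mul, ind_pos]
      refine QuadraticMap.mem_radical_iff'.2 ⟨h y hy, fun n => ?_⟩
      rw [add_comm, lp_map_add, h y hy, hy, add_zero, add_zero]
    · rw [ind_neg hy, mul_zero, ind_neg]
      intro hr
      obtain ⟨a, b⟩ := QuadraticMap.mem_radical_iff'.1 hr
      exact hy fun x => by rw [QuadraticMap.polar, add_comm, b, a, sub_self, sub_zero]
  have h2 : sm (fun y : V => ind (y ∈ Q.radical)) = Nat.card Q.radical :=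
    cnt_eq_card (Q.radical : Set V)
  have h3 := Submodule.finrank_quotient_add_finrank Q.radical
  rw [h1, av_def, h2, card_eq_pow, card_eq_pow (X := V), ← h3, rank]
  push_cast
  rw [pow_add, one_div_pow]
  field_simp

theorem lp_rank_le (Q : QF V) : rank Q ≤ finrank F V := Submodule.finrank_quotient_le _

theorem lp_inv (h : G V → ℝ) (M : G V) : sm (fun Q => coef h Q * chi Q M) = h M :=
  pair_inv (fun (M : G V) (Q : QF V) => M Q) (fun _ _ _ => rfl) (fun M => M.map_add)
    (fun _ hM => LinearMap.ext hM) card_dual h M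

theorem lp_orth (a : QF V → ℝ) :
    av (fun M : G V => (sm fun Q => a Q * chi Q M) ^ 2) = sm fun Q => a Q ^ 2 := by
  have e : ∀ M : G V, (sm fun Q => a Q * chi Q M) ^ 2 =
      sm fun Q => sm fun Q' => a Q * a Q' * sg (M (Q + Q')) := by
    intro M
    rw [sq, sm_mul_sm]
    refine sm_congr fun Q => sm_congr fun Q' => ?_
    rw [map_add, sg_add, chi, chi]; ring
  simp only [e]
  rw [av_sm_comm]
  refine sm_congr fun Q => ?_
  rw [av_sm_comm]
  simp only [av_mul_left, av_sg_dual, add_eq_zero2, mul_assoc]
  rw [sm_mul_left, sq]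
  congr 1
  simp only [mul_comm (a _)]
  exact sm_ind_eq' Q a

/-- average over shifts by `ev x` -/
noncomputable def lpT (g : G V → ℝ) (M : G V) : ℝ := av fun x : V => g (M + ev x)

theorem lpT_char (a : QF V → ℝ) :
    lpT (fun M => sm fun Q => a Q * chi Q M) = fun M => sm fun Q => lpLam Q * a Q * chi Q M := by
  funext M
  rw [lpT, av_sm_comm]
  refine sm_congr fun Q => ?_
  have e : ∀ x : V, a Q * chi Q (M + ev x) = a Q * chi Q M * sg (Q x) := fun x => by
    rw [chi, chi, LinearMap.add_apply, sg_add, mul_assoc]; rfl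
  simp only [e]
  rw [av_mul_left, lpLam]; ring

theorem lpT_mom (q : ℕ) (g : G V → ℝ) :
    av (fun M => |lpT g M| ^ q) ≤ av fun M => |g M| ^ q :=
  (av_mono fun _ => abs_av_pow_le _ q).trans (av_shift (fun M => |g M| ^ q) ev).le

end

theorem lp : LP := by
  intro J p
  rcases p with _ | r
  · refine ⟨1, zero_le_one, fun V _ _ _ h => ?_⟩
    simp only [pow_zero, mul_zero, av_const]; norm_num
  obtain ⟨C, hC, H⟩ := lp_mult J r
  refine ⟨C, hC, fun V _ _ _ h => ?_⟩
  let _ := Fintype.ofFinite (G V)
  let _ := Fintype.ofFinite (QF V)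
  have hc : (0 : ℝ) < Fintype.card (G V) := by exact_mod_cast Fintype.card_pos
  have key := H (G V) (QF V) chi (fun g => lpT (lpT g)) (fun Q => lpLam Q ^ 2) rank Clean
    (finrank F V) (coef h) (fun Q => ind (Top J Q))
    (fun a => by
      have := lp_orth a
      simp only [av_eq, sm_eq] at this
      rw [← this]; field_simp)
    (fun a => by
      simp only [← sm_eq]
      rw [lpT_char, lpT_char]
      funext M
      exact sm_congr fun Q => by ring)
    (fun q g => by
      have := (lpT_mom q (lpT g)).trans (lpT_mom q g)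
      simp only [av_eq] at this
      exact (div_le_div_iff_of_pos_right hc).1 this)
    (fun Q hQ => lpLam_sq_clean hQ) (fun Q hQ => by simp [lpLam_not_clean hQ]) lp_rank_le
    (fun Q hQ => ind_pos hQ) (fun Q hQ => ind_neg hQ)
  simp only [← sm_eq, lp_inv] at key
  simp only [proj, av_def, Nat.card_eq_fintype_card]
  rw [div_le_iff₀ hc]
  refine key.trans_eq ?_
  field_simp

end SD
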