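import Pool.Agent.Lib.MP_ecee09_co.SD.Part
import Pool.Agent.Lib.MP_ecee09_co.SD.Stmts

/-! (LZ) from the lattice freeze (LF). -/

namespace SD

open Module

theorem lz_cond {X Y : Type} [AddCommGroup X] [Finite X] [AddCommGroup Y] [Finite Y]
    (g : X × Y → ℝ) (x : X) : cond Prod.fst g x = av fun y => g (x, y) := by
  rw [cond, av_prod]
  simp only [av_mul_left]
  rw [av_ind_eq x fun x' => av fun y => g (x', y)]
  have := card_pos' (α := X)
  field_simp

theorem lz_ker (k ρ : ℕ) (v : Fin ρ → Dual F (Fk (k + ρ))) :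
    ∃ Ψ : Hom k (Fk (k + ρ)), Function.Injective Ψ ∧ ∀ i, (v i).comp Ψ = 0 := by
  have h1 := (LinearMap.pi v).finrank_range_add_finrank_ker
  have h2 := Submodule.finrank_le (LinearMap.range (LinearMap.pi v))
  rw [finrank_Fk] at h1 h2
  obtain ⟨Φ, hΦ⟩ := exists_inj (X := LinearMap.ker (LinearMap.pi v)) (k := k) (by omega)
  refine ⟨(Submodule.subtype _).comp Φ, (Submodule.injective_subtype _).comp hΦ, fun i => ?_⟩
  refine LinearMap.ext fun y => ?_
  exact congrFun (LinearMap.mem_ker.1 (Φ y).2) i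

section
variable {ρ : ℕ} {U V : Type} [AddCommGroup U] [Module F U] [AddCommGroup V] [Module F V]
  [Finite U] [Finite V]

theorem lz_cand {ε : Fk ρ} {p : Pt ρ V} {x : Gam ρ V} {Φ : U →ₗ[F] V} {B : Gam ρ U}
    (h : resid ε p (x + gpush Φ B) = 0) (i : Fin ρ) : resid ε p x i ∈ LinearMap.range Φ := by
  have := congrFun h i
  rw [resid_gpush] at this
  exact ⟨_, (add_eq_zero2.1 this).symm⟩

omit [Finite U] in
theorem lz_choice (k : ℕ) (ε : Fk ρ) (H : Submodule F (Pt ρ V)) (x : Gam ρ V)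
    (Φ : Hom (k + ρ) V) : ∃ Ψ : Hom k (Fk (k + ρ)), Function.Injective Ψ ∧
      (Fr H x.1 Φ → ∀ p ∈ H, (∀ i, resid ε p x i ∈ LinearMap.range Φ) →
        ∀ i, (p.1 i).comp (Φ.comp Ψ) = 0) := by
  by_cases h : ∃ p ∈ H, ∀ i, resid ε p x i ∈ LinearMap.range Φ
  · obtain ⟨p0, h0, h1⟩ := h
    obtain ⟨Ψ, a, b⟩ := lz_ker k ρ fun i => (p0.1 i).comp Φ
    refine ⟨Ψ, a, fun hF p hp hc i => ?_⟩
    have e := hF (p + p0) (H.add_mem hp h0) (fun j => by
      rw [← resid_add_resid ε p p0 x]; exact Submodule.add_mem _ (hc j) (h1 j)) i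
    rw [Prod.fst_add, Pi.add_apply, LinearMap.add_comp, add_eq_zero2] at e
    rw [← LinearMap.comp_assoc, e, b]
  · obtain ⟨Ψ, a, -⟩ := lz_ker k ρ 0
    exact ⟨Ψ, a, fun _ p hp hc => absurd ⟨p, hp, hc⟩ h⟩

omit [Finite U] in
theorem lz_high {ε : Fk ρ} {H : Submodule F (Pt ρ V)} {R0 : ℕ} {M : G V} {Φ : U →ₗ[F] V}
    (h : High H R0 M Φ) (B : Gam ρ U) :
    (av fun β : Fin ρ → V => ind (∃ p ∈ H, resid ε p ((M, β) + gpush Φ B) = 0)) ≤ (1 / 2) ^ R0 := by
  have h1 := h B.1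
  have e : ∀ β : Fin ρ → V, ind (∃ p ∈ H, resid ε p ((M, β) + gpush Φ B) = 0) =
      ind (β + (fun i => Φ (B.2 i) + ε i • dg (M + push Φ B.1)) ∈
        TM (M + push Φ B.1) '' (H : Set (Pt ρ V))) := by
    intro β
    refine ind_congr (exists_congr fun p => and_congr_right fun _ => ?_)
    rw [funext_iff, funext_iff]
    refine forall_congr' fun i => ?_
    rw [resid_eq, Pi.zero_apply, add_eq_zero2, Pi.add_apply, ← add_assoc]
    rfl
  simp only [e]
  rw [av_add_right fun β : Fin ρ → V => ind (β ∈ TM (M + push Φ B.1) '' (H : Set (Pt ρ V))),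
    av_def, ← DP_eq, div_le_iff₀ (DP_pos ρ), one_div_pow, one_div_mul_eq_div,
    le_div_iff₀ (by positivity)]
  exact h1

end

theorem lz_of (h : LF) : LZ := by
  intro ρ ε C k η hη
  obtain ⟨R0, hR⟩ := exists_pow_lt_of_lt_one (half_pos hη) (show (1 / 2 : ℝ) < 1 by norm_num)
  obtain ⟨n0, h⟩ := h ρ C (k + ρ) R0 (η / 2) (half_pos hη)
  refine ⟨n0, fun V _ _ _ hV H hH => ?_⟩
  obtain ⟨A0, h0⟩ := h V hV H hH
  obtain ⟨A1, h1⟩ := Fam.lift
    (a := fun (Φ : Hom (k + ρ) V) (B : Gam ρ (Fk (k + ρ))) => gpush Φ B) A0 Prod.fst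
    (fun _ _ => rfl) id Prod.fst (fun _ _ => rfl) Prod.fst_surjective fun _ _ => rfl
  choose Ψ hΨ hF using lz_choice k ε H
  obtain ⟨A2, h2⟩ := Fam.refine (a := fun (Φ : Hom k V) (B : Gam ρ (Fk k)) => gpush Φ B) A1
    (fun x Φ => Φ.comp (Ψ x Φ)) (fun x Φ => gpush (Ψ x Φ)) (fun Φ => (gpush Φ).map_add)
    fun _ _ _ => rfl
  refine ⟨A2, ?_, ?_⟩
  · rw [Fam.junk, h2, h1]
    refine le_trans (A0.mono fun M Φ => ?_) (h0.trans (half_le_self hη.le))
    rw [lz_cond]
    refine av_le_const fun β => av_le_const fun B => ind_mono fun hn hc => hn ?_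
    exact hc.1.comp (hΨ _ _)
  · rw [h2, h1]
    refine le_trans (A0.mono (g := fun M Φ =>
      ind (¬ (Function.Injective Φ ∧ (Fr H M Φ ∨ High H R0 M Φ))) + (1 / 2) ^ R0)
      fun M Φ => ?_) ?_
    swap
    · rw [A0.add, A0.const]; linarith
    rw [lz_cond]
    have p0 : (0 : ℝ) ≤ (1 / 2) ^ R0 := by positivity
    by_cases hc : Function.Injective Φ ∧ (Fr H M Φ ∨ High H R0 M Φ)
    · rw [ind_neg (not_not.2 hc), zero_add]
      rcases hc.2 with hc | hc
      · refine av_le_const fun β => av_le_const fun B => av_le_const fun B' => ?_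
        rw [ind_neg]
        · exact p0
        · rintro ⟨p, hp, r, i, hi⟩
          rw [gpush_comp, id, add_assoc, ← map_add] at r
          exact hi (hF (M, β) Φ hc p hp (lz_cand r) i)
      · refine le_trans (av_mono (g := fun β : Fin ρ → V => av fun B : Gam ρ (Fk (k + ρ)) =>
          ind (∃ p ∈ H, resid ε p ((M, β) + gpush Φ B) = 0)) fun β => ?_) ?_
        · rw [← av_shift (fun B : Gam ρ (Fk (k + ρ)) =>
            ind (∃ p ∈ H, resid ε p ((M, β) + gpush Φ B) = 0)) (gpush (Ψ (M, β) Φ))]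
          refine av_mono fun B => av_mono fun B' => ind_mono ?_
          rintro ⟨p, hp, r, -⟩
          rw [gpush_comp, id, add_assoc, ← map_add] at r
          exact ⟨p, hp, r⟩
        · rw [av_comm]
          exact av_le_const fun B => lz_high hc B
    · rw [ind_pos hc]
      refine le_add_of_le_of_nonneg ?_ p0
      exact av_le_const fun β => av_le_const fun B => av_ind_le_one _

end SD
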