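import Pool.Agent.Lib.MP_ecee09_co.SD.Quad
import Pool.Agent.Lib.MP_ecee09_co.SD.Stmts

/-! RSTEP implies FULL. -/

namespace SD

open Module

section
variable {V : Type} [AddCommGroup V] [Module F V] [Finite V] {J k k' : ℕ}

omit [Finite V] in
theorem loop_mono {h : G V → ℝ} {η η' b b' : ℝ} (H : Drop J h k η b) (h1 : η ≤ η') (h2 : b ≤ b') :
    Drop J h k η' b' := by
  obtain ⟨A, a1, a2⟩ := H
  exact ⟨A, a1.trans h1, a2.trans h2⟩

theorem loop_triv {h : G V → ℝ} (hs : Spec (CJ J) h) (hk : k ≤ finrank F V) :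
    Drop J h k 0 (en (Top J) h) := by
  obtain ⟨Φ, hΦ⟩ := exists_inj hk
  obtain ⟨A, hA⟩ := Fam.triv (fun (Φ : Hom k V) (B : G (Fk k)) => push Φ B) Φ
  refine ⟨A, ?_, ?_⟩
  · rw [Fam.junk, hA, ind_neg (not_not.2 hΦ), av_zero]
  · rw [Fam.drop A hs]
    exact sub_le_self _ (A.pos _ fun _ _ => en_nonneg _ _)

theorem loop_comp (Θ : ℝ → ℝ) {h : G V → ℝ} (hs : Spec (CJ J) h) {η η' b α β γ : ℝ} (hα : 0 ≤ α)
    (H : Drop J h k' η' b)
    (H' : ∀ g : G (Fk k') → ℝ, Spec (CJ J) g →
      Drop J g k η (α * en (Top J) g + β * av (fun B => Θ (g B)) + γ)) :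
    Drop J h k (η' + η) (α * b + β * av (fun M => Θ (h M)) + γ) := by
  obtain ⟨A, a1, a2⟩ := H
  choose S s1 s2 using fun (x : G V) (Φ : Hom k' V) => H' (res h x Φ) (hs.res_cj x Φ)
  obtain ⟨A', e, j⟩ := A.gcomp S
  refine ⟨A', j.trans (add_le_add a1 (A.le_const s1)), ?_⟩
  rw [e]
  simp only [← res_res]
  refine (A.mono s2).trans ?_
  rw [A.add, A.add, A.smul, A.smul, A.const]
  have : (A.E fun x Φ => av fun B => Θ (res h x Φ B)) = av fun M => Θ (h M) :=
    A.marg fun M => Θ (h M)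
  rw [this]
  gcongr

end

/-- every function with spectrum in `CJ J` on a large space has a family with the given bound -/
def LoopOK (Θ : ℝ → ℝ) (J k : ℕ) (η α β γ : ℝ) : Prop :=
  ∃ n0 : ℕ, ∀ (V : Type) [AddCommGroup V] [Module F V] [Finite V], n0 ≤ finrank F V →
    ∀ h : G V → ℝ, Spec (CJ J) h →
      Drop J h k η (α * en (Top J) h + β * av (fun M => Θ (h M)) + γ)

theorem loop_contr {J : ℕ} (hR : RSTEP J) (Θ : ℝ → ℝ) (h0 : ∀ t, 0 ≤ Θ t)
    (hC : ∀ p : ℕ, ∃ C : ℝ, 0 ≤ C ∧ ∀ t, |t| ^ p ≤ C * Θ t) (a m : ℝ) (ha : 0 < a) (hm : 0 < m) :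
    ∃ b : ℝ, 0 < b ∧ b ≤ 1 / 2 ∧ ∀ (k : ℕ) (η : ℝ), 0 < η →
      LoopOK Θ J k η (1 - b) (b * a) (b * m) := by
  choose C hC0 hC using hC
  set lam : ℝ := 2 * (C 4 + 1) / a with hlam
  have hC4 := hC0 4
  have hlam0 : 0 < lam := by positivity
  set L : ℝ := 2 * lam / a with hL
  have hL0 : 0 < L := by positivity
  obtain ⟨cG, hcG, hR⟩ := hR (fun p => C p * L) m hm
  have hP : 0 < C 2 * L + 1 := by have := hC0 2; positivity
  refine ⟨min (1 / 2) (cG / (C 2 * L + 1)), lt_min (by norm_num) (by positivity), min_le_left _ _,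
    fun k η hη => ?_⟩
  have b0 : 0 < min (1 / 2) (cG / (C 2 * L + 1)) := lt_min (by norm_num) (by positivity)
  have b1 : min (1 / 2) (cG / (C 2 * L + 1)) ≤ 1 / 2 := min_le_left _ _
  have b2 : min (1 / 2) (cG / (C 2 * L + 1)) * (C 2 * L + 1) ≤ cG :=
    (le_div_iff₀ hP).1 (min_le_right _ _)
  generalize min (1 / 2) (cG / (C 2 * L + 1)) = b at b0 b1 b2 ⊢
  obtain ⟨cS, hcS, hR⟩ := hR k (η / 2) (by positivity)
  obtain ⟨T, hT⟩ := exists_nat_ge (2 * cG / cS)
  set η' : ℝ := η / 2 / (T + 1) with hη'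
  have hη'0 : 0 < η' := by positivity
  -- the three easy cases
  have easy : ∀ (V : Type) [AddCommGroup V] [Module F V] [Finite V] (h : G V → ℝ),
      en (Top J) h ≤ a * av (fun M => Θ (h M)) + m ∨
      (Tame (fun p => C p * L) h ∧ m ≤ en (Top J) h ∧ b * en (Top J) h ≤ cG) := by
    intro V _ _ _ h
    have hs0 : 0 ≤ av fun M => Θ (h M) := av_nonneg fun M => h0 _
    by_cases h1 : L ≤ av fun M => Θ (h M)
    · left
      have e1 : en (Top J) h ≤ av fun M => lam + C 4 / lam * Θ (h M) := by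
        refine (en_le _ h).trans (av_mono fun M => ?_)
        have e2 := hC 4 (h M)
        have e3 : |h M| ^ 4 = (h M ^ 2) ^ 2 := by rw [← sq_abs (h M)]; ring
        rw [e3] at e2
        rw [div_mul_eq_mul_div, ← sub_le_iff_le_add', le_div_iff₀ hlam0]
        nlinarith [sq_nonneg (h M ^ 2 - lam), sq_nonneg (h M)]
      rw [av_add, av_const, av_mul_left] at e1
      have e4 : lam = a / 2 * L := by rw [hL]; field_simp
      have e5 : C 4 / lam ≤ a / 2 := by
        rw [div_le_iff₀ hlam0, hlam]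
        have : a / 2 * (2 * (C 4 + 1) / a) = C 4 + 1 := by field_simp
        linarith
      have e6 := mul_le_mul_of_nonneg_right e5 hs0
      have e7 := mul_le_mul_of_nonneg_left h1 (show 0 ≤ a / 2 by positivity)
      linarith
    · by_cases h2 : m ≤ en (Top J) h
      · right
        have ht : Tame (fun p => C p * L) h := fun p => by
          refine (av_mono fun M => hC p (h M)).trans ?_
          rw [av_mul_left]
          exact mul_le_mul_of_nonneg_left (not_le.1 h1).le (hC0 p)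
        refine ⟨ht, h2, le_trans (mul_le_mul_of_nonneg_left ?_ b0.le) b2⟩
        have := (en_le (Top J) h).trans ht.sq
        linarith
      · left
        have := mul_nonneg ha.le hs0
        linarith [not_le.1 h2]
  have claim : ∀ t : ℕ, LoopOK Θ J k (η / 2 + t * η') (1 - b) (b * a)
      (b * m + max 0 (cG - t * (cS / 2))) := by
    intro t
    induction t with
    | zero =>
      refine ⟨k, fun V _ _ _ hV h hs => loop_mono (loop_triv hs hV) (by positivity) ?_⟩
      have hs0 : 0 ≤ a * av fun M => Θ (h M) := mul_nonneg ha.le (av_nonneg fun M => h0 _)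
      have m1 := le_max_left 0 (cG - (0 : ℕ) * (cS / 2))
      have m2 := le_max_right 0 (cG - (0 : ℕ) * (cS / 2))
      rcases easy V h with e | ⟨-, -, e⟩
      · nlinarith [mul_le_mul_of_nonneg_left e b0.le]
      · have := mul_nonneg b0.le hs0
        have := mul_nonneg b0.le hm.le
        simp only [Nat.cast_zero, zero_mul, sub_zero] at m2 ⊢
        nlinarith
    | succ t ih =>
      obtain ⟨n, ih⟩ := ih
      obtain ⟨n', hR⟩ := hR n η' hη'0
      refine ⟨max k n', fun V _ _ _ hV h hs => ?_⟩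
      have hs0 : 0 ≤ a * av fun M => Θ (h M) := mul_nonneg ha.le (av_nonneg fun M => h0 _)
      have m1 := le_max_left 0 (cG - (t + 1 : ℕ) * (cS / 2))
      have m2 := le_max_right 0 (cG - (t + 1 : ℕ) * (cS / 2))
      have p1 := mul_nonneg b0.le hs0
      have p2 := mul_nonneg b0.le hm.le
      rcases easy V h with e | ⟨e1, e2, e3⟩
      · refine loop_mono (loop_triv hs ((le_max_left _ _).trans hV)) (by positivity) ?_
        nlinarith [mul_le_mul_of_nonneg_left e b0.le]
      · rcases hR V ((le_max_right _ _).trans hV) h hs e1 e2 with d | d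
        · refine loop_mono d (le_add_of_nonneg_right (by positivity)) ?_
          nlinarith
        · refine loop_mono (loop_comp Θ hs (by linarith) d
            (ih (Fk n) (finrank_Fk n).ge)) (by push_cast; linarith) ?_
          have m3 : max 0 (cG - t * (cS / 2)) ≤ max 0 (cG - (t + 1 : ℕ) * (cS / 2)) + cS / 2 := by
            refine max_le (by linarith) ?_
            push_cast at m2 ⊢
            linarith
          nlinarith
  obtain ⟨n, hn⟩ := claim T
  refine ⟨n, fun V _ _ _ hV h hs => loop_mono (hn V hV h hs) ?_ ?_⟩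
  · have : (T + 1) * η' = η / 2 := by rw [hη']; field_simp
    nlinarith
  · rw [max_eq_left, add_zero]
    rw [div_le_iff₀ hcS] at hT
    linarith

theorem loop_rounds {J : ℕ} (Θ : ℝ → ℝ) (h0 : ∀ t, 0 ≤ Θ t) {a m b : ℝ} (ha : 0 ≤ a) (hm : 0 ≤ m)
    (hb : b ≤ 1) (H : ∀ (k : ℕ) (η : ℝ), 0 < η → LoopOK Θ J k η (1 - b) (b * a) (b * m)) (T : ℕ) :
    ∀ (k : ℕ) (η : ℝ), 0 < η → LoopOK Θ J k η ((1 - b) ^ T) a m := by
  induction T with
  | zero =>
    intro k η hη
    refine ⟨k, fun V _ _ _ hV h hs => loop_mono (loop_triv hs hV) hη.le ?_⟩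
    have hs0 : 0 ≤ a * av fun M => Θ (h M) := mul_nonneg ha (av_nonneg fun M => h0 _)
    rw [pow_zero]; linarith
  | succ T ih =>
    intro k η hη
    obtain ⟨n, hn⟩ := H k (η / 2) (by positivity)
    obtain ⟨n', hn'⟩ := ih n (η / 2) (by positivity)
    refine ⟨n', fun V _ _ _ hV h hs => loop_mono (loop_comp Θ hs (by linarith) (hn' V hV h hs)
      (hn (Fk n) (finrank_Fk n).ge)) (by linarith) (le_of_eq (by ring))⟩

theorem full_of (hTH : TH) (J : ℕ) (hR : RSTEP J) : FULL J := by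
  intro D k η hη
  obtain ⟨Θ, h0, -, h1, hC⟩ := hTH D
  have h3 : 0 < η / 3 := by positivity
  obtain ⟨b, b0, b1, H⟩ := loop_contr hR Θ h0 hC (η / 3) (η / 3) h3 h3
  obtain ⟨T, hT⟩ := exists_pow_lt_of_lt_one (show 0 < η / 3 / (|D 2| + 1) by positivity)
    (show 1 - b < 1 by linarith)
  obtain ⟨n, hn⟩ := loop_rounds Θ h0 h3.le h3.le (by linarith) H T k η hη
  refine ⟨n, fun V _ _ _ hV h hs ht => loop_mono (hn V hV h hs) le_rfl ?_⟩
  have e1 : en (Top J) h ≤ |D 2| + 1 := by
    have := ((en_le (Top J) h).trans ht.sq).trans (le_abs_self _)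
    linarith
  have e2 := mul_le_mul_of_nonneg_left e1 (pow_nonneg (show 0 ≤ 1 - b by linarith) T)
  have e3 := mul_le_mul_of_nonneg_left (h1 _ h ht) h3.le
  rw [lt_div_iff₀ (by positivity)] at hT
  linarith

end SD
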