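import Pool.Agent.Lib.MP_ecee09_co.SD.Base
import Pool.Agent.Lib.MP_ecee09_co.SD.Stmts

/-! (MR): marginal repair. -/

namespace SD

theorem mr : MR := by
  intro η N hη
  set s : ℝ := η / 4 with hs
  have hs0 : 0 < s := by positivity
  set K : ℝ := 1 + N * (1 + 1 / s) with hK
  have hK0 : 0 < K := by positivity
  refine ⟨min 1 (η / 2 / K), lt_min one_pos (by positivity), ?_⟩
  intro X C O _ _ _ _ _ _ a good ψ hadd hN h0 hinv h1 h2
  have e1 : min 1 (η / 2 / K) ≤ 1 := min_le_left _ _
  have e2 : min 1 (η / 2 / K) * K ≤ η / 2 := (le_div_iff₀ hK0).1 (min_le_right _ _)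
  have e0 : 0 ≤ min 1 (η / 2 / K) := (lt_min one_pos (by positivity)).le
  generalize min 1 (η / 2 / K) = η0 at h1 h2 e1 e2 e0
  have ha0 : ∀ o, a o 0 = 0 := fun o => by simpa using hadd o 0 0
  have h1s : 0 < 1 + s := by linarith
  refine ⟨fun x o => ψ x o * ind (good o ∧ ∀ c, av (ψ (x + a o c)) ≤ 1 + s) / (1 + s),
    fun x o => div_nonneg (mul_nonneg (h0 x o) (ind_nonneg _)) h1s.le, fun x o => ?_,
    fun x o c => ?_, fun x o h => ?_, fun x => ?_, ?_⟩
  · rw [div_le_iff₀ h1s]
    exact mul_le_mul_of_nonneg_left ((ind_le_one _).trans (by linarith)) (h0 x o)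
  · simp only [hinv]
    congr 2
    refine ind_congr (and_congr_right fun _ => ⟨fun h c' => ?_, fun h c' => ?_⟩)
    · have := h (-c + c')
      rwa [add_assoc, ← hadd, add_neg_cancel_left] at this
    · rw [add_assoc, ← hadd]; exact h _
  · simp only [ind_neg (fun h' : good o ∧ _ => h h'.1), mul_zero, zero_div]
  · by_cases hx : av (ψ x) ≤ 1 + s
    · rw [av_div, div_le_one h1s]
      exact le_trans (av_mono fun o => mul_le_of_le_one_right (h0 x o) (ind_le_one _)) hx
    · have : ∀ o, ind (good o ∧ ∀ c, av (ψ (x + a o c)) ≤ 1 + s) = 0 := fun o =>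
        ind_neg fun h => hx (by simpa [ha0] using h.2 0)
      simp only [this, mul_zero, zero_div, av_zero]; norm_num
  · have hpt : ∀ x o, ψ x o - ψ x o * ind (good o ∧ ∀ c, av (ψ (x + a o c)) ≤ 1 + s) / (1 + s) ≤
        s * ψ x o + ψ x o * ind (¬ good o) +
          sm fun c => ψ x o * ind (¬ av (ψ (x + a o c)) ≤ 1 + s) := by
      intro x o
      have p1 : 0 ≤ ψ x o * ind (¬ good o) := mul_nonneg (h0 x o) (ind_nonneg _)
      have p2 : ∀ c, 0 ≤ ψ x o * ind (¬ av (ψ (x + a o c)) ≤ 1 + s) := fun c =>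
        mul_nonneg (h0 x o) (ind_nonneg _)
      have p3 := sm_nonneg p2
      have p4 : 0 ≤ s * ψ x o := mul_nonneg hs0.le (h0 x o)
      by_cases h : good o ∧ ∀ c, av (ψ (x + a o c)) ≤ 1 + s
      · rw [ind_pos h, mul_one]
        have : ψ x o - ψ x o / (1 + s) ≤ s * ψ x o := by
          rw [sub_le_comm, le_div_iff₀ h1s]
          nlinarith [mul_nonneg hs0.le p4]
        linarith
      · rw [ind_neg h, mul_zero, zero_div, sub_zero]
        by_cases hg : good o
        · obtain ⟨c, hc⟩ := not_forall.1 fun h' => h ⟨hg, h'⟩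
          have := single_le_sm p2 c
          rw [ind_pos hc, mul_one] at this
          linarith
        · rw [ind_pos hg, mul_one]; linarith
    have hc : ∀ c, (av fun x => av fun o => ψ x o * ind (¬ av (ψ (x + a o c)) ≤ 1 + s)) ≤
        (1 + 1 / s) * η0 := by
      intro c
      have e : ∀ o, (av fun x => ψ x o * ind (¬ av (ψ (x + a o c)) ≤ 1 + s)) =
          av fun x => ψ x o * ind (¬ av (ψ x) ≤ 1 + s) := fun o => by
        rw [← av_add_right (fun x => ψ x o * ind (¬ av (ψ x) ≤ 1 + s)) (a o c)]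
        simp only [hinv]
      rw [av_comm]
      simp only [e]
      rw [av_comm]
      simp only [av_mul_right]
      refine le_trans ?_ (mul_le_mul_of_nonneg_left h1 (by positivity))
      rw [← av_mul_left]
      refine av_mono fun x => ?_
      by_cases hx : av (ψ x) ≤ 1 + s
      · rw [ind_neg (not_not.2 hx), mul_zero]; positivity
      · rw [ind_pos hx, mul_one]
        push Not at hx
        rw [abs_of_nonneg (by linarith)]
        have : 1 ≤ 1 / s * (av (ψ x) - 1) := by
          rw [one_div_mul_eq_div, le_div_iff₀ hs0]; linarith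
        change av (ψ x) ≤ _
        linarith
    have hρ : (av fun x => av (ψ x)) ≤ 1 + η0 := by
      have : (av fun x => av (ψ x)) ≤ av fun x => 1 + |av (ψ x) - 1| :=
        av_mono fun x => by linarith [le_abs_self (av (ψ x) - 1)]
      rw [av_add, av_const] at this
      linarith
    have hsum : (sm fun c => av fun x => av fun o =>
        ψ x o * ind (¬ av (ψ (x + a o c)) ≤ 1 + s)) ≤ N * ((1 + 1 / s) * η0) := by
      refine (sm_mono hc).trans ?_
      rw [sm_const]
      exact mul_le_mul_of_nonneg_right (by exact_mod_cast hN) (by positivity)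
    refine (av_mono fun x => av_mono (hpt x)).trans ?_
    simp only [av_add, av_mul_left, av_sm_comm]
    have hρ' : s * (av fun x => av fun o => ψ x o) ≤ s * 2 :=
      mul_le_mul_of_nonneg_left (hρ.trans (by linarith)) hs0.le
    rw [hK] at e2
    linarith

end SD
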