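import Pool.Agent.Lib.MP_ecee09_co.SD.PAc
import Pool.Agent.Lib.MP_ecee09_co.SD.Stmts

/-! The degenerate case (PA). -/

set_option linter.unusedSectionVars false

namespace SD

open Module QuadraticMap

section gain
variable {n ρ : ℕ} {E : Type} [AddCommGroup E] [Module F E] [Finite E]
  {q : QF E} {S : Submodule F E} {r : Fin ρ → E}

/-- the bound on one cell -/
lemma PaR.cell (h : PaR q S r) (u : G (Fk n × E) → ℝ) (c : (Fin n → E) → ℝ) {θ T δ : ℝ}
    (hθ : 0 < θ) (hT : 0 < T) (hδ : 0 < δ) {k : ℕ} (M : G (Fk n × E)) (Φ : Hom k (Fk n)) :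
    (av fun B => (fun M => 2 * (u M * paK0 (paS n S) (paS n (perp q S)) (paKv q r c) θ M) -
        (1 + δ) * paK0 (paS n S) (paS n (perp q S)) (paKv q r c) θ M ^ 2 - δ * u M ^ 2 -
        (1 + 2 / δ) / T * paW (paS n S) (paS n (perp q S)) (paKv q r c) θ M)
          (M + push ((LinearMap.inl F (Fk n) E).comp Φ) B)) -
      (1 + 2 / δ) * T * (av fun B => ind (∃ p ∈ paPP q S r c θ, resid (paEps q r) p
        (paL q r (M + push ((LinearMap.inl F (Fk n) E).comp Φ) B)) = 0 ∧ ¬ Red p Φ)) ≤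
      en (Low (finrank F E)) (res u M ((LinearMap.inl F (Fk n) E).comp Φ)) := by
  set Ψ := (LinearMap.inl F (Fk n) E).comp Φ with hΨ
  let red : (Fin ρ → Dual F (Fk n)) → Prop := fun v => ¬ LinearIndependent F fun i => (v i).comp Φ
  obtain ⟨a, ha, hf⟩ := h.field c fun v ξ => ind ((v, ξ) ∈ paPP q S r c θ ∧ red v)
  have hg : ∀ M, fld q a M = sm fun v => paKv q r c v M *
      ind (θ ≤ paE (paS n S) (paS n (perp q S)) (paKv q r c) v M ∧ red v) := fun M => by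
    rw [← hf]
    exact sm_congr fun v => by rw [ind_congr (and_congr_left' (h.mem c θ v M))]
  have hs : Spec (Low (finrank F E)) (res (fld q a) M Ψ) := by
    refine Spec.res (P := fun Q => ∃ Z, Q = QZ q Z ∧ red (paLab q r Z))
      (spec_sm a (QZ q) fun Z hZ => ⟨Z, rfl, ?_⟩) M Ψ ?_
    · obtain ⟨ξ, hξ⟩ := ha Z hZ
      intro hn
      exact hξ (ind_neg fun hh => hh.2 hn)
    · rintro Q ⟨Z, rfl, hZ⟩
      exact pa_low h.nd h.li Φ Z hZ
  refine le_trans ?_ (en_var _ hs)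
  rw [← av_mul_left, ← av_sub, ← av_mul_left, ← av_sub]
  refine av_mono fun B => ?_
  simp only [res_apply]
  generalize M + push Ψ B = N
  refine le_trans ?_ (pa_point hδ (u N) (paK0 (paS n S) (paS n (perp q S)) (paKv q r c) θ N)
    (fld q a N))
  have h1 := pa_err (s1 := paS n S) (s2 := paS n (perp q S)) (Kv := paKv q r c) hθ hT red N
  rw [← hg] at h1
  have h2 : ind (∃ v, θ ≤ paE (paS n S) (paS n (perp q S)) (paKv q r c) v N ∧ ¬ red v) ≤
      ind (∃ p ∈ paPP q S r c θ, resid (paEps q r) p (paL q r N) = 0 ∧ ¬ Red p Φ) :=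
    ind_mono fun ⟨v, hv, hr⟩ => ⟨(v, paXi q r N v), (h.mem c θ v N).2 hv,
      (pa_resid q r N _).2 rfl, hr⟩
  have h3 := mul_le_mul_of_nonneg_left (h1.trans (add_le_add_left
    (mul_le_mul_of_nonneg_left h2 hT.le) _)) (show 0 ≤ 1 + 2 / δ by positivity)
  have e : (1 + 2 / δ) / T * paW (paS n S) (paS n (perp q S)) (paKv q r c) θ N =
      (1 + 2 / δ) * (paW (paS n S) (paS n (perp q S)) (paKv q r c) θ N / T) := by ring
  rw [e]
  linarith

lemma PaR.gain (h : PaR q S r) {u : G (Fk n × E) → ℝ} {D : ℕ → ℝ} (hu : Tame D u)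
    (hK : Tame D (fld q (cf q u))) {θ T δ η η' : ℝ} (hθ : 0 < θ) (hT : 0 < T) (hδ : 0 < δ)
    (hη : η' ≤ η) {k : ℕ} (hS : Solve (paEps q r) (paPP q S r (cf q u) θ) k η') :
    Gain (finrank F E) u k η (paK (paS n S) (paS n (perp q S)) (paKv q r (cf q u)) θ -
      2 * δ * D 2 - (1 + 2 / δ) / T * (2 * D 8 / θ ^ 2) - (1 + 2 / δ) * T * η') := by
  obtain ⟨A, hj, hb⟩ := hS
  obtain ⟨A', hm, he⟩ := h.fam A
  have hD : Tame D fun M => sm fun v => paKv q r (cf q u) v M := by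
    simpa only [pa_sum_Kv] using hK
  have hd := h.data (cf q u)
  refine ⟨A', ?_, ?_⟩
  · have h1 := he fun _ Φ => ind (¬ Function.Injective Φ)
    simp only [av_const] at h1
    refine le_trans (hm _ _ fun M Φ => ind_mono fun hn hi => hn ?_) (h1.trans_le (hj.trans hη))
    rw [← LinearMap.comp_assoc, LinearMap.fst_comp_inl, LinearMap.id_comp] at hi
    exact LinearMap.inl_injective.comp hi
  · set f1 : G (Fk n × E) → ℝ := fun M =>
        2 * (u M * paK0 (paS n S) (paS n (perp q S)) (paKv q r (cf q u)) θ M) -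
        (1 + δ) * paK0 (paS n S) (paS n (perp q S)) (paKv q r (cf q u)) θ M ^ 2 - δ * u M ^ 2 -
        (1 + 2 / δ) / T * paW (paS n S) (paS n (perp q S)) (paKv q r (cf q u)) θ M with hf1
    set ψ : Gam ρ (Fk n) → Hom k (Fk n) → ℝ := fun x Φ => ind (∃ p ∈ paPP q S r (cf q u) θ,
        resid (paEps q r) p x = 0 ∧ ¬ Red p Φ) with hψ
    refine le_trans ?_ (hm (fun M Ψ => (av fun B => f1 (M + push Ψ B)) -
      (1 + 2 / δ) * T * (av fun B => ψ (paL q r (M + push Ψ B))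
          ((LinearMap.fst F (Fk n) E).comp Ψ))) _ fun M Φ => ?_)
    · rw [A'.sub, A'.smul, he ψ, A'.marg f1, hf1, av_sub, av_sub, av_sub, av_mul_left, av_mul_left,
        av_mul_left, av_mul_left, hd.sq_K0]
      obtain ⟨a, -, hf⟩ := h.field (cf q u) fun v ξ => ind ((v, ξ) ∈ paPP q S r (cf q u) θ)
      have hg : ∀ M, paK0 (paS n S) (paS n (perp q S)) (paKv q r (cf q u)) θ M = fld q a M :=
        fun M => by
          rw [← hf]
          exact sm_congr fun v => by rw [ind_congr (h.mem (cf q u) θ v M)]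
      have h1 : (av fun M => u M * paK0 (paS n S) (paS n (perp q S)) (paKv q r (cf q u)) θ M) =
          paK (paS n S) (paS n (perp q S)) (paKv q r (cf q u)) θ := by
        rw [← hd.inner_K0]
        simp only [hg, pa_sum_Kv]
        exact pa_inner h.nd u a
      rw [h1]
      have h2 := mul_le_mul_of_nonneg_left (hd.K_le hD θ) hδ.le
      have h3 := mul_le_mul_of_nonneg_left hu.sq hδ.le
      have h4 := mul_le_mul_of_nonneg_left (hd.W_le hD θ)
        (show 0 ≤ (1 + 2 / δ) / T by positivity)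
      have h5 := mul_le_mul_of_nonneg_left hb (show 0 ≤ (1 + 2 / δ) * T by positivity)
      change _ * (A.E fun x Φ => av fun B => ψ (x + gpush Φ B) Φ) ≤ _ at h5
      linarith
    · rw [← LinearMap.comp_assoc, LinearMap.fst_comp_inl, LinearMap.id_comp]
      exact h.cell u (cf q u) hθ hT hδ M Φ

end gain

theorem pa_of (h : ∀ r, 1 ≤ r → RP r) (J : ℕ) : PA J := by
  intro D ηS hηS
  obtain ⟨d, hd0, hd⟩ : ∃ d : ℕ → ℝ, (∀ p, 0 < d p) ∧ ∀ p, D p ≤ d p :=
    ⟨fun p => |D p| + 1, fun p => by positivity, fun p => by linarith [le_abs_self (D p)]⟩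
  have h2 := hd0 2
  have h6 := hd0 6
  have h8 := hd0 8
  obtain ⟨θ, hθ, hθe⟩ : ∃ θ : ℝ, 0 < θ ∧ θ * d 2 = ηS / 2 :=
    ⟨ηS / 2 / d 2, by positivity, by field_simp⟩
  obtain ⟨κ, hκ, hκe⟩ : ∃ κ : ℝ, 0 < κ ∧ d 6 * κ = (ηS / 2) ^ 2 :=
    ⟨(ηS / 2) ^ 2 / d 6, by positivity, by field_simp⟩
  obtain ⟨δ, hδ, hδe⟩ : ∃ δ : ℝ, 0 < δ ∧ 2 * δ * d 2 = κ / 4 :=
    ⟨κ / 8 / d 2, by positivity, by field_simp; ring⟩
  obtain ⟨T, hT, hTe⟩ : ∃ T : ℝ, 0 < T ∧ (1 + 2 / δ) / T * (2 * d 8 / θ ^ 2) = κ / 8 :=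
    ⟨(1 + 2 / δ) * (2 * d 8 / θ ^ 2) * 8 / κ, by positivity, by field_simp⟩
  refine ⟨κ / 2, by positivity, fun k η hη => ?_⟩
  obtain ⟨η', hη', h1, h3⟩ : ∃ η' : ℝ, 0 < η' ∧ η' ≤ η ∧ (1 + 2 / δ) * T * η' ≤ κ / 8 := by
    have hc : 0 < (1 + 2 / δ) * T := by positivity
    refine ⟨min η (κ / 8 / ((1 + 2 / δ) * T)), by positivity, min_le_left _ _, ?_⟩
    rw [mul_comm, ← le_div_iff₀ hc]
    exact min_le_right _ _
  have hN : ∀ (ρ : ℕ) (ε : Fk ρ), ∃ n0 : ℕ, 1 ≤ ρ → ∀ n : ℕ, n0 ≤ n →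
      ∀ P : Set (Pt ρ (Fk n)), Tame (fun p => d (2 * p) / θ ^ p) (NN ε P) → Solve ε P k η' := by
    intro ρ ε
    by_cases hρ : 1 ≤ ρ
    · obtain ⟨n0, hn0⟩ := h ρ hρ ε (fun p => d (2 * p) / θ ^ p) k η' hη'
      exact ⟨n0, fun _ n hn P hP => hn0 (Fk n) (by rwa [finrank_Fk]) P hP⟩
    · exact ⟨0, fun h' => absurd h' hρ⟩
  choose N hN using hN
  refine ⟨(Finset.range (J + 1)).sup fun ρ => Finset.univ.sup (N ρ), ?_⟩
  intro n hn E _ _ _ q u hS S hS0 hbox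
  obtain ⟨ρ, hρ1, hρJ, r, hr⟩ := pa_exists_R hS.nd hS0
  rw [hS.dim] at hρJ
  have hu : Tame d u := fun p => (hS.tu p).trans (hd p)
  have hK : Tame d (fld q (cf q u)) := fun p => (hS.tK p).trans (hd p)
  have hn' : N ρ (paEps q r) ≤ n :=
    ((Finset.le_sup (f := N ρ) (Finset.mem_univ _)).trans
      (Finset.le_sup (f := fun ρ => Finset.univ.sup (N ρ))
        (Finset.mem_range.2 (Nat.lt_succ_of_le hρJ)))).trans hn
  obtain ⟨A, hj, hg⟩ := hr.gain hu hK hθ hT hδ h1 (hN ρ _ hρ1 n hn' _ (hr.tame hK hθ))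
  rw [hS.dim] at hg
  refine ⟨A, hj, le_trans ?_ hg⟩
  have hD : Tame d fun M => sm fun v => paKv q r (cf q u) v M := by
    simpa only [pa_sum_Kv] using hK
  have hb := (hr.data (cf q u)).box_le
  simp only [pa_sum_Kv] at hb
  have h4 := (hr.data (cf q u)).le_K hD hηS hθ.le hθe.le (hbox.trans hb)
  rw [← hκe] at h4
  have h5 := le_of_mul_le_mul_left h4 h6
  linarith

end SD
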