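import Pool.Agent.Lib.MP_ecee09_co.SD.Quad

/-! Fields `fld q c`, the shifts `tau b`, probes. -/

namespace SD

open Module

variable {n k : ℕ} {E V : Type} [AddCommGroup E] [Module F E] [AddCommGroup V] [Module F V]

lemma lin_apply (Z : Fin n → V) (x : Fk n) : lin Z x = ∑ i, x i • Z i :=
  Fintype.linearCombination_apply F Z x

@[simp] lemma lin_single (Z : Fin n → V) (i : Fin n) : lin Z (Pi.single i 1) = Z i := by
  simp [lin]

lemma lin_add (Z Z' : Fin n → V) : lin (Z + Z') = lin Z + lin Z' := by
  ext i; simp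

lemma lin_zero : lin (0 : Fin n → V) = 0 := by ext i; simp

lemma lin_eq (Φ : Fk n →ₗ[F] V) : lin (fun i => Φ (Pi.single i 1)) = Φ := by
  ext i; simp

lemma comp_lin {W : Type} [AddCommGroup W] [Module F W] (Φ : V →ₗ[F] W) (y : Fin k → V) :
    Φ.comp (lin y) = lin fun a => Φ (y a) := by
  ext i; simp

/-- tuples of vectors are the same as linear maps from `Fk` -/
def linEquiv (k : ℕ) (V : Type) [AddCommGroup V] [Module F V] : (Fin k → V) ≃ Hom k V where
  toFun := lin
  invFun Φ := fun i => Φ (Pi.single i 1)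
  left_inv y := funext fun i => lin_single y i
  right_inv := lin_eq

lemma lin_inj_iff (y : Fin k → V) : Function.Injective (lin y) ↔ LinearIndependent F y :=
  linearIndependent_iff_injective_fintypeLinearCombination.symm

/-- a random tuple is dependent with probability at most `2^k / |V|` -/
lemma av_not_inj [Finite V] :
    av (fun y : Fin k → V => ind (¬ Function.Injective (lin y))) ≤ 2 ^ k / Nat.card V := by
  have h1 : ∀ y : Fin k → V, ind (¬ Function.Injective (lin y)) ≤
      sm fun x : Fk k => ind (x ≠ 0 ∧ lin y x = 0) := fun y =>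
    (ind_mono fun h => by
      by_contra hc; push Not at hc
      exact h ((injective_iff_map_eq_zero _).2 fun x hx => by
        by_contra hx0; exact hc x hx0 hx)).trans (ind_exists_le _)
  refine (av_mono h1).trans ?_
  rw [av_sm_comm]
  have h2 : ∀ x : Fk k, (av fun y : Fin k → V => ind (x ≠ 0 ∧ lin y x = 0)) ≤ 1 / Nat.card V := by
    intro x
    by_cases hx : x = 0
    · simp only [hx, ne_eq, not_true, false_and, ind_neg not_false, av_zero]; positivity
    · obtain ⟨i, hi⟩ := Function.ne_iff.1 hx
      have hi1 : x i = 1 := (F_cases _).resolve_left hi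
      have := av_surj (fun y : Fin k → V => lin y x) (fun a b => by rw [lin_add]; rfl)
        (fun v => ⟨Pi.single i v, by
          simp only [lin_apply]
          rw [Finset.sum_eq_single i (fun j _ hj => by simp [hj]) (by simp)]; simp [hi1]⟩)
        fun v => ind (v = 0) * 1
      simp only [ind_and, ind_pos hx, one_mul]
      simp only [mul_one] at this
      rw [this]
      simpa using (av_ind_eq (0 : V) fun _ => 1).le
  refine (sm_mono h2).trans ?_
  rw [sm_const, card_eq_pow, finrank_Fk]; push_cast; rw [mul_one_div]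

lemma QZ_apply (q : QF E) (Z : Fin n → E) (x : Fk n) (e : E) : QZ q Z (x, e) = q (lin Z x + e) := rfl

lemma QZ_inr (q : QF E) (Z : Fin n → E) : (QZ q Z).comp (LinearMap.inr F _ _) = q := by
  ext e; simp [QZ]

lemma QZ_inl (q : QF E) (Z : Fin n → E) (Φ : V →ₗ[F] Fk n) :
    (QZ q Z).comp ((LinearMap.inl F _ _).comp Φ) = q.comp ((lin Z).comp Φ) := by
  ext e; simp [QZ]

lemma QZ_prodMap (q : QF E) (Z : Fin n → E) (y : Fin k → Fk n) :
    (QZ q Z).comp ((lin y).prodMap LinearMap.id) = QZ q fun a => lin Z (y a) := by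
  ext ⟨x, e⟩
  simp only [QuadraticMap.comp_apply, LinearMap.prodMap_apply, LinearMap.id_apply, QZ_apply]
  rw [← comp_lin]; rfl

lemma brk_add_left {ι : Type} [Fintype ι] (q : QF E) (b b' Z : ι → E) :
    brk q (b + b') Z = brk q b Z + brk q b' Z := by
  simp only [brk, Pi.add_apply, QuadraticMap.polar_add_left, Finset.sum_add_distrib]

lemma brk_add_right {ι : Type} [Fintype ι] (q : QF E) (b Z Z' : ι → E) :
    brk q b (Z + Z') = brk q b Z + brk q b Z' := by
  simp only [brk, Pi.add_apply, QuadraticMap.polar_add_right, Finset.sum_add_distrib]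

lemma brk_comm {ι : Type} [Fintype ι] (q : QF E) (b Z : ι → E) : brk q b Z = brk q Z b :=
  Finset.sum_congr rfl fun _ _ => QuadraticMap.polar_comm _ _ _

lemma brk_self {ι : Type} [Fintype ι] (q : QF E) (b : ι → E) : brk q b b = 0 :=
  Finset.sum_eq_zero fun _ _ => polar_self2 _ _

@[simp] lemma brk_zero_left {ι : Type} [Fintype ι] (q : QF E) (Z : ι → E) : brk q 0 Z = 0 := by
  simp [brk]

@[simp] lemma brk_zero_right {ι : Type} [Fintype ι] (q : QF E) (Z : ι → E) : brk q Z 0 = 0 := by
  simp [brk]

lemma brk_single {ι : Type} [Fintype ι] [DecidableEq ι] (q : QF E) (i : ι) (s : E) (Z : ι → E) :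
    brk q (Pi.single i s) Z = QuadraticMap.polar q s (Z i) := by
  rw [brk, Finset.sum_eq_single i (fun j _ hj => by simp [hj]) (by simp)]; simp

lemma star_add {κ : Type} [Fintype κ] (y : κ → Fk n) (t t' : κ → E) :
    star y (t + t') = star y t + star y t' := by
  funext i; simp [star, Finset.sum_add_distrib]

lemma star_add_left {κ : Type} [Fintype κ] (y y' : κ → Fk n) (t : κ → E) :
    star (y + y') t = star y t + star y' t := by
  funext i; simp [star, add_smul, Finset.sum_add_distrib]

lemma star_zero {κ : Type} [Fintype κ] (y : κ → Fk n) : star y (0 : κ → E) = 0 := by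
  funext i; simp [star]

lemma polar_sum_left {ι : Type} (Q : QF V) (s : Finset ι) (a : ι → F) (x : ι → V) (y : V) :
    QuadraticMap.polar Q (∑ i ∈ s, a i • x i) y = ∑ i ∈ s, a i * QuadraticMap.polar Q (x i) y := by
  have := map_sum ((QuadraticMap.polarBilin Q).flip y) (fun i => a i • x i) s
  simpa only [LinearMap.flip_apply, QuadraticMap.polarBilin_apply_apply,
    QuadraticMap.polar_smul_left, smul_eq_mul] using this

lemma polar_sum_right {ι : Type} (Q : QF V) (s : Finset ι) (a : ι → F) (x : ι → V) (y : V) :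
    QuadraticMap.polar Q y (∑ i ∈ s, a i • x i) = ∑ i ∈ s, a i * QuadraticMap.polar Q y (x i) := by
  simp only [QuadraticMap.polar_comm Q y, polar_sum_left]

lemma brk_star {κ : Type} [Fintype κ] (q : QF E) (y : κ → Fk n) (t : κ → E) (Z : Fin n → E) :
    brk q (star y t) Z = brk q t fun a => lin Z (y a) := by
  simp only [brk, star, lin_apply, polar_sum_left, polar_sum_right]
  exact Finset.sum_comm

lemma tau_apply (b : Fin n → E) (Q : QF (Fk n × E)) :
    tau b Q = ∑ i, QuadraticMap.polar Q (Pi.single i 1, 0) (0, b i) := by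
  simp only [tau, LinearMap.sum_apply, LinearMap.add_apply, ev_apply, polar_eq, Prod.mk_add_mk,
    add_zero, zero_add]

lemma tau_add (b b' : Fin n → E) : tau (b + b') = tau b + tau b' := by
  ext Q
  simp only [LinearMap.add_apply, tau_apply, ← Finset.sum_add_distrib,
    ← QuadraticMap.polar_add_right, Prod.mk_add_mk, add_zero, Pi.add_apply]

lemma tau_zero : tau (0 : Fin n → E) = 0 := by simpa using tau_add (0 : Fin n → E) 0

lemma tau_QZ (q : QF E) (b Z : Fin n → E) : tau b (QZ q Z) = brk q b Z := by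
  simp only [tau_apply, QZ, polar_comp', brk]
  exact Finset.sum_congr rfl fun i _ => by simp [QuadraticMap.polar_comm q (Z i)]

lemma chi_tau (q : QF E) (b Z : Fin n → E) : chi (QZ q Z) (tau b) = sg (brk q b Z) := by
  rw [chi, tau_QZ]

lemma tau_star (y : Fin k → Fk n) (t : Fin k → E) :
    tau (star y t) = push ((lin y).prodMap LinearMap.id) (tau t) := by
  ext Q
  simp only [push_apply, tau_apply, polar_comp', LinearMap.prodMap_apply, lin_single, map_zero,
    LinearMap.id_apply]
  have e1 : ∀ i, ((0 : Fk n), star y t i) = ∑ a, y a i • ((0 : Fk n), t a) := fun i => by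
    ext <;> simp [star, Prod.fst_sum, Prod.snd_sum]
  have e2 : ∀ a, (y a, (0 : E)) = ∑ i, y a i • ((Pi.single i 1 : Fk n), (0 : E)) := fun a => by
    ext j <;> simp [Prod.fst_sum, Prod.snd_sum, Pi.single_apply]
  simp only [e1, e2, polar_sum_left, polar_sum_right]
  exact Finset.sum_comm

lemma push_fst_tau (b : Fin n → E) : push (LinearMap.fst F (Fk n) E) (tau b) = 0 := by
  ext Q; simp [tau_apply, polar_comp']

lemma push_prodMap_tau {E' : Type} [AddCommGroup E'] [Module F E'] (π : E →ₗ[F] E')
    (b : Fin n → E) : push (LinearMap.id.prodMap π) (tau b) = tau fun i => π (b i) := by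
  ext Q; simp [tau_apply, polar_comp']

lemma QZ_inj {q : QF E} (h : ND q) : Function.Injective (QZ q : (Fin n → E) → _) := by
  intro Z Z' e
  funext i
  refine add_eq_zero2.1 (h _ fun x => ?_)
  have h1 := tau_QZ q (Pi.single i x) Z
  rw [e, tau_QZ, brk_single, brk_single] at h1
  rw [QuadraticMap.polar_add_right, h1, F_add_self]

variable [Finite E]

lemma av_sg_brk_sub {ι : Type} [Fintype ι] (q : QF E) (S : Submodule F E) (Z : ι → E) :
    av (fun b : ι → S => sg (brk q (fun i => (b i : E)) Z)) = ind (∀ i, Z i ∈ perp q S) := by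
  classical
  rw [av_sg (fun b : ι → S => brk q (fun i => (b i : E)) Z) fun a b => brk_add_left q _ _ Z]
  refine ind_congr ⟨fun h i s hs => ?_, fun h b => Finset.sum_eq_zero fun i _ => h i _ (b i).2⟩
  have := h (Pi.single i ⟨s, hs⟩)
  rw [show (fun j => ((Pi.single i ⟨s, hs⟩ : ι → S) j : E)) = Pi.single i s from funext fun j => by
    by_cases hj : j = i
    · subst hj; simp
    · simp [hj], brk_single] at this
  exact this

lemma av_sg_brk {ι : Type} [Fintype ι] {q : QF E} (h : ND q) (Z : ι → E) :
    av (fun b : ι → E => sg (brk q b Z)) = ind (Z = 0) := by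
  classical
  rw [av_sg (fun b : ι → E => brk q b Z) fun a b => brk_add_left q _ _ Z]
  refine ind_congr ⟨fun h' => funext fun i => h _ fun x => ?_, fun h' b => by simp [h']⟩
  rw [← brk_single q i x Z]; exact h' _

lemma fld_add (q : QF E) (c : (Fin n → E) → ℝ) (M M' : G (Fk n × E)) :
    fld q c (M + M') = fld q (fun Z => c Z * chi (QZ q Z) M') M :=
  sm_congr fun Z => by rw [chi_add]; ring

lemma fld_tau (q : QF E) (c : (Fin n → E) → ℝ) (M : G (Fk n × E)) (b : Fin n → E) :
    fld q c (M + tau b) = fld q (fun Z => c Z * sg (brk q b Z)) M := by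
  simp only [fld_add, chi_tau]

lemma inner_fld (q : QF E) (u : G (Fk n × E) → ℝ) (c : (Fin n → E) → ℝ) :
    (av fun M => u M * fld q c M) = sm fun Z => cf q u Z * c Z := by
  simp only [fld, ← sm_mul_left]
  rw [av_sm_comm]
  refine sm_congr fun Z => ?_
  rw [cf, coef, ← av_mul_right]
  exact av_congr fun M => by ring

lemma cf_fld {q : QF E} (h : ND q) (c : (Fin n → E) → ℝ) (Z : Fin n → E) :
    cf q (fld q c) Z = c Z := by
  have := coef_sm c (QZ q) (QZ q Z)
  simp only [(QZ_inj h).eq_iff, sm_ind_eq] at this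
  exact this

lemma fld_inner {q : QF E} (h : ND q) (c c' : (Fin n → E) → ℝ) :
    (av fun M => fld q c M * fld q c' M) = sm fun Z => c Z * c' Z := by
  simp only [inner_fld, cf_fld h]

lemma fld_sq {q : QF E} (h : ND q) (c : (Fin n → E) → ℝ) :
    (av fun M => fld q c M ^ 2) = sm fun Z => c Z ^ 2 := by
  simpa only [sq] using fld_inner h c c

lemma spec_fld (q : QF E) (c : (Fin n → E) → ℝ) :
    Spec (fun Q => ∃ Z, c Z ≠ 0 ∧ Q = QZ q Z) (fld q c) :=
  spec_sm c (QZ q) fun Z hZ => ⟨Z, hZ, rfl⟩

lemma top_QZ {q : QF E} (h : ND q) (Z : Fin n → E) : Top (finrank F E) (QZ q Z) :=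
  top_comp_of_surj h.top fun e => ⟨(0, e), by simp⟩

/-- normal form: a form of rank at most `dim E` that restricts to `q` on `E` is some `QZ q Z` -/
lemma exists_QZ {q : QF E} (h : ND q) {Q : QF (Fk n × E)} (hr : rank Q ≤ finrank F E)
    (hq : Q.comp (LinearMap.inr F _ _) = q) : ∃ Z, Q = QZ q Z := by
  let p : Q.radical →ₗ[F] Fk n := (LinearMap.fst F _ _).comp Q.radical.subtype
  have hp : Function.Injective p := (injective_iff_map_eq_zero _).2 fun y hy => by
    obtain ⟨⟨x, e⟩, hy'⟩ := y
    have hx : x = 0 := hy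
    subst hx
    have : e = 0 := h e fun z => by
      rw [← hq, polar_comp']; exact ((mem_rad Q _).1 hy').2 _
    subst this; rfl
  have hd : finrank F Q.radical = finrank F (Fk n) := by
    have h1 := rank_add_rad Q
    have h2 := LinearMap.finrank_le_finrank_of_injective hp
    rw [finrank_prod] at h1; omega
  have hs : Function.Surjective p :=
    (LinearMap.injective_iff_surjective_of_finrank_eq_finrank hd).1 hp
  choose y hy using fun i : Fin n => hs (Pi.single i 1)
  refine ⟨fun i => (y i).1.2, ?_⟩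
  ext ⟨x, e⟩
  have hm : (x, lin (fun i => (y i).1.2) x) ∈ Q.radical := by
    have : (x, lin (fun i => (y i).1.2) x) = ∑ i, x i • (y i).1 := by
      ext j
      · have : ∀ i, (y i).1.1 = Pi.single i 1 := hy
        simp [Prod.fst_sum, this, Pi.single_apply]
      · simp [Prod.snd_sum, lin_apply]
    rw [this]
    exact Submodule.sum_mem _ fun i _ => Submodule.smul_mem _ _ (y i).2
  rw [QZ_apply, ← hq, QuadraticMap.comp_apply,
    ← (QuadraticMap.mem_radical_iff'.1 hm).2 (LinearMap.inr F _ _ _)]
  congr 1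
  ext <;> simp [← add_assoc, add_self2]

/-- averaging over `G E` keeps the forms that restrict to `q` -/
lemma coef_avg_inr (q : QF E) (u : G (Fk n × E) → ℝ) (Q : QF (Fk n × E)) :
    coef (fun M => av fun a : G E => u (M + push (LinearMap.inr F _ _) a) * chi q a) Q =
      ind (Q.comp (LinearMap.inr F _ _) = q) * coef u Q := by
  rw [coef_av fun (a : G E) M => u (M + push (LinearMap.inr F (Fk n) E) a) * chi q a]
  have : ∀ a : G E, coef (fun M => u (M + push (LinearMap.inr F _ _) a) * chi q a) Q =
      coef u Q * (chi (Q.comp (LinearMap.inr F _ _)) a * chi q a) := fun a => by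
    simp only [mul_comm _ (chi q a)]
    rw [coef_mul_left, coef_shift, chi_push]; ring
  simp only [this]
  rw [av_mul_left, av_chi_mul, mul_comm]

lemma coef_fld {q : QF E} (h : ND q) {u : G (Fk n × E) → ℝ} (hu : Spec (Top (finrank F E)) u)
    (Q : QF (Fk n × E)) :
    coef (fld q (cf q u)) Q = ind (Q.comp (LinearMap.inr F _ _) = q) * coef u Q := by
  by_cases hQ : ∃ Z, Q = QZ q Z
  · obtain ⟨Z, rfl⟩ := hQ
    rw [ind_pos (QZ_inr q Z), one_mul]; exact cf_fld h _ Z
  · have h1 : coef (fld q (cf q u)) Q = 0 := by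
      by_contra hne; obtain ⟨Z, -, hZ⟩ := spec_fld q _ Q hne; exact hQ ⟨Z, hZ⟩
    rw [h1]
    by_cases h2 : coef u Q = 0
    · rw [h2, mul_zero]
    · rw [ind_neg fun h3 => hQ (exists_QZ h (hu Q h2).1.le h3), zero_mul]

lemma fld_eq_avg {q : QF E} (h : ND q) {u : G (Fk n × E) → ℝ} (hu : Spec (Top (finrank F E)) u) :
    fld q (cf q u) = fun M => av fun a : G E => u (M + push (LinearMap.inr F _ _) a) * chi q a :=
  eq_of_coef fun Q => by rw [coef_fld h hu, coef_avg_inr]

lemma tame_fld {q : QF E} (h : ND q) {u : G (Fk n × E) → ℝ} (hu : Spec (Top (finrank F E)) u)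
    {D : ℕ → ℝ} (ht : Tame D u) : Tame D (fld q (cf q u)) := by
  rw [fld_eq_avg h hu]
  exact ht.avShift _ (fun _ a => chi q a) fun _ _ => (abs_chi _ _).le

end SD
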