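import Pool.Agent.Lib.MP_ecee09_co.SD.Quad
import Pool.Agent.Lib.MP_ecee09_co.SD.Stmts

/-! Section 4 (PR), the gain on the cells of a family. -/

namespace SD.Pr

open SD Module

lemma cell_point {s l : ℝ} (hs : 0 ≤ s) (hl : 0 < l) (u r t c : ℝ) :
    2 * s * (u * r * c) - s * l / 2 * (u ^ 4 + c ^ 4) - s ^ 2 * (4 * r ^ 4 + c ^ 4 / 2) -
        s / l * t ^ 2 - 4 * s ^ 2 * t ^ 4 ≤
      2 * (u * (s * ((r - t) * c))) - (s * ((r - t) * c)) ^ 2 := by
  have h1 : 2 * (u * c * t) ≤ l * (u * c) ^ 2 + t ^ 2 / l := by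
    have : 0 ≤ (l * (u * c) - t) ^ 2 / l := by positivity
    have e : (l * (u * c) - t) ^ 2 / l = l * (u * c) ^ 2 + t ^ 2 / l - 2 * (u * c * t) := by
      field_simp; ring
    linarith
  have h2 : (u * c) ^ 2 ≤ (u ^ 4 + c ^ 4) / 2 := by nlinarith [sq_nonneg (u ^ 2 - c ^ 2)]
  have h3 : (r - t) ^ 4 ≤ 8 * r ^ 4 + 8 * t ^ 4 := by
    have a1 : (r - t) ^ 2 ≤ 2 * r ^ 2 + 2 * t ^ 2 := by nlinarith [sq_nonneg (r + t)]
    have a2 := pow_le_pow_left₀ (sq_nonneg (r - t)) a1 2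
    nlinarith [sq_nonneg (r ^ 2 - t ^ 2)]
  have h4 : ((r - t) * c) ^ 2 ≤ 4 * r ^ 4 + 4 * t ^ 4 + c ^ 4 / 2 := by
    nlinarith [sq_nonneg ((r - t) ^ 2 - c ^ 2)]
  have h5 := mul_le_mul_of_nonneg_left h1 hs
  have h6 := mul_le_mul_of_nonneg_left h2 (mul_nonneg hs hl.le)
  have h7 := mul_le_mul_of_nonneg_left h4 (sq_nonneg s)
  have e : s * (l * (u * c) ^ 2 + t ^ 2 / l) = s * l * (u * c) ^ 2 + s / l * t ^ 2 := by ring
  rw [e] at h5
  nlinarith

variable {U V : Type} [AddCommGroup U] [Module F U] [Finite U] [AddCommGroup V] [Module F V]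
  [Finite V]

/-- the weight that is averaged over the cells -/
noncomputable def wt (s l C u r c : ℝ) : ℝ :=
  2 * s * (u * r * c) - s * l / 2 * (u ^ 4 + c ^ 4) - s ^ 2 * (4 * r ^ 4 + c ^ 4 / 2) -
    4 * s ^ 2 * C * r ^ 8

lemma cell {J J1 J2 : ℕ} (hJ : J1 + J2 ≤ J) {s l C : ℝ} (hs : 0 ≤ s) (hl : 0 < l)
    (f r c : G U → ℝ) (sr : Spec (CJ J1) r) (sc : Spec (fun Q => rank Q ≤ J2) c)
    (hC : av (fun B => |proj (Top J1) r B| ^ 4) ≤ C * (1 + av fun B => |r B| ^ (2 * 4))) :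
    av (fun B => wt s l C (f B) (r B) (c B)) - s / l * en (Top J1) r - 4 * s ^ 2 * C ≤
      en (Low J) f := by
  set t := proj (Top J1) r with ht
  have hg : Spec (Low J) fun B => s * ((r B - t B) * c B) := by
    have e : (fun B => s * ((r B - t B) * c B)) = fun B => s * (proj (Low J1) r B * c B) := by
      funext B; rw [ht, eq_sub_of_add_eq (sr.split B).symm]
    rw [e]
    refine Spec.mul_left ((spec_proj _ _).mul sc fun Q Q' h1 h2 => ?_) s
    have := rank_add_le Q Q'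
    simp only [Low] at h1 ⊢
    omega
  refine le_trans ?_ (en_var f hg)
  rw [← av_mul_left, ← av_sub]
  refine le_trans ?_ (av_mono fun B => cell_point hs hl (f B) (r B) (t B) (c B))
  simp only [show ∀ x : ℝ, |x| ^ 4 = x ^ 4 from fun x => Even.pow_abs (by decide) x,
    show ∀ x : ℝ, |x| ^ (2 * 4) = x ^ 8 from fun x => Even.pow_abs (by decide) x] at hC
  have h1 := mul_le_mul_of_nonneg_left hC (show 0 ≤ 4 * s ^ 2 by positivity)
  rw [en_eq, ← ht]
  simp only [wt]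
  rw [av_sub _ (fun B => 4 * s ^ 2 * t B ^ 4), av_sub _ (fun B => s / l * t B ^ 2),
    av_sub _ (fun B => 4 * s ^ 2 * C * r B ^ 8), av_mul_left, av_mul_left, av_mul_left]
  nlinarith

lemma gain_wt {J J1 J2 k : ℕ} (hJ : J1 + J2 ≤ J) {s l C η ε : ℝ} (hs : 0 ≤ s) (hl : 0 < l)
    (hC : ∀ r : G (Fk k) → ℝ,
      av (fun B => |proj (Top J1) r B| ^ 4) ≤ C * (1 + av fun B => |r B| ^ (2 * 4)))
    (u h c : G V → ℝ) (sh : Spec (CJ J1) h) (sc : Spec (fun Q => rank Q ≤ J2) c)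
    (hd : Drop J1 h k η ε) :
    Gain J u k η (av (fun M => wt s l C (u M) (h M) (c M)) - s / l * ε - 4 * s ^ 2 * C) := by
  obtain ⟨A, hj, hA⟩ := hd
  refine ⟨A, hj, le_trans ?_ (A.mono fun x Φ => cell hJ hs hl (res u x Φ) (res h x Φ) (res c x Φ)
    (sh.res_cj x Φ) (sc.res x Φ fun Q hQ => (rank_comp_le Q Φ).trans hQ) (hC _))⟩
  rw [A.sub, A.sub, A.const, A.smul]
  have e : (A.E fun x Φ => av fun B => wt s l C (res u x Φ B) (res h x Φ B) (res c x Φ B)) = _ :=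
    A.marg fun M => wt s l C (u M) (h M) (c M)
  have h1 := mul_le_mul_of_nonneg_left hA (div_nonneg hs hl.le)
  rw [e]
  linarith

omit [Finite V] in
lemma Gain.mono {J k : ℕ} {u : G V → ℝ} {η η' c c' : ℝ} (h : Gain J u k η c) (h1 : η ≤ η')
    (h2 : c' ≤ c) : Gain J u k η' c' := by
  obtain ⟨A, a, b⟩ := h
  exact ⟨A, a.trans h1, h2.trans b⟩

/-- a correlation of `u` with a product whose first factor drops gives a gain -/
lemma gain_of (γ W : ℝ) (hγ : 0 < γ) (hW : 0 < W) : ∃ c ε : ℝ, 0 < c ∧ 0 < ε ∧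
    ∀ (J J1 J2 k : ℕ) (C η : ℝ), J1 + J2 ≤ J → 0 ≤ C → C ≤ W →
    (∀ r : G (Fk k) → ℝ,
      av (fun B => |proj (Top J1) r B| ^ 4) ≤ C * (1 + av fun B => |r B| ^ (2 * 4))) →
    ∀ (V : Type) [AddCommGroup V] [Module F V] [Finite V] (u h κ : G V → ℝ),
      Spec (CJ J1) h → Spec (fun Q => rank Q ≤ J2) κ → Drop J1 h k η ε →
      av (fun M => u M ^ 4) ≤ W → av (fun M => κ M ^ 4) ≤ W → av (fun M => h M ^ 4) ≤ W →
      av (fun M => h M ^ 8) ≤ W → γ ≤ av (fun M => u M * h M * κ M) → Gain J u k η c := by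
  set B := 9 * W + 4 * W ^ 2 with hB
  have hBp : 0 < B := by positivity
  set l := γ / (2 * W) with hl
  have hlp : 0 < l := by positivity
  set s := γ / (2 * B) with hs
  have hsp : 0 < s := by positivity
  refine ⟨γ ^ 2 / (4 * B), l * γ / 2, by positivity, by positivity, ?_⟩
  intro J J1 J2 k C η hJ hC0 hCW hC V _ _ _ u h κ sh sκ hd h1 h2 h3 h4 h5
  refine Gain.mono (gain_wt hJ hsp.le hlp hC u h κ sh sκ hd) le_rfl ?_
  simp only [wt]
  rw [av_sub, av_sub, av_sub, av_mul_left, av_mul_left, av_mul_left, av_mul_left, av_add, av_add,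
    av_mul_left, av_div]
  have e1 : s / l * (l * γ / 2) = s * γ / 2 := by field_simp
  have e2 : s * l / 2 * (W + W) = s * γ / 2 := by rw [hl]; field_simp; ring
  have e3 : s * γ - s ^ 2 * B = γ ^ 2 / (4 * B) := by rw [hs]; field_simp; ring
  have a1 := mul_le_mul_of_nonneg_left h5 (show 0 ≤ 2 * s by positivity)
  have a2 := mul_le_mul_of_nonneg_left (add_le_add h1 h2) (show 0 ≤ s * l / 2 by positivity)
  have a3 : 4 * av (fun M => h M ^ 4) + av (fun M => κ M ^ 4) / 2 ≤ 5 * W := by linarith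
  have a4 := mul_le_mul_of_nonneg_left a3 (sq_nonneg s)
  have a5 : C * av (fun M => h M ^ 8) ≤ W ^ 2 := by
    rw [sq]
    exact mul_le_mul hCW h4 (av_nonneg fun M => by positivity) hW.le
  have a6 := mul_le_mul_of_nonneg_left a5 (show 0 ≤ 4 * s ^ 2 by positivity)
  have a7 := mul_le_mul_of_nonneg_left hCW (show 0 ≤ 4 * s ^ 2 by positivity)
  rw [e1, ← e3, hB]
  rw [e2] at a2
  nlinarith

end SD.Pr
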