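import Pool.Agent.Lib.MP_ecee09_co.SD.PRa
import Pool.Agent.Lib.MP_ecee09_co.SD.PRb
import Pool.Agent.Lib.MP_ecee09_co.SD.Fld

/-! Section 4 (PR): the structured case with a nondegenerate subspace. -/

namespace SD.Pr

open SD Module

variable {n : ℕ} {E E1 E2 : Type} [AddCommGroup E] [Module F E] [AddCommGroup E1] [Module F E1]
  [AddCommGroup E2] [Module F E2]

/-- an orthogonal splitting of `E` -/
structure Spl (q : QF E) (i1 : E1 →ₗ[F] E) (p1 : E →ₗ[F] E1) (i2 : E2 →ₗ[F] E) (p2 : E →ₗ[F] E2) :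
    Prop where
  h11 : ∀ x, p1 (i1 x) = x
  h22 : ∀ y, p2 (i2 y) = y
  h12 : ∀ y, p1 (i2 y) = 0
  h21 : ∀ x, p2 (i1 x) = 0
  sum : ∀ e, i1 (p1 e) + i2 (p2 e) = e
  orth : ∀ x y, QuadraticMap.polar q (i1 x) (i2 y) = 0

/-- the projection `id x p` -/
abbrev pr (n : ℕ) (p : E →ₗ[F] E1) : Fk n × E →ₗ[F] Fk n × E1 := LinearMap.id.prodMap p

/-- the signs of the first factor -/
def xi (q : QF E) (i : E1 →ₗ[F] E) (p : E →ₗ[F] E1) (z : Fin n → E1) (M : G (Fk n × E)) : ℝ :=
  chi (QZ (q.comp i) z) (push (pr n p) M)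

def sh (i : E1 →ₗ[F] E) (h : Fin n → E1) : G (Fk n × E) := tau fun j => i (h j)

variable {q : QF E} {i1 : E1 →ₗ[F] E} {p1 : E →ₗ[F] E1} {i2 : E2 →ₗ[F] E} {p2 : E →ₗ[F] E2}

lemma Spl.symm (S : Spl q i1 p1 i2 p2) : Spl q i2 p2 i1 p1 :=
  ⟨S.h22, S.h11, S.h21, S.h12, fun e => by rw [add_comm, S.sum],
    fun x y => by rw [QuadraticMap.polar_comm, S.orth]⟩

lemma Spl.nd (S : Spl q i1 p1 i2 p2) (h : ND q) : ND (q.comp i1) := fun y hy => by
  have : i1 y = 0 := h _ fun x => by
    rw [← S.sum x, QuadraticMap.polar_add_left, ← polar_comp', hy, S.symm.orth, add_zero]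
  rw [← S.h11 y, this, map_zero]

lemma Spl.surj (S : Spl q i1 p1 i2 p2) : Function.Surjective (pr n p1) :=
  fun x => ⟨(x.1, i1 x.2), Prod.ext rfl (S.h11 _)⟩

lemma Spl.QZ_split (S : Spl q i1 p1 i2 p2) (z : Fin n → E1) (w : Fin n → E2) :
    QZ q (fun j => i1 (z j) + i2 (w j)) =
      (QZ (q.comp i1) z).comp (pr n p1) + (QZ (q.comp i2) w).comp (pr n p2) := by
  ext ⟨x, e⟩
  have e1 : lin (fun j => i1 (z j) + i2 (w j)) x + e =
      i1 (lin z x + p1 e) + i2 (lin w x + p2 e) := by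
    have := lin_add (fun j => i1 (z j)) fun j => i2 (w j)
    rw [← comp_lin, ← comp_lin] at this
    conv_lhs => rw [← S.sum e]
    rw [map_add, map_add]
    erw [this]
    simp only [LinearMap.add_apply, LinearMap.comp_apply]
    abel
  rw [QZ_apply, e1, map_add2, S.orth, add_zero]
  rfl

lemma Spl.chi_split (S : Spl q i1 p1 i2 p2) (z : Fin n → E1) (w : Fin n → E2)
    (M : G (Fk n × E)) :
    chi (QZ q fun j => i1 (z j) + i2 (w j)) M = xi q i1 p1 z M * xi q i2 p2 w M := by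
  rw [S.QZ_split, chi_add_left]; rfl

lemma Spl.inv (S : Spl q i1 p1 i2 p2) (z : Fin n → E1) (M : G (Fk n × E)) (h : Fin n → E2) :
    xi q i1 p1 z (M + sh i2 h) = xi q i1 p1 z M := by
  simp only [xi, sh, map_add, push_prodMap_tau, S.h12]
  rw [show (tau fun _ : Fin n => (0 : E1)) = 0 from tau_zero, add_zero]

/-- pairs of tuples are tuples -/
def Spl.equiv (S : Spl q i1 p1 i2 p2) (n : ℕ) : (Fin n → E1) × (Fin n → E2) ≃ (Fin n → E) where
  toFun x := fun j => i1 (x.1 j) + i2 (x.2 j)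
  invFun Z := (fun j => p1 (Z j), fun j => p2 (Z j))
  left_inv x := by
    ext j
    · simp only [map_add, S.h11, S.h12, add_zero]
    · simp only [map_add, S.h21, S.h22, zero_add]
  right_inv Z := funext fun j => S.sum _

variable [Finite E] [Finite E1] [Finite E2]

omit [Finite E] [Finite E2] in
lemma Spl.sys (S : Spl q i1 p1 i2 p2) (h : ND q) :
    Sys (xi (n := n) q i1 p1) (sh i1) fun h z => sg (brk (q.comp i1) h z) where
  sq z M := chi_mul_self _ _
  shift z M h := by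
    simp only [xi, sh, map_add, push_prodMap_tau, S.h11, chi_add]
    rw [chi_tau]
  orth z z' := by
    simp only [← sg_add, ← brk_add_right]
    rw [av_sg_brk (S.nd h)]
    exact ind_congr add_eq_zero2

omit [Finite E] in
lemma Spl.bi (S : Spl q i1 p1 i2 p2) (h : ND q) :
    Bi (xi (n := n) q i1 p1) (sh i1) (fun h z => sg (brk (q.comp i1) h z))
      (xi q i2 p2) (sh i2) fun h z => sg (brk (q.comp i2) h z) :=
  ⟨S.sys h, S.symm.sys h, S.symm.inv, S.inv⟩

omit [Finite E] in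
lemma Spl.kk_eq (S : Spl q i1 p1 i2 p2) (c : (Fin n → E) → ℝ) :
    kk (xi q i1 p1) (xi q i2 p2) (fun z w => c fun j => i1 (z j) + i2 (w j)) = fld q c := by
  funext M
  rw [fld, ← sm_equiv (S.equiv n), sm_prod, kk, fl]
  refine sm_congr fun z => ?_
  rw [fl, ← sm_mul_right]
  refine sm_congr fun w => ?_
  change _ = c (fun j => i1 (z j) + i2 (w j)) * chi (QZ q fun j => i1 (z j) + i2 (w j)) M
  rw [S.chi_split]; ring

lemma Spl.inner (S : Spl q i1 p1 i2 p2) (u : G (Fk n × E) → ℝ) (a : (Fin n → E1) → ℝ)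
    (b : (Fin n → E2) → ℝ) :
    av (fun M => u M * fl (xi q i1 p1) a M * fl (xi q i2 p2) b M) =
      sm fun w => (sm fun z => cf q u (fun j => i1 (z j) + i2 (w j)) * a z) * b w := by
  have e : ∀ M, u M * fl (xi q i1 p1) a M * fl (xi q i2 p2) b M = sm fun w => sm fun z =>
      (u M * chi (QZ q fun j => i1 (z j) + i2 (w j)) M) * (a z * b w) := fun M => by
    simp only [fl, ← sm_mul_left, ← sm_mul_right, S.chi_split]
    exact sm_congr fun w => sm_congr fun z => by ring
  simp only [e]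
  rw [av_sm_comm]
  refine sm_congr fun w => ?_
  rw [av_sm_comm, ← sm_mul_right]
  refine sm_congr fun z => ?_
  rw [av_mul_right, mul_assoc]; rfl

omit [Finite E2] in
lemma Spl.spec (S : Spl q i1 p1 i2 p2) (h : ND q) (a : (Fin n → E1) → ℝ) :
    Spec (Top (finrank F E1)) (fl (xi q i1 p1) a) :=
  spec_sm a (fun z => (QZ (q.comp i1) z).comp (pr n p1)) fun z _ =>
    top_comp_of_surj (top_QZ (S.nd h) z) S.surj

omit [Finite E2] in
/-- the projection of a tame function to the first system is tame -/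
lemma Spl.tame (S : Spl q i1 p1 i2 p2) (h : ND q) {D C : ℕ → ℝ} (hC0 : ∀ p, 0 ≤ C p)
    (hC : ∀ (p : ℕ) (r : G (Fk n × E1) → ℝ), av (fun M => |proj (Top (finrank F E1)) r M| ^ p) ≤
      C p * (1 + av fun M => |r M| ^ (2 * p)))
    {g : G (Fk n × E) → ℝ} (hg : Tame D g) :
    Tame (fun p => C p * (1 + D (2 * p)))
      (fl (xi q i1 p1) fun z => av fun M => g M * xi q i1 p1 z M) := by
  have hs := push_surj (S.surj (n := n))
  have h1 := hg.cond (push (pr n p1)) (map_add _) hs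
  set r := cond (push (pr n p1)) g with hr
  have h2 : Tame (fun p => C p * (1 + D (2 * p))) (proj (Top (finrank F E1)) r) := fun p =>
    (hC p r).trans (mul_le_mul_of_nonneg_left (by linarith [h1 (2 * p)]) (hC0 p))
  have h3 := (tame_fld (S.nd h) (spec_proj _ r) h2).comp (push (pr n p1)) (map_add _) hs
  have e : cf (q.comp i1) (proj (Top (finrank F E1)) r) =
      fun z => av fun M => g M * xi q i1 p1 z M := by
    funext z
    rw [cf, coef_proj, ind_pos (top_QZ (S.nd h) z), one_mul, coef, hr, av_cond_mul]; rfl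
  rw [e] at h3
  exact h3

omit [Finite E] in
lemma Spl.dim (S : Spl q i1 p1 i2 p2) : finrank F E1 + finrank F E2 = finrank F E := by
  rw [← finrank_prod]
  refine LinearEquiv.finrank_eq (LinearEquiv.ofBijective (i1.coprod i2) ⟨?_, fun e => ?_⟩)
  · refine (injective_iff_map_eq_zero _).2 fun x hx => ?_
    have h1 := congrArg p1 hx
    have h2 := congrArg p2 hx
    simp only [LinearMap.coprod_apply, map_add, S.h11, S.h12, S.h21, S.h22, add_zero, zero_add,
      map_zero] at h1 h2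
    exact Prod.ext h1 h2
  · exact ⟨(p1 e, p2 e), S.sum e⟩

omit [Finite E1] [Finite E2] in
lemma exists_spl (q : QF E) (S : Submodule F E) (h : S ⊓ perp q S = ⊥) :
    ∃ p1 p2, Spl q S.subtype p1 (perp q S).subtype p2 := by
  have hc : IsCompl S (perp q S) :=
    (LinearMap.BilinForm.isCompl_orthogonal_iff_disjoint
      (fun x y hxy => by
        rw [QuadraticMap.polarBilin_apply_apply] at hxy ⊢
        rw [QuadraticMap.polar_comm, hxy])).2 (disjoint_iff.2 h)
  exact ⟨S.projectionOnto _ hc, (perp q S).projectionOnto _ hc.symm,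
    Submodule.projectionOnto_apply_left hc, Submodule.projectionOnto_apply_left hc.symm,
    Submodule.projectionOnto_apply_right hc, Submodule.projectionOnto_apply_right hc.symm,
    Submodule.projection_add_projection_eq_self hc, fun x y => y.2 x.1 x.2⟩

lemma lp_unif (hLP : LP) (J : ℕ) : ∃ C : ℕ → ℝ, (∀ p, 0 ≤ C p) ∧ ∀ J1, J1 < J → ∀ (p : ℕ)
    (V : Type) [AddCommGroup V] [Module F V] [Finite V] (h : G V → ℝ),
      av (fun M => |proj (Top J1) h M| ^ p) ≤ C p * (1 + av fun M => |h M| ^ (2 * p)) := by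
  choose C hC0 hC using hLP
  refine ⟨fun p => ∑ j ∈ Finset.range J, C j p, fun p => Finset.sum_nonneg fun j _ => hC0 j p,
    fun J1 hJ p V _ _ _ h => (hC J1 p V h).trans (mul_le_mul_of_nonneg_right
      (Finset.single_le_sum (f := fun j => C j p) (fun j _ => hC0 j p) (Finset.mem_range.2 hJ))
      (add_nonneg zero_le_one (av_nonneg fun M => by positivity)))⟩

lemma full_unif {J : ℕ} (h : ∀ J1, 1 ≤ J1 → J1 < J → FULL J1) (D : ℕ → ℝ) (k : ℕ) {η : ℝ}
    (hη : 0 < η) : ∃ n0 : ℕ, ∀ J1, 1 ≤ J1 → J1 < J →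
      ∀ (V : Type) [AddCommGroup V] [Module F V] [Finite V], n0 ≤ finrank F V →
        ∀ h : G V → ℝ, Spec (CJ J1) h → Tame D h → Drop J1 h k η η := by
  have : ∀ J1, ∃ n0 : ℕ, 1 ≤ J1 → J1 < J →
      ∀ (V : Type) [AddCommGroup V] [Module F V] [Finite V], n0 ≤ finrank F V →
        ∀ h : G V → ℝ, Spec (CJ J1) h → Tame D h → Drop J1 h k η η := fun J1 => by
    by_cases h1 : 1 ≤ J1 ∧ J1 < J
    · obtain ⟨n0, hn⟩ := h J1 h1.1 h1.2 D k η hη
      exact ⟨n0, fun _ _ => hn⟩
    · exact ⟨0, fun a b => absurd ⟨a, b⟩ h1⟩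
  choose N hN using this
  exact ⟨∑ j ∈ Finset.range J, N j, fun J1 a b V _ _ _ hV => hN J1 a b V
    ((Finset.single_le_sum (f := N) (fun _ _ => Nat.zero_le _) (Finset.mem_range.2 b)).trans hV)⟩

lemma tame_even {α : Type} [Finite α] {D : ℕ → ℝ} {g : α → ℝ} (hg : Tame D g) {p : ℕ}
    (hp : Even p) : av (fun x => g x ^ p) ≤ |D p| := by
  have := hg p
  simp only [hp.pow_abs] at this
  exact this.trans (le_abs_self _)

end SD.Pr

namespace SD

open Module Pr

theorem pr_of (hLP : LP) (J : ℕ) (h : ∀ J1, 1 ≤ J1 → J1 < J → FULL J1) : PR J := by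
  intro D ηS hηS
  obtain ⟨T, γ, hT, hγ, hcore⟩ := core D hηS
  obtain ⟨C, hC0, hC⟩ := lp_unif hLP J
  set D' : ℕ → ℝ := fun p => C p * (1 + T ^ (2 * p) * D (2 * p)) with hD'
  set W := |D 4| + |D 8| + |D' 4| + |D' 8| + C 4 + 1 with hW
  have w1 := abs_nonneg (D 4)
  have w2 := abs_nonneg (D 8)
  have w3 := abs_nonneg (D' 4)
  have w4 := abs_nonneg (D' 8)
  have w5 := hC0 4
  obtain ⟨c, ε, hc, hε, hgain⟩ := gain_of γ W hγ (by linarith)
  refine ⟨c, hc, fun k η hη => ?_⟩
  obtain ⟨n0, hn0⟩ := full_unif h D' k (lt_min hη hε)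
  refine ⟨n0, fun n hn E _ _ _ q u hs S hb ht hS hbox => ?_⟩
  obtain ⟨p1, p2, sp⟩ := exists_spl q S hS
  have hJ1 : 1 ≤ finrank F S := Submodule.one_le_finrank_iff.2 hb
  have hJ2 : finrank F S < J := hs.dim ▸ Submodule.finrank_lt ht
  have hJ := sp.dim
  rw [hs.dim] at hJ
  have bi := sp.bi (n := n) hs.nd
  have hK := sp.kk_eq (cf q u)
  obtain ⟨f, hf, hγb⟩ := hcore _ _ _ _ _ _ _ _ _
    (fun z w => cf q u fun j => S.subtype (z j) + (perp q S).subtype (w j)) bi
    (by rw [hK]; exact hs.tK) (by rw [hK]; exact hbox)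
  have hproj := bi.proj fun z w => cf q u fun j => S.subtype (z j) + (perp q S).subtype (w j)
  rw [hK] at hγb hproj
  set K := fld q (cf q u) with hKd
  set a : (Fin n → S) → ℝ := fun z => av fun M => K M * f M * xi q S.subtype p1 z M with ha
  have tKf : Tame (fun p => T ^ p * D p) fun M => K M * f M := fun p => by
    refine le_trans (av_mono fun M => ?_) ((av_mul_left (T ^ p) fun M => |K M| ^ p).trans_le
      (mul_le_mul_of_nonneg_left (hs.tK p) (pow_nonneg hT.le p)))
    rw [abs_mul, mul_pow, mul_comm]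
    exact mul_le_mul_of_nonneg_right (pow_le_pow_left₀ (abs_nonneg _) (hf M) p) (by positivity)
  have th : Tame D' (fl (xi q S.subtype p1) a) :=
    sp.tame hs.nd hC0 (fun p r => hC _ hJ2 p _ r) tKf
  have sh1 : Spec (CJ (finrank F S)) (fl (xi q S.subtype p1) a) :=
    (sp.spec hs.nd a).mono fun Q hQ => Or.inr hQ
  obtain ⟨A, hA1, hA2⟩ := hn0 _ hJ1 hJ2 (Fk n × E) (by
    rw [finrank_prod, finrank_Fk]; omega) _ sh1 th
  have k8 := tame_even hs.tK (show Even 8 by decide)
  have h8 := tame_even th (show Even 8 by decide)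
  have h4 := tame_even th (show Even 4 by decide)
  have u4 := tame_even hs.tu (show Even 4 by decide)
  refine hgain J _ _ k (C 4) η hJ.le w5 (by linarith) (fun r => hC _ hJ2 4 _ r) _ u _
    (fl (xi q (perp q S).subtype p2) fun w => sm fun z =>
      cf q u (fun j => S.subtype (z j) + (perp q S).subtype (w j)) * a z) sh1
    ((sp.symm.spec hs.nd _).mono fun Q hQ => hQ.1.le)
    ⟨A, hA1.trans (min_le_left _ _), hA2.trans (min_le_right _ _)⟩ (by linarith) ?_ (by linarith)
    (by linarith) ?_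
  · simp only [← hproj]
    have e := av_shift (fun M => K M ^ 8 + fl (xi q S.subtype p1) a M ^ 8) (sh (n := n) S.subtype)
    rw [av_add] at e
    refine le_trans (av_mono fun M => ?_) (e.trans_le (by linarith))
    rw [← Even.pow_abs (show Even 4 by decide)]
    refine (abs_av_pow_le _ 4).trans (av_mono fun o => ?_)
    rw [Even.pow_abs (show Even 4 by decide)]
    nlinarith [sq_nonneg (K (M + sh S.subtype o) ^ 4 - fl (xi q S.subtype p1) a
      (M + sh S.subtype o) ^ 4), sq_nonneg (K (M + sh S.subtype o) ^ 4),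
      sq_nonneg (fl (xi q S.subtype p1) a (M + sh S.subtype o) ^ 4)]
  · rw [sp.inner]
    simpa only [pow_two] using hγb

end SD
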