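import Pool.Agent.Lib.MP_ecee09_co.SD.PuD

/-! Section 7, (P1): the probability that a tuple has given residues. -/

namespace SD

open Module

variable {ρ m : ℕ} {V : Type} [AddCommGroup V] [Module F V] [Finite V]

/-- the dual tuples that annihilate the residue map -/
def puYY (p : Fin m → Pt ρ V) : Set (Fin m × Fin ρ → Dual F V) :=
  {y | (∀ i, ∑ r, y (r, i) = 0) ∧ ∑ a, mulL ((p a.1).1 a.2) (y a) = 0}

lemma pu1_mv (M : G V) (v y : Dual F V) : y (mv M v) = M (mulL v y) := by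
  rw [mv, apply_evalEquiv_symm_apply]
  rfl

lemma pu1_dg (M : G V) (y : Dual F V) : y (dg M) = M (sqL y) := by
  rw [dg, apply_evalEquiv_symm_apply]
  rfl

omit [Finite V] in
lemma pu1_ext {x x' : V} (h : ∀ y : Dual F V, y x = y x') : x = x' :=
  sub_eq_zero.1 ((Module.forall_dual_apply_eq_zero_iff F _).1 fun y => by rw [map_sub, h, sub_self])

lemma pu1_delta {A : Type} [Fintype A] (u : A → V) :
    ind (∀ a, u a = 0) = av fun y : A → Dual F V => sg (∑ a, y a (u a)) := by
  classical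
  rw [av_sg (fun y : A → Dual F V => ∑ a, y a (u a)) fun y y' => by
    simp only [Pi.add_apply, LinearMap.add_apply, Finset.sum_add_distrib]]
  refine ind_congr ⟨fun h y => by simp [h], fun h a => pu1_ext fun z => ?_⟩
  have := h (Pi.single a z)
  rw [Finset.sum_eq_single a] at this
  · simpa using this
  · intro j _ hj; simp [Pi.single_eq_of_ne hj]
  · simp

lemma pu1_lin (ε : Fk ρ) (p : Fin m → Pt ρ V) (w : Fin m → Fin ρ → V)
    (y : Fin m × Fin ρ → Dual F V) (x : Gam ρ V) :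
    ∑ a, y a (resid ε (p a.1) x a.2 + w a.1 a.2) =
      (x.1 (∑ a, mulL ((p a.1).1 a.2) (y a)) + ∑ i, (∑ r, y (r, i)) (x.2 i + ε i • dg x.1)) +
        ∑ a, y a ((p a.1).2 a.2 + w a.1 a.2) := by
  have h : ∑ i, (∑ r, y (r, i)) (x.2 i + ε i • dg x.1) =
      ∑ a, y a (x.2 a.2 + ε a.2 • dg x.1) := by
    rw [Fintype.sum_prod_type_right]
    simp only [LinearMap.sum_apply]
  rw [h, map_sum, ← Finset.sum_add_distrib, ← Finset.sum_add_distrib]
  refine Finset.sum_congr rfl fun a _ => ?_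
  simp only [resid, map_add, pu1_mv]; ring

lemma pu1_av (ε : Fk ρ) (Q : QF V) (Y : Fin ρ → Dual F V) :
    av (fun x : Gam ρ V => sg (x.1 Q + ∑ i, Y i (x.2 i + ε i • dg x.1))) =
      ind ((∀ i, Y i = 0) ∧ Q = 0) := by
  classical
  rw [av_sg (fun x : Gam ρ V => x.1 Q + ∑ i, Y i (x.2 i + ε i • dg x.1)) fun x x' => by
    simp only [Prod.fst_add, Prod.snd_add, Pi.add_apply, LinearMap.add_apply, map_add, map_smul,
      pu1_dg, smul_add, Finset.sum_add_distrib]
    ring]
  refine ind_congr ⟨fun h => ?_, fun h x => by simp [h.1, h.2]⟩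
  have hY : ∀ i, Y i = 0 := fun i => LinearMap.ext fun z => by
    have := h (0, Pi.single i z)
    simp only [map_add, map_smul, pu1_dg, LinearMap.zero_apply, smul_zero, add_zero,
      zero_add] at this
    rw [Finset.sum_eq_single i] at this
    · simpa using this
    · intro j _ hj; simp [Pi.single_eq_of_ne hj]
    · simp
  refine ⟨hY, (Module.forall_dual_apply_eq_zero_iff F Q).1 fun M => ?_⟩
  simpa [hY] using h (M, 0)

/-- Fourier formula -/
lemma pu1_formula (ε : Fk ρ) (p : Fin m → Pt ρ V) (w : Fin m → Fin ρ → V) :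
    (av fun x : Gam ρ V => ind (puM ε p w x)) =
      (sm fun y => ind (y ∈ puYY p) * sg (∑ a, y a ((p a.1).2 a.2 + w a.1 a.2))) /
        DP V (ρ * m) := by
  have h1 : ∀ x : Gam ρ V, ind (puM ε p w x) = av fun y : Fin m × Fin ρ → Dual F V =>
      sg (∑ a, y a (resid ε (p a.1) x a.2 + w a.1 a.2)) := fun x => by
    rw [← pu1_delta fun a : Fin m × Fin ρ => resid ε (p a.1) x a.2 + w a.1 a.2]
    exact ind_congr ⟨fun h a => add_eq_zero2.2 (congrFun (h a.1) a.2),
      fun h r => funext fun i => add_eq_zero2.1 (h (r, i))⟩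
  simp only [h1, pu1_lin, sg_add]
  rw [av_comm, av_def]
  congr 1
  · refine sm_congr fun y => ?_
    rw [av_mul_right]
    simp only [← sg_add]
    rw [pu1_av ε (∑ a, mulL ((p a.1).1 a.2) (y a)) fun i => ∑ r, y (r, i)]
    rfl
  · rw [DP, Nat.card_fun, card_dual, Nat.card_prod]
    simp [mul_comm]

omit [Finite V] in
lemma pu1_comb (l : Fin m → Fk ρ) (p : Fin m → Pt ρ V) (x : V) :
    (∑ r, (comb (l r) (p r)).1) x = ∑ a : Fin m × Fin ρ, l a.1 a.2 * (p a.1).1 a.2 x := by
  rw [Fintype.sum_prod_type]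
  simp only [comb, LinearMap.sum_apply, LinearMap.smul_apply, smul_eq_mul]

omit [Finite V] in
lemma pu1_quad {p : Fin m → Pt ρ V} {y : Fin m × Fin ρ → Dual F V} (hy : y ∈ puYY p) (x : V) :
    ∑ a, y a x * (p a.1).1 a.2 x = 0 := by
  have h := congrArg (ev x) hy.2
  rw [map_sum, map_zero] at h
  exact h

omit [Finite V] in
lemma pu1_polar {p : Fin m → Pt ρ V} {y : Fin m × Fin ρ → Dual F V} (hy : y ∈ puYY p) (x x' : V) :
    ∑ a, y a x * (p a.1).1 a.2 x' = ∑ a, y a x' * (p a.1).1 a.2 x := by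
  have h := pu1_quad hy (x + x')
  simp only [map_add, add_mul, mul_add, Finset.sum_add_distrib, pu1_quad hy, zero_add,
    add_zero] at h
  exact (add_eq_zero2.1 h).symm

/-- a family of functionals as a map to labels -/
def pu1Y (y : Fin m × Fin ρ → Dual F V) : V →ₗ[F] (Fin m → Fk ρ) :=
  LinearMap.pi fun r => LinearMap.pi fun i => y (r, i)

omit [Finite V] in
lemma pu1_ker {p : Fin m → Pt ρ V} {y : Fin m × Fin ρ → Dual F V} (hy : y ∈ puYY p) {x : V}
    (hx : pu1Y (fun a => (p a.1).1 a.2) x = 0) : pu1Y y x ∈ puDD p := by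
  refine mem_puDD.2 ⟨funext fun i => ?_, LinearMap.ext fun x' => ?_⟩
  · have := LinearMap.congr_fun (hy.1 i) x
    rw [LinearMap.sum_apply] at this
    rw [Finset.sum_apply]
    exact this
  · rw [pu1_comb]
    refine (pu1_polar hy x x').trans (Finset.sum_eq_zero fun a _ => ?_)
    have : (p a.1).1 a.2 x = 0 := congrFun (congrFun hx a.1) a.2
    rw [this, mul_zero]

lemma pu1_inner {X Y : Type} [AddCommGroup X] [Module F X] [AddCommGroup Y] [Module F Y]
    (f : X →ₗ[F] Y) : ∃ s : Y →ₗ[F] X, ∀ x, f (s (f x)) = f x := by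
  obtain ⟨g, hg⟩ := f.rangeRestrict.exists_rightInverse_of_surjective f.range_rangeRestrict
  obtain ⟨s, hs⟩ := g.exists_extend
  refine ⟨s, fun x => ?_⟩
  have h1 : s (f x) = g (f.rangeRestrict x) := LinearMap.congr_fun hs (f.rangeRestrict x)
  have h2 : f.rangeRestrict (g (f.rangeRestrict x)) = f.rangeRestrict x :=
    LinearMap.congr_fun hg _
  rw [h1]
  exact congrArg Subtype.val h2

lemma pu1_card_hom (X Y : Type) [AddCommGroup X] [Module F X] [Finite X] [AddCommGroup Y]
    [Module F Y] [Finite Y] : Nat.card (X →ₗ[F] Y) = Nat.card X ^ finrank F Y := by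
  rw [card_eq_pow, card_eq_pow (X := X), Module.finrank_linearMap, pow_mul]

lemma pu1_card (p : Fin m → Pt ρ V) :
    cnt (puYY p) ≤ 2 ^ ((m * ρ) ^ 2) * DP V (finrank F (puDD p)) := by
  obtain ⟨π, hπ⟩ := (puDD p).subtype.exists_leftInverse_of_injective (puDD p).ker_subtype
  set κ := pu1Y (fun a => (p a.1).1 a.2) with hκ
  obtain ⟨s, hs⟩ := pu1_inner κ
  let g : puYY p → ((Fin m → Fk ρ) →ₗ[F] (Fin m → Fk ρ)) × (V →ₗ[F] puDD p) :=
    fun y => ((pu1Y y.1).comp s, π.comp (pu1Y y.1))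
  have hg : Function.Injective g := fun y y' h => by
    have e1 : ∀ z, pu1Y y.1 (s z) = pu1Y y'.1 (s z) := LinearMap.congr_fun (congrArg Prod.fst h)
    have e2 : ∀ x, π (pu1Y y.1 x) = π (pu1Y y'.1 x) := LinearMap.congr_fun (congrArg Prod.snd h)
    refine Subtype.ext (funext fun a => LinearMap.ext fun x => ?_)
    have hk : κ (x + s (κ x)) = 0 := by rw [map_add, hs, add_self2]
    have f1 : π (pu1Y y.1 (x + s (κ x))) = ⟨_, pu1_ker y.2 hk⟩ :=
      LinearMap.congr_fun hπ ⟨_, pu1_ker y.2 hk⟩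
    have f2 : π (pu1Y y'.1 (x + s (κ x))) = ⟨_, pu1_ker y'.2 hk⟩ :=
      LinearMap.congr_fun hπ ⟨_, pu1_ker y'.2 hk⟩
    have f3 : pu1Y y.1 (x + s (κ x)) = pu1Y y'.1 (x + s (κ x)) :=
      congrArg Subtype.val (f1.symm.trans ((e2 _).trans f2))
    rw [map_add, map_add, e1, add_left_inj] at f3
    exact congrFun (congrFun f3 a.1) a.2
  have hc := Nat.card_le_card_of_injective g hg
  have hW : finrank F (Fin m → Fk ρ) = m * ρ := by simp [Module.finrank_pi_fintype]
  rw [Nat.card_prod, pu1_card_hom, pu1_card_hom, card_eq_pow (X := Fin m → Fk ρ), hW, ← pow_mul,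
    ← sq] at hc
  rw [cnt_eq_card, DP]
  exact_mod_cast hc

/-- (P1), general bound -/
lemma pu1_le (ε : Fk ρ) (p : Fin m → Pt ρ V) (w : Fin m → Fin ρ → V) :
    (av fun x : Gam ρ V => ind (puM ε p w x)) ≤
      2 ^ ((m * ρ) ^ 2) * DP V (finrank F (puDD p)) / DP V (ρ * m) := by
  rw [pu1_formula]
  refine div_le_div_of_nonneg_right (le_trans (sm_mono fun y => ?_) (pu1_card p)) (DP_pos _).le
  exact mul_le_of_le_one_right (ind_nonneg _) (sg_le_one _)

/-- (P1), the forced relations -/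
lemma pu1_forced {ε : Fk ρ} {p : Fin m → Pt ρ V} {w : Fin m → Fin ρ → V} {x : Gam ρ V}
    (h : puM ε p w x) {l : Fin m → Fk ρ} (hl : l ∈ puDD p) :
    ∑ r, (comb (l r) (p r)).2 = ∑ r, ∑ i, l r i • w r i := by
  refine pu1_ext fun z => ?_
  have h1 := pu1_lin ε p w (fun a => l a.1 a.2 • z) x
  have h2 : ∀ i, ∑ r, l r i • z = 0 := fun i => by
    have := congrFun hl.1 i
    rw [Finset.sum_apply] at this
    rw [← Finset.sum_smul, this, Pi.zero_apply, zero_smul]
  have h3 : ∑ a : Fin m × Fin ρ, mulL ((p a.1).1 a.2) (l a.1 a.2 • z) = 0 := by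
    refine QuadraticMap.ext fun v => ?_
    have e := LinearMap.congr_fun hl.2 v
    rw [pu1_comb, LinearMap.zero_apply] at e
    change ev v _ = 0
    rw [map_sum]
    change ∑ a : Fin m × Fin ρ, (l a.1 a.2 * z v) * (p a.1).1 a.2 v = 0
    simp only [mul_right_comm _ (z v)]
    rw [← Finset.sum_mul, e, zero_mul]
  have h4 : ∀ a : Fin m × Fin ρ, resid ε (p a.1) x a.2 + w a.1 a.2 = 0 := fun a =>
    add_eq_zero2.2 (congrFun (h a.1) a.2)
  simp only [h2, h3, h4, map_zero, Finset.sum_const_zero, LinearMap.zero_apply, add_zero, zero_add,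
    map_add, Finset.sum_add_distrib] at h1
  have h5 := add_eq_zero2.1 h1.symm
  simp only [Fintype.sum_prod_type, LinearMap.smul_apply] at h5
  simp only [comb, map_sum, map_smul]
  exact h5

lemma pu1_bij {α β : Type} [Finite α] [Finite β] {S : Set α} {T : Set β} {g : α → β}
    (h : Set.BijOn g S T) (f : β → ℝ) :
    (sm fun y => ind (y ∈ T) * f y) = sm fun x => ind (x ∈ S) * f (g x) := by
  rw [← sm_subtype (fun y => y ∈ T) f, ← sm_subtype (fun x => x ∈ S) fun x => f (g x)]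
  exact (sm_equiv (h.equiv g) fun y : T => f y).symm

omit [Finite V] in
/-- dual vectors for an independent tuple -/
lemma pu1_dual {p : Fin m → Pt ρ V} (hp : puDD p = ⊥) (b : Fin m × Fin ρ) :
    ∃ (x : V) (f : Fk ρ), ∀ a : Fin m × Fin ρ,
      (p a.1).1 a.2 x = (if a = b then 1 else 0) + f a.2 := by
  let T : V × Fk ρ →ₗ[F] (Fin m × Fin ρ → F) := LinearMap.pi fun a =>
    ((p a.1).1 a.2).coprod (LinearMap.proj a.2)
  have hT : ∀ x f a, T (x, f) a = (p a.1).1 a.2 x + f a.2 := fun _ _ _ => rfl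
  have hs : LinearMap.range T = ⊤ := by
    by_contra hne
    obtain ⟨φ, h0, hφ⟩ := Submodule.exists_le_ker_of_lt_top _ (lt_top_iff_ne_top.2 hne)
    set l : Fin m × Fin ρ → F := fun a => φ fun j => if a = j then 1 else 0 with hl
    have e : ∀ z, φ z = ∑ a, l a * z a := fun z => by
      rw [φ.pi_apply_eq_sum_univ]
      exact Finset.sum_congr rfl fun a _ => mul_comm _ _
    have e0 : ∀ (x : V) (f : Fk ρ), ∑ a, l a * ((p a.1).1 a.2 x + f a.2) = 0 := fun x f => by
      have : φ (T (x, f)) = 0 := hφ ⟨_, rfl⟩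
      rw [e] at this
      exact this
    have hm : (fun r i => l (r, i)) ∈ puDD p := by
      refine mem_puDD.2 ⟨funext fun i => ?_, LinearMap.ext fun x => ?_⟩
      · have := e0 0 (Pi.single i 1)
        rw [Fintype.sum_prod_type] at this
        rw [Finset.sum_apply]
        simpa [Pi.single_apply] using this
      · rw [pu1_comb]
        simpa using e0 x 0
    rw [hp, Submodule.mem_bot] at hm
    refine h0 (LinearMap.ext fun z => ?_)
    rw [e]
    exact Finset.sum_eq_zero fun a _ => by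
      rw [show l a = 0 from congrFun (congrFun hm a.1) a.2, zero_mul]
  obtain ⟨⟨x, f⟩, h⟩ := LinearMap.range_eq_top.1 hs fun a => if a = b then 1 else 0
  refine ⟨x, f, fun a => ?_⟩
  have := congrFun h a
  rw [hT] at this
  rw [← this, add_assoc, F_add_self, add_zero]

lemma pu1_pick {c g : Fin m × Fin ρ → F} (hc : ∀ i, ∑ r, c (r, i) = 0) {b : Fin m × Fin ρ}
    {f : Fk ρ} (hg : ∀ a, g a = (if a = b then 1 else 0) + f a.2) : ∑ a, c a * g a = c b := by
  have h : ∑ a : Fin m × Fin ρ, c a * f a.2 = 0 := by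
    rw [Fintype.sum_prod_type_right]
    refine Finset.sum_eq_zero fun i _ => ?_
    simp only [← Finset.sum_mul, hc, zero_mul]
  simp only [hg, mul_add, Finset.sum_add_distrib, h, add_zero]
  simp

lemma pu1_alt {A : Type} [Fintype A] (g : A → A → F) (h1 : ∀ a b, g a b = g b a)
    (h2 : ∀ a, g a a = 0) : ∑ a, ∑ b, g a b = 0 := by
  rw [← Fintype.sum_prod_type']
  refine Finset.sum_involution (fun z _ => z.swap) (fun z _ => ?_) (fun z _ hz e => hz ?_)
    (fun _ _ => Finset.mem_univ _) fun _ _ => rfl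
  · rw [h1]; exact F_add_self _
  · have : z.2 = z.1 := congrArg Prod.fst e
    rw [this, h2]

omit [Finite V] in
lemma pu1_bijOn {p : Fin m → Pt ρ V} (hp : puDD p = ⊥) :
    Set.BijOn (fun (μ : Fin m × Fin ρ → Fin m × Fin ρ → F) (b : Fin m × Fin ρ) =>
      ∑ a, μ a b • (p a.1).1 a.2) (puMM m ρ) (puYY p) := by
  choose x f hx using pu1_dual hp
  have ap : ∀ (μ : Fin m × Fin ρ → Fin m × Fin ρ → F) (b : Fin m × Fin ρ) (v : V),
      (∑ a, μ a b • (p a.1).1 a.2) v = ∑ a, μ a b * (p a.1).1 a.2 v := fun μ b v => by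
    simp only [LinearMap.sum_apply, LinearMap.smul_apply, smul_eq_mul]
  refine ⟨fun μ hμ => ⟨fun i => ?_, QuadraticMap.ext fun v => ?_⟩, fun μ hμ μ' hμ' h => ?_,
    fun y hy => ?_⟩
  · rw [Finset.sum_comm]
    refine Finset.sum_eq_zero fun a _ => ?_
    rw [← Finset.sum_smul]
    simp only [hμ.1 a, hμ.2.2, zero_smul]
  · change ev v _ = 0
    rw [map_sum]
    change ∑ b : Fin m × Fin ρ, (∑ a, μ a b • (p a.1).1 a.2) v * (p b.1).1 b.2 v = 0
    simp only [ap, Finset.sum_mul]
    refine pu1_alt (fun b a => μ a b * (p a.1).1 a.2 v * (p b.1).1 b.2 v) (fun a b => ?_)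
      fun a => ?_
    · rw [hμ.1 a b]; ring
    · rw [hμ.2.1, zero_mul, zero_mul]
  · funext c b
    have e := LinearMap.congr_fun (congrFun h b) (x c)
    rwa [ap, ap, pu1_pick (fun i => hμ.2.2 i b) (hx c), pu1_pick (fun i => hμ'.2.2 i b) (hx c)] at e
  · have hb : ∀ v i, ∑ r, y (r, i) v = 0 := fun v i => by
      have := LinearMap.congr_fun (hy.1 i) v
      rwa [LinearMap.sum_apply] at this
    have k : ∀ c v, y c v = ∑ a, y a (x c) * (p a.1).1 a.2 v := fun c v =>
      (pu1_pick (c := fun a => y a v) (hb v) (hx c)).symm.trans (pu1_polar hy v (x c))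
    refine ⟨fun a c => y a (x c), ⟨fun c b => ?_, fun c => ?_, fun i b => hb _ i⟩,
      funext fun c => LinearMap.ext fun v => ?_⟩
    · exact (k c (x b)).trans (pu1_pick (c := fun a => y a (x c)) (hb _) (hx b))
    · exact (pu1_pick (c := fun a => y a (x c)) (hb _) (hx c)).symm.trans (pu1_quad hy _)
    · exact (ap (fun a c => y a (x c)) c v).trans (k c v).symm

/-- (P1), exact formula for independent tuples -/
lemma pu1_ind (ε : Fk ρ) (p : Fin m → Pt ρ V) (w : Fin m → Fin ρ → V) (hp : puDD p = ⊥) :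
    (av fun x : Gam ρ V => ind (puM ε p w x)) =
      (sm fun μ => ind (μ ∈ puMM m ρ) * sg (puPh μ p w)) / DP V (ρ * m) := by
  rw [pu1_formula, pu1_bij (pu1_bijOn hp)]
  congr 1
  refine sm_congr fun μ => ?_
  congr 2
  rw [puPh, Finset.sum_comm]
  simp only [LinearMap.sum_apply, LinearMap.smul_apply, smul_eq_mul]

end SD
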