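import Pool.Agent.Lib.MP_ecee09_co.SD.PuD

/-! Section 7, (P3): bilinear sums. -/

namespace SD

open Module

variable {ρ : ℕ} {V : Type} [AddCommGroup V] [Module F V] [Finite V]

/-- the symplectic pairing -/
def pu3S (x y : Pt ρ V) : F := ∑ i, (x.1 i (y.2 i) + y.1 i (x.2 i))

/-- the action of a matrix on particles -/
def pu3T (A : Fin ρ → Fin ρ → F) (p : Pt ρ V) : Pt ρ V :=
  (fun i => (comb (A i) p).1, fun i => (comb (A i) p).2)

omit [Finite V] in
lemma pu3S_add (x x' y : Pt ρ V) : pu3S (x + x') y = pu3S x y + pu3S x' y := by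
  simp only [pu3S, Prod.fst_add, Prod.snd_add, Pi.add_apply, LinearMap.add_apply, map_add,
    ← Finset.sum_add_distrib]
  exact Finset.sum_congr rfl fun i _ => by ring

omit [Finite V] in
lemma pu3S_add' (x y y' : Pt ρ V) : pu3S x (y + y') = pu3S x y + pu3S x y' := by
  simp only [pu3S, Prod.fst_add, Prod.snd_add, Pi.add_apply, LinearMap.add_apply, map_add,
    ← Finset.sum_add_distrib]
  exact Finset.sum_congr rfl fun i _ => by ring

omit [Finite V] in
lemma pu3S_ker {y : Pt ρ V} (h : ∀ x, pu3S x y = 0) : y = 0 := by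
  refine Prod.ext (funext fun i => LinearMap.ext fun v => ?_) (funext fun i => ?_)
  · have := h (0, Pi.single i v)
    simp only [pu3S, Pi.zero_apply, LinearMap.zero_apply, zero_add] at this
    rw [Finset.sum_eq_single i (fun j _ hj => by simp [hj]) (by simp)] at this
    simpa using this
  · refine (Module.forall_dual_apply_eq_zero_iff F _).1 fun φ => ?_
    have := h (Pi.single i φ, 0)
    simp only [pu3S, Pi.zero_apply, map_zero, add_zero] at this
    rw [Finset.sum_eq_single i (fun j _ hj => by simp [hj]) (by simp)] at this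
    simpa using this

lemma pu3_av (y : Pt ρ V) : av (fun x => sg (pu3S x y)) = ind (y = 0) := by
  rw [av_sg (fun x => pu3S x y) fun a b => pu3S_add a b y]
  exact ind_congr ⟨pu3S_ker, fun h x => by simp [h, pu3S]⟩

omit [Finite V] in
lemma pu3T_add (A : Fin ρ → Fin ρ → F) (p p' : Pt ρ V) :
    pu3T A (p + p') = pu3T A p + pu3T A p' := by
  refine Prod.ext (funext fun i => ?_) (funext fun i => ?_) <;> simp [pu3T, comb_add']

omit [Finite V] in
lemma pu3_B (A : Fin ρ → Fin ρ → F) (p p' : Pt ρ V) : puB A p p' = pu3S p (pu3T A p') := by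
  simp only [puB, pu3S, pu3T, comb, map_sum, map_smul, LinearMap.sum_apply,
    LinearMap.smul_apply, smul_eq_mul, mul_add, Finset.sum_add_distrib]

omit [Finite V] in
lemma pu3_B' (A : Fin ρ → Fin ρ → F) (p p' : Pt ρ V) :
    puB A p p' = pu3S (pu3T (fun j i => A i j) p) p' := by
  rw [puB, Finset.sum_comm]
  simp only [pu3S, pu3T, comb, map_sum, map_smul, LinearMap.sum_apply,
    LinearMap.smul_apply, smul_eq_mul, mul_add, Finset.sum_add_distrib]

omit [Finite V] in
lemma pu3_span {ι : Type} (A : ι → Fk ρ) {p p' : Pt ρ V} (h : ∀ i, comb (A i) p = comb (A i) p') :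
    ∀ l ∈ Submodule.span F (Set.range A), comb l p = comb l p' := by
  intro l hl
  induction hl using Submodule.span_induction with
  | mem x hx => obtain ⟨i, rfl⟩ := hx; exact h i
  | zero => rw [comb_zero, comb_zero]
  | add x y _ _ h1 h2 => rw [comb_add, comb_add, h1, h2]
  | smul a x _ h1 => rw [comb_smul, comb_smul, h1]

omit [Finite V] in
lemma pu3T_eq {A : Fin ρ → Fin ρ → F} {p p' : Pt ρ V} (h : pu3T A p = pu3T A p') :
    ∀ l ∈ Submodule.span F (Set.range A), comb l p = comb l p' :=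
  pu3_span A fun i =>
    Prod.ext (congrFun (congrArg Prod.fst h) i) (congrFun (congrArg Prod.snd h) i)

lemma pu3_card (j : ℕ) : (Nat.card (Fin j → Dual F V × V) : ℝ) = DP V (2 * j) := by
  rw [Nat.card_fun, Nat.card_prod, card_dual, Nat.card_eq_fintype_card (α := Fin j),
    Fintype.card_fin, DP, pow_mul, sq]
  push_cast; rfl

lemma pu3_cardPt : (Nat.card (Pt ρ V) : ℝ) = DP V (2 * ρ) := by
  rw [Nat.card_prod, Nat.card_fun, Nat.card_fun, card_dual, Nat.card_eq_fintype_card (α := Fin ρ),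
    Fintype.card_fin, DP, two_mul, pow_add]
  push_cast; rfl

lemma pu3_range (A : Fin ρ → Fin ρ → F) :
    (sm fun z : Pt ρ V => ind (∃ x, pu3T A x = z)) ≤
      DP V (2 * finrank F (Submodule.span F (Set.range A))) := by
  set R := Submodule.span F (Set.range A) with hR
  set b := Module.finBasis F R
  have hb : Submodule.span F (Set.range fun k => (b k : Fk ρ)) = R := by
    have := congrArg (Submodule.map R.subtype) b.span_eq
    rwa [Submodule.map_span, ← Set.range_comp, Submodule.map_subtype_top] at this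
  rw [← pu3_card, ← mul_one (Nat.card _ : ℝ), ← sm_const, ← ind_pos trivial]
  refine sm_ind_le_of_inj _ (fun _ => True)
    (fun z y => ∃ x, pu3T A x = z ∧ (fun k => comb (b k : Fk ρ) x) = y) ?_ ?_
  · rintro z ⟨x, hx⟩
    exact ⟨_, trivial, x, hx, rfl⟩
  · rintro z z' y - - ⟨x, rfl, h1⟩ ⟨x', rfl, h2⟩
    have h := pu3_span (fun k => (b k : Fk ρ)) fun k => congrFun (h1.trans h2.symm) k
    rw [hb] at h
    have h3 : ∀ i, comb (A i) x = comb (A i) x' := fun i => h _ (Submodule.subset_span ⟨i, rfl⟩)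
    simp only [pu3T, h3]

omit [Finite V] in
lemma pu3_wt {P : Set (Pt ρ V)} {a : Pt ρ V → ℝ} (ha : ∀ p, |a p| ≤ 1) (p : Pt ρ V) :
    |ind (p ∈ P) * a p| ≤ ind (p ∈ P) := by
  rw [abs_mul, abs_ind]; exact mul_le_of_le_one_right (ind_nonneg _) (ha p)

lemma pu3_rank (A : Fin ρ → Fin ρ → F) :
    finrank F (Submodule.span F (Set.range fun j i => A i j)) =
      finrank F (Submodule.span F (Set.range A)) :=
  (Matrix.rank_eq_finrank_span_cols (Matrix.of A)).symm.trans
    (Matrix.rank_eq_finrank_span_row (Matrix.of A))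

/-- rows span everything: Hoelder with the energy -/
lemma pu3_full (P : Set (Pt ρ V)) (A : Fin ρ → Fin ρ → F)
    (hA : Submodule.span F (Set.range A) = ⊤) (a a' : Pt ρ V → ℝ) (ha : ∀ p, |a p| ≤ 1)
    (ha' : ∀ p, |a' p| ≤ 1) :
    (sm fun p => sm fun p' => ind (p ∈ P) * ind (p' ∈ P) * (a p * a' p' * sg (puB A p p'))) ^ 4 ≤
      cnt P ^ 3 * (DP V (2 * ρ) * energy P) := by
  set Fx : Pt ρ V → ℝ := fun x => sm fun p' => ind (p' ∈ P) * a' p' * sg (pu3S x (pu3T A p'))
    with hF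
  have e : (sm fun p => sm fun p' =>
      ind (p ∈ P) * ind (p' ∈ P) * (a p * a' p' * sg (puB A p p'))) =
      sm fun p => (ind (p ∈ P) * a p) * (ind (p ∈ P) * Fx p) := by
    refine sm_congr fun p => ?_
    rw [hF, ← sm_mul_left, ← sm_mul_left]
    refine sm_congr fun p' => ?_
    rw [pu3_B]
    by_cases h : p ∈ P
    · rw [ind_pos h]; ring
    · rw [ind_neg h]; ring
  have h1 : (sm fun p => (ind (p ∈ P) * a p) ^ 2) ≤ cnt P := sm_mono fun p => by
    rw [← sq_abs]
    exact (pow_le_pow_left₀ (abs_nonneg _) (pu3_wt ha p) 2).trans (ind_sq _).le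
  have h2 : (sm fun p => (ind (p ∈ P) * Fx p) ^ 2) ^ 2 ≤ cnt P * sm fun p => Fx p ^ 4 := by
    have := sm_cs (fun p => ind (p ∈ P)) fun p => Fx p ^ 2
    simp only [ind_sq, ← pow_mul] at this
    simp only [mul_pow, ind_sq]
    exact this
  have h3 : (sm fun p => Fx p ^ 4) ≤ DP V (2 * ρ) * energy P := by
    have e4 : ∀ x, Fx x ^ 4 = sm fun p1 => sm fun p2 => sm fun p3 => sm fun p4 =>
        (ind (p1 ∈ P) * a' p1 * (ind (p2 ∈ P) * a' p2) * (ind (p3 ∈ P) * a' p3) *
          (ind (p4 ∈ P) * a' p4)) * sg (pu3S x (pu3T A (p1 + p2 + p3 + p4))) := by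
      intro x
      rw [show Fx x ^ 4 = Fx x * (Fx x * (Fx x * Fx x)) by ring, hF]
      simp only [← sm_mul_right]
      simp only [← sm_mul_left]
      refine sm_congr fun p1 => sm_congr fun p2 => sm_congr fun p3 => sm_congr fun p4 => ?_
      simp only [pu3T_add, pu3S_add', sg_add]; ring
    rw [sm_eq_card_mul_av, pu3_cardPt]
    refine mul_le_mul_of_nonneg_left ?_ (DP_pos _).le
    simp only [e4, av_sm_comm, av_mul_left, pu3_av]
    refine sm_mono fun p1 => sm_mono fun p2 => sm_mono fun p3 => ?_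
    rw [← sm_ind_eq (p1 + p2 + p3) fun p4 => ind (p1 ∈ P ∧ p2 ∈ P ∧ p3 ∈ P ∧ p4 ∈ P)]
    refine sm_mono fun p4 => ?_
    rw [mul_comm]
    refine mul_le_mul (ind_mono fun h => ?_) ((le_abs_self _).trans ?_) ?_ (ind_nonneg _) |>.trans'
      (mul_le_mul_of_nonneg_left (le_abs_self _) (ind_nonneg _))
    · have h0 : pu3T A (p1 + p2 + p3 + p4) = pu3T A 0 := by
        rw [h]; simp [pu3T, comb_zero']; rfl
      have h5 := pu3T_eq h0
      rw [hA] at h5
      refine (add_eq_zero2.1 (Prod.ext (funext fun i => ?_) (funext fun i => ?_))).symm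
      · have := congrArg Prod.fst (h5 (Pi.single i 1) trivial)
        rwa [comb_single, comb_single] at this
      · have := congrArg Prod.snd (h5 (Pi.single i 1) trivial)
        rwa [comb_single, comb_single] at this
    · rw [abs_abs, abs_mul, abs_mul, abs_mul, ind_and, ind_and, ind_and, ← mul_assoc, ← mul_assoc]
      have i0 := fun p => ind_nonneg (p ∈ P)
      exact mul_le_mul (mul_le_mul (mul_le_mul (pu3_wt ha' _) (pu3_wt ha' _) (abs_nonneg _) (i0 _))
        (pu3_wt ha' _) (abs_nonneg _) (mul_nonneg (i0 _) (i0 _))) (pu3_wt ha' _) (abs_nonneg _)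
        (mul_nonneg (mul_nonneg (i0 _) (i0 _)) (i0 _))
    · exact abs_nonneg _
  have hc := cnt_nonneg P
  have h0 : 0 ≤ sm fun p => (ind (p ∈ P) * Fx p) ^ 2 := sm_nonneg fun _ => sq_nonneg _
  have h4 := (sm_cs (fun p => ind (p ∈ P) * a p) fun p => ind (p ∈ P) * Fx p).trans
    (mul_le_mul_of_nonneg_right h1 h0)
  rw [e, show 4 = 2 * 2 from rfl, pow_mul]
  refine (pow_le_pow_left₀ (sq_nonneg _) h4 2).trans ?_
  rw [mul_pow, pow_succ (cnt P) 2, mul_assoc]
  exact mul_le_mul_of_nonneg_left (h2.trans (mul_le_mul_of_nonneg_left h3 hc)) (sq_nonneg _)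

/-- Lindsey bound with the collisions for the column span and the row span -/
lemma pu3_low (P : Set (Pt ρ V)) (A : Fin ρ → Fin ρ → F) (a a' : Pt ρ V → ℝ)
    (ha : ∀ p, |a p| ≤ 1) (ha' : ∀ p, |a' p| ≤ 1) :
    (sm fun p => sm fun p' => ind (p ∈ P) * ind (p' ∈ P) * (a p * a' p' * sg (puB A p p'))) ^ 2 ≤
      coll P (Submodule.span F (Set.range fun j i => A i j)) *
        coll P (Submodule.span F (Set.range A)) * DP V (2 * ρ) ^ 2 := by
  set B : Fin ρ → Fin ρ → F := fun j i => A i j with hB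
  set Fz : Pt ρ V → ℝ := fun z => sm fun p' => ind (p' ∈ P) * a' p' * sg (pu3S z p') with hF
  set b : Pt ρ V → ℝ := fun z => sm fun p => ind (pu3T B p = z) * (ind (p ∈ P) * a p) with hb
  have e : (sm fun p => sm fun p' =>
      ind (p ∈ P) * ind (p' ∈ P) * (a p * a' p' * sg (puB A p p'))) =
      sm fun z => b z * (ind (∃ x, pu3T B x = z) * Fz z) := by
    rw [sm_fiber (pu3T B)]
    refine sm_congr fun z => ?_
    rw [hb, ← sm_mul_right]
    refine sm_congr fun p => ?_
    by_cases h : pu3T B p = z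
    · rw [ind_pos h, ind_pos (⟨p, h⟩ : ∃ x, pu3T B x = z), ← h, hF, one_mul, one_mul, one_mul,
        ← sm_mul_left]
      exact sm_congr fun p' => by rw [pu3_B']; ring
    · rw [ind_neg h]; ring
  have h1 : (sm fun z => b z ^ 2) ≤ sm fun p => sm fun p' => ind (p ∈ P ∧ p' ∈ P ∧
      ∀ l ∈ Submodule.span F (Set.range B), comb l p = comb l p') := by
    rw [sm_fiber (pu3T B) fun p => sm fun p' => _]
    refine sm_mono fun z => ?_
    rw [sq, hb, sm_mul_sm]
    refine sm_mono fun p => ?_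
    rw [← sm_mul_left]
    refine sm_mono fun p' => (le_abs_self _).trans ?_
    rw [abs_mul, abs_mul, abs_mul (ind (pu3T B p' = z)), abs_ind, abs_ind]
    refine (mul_le_mul (mul_le_mul_of_nonneg_left (pu3_wt ha p) (ind_nonneg _))
      (mul_le_mul_of_nonneg_left (pu3_wt ha p') (ind_nonneg _))
      (mul_nonneg (ind_nonneg _) (abs_nonneg _)) (mul_nonneg (ind_nonneg _) (ind_nonneg _))).trans ?_
    simp only [← ind_and]
    exact ind_mono fun h => ⟨h.1.1, h.1.2, h.2.2, pu3T_eq (h.1.1.trans h.2.1.symm)⟩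
  have h2 : (sm fun z => (ind (∃ x, pu3T B x = z) * Fz z) ^ 2) ≤
      (sm fun z : Pt ρ V => ind (∃ x, pu3T B x = z)) * sm fun p => sm fun p' =>
        ind (p ∈ P ∧ p' ∈ P ∧ ∀ l ∈ Submodule.span F (Set.range A), comb l p = comb l p') := by
    set Z := LinearMap.range (linOf (pu3T B) (pu3T_add (V := V) B)) with hZ
    have e1 : ∀ g : Pt ρ V → ℝ, (sm fun z => ind (∃ x, pu3T B x = z) * g z) =
        Nat.card Z * av fun z : Z => g z := fun g => by
      rw [← sm_eq_card_mul_av]; exact (sm_subtype (fun z => z ∈ Z) g).symm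
    have e2 := e1 fun _ => 1
    simp only [mul_one, av_const] at e2
    simp only [mul_pow, ind_sq]
    rw [e1, e2]
    refine mul_le_mul_of_nonneg_left ?_ (Nat.cast_nonneg _)
    have e3 : ∀ z, Fz z ^ 2 = sm fun p => sm fun p' =>
        (ind (p ∈ P) * a' p * (ind (p' ∈ P) * a' p')) * sg (pu3S z (p + p')) := by
      intro z
      rw [sq, hF, sm_mul_sm]
      exact sm_congr fun p => sm_congr fun p' => by rw [pu3S_add', sg_add]; ring
    simp only [e3, av_sm_comm, av_mul_left]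
    refine sm_mono fun p => sm_mono fun p' => ?_
    rw [av_sg (fun z : Z => pu3S (z : Pt ρ V) (p + p')) fun z z' => pu3S_add _ _ _]
    refine (mul_le_mul_of_nonneg_right ((le_abs_self _).trans ((abs_mul _ _).le.trans
      (mul_le_mul (pu3_wt ha' p) (pu3_wt ha' p') (abs_nonneg _) (ind_nonneg _))))
      (ind_nonneg _)).trans ?_
    simp only [← ind_and]
    refine ind_mono fun h => ⟨h.1.1, h.1.2, pu3T_eq (add_eq_zero2.1 ?_)⟩
    rw [← pu3T_add]
    refine pu3S_ker fun x => ?_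
    rw [← pu3_B, pu3_B']
    exact h.2 ⟨pu3T B x, x, rfl⟩
  have n1 : ∀ DD : Submodule F (Fk ρ), 0 ≤ sm fun p => sm fun p' =>
      ind (p ∈ P ∧ p' ∈ P ∧ ∀ l ∈ DD, comb l p = comb l p') :=
    fun DD => sm_nonneg fun _ => sm_nonneg fun _ => ind_nonneg _
  rw [e]
  refine (sm_cs _ _).trans ((mul_le_mul h1 (h2.trans (mul_le_mul_of_nonneg_right (pu3_range B)
    (n1 _))) (sm_nonneg fun _ => sq_nonneg _) (n1 _)).trans (le_of_eq ?_))
  have := DP_pos (V := V) (2 * ρ)
  rw [coll, coll, ← pu3_rank A, ← hB, two_mul (finrank F _), DP_add]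
  field_simp

/-- (P3) -/
lemma pu3 {P : Set (Pt ρ V)} {lam η δ : ℝ} (h : PuH P lam η) (hδ : 0 ≤ δ)
    (hη : lam ^ 3 * η ≤ δ ^ 4) (A : Fin ρ → Fin ρ → F) (hA : A ≠ 0) (a a' : Pt ρ V → ℝ)
    (ha : ∀ p, |a p| ≤ 1) (ha' : ∀ p, |a' p| ≤ 1) :
    |sm fun p => sm fun p' => ind (p ∈ P) * ind (p' ∈ P) * (a p * a' p' * sg (puB A p p'))| ≤
      δ * DP V (2 * ρ) := by
  have hD := DP_pos (V := V) ρ
  have hD2 := DP_pos (V := V) (2 * ρ)
  have hl : 0 ≤ lam := zero_le_one.trans h.one
  have hη0 := h.pos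
  by_cases hr : Submodule.span F (Set.range A) = ⊤
  · refine le_of_pow_le_pow_left₀ (n := 4) (by norm_num) (by positivity) ?_
    rw [show 4 = 2 * 2 from rfl, pow_mul, sq_abs, ← pow_mul]
    refine (pu3_full P A hr a a' ha ha').trans ?_
    have e2 : DP V (2 * ρ) = DP V ρ ^ 2 := by rw [mul_comm, DP_mul]
    have e3 : DP V (3 * ρ) = DP V ρ ^ 3 := by rw [mul_comm, DP_mul]
    have h0 : 0 ≤ energy P :=
      sm_nonneg fun _ => sm_nonneg fun _ => sm_nonneg fun _ => ind_nonneg _
    refine (mul_le_mul (pow_le_pow_left₀ (cnt_nonneg P) h.lam 3)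
      (mul_le_mul_of_nonneg_left h.en hD2.le) (by positivity) (by positivity)).trans ?_
    rw [e2, e3]
    calc (lam * DP V ρ) ^ 3 * (DP V ρ ^ 2 * (η * DP V ρ ^ 3)) = lam ^ 3 * η * DP V ρ ^ 8 := by ring
      _ ≤ δ ^ 4 * DP V ρ ^ 8 := mul_le_mul_of_nonneg_right hη (by positivity)
      _ = _ := by ring
  · have hb : Submodule.span F (Set.range A) ≠ ⊥ := fun h0 => hA (funext fun i =>
      (Submodule.span_eq_bot.1 h0) _ ⟨i, rfl⟩)
    have hb' : Submodule.span F (Set.range fun j i => A i j) ≠ ⊥ := fun h0 =>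
      hb (Submodule.finrank_eq_zero.1 (by rw [← pu3_rank, h0, finrank_bot]))
    have hr' : Submodule.span F (Set.range fun j i => A i j) ≠ ⊤ := fun h0 =>
      hr (Submodule.eq_top_of_finrank_eq (by rw [← pu3_rank, h0, finrank_top]))
    have hηδ : η ≤ δ := by
      refine le_of_pow_le_pow_left₀ (n := 4) (by norm_num) hδ (le_trans ?_ hη)
      rw [pow_succ]
      exact mul_le_mul_of_nonneg_right ((pow_le_one₀ hη0.le h.le1).trans (one_le_pow₀ h.one)) hη0.le
    refine abs_le_of_sq_le_sq ((pu3_low P A a a' ha ha').trans ?_) (by positivity)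
    rw [mul_pow, sq δ]
    refine mul_le_mul_of_nonneg_right (mul_le_mul ((h.coll _ hb' hr').trans hηδ)
      ((h.coll _ hb hr).trans hηδ) ?_ hδ) (sq_nonneg _)
    exact mul_nonneg (div_pos (DP_pos _) hD2).le
      (sm_nonneg fun _ => sm_nonneg fun _ => ind_nonneg _)

end SD
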