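import Pool.Agent.Lib.MP_ecee09_co.SD.Pu0
import Pool.Agent.Lib.MP_ecee09_co.SD.Pu1
import Pool.Agent.Lib.MP_ecee09_co.SD.Pu3

/-! Section 7, (P4): factorial moments. -/

namespace SD

open Module

section
variable {ρ m : ℕ} {U V : Type} [AddCommGroup U] [Module F U] [AddCommGroup V] [Module F V]

lemma pu4_block {μ : Fin m × Fin ρ → Fin m × Fin ρ → F} (h : μ ∈ puMM m ρ) (h0 : μ ≠ 0) :
    ∃ r s : Fin m, r ≠ s ∧ (fun i j => μ (r, i) (s, j)) ≠ 0 := by
  by_contra hc
  push Not at hc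
  refine h0 (funext fun a => funext fun b => ?_)
  obtain ⟨r, i⟩ := a
  obtain ⟨s, j⟩ := b
  by_cases hrs : r = s
  · subst hrs
    have h1 := h.2.2 i (r, j)
    rw [Finset.sum_eq_single r (fun r' _ hr => congrFun (congrFun (hc r' r hr) i) j)
      (by simp)] at h1
    exact h1
  · exact congrFun (congrFun (hc r s hrs) i) j

lemma pu4_phase {μ : Fin m × Fin ρ → Fin m × Fin ρ → F} (h : ∀ a b, μ a b = μ b a)
    (p : Fin m → Pt ρ V) (w : Fin m → Fin ρ → V) {r s : Fin m} (hrs : r ≠ s) (x y : Pt ρ V) :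
    puPh μ (Function.update (Function.update p r x) s y) w =
      puPh μ (Function.update (Function.update p r x) s 0) w +
      puPh μ (Function.update (Function.update p r 0) s 0) w +
      puPh μ (Function.update (Function.update p r 0) s y) w +
      puB (fun i j => μ (r, i) (s, j)) x y := by
  have h3' : (3 : F) = 1 := rfl
  have e1 : puB (fun i j => μ (r, i) (s, j)) x y = ∑ a : Fin m × Fin ρ, ∑ b : Fin m × Fin ρ,
      ((if a.1 = r then if b.1 = s then μ a b * x.1 a.2 (y.2 b.2) else 0 else 0) +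
        if a.1 = s then if b.1 = r then μ a b * y.1 a.2 (x.2 b.2) else 0 else 0) := by
    simp only [Finset.sum_add_distrib, Fintype.sum_prod_type, puB, mul_add]
    congr 1
    · simp
    · rw [Finset.sum_comm]
      simp only [h (r, _) (s, _)]
      simp
  rw [e1]
  simp only [puPh, ← Finset.sum_add_distrib]
  refine Finset.sum_congr rfl fun a _ => Finset.sum_congr rfl fun b _ => ?_
  have hsr := hrs.symm
  by_cases h1 : a.1 = s <;> by_cases h3 : a.1 = r <;> by_cases h4 : b.1 = s <;>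
    by_cases h5 : b.1 = r <;>
    simp only [h1, h3, h4, h5, hrs, hsr, Function.update_apply, if_true, if_false, map_add,
      Prod.fst_zero, Prod.snd_zero, Pi.zero_apply, LinearMap.zero_apply, map_zero] <;>
    first
      | exact absurd (h3.symm.trans h1) hrs
      | exact absurd (h5.symm.trans h4) hrs
      | (ring_nf; simp only [h3', mul_one])
      | ring_nf

lemma pu4_prod (g : Fin m → Pt ρ V → ℝ) (p : Fin m → Pt ρ V) {r s : Fin m} (hrs : r ≠ s)
    (x y : Pt ρ V) :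
    ∏ j, g j (Function.update (Function.update p r x) s y j) =
      g r x * g s y * ∏ j ∈ (Finset.univ.erase s).erase r, g j (p j) := by
  rw [← Finset.mul_prod_erase _ _ (Finset.mem_univ s),
    ← Finset.mul_prod_erase _ _ (Finset.mem_erase.2 ⟨hrs, Finset.mem_univ r⟩)]
  rw [Function.update_self, Function.update_of_ne hrs, Function.update_self]
  rw [Finset.prod_congr rfl (g := fun j => g j (p j)) fun j hj => by
    simp only [Finset.mem_erase] at hj
    rw [Function.update_of_ne hj.2.1, Function.update_of_ne hj.1]]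
  ring

lemma pu4_abs_prod {ι : Type} (s : Finset ι) (f : ι → ℝ) (h : ∀ i, |f i| ≤ 1) :
    |∏ i ∈ s, f i| ≤ 1 := by
  rw [Finset.abs_prod]
  exact Finset.prod_le_one (fun _ _ => abs_nonneg _) fun i _ => h i

lemma pu4_inj (hρ : 1 ≤ ρ) {p : Fin m → Pt ρ V} (h : puDD p = ⊥) : Function.Injective p := by
  intro r s hrs
  by_contra hc
  let e : Fk ρ := Pi.single ⟨0, hρ⟩ 1
  let l : Fin m → Fk ρ := Pi.single r e + Pi.single s e
  have hl : l ∈ puDD p := by
    refine mem_puDD.2 ⟨?_, ?_⟩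
    · simp [l, Finset.sum_add_distrib, add_self2]
    · simp only [l, Pi.add_apply, comb_add, Prod.fst_add, Finset.sum_add_distrib]
      rw [Finset.sum_eq_single r (fun j _ hj => by simp [Pi.single_eq_of_ne hj, comb_zero])
        (by simp), Finset.sum_eq_single s
        (fun j _ hj => by simp [Pi.single_eq_of_ne hj, comb_zero]) (by simp)]
      simp [hrs, add_self2]
  rw [h, Submodule.mem_bot] at hl
  have := congrFun (congrFun hl r) ⟨0, hρ⟩
  simp [l, e, Pi.single_eq_of_ne hc] at this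

variable [Finite U] [Finite V]

omit [Finite U] in
lemma pu4_mu {P : Set (Pt ρ V)} {lam η δ : ℝ} (h : PuH P lam η) (hδ : 0 ≤ δ)
    (hη : lam ^ 3 * η ≤ δ ^ 4) {μ : Fin m × Fin ρ → Fin m × Fin ρ → F} (hμ : μ ∈ puMM m ρ)
    (h0 : μ ≠ 0) (w : Fin m → Fin ρ → V) (g : Fin m → Pt ρ V → ℝ) (hg : ∀ r p, |g r p| ≤ 1) :
    |sm fun p : Fin m → Pt ρ V => ind (∀ r, p r ∈ P) * ((∏ r, g r (p r)) * sg (puPh μ p w))| ≤
      δ * lam ^ m * DP V (ρ * m) := by
  obtain ⟨r, s, hrs, hA⟩ := pu4_block hμ h0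
  have hm : 2 ≤ m := by
    have := Fintype.one_lt_card_iff.2 ⟨r, s, hrs⟩
    rw [Fintype.card_fin] at this
    omega
  refine (pu_peel2 P (fun p => (∏ r, g r (p r)) * sg (puPh μ p w)) r s hrs (δ * DP V (2 * ρ))
    fun p => ?_).trans ?_
  · have := pu3 h hδ hη _ hA
      (fun x => g r x * (∏ j ∈ (Finset.univ.erase s).erase r, g j (p j)) *
        sg (puPh μ (Function.update (Function.update p r x) s 0) w +
          puPh μ (Function.update (Function.update p r 0) s 0) w))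
      (fun y => g s y * sg (puPh μ (Function.update (Function.update p r 0) s y) w))
      (fun x => by
        rw [abs_mul, abs_mul, abs_sg, mul_one]
        exact mul_le_one₀ (hg _ _) (abs_nonneg _) (pu4_abs_prod _ _ fun j => hg j _))
      (fun y => by rw [abs_mul, abs_sg, mul_one]; exact hg _ _)
    refine le_trans (le_of_eq ?_) this
    congr 1
    refine sm_congr fun x => sm_congr fun y => ?_
    rw [pu4_prod g p hrs, pu4_phase hμ.1 p w hrs x y, sg_add, sg_add]
    ring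
  · obtain ⟨m', rfl⟩ := Nat.exists_eq_add_of_le' hm
    have h1 : cnt P ^ m' ≤ (lam * DP V ρ) ^ m' := pow_le_pow_left₀ (cnt_nonneg _) h.lam _
    have h2 : lam ^ m' ≤ lam ^ (m' + 2) := pow_le_pow_right₀ h.one (by omega)
    have h3 : DP V (ρ * (m' + 2)) = DP V (2 * ρ) * DP V ρ ^ m' := by
      rw [← DP_mul, ← DP_add]; congr 1; ring
    have h4 := DP_pos (V := V) (2 * ρ)
    have h5 := DP_pos (V := V) ρ
    rw [Fintype.card_fin, Nat.add_sub_cancel, h3]
    calc δ * DP V (2 * ρ) * cnt P ^ m' ≤ δ * DP V (2 * ρ) * (lam ^ (m' + 2) * DP V ρ ^ m') := by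
          refine mul_le_mul_of_nonneg_left (h1.trans ?_) (by positivity)
          rw [mul_pow]
          exact mul_le_mul_of_nonneg_right h2 (by positivity)
      _ = _ := by ring

omit [Finite U] in
/-- the independent tuples -/
lemma pu4_ind {P : Set (Pt ρ V)} {lam η δ : ℝ} (h : PuH P lam η) (hδ : 0 ≤ δ)
    (hη : lam ^ 3 * η ≤ δ ^ 4) (ε : Fk ρ) (w : Fin m → Fin ρ → V) (g : Fin m → Pt ρ V → ℝ)
    (hg : ∀ r p, |g r p| ≤ 1) :
    |(av fun x : Gam ρ V => sm fun p : Fin m → Pt ρ V =>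
        ind (∀ r, p r ∈ P) * ind (puDD p = ⊥) * (∏ r, g r (p r)) * ind (puM ε p w x)) -
      ∏ r, (sm fun p => ind (p ∈ P) * g r p) / DP V ρ| ≤
      (Nat.card (Fin m × Fin ρ → Fin m × Fin ρ → F) : ℝ) *
        (δ * lam ^ m + 2 ^ (m * ρ) * η * lam ^ m) := by
  have hD := DP_pos (V := V) (ρ * m)
  have hl : 0 ≤ lam := zero_le_one.trans h.one
  have hη0 := h.pos.le
  let S : (Fin m → Pt ρ V) → ℝ := fun p => sm fun μ => ind (μ ∈ puMM m ρ) * sg (puPh μ p w)
  have hS : ∀ p, |S p| ≤ Nat.card (Fin m × Fin ρ → Fin m × Fin ρ → F) := fun p => by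
    refine (abs_sm_le _).trans ((sm_mono (g := fun _ => 1) fun μ => ?_).trans ?_)
    · rw [abs_mul, abs_sg, mul_one, abs_ind]; exact ind_le_one _
    · rw [sm_const, mul_one]
  have e1 : (av fun x : Gam ρ V => sm fun p : Fin m → Pt ρ V =>
      ind (∀ r, p r ∈ P) * ind (puDD p = ⊥) * (∏ r, g r (p r)) * ind (puM ε p w x)) =
      ((sm fun p : Fin m → Pt ρ V => ind (∀ r, p r ∈ P) * (∏ r, g r (p r)) * S p) -
        sm fun p : Fin m → Pt ρ V =>
          ind (∀ r, p r ∈ P) * ind (puDD p ≠ ⊥) * ((∏ r, g r (p r)) * S p)) / DP V (ρ * m) := by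
    rw [av_sm_comm, ← sm_sub, ← sm_div]
    refine sm_congr fun p => ?_
    rw [av_mul_left]
    by_cases hp : puDD p = ⊥
    · rw [pu1_ind ε p w hp, ind_pos hp, ind_neg (not_not.2 hp)]; ring
    · rw [ind_neg hp, ind_pos hp]; ring
  have e2 : (sm fun p : Fin m → Pt ρ V => ind (∀ r, p r ∈ P) * (∏ r, g r (p r)) * S p) =
      (∏ r, sm fun p => ind (p ∈ P) * g r p) + sm fun μ => ind (μ ∈ puMM m ρ ∧ μ ≠ 0) *
        sm fun p : Fin m → Pt ρ V =>
          ind (∀ r, p r ∈ P) * ((∏ r, g r (p r)) * sg (puPh μ p w)) := by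
    simp only [S, ← sm_mul_left]
    rw [sm_comm, prod_sm, ← sm_ind_eq (0 : Fin m × Fin ρ → Fin m × Fin ρ → F)
      (fun _ => sm fun x : Fin m → Pt ρ V => ∏ i, ind (x i ∈ P) * g i (x i)), ← sm_add]
    refine sm_congr fun μ => ?_
    rw [← sm_mul_left, ← sm_add]
    refine sm_congr fun p => ?_
    by_cases h0 : μ = 0
    · subst h0
      have h1 : (0 : Fin m × Fin ρ → Fin m × Fin ρ → F) ∈ puMM m ρ :=
        ⟨fun _ _ => rfl, fun _ => rfl, fun _ _ => by simp⟩
      rw [ind_pos h1, ind_pos rfl, ind_neg (p := _ ∧ (0 : Fin m × Fin ρ → Fin m × Fin ρ → F) ≠ 0) (fun h => h.2 rfl),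
        Finset.prod_mul_distrib,
        ind_forall]
      simp [puPh]
    · rw [ind_neg h0, ind_congr (p := μ ∈ puMM m ρ ∧ μ ≠ 0) (q := μ ∈ puMM m ρ)
        ⟨fun h => h.1, fun h => ⟨h, h0⟩⟩]
      ring
  have e3 : (∏ r : Fin m, (sm fun p => ind (p ∈ P) * g r p) / DP V ρ) =
      (∏ r, sm fun p => ind (p ∈ P) * g r p) / DP V (ρ * m) := by
    rw [Finset.prod_div_distrib, Finset.prod_const, Finset.card_univ, Fintype.card_fin, DP_mul]
  have b1 : |sm fun μ => ind (μ ∈ puMM m ρ ∧ μ ≠ 0) * sm fun p : Fin m → Pt ρ V =>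
      ind (∀ r, p r ∈ P) * ((∏ r, g r (p r)) * sg (puPh μ p w))| ≤
      (Nat.card (Fin m × Fin ρ → Fin m × Fin ρ → F) : ℝ) * (δ * lam ^ m * DP V (ρ * m)) := by
    rw [← sm_const]
    refine (abs_sm_le _).trans (sm_mono fun μ => ?_)
    by_cases hμ : μ ∈ puMM m ρ ∧ μ ≠ 0
    · rw [ind_pos hμ, one_mul]; exact pu4_mu h hδ hη hμ.1 hμ.2 w g hg
    · rw [ind_neg hμ, zero_mul, abs_zero]; positivity
  have b2 : |sm fun p : Fin m → Pt ρ V =>
      ind (∀ r, p r ∈ P) * ind (puDD p ≠ ⊥) * ((∏ r, g r (p r)) * S p)| ≤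
      (2 ^ (m * ρ) * η * lam ^ m * DP V (ρ * m)) *
        (Nat.card (Fin m × Fin ρ → Fin m × Fin ρ → F) : ℝ) := by
    refine le_trans ?_ (mul_le_mul_of_nonneg_right (pu_dep (m := m) h) (Nat.cast_nonneg _))
    rw [← sm_mul_right]
    refine (abs_sm_le _).trans (sm_mono fun p => ?_)
    rw [abs_mul, abs_of_nonneg (mul_nonneg (ind_nonneg _) (ind_nonneg _))]
    refine mul_le_mul_of_nonneg_left ?_ (mul_nonneg (ind_nonneg _) (ind_nonneg _))
    rw [abs_mul]
    exact (mul_le_of_le_one_left (abs_nonneg _) (pu4_abs_prod _ _ fun r => hg r _)).trans (hS p)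
  rw [e1, e2, e3, ← sub_div, abs_div, abs_of_pos hD, div_le_iff₀ hD, abs_le]
  rw [abs_le] at b1 b2
  constructor <;> nlinarith [b1.1, b1.2, b2.1, b2.2]

omit [Finite U] in
/-- the number of matching tuples -/
lemma pu4_count (ε : Fk ρ) (P : Set (Pt ρ V)) (w : Fin m → Fin ρ → V) (x : Gam ρ V) :
    (sm fun p : Fin m → Pt ρ V => ind ((∀ r, p r ∈ P) ∧ puM ε p w x)) =
      ∏ r, NN ε P (x + (0, w r)) := by
  simp only [NN]
  rw [prod_sm]
  refine sm_congr fun p => ?_
  rw [← ind_forall, puM, ← forall_and]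
  refine ind_congr (forall_congr' fun r => and_congr Iff.rfl ?_)
  have : resid ε (p r) (x + (0, w r)) = resid ε (p r) x + w r := by
    funext i
    simp only [resid, Prod.fst_add, Prod.snd_add, add_zero, Pi.add_apply]
    abel
  rw [this, add_eq_zero2]

omit [Finite U] in
lemma pu4_count_sq {D : ℕ → ℝ} {ε : Fk ρ} {P : Set (Pt ρ V)} (hP : Tame D (NN ε P))
    (w : Fin m → Fin ρ → V) :
    (av fun x : Gam ρ V => (∏ r, NN ε P (x + (0, w r))) ^ 2) ≤ 1 + m * D (2 * m) := by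
  have h1 : ∀ x : Gam ρ V, (∏ r, NN ε P (x + (0, w r))) ^ 2 ≤
      1 + ∑ r, |NN ε P (x + (0, w r))| ^ (2 * m) := by
    intro x
    have := abs_prod_le fun r => NN ε P (x + (0, w r)) ^ 2
    rw [Finset.prod_pow] at this
    refine ((le_abs_self _).trans this).trans (le_of_eq ?_)
    simp only [abs_pow, ← pow_mul, Fintype.card_fin]
  refine (av_mono h1).trans ?_
  rw [av_add, av_const, av_sum]
  have h2 : ∀ r ∈ (Finset.univ : Finset (Fin m)),
      (av fun x : Gam ρ V => |NN ε P (x + (0, w r))| ^ (2 * m)) ≤ D (2 * m) := fun r _ =>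
    (av_add_right (fun x => |NN ε P x| ^ (2 * m)) _).trans_le (hP _)
  have := Finset.sum_le_card_nsmul _ _ _ h2
  simpa using this

end

theorem pu4_of (h2 : PU2) : PU4 := by
  intro ρ m D lam δ hρ hδ
  by_cases hl : 1 ≤ lam
  swap
  · exact ⟨1, one_pos, fun η _ U V _ _ _ _ _ _ ε P _ hH => absurd hH.one hl⟩
  have hl0 : 0 < lam := one_pos.trans_le hl
  set K : ℝ := 4 * (1 + m * |D (2 * m)|) / δ with hK
  have hK0 : 0 < K := by positivity
  obtain ⟨η2, hη2, H2⟩ := h2 ρ m lam (δ / (4 * K)) (by positivity)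
  set C : ℝ := (Nat.card (Fin m × Fin ρ → Fin m × Fin ρ → F) : ℝ) with hC
  have hC0 : 0 < C := card_pos'
  set δ3 : ℝ := δ / (4 * C * lam ^ m) with hδ3
  have hδ30 : 0 < δ3 := by positivity
  refine ⟨min η2 (min (δ3 ^ 4 / lam ^ 3) (δ3 / 2 ^ (m * ρ))),
    lt_min hη2 (lt_min (by positivity) (by positivity)), ?_⟩
  intro η hη U V _ _ _ _ _ _ ε P hP hH t a ha
  have c1 : lam ^ 3 * η ≤ δ3 ^ 4 := by
    have := hη.trans ((min_le_right _ _).trans (min_le_left _ _))
    rwa [le_div_iff₀ (by positivity), mul_comm] at this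
  have c2 : 2 ^ (m * ρ) * η ≤ δ3 := by
    have := hη.trans ((min_le_right _ _).trans (min_le_right _ _))
    rwa [le_div_iff₀ (by positivity), mul_comm] at this
  have c3 := H2 η (hη.trans (min_le_left _ _)) U V ε P hH t
  let E : (U →ₗ[F] V) → Gam ρ V → Prop := fun Φ x => ∃ p : Fin m → Pt ρ V,
    (∀ r, p r ∈ P) ∧ Function.Injective p ∧ puDD p ≠ ⊥ ∧ puM ε p (puW Φ t) x
  have key : ∀ Φ : U →ₗ[F] V, |(av fun x : Gam ρ V => sm fun p : Fin m → Pt ρ V =>
      ind ((∀ r, p r ∈ P) ∧ Function.Injective p ∧ puM ε p (puW Φ t) x) *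
        ∏ r, a r (puV (p r) Φ)) - ∏ r, puNu P (a r) Φ| ≤
      3 * δ / 4 + K * av fun x => ind (E Φ x) := by
    intro Φ
    have d1 := pu4_ind hH hδ30.le c1 ε (puW Φ t) (fun r p => a r (puV p Φ)) fun r p => ha r _
    have d2 : C * (δ3 * lam ^ m + 2 ^ (m * ρ) * η * lam ^ m) ≤ δ / 2 := by
      have : C * (δ3 * lam ^ m) = δ / 4 := by rw [hδ3]; field_simp
      have h3 : 2 ^ (m * ρ) * η * lam ^ m ≤ δ3 * lam ^ m :=
        mul_le_mul_of_nonneg_right c2 (by positivity)
      nlinarith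
    have d3 : ∀ x : Gam ρ V, |(sm fun p : Fin m → Pt ρ V =>
        ind ((∀ r, p r ∈ P) ∧ Function.Injective p ∧ puM ε p (puW Φ t) x) *
          ∏ r, a r (puV (p r) Φ)) - sm fun p : Fin m → Pt ρ V =>
        ind (∀ r, p r ∈ P) * ind (puDD p = ⊥) * (∏ r, a r (puV (p r) Φ)) *
          ind (puM ε p (puW Φ t) x)| ≤
        K * ind (E Φ x) + (∏ r, NN ε P (x + (0, puW Φ t r))) ^ 2 / K := by
      intro x
      have f1 : |(sm fun p : Fin m → Pt ρ V =>
          ind ((∀ r, p r ∈ P) ∧ Function.Injective p ∧ puM ε p (puW Φ t) x) *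
            ∏ r, a r (puV (p r) Φ)) - sm fun p : Fin m → Pt ρ V =>
          ind (∀ r, p r ∈ P) * ind (puDD p = ⊥) * (∏ r, a r (puV (p r) Φ)) *
            ind (puM ε p (puW Φ t) x)| ≤ ind (E Φ x) * ∏ r, NN ε P (x + (0, puW Φ t r)) := by
        rw [← sm_sub, ← pu4_count, ← sm_mul_left]
        refine (abs_sm_le _).trans (sm_mono fun p => ?_)
        have f0 : 0 ≤ ind (E Φ x) * ind ((∀ r, p r ∈ P) ∧ puM ε p (puW Φ t) x) :=
          mul_nonneg (ind_nonneg _) (ind_nonneg _)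
        by_cases g1 : ∀ r, p r ∈ P
        swap
        · rw [ind_neg g1, ind_neg (fun h : _ ∧ _ => g1 h.1)]; simpa using f0
        by_cases g2 : puM ε p (puW Φ t) x
        swap
        · rw [ind_neg g2, ind_neg (fun h : _ ∧ _ ∧ _ => g2 h.2.2)]; simpa using f0
        by_cases g3 : puDD p = ⊥
        · rw [ind_pos g1, ind_pos g2, ind_pos g3, ind_pos ⟨g1, pu4_inj hρ g3, g2⟩]
          simpa using f0
        by_cases g4 : Function.Injective p
        · rw [ind_neg g3, ind_pos ⟨g1, g4, g2⟩, ind_pos (p := E Φ x) ⟨p, g1, g4, g3, g2⟩,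
            ind_pos (And.intro g1 g2)]
          simpa using pu4_abs_prod Finset.univ _ fun r => ha r (puV (p r) Φ)
        · rw [ind_neg g3, ind_neg (fun h : _ ∧ _ ∧ _ => g4 h.2.1)]; simpa using f0
      refine f1.trans ?_
      generalize (∏ r, NN ε P (x + (0, puW Φ t r))) = X
      by_cases hE : E Φ x
      · rw [ind_pos hE, one_mul, mul_one]
        have : X = K * (X / K) := by field_simp
        have h3 : X ^ 2 / K = K * (X / K) ^ 2 := by field_simp
        rw [h3]
        nlinarith [sq_nonneg (X / K - 1), sq_nonneg (X / K)]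
      · rw [ind_neg hE, zero_mul, mul_zero, zero_add]; positivity
    have d4 := (abs_av_le _).trans (av_mono d3)
    rw [av_sub, av_add, av_mul_left, av_div] at d4
    have d5 : (av fun x : Gam ρ V => (∏ r, NN ε P (x + (0, puW Φ t r))) ^ 2) / K ≤ δ / 4 := by
      rw [div_le_iff₀ hK0]
      have h3 : δ / 4 * K = 1 + m * |D (2 * m)| := by rw [hK]; field_simp
      rw [h3]
      refine (pu4_count_sq hP _).trans ?_
      have := mul_le_mul_of_nonneg_left (le_abs_self (D (2 * m))) (Nat.cast_nonneg (α := ℝ) m)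
      linarith
    have d6 := d1.trans d2
    simp only [puNu]
    rw [abs_le] at d4 d6 ⊢
    constructor <;> linarith [d4.1, d4.2, d6.1, d6.2]
  rw [← av_sub]
  refine (abs_av_le _).trans ((av_mono key).trans ?_)
  rw [av_add, av_const, av_mul_left]
  have d7 : K * (δ / (4 * K)) = δ / 4 := by field_simp
  have d8 := mul_le_mul_of_nonneg_left c3 hK0.le
  linarith

end SD
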