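import Pool.Agent.Lib.MP_ecee09_co.SD.Base
import Pool.Agent.Lib.MP_ecee09_co.SD.Stmts

/-! Common tools for the hierarchy case, the lattice case and the product case. -/

namespace SD

open Module

section fam
variable {X C Λ : Type} [Add X] {a : Λ → C → X} (A : Fam a)

lemma hc_mono {f g : X → Λ → ℝ} (h : ∀ x l, f x l ≤ g x l) : A.E f ≤ A.E g := by
  have h1 := A.pos (fun x l => g x l - f x l) (fun x l => sub_nonneg.2 (h x l))
  have h2 := A.add (fun x l => g x l - f x l) f
  simp only [sub_add_cancel] at h2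
  linarith

lemma hc_congr {f g : X → Λ → ℝ} (h : ∀ x l, f x l = g x l) : A.E f = A.E g :=
  le_antisymm (hc_mono A fun x l => (h x l).le) (hc_mono A fun x l => (h x l).ge)

lemma hc_sub (f g : X → Λ → ℝ) : A.E (fun x l => f x l - g x l) = A.E f - A.E g := by
  have h2 := A.add (fun x l => f x l - g x l) g
  simp only [sub_add_cancel] at h2
  linarith

end fam

section lift
variable {X Y C C' Λ Λ' : Type} [AddCommGroup X] [Finite X] [AddCommGroup Y] [Finite Y]
  [AddCommGroup C] [Finite C] [AddCommGroup C'] [Finite C'] {a : Λ → C → X} {a' : Λ' → C' → Y}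

/-- lift of a family along an onto homomorphism -/
noncomputable def hcLift (A : Fam a') (L : X → Y) (hL : ∀ x x', L (x + x') = L x + L x')
    (ι : Λ' → Λ) (l : C → C') (hl : ∀ c c', l (c + c') = l c + l c')
    (hls : Function.Surjective l) (hc : ∀ m c, L (a (ι m) c) = a' m (l c)) : Fam a where
  E f := A.E fun y m => cond L (fun x => f x (ι m)) y
  add f g := by
    rw [← A.add]
    exact hc_congr A fun y m => cond_add L _ _ y
  smul c f := by
    rw [← A.smul]
    exact hc_congr A fun y m => cond_mul_left L c _ y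
  pos f hf := A.pos _ fun y m => cond_nonneg L (fun x => hf x _) y
  marg g := by
    rw [← av_cond L g, ← A.marg]
    refine hc_congr A fun y m => ?_
    rw [cond_av L (fun x B => g (x + a (ι m) B)) y,
      ← av_surj l hl hls fun B' => cond L g (y + a' m B')]
    exact av_congr fun B => by rw [cond_shift L hL g, hc]

lemma hcLift_le (A : Fam a') (L : X → Y) (hL : ∀ x x', L (x + x') = L x + L x')
    (hs : Function.Surjective L)
    (ι : Λ' → Λ) (l : C → C') (hl : ∀ c c', l (c + c') = l c + l c')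
    (hls : Function.Surjective l) (hc : ∀ m c, L (a (ι m) c) = a' m (l c))
    (f : X → Λ → ℝ) (φ : Y → Λ' → ℝ) (h : ∀ x m, f x (ι m) ≤ φ (L x) m) :
    (hcLift A L hL ι l hl hls hc).E f ≤ A.E φ :=
  hc_mono A fun y m =>
    (cond_mono L (fun x => h x m) y).trans (cond_comp L hL hs (fun y => φ y m) y).le

end lift

section part
variable {ρ : ℕ} {U V : Type} [AddCommGroup U] [Module F U] [AddCommGroup V] [Module F V]
  [Finite V]

lemma hc_mv_apply (M : G V) (v y : Dual F V) : y (mv M v) = M (mulL v y) := by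
  simp [mv]

lemma hc_mv_add (M : G V) (v w : Dual F V) : mv M (v + w) = mv M v + mv M w := by
  rw [← sub_eq_zero, ← Module.forall_dual_apply_eq_zero_iff F]
  intro y
  rw [map_sub, map_add, hc_mv_apply, hc_mv_apply, hc_mv_apply, ← map_add, sub_eq_zero]
  congr 1
  ext x
  simp [mulL, QuadraticMap.linMulLin_apply]

/-- `v -> M v` as a linear map -/
noncomputable def hcMv (M : G V) : Dual F V →ₗ[F] V := linOf (mv M) (hc_mv_add M)

lemma hcMv_apply (M : G V) (v : Dual F V) : hcMv M v = mv M v := rfl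

omit [Module F V] in
lemma hc_DP_pos (j : ℕ) : 0 < DP V j := pow_pos card_pos' j

omit [AddCommGroup V] [Module F V] [Finite V] in
lemma hc_card_fun : (Nat.card (Fin ρ → V) : ℝ) = DP V ρ := by
  rw [Nat.card_fun, Nat.card_eq_fintype_card (α := Fin ρ), Fintype.card_fin]; push_cast; rfl

/-- a particle is present with probability `D^(-rho)` -/
lemma hc_present (ε : Fk ρ) (p : Pt ρ V) :
    av (fun x : Gam ρ V => ind (resid ε p x = 0)) = 1 / DP V ρ := by
  rw [av_prod]
  have : ∀ M : G V, av (fun β : Fin ρ → V => ind (resid ε p (M, β) = 0)) = 1 / DP V ρ := by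
    intro M
    rw [← hc_card_fun, ← av_ind_eq (fun i => mv M (p.1 i) + ε i • dg M + p.2 i) fun _ => 1]
    refine av_congr fun β => ?_
    rw [mul_one]
    refine ind_congr ?_
    rw [funext_iff, funext_iff]
    refine forall_congr' fun i => ?_
    simp only [resid, Pi.zero_apply]
    rw [← add_eq_zero2 (x := β i), show β i + (mv M (p.1 i) + ε i • dg M + p.2 i) =
      mv M (p.1 i) + β i + ε i • dg M + p.2 i by abel]
  simp only [this]
  exact av_const _

lemma hc_av_NN (ε : Fk ρ) (P : Set (Pt ρ V)) : av (NN ε P) = cnt P / DP V ρ := by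
  unfold NN
  rw [av_sm_comm, cnt, ← sm_div]
  refine sm_congr fun p => ?_
  simp only [ind_and]
  rw [av_mul_left, hc_present]; ring

lemma hc_NN_nonneg (ε : Fk ρ) (P : Set (Pt ρ V)) (x : Gam ρ V) : 0 ≤ NN ε P x :=
  sm_nonneg fun _ => ind_nonneg _

lemma hc_av_NN_le {D : ℕ → ℝ} {ε : Fk ρ} {P : Set (Pt ρ V)} (h : Tame D (NN ε P)) :
    cnt P / DP V ρ ≤ D 1 := by
  have := h 1
  simp only [pow_one, abs_of_nonneg (hc_NN_nonneg ε P _)] at this
  rwa [← hc_av_NN ε]

/-- if a part of `P` of mass `2c` is solved, the number of unreduced particles drops by `c` -/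
lemma hc_drop {D : ℕ → ℝ} {c η : ℝ} (hc : 0 < c) (ε : Fk ρ) (P P1 : Set (Pt ρ V)) (k : ℕ)
    (hP : Tame D (NN ε P)) (h1 : P1 ⊆ P) (hm : 2 * c ≤ cnt P1 / DP V ρ)
    (hs : Solve ε P1 k (min η (c ^ 2 / (D 2 + 1)))) : PDrop ε P k η c := by
  obtain ⟨A, hj, hb⟩ := hs
  refine ⟨A, hj.trans (min_le_left _ _), ?_⟩
  have hD := hP.nonneg 2
  set t := c / (2 * (D 2 + 1)) with ht
  have ht0 : 0 < t := by positivity
  have key : ∀ x Φ, unred ε P x (Φ : Hom k V) ≤
      (av fun B : Gam ρ (Fk k) => NN ε P (x + gpush Φ B) - NN ε P1 (x + gpush Φ B) +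
        t * NN ε P (x + gpush Φ B) ^ 2) + 1 / (4 * t) * bad ε P1 x Φ := by
    intro x Φ
    unfold unred bad
    rw [← av_mul_left, ← av_add]
    refine av_mono fun B => ?_
    set z := x + gpush Φ B
    set b := ind (∃ p ∈ P1, resid ε p z = 0 ∧ ¬ Red p Φ) with hb
    have e1 : (sm fun p => ind (p ∈ P ∧ resid ε p z = 0 ∧ ¬ Red p Φ)) ≤
        NN ε P z - NN ε P1 z + NN ε P z * b := by
      unfold NN
      rw [← sm_sub, ← sm_mul_right, ← sm_add]
      refine sm_mono fun p => ?_
      by_cases hp : p ∈ P ∧ resid ε p z = 0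
      · by_cases hp1 : p ∈ P1
        · rw [ind_pos hp, ind_pos (⟨hp1, hp.2⟩ : p ∈ P1 ∧ _), sub_self, zero_add, one_mul]
          exact ind_mono fun h => ⟨p, hp1, h.2⟩
        · rw [ind_pos hp, ind_neg (fun h : p ∈ P1 ∧ _ => hp1 h.1)]
          have := ind_le_one (p ∈ P ∧ resid ε p z = 0 ∧ ¬ Red p Φ)
          have := ind_nonneg (∃ p ∈ P1, resid ε p z = 0 ∧ ¬ Red p Φ)
          linarith
      · rw [ind_neg hp, ind_neg (fun h : p ∈ P1 ∧ _ => hp ⟨h1 h.1, h.2⟩),
          ind_neg (fun h : p ∈ P ∧ _ ∧ _ => hp ⟨h.1, h.2.1⟩)]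
        simp
    have e2 : NN ε P z * b ≤ t * NN ε P z ^ 2 + 1 / (4 * t) * b := by
      have hb2 : b ^ 2 = b := ind_sq _
      have : 0 ≤ (2 * t * NN ε P z - b) ^ 2 / (4 * t) := by positivity
      have e : (2 * t * NN ε P z - b) ^ 2 / (4 * t) =
          t * NN ε P z ^ 2 + 1 / (4 * t) * b ^ 2 - NN ε P z * b := by field_simp; ring
      rw [e, hb2] at this
      linarith
    linarith
  refine (hc_mono A key).trans ?_
  rw [A.add, A.smul, A.marg fun z => NN ε P z - NN ε P1 z + t * NN ε P z ^ 2, av_add, av_sub,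
    av_mul_left, hc_av_NN ε P1]
  have e3 : t * av (fun z => NN ε P z ^ 2) ≤ c / 2 := by
    refine (mul_le_mul_of_nonneg_left hP.sq ht0.le).trans ?_
    rw [ht, div_mul_eq_mul_div, div_le_div_iff₀ (by positivity) (by norm_num)]
    nlinarith
  have e4 : 1 / (4 * t) * A.E (fun x Φ => bad ε P1 x Φ) ≤ c / 2 := by
    refine (mul_le_mul_of_nonneg_left (hb.trans (min_le_right _ _)) (by positivity)).trans ?_
    rw [ht]; apply le_of_eq; field_simp; ring
  linarith

end part

end SD
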