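import Pool.Agent.Lib.MP_ecee09_co.SD.Base
import Pool.Agent.Lib.MP_ecee09_co.SD.Stmts

/-! The loop that proves `RP` from `PSTEP`, and `PSTEP` from its three cases. -/

namespace SD

open Module

namespace Rp

section fam
variable {X C Λ : Type} [AddCommGroup X]

lemma mono {a : Λ → C → X} (A : Fam a) {f g : X → Λ → ℝ} (h : ∀ x l, f x l ≤ g x l) :
    A.E f ≤ A.E g := by
  have h1 := A.pos (fun x l => g x l + (-1) * f x l) fun x l => by linarith [h x l]
  rw [A.add, A.smul] at h1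
  linarith

lemma const [Finite X] [Finite C] [Nonempty C] {a : Λ → C → X} (A : Fam a) (c : ℝ) :
    A.E (fun _ _ => c) = c := by
  have h := A.marg fun _ => c
  simpa only [av_const] using h

/-- all base points, one label -/
noncomputable def triv [Finite X] [Finite C] [Nonempty C] (a : Λ → C → X) (l : Λ) : Fam a where
  E f := av fun x => f x l
  add _ _ := av_add _ _
  smul _ _ := av_mul_left _ _
  pos _ h := av_nonneg fun x => h x l
  marg g := av_shift g (a l)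

/-- a family with one subfamily on each cell -/
def comp {C' Λ' Λ'' : Type} [AddCommGroup C] {a : Λ → C → X} {a' : Λ' → C' → C}
    (a'' : Λ'' → C' → X) (m : Λ → Λ' → Λ'') (hadd : ∀ l y z, a l (y + z) = a l y + a l z)
    (hm : ∀ l l' c, a'' (m l l') c = a l (a' l' c)) (A : Fam a) (S : X → Λ → Fam a') :
    Fam a'' where
  E f := A.E fun x l => (S x l).E fun y l' => f (x + a l y) (m l l')
  add f g := by
    rw [← A.add]
    congr 1
    funext x l
    exact (S x l).add _ _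
  smul c f := by
    rw [← A.smul]
    congr 1
    funext x l
    exact (S x l).smul _ _
  pos f h := A.pos _ fun x l => (S x l).pos _ fun y l' => h _ _
  marg g := by
    rw [← A.marg g]
    congr 1
    funext x l
    rw [← (S x l).marg fun y => g (x + a l y)]
    congr 1
    funext y l'
    refine av_congr fun c => ?_
    rw [hm, hadd, add_assoc]

end fam

section part
variable {ρ : ℕ} {U V W : Type} [AddCommGroup U] [Module F U] [AddCommGroup V] [Module F V]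
  [AddCommGroup W] [Module F W]

lemma gpush_comp (Φ : U →ₗ[F] V) (Ψ : W →ₗ[F] U) (B : Gam ρ W) :
    gpush (Φ.comp Ψ) B = gpush Φ (gpush Ψ B) := rfl

lemma dual_ext {x y : V} (h : ∀ l : Dual F V, l x = l y) : x = y := by
  rw [← sub_eq_zero, ← Module.forall_dual_apply_eq_zero_iff F]
  intro l
  rw [map_sub, h, sub_self]

variable [Finite V] [Finite U] [Finite W]

lemma mv_spec (M : G V) (v y : Dual F V) : y (mv M v) = M (QuadraticMap.linMulLin y v) := by
  rw [mv, apply_evalEquiv_symm_apply]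
  rfl

lemma dg_spec (M : G V) (y : Dual F V) : y (dg M) = M (QuadraticMap.linMulLin y y) := by
  rw [dg, apply_evalEquiv_symm_apply]
  rfl

lemma mv_push (M : G V) (Φ : U →ₗ[F] V) (B : G U) (v : Dual F V) :
    mv (M + push Φ B) v = mv M v + Φ (mv B (v.comp Φ)) := by
  refine dual_ext fun y => ?_
  rw [map_add, mv_spec, mv_spec, ← LinearMap.comp_apply y Φ, mv_spec]
  rfl

lemma dg_push (M : G V) (Φ : U →ₗ[F] V) (B : G U) : dg (M + push Φ B) = dg M + Φ (dg B) := by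
  refine dual_ext fun y => ?_
  rw [map_add, dg_spec, dg_spec, ← LinearMap.comp_apply y Φ, dg_spec]
  rfl

lemma resid_push (ε : Fk ρ) (p : Pt ρ V) (x : Gam ρ V) (Φ : U →ₗ[F] V) (B : Gam ρ U) (i : Fin ρ) :
    resid ε p (x + gpush Φ B) i =
      resid ε p x i + Φ (mv B.1 ((p.1 i).comp Φ) + B.2 i + ε i • dg B.1) := by
  have h1 : (x + gpush Φ B).1 = x.1 + push Φ B.1 := rfl
  have h2 : (x + gpush Φ B).2 i = x.2 i + Φ (B.2 i) := rfl
  simp only [resid, h1, h2, mv_push, dg_push, map_add, map_smul, smul_add]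
  abel

lemma resid_sub {ε : Fk ρ} {p : Pt ρ V} {x : Gam ρ V} {Φ : U →ₗ[F] V} {p' : Pt ρ U}
    (h1 : ∀ i, p'.1 i = (p.1 i).comp Φ) (h2 : ∀ i, resid ε p x i = Φ (p'.2 i)) (B : Gam ρ U)
    (i : Fin ρ) : resid ε p (x + gpush Φ B) i = Φ (resid ε p' B i) := by
  rw [resid_push, h2, ← h1, ← map_add]
  congr 1
  simp only [resid]
  abel

lemma nn_sub (ε : Fk ρ) (P : Set (Pt ρ V)) (x : Gam ρ V) {Φ : U →ₗ[F] V}
    (hΦ : Function.Injective Φ) (B : Gam ρ U) :
    NN ε (subP ε P x Φ) B ≤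
      sm fun p => ind (p ∈ P ∧ resid ε p (x + gpush Φ B) = 0 ∧ ¬ Red p Φ) := by
  refine sm_ind_le_of_inj _ _
    (fun p' p => (∀ i, p'.1 i = (p.1 i).comp Φ) ∧ ∀ i, resid ε p x i = Φ (p'.2 i)) ?_ ?_
  · rintro p' ⟨⟨p, hp, h1, h2, h3⟩, h0⟩
    refine ⟨p, ⟨hp, ?_, h3⟩, h1, h2⟩
    funext i
    rw [resid_sub h1 h2, h0]
    simp
  · rintro p' p'' p - - ⟨h1, h2⟩ ⟨h3, h4⟩
    refine Prod.ext (funext fun i => ?_) (funext fun i => hΦ ?_)
    · rw [h1, h3]
    · rw [← h2, ← h4]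

lemma nn_nonneg (ε : Fk ρ) (P : Set (Pt ρ V)) (x : Gam ρ V) : 0 ≤ NN ε P x :=
  sm_nonneg fun _ => ind_nonneg _

lemma nn_sub_le (ε : Fk ρ) (P : Set (Pt ρ V)) (x : Gam ρ V) {Φ : U →ₗ[F] V}
    (hΦ : Function.Injective Φ) (B : Gam ρ U) :
    NN ε (subP ε P x Φ) B ≤ NN ε P (x + gpush Φ B) :=
  (nn_sub ε P x hΦ B).trans (sm_mono fun _ => ind_mono fun h => ⟨h.1, h.2.1⟩)

lemma bad_le_one (ε : Fk ρ) (P : Set (Pt ρ V)) (x : Gam ρ V) (Φ : U →ₗ[F] V) :
    bad ε P x Φ ≤ 1 := av_ind_le_one _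

lemma bad_nonneg (ε : Fk ρ) (P : Set (Pt ρ V)) (x : Gam ρ V) (Φ : U →ₗ[F] V) :
    0 ≤ bad ε P x Φ := av_ind_nonneg _

lemma bad_comp (ε : Fk ρ) (P : Set (Pt ρ V)) (x : Gam ρ V) {Φ : U →ₗ[F] V}
    (hΦ : Function.Injective Φ) (y : Gam ρ U) (Ψ : W →ₗ[F] U) :
    bad ε P (x + gpush Φ y) (Φ.comp Ψ) ≤ bad ε (subP ε P x Φ) y Ψ := by
  refine av_mono fun B => ind_mono ?_
  rintro ⟨p, hp, h0, hr⟩
  rw [gpush_comp, add_assoc, ← map_add] at h0
  set z := y + gpush Ψ B with hz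
  have hr' : ¬ Red p Φ := by
    intro h
    apply hr
    intro hi
    apply h
    exact LinearIndependent.of_comp (Ψ.dualMap) hi
  let p' : Pt ρ U := (fun i => (p.1 i).comp Φ,
    fun i => mv z.1 ((p.1 i).comp Φ) + z.2 i + ε i • dg z.1)
  have h2 : ∀ i, resid ε p x i = Φ (p'.2 i) := fun i => by
    have := congrFun h0 i
    rw [resid_push] at this
    exact add_eq_zero2.1 this
  refine ⟨p', ⟨p, hp, fun _ => rfl, h2, hr'⟩, ?_, hr⟩
  funext i
  apply hΦ
  rw [← resid_sub (fun _ => rfl) h2, h0]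
  simp

end part

/-- the quantity bounded in the loop -/
noncomputable def jb {ρ k : ℕ} {V : Type} [AddCommGroup V] [Module F V] [Finite V] (ε : Fk ρ)
    (P : Set (Pt ρ V)) (x : Gam ρ V) (Φ : Hom k V) : ℝ :=
  ind (¬ Function.Injective Φ) + bad ε P x Φ

lemma triv_le {ρ k : ℕ} {V : Type} [AddCommGroup V] [Module F V] [Finite V] (ε : Fk ρ)
    (P : Set (Pt ρ V)) (hk : k ≤ finrank F V) : ∃ A : PFam ρ k V, A.E (jb ε P) ≤ 1 := by
  obtain ⟨Φ, hΦ⟩ := exists_inj hk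
  refine ⟨triv _ Φ, av_le_const fun x => ?_⟩
  rw [jb, ind_neg (not_not.2 hΦ), zero_add]
  exact bad_le_one ε P x Φ

lemma loop {ρ : ℕ} (ε : Fk ρ) (k : ℕ) (Θ : ℝ → ℝ) (h0 : ∀ t, 0 ≤ Θ t)
    (hm : ∀ s t, |s| ≤ |t| → Θ s ≤ Θ t) {L η0 η' b c : ℝ} (hL : 0 < L) (hη0 : 0 ≤ η0)
    (hη' : 0 ≤ η') (hb : 0 ≤ b) (hc : 0 ≤ c)
    (hs : ∀ k' : ℕ, ∃ n0 : ℕ, ∀ (V : Type) [AddCommGroup V] [Module F V] [Finite V],
      n0 ≤ finrank F V → ∀ P : Set (Pt ρ V), av (fun x => Θ (NN ε P x)) ≤ L →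
        Solve ε P k η0 ∨ PDrop ε P k' η' c) (t : ℕ) :
    ∃ n : ℕ, ∀ (V : Type) [AddCommGroup V] [Module F V] [Finite V], n ≤ finrank F V →
      ∀ P : Set (Pt ρ V), ∃ A : PFam ρ k V, A.E (jb ε P) ≤
        (2 * η0 + 2 * t * η' + max 0 (1 - t * (b * c))) + L⁻¹ * av (fun x => Θ (NN ε P x)) +
          b * av (NN ε P) := by
  induction t with
  | zero =>
    refine ⟨k, fun V _ _ _ hV P => ?_⟩
    obtain ⟨A, hA⟩ := triv_le ε P hV
    refine ⟨A, hA.trans ?_⟩
    have h1 : 0 ≤ L⁻¹ * av (fun x => Θ (NN ε P x)) :=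
      mul_nonneg (inv_nonneg.2 hL.le) (av_nonneg fun _ => h0 _)
    have h2 : 0 ≤ b * av (NN ε P) := mul_nonneg hb (av_nonneg (nn_nonneg ε P))
    have h3 : 2 * η0 + 2 * ((0 : ℕ) : ℝ) * η' + max 0 (1 - ((0 : ℕ) : ℝ) * (b * c)) =
        2 * η0 + 1 := by simp
    rw [h3]
    linarith
  | succ t ih =>
    obtain ⟨n, hn⟩ := ih
    obtain ⟨n0, hn0⟩ := hs n
    refine ⟨max k n0, fun V _ _ _ hV P => ?_⟩
    have h1 : 0 ≤ L⁻¹ * av (fun x => Θ (NN ε P x)) :=
      mul_nonneg (inv_nonneg.2 hL.le) (av_nonneg fun _ => h0 _)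
    have h2 : 0 ≤ b * av (NN ε P) := mul_nonneg hb (av_nonneg (nn_nonneg ε P))
    have h3 : 0 ≤ max 0 (1 - ((t + 1 : ℕ) : ℝ) * (b * c)) := le_max_left _ _
    have h4 : 0 ≤ 2 * ((t + 1 : ℕ) : ℝ) * η' := by positivity
    by_cases hsz : av (fun x => Θ (NN ε P x)) ≤ L
    swap
    · obtain ⟨A, hA⟩ := triv_le ε P ((le_max_left _ _).trans hV)
      refine ⟨A, hA.trans ?_⟩
      have : 1 ≤ L⁻¹ * av (fun x => Θ (NN ε P x)) := by
        rw [inv_mul_eq_div, le_div_iff₀ hL]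
        linarith [not_le.1 hsz]
      linarith
    rcases hn0 V ((le_max_right _ _).trans hV) P hsz with ⟨A, hj, hbad⟩ | ⟨A, hj, hu⟩
    · refine ⟨A, ?_⟩
      have : A.E (jb ε P) = A.junk + A.E fun x Φ => bad ε P x Φ := A.add _ _
      linarith
    choose S hS using fun (x : Gam ρ V) (Φ : Hom n V) =>
      hn (Fk n) (finrank_Fk n).ge (subP ε P x Φ)
    refine ⟨comp _ (fun (Φ : Hom n V) (Ψ : Hom k (Fk n)) => Φ.comp Ψ)
      (fun Φ y z => map_add (gpush Φ) y z) (fun Φ Ψ B => gpush_comp Φ Ψ B) A S, ?_⟩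
    set K : ℝ := 2 * η0 + 2 * t * η' + max 0 (1 - t * (b * c)) with hK
    have hK0 : 0 ≤ K := by
      have : 0 ≤ max 0 (1 - (t : ℝ) * (b * c)) := le_max_left _ _
      have : 0 ≤ 2 * (t : ℝ) * η' := by positivity
      linarith
    have key : ∀ (x : Gam ρ V) (Φ : Hom n V),
        ((S x Φ).E fun y Ψ => jb ε P (x + gpush Φ y) (Φ.comp Ψ)) ≤
          (2 * ind (¬ Function.Injective Φ) + K) +
            (L⁻¹ * (av fun B : Gam ρ (Fk n) => Θ (NN ε P (x + gpush Φ B))) +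
              b * unred ε P x Φ) := by
      intro x Φ
      have g1 : 0 ≤ L⁻¹ * av fun B : Gam ρ (Fk n) => Θ (NN ε P (x + gpush Φ B)) :=
        mul_nonneg (inv_nonneg.2 hL.le) (av_nonneg fun _ => h0 _)
      have g2 : 0 ≤ b * unred ε P x Φ :=
        mul_nonneg hb (av_nonneg fun _ => sm_nonneg fun _ => ind_nonneg _)
      by_cases hΦ : Function.Injective Φ
      · have e1 : ((S x Φ).E fun y Ψ => jb ε P (x + gpush Φ y) (Φ.comp Ψ)) ≤
            (S x Φ).E (jb ε (subP ε P x Φ)) := by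
          refine mono _ fun y Ψ => add_le_add (ind_mono fun h hΨ => h ?_) (bad_comp ε P x hΦ y Ψ)
          exact hΦ.comp hΨ
        have e2 : av (fun B => Θ (NN ε (subP ε P x Φ) B)) ≤
            av fun B : Gam ρ (Fk n) => Θ (NN ε P (x + gpush Φ B)) := by
          refine av_mono fun B => hm _ _ ?_
          rw [abs_of_nonneg (nn_nonneg _ _ _), abs_of_nonneg (nn_nonneg _ _ _)]
          exact nn_sub_le ε P x hΦ B
        have e3 : av (NN ε (subP ε P x Φ)) ≤ unred ε P x Φ := av_mono fun B => nn_sub ε P x hΦ B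
        have e4 := mul_le_mul_of_nonneg_left e2 (inv_nonneg.2 hL.le)
        have e5 := mul_le_mul_of_nonneg_left e3 hb
        have e6 := hS x Φ
        have e7 := ind_nonneg (¬ Function.Injective Φ)
        linarith
      · have e1 : ((S x Φ).E fun y Ψ => jb ε P (x + gpush Φ y) (Φ.comp Ψ)) ≤ 2 := by
          refine (mono _ fun y Ψ => ?_).trans (const (S x Φ) 2).le
          have := ind_le_one (¬ Function.Injective (Φ.comp Ψ))
          have := bad_le_one ε P (x + gpush Φ y) (Φ.comp Ψ)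
          rw [jb]
          linarith
        rw [ind_pos hΦ]
        linarith
    refine (mono A key).trans ?_
    clear_value K
    rw [A.add, A.add, A.add, A.smul, A.smul, A.smul, const A K, A.marg fun x => Θ (NN ε P x), hK]
    have e1 : (A.E fun _ Φ => ind (¬ Function.Injective Φ)) ≤ η' := hj
    have e2 := mul_le_mul_of_nonneg_left hu hb
    have e3 : max 0 (1 - (t : ℝ) * (b * c)) - b * c ≤ max 0 (1 - ((t + 1 : ℕ) : ℝ) * (b * c)) := by
      have hbc : 0 ≤ b * c := mul_nonneg hb hc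
      rcases le_total 0 (1 - (t : ℝ) * (b * c)) with h | h
      · rw [max_eq_right h]
        refine le_trans (le_of_eq ?_) (le_max_right _ _)
        push_cast; ring
      · rw [max_eq_left h]
        linarith
    push_cast at e3 ⊢
    nlinarith

end Rp

theorem rp_of (hT : TH) (r : ℕ) (h : PSTEP r) : RP r := by
  intro ε D k η hη
  obtain ⟨Θ, h0, hm, hD, hC⟩ := hT D
  choose C hC0 hC using hC
  obtain ⟨c, hc, hs⟩ := h ε (fun p => C p * (8 / η)) k (η / 8) (by positivity)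
  set b : ℝ := η / (8 * (|D 1| + 1)) with hb
  have hb0 : 0 < b := by positivity
  obtain ⟨t, ht⟩ := exists_nat_ge (1 / (b * c))
  have hbc : 0 < b * c := mul_pos hb0 hc
  have ht1 : 1 ≤ (t : ℝ) * (b * c) := by rwa [div_le_iff₀ hbc] at ht
  obtain ⟨n, hn⟩ := Rp.loop ε k Θ h0 hm (L := 8 / η) (η0 := η / 8) (η' := η / (8 * (t + 1)))
    (b := b) (c := c) (by positivity) (by positivity) (by positivity) hb0.le hc.le (fun k' => by
      obtain ⟨n0, hn0⟩ := hs k' (η / (8 * (t + 1))) (by positivity)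
      refine ⟨n0, fun V _ _ _ hV P hP => hn0 V hV P fun p => ?_⟩
      refine (av_mono fun x => hC p _).trans ?_
      rw [av_mul_left]
      exact mul_le_mul_of_nonneg_left hP (hC0 p)) t
  refine ⟨n, fun V _ _ _ hV P hP => ?_⟩
  obtain ⟨A, hA⟩ := hn V hV P
  have e1 : max 0 (1 - (t : ℝ) * (b * c)) = 0 := max_eq_left (by linarith)
  have e2 : (8 / η)⁻¹ * av (fun x => Θ (NN ε P x)) ≤ η / 8 := by
    rw [inv_div]
    exact mul_le_of_le_one_right (by positivity) (hD _ _ hP)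
  have e3 : b * av (NN ε P) ≤ η / 8 := by
    have h1 : av (NN ε P) ≤ |D 1| + 1 := by
      have := hP 1
      simp only [pow_one] at this
      have h2 : av (NN ε P) ≤ av fun x => |NN ε P x| := av_mono fun x => le_abs_self _
      linarith [le_abs_self (D 1)]
    refine (mul_le_mul_of_nonneg_left h1 hb0.le).trans (le_of_eq ?_)
    rw [hb]
    field_simp
  have e4 : 2 * (t : ℝ) * (η / (8 * (t + 1))) ≤ η / 4 := by
    rw [mul_div_assoc', div_le_div_iff₀ (by positivity) (by positivity)]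
    nlinarith
  have e5 : A.E (Rp.jb ε P) = A.junk + A.E fun x Φ => bad ε P x Φ := A.add _ _
  have e6 : 0 ≤ A.junk := A.pos _ fun _ _ => ind_nonneg _
  have e7 : 0 ≤ A.E fun x Φ => bad ε P x Φ := A.pos _ fun x Φ => Rp.bad_nonneg ε P x Φ
  exact ⟨A, by linarith, by linarith⟩

theorem pstep_of (r : ℕ) (hH : HH r) (hG : LG r) (hP : PURE r) : PSTEP r := by
  intro ε D k η hη
  obtain ⟨η1, hη1, nP, hnP⟩ := hP ε D k η hη
  obtain ⟨c1, hc1, h1⟩ := hH ε D η1 hη1
  obtain ⟨c2, hc2, h2⟩ := hG ε D η1 hη1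
  refine ⟨min c1 c2, lt_min hc1 hc2, fun k' η' hη' => ?_⟩
  obtain ⟨n1, hn1⟩ := h1 k' η' hη'
  obtain ⟨n2, hn2⟩ := h2 k' η' hη'
  refine ⟨max nP (max n1 n2), fun V _ _ _ hV P hT => ?_⟩
  have v0 : nP ≤ finrank F V := (le_max_left _ _).trans hV
  have v1 : n1 ≤ finrank F V := (le_max_left _ _).trans ((le_max_right _ _).trans hV)
  have v2 : n2 ≤ finrank F V := (le_max_right _ _).trans ((le_max_right _ _).trans hV)
  by_cases ha : ∀ DD : Submodule F (Fk r), DD ≠ ⊥ → DD ≠ ⊤ → coll P DD ≤ η1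
  · by_cases hb : energy P ≤ η1 * DP V (3 * r)
    · exact Or.inl (hnP V v0 P hT ha hb)
    · obtain ⟨A, hj, hu⟩ := hn2 V v2 P hT (not_le.1 hb).le
      exact Or.inr ⟨A, hj, hu.trans (sub_le_sub_left (min_le_right _ _) _)⟩
  · push Not at ha
    obtain ⟨DD, h3, h4, h5⟩ := ha
    obtain ⟨A, hj, hu⟩ := hn1 V v1 P hT DD h3 h4 h5.le
    exact Or.inr ⟨A, hj, hu.trans (sub_le_sub_left (min_le_left _ _) _)⟩

end SD
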