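import Pool.Agent.Lib.MP_ecee09_co.SD.Pu0
import Pool.Agent.Lib.MP_ecee09_co.SD.FamB
import Pool.Agent.Lib.MP_ecee09_co.SD.RPl
import Pool.Agent.Lib.MP_ecee09_co.SD.HC

/-! Section 7, (P6): the pure case. -/

namespace SD

open Module

section
variable {ρ : ℕ} {U V : Type} [AddCommGroup U] [Module F U] [Finite U] [AddCommGroup V]
  [Module F V] [Finite V]

/-- the local factor -/
noncomputable def pu6g (w : Fin ρ → Dual F U) : ℝ := (Nat.card (Fin ρ → U) : ℝ) * ind (w = 0)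

omit [Finite U] in
lemma pu6g_nonneg (w : Fin ρ → Dual F U) : 0 ≤ pu6g w :=
  mul_nonneg (Nat.cast_nonneg _) (ind_nonneg _)

omit [Finite U] in
lemma pu6g_le (w : Fin ρ → Dual F U) : pu6g w ≤ Nat.card (Fin ρ → U) :=
  mul_le_of_le_one_right (Nat.cast_nonneg _) (ind_le_one _)

lemma pu6_sm_sg (w : Fin ρ → Dual F U) :
    (sm fun s : Fin ρ → U => sg (∑ i, w i (s i))) = pu6g w := by
  classical
  rw [sm_eq_card_mul_av, av_sg (fun s : Fin ρ → U => ∑ i, w i (s i))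
    (fun a b => by simp [Finset.sum_add_distrib]), pu6g]
  congr 1
  refine ind_congr ⟨fun h => ?_, fun h s => by simp [h]⟩
  funext i
  ext u
  have := h (Pi.single i u)
  rw [Finset.sum_eq_single i (fun j _ hj => by simp [Pi.single_eq_of_ne hj]) (by simp)] at this
  simpa using this

lemma pu6_one_add (q : (Fin ρ → U) → Prop) (hq : q 0) (w : Fin ρ → Dual F U) :
    1 + puF (fun s => ind (s ≠ 0 ∧ q s)) w = sm fun s => ind (q s) * sg (∑ i, w i (s i)) := by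
  have h1 := sm_ind_eq (0 : Fin ρ → U) (fun s => sg (∑ i, w i (s i)))
  have h2 : sg (∑ i, w i ((0 : Fin ρ → U) i)) = 1 := by simp
  rw [h2] at h1
  rw [← h1, puF, ← sm_add]
  refine sm_congr fun s => ?_
  by_cases hs : s = 0
  · subst hs; simp [ind_pos hq, ind_pos, ind_neg]
  · rw [ind_neg hs, ind_congr (q := q s) ⟨fun h => h.2, fun h => ⟨hs, h⟩⟩]; ring

lemma pu6_half (a : Prop) [Decidable a] (w : Fin ρ → Dual F U) :
    (sm fun s : Fin ρ → U => ind (a ∨ ∀ i, s i = 0) * sg (∑ i, w i (s i))) =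
      if a then pu6g w else 1 := by
  by_cases ha : a
  · rw [if_pos ha, ← pu6_sm_sg]
    exact sm_congr fun s => by rw [ind_pos (Or.inl ha), one_mul]
  · rw [if_neg ha]
    have h1 := sm_ind_eq (0 : Fin ρ → U) (fun s => sg (∑ i, w i (s i)))
    have h2 : sg (∑ i, w i ((0 : Fin ρ → U) i)) = 1 := by simp
    rw [h2] at h1
    rw [← h1]
    refine sm_congr fun s => ?_
    have h3 : (a ∨ ∀ i, s i = 0) ↔ s = 0 :=
      ⟨fun h => funext (h.resolve_left ha), fun h => Or.inr fun i => by simp [h]⟩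
    rw [ind_congr h3]

/-- coefficients for one probe -/
noncomputable def pu6c1 (_t s : Fin ρ → U) : ℝ := ind (s ≠ 0 ∧ True)

/-- coefficients for the joint probe -/
noncomputable def pu6c2 (t s : Fin ρ → U × U) : ℝ :=
  ind (s ≠ 0 ∧ (((∀ i, (t i).2 = 0) ∨ ∀ i, (s i).1 = 0) ∧ ((∀ i, (t i).1 = 0) ∨ ∀ i, (s i).2 = 0)))

/-- labels for the joint probe -/
def pu6L2 : Set (Fin ρ → U × U) := {t | (∀ i, (t i).2 = 0) ∨ ∀ i, (t i).1 = 0}

lemma pu6_f1 (t : Fin ρ → U) (w : Fin ρ → Dual F U) : 1 + puF (pu6c1 t) w = pu6g w := by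
  have := pu6_one_add (fun _ : Fin ρ → U => True) trivial w
  rw [← pu6_sm_sg]
  refine this.trans (sm_congr fun s => by rw [ind_pos trivial, one_mul])

omit [Finite V] in
open Classical in
lemma pu6_f2 (t : Fin ρ → U × U) (p : Pt ρ V) (Φ Φ' : U →ₗ[F] V) :
    1 + puF (pu6c2 t) (puV p (Φ.coprod Φ')) =
      (if ∀ i, (t i).2 = 0 then pu6g (puV p Φ) else 1) *
        (if ∀ i, (t i).1 = 0 then pu6g (puV p Φ') else 1) := by
  have := pu6_one_add (fun s : Fin ρ → U × U => ((∀ i, (t i).2 = 0) ∨ ∀ i, (s i).1 = 0) ∧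
    ((∀ i, (t i).1 = 0) ∨ ∀ i, (s i).2 = 0)) ⟨Or.inr fun _ => rfl, Or.inr fun _ => rfl⟩
    (puV p (Φ.coprod Φ'))
  refine this.trans ?_
  rw [← pu6_half, ← pu6_half, sm_mul_sm, ← sm_prod (fun z : (Fin ρ → U) × (Fin ρ → U) =>
    (ind ((∀ i, (t i).2 = 0) ∨ ∀ i, z.1 i = 0) * sg (∑ i, puV p Φ i (z.1 i))) *
      (ind ((∀ i, (t i).1 = 0) ∨ ∀ i, z.2 i = 0) * sg (∑ i, puV p Φ' i (z.2 i)))),
    ← sm_equiv (Equiv.arrowProdEquivProdArrow (Fin ρ) (fun _ => U) (fun _ => U))]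
  refine sm_congr fun s => ?_
  have h1 : ∑ i, puV p (Φ.coprod Φ') i (s i) =
      ∑ i, puV p Φ i (s i).1 + ∑ i, puV p Φ' i (s i).2 := by
    rw [← Finset.sum_add_distrib]
    exact Finset.sum_congr rfl fun i _ => by simp [puV]
  rw [h1, sg_add, ind_and]
  simp only [Equiv.arrowProdEquivProdArrow_apply]
  ring

/-- the density -/
noncomputable def pu6psi (ε : Fk ρ) (P : Set (Pt ρ V)) (L : ℕ) (x : Gam ρ V) (Φ : U →ₗ[F] V) :
    ℝ := puPi ε P Set.univ pu6c1 L x Φ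

lemma pu6psi_eq (ε : Fk ρ) (P : Set (Pt ρ V)) (L : ℕ) (x : Gam ρ V) (Φ : U →ₗ[F] V) :
    pu6psi ε P L x Φ = ind (Function.Injective Φ) * ind ((puC ε P Set.univ x Φ).card ≤ L) *
      ∏ z ∈ puC ε P Set.univ x Φ, pu6g (puV z.1 Φ) := by
  simp only [pu6psi, puPi, pu6_f1]

lemma pu6psi_nonneg (ε : Fk ρ) (P : Set (Pt ρ V)) (L : ℕ) (x : Gam ρ V) (Φ : U →ₗ[F] V) :
    0 ≤ pu6psi ε P L x Φ := by
  rw [pu6psi_eq]
  exact mul_nonneg (mul_nonneg (ind_nonneg _) (ind_nonneg _))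
    (Finset.prod_nonneg fun _ _ => pu6g_nonneg _)

lemma pu6psi_le (ε : Fk ρ) (P : Set (Pt ρ V)) (L : ℕ) (x : Gam ρ V) (Φ : U →ₗ[F] V) :
    pu6psi ε P L x Φ ≤ (Nat.card (Fin ρ → U) : ℝ) ^ L := by
  rw [pu6psi_eq]
  have h1 : (1 : ℝ) ≤ Nat.card (Fin ρ → U) := by exact_mod_cast Nat.card_pos
  by_cases hc : (puC ε P Set.univ x Φ).card ≤ L
  · rw [ind_pos hc, mul_one]
    have h2 : ∏ z ∈ puC ε P Set.univ x Φ, pu6g (puV z.1 Φ) ≤ (Nat.card (Fin ρ → U) : ℝ) ^ L := by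
      refine le_trans ?_ (pow_le_pow_right₀ h1 hc)
      rw [← Finset.prod_const]
      exact Finset.prod_le_prod (fun _ _ => pu6g_nonneg _) fun _ _ => pu6g_le _
    exact (mul_le_of_le_one_left (Finset.prod_nonneg fun _ _ => pu6g_nonneg _)
      (ind_le_one _)).trans h2
  · rw [ind_neg hc, mul_zero, zero_mul]; positivity

lemma pu6psi_inv (ε : Fk ρ) (P : Set (Pt ρ V)) (L : ℕ) (x : Gam ρ V) (Φ : U →ₗ[F] V)
    (B : Gam ρ U) : pu6psi ε P L (x + gpush Φ B) Φ = pu6psi ε P L x Φ := by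
  let d : Pt ρ V → Fin ρ → U := fun p i => mv B.1 ((p.1 i).comp Φ) + B.2 i + ε i • dg B.1
  let e : Pt ρ V × (Fin ρ → U) ≃ Pt ρ V × (Fin ρ → U) :=
    ⟨fun z => (z.1, z.2 + d z.1), fun z => (z.1, z.2 - d z.1), fun z => by simp, fun z => by simp⟩
  have he : ∀ z, z ∈ puC ε P Set.univ x Φ ↔ e z ∈ puC ε P Set.univ (x + gpush Φ B) Φ := by
    intro z
    simp only [mem_puC, Rp.resid_push, e, Equiv.coe_fn_mk, Pi.add_apply, Set.mem_univ, true_and]
    refine and_congr Iff.rfl (forall_congr' fun i => ?_)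
    rw [map_add Φ (z.2 i)]
    exact (add_left_inj _).symm
  rw [pu6psi_eq, pu6psi_eq, ← Finset.card_equiv e he,
    ← Finset.prod_equiv e he (f := fun z => pu6g (puV z.1 Φ)) fun _ _ => rfl]

lemma pu6psi_bad (hρ : 1 ≤ ρ) (ε : Fk ρ) (P : Set (Pt ρ V)) (L : ℕ) (x : Gam ρ V)
    (Φ : U →ₗ[F] V) (h : pu6psi ε P L x Φ ≠ 0) : bad ε P x Φ = 0 := by
  unfold bad
  rw [← av_zero (α := Gam ρ U)]
  refine av_congr fun B => ind_neg ?_
  rintro ⟨p, hp, h0, hr⟩
  rw [← pu6psi_inv ε P L x Φ B, pu6psi_eq] at h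
  have h1 := Finset.prod_ne_zero_iff.1 (right_ne_zero_of_mul h) (p, 0)
    (mem_puC.2 ⟨hp, trivial, fun i => by simp [h0]⟩)
  have h2 : puV p Φ = 0 := by
    by_contra hc
    exact h1 (by simp [pu6g, ind_neg hc])
  refine hr fun hi => hi.ne_zero ⟨0, hρ⟩ ?_
  exact congrFun h2 ⟨0, hρ⟩

lemma pu6_joint (ε : Fk ρ) (P : Set (Pt ρ V)) (L : ℕ) (x : Gam ρ V) (Φ Φ' : U →ₗ[F] V) :
    pu6psi ε P L x Φ * pu6psi ε P L x Φ' ≤
      puPi ε P pu6L2 pu6c2 (2 * L) x (Φ.coprod Φ') +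
        (Nat.card (Fin ρ → U) : ℝ) ^ (2 * L) * ind (¬ Function.Injective (Φ.coprod Φ')) := by
  classical
  by_cases hi : Function.Injective (Φ.coprod Φ')
  swap
  · rw [ind_pos hi, puPi, ind_neg hi, zero_mul, zero_mul, zero_add, mul_one, two_mul, pow_add]
    exact mul_le_mul (pu6psi_le ..) (pu6psi_le ..) (pu6psi_nonneg ..) (by positivity)
  rw [ind_neg (not_not.2 hi), mul_zero, add_zero, puPi, ind_pos hi, one_mul]
  simp only [pu6_f2]
  set C2 := puC ε P pu6L2 x (Φ.coprod Φ') with hC2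
  let j1 : Pt ρ V × (Fin ρ → U) → Pt ρ V × (Fin ρ → U × U) := fun z => (z.1, fun i => (z.2 i, 0))
  let j2 : Pt ρ V × (Fin ρ → U) → Pt ρ V × (Fin ρ → U × U) := fun z => (z.1, fun i => (0, z.2 i))
  have i1 : Function.Injective j1 := fun z z' h => by
    simp only [j1, Prod.mk.injEq] at h
    exact Prod.ext h.1 (funext fun i => (Prod.ext_iff.1 (congrFun h.2 i)).1)
  have i2 : Function.Injective j2 := fun z z' h => by
    simp only [j2, Prod.mk.injEq] at h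
    exact Prod.ext h.1 (funext fun i => (Prod.ext_iff.1 (congrFun h.2 i)).2)
  have e1 : C2.filter (fun z => ∀ i, (z.2 i).2 = 0) = (puC ε P Set.univ x Φ).image j1 := by
    ext z
    simp only [Finset.mem_filter, Finset.mem_image, hC2, mem_puC]
    constructor
    · rintro ⟨⟨h1, _, h3⟩, h4⟩
      refine ⟨(z.1, fun i => (z.2 i).1), ⟨h1, trivial, fun i => ?_⟩, ?_⟩
      · rw [h3 i]; simp [h4 i]
      · exact Prod.ext rfl (funext fun i => Prod.ext rfl (h4 i).symm)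
    · rintro ⟨y, ⟨h1, _, h3⟩, rfl⟩
      exact ⟨⟨h1, Or.inl fun _ => rfl, fun i => by simp [j1, h3 i]⟩, fun _ => rfl⟩
  have e2 : C2.filter (fun z => ∀ i, (z.2 i).1 = 0) = (puC ε P Set.univ x Φ').image j2 := by
    ext z
    simp only [Finset.mem_filter, Finset.mem_image, hC2, mem_puC]
    constructor
    · rintro ⟨⟨h1, _, h3⟩, h4⟩
      refine ⟨(z.1, fun i => (z.2 i).2), ⟨h1, trivial, fun i => ?_⟩, ?_⟩
      · rw [h3 i]; simp [h4 i]
      · exact Prod.ext rfl (funext fun i => Prod.ext (h4 i).symm rfl)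
    · rintro ⟨y, ⟨h1, _, h3⟩, rfl⟩
      exact ⟨⟨h1, Or.inr fun _ => rfl, fun i => by simp [j2, h3 i]⟩, fun _ => rfl⟩
  have hcard : C2.card ≤ (puC ε P Set.univ x Φ).card + (puC ε P Set.univ x Φ').card := by
    rw [← Finset.card_image_of_injective _ i1, ← Finset.card_image_of_injective _ i2, ← e1, ← e2]
    refine (Finset.card_le_card fun z hz => ?_).trans (Finset.card_union_le _ _)
    have := (mem_puC.1 hz).2.1
    simp only [Finset.mem_union, Finset.mem_filter]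
    exact this.imp (fun h => ⟨hz, h⟩) fun h => ⟨hz, h⟩
  rw [Finset.prod_mul_distrib, ← Finset.prod_filter, ← Finset.prod_filter, e1, e2,
    Finset.prod_image (fun _ _ _ _ h => i1 h), Finset.prod_image (fun _ _ _ _ h => i2 h),
    pu6psi_eq, pu6psi_eq]
  simp only [j1, j2]
  have p1 : 0 ≤ ∏ z ∈ puC ε P Set.univ x Φ, pu6g (puV z.1 Φ) :=
    Finset.prod_nonneg fun _ _ => pu6g_nonneg _
  have p2 : 0 ≤ ∏ z ∈ puC ε P Set.univ x Φ', pu6g (puV z.1 Φ') :=
    Finset.prod_nonneg fun _ _ => pu6g_nonneg _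
  have h3 : ind (Function.Injective Φ) * ind ((puC ε P Set.univ x Φ).card ≤ L) *
      (ind (Function.Injective Φ') * ind ((puC ε P Set.univ x Φ').card ≤ L)) ≤
      ind (C2.card ≤ 2 * L) := by
    rw [← ind_and, ← ind_and, ← ind_and]
    exact ind_mono fun h => by omega
  calc _ = (ind (Function.Injective Φ) * ind ((puC ε P Set.univ x Φ).card ≤ L) *
      (ind (Function.Injective Φ') * ind ((puC ε P Set.univ x Φ').card ≤ L))) *
        ((∏ z ∈ puC ε P Set.univ x Φ, pu6g (puV z.1 Φ)) *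
          ∏ z ∈ puC ε P Set.univ x Φ', pu6g (puV z.1 Φ')) := by ring
    _ ≤ _ := mul_le_mul_of_nonneg_right h3 (mul_nonneg p1 p2)

omit [Finite U] [Finite V] in
lemma pu6_gpush0 (B : Gam ρ U) : gpush (0 : U →ₗ[F] V) B = 0 := by
  refine Prod.ext ?_ (funext fun i => rfl)
  refine LinearMap.ext fun Q => ?_
  have : pull (0 : U →ₗ[F] V) Q = 0 := QuadraticMap.ext fun x => Q.map_zero
  change B.1 (pull (0 : U →ₗ[F] V) Q) = 0
  rw [this, map_zero]

/-- second moment of the marginal density -/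
lemma pu6_var (ε : Fk ρ) (P : Set (Pt ρ V)) (L : ℕ) (δ : ℝ)
    (h1 : |(av fun Φ : U →ₗ[F] V => av fun x : Gam ρ V =>
      puPi ε P Set.univ pu6c1 L x Φ) - 1| ≤ δ)
    (h2 : |(av fun Φ : U × U →ₗ[F] V => av fun x : Gam ρ V =>
      puPi ε P pu6L2 pu6c2 (2 * L) x Φ) - 1| ≤ δ)
    (h3 : (Nat.card (Fin ρ → U) : ℝ) ^ (2 * L) * ((Nat.card (U × U) : ℝ) / Nat.card V) ≤ δ) :
    (av fun x : Gam ρ V => (av (fun Φ : U →ₗ[F] V => pu6psi ε P L x Φ) - 1) ^ 2) ≤ 4 * δ := by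
  have e1 : ∀ x : Gam ρ V, (av (fun Φ : U →ₗ[F] V => pu6psi ε P L x Φ) - 1) ^ 2 =
      (av fun Φ : U →ₗ[F] V => av fun Φ' : U →ₗ[F] V => pu6psi ε P L x Φ * pu6psi ε P L x Φ') -
        2 * av (fun Φ : U →ₗ[F] V => pu6psi ε P L x Φ) + 1 := by
    intro x; rw [← av_mul_av]; ring
  simp only [e1]
  rw [av_add, av_sub, av_mul_left, av_const]
  have a1 : 1 - δ ≤ av fun x : Gam ρ V => av (fun Φ : U →ₗ[F] V => pu6psi ε P L x Φ) := by
    rw [av_comm]
    have := (abs_le.1 h1).1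
    simp only [pu6psi]
    linarith
  have a2 : (av fun x : Gam ρ V => av fun Φ : U →ₗ[F] V => av fun Φ' : U →ₗ[F] V =>
      pu6psi ε P L x Φ * pu6psi ε P L x Φ') ≤ 1 + 2 * δ := by
    have b1 : ∀ x : Gam ρ V, (av fun Φ : U →ₗ[F] V => av fun Φ' : U →ₗ[F] V =>
        pu6psi ε P L x Φ * pu6psi ε P L x Φ') ≤
        av fun Φ : U × U →ₗ[F] V => puPi ε P pu6L2 pu6c2 (2 * L) x Φ +
          (Nat.card (Fin ρ → U) : ℝ) ^ (2 * L) * ind (¬ Function.Injective Φ) := by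
      intro x
      rw [← av_equiv (LinearMap.coprodEquiv F (M := U) (M₂ := U) (M₃ := V)).toEquiv, av_prod]
      exact av_mono fun Φ => av_mono fun Φ' => pu6_joint ε P L x Φ Φ'
    refine (av_mono b1).trans ?_
    simp only [av_add, av_mul_left, av_const]
    rw [av_comm]
    have b2 := mul_le_mul_of_nonneg_left (pu_inj (U := U × U) (V := V))
      (show (0 : ℝ) ≤ (Nat.card (Fin ρ → U) : ℝ) ^ (2 * L) by positivity)
    have b3 := (abs_le.1 h2).2
    linarith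
  linarith

end

theorem pure_of5 (h5 : PU5) (hMR : MR) (ρ : ℕ) (hρ : 1 ≤ ρ) : PURE ρ := by
  intro ε D k η hη
  obtain ⟨η0, hη0, hM⟩ := hMR (η / 2) (Nat.card (Gam ρ (Fk k))) (by positivity)
  set δ : ℝ := min (η0 ^ 2 / 4) (η / 2) with hδ
  have hδ0 : 0 < δ := lt_min (by positivity) (by positivity)
  set N : ℕ := Nat.card (Fin ρ → Fk k) with hN
  obtain ⟨L1, hL1⟩ := h5 ρ D (max 1 (D 1)) N δ hρ hδ0
  obtain ⟨L2, hL2⟩ := h5 ρ D (max 1 (D 1)) (Nat.card (Fin ρ → Fk k × Fk k)) δ hρ hδ0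
  set L := max L1 L2 with hL
  obtain ⟨e1, he1, n1, H1⟩ := hL1 L (le_max_left _ _)
  obtain ⟨e2, he2, n2, H2⟩ := hL2 (2 * L) (by have := le_max_right L1 L2; omega)
  obtain ⟨n3, hn3⟩ := pow_unbounded_of_one_lt
    ((N : ℝ) ^ (2 * L) * (Nat.card (Fk k × Fk k) : ℝ) / δ) (show (1 : ℝ) < 2 by norm_num)
  set e : ℝ := min 1 (min e1 e2) with he
  have he0 : 0 < e := lt_min one_pos (lt_min he1 he2)
  have hle1 : e ≤ 1 := min_le_left _ _
  refine ⟨(e / 2) ^ 2, by positivity, max n1 (max n2 n3), ?_⟩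
  intro V _ _ _ hn P hP hc hen
  have hsq : (e / 2) ^ 2 ≤ e / 2 := by nlinarith
  have hH : PuH P (max 1 (D 1)) e :=
    { one := le_max_left _ _
      pos := he0
      le1 := hle1
      lam := by
        have h1 := hc_av_NN_le hP
        rw [div_le_iff₀ (DP_pos _)] at h1
        exact h1.trans (mul_le_mul_of_nonneg_right (le_max_right _ _) (DP_pos _).le)
      coll := fun DD a b => (hc DD a b).trans (by linarith)
      en := hen.trans (mul_le_mul_of_nonneg_right (by linarith) (DP_pos _).le)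
      att := fun l hl => by
        have h1 := pu_at P _ (by positivity) hc hen l hl
        rw [Real.sqrt_sq (by positivity)] at h1
        linarith }
  have A1 := H1 e ((min_le_right _ _).trans (min_le_left _ _)) (Fk k) V ε P le_rfl
    ((le_max_left _ _).trans hn) hP hH Set.univ pu6c1
    (fun _ _ => by rw [pu6c1, abs_ind]; exact ind_le_one _) (fun _ => ind_neg fun h => h.1 rfl)
  have A2 := H2 e ((min_le_right _ _).trans (min_le_right _ _)) (Fk k × Fk k) V ε P le_rfl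
    (((le_max_left _ _).trans (le_max_right _ _)).trans hn) hP hH pu6L2 pu6c2
    (fun _ _ => by rw [pu6c2, abs_ind]; exact ind_le_one _) (fun _ => ind_neg fun h => h.1 rfl)
  have A3 : (Nat.card (Fin ρ → Fk k) : ℝ) ^ (2 * L) *
      ((Nat.card (Fk k × Fk k) : ℝ) / Nat.card V) ≤ δ := by
    have b1 : (2 : ℝ) ^ n3 ≤ Nat.card V := by
      rw [card_eq_pow (X := V)]
      push_cast
      exact pow_le_pow_right₀ (by norm_num) (((le_max_right _ _).trans (le_max_right _ _)).trans hn)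
    rw [← mul_div_assoc, div_le_iff₀ card_pos']
    rw [div_lt_iff₀ hδ0] at hn3
    nlinarith
  have A4 := pu6_var ε P L δ A1 A2 A3
  have A5 : (av fun x : Gam ρ V => |av (fun Φ : Hom k V => pu6psi ε P L x Φ) - 1|) ≤ η0 := by
    have b1 := av_sq_le (fun x : Gam ρ V => |av (fun Φ : Hom k V => pu6psi ε P L x Φ) - 1|)
    simp only [sq_abs] at b1
    have b2 : δ ≤ η0 ^ 2 / 4 := min_le_left _ _
    exact le_of_sq_le_sq (by linarith) hη0.le
  obtain ⟨ψ', p0, p1, p2, p3, p4, p5⟩ := hM (Gam ρ V) (Gam ρ (Fk k)) (Hom k V)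
    (fun Φ B => gpush Φ B) (fun Φ => Function.Injective Φ) (fun x Φ => pu6psi ε P L x Φ)
    (fun Φ => (gpush Φ).map_add) le_rfl (fun x Φ => pu6psi_nonneg ε P L x Φ)
    (fun x Φ B => pu6psi_inv ε P L x Φ B) A5 (by
      have : ∀ (x : Gam ρ V) (Φ : Hom k V),
          pu6psi ε P L x Φ * ind (¬ Function.Injective Φ) = 0 := by
        intro x Φ
        by_cases hi : Function.Injective Φ
        · rw [ind_neg (not_not.2 hi), mul_zero]
        · rw [pu6psi_eq, ind_neg hi]; simp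
      simp only [this, av_zero]
      exact hη0.le)
  obtain ⟨A, hA⟩ := Fam.ofDens (fun (Φ : Hom k V) (B : Gam ρ (Fk k)) => gpush Φ B) id 0
    (fun B => pu6_gpush0 B) ψ' p0 p2 p4
  have key : ∀ f : Gam ρ V → Hom k V → ℝ, (∀ x Φ, f x Φ ≤ 1) → (∀ x Φ, ψ' x Φ * f x Φ = 0) →
      A.E f ≤ η := by
    intro f hf hf0
    rw [hA]
    simp only [id, hf0, av_zero, zero_add]
    have b1 : (av fun x => (1 - av (ψ' x)) * f x 0) ≤ av fun x => 1 - av (ψ' x) :=
      av_mono fun x => mul_le_of_le_one_right (sub_nonneg.2 (p4 x)) (hf x 0)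
    refine b1.trans ?_
    rw [av_sub, av_const]
    simp only [av_sub] at p5
    have b2 : 1 - δ ≤ av fun x : Gam ρ V => av (fun Φ : Hom k V => pu6psi ε P L x Φ) := by
      rw [av_comm]
      have := (abs_le.1 A1).1
      simp only [pu6psi]
      linarith
    have b3 : δ ≤ η / 2 := min_le_right _ _
    linarith
  refine ⟨A, key _ (fun _ _ => ind_le_one _) fun x Φ => ?_,
    key _ (fun x Φ => av_ind_le_one _) fun x Φ => ?_⟩
  · by_cases hi : Function.Injective Φ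
    · rw [ind_neg (not_not.2 hi), mul_zero]
    · rw [p3 x Φ hi, zero_mul]
  · by_cases h0 : pu6psi ε P L x Φ = 0
    · have : ψ' x Φ = 0 := le_antisymm (h0 ▸ p1 x Φ) (p0 x Φ)
      rw [this, zero_mul]
    · rw [pu6psi_bad hρ ε P L x Φ h0, mul_zero]

end SD
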