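import Pool.Agent.Lib.MP_ecee09_co.SD.Pu2
import Pool.Agent.Lib.MP_ecee09_co.SD.Pu4
import Pool.Agent.Lib.MP_ecee09_co.SD.Pu5
import Pool.Agent.Lib.MP_ecee09_co.SD.Pu6

/-! Section 7: the pure case. -/

namespace SD

theorem pure_of (hMR : MR) (r : ℕ) (hr : 1 ≤ r) : PURE r :=
  pure_of5 (pu5_of (pu4_of pu2)) hMR r hr

end SD
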