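import Pool.Agent.Lib.MP_ecee09_co.SD.Fld
import Pool.Agent.Lib.MP_ecee09_co.SD.Stmts

/-! RSTEP from the Gaussian step and the three structured cases. -/

namespace SD

open Module

/-- push a family forward along an onto additive map -/
lemma Fam.rsMap {X Y C Λ Λ' : Type} [AddCommGroup X] [Finite X] [AddCommGroup Y] [Finite Y]
    {a : Λ → C → X} {a' : Λ' → C → Y} (A : Fam a') (e : Y → X)
    (he : ∀ y y', e (y + y') = e y + e y') (hs : Function.Surjective e) (r : Λ' → Λ)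
    (hr : ∀ l c, a (r l) c = e (a' l c)) :
    ∃ A' : Fam a, ∀ f, A'.E f = A.E fun y l => f (e y) (r l) := by
  refine ⟨⟨fun f => A.E fun y l => f (e y) (r l), ?_, ?_, ?_, ?_⟩, fun _ => rfl⟩
  · intro f g; simp only [Fam.add]
  · intro c f; simp only [Fam.smul]
  · intro f h; exact A.pos _ fun y l => h _ _
  · intro g
    rw [← av_surj e he hs g, ← A.marg fun y => g (e y)]
    simp only [hr, he]

variable {U V : Type} [AddCommGroup U] [Module F U] [AddCommGroup V] [Module F V] [Finite U]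
  [Finite V]

lemma rs_gain (e : U ≃ₗ[F] V) {J k : ℕ} {u : G V → ℝ} {η c : ℝ}
    (h : Gain J (res u 0 e.toLinearMap) k η c) : Gain J u k η c := by
  obtain ⟨A, h1, h2⟩ := h
  obtain ⟨A', hA⟩ := Fam.rsMap (a := fun (Φ : Hom k V) (B : G (Fk k)) => push Φ B) A
    (push e.toLinearMap) (push e.toLinearMap).map_add (push_surj e.surjective)
    (fun Φ => e.toLinearMap.comp Φ) fun _ _ => rfl
  refine ⟨A', ?_, ?_⟩
  · rw [Fam.junk, hA]
    refine le_trans (le_of_eq (A.congr' fun _ Φ => ind_congr (not_congr ?_))) h1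
    exact Function.Injective.of_comp_iff e.injective Φ
  · rw [hA]
    refine h2.trans (le_of_eq (A.congr' fun y Φ => ?_))
    rw [res_res, zero_add]

lemma rs_coef (e : U ≃ₗ[F] V) (u : G V → ℝ) (Q : QF V) :
    coef (res u 0 e.toLinearMap) (Q.comp e.toLinearMap) = coef u Q := by
  rw [coef, coef, ← av_surj (push e.toLinearMap) (push e.toLinearMap).map_add
    (push_surj e.surjective) fun M => u M * chi Q M]
  exact av_congr fun M => by rw [res_apply, zero_add, chi_push]

/-- forms on `V` and on `U` correspond under an isomorphism -/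
def rsEquiv (e : U ≃ₗ[F] V) : QF V ≃ QF U where
  toFun Q := Q.comp e.toLinearMap
  invFun Q := Q.comp e.symm.toLinearMap
  left_inv Q := by ext x; simp
  right_inv Q := by ext x; simp

lemma rs_inj {Q : QF V} {Φ : U →ₗ[F] V} (h : ND (Q.comp Φ)) : Function.Injective Φ :=
  (injective_iff_map_eq_zero _).2 fun y hy => h y fun x => by
    rw [polar_comp', hy, QuadraticMap.polar_zero_right]

lemma rs_prob {J : ℕ} {Q : QF V} (h : Top J Q) :
    1 / (Nat.card (Fin J → Fk J) : ℝ) ≤ av fun y : Fin J → V => ind (ND (Q.comp (lin y))) := by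
  obtain ⟨π, q, h1, h2, rfl⟩ := top_iff.1 h
  have h3 := av_surj (fun (y : Fin J → V) i => π (y i)) (fun a b => funext fun i => π.map_add _ _)
    (fun w => by choose y hy using fun i => h1 (w i); exact ⟨y, funext hy⟩)
    fun w => ind (w = fun i => Pi.single i 1) * 1
  rw [av_ind_eq] at h3
  rw [← h3]
  refine av_mono fun y => ?_
  rw [mul_one]
  refine ind_mono fun hy => ?_
  have : π.comp (lin y) = LinearMap.id := by
    rw [comp_lin, hy]; exact lin_eq LinearMap.id
  rw [comp_comp', this]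
  exact h2

lemma rs_pigeon {J : ℕ} {u : G V → ℝ} (hu : Spec (Top J) u) {m : ℝ} (hm : 0 < m)
    (h : m ≤ av fun M => u M ^ 2) :
    ∃ (Φ : Hom J V) (q : QF (Fk J)), ND q ∧ Function.Injective Φ ∧
      m / (Nat.card (Fin J → Fk J) * Nat.card (QF (Fk J))) ≤
        sm fun Q => (ind (Q.comp Φ = q) * coef u Q) ^ 2 := by
  have c1 := card_pos' (α := Fin J → Fk J)
  have c2 := card_pos' (α := QF (Fk J))
  obtain ⟨y, hy⟩ := exists_av_le fun y : Fin J → V =>
    sm fun Q => ind (ND (Q.comp (lin y))) * coef u Q ^ 2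
  obtain ⟨q, hq⟩ := exists_av_le fun q : QF (Fk J) =>
    sm fun Q => ind (Q.comp (lin y) = q) * (ind (ND (Q.comp (lin y))) * coef u Q ^ 2)
  rw [av_def, ← sm_fiber fun Q : QF V => Q.comp (lin y)] at hq
  have h1 : m / Nat.card (Fin J → Fk J) ≤
      sm fun Q => ind (ND (Q.comp (lin y))) * coef u Q ^ 2 := by
    refine le_trans ?_ hy
    rw [av_sm_comm]
    refine (div_le_div_of_nonneg_right (h.trans (parseval_sq u).ge) c1.le).trans ?_
    rw [← sm_div]
    refine sm_mono fun Q => ?_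
    rw [av_mul_right]
    by_cases h0 : coef u Q = 0
    · simp [h0]
    · rw [div_eq_mul_one_div, mul_comm]
      exact mul_le_mul_of_nonneg_right (rs_prob (hu Q h0)) (sq_nonneg _)
  have h2 : m / (Nat.card (Fin J → Fk J) * Nat.card (QF (Fk J))) ≤
      sm fun Q => ind (Q.comp (lin y) = q) * (ind (ND (Q.comp (lin y))) * coef u Q ^ 2) := by
    rw [← div_div]
    exact (div_le_div_of_nonneg_right h1 c2.le).trans hq
  have h3 : ∃ Q : QF V, Q.comp (lin y) = q ∧ ND (Q.comp (lin y)) := by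
    by_contra hc
    have : (sm fun Q : QF V =>
        ind (Q.comp (lin y) = q) * (ind (ND (Q.comp (lin y))) * coef u Q ^ 2)) = 0 := by
      rw [← sm_zero (α := QF V)]
      exact sm_congr fun Q => by rw [← mul_assoc, ← ind_and, ind_neg fun hh => hc ⟨Q, hh⟩, zero_mul]
    rw [this] at h2
    exact absurd h2 (not_le.2 (by positivity))
  obtain ⟨Q0, e0, n0⟩ := h3
  refine ⟨lin y, q, e0 ▸ n0, rs_inj n0, h2.trans (sm_mono fun Q => ?_)⟩
  rw [mul_pow, ind_sq]
  exact mul_le_mul_of_nonneg_left (mul_le_of_le_one_left (sq_nonneg _) (ind_le_one _))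
    (ind_nonneg _)

lemma rs_iso {J : ℕ} {Φ : Hom J V} (h : Function.Injective Φ) :
    ∃ e : (Fk (finrank F V - J) × Fk J) ≃ₗ[F] V, e.toLinearMap.comp (LinearMap.inr F _ _) = Φ := by
  obtain ⟨W, hW⟩ := (LinearMap.range Φ).exists_isCompl
  have h1 := Submodule.finrank_add_eq_of_isCompl hW
  rw [LinearMap.finrank_range_of_inj h, finrank_Fk] at h1
  have e1 : Fk (finrank F V - J) ≃ₗ[F] W :=
    LinearEquiv.ofFinrankEq _ _ (by rw [finrank_Fk]; omega)
  refine ⟨(e1.prodCongr (LinearEquiv.ofInjective Φ h)).trans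
    (Submodule.prodEquivOfIsCompl W _ hW.symm), ?_⟩
  ext x; simp

lemma rs_tame (hLP : LP) (J : ℕ) (D : ℕ → ℝ) : ∃ D' : ℕ → ℝ,
    ∀ (V : Type) [AddCommGroup V] [Module F V] [Finite V] (h : G V → ℝ), Tame D h →
      Tame D' (proj (Top J) h) := by
  choose C hC0 hC using hLP J
  exact ⟨fun p => C p * (1 + D (2 * p)), fun V _ _ _ h hh p =>
    (hC p V h).trans (mul_le_mul_of_nonneg_left (by linarith [hh (2 * p)]) (hC0 p))⟩

omit [Finite V] in
lemma Gain.rsMono {J k : ℕ} {u : G V → ℝ} {η c c' : ℝ} (h : Gain J u k η c) (hc : c' ≤ c) :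
    Gain J u k η c' := by
  obtain ⟨A, h1, h2⟩ := h; exact ⟨A, h1, hc.trans h2⟩

theorem rstep_of (hLP : LP) (hG : GG) (J : ℕ) (hJ : 1 ≤ J) (hPR : PR J) (hPA : PA J) (hU : U3 J) :
    RSTEP J := by
  intro D m hm
  obtain ⟨D', hD'⟩ := rs_tame hLP J D
  have c1 := card_pos' (α := Fin J → Fk J)
  have c2 := card_pos' (α := QF (Fk J))
  obtain ⟨cG, hcG, hG⟩ := hG D' (m / (Nat.card (Fin J → Fk J) * Nat.card (QF (Fk J))))
    (by positivity)
  refine ⟨cG, hcG, fun k η hη => ?_⟩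
  obtain ⟨ηS, hS, n1, hG⟩ := hG J k η hη
  obtain ⟨a1, ha1, hPR⟩ := hPR D' ηS hS
  obtain ⟨a2, ha2, hPA⟩ := hPA D' ηS hS
  obtain ⟨a3, ha3, hU⟩ := hU D' ηS hS
  refine ⟨min a1 (min a2 a3), lt_min ha1 (lt_min ha2 ha3), fun k' η' hη' => ?_⟩
  obtain ⟨n2, hPR⟩ := hPR k' η' hη'
  obtain ⟨n3, hPA⟩ := hPA k' η' hη'
  obtain ⟨n4, hU⟩ := hU k' η' hη'
  refine ⟨n1 + n2 + n3 + n4 + J, fun V _ _ _ hV h hs ht hmh => ?_⟩
  have hu : Spec (Top J) (proj (Top J) h) := spec_proj _ _
  obtain ⟨Φ, q, hq, hΦ, hE⟩ := rs_pigeon hu hm (hmh.trans (en_eq _ _).le)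
  obtain ⟨e, he⟩ := rs_iso hΦ
  set u := res (proj (Top J) h) 0 e.toLinearMap with hudef
  have su : Spec (Top J) u := hu.res 0 _ fun Q hQ => top_comp_of_surj hQ e.surjective
  have su' : Spec (Top (finrank F (Fk J))) u := by rwa [finrank_Fk]
  have tu : Tame D' u := by
    have := (hD' V h ht).comp (push e.toLinearMap) (push e.toLinearMap).map_add
      (push_surj e.surjective)
    refine this.mono fun M => ?_
    rw [hudef, res_apply, zero_add]
  have st : Setup J D' q u := ⟨finrank_Fk J, hJ, hq, tu, tame_fld hq su' tu, su⟩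
  have hE' : m / (Nat.card (Fin J → Fk J) * Nat.card (QF (Fk J))) ≤ sm fun Z => cf q u Z ^ 2 := by
    rw [← fld_sq hq, ← parseval_sq, ← sm_equiv (rsEquiv e)]
    refine hE.trans (le_of_eq (sm_congr fun Q => ?_))
    rw [coef_fld hq su', ← he]
    exact congrArg (fun t => (ind _ * t) ^ 2) (rs_coef e _ Q).symm
  by_cases b1 : ∀ S : Submodule F (Fk J), S ≠ ⊥ → S ≠ ⊤ → box (fld q (cf q u)) S (perp q S) ≤ ηS
  · by_cases b2 : box3 (fld q (cf q u)) ≤ ηS
    · exact Or.inl (Gain.drop hs (rs_gain e (hG _ (by omega) _ q u st hE' b1 b2)))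
    · exact Or.inr (Gain.drop hs ((rs_gain e (hU _ (by omega) _ q u st (not_le.1 b2).le)).rsMono
        ((min_le_right _ _).trans (min_le_right _ _))))
  · push Not at b1
    obtain ⟨S, s1, s2, s3⟩ := b1
    by_cases b3 : S ⊓ perp q S = ⊥
    · exact Or.inr (Gain.drop hs ((rs_gain e (hPR _ (by omega) _ q u st S s1 s2 b3 s3.le)).rsMono
        (min_le_left _ _)))
    · exact Or.inr (Gain.drop hs ((rs_gain e (hPA _ (by omega) _ q u st S b3 s3.le)).rsMono
        ((min_le_right _ _).trans (min_le_left _ _))))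

end SD
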