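import Pool.Agent.Lib.MP_ecee09_co.SD.TopA
import Pool.Agent.Lib.MP_ecee09_co.SD.Stmts

/-! The main theorem follows from `FULL`. -/

namespace SD

open Module

set_option linter.unusedSectionVars false

section fam
variable {X C Λ : Type} [Add X] {a : Λ → C → X} (A : Fam a)

lemma top_E_le {f g : X → Λ → ℝ} (h : ∀ x l, f x l ≤ g x l) : A.E f ≤ A.E g := by
  have h1 := A.add f fun x l => g x l - f x l
  have h2 := A.pos (fun x l => g x l - f x l) fun x l => sub_nonneg.2 (h x l)
  simp only [add_sub_cancel] at h1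
  exact (le_add_of_nonneg_right h2).trans h1.ge

lemma top_E_sum {ι : Type} (s : Finset ι) (f : ι → X → Λ → ℝ) :
    A.E (fun x l => ∑ i ∈ s, f i x l) = ∑ i ∈ s, A.E (f i) := by
  classical
  induction s using Finset.induction_on with
  | empty => simpa using A.smul 0 fun _ _ => 0
  | insert i s hi ih => simp only [Finset.sum_insert hi, A.add, ih]

lemma top_E_const [Finite X] [Nonempty X] [Finite C] [Nonempty C] (c : ℝ) :
    A.E (fun _ _ => c) = c := by
  simpa only [av_const] using A.marg fun _ => c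

lemma top_E_sq [Finite X] [Nonempty X] [Finite C] [Nonempty C] (g : X → ℝ) :
    av g ^ 2 ≤ A.E fun x l => (av fun B => g (x + a l B)) ^ 2 := by
  have h := top_E_le A (f := fun x l => 2 * av g * (av fun B => g (x + a l B)) + -av g ^ 2)
    (g := fun x l => (av fun B => g (x + a l B)) ^ 2) fun x l => by
      nlinarith [sq_nonneg ((av fun B => g (x + a l B)) - av g)]
  rw [A.add, A.smul, A.marg, top_E_const] at h
  linarith

end fam

variable {V : Type} [AddCommGroup V] [Module F V] [Finite V] {k : ℕ}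

/-- the energy that is not of rank below `J` -/
noncomputable def topHi (J : ℕ) (f : G V → ℝ) : ℝ := en (fun Q => ¬ Low J Q) f

lemma top_mono (A : GFam k V) (J : ℕ) (f : G V → ℝ) :
    A.E (fun x Φ => topHi J (res f x Φ)) ≤ topHi J f :=
  (top_E_le A fun x Φ => top_best _ ((spec_proj (Low J) f).res x Φ (top_low_pull Φ))).trans
    ((A.marg fun M => (f M - proj (Low J) f M) ^ 2).trans (top_sq_sub _ _)).le

lemma top_drop (A : GFam k V) (J : ℕ) {f : G V → ℝ} (hf : av (fun M => f M ^ 2) ≤ 1) {s η : ℝ}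
    (hs : 0 < s) (hA : A.E (fun x Φ => en (Top J) (res (proj (Top J) f) x Φ)) ≤ η) :
    A.E (fun x Φ => topHi J (res f x Φ)) ≤ topHi J f - en (Top J) f + s + (1 + 1 / s) * η := by
  set u := proj (Top J) f with hu
  have e : av (fun M => (f M - proj (Low J) f M - u M) ^ 2) = topHi J f - en (Top J) f := by
    rw [← parseval_sq, topHi, en, en, ← sm_sub]
    refine sm_congr fun Q => ?_
    rw [coef_sub, coef_sub, hu, coef_proj, coef_proj]
    by_cases c : Low J Q
    · rw [ind_pos c, ind_neg (not_not.2 c), ind_neg fun t : Top J Q => c.ne t.1]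
      ring
    · rw [ind_neg c, ind_pos c]
      by_cases c' : Top J Q
      · rw [ind_pos c']
        ring
      · rw [ind_neg c']
        ring
  have h1 := top_E_le A (f := fun x Φ => topHi J (res f x Φ)) (g := fun x Φ =>
    (1 + s) * (av fun B => (fun M => (f M - proj (Low J) f M - u M) ^ 2) (x + push Φ B)) +
      (1 + 1 / s) * en (Top J) (res u x Φ)) fun x Φ => by
    have s1 : Spec (CJ J) (res u x Φ) := (spec_proj (Top J) f).res x Φ (top_cj_pull Φ)
    have s2 : Spec (Low J) fun B => res u x Φ B - proj (Top J) (res u x Φ) B := fun Q q => by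
      rw [coef_sub, coef_proj] at q
      refine (s1 Q fun t => q (by rw [t, mul_zero, sub_zero])).resolve_right fun t => q ?_
      rw [ind_pos t, one_mul, sub_self]
    refine (top_best _ (((spec_proj (Low J) f).res x Φ (top_low_pull Φ)).add s2)).trans ?_
    rw [en_eq, ← av_mul_left, ← av_mul_left, ← av_add]
    refine av_mono fun B => ?_
    simp only [res_apply]
    generalize proj (Top J) (res u x Φ) B = b
    have q : f (x + push Φ B) - (proj (Low J) f (x + push Φ B) + (u (x + push Φ B) - b)) =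
      f (x + push Φ B) - proj (Low J) f (x + push Φ B) - u (x + push Φ B) + b := by ring
    rw [q]
    generalize f (x + push Φ B) - proj (Low J) f (x + push Φ B) - u (x + push Φ B) = c
    have q2 : (1 + s) * c ^ 2 + (1 + 1 / s) * b ^ 2 - (c + b) ^ 2 = (s * c - b) ^ 2 / s := by
      field_simp
      ring
    rw [← sub_nonneg, q2]
    positivity
  rw [A.add, A.smul, A.smul, (A.marg fun M => (f M - proj (Low J) f M - u M) ^ 2).trans e] at h1
  have h2 : topHi J f - en (Top J) f ≤ 1 :=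
    (sub_le_self _ (en_nonneg _ _)).trans ((en_le _ _).trans hf)
  have h3 := mul_le_mul_of_nonneg_left hA (show 0 ≤ 1 + 1 / s by positivity)
  nlinarith

/-- sets without the configuration -/
def TopInd (A : Set (G V)) : Prop := ∀ M ∈ A, ∀ x : V, M + ev x ∈ A → x = 0

lemma top_ind_sq (A : Set (G V)) : av (fun M => ind (M ∈ A) ^ 2) ≤ 1 := by
  simp only [ind_sq]
  exact av_ind_le_one _

lemma top_direct {A : Set (G V)} (hA : TopInd A) {J0 : ℕ} {m ε : ℝ} (hε : 0 ≤ ε)
    (h1 : (1 / 2) ^ J0 ≤ ε) (h2 : (1 / 2) ^ J0 ≤ ε ^ 2) (hV : J0 ≤ finrank F V)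
    (h : ∀ J ∈ Finset.Icc 1 J0, en (Top J) (fun M => ind (M ∈ A)) ≤ m) :
    av (fun M => ind (M ∈ A)) ^ 2 ≤ 2 * ε + J0 * m := by
  set f : G V → ℝ := fun M => ind (M ∈ A) with hf
  have a1 : av (fun x : V => av fun M => f M * f (M + ev x)) ≤ ε := by
    refine (av_mono (g := fun x : V => ind (x = 0) * 1) fun x => av_le_const fun M => ?_).trans ?_
    · rw [mul_one, hf, ← ind_and]
      exact ind_mono fun t => hA M t.1 x t.2
    · rw [av_ind_eq (0 : V) fun _ => 1, card_eq_pow]
      push_cast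
      rw [← one_div_pow]
      exact (pow_le_pow_of_le_one (by norm_num) (by norm_num) hV).trans h1
  have a2 : ∀ Q : QF V, ind (Q = 0) - ∑ J ∈ Finset.Icc 1 J0, ind (Top J Q) - ε ≤
      av fun x => sg (Q x) := fun Q => by
    have p : 0 ≤ ∑ J ∈ Finset.Icc 1 J0, ind (Top J Q) :=
      Finset.sum_nonneg fun _ _ => ind_nonneg _
    by_cases q0 : Q = 0
    · simp only [q0, zero_apply, sg_zero, av_const] at p ⊢
      linarith [ind_le_one True]
    rw [ind_neg q0]
    by_cases c : Clean Q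
    · have l := top_lam_le c
      by_cases r : rank Q ≤ J0
      · have p1 := Finset.single_le_sum (f := fun J => ind (Top J Q)) (fun _ _ => ind_nonneg _)
          (Finset.mem_Icc.2 ⟨Nat.pos_of_ne_zero fun t => q0 (top_rank_zero t), r⟩)
        rw [ind_pos (show Top (rank Q) Q from ⟨rfl, c⟩)] at p1
        have := (abs_le_of_sq_le_sq' (l.trans (show _ ≤ (1 : ℝ) ^ 2 by
          rw [one_pow]; exact pow_le_one₀ (by norm_num) (by norm_num))) zero_le_one).1
        linarith
      · have := (abs_le_of_sq_le_sq' (l.trans ((pow_le_pow_of_le_one (by norm_num) (by norm_num)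
          (not_le.1 r).le).trans h2)) hε).1
        linarith
    · rw [top_lam_zero c]
      linarith
  have a3 := sm_mono fun Q : QF V => mul_le_mul_of_nonneg_left (a2 Q) (sq_nonneg (coef f Q))
  rw [← top_tee] at a3
  simp only [mul_sub, Finset.mul_sum, sm_sub, sm_sum, sm_mul_right, mul_comm (coef f _ ^ 2) (ind _),
    sm_ind_eq (0 : QF V) fun Q => coef f Q ^ 2, parseval_sq] at a3
  have a4 : coef f 0 = av f := av_congr fun M => by rw [chi, map_zero, sg_zero, mul_one]
  have a5 : ∑ J ∈ Finset.Icc 1 J0, en (Top J) f ≤ J0 * m := by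
    simpa using Finset.sum_le_card_nsmul _ _ _ h
  have a6 := mul_le_mul_of_nonneg_right (top_ind_sq A) hε
  rw [a4] at a3
  simp only [en] at a5
  linarith

lemma top_step (hLP : LP) (h : ∀ J, 1 ≤ J → FULL J) (J0 k : ℕ) {m η : ℝ} (hm : 0 < m) (hη : 0 < η) :
    ∃ n0 : ℕ, ∀ (V : Type) [AddCommGroup V] [Module F V] [Finite V], n0 ≤ finrank F V →
      ∀ f : G V → ℝ, (∀ M, |f M| ≤ 1) → (∃ J ∈ Finset.Icc 1 J0, m ≤ en (Top J) f) →
        ∃ A : GFam k V, A.junk ≤ η ∧
          A.E (fun x Φ => ∑ J ∈ Finset.Icc 1 J0, topHi J (res f x Φ)) ≤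
            ∑ J ∈ Finset.Icc 1 J0, topHi J f - m / 2 := by
  choose C C0 hC using hLP
  have p : 0 < min η (m / 4 / (1 + 1 / (m / 4))) := lt_min hη (by positivity)
  choose! n hn using fun J hJ => h J hJ (fun p => C J p * 2) k _ p
  refine ⟨(Finset.Icc 1 J0).sup n, fun V _ _ _ hV f hf ⟨J, hJ, hJ'⟩ => ?_⟩
  obtain ⟨A, a1, a2⟩ := hn J (Finset.mem_Icc.1 hJ).1 V ((Finset.le_sup hJ).trans hV)
    (proj (Top J) f) ((spec_proj _ _).mono fun _ => .inr) fun p => (hC J p V f).trans
      (mul_le_mul_of_nonneg_left (by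
        linarith [av_le_const fun M => pow_le_one₀ (n := 2 * p) (abs_nonneg _) (hf M)]) (C0 J p))
  refine ⟨A, a1.trans (min_le_left _ _), ?_⟩
  have b1 := top_drop A J (av_le_const fun M => (sq_le_one_iff_abs_le_one _).2 (hf M))
    (show 0 < m / 4 by positivity) (a2.trans (min_le_right _ _))
  rw [mul_div_cancel₀ _ (by positivity)] at b1
  have b2 := Finset.single_le_sum (f := fun J => topHi J f - A.E fun x Φ => topHi J (res f x Φ))
    (fun J _ => sub_nonneg.2 (top_mono A J f)) hJ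
  rw [Finset.sum_sub_distrib] at b2
  rw [top_E_sum A _ fun J x Φ => topHi J (res f x Φ)]
  linarith

lemma top_claim (hLP : LP) (h : ∀ J, 1 ≤ J → FULL J) {J0 : ℕ} {m ε η b : ℝ} (hm : 0 < m)
    (hε : 0 ≤ ε) (hη : 0 < η) (hb : 0 ≤ b) (h1 : (1 / 2) ^ J0 ≤ ε) (h2 : (1 / 2) ^ J0 ≤ ε ^ 2)
    (t : ℕ) (ht : t * (b * (m / 2)) ≤ 1) :
    ∃ n0 : ℕ, ∀ (V : Type) [AddCommGroup V] [Module F V] [Finite V], n0 ≤ finrank F V →
      ∀ A : Set (G V), TopInd A → av (fun M => ind (M ∈ A)) ^ 2 ≤ 2 * ε + J0 * m + t * η +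
        (1 - t * (b * (m / 2))) + b * ∑ J ∈ Finset.Icc 1 J0, topHi J fun M => ind (M ∈ A) := by
  have p0 : ∀ (V : Type) [AddCommGroup V] [Module F V] [Finite V] (f : G V → ℝ),
      0 ≤ b * ∑ J ∈ Finset.Icc 1 J0, topHi J f := fun V _ _ _ f =>
    mul_nonneg hb (Finset.sum_nonneg fun _ _ => en_nonneg _ _)
  have p1 : ∀ (V : Type) [AddCommGroup V] [Module F V] [Finite V] (A : Set (G V)),
      av (fun M => ind (M ∈ A)) ^ 2 ≤ 1 := fun V _ _ _ A => (av_sq_le _).trans (top_ind_sq A)
  have p2 : 0 ≤ J0 * m := by positivity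
  induction t with
  | zero =>
    refine ⟨0, fun V _ _ _ _ A _ => ?_⟩
    have := p0 V fun M => ind (M ∈ A)
    have := p1 V A
    push_cast
    linarith
  | succ t ih =>
    have p3 : 0 ≤ b * (m / 2) := by positivity
    have p4 : 0 ≤ t * η := by positivity
    push_cast at ht ⊢
    obtain ⟨k, hk⟩ := ih (by linarith)
    obtain ⟨n, hn⟩ := top_step hLP h J0 k hm hη
    refine ⟨n + J0, fun V _ _ _ hV A hA => ?_⟩
    by_cases c : ∃ J ∈ Finset.Icc 1 J0, m ≤ en (Top J) fun M => ind (M ∈ A)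
    · obtain ⟨B, b1, b2⟩ := hn V (by omega) _ (fun M => (abs_ind _).trans_le (ind_le_one _)) c
      have b3 := (top_E_sq B fun M => ind (M ∈ A)).trans (top_E_le B (g := fun x Φ =>
        ind (¬ Function.Injective Φ) + ((2 * ε + J0 * m + t * η + (1 - t * (b * (m / 2)))) +
          b * ∑ J ∈ Finset.Icc 1 J0, topHi J (res (fun M => ind (M ∈ A)) x Φ))) fun x Φ => ?_)
      · rw [B.add, B.add, B.smul, top_E_const] at b3
        have b4 := mul_le_mul_of_nonneg_left b2 hb
        rw [Fam.junk] at b1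
        linarith
      by_cases i : Function.Injective Φ
      · rw [ind_neg (not_not.2 i), zero_add]
        refine hk (Fk k) (finrank_Fk k).ge {M | x + push Φ M ∈ A} fun M hM y hy => i ?_
        rw [Set.mem_ofPred_eq, map_add, push_ev, ← add_assoc] at hy
        rw [hA _ hM _ hy, map_zero]
      · have := p0 (Fk k) (res (fun M => ind (M ∈ A)) x Φ)
        have q : av (fun M => ind (x + push Φ M ∈ A)) ^ 2 ≤ 1 := p1 (Fk k) {M | x + push Φ M ∈ A}
        rw [ind_pos i]
        linarith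
    · push Not at c
      have := top_direct hA hε h1 h2 (by omega) fun J hJ => (c J hJ).le
      have := p0 V fun M => ind (M ∈ A)
      linarith

theorem main_of (hLP : LP) (h : ∀ J, 1 ≤ J → FULL J) : MAIN := by
  intro δ hδ
  have hε : 0 < δ ^ 2 / 8 := by positivity
  generalize e : δ ^ 2 / 8 = ε at hε
  obtain ⟨J0, hJ⟩ := exists_pow_lt_of_lt_one (lt_min hε (pow_pos hε 2)) (one_half_lt_one (α := ℝ))
  have hm : 0 < ε / (J0 + 1) := by positivity
  have h3 : J0 * (ε / (J0 + 1)) ≤ ε := by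
    rw [mul_div_assoc', div_le_iff₀ (by positivity)]
    linarith
  generalize ε / (J0 + 1) = m at hm h3
  obtain ⟨N, hN⟩ := exists_nat_gt (J0 / (ε * (m / 2)))
  have N0 : (0 : ℝ) < N := lt_of_le_of_lt (by positivity) hN
  have e1 : N * (1 / (N * (m / 2)) * (m / 2)) = 1 := by field_simp
  obtain ⟨n, hn⟩ := top_claim hLP h (b := 1 / (N * (m / 2))) hm hε.le (div_pos hε N0)
    (by positivity) (hJ.le.trans (min_le_left _ _)) (hJ.le.trans (min_le_right _ _)) N e1.le
  refine ⟨n, fun V _ _ _ hV A hA => ?_⟩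
  by_contra c
  have k := hn V hV A fun M hM x hx => by_contra fun t => c ⟨M, hM, x, t, hx⟩
  have k1 : ∑ J ∈ Finset.Icc 1 J0, topHi J (fun M => ind (M ∈ A)) ≤ J0 := by
    simpa using Finset.sum_le_card_nsmul (Finset.Icc 1 J0) (fun J => topHi J fun M => ind (M ∈ A))
      1 fun J _ => (en_le _ _).trans (top_ind_sq A)
  have k2 : 1 / (N * (m / 2)) * J0 ≤ ε := by
    rw [div_lt_iff₀ (by positivity)] at hN
    rw [div_mul_eq_mul_div, div_le_iff₀ (by positivity)]
    linarith
  have k3 := mul_le_mul_of_nonneg_left k1 (show 0 ≤ 1 / (N * (m / 2)) by positivity)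
  have k4 := pow_le_pow_left₀ hδ.le hA 2
  rw [e1, mul_div_cancel₀ _ N0.ne'] at k
  linarith

end SD
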