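import Pool.Agent.Lib.MP_ecee09_co.SD.U3c

/-! Section 6: the structured case with large `box3`. -/

namespace SD

open Module

variable {n k J : ℕ} {E : Type} [AddCommGroup E] [Module F E] [Finite E]

/-- a maximiser, chosen as a function of the values only -/
noncomputable def u3pick {T : Type} [Finite T] [Nonempty T] (g : T → ℝ) : T :=
  Classical.choose (Finite.exists_max g)

lemma u3pick_spec {T : Type} [Finite T] [Nonempty T] (g : T → ℝ) (t : T) : g t ≤ g (u3pick g) :=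
  Classical.choose_spec (Finite.exists_max g) t

lemma u3_iota (hJ : finrank F E = J) (w : Fin (k + J) → E) :
    ∃ ι : Hom k (Fk (k + J)), Function.Injective ι ∧ (lin w).comp ι = 0 := by
  have h1 := (lin w).finrank_range_add_finrank_ker
  have h2 := Submodule.finrank_le (LinearMap.range (lin w))
  rw [finrank_Fk] at h1
  obtain ⟨Ψ, hΨ⟩ := exists_inj (X := LinearMap.ker (lin w)) (k := k) (by omega)
  refine ⟨(LinearMap.ker (lin w)).subtype.comp Ψ, Subtype.val_injective.comp hΨ, ?_⟩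
  exact LinearMap.ext fun x => (Ψ x).2

/-- the heaviest class -/
noncomputable def u3ws {m : ℕ} (q : QF E) (K : G (Fk n × E) → ℝ) (Φ : Hom m (Fk n))
    (M : G (Fk n × E)) : Fin m → E := u3pick fun w => u3S q K Φ w M ^ 2

lemma u3ws_shift {m : ℕ} {q : QF E} (h : ND q) (c : (Fin n → E) → ℝ) (Φ : Hom m (Fk n))
    (M : G (Fk n × E)) (t : Fin m → E) (a : G E) :
    u3ws q (fld q c) Φ (M + (tau (star (u3y Φ) t) + push (LinearMap.inr F (Fk n) E) a)) =
      u3ws q (fld q c) Φ M := by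
  unfold u3ws
  congr 1
  funext w
  rw [← add_assoc, u3S_inr, u3S_tau h, mul_pow, mul_pow, chi_sq, sg_sq, mul_one, mul_one]

lemma u3_cross {m : ℕ} {D : ℕ → ℝ} {q : QF E} {u : G (Fk n × E) → ℝ} (S : Setup J D q u)
    (Φ : Hom m (Fk n)) (w : Fin m → E) (M : G (Fk n × E)) :
    (av fun t : Fin m → E => av fun a : G E =>
      u (M + (tau (star (u3y Φ) t) + push (LinearMap.inr F (Fk n) E) a)) *
        u3S q (fld q (cf q u)) Φ w
          (M + (tau (star (u3y Φ) t) + push (LinearMap.inr F (Fk n) E) a))) =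
      u3S q (fld q (cf q u)) Φ w M ^ 2 := by
  have hK := fld_eq_avg S.nd (u := u) (by rw [S.dim]; exact S.su)
  have e : ∀ t : Fin m → E, (av fun a : G E =>
      u (M + (tau (star (u3y Φ) t) + push (LinearMap.inr F (Fk n) E) a)) *
        u3S q (fld q (cf q u)) Φ w
          (M + (tau (star (u3y Φ) t) + push (LinearMap.inr F (Fk n) E) a))) =
      u3S q (fld q (cf q u)) Φ w M *
        (fld q (cf q u) (M + tau (star (u3y Φ) t)) * sg (brk q t w)) := by
    intro t
    rw [congrFun hK (M + tau (star (u3y Φ) t)), ← av_mul_right, ← av_mul_left]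
    refine av_congr fun a => ?_
    rw [← add_assoc, u3S_inr, u3S_tau S.nd]; ring
  simp only [e]
  rw [av_mul_left, sq]; rfl

lemma u3Psi_le {m : ℕ} (q : QF E) (K : G (Fk n × E) → ℝ) (Φ : Hom m (Fk n)) (M : G (Fk n × E))
    {L : ℝ} (hL : 0 < L) : u3Psi q K Φ M ≤ L * u3S q K Φ (u3ws q K Φ M) M ^ 2 +
      (sm fun w => u3S q K Φ w M ^ 2) ^ 3 / L := by
  set s := u3S q K Φ (u3ws q K Φ M) M ^ 2 with hs
  set σ := sm fun w => u3S q K Φ w M ^ 2 with hσ
  have s0 : 0 ≤ s := sq_nonneg _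
  have h1 : s ≤ σ := single_le_sm (f := fun w => u3S q K Φ w M ^ 2) (fun _ => sq_nonneg _) _
  have h2 : u3Psi q K Φ M ≤ s * σ := by
    rw [hσ, ← sm_mul_left]
    refine sm_mono fun w => ?_
    have := u3pick_spec (fun w => u3S q K Φ w M ^ 2) w
    calc u3S q K Φ w M ^ 4 = u3S q K Φ w M ^ 2 * u3S q K Φ w M ^ 2 := by ring
      _ ≤ s * u3S q K Φ w M ^ 2 := mul_le_mul_of_nonneg_right this (sq_nonneg _)
  have σ0 : 0 ≤ σ := s0.trans h1
  refine h2.trans ?_
  rcases le_total σ L with h | h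
  · have : 0 ≤ σ ^ 3 / L := by positivity
    nlinarith
  · have h3 : s * σ ≤ σ ^ 3 / L := by
      rw [le_div_iff₀ hL]
      calc s * σ * L ≤ σ * σ * σ := by gcongr
        _ = _ := by ring
    have : 0 ≤ L * s := by positivity
    linarith

/-- families of large cells in the first factor -/
abbrev U3Fam (m n : ℕ) (E : Type) [AddCommGroup E] [Module F E] : Type :=
  Fam (fun (Φ : Hom m (Fk n)) (B : G (Fk m)) => push ((LinearMap.inl F (Fk n) E).comp Φ) B)

/-- the base point is uniform in the fibres of the projection to the first factor -/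
def U3Inv {m : ℕ} (A : U3Fam m n E) : Prop :=
  ∀ (g : G (Fk n × E) → Hom m (Fk n) → ℝ) (z : Hom m (Fk n) → G (Fk n × E)),
    (∀ Φ, push (LinearMap.fst F (Fk n) E) (z Φ) = 0) → (A.E fun M Φ => g (M + z Φ) Φ) = A.E g

omit [Finite E] in
lemma U3Inv.avg {m : ℕ} {A : U3Fam m n E} (h : U3Inv A) {O : Type} [Finite O] [Nonempty O]
    (g : G (Fk n × E) → Hom m (Fk n) → ℝ) (z : O → Hom m (Fk n) → G (Fk n × E))
    (hz : ∀ o Φ, push (LinearMap.fst F (Fk n) E) (z o Φ) = 0) :
    (A.E fun M Φ => av fun o => g (M + z o Φ) Φ) = A.E g := by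
  rw [A.av fun o M Φ => g (M + z o Φ) Φ]
  simp only [fun o => h g (z o) (hz o)]
  exact av_const _

lemma u3_sigma {m : ℕ} {q : QF E} (h : ND q) (c : (Fin n → E) → ℝ) {A : U3Fam m n E}
    (hA : U3Inv A) :
    (A.E fun M Φ => (sm fun w => u3S q (fld q c) Φ w M ^ 2) ^ 3) ≤ av fun M => |fld q c M| ^ 6 := by
  rw [← A.marg fun M => |fld q c M| ^ 6, ← hA.avg (O := Fin m → E)
    (fun M Φ => av fun B => |fld q c (M + push ((LinearMap.inl F (Fk n) E).comp Φ) B)| ^ 6)
    (fun t Φ => tau (star (u3y Φ) t)) fun _ _ => u3_fst_tau _]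
  refine A.mono fun M Φ => ?_
  rw [av_comm]
  refine const_le_av fun B => ?_
  have e : (sm fun w => u3S q (fld q c) Φ w M ^ 2) = sm fun w =>
      u3S q (fld q c) Φ w (M + push ((LinearMap.inl F (Fk n) E).comp Φ) B) ^ 2 :=
    sm_congr fun w => by rw [u3S_inl h, mul_pow, chi_sq, mul_one]
  rw [e, u3S_sumsq h]
  refine (le_abs_self _).trans ?_
  rw [abs_pow]
  refine (abs_av_pow_le _ 3).trans (le_of_eq (av_congr fun t => ?_))
  rw [abs_pow, ← pow_mul, add_right_comm]

lemma u3_gain {D : ℕ → ℝ} {q : QF E} {u : G (Fk n × E) → ℝ} (S : Setup J D q u)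
    (A : U3Fam (k + J) n E) (hA : U3Inv A) {η γ L : ℝ} (hL : 0 < L)
    (hj : (A.E fun _ Φ => ind (¬ Function.Injective Φ)) ≤ η)
    (hγ : γ ≤ A.E fun M Φ => u3Psi q (fld q (cf q u)) Φ M) :
    Gain J u k η ((γ - D 6 / L) / L) := by
  set K := fld q (cf q u) with hK
  choose ι hι1 hι2 using u3_iota (k := k) S.dim
  obtain ⟨A', hA'⟩ := Fam.refine (a := fun (Φ : Hom k (Fk n × E)) (B : G (Fk k)) => push Φ B) A
    (fun M Φ => ((LinearMap.inl F (Fk n) E).comp Φ).comp (ι (u3ws q K Φ M)))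
    (fun M Φ B => push (ι (u3ws q K Φ M)) B) (fun Φ => (push _).map_add) fun _ _ _ => rfl
  refine ⟨A', ?_, ?_⟩
  · rw [Fam.junk, hA']
    refine le_trans (A.mono fun M Φ => ?_) hj
    rw [av_const]
    exact ind_mono fun h1 h2 => h1 ((LinearMap.inl_injective.comp h2).comp (hι1 _))
  rw [hA']
  have cell : ∀ M Φ, 2 * (av fun B => u (M + push ((LinearMap.inl F (Fk n) E).comp Φ) B) *
      u3S q K Φ (u3ws q K Φ M) (M + push ((LinearMap.inl F (Fk n) E).comp Φ) B)) -
      u3S q K Φ (u3ws q K Φ M) M ^ 2 ≤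
      av fun B => en (Low J) (res u (M + push ((LinearMap.inl F (Fk n) E).comp Φ) B)
        (((LinearMap.inl F (Fk n) E).comp Φ).comp (ι (u3ws q K Φ M)))) := by
    intro M Φ
    set w := u3ws q K Φ M
    set Φ' := (LinearMap.inl F (Fk n) E).comp Φ with hΦ'
    rw [← av_shift (fun B => u (M + push Φ' B) * u3S q K Φ w (M + push Φ' B))
      (fun B : G (Fk k) => push (ι w) B), ← av_const (α := G (Fk (k + J))) (u3S q K Φ w M ^ 2),
      ← av_mul_left, ← av_sub]
    refine av_mono fun B0 => ?_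
    have h1 := en_var (P := Low J) (res u (M + push Φ' B0) (Φ'.comp (ι w)))
      (spec_const (low_zero S.pos) (u3S q K Φ w (M + push Φ' B0)))
    refine le_trans (le_of_eq ?_) h1
    rw [av_const]
    congr 1
    · congr 1
      refine av_congr fun B => ?_
      rw [res_apply, map_add, ← add_assoc, push_comp Φ' (ι w) B, hK, hΦ',
        u3S_inl S.nd _ _ _ _ (push (ι w) B), chi_push, comp_comp', hι2, comp_zero', chi_zero,
        mul_one]
    · rw [hK, hΦ', u3S_inl S.nd, mul_pow, chi_sq, mul_one]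
  have cross : (A.E fun M Φ => av fun B => u (M + push ((LinearMap.inl F (Fk n) E).comp Φ) B) *
      u3S q K Φ (u3ws q K Φ M) (M + push ((LinearMap.inl F (Fk n) E).comp Φ) B)) =
      A.E fun M Φ => u3S q K Φ (u3ws q K Φ M) M ^ 2 := by
    rw [← hA.avg (O := (Fin (k + J) → E) × G E) _
      (fun o Φ => tau (star (u3y Φ) o.1) + push (LinearMap.inr F (Fk n) E) o.2)
      fun _ _ => by rw [map_add, u3_fst_tau, u3_fst_inr, add_zero]]
    refine A.congr' fun M Φ => ?_
    simp only [hK, u3ws_shift S.nd]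
    rw [av_comm, ← av_const (α := G (Fk (k + J))) (u3S q (fld q (cf q u)) Φ _ M ^ 2)]
    refine av_congr fun B => ?_
    have := u3_cross S Φ (u3ws q (fld q (cf q u)) Φ M)
      (M + push ((LinearMap.inl F (Fk n) E).comp Φ) B)
    rw [u3S_inl S.nd, mul_pow, chi_sq, mul_one] at this
    rw [← this, av_prod]
    refine av_congr fun t => av_congr fun a => ?_
    rw [add_right_comm]
  have h1 := A.mono cell
  rw [A.sub, A.smul, cross] at h1
  have h2 := A.mono fun M Φ => u3Psi_le q K Φ M hL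
  rw [A.add, A.smul, A.div] at h2
  have h3 := (u3_sigma S.nd (cf q u) hA).trans (S.tK 6)
  rw [← hK] at h3
  have h4 := div_le_div_of_nonneg_right h3 hL.le
  refine le_trans ?_ (by linarith : (A.E fun M Φ => u3S q K Φ (u3ws q K Φ M) M ^ 2) ≤ _)
  rw [div_le_iff₀ hL]
  linarith

lemma u3_fam {m : ℕ} {q : QF E} (h : ND q) (c : (Fin n → E) → ℝ) (f : Basis (Fin J) F E)
    {th : ℝ} (A : PFam J m (Fk n)) :
    ∃ A' : U3Fam m n E, U3Inv A' ∧ (A'.E fun _ Φ => ind (¬ Function.Injective Φ)) = A.junk ∧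
      th * (A.E fun x Φ => av fun B : Gam J (Fk m) => ind (u3Ev q c f th Φ (x + gpush Φ B))) ≤
        A'.E fun M Φ => u3Psi q (fld q c) Φ M := by
  let A1 : GFam m (Fk n) := ⟨fun g => A.E fun x Φ => g x.1 Φ, fun _ _ => A.add _ _,
    fun _ _ => A.smul _ _, fun _ hg => A.pos _ fun _ _ => hg _ _, fun g => by
      rw [← av_surj (fun x : Gam J (Fk n) => x.1) (fun _ _ => rfl) Prod.fst_surjective g,
        ← A.marg fun x => g x.1]
      refine A.congr' fun x Φ => ?_
      exact (av_surj (fun B : Gam J (Fk m) => B.1) (fun _ _ => rfl) Prod.fst_surjective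
        fun B => g (x.1 + push Φ B)).symm⟩
  have hL := (push (LinearMap.fst F (Fk n) E)).map_add
  have hs : Function.Surjective (push (LinearMap.fst F (Fk n) E)) :=
    push_surj LinearMap.fst_surjective
  obtain ⟨A', hA'⟩ := Fam.lift
    (a := fun (Φ : Hom m (Fk n)) (B : G (Fk m)) => push ((LinearMap.inl F (Fk n) E).comp Φ) B)
    A1 (push (LinearMap.fst F (Fk n) E)) hL id id (fun _ _ => rfl) Function.surjective_id
    fun Φ B => u3_fst_inl Φ B
  refine ⟨A', fun g z hz => ?_, ?_, ?_⟩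
  · rw [hA', hA']
    refine A1.congr' fun y Φ => ?_
    rw [cond_shift _ hL (fun M => g M (id Φ)), id, hz, add_zero]
  · rw [hA']
    exact A.congr' fun x Φ => cond_comp _ hL hs (fun _ => ind (¬ Function.Injective Φ)) x.1
  · rw [hA', ← A.smul]
    refine A.mono fun x Φ => ?_
    rw [av_prod, ← av_mul_left]
    refine av_le_const fun B0 => ?_
    have e1 : cond (push (LinearMap.fst F (Fk n) E)) (fun M => u3Psi q (fld q c) Φ M) x.1 =
        cond (push (LinearMap.fst F (Fk n) E))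
          (fun M => av fun b : Fin n → E => u3Psi q (fld q c) Φ (M + tau b)) (x.1 + push Φ B0) := by
      rw [cond_av _ fun M (b : Fin n → E) => u3Psi q (fld q c) Φ (M + tau b)]
      simp only [cond_shift _ hL (u3Psi q (fld q c) Φ), u3_fst_tau, add_zero]
      rw [av_const, ← u3_fst_inl (E := E) Φ B0, ← cond_shift _ hL]
      simp only [u3Psi_inl h]
    refine le_trans ?_ e1.ge
    refine le_trans (le_of_eq ?_) (cond_mono _ (fun M => u3_key h c f (th := th) Φ M x.2) _)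
    have e2 := cond_comp _ hL hs (fun y => th * av fun t : Fin J → Fk m =>
      ind (u3Ev q c f th Φ (y, x.2 + fun l => Φ (t l)))) (x.1 + push Φ B0)
    have e3 : ∀ t, x + gpush Φ (B0, t) = (x.1 + push Φ B0, x.2 + fun l => Φ (t l)) :=
      fun _ => rfl
    rw [e2]
    simp only [e3]

theorem u3_of (hBF : BF) (hLZ : LZ) (J : ℕ) : U3 J := by
  intro D ηS hηS
  obtain ⟨th, C, lam, hth, hlam, hst⟩ := u3_struct hBF ηS (max (D 2) 1) hηS
    (lt_max_of_lt_right one_pos)
  have hd : (0 : ℝ) < max (D 8) 1 := lt_max_of_lt_right one_pos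
  obtain ⟨c2, hc2⟩ : ∃ c2, c2 = lam ^ 2 * th ^ 2 / max (D 8) 1 := ⟨_, rfl⟩
  have c0 : 0 < c2 := by rw [hc2]; positivity
  obtain ⟨γ, hγ⟩ : ∃ γ, γ = th * (c2 / 2) := ⟨_, rfl⟩
  have γ0 : 0 < γ := by rw [hγ]; positivity
  have h6 : (0 : ℝ) < max (D 6) 1 := lt_max_of_lt_right one_pos
  obtain ⟨L, hL⟩ : ∃ L, L = 2 * max (D 6) 1 / γ := ⟨_, rfl⟩
  have L0 : 0 < L := by rw [hL]; positivity
  refine ⟨γ / 2 / L, by positivity, fun k η hη => ?_⟩
  obtain ⟨n0, hn0⟩ := hLZ J 0 C (k + J) (min η (c2 / 2)) (lt_min hη (by positivity))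
  refine ⟨n0, fun n hn E _ _ _ q u S hbox => ?_⟩
  let f : Basis (Fin J) F E := Module.finBasisOfFinrankEq F E S.dim
  have hN := card_pos' (α := Fin n → E)
  obtain ⟨H0, hH1, hH2⟩ := hst (Fin n → E) (brk q) (cf q u) (u3_prg S.nd)
    (by rw [u3_fld_sq S.nd]; exact S.tK.sq.trans (le_max_left _ _))
    (by rw [← u3_box3 S.nd _ f]; exact mul_le_mul_of_nonneg_right hbox hN.le)
  have hcard : Nat.card (H0.comap (u3e (n := n) f)) = Nat.card H0 :=
    Nat.card_congr (Equiv.subtypeEquiv (Equiv.ofBijective _ (u3e_bij f)) fun _ => Iff.rfl)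
  have hDP : DP (Fk n) J = Nat.card (Fin n → E) := by
    rw [← u3_card f, DP, Nat.card_fun, Nat.card_fun (α := Fin J)]; simp
  obtain ⟨A, hA1, hA2⟩ := hn0 (Fk n) (by rw [finrank_Fk]; exact hn) (H0.comap (u3e f))
    (by rw [hcard, hDP]; exact hH1)
  obtain ⟨A', i1, i2, i3⟩ := u3_fam S.nd (cf q u) f (th := th) A
  have hp := u3_present S.nd (cf q u) f hth.le hlam.le hd
    {x | th ≤ u3p (brk q) (cf q u) x ∧ x ∈ H0} (fun _ hx => hx.1) hH2
    (le_trans (le_of_eq (av_congr fun M => by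
      rw [← abs_pow, abs_of_nonneg (by positivity)])) ((S.tK 8).trans (le_max_left _ _)))
  rw [← hc2, ← A.marg] at hp
  have hsplit := A.mono (f := fun x Φ => av fun B : Gam J (Fk (k + J)) =>
      ind (∃ p, u3e f p ∈ {x | th ≤ u3p (brk q) (cf q u) x ∧ x ∈ H0} ∧
        resid 0 p (x + gpush Φ B) = 0))
    (g := fun x Φ => (av fun B : Gam J (Fk (k + J)) =>
      ind (u3Ev q (cf q u) f th Φ (x + gpush Φ B))) + av fun B : Gam J (Fk (k + J)) =>
      ind (∃ p ∈ H0.comap (u3e f), resid 0 p (x + gpush Φ B) = 0 ∧ ∃ i, (p.1 i).comp Φ ≠ 0))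
    fun x Φ => by
      rw [← av_add]
      refine av_mono fun B => le_trans (ind_mono ?_) (ind_or_le _ _)
      rintro ⟨p, ⟨h1, h2⟩, h3⟩
      by_cases h4 : ∀ i, (p.1 i).comp Φ = 0
      · exact Or.inl ⟨p, h1, h3, h4⟩
      · push Not at h4
        exact Or.inr ⟨p, h2, h3, h4⟩
  rw [A.add] at hsplit
  have hm := min_le_right η (c2 / 2)
  have hγ' : γ ≤ A'.E fun M Φ => u3Psi q (fld q (cf q u)) Φ M := by
    refine le_trans ?_ i3
    rw [hγ]
    exact mul_le_mul_of_nonneg_left (by linarith) hth.le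
  obtain ⟨B, hB1, hB2⟩ := u3_gain S A' i1 L0 (i2.trans_le (hA1.trans (min_le_left _ _))) hγ'
  refine ⟨B, hB1, le_trans ?_ hB2⟩
  refine div_le_div_of_nonneg_right ?_ L0.le
  have : D 6 / L ≤ γ / 2 := by
    rw [div_le_iff₀ L0, hL]
    have : γ / 2 * (2 * max (D 6) 1 / γ) = max (D 6) 1 := by field_simp
    rw [this]; exact le_max_left _ _
  linarith

end SD
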