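import Pool.Agent.Lib.MP_ecee09_co.SD.BF
import Pool.Agent.Lib.MP_ecee09_co.SD.CL
import Pool.Agent.Lib.MP_ecee09_co.SD.Cor
import Pool.Agent.Lib.MP_ecee09_co.SD.GG
import Pool.Agent.Lib.MP_ecee09_co.SD.GT
import Pool.Agent.Lib.MP_ecee09_co.SD.HH
import Pool.Agent.Lib.MP_ecee09_co.SD.LF
import Pool.Agent.Lib.MP_ecee09_co.SD.LG
import Pool.Agent.Lib.MP_ecee09_co.SD.LP
import Pool.Agent.Lib.MP_ecee09_co.SD.LZ
import Pool.Agent.Lib.MP_ecee09_co.SD.Loop
import Pool.Agent.Lib.MP_ecee09_co.SD.MOM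
import Pool.Agent.Lib.MP_ecee09_co.SD.MR
import Pool.Agent.Lib.MP_ecee09_co.SD.PA
import Pool.Agent.Lib.MP_ecee09_co.SD.PR
import Pool.Agent.Lib.MP_ecee09_co.SD.Pure
import Pool.Agent.Lib.MP_ecee09_co.SD.RPl
import Pool.Agent.Lib.MP_ecee09_co.SD.RStep
import Pool.Agent.Lib.MP_ecee09_co.SD.TH
import Pool.Agent.Lib.MP_ecee09_co.SD.Top
import Pool.Agent.Lib.MP_ecee09_co.SD.U3

/-! Assembly of the symmetric-difference square theorem. -/

namespace SD

theorem rp_all (r : ℕ) : 1 ≤ r → RP r := by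
  induction r using Nat.strong_induction_on with
  | _ r ih =>
    intro hr
    exact rp_of th r (pstep_of r (hh_of r fun r' h1 h2 => ih r' h2 h1)
      (lg_of bf (lz_of lf) r hr) (pure_of mr r hr))

theorem full_all (J : ℕ) : 1 ≤ J → FULL J := by
  induction J using Nat.strong_induction_on with
  | _ J ih =>
    intro hJ
    exact full_of th J (rstep_of lp (gg_of (mom_of cl) gt mr) J hJ
      (pr_of lp J fun J1 h1 h2 => ih J1 h2 h1) (pa_of rp_all J) (u3_of bf (lz_of lf) J))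

theorem main : MAIN := main_of lp full_all

end SD
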