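import Pool.Agent.Lib.MP_ecee09_co.SD.Base

/-! Fourier analysis on `G V`, restriction to cells, rank. -/

namespace SD

open Module

variable {U V W : Type} [AddCommGroup U] [Module F U] [AddCommGroup V] [Module F V]
  [AddCommGroup W] [Module F W]

@[simp] lemma ev_apply (x : V) (Q : QF V) : ev x Q = Q x := rfl

@[simp] lemma pull_apply (Φ : U →ₗ[F] V) (Q : QF V) : pull Φ Q = Q.comp Φ := rfl

@[simp] lemma push_apply (Φ : U →ₗ[F] V) (B : G U) (Q : QF V) : push Φ B Q = B (Q.comp Φ) := rfl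

lemma push_ev (Φ : U →ₗ[F] V) (x : U) : push Φ (ev x) = ev (Φ x) := rfl

lemma push_comp (Φ : V →ₗ[F] W) (Ψ : U →ₗ[F] V) (B : G U) :
    push (Φ.comp Ψ) B = push Φ (push Ψ B) := rfl

lemma push_id (B : G V) : push LinearMap.id B = B := rfl

lemma comp_zero' (Q : QF V) : Q.comp (0 : U →ₗ[F] V) = 0 := by ext x; simp

lemma comp_comp' (Q : QF W) (Φ : V →ₗ[F] W) (Ψ : U →ₗ[F] V) :
    (Q.comp Φ).comp Ψ = Q.comp (Φ.comp Ψ) := rfl

lemma add_comp' (Q Q' : QF V) (Φ : U →ₗ[F] V) : (Q + Q').comp Φ = Q.comp Φ + Q'.comp Φ := rfl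

lemma push_zero (B : G U) : push (0 : U →ₗ[F] V) B = 0 := by
  ext Q; simp [comp_zero']

lemma ev_zero : ev (0 : V) = 0 := by ext Q; simp

lemma polar_comp' (Q : QF V) (Φ : U →ₗ[F] V) (x y : U) :
    QuadraticMap.polar (Q.comp Φ) x y = QuadraticMap.polar Q (Φ x) (Φ y) := by
  simp [QuadraticMap.polar]

lemma polar_eq (Q : QF V) (x y : V) : QuadraticMap.polar Q x y = Q (x + y) + Q x + Q y := by
  simp only [QuadraticMap.polar, sub_eq2]

lemma map_add2 (Q : QF V) (x y : V) : Q (x + y) = Q x + Q y + QuadraticMap.polar Q x y := by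
  simp only [QuadraticMap.polar]; ring

lemma polar_self2 (Q : QF V) (x : V) : QuadraticMap.polar Q x x = 0 := by
  rw [QuadraticMap.polar_self, two_nsmul, F_add_self]

lemma mem_perp (q : QF V) (S : Submodule F V) (y : V) :
    y ∈ perp q S ↔ ∀ s ∈ S, QuadraticMap.polar q s y = 0 := Iff.rfl

lemma push_surj {Φ : U →ₗ[F] V} (h : Function.Surjective Φ) : Function.Surjective (push Φ) := by
  obtain ⟨s, hs⟩ := Φ.exists_rightInverse_of_surjective (LinearMap.range_eq_top.2 h)
  intro M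
  exact ⟨push s M, by rw [← push_comp, hs, push_id]⟩

lemma push_inj {Φ : U →ₗ[F] V} (h : Function.Injective Φ) : Function.Injective (push Φ) := by
  obtain ⟨s, hs⟩ := Φ.exists_leftInverse_of_injective (LinearMap.ker_eq_bot.2 h)
  intro M M' e
  have := congrArg (push s) e
  rwa [← push_comp, ← push_comp, hs, push_id, push_id] at this

lemma gpush_comp {ρ : ℕ} (Φ : V →ₗ[F] W) (Ψ : U →ₗ[F] V) (B : Gam ρ U) :
    gpush (Φ.comp Ψ) B = gpush Φ (gpush Ψ B) := rfl

@[simp] lemma gpush_fst {ρ : ℕ} (Φ : U →ₗ[F] V) (B : Gam ρ U) : (gpush Φ B).1 = push Φ B.1 := rfl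

@[simp] lemma gpush_snd {ρ : ℕ} (Φ : U →ₗ[F] V) (B : Gam ρ U) (i : Fin ρ) :
    (gpush Φ B).2 i = Φ (B.2 i) := rfl

lemma gpush_zero {ρ : ℕ} (B : Gam ρ U) : gpush (0 : U →ₗ[F] V) B = 0 :=
  Prod.ext (push_zero _) (funext fun _ => rfl)

lemma chi_add (Q : QF V) (M M' : G V) : chi Q (M + M') = chi Q M * chi Q M' := by
  simp [chi, sg_add]

lemma chi_add_left (Q Q' : QF V) (M : G V) : chi (Q + Q') M = chi Q M * chi Q' M := by
  simp [chi, sg_add]

lemma chi_push (Q : QF V) (Φ : U →ₗ[F] V) (B : G U) : chi Q (push Φ B) = chi (Q.comp Φ) B := rfl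

lemma chi_ev (Q : QF V) (x : V) : chi Q (ev x) = sg (Q x) := rfl

@[simp] lemma chi_zero (M : G V) : chi 0 M = 1 := by simp [chi]

@[simp] lemma chi_zero' (Q : QF V) : chi Q 0 = 1 := by simp [chi]

lemma chi_mul_self (Q : QF V) (M : G V) : chi Q M * chi Q M = 1 := sg_mul_self _

lemma chi_sq (Q : QF V) (M : G V) : chi Q M ^ 2 = 1 := sg_sq _

lemma abs_chi (Q : QF V) (M : G V) : |chi Q M| = 1 := abs_sg _

lemma chi_sum {ι : Type} (s : Finset ι) (Q : ι → QF V) (M : G V) :
    chi (∑ i ∈ s, Q i) M = ∏ i ∈ s, chi (Q i) M := by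
  simp only [chi, map_sum, sg_sum]

lemma res_apply (h : G V → ℝ) (x : G V) (Φ : U →ₗ[F] V) (B : G U) :
    res h x Φ B = h (x + push Φ B) := rfl

lemma res_res (h : G W → ℝ) (x : G W) (Φ : V →ₗ[F] W) (B : G V) (Ψ : U →ₗ[F] V) :
    res (res h x Φ) B Ψ = res h (x + push Φ B) (Φ.comp Ψ) := by
  funext B'; simp only [res, map_add, push_comp, add_assoc]

variable [Finite U] [Finite V] [Finite W]

lemma av_chi (Q : QF V) : av (chi Q) = ind (Q = 0) := av_sg_dual Q

lemma av_chi_mul (Q Q' : QF V) : av (fun M => chi Q M * chi Q' M) = ind (Q = Q') := by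
  simp only [← chi_add_left]
  exact (av_chi (Q + Q')).trans (ind_congr add_eq_zero2)

lemma av_prod_chi {ι : Type} (s : Finset ι) (Q : ι → QF V) :
    av (fun M => ∏ i ∈ s, chi (Q i) M) = ind (∑ i ∈ s, Q i = 0) := by
  simp only [← chi_sum]; exact av_chi _

lemma four_inv (h : G V → ℝ) (M : G V) : sm (fun Q => coef h Q * chi Q M) = h M :=
  pair_inv (fun (M : G V) (Q : QF V) => M Q) (fun _ _ _ => rfl) (fun M => M.map_add)
    (fun _ h => LinearMap.ext h) card_dual h M

lemma parseval (f g : G V → ℝ) : sm (fun Q => coef f Q * coef g Q) = av fun M => f M * g M :=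
  pair_parseval (fun (M : G V) (Q : QF V) => M Q) (fun _ _ _ => rfl) (fun M => M.map_add)
    (fun _ h => LinearMap.ext h) card_dual f g

lemma parseval_sq (f : G V → ℝ) : sm (fun Q => coef f Q ^ 2) = av fun M => f M ^ 2 := by
  simpa only [sq] using parseval f f

lemma coef_sm {ι : Type} [Finite ι] (a : ι → ℝ) (Q : ι → QF V) (Q' : QF V) :
    coef (fun M => sm fun i => a i * chi (Q i) M) Q' = sm fun i => ind (Q i = Q') * a i := by
  simp only [coef, ← sm_mul_right]
  rw [av_sm_comm]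
  refine sm_congr fun i => ?_
  simp only [mul_assoc]
  rw [av_mul_left, av_chi_mul, mul_comm]

lemma coef_add (f g : G V → ℝ) (Q : QF V) : coef (fun M => f M + g M) Q = coef f Q + coef g Q := by
  simp only [coef, add_mul, av_add]

lemma coef_sub (f g : G V → ℝ) (Q : QF V) : coef (fun M => f M - g M) Q = coef f Q - coef g Q := by
  simp only [coef, sub_mul, av_sub]

lemma coef_mul_left (c : ℝ) (f : G V → ℝ) (Q : QF V) : coef (fun M => c * f M) Q = c * coef f Q := by
  simp only [coef, mul_assoc, av_mul_left]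

lemma coef_const (c : ℝ) (Q : QF V) : coef (fun _ => c) Q = c * ind (Q = 0) := by
  rw [coef, av_mul_left, ← av_chi]

lemma coef_shift (f : G V → ℝ) (x : G V) (Q : QF V) :
    coef (fun M => f (M + x)) Q = coef f Q * chi Q x := by
  rw [coef, coef, ← av_mul_right, ← av_add_right (fun M => f M * chi Q M * chi Q x) x]
  refine av_congr fun M => ?_
  rw [chi_add, mul_assoc, mul_assoc, chi_mul_self, mul_one]

lemma coef_mul_chi (f : G V → ℝ) (Q Q' : QF V) :
    coef (fun M => f M * chi Q' M) Q = coef f (Q' + Q) := by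
  simp only [coef, chi_add_left, mul_assoc]

lemma coef_av {O : Type} [Finite O] (f : O → G V → ℝ) (Q : QF V) :
    coef (fun M => av fun o => f o M) Q = av fun o => coef (f o) Q := by
  simp only [coef, ← av_mul_right]; rw [av_comm]

lemma coef_sm' {O : Type} [Finite O] (f : O → G V → ℝ) (Q : QF V) :
    coef (fun M => sm fun o => f o M) Q = sm fun o => coef (f o) Q := by
  simp only [coef, ← sm_mul_right]; rw [av_sm_comm]

lemma eq_of_coef {f g : G V → ℝ} (h : ∀ Q, coef f Q = coef g Q) : f = g := by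
  funext M; rw [← four_inv f, ← four_inv g]; simp only [h]

lemma coef_proj (P : QF V → Prop) (h : G V → ℝ) (Q : QF V) :
    coef (proj P h) Q = ind (P Q) * coef h Q := by
  have := coef_sm (fun Q => ind (P Q) * coef h Q) (fun Q => Q) Q
  rw [sm_ind_eq] at this
  exact this

lemma spec_proj (P : QF V → Prop) (h : G V → ℝ) : Spec P (proj P h) := fun Q hQ => by
  by_contra hP; rw [coef_proj, ind_neg hP, zero_mul] at hQ; exact hQ rfl

omit [Finite V] in
lemma Spec.mono {P P' : QF V → Prop} {h : G V → ℝ} (hs : Spec P h) (hP : ∀ Q, P Q → P' Q) :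
    Spec P' h := fun Q hQ => hP Q (hs Q hQ)

omit [Finite V] in
lemma Spec.ind_mul {P : QF V → Prop} {h : G V → ℝ} (hs : Spec P h) (Q : QF V) :
    ind (P Q) * coef h Q = coef h Q := by
  by_cases hQ : coef h Q = 0
  · rw [hQ, mul_zero]
  · rw [ind_pos (hs Q hQ), one_mul]

lemma Spec.proj_eq {P : QF V → Prop} {h : G V → ℝ} (hs : Spec P h) : proj P h = h :=
  eq_of_coef fun Q => by rw [coef_proj, hs.ind_mul]

lemma en_nonneg (P : QF V → Prop) (h : G V → ℝ) : 0 ≤ en P h :=
  sm_nonneg fun _ => mul_nonneg (ind_nonneg _) (sq_nonneg _)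

lemma en_eq (P : QF V → Prop) (h : G V → ℝ) : en P h = av fun M => proj P h M ^ 2 := by
  rw [← parseval_sq]
  exact sm_congr fun Q => by rw [coef_proj, mul_pow, ind_sq]

lemma en_eq_inner (P : QF V → Prop) (h : G V → ℝ) : en P h = av fun M => h M * proj P h M := by
  rw [← parseval]
  exact sm_congr fun Q => by rw [coef_proj]; ring

lemma en_mono {P P' : QF V → Prop} (hP : ∀ Q, P Q → P' Q) (h : G V → ℝ) : en P h ≤ en P' h :=
  sm_mono fun Q => mul_le_mul_of_nonneg_right (ind_mono (hP Q)) (sq_nonneg _)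

lemma en_le (P : QF V → Prop) (h : G V → ℝ) : en P h ≤ av fun M => h M ^ 2 := by
  rw [← parseval_sq]
  exact sm_mono fun Q => mul_le_of_le_one_left (sq_nonneg _) (ind_le_one _)

lemma Spec.en_eq {P : QF V → Prop} {h : G V → ℝ} (hs : Spec P h) : en P h = av fun M => h M ^ 2 := by
  rw [SD.en_eq, hs.proj_eq]

lemma coef_sq_le_en {P : QF V → Prop} (h : G V → ℝ) {Q : QF V} (hQ : P Q) :
    coef h Q ^ 2 ≤ en P h := by
  have := single_le_sm (f := fun Q => ind (P Q) * coef h Q ^ 2)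
    (fun _ => mul_nonneg (ind_nonneg _) (sq_nonneg _)) Q
  rwa [ind_pos hQ, one_mul] at this

/-- the variational bound `|P f|^2 >= 2 <f,g> - |g|^2` -/
lemma en_var {P : QF V → Prop} (f : G V → ℝ) {g : G V → ℝ} (hg : Spec P g) :
    2 * (av fun M => f M * g M) - (av fun M => g M ^ 2) ≤ en P f := by
  rw [← parseval, ← parseval_sq, ← sm_mul_left, ← sm_sub]
  refine sm_mono fun Q => ?_
  by_cases hQ : coef g Q = 0
  · rw [hQ]; simpa using mul_nonneg (ind_nonneg (P Q)) (sq_nonneg (coef f Q))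
  · rw [ind_pos (hg Q hQ)]; nlinarith [sq_nonneg (coef f Q - coef g Q)]

/-- `<f, P g> = <f, g>` if `f` has spectrum in `P` -/
lemma Spec.inner_proj {P : QF V → Prop} {f : G V → ℝ} (hf : Spec P f) (g : G V → ℝ) :
    (av fun M => f M * proj P g M) = av fun M => f M * g M := by
  rw [← parseval, ← parseval]
  refine sm_congr fun Q => ?_
  rw [coef_proj, ← mul_assoc, mul_comm (coef f Q), hf.ind_mul]

lemma inner_of_disj {P P' : QF V → Prop} {f g : G V → ℝ} (hf : Spec P f) (hg : Spec P' g)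
    (h : ∀ Q, P Q → ¬ P' Q) : (av fun M => f M * g M) = 0 := by
  rw [← parseval, ← sm_zero (α := QF V)]
  refine sm_congr fun Q => ?_
  by_contra hne
  exact h Q (hf Q (left_ne_zero_of_mul hne)) (hg Q (right_ne_zero_of_mul hne))

lemma spec_sm {ι : Type} [Finite ι] {P : QF V → Prop} (a : ι → ℝ) (Q : ι → QF V)
    (h : ∀ i, a i ≠ 0 → P (Q i)) : Spec P fun M => sm fun i => a i * chi (Q i) M := by
  intro Q' hQ'
  by_contra hP
  apply hQ'
  rw [coef_sm, ← sm_zero (α := ι)]
  refine sm_congr fun i => ?_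
  by_cases hi : Q i = Q'
  · by_cases ha : a i = 0
    · rw [ha, mul_zero]
    · exact absurd (hi ▸ h i ha) hP
  · rw [ind_neg hi, zero_mul]

lemma Spec.add {P : QF V → Prop} {f g : G V → ℝ} (hf : Spec P f) (hg : Spec P g) :
    Spec P fun M => f M + g M := fun Q hQ => by
  rw [coef_add] at hQ
  by_cases h : coef f Q = 0
  · exact hg Q fun h' => hQ (by rw [h, h', add_zero])
  · exact hf Q h

lemma Spec.mul_left {P : QF V → Prop} {f : G V → ℝ} (hf : Spec P f) (c : ℝ) :
    Spec P fun M => c * f M := fun Q hQ => by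
  rw [coef_mul_left] at hQ; exact hf Q (right_ne_zero_of_mul hQ)

lemma spec_sm' {O : Type} [Finite O] {P : QF V → Prop} (f : O → G V → ℝ) (h : ∀ o, Spec P (f o)) :
    Spec P fun M => sm fun o => f o M := fun Q hQ => by
  by_contra hP
  apply hQ
  rw [coef_sm', ← sm_zero (α := O)]
  exact sm_congr fun o => by by_contra hne; exact hP (h o Q hne)

lemma spec_const {P : QF V → Prop} (h0 : P 0) (c : ℝ) : Spec P fun _ => c := fun Q hQ => by
  rw [coef_const] at hQ
  by_cases h : Q = 0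
  · rwa [h]
  · rw [ind_neg h, mul_zero] at hQ; exact absurd rfl hQ

lemma Spec.mul {P P' P'' : QF V → Prop} {f g : G V → ℝ} (hf : Spec P f) (hg : Spec P' g)
    (h : ∀ Q Q', P Q → P' Q' → P'' (Q + Q')) : Spec P'' fun M => f M * g M := by
  have e : (fun M => f M * g M) = fun M => sm fun p : QF V × QF V =>
      (coef f p.1 * coef g p.2) * chi (p.1 + p.2) M := by
    funext M
    rw [← four_inv f M, ← four_inv g M, sm_mul_sm, sm_prod]
    exact sm_congr fun Q => sm_congr fun Q' => by rw [chi_add_left]; ring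
  rw [e]
  exact spec_sm _ _ fun p hp =>
    h _ _ (hf _ (left_ne_zero_of_mul hp)) (hg _ (right_ne_zero_of_mul hp))

omit [Finite U] in
lemma res_eq (h : G V → ℝ) (x : G V) (Φ : U →ₗ[F] V) :
    res h x Φ = fun B => sm fun Q => (coef h Q * chi Q x) * chi (Q.comp Φ) B := by
  funext B
  rw [res_apply, ← four_inv h]
  exact sm_congr fun Q => by rw [chi_add, chi_push, mul_assoc]

lemma coef_res (h : G V → ℝ) (x : G V) (Φ : U →ₗ[F] V) (Q' : QF U) :
    coef (res h x Φ) Q' = sm fun Q => ind (Q.comp Φ = Q') * (coef h Q * chi Q x) := by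
  rw [res_eq, coef_sm]

lemma Spec.res {P : QF V → Prop} {P' : QF U → Prop} {h : G V → ℝ} (hs : Spec P h) (x : G V)
    (Φ : U →ₗ[F] V) (hP : ∀ Q, P Q → P' (Q.comp Φ)) : Spec P' (res h x Φ) := by
  rw [res_eq]
  exact spec_sm _ _ fun Q hQ => hP Q (hs Q (left_ne_zero_of_mul hQ))

/-- pull back of a function along `pi_*` -/
lemma Spec.pushComp {P : QF U → Prop} {P' : QF V → Prop} {h : G U → ℝ} (hs : Spec P h)
    (π : V →ₗ[F] U) (hP : ∀ Q, P Q → P' (Q.comp π)) : Spec P' fun M => h (push π M) := by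
  have := hs.res 0 π hP
  have e : SD.res h 0 π = fun M => h (push π M) := by funext M; rw [res_apply, zero_add]
  rwa [e] at this

end SD
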