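import Pool.Agent.Lib.MP_ecee09_co.SD.Base

/-! The Gaussian step, abstract part: a family from a density, and the gain estimate. -/

namespace SD

open Module

section fam
variable {X C Λ O : Type} [AddCommGroup X] [Finite X] [Finite C] [Nonempty C] [Finite O]
  [Nonempty O]

omit [Nonempty O] in
lemma gg_shift (a : C → X) (φ g : X → ℝ) (hφ : ∀ x c, φ (x + a c) = φ x) :
    av (fun x => φ x * av fun c => g (x + a c)) = av fun x => φ x * g x := by
  rw [← av_shift (fun x => φ x * g x) a]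
  refine av_congr fun x => ?_
  rw [← av_mul_left]
  exact av_congr fun c => by rw [hφ]

/-- the family given by an invariant density, completed by cells with the label `l0` -/
noncomputable def ggFam (a : Λ → C → X) (lab : O → Λ) (l0 : Λ) (h0 : ∀ c, a l0 c = 0)
    (ψ : X → O → ℝ) (hp : ∀ x o, 0 ≤ ψ x o) (hi : ∀ x o c, ψ (x + a (lab o) c) o = ψ x o)
    (h1 : ∀ x, av (ψ x) ≤ 1) : Fam a where
  E f := av fun x => (av fun o => ψ x o * f x (lab o)) + (1 - av (ψ x)) * f x l0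
  add f g := by
    rw [← av_add]
    refine av_congr fun x => ?_
    simp only [mul_add, av_add]; ring
  smul c f := by
    rw [← av_mul_left]
    refine av_congr fun x => ?_
    simp only [mul_left_comm _ c, av_mul_left]; ring
  pos f hf := av_nonneg fun x => add_nonneg (av_nonneg fun o => mul_nonneg (hp x o) (hf _ _))
    (mul_nonneg (sub_nonneg.2 (h1 x)) (hf _ _))
  marg g := by
    have e1 : av (fun x => av fun o => ψ x o * av fun B => g (x + a (lab o) B)) =
        av fun x => av (ψ x) * g x := by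
      rw [av_comm]
      have : ∀ o, av (fun x => ψ x o * av fun B => g (x + a (lab o) B)) =
          av fun x => ψ x o * g x := fun o =>
        gg_shift (a (lab o)) (fun x => ψ x o) g fun x c => hi x o c
      simp only [this]
      rw [av_comm]
      exact av_congr fun x => av_mul_right _ _
    rw [av_add, e1, ← av_add]
    refine av_congr fun x => ?_
    simp only [h0, add_zero, av_const]; ring

lemma gg_point (s p p1 p2 p' u : ℝ) (h0 : 0 ≤ p') (h1 : p' ≤ p) (h2 : 0 ≤ p2)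
    (h3 : p1 ^ 2 ≤ p * p2) :
    2 * s * p1 * u - s ^ 2 * p2 - (p - p') * u ^ 2 ≤
      2 * (p' * (s * p1 / p) * u) - p' * (s * p1 / p) ^ 2 := by
  rcases (h0.trans h1).eq_or_lt with hp | hp
  · have e' : p' = 0 := le_antisymm (hp ▸ h1) h0
    have e1 : p1 = 0 := by
      rw [← hp, zero_mul] at h3
      exact pow_eq_zero_iff (two_ne_zero) |>.1 (le_antisymm h3 (sq_nonneg _))
    rw [e', e1, ← hp]
    have := mul_nonneg (sq_nonneg s) h2
    simp only [mul_zero, zero_mul, sub_zero, zero_sub, sub_self]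
    linarith
  · set g := s * p1 / p with hg
    have e : s * p1 = p * g := by rw [hg]; field_simp
    have e2 : p * g ^ 2 ≤ s ^ 2 * p2 := by
      have : p * (p * g ^ 2) ≤ p * (s ^ 2 * p2) := by
        have h4 : p * (p * g ^ 2) = s ^ 2 * p1 ^ 2 := by
          calc p * (p * g ^ 2) = (p * g) ^ 2 := by ring
            _ = (s * p1) ^ 2 := by rw [e]
            _ = s ^ 2 * p1 ^ 2 := by ring
        rw [h4]
        nlinarith [mul_le_mul_of_nonneg_left h3 (sq_nonneg s)]
      exact le_of_mul_le_mul_left this hp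
    have e3 : 0 ≤ (p - p') * (u - g) ^ 2 := mul_nonneg (sub_nonneg.2 h1) (sq_nonneg _)
    have e4 : 2 * s * p1 * u = 2 * (p * g) * u := by rw [← e]; ring
    rw [e4]
    nlinarith

lemma gg_lost (B l r u : ℝ) (hB : 0 < B) (h0 : 0 ≤ l) (h1 : l ≤ r) :
    l * u ^ 2 ≤ B * l + (2 + 2 * (r - 1) ^ 2 + |u| ^ 8) / (2 * B) := by
  have h8 : |u| ^ 8 = (u ^ 4) ^ 2 := by
    rw [← pow_mul, show (4 * 2 : ℕ) = 8 from rfl, ← abs_pow]
    exact abs_of_nonneg (by positivity)
  rw [h8]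
  have hu : u ^ 2 ≤ B + u ^ 4 / B := by
    rcases le_total (u ^ 2) B with h | h
    · have : 0 ≤ u ^ 4 / B := by positivity
      linarith
    · have : u ^ 2 ≤ u ^ 4 / B := by
        rw [le_div_iff₀ hB]
        nlinarith [sq_nonneg u]
      linarith
  have h2 : l * u ^ 2 ≤ B * l + r * u ^ 4 / B := by
    have h3 : l * (u ^ 4 / B) ≤ r * (u ^ 4 / B) :=
      mul_le_mul_of_nonneg_right h1 (by positivity)
    calc l * u ^ 2 ≤ l * (B + u ^ 4 / B) := mul_le_mul_of_nonneg_left hu h0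
      _ = B * l + l * (u ^ 4 / B) := by ring
      _ ≤ B * l + r * (u ^ 4 / B) := by linarith
      _ = B * l + r * u ^ 4 / B := by ring
  have h4 : r * u ^ 4 / B ≤ (2 + 2 * (r - 1) ^ 2 + (u ^ 4) ^ 2) / (2 * B) := by
    rw [div_le_div_iff₀ hB (by positivity)]
    have : 2 * (r * u ^ 4) ≤ 2 + 2 * (r - 1) ^ 2 + (u ^ 4) ^ 2 := by
      nlinarith [sq_nonneg (r - u ^ 4), sq_nonneg (r - 2)]
    nlinarith
  linarith

omit [Nonempty O] in
/-- the abstract gain estimate -/
lemma gg_gain (a : O → C → X) (u κ : X → ℝ) (ψ ψ1 ψ2 ψ' : X → O → ℝ) (s μ B : ℝ) (hs : 0 ≤ s)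
    (hμ : 0 < μ) (hB : 0 < B) (h0 : ∀ x o, 0 ≤ ψ' x o) (h1 : ∀ x o, ψ' x o ≤ ψ x o)
    (h2 : ∀ x o, 0 ≤ ψ2 x o) (h3 : ∀ x o, ψ1 x o ^ 2 ≤ ψ x o * ψ2 x o)
    (i0 : ∀ x o c, ψ (x + a o c) o = ψ x o) (i1 : ∀ x o c, ψ1 (x + a o c) o = ψ1 x o)
    (i2 : ∀ x o c, ψ' (x + a o c) o = ψ' x o) (e1 e2 e4 d2 d8 : ℝ)
    (b1 : av (fun x => (av (ψ x) - 1) ^ 2) ≤ e1)
    (b2 : av (fun x => (av (ψ1 x) - κ x) ^ 2) ≤ e2)
    (b3 : av (fun x => av (ψ2 x)) ≤ 1)
    (b4 : av (fun x => av fun o => ψ x o - ψ' x o) ≤ e4)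
    (t2 : av (fun x => u x ^ 2) ≤ d2) (t8 : av (fun x => |u x| ^ 8) ≤ d8) :
    2 * s * av (fun x => u x * κ x) - s * (μ * d2 + e2 / μ) - s ^ 2 -
        (B * e4 + (2 + 2 * e1 + d8) / (2 * B)) ≤
      av fun x => av fun o => ψ' x o * (av fun c => u (x + a o c)) ^ 2 := by
  set g : X → O → ℝ := fun x o => s * ψ1 x o / ψ x o with hg
  have s1 : av (fun x => av fun o => 2 * (ψ' x o * g x o * u x) - ψ' x o * g x o ^ 2) ≤
      av fun x => av fun o => ψ' x o * (av fun c => u (x + a o c)) ^ 2 := by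
    rw [av_comm, av_comm (fun x o => ψ' x o * (av fun c => u (x + a o c)) ^ 2)]
    refine av_mono fun o => ?_
    have hsh := gg_shift (a o) (fun x => ψ' x o * g x o) u fun x c => by
      simp only [hg, i0, i1, i2]
    rw [av_sub, av_mul_left, ← hsh, ← av_mul_left, ← av_sub]
    refine av_mono fun x => ?_
    nlinarith [mul_nonneg (h0 x o) (sq_nonneg ((av fun c => u (x + a o c)) - g x o))]
  refine le_trans ?_ s1
  have s2 : ∀ x, 2 * s * (u x * κ x) - s * (μ * u x ^ 2 + (av (ψ1 x) - κ x) ^ 2 / μ) -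
      s ^ 2 * av (ψ2 x) - (B * (av fun o => ψ x o - ψ' x o) +
        (2 + 2 * (av (ψ x) - 1) ^ 2 + |u x| ^ 8) / (2 * B)) ≤
      av fun o => 2 * (ψ' x o * g x o * u x) - ψ' x o * g x o ^ 2 := fun x => by
    have p1 : av (fun o => 2 * s * ψ1 x o * u x - s ^ 2 * ψ2 x o - (ψ x o - ψ' x o) * u x ^ 2) ≤
        av fun o => 2 * (ψ' x o * g x o * u x) - ψ' x o * g x o ^ 2 :=
      av_mono fun o => gg_point s _ _ _ _ _ (h0 x o) (h1 x o) (h2 x o) (h3 x o)
    rw [av_sub, av_sub, av_mul_right, av_mul_right, av_mul_left, av_mul_left] at p1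
    have p2 := gg_lost B (av fun o => ψ x o - ψ' x o) (av (ψ x)) (u x) hB
      (av_nonneg fun o => sub_nonneg.2 (h1 x o)) (av_mono fun o => by linarith [h0 x o])
    have p3 : -(μ * u x ^ 2 + (av (ψ1 x) - κ x) ^ 2 / μ) ≤ 2 * (u x * (av (ψ1 x) - κ x)) := by
      set d := av (ψ1 x) - κ x
      have : 0 ≤ (μ * u x + d) ^ 2 / μ := by positivity
      have e : (μ * u x + d) ^ 2 / μ = μ * u x ^ 2 + d ^ 2 / μ + 2 * (u x * d) := by
        field_simp; ring
      linarith
    have p4 := mul_le_mul_of_nonneg_left p3 hs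
    linarith
  refine le_trans ?_ (av_mono s2)
  simp only [av_sub, av_add, av_mul_left, av_div, av_const]
  simp only [av_sub] at b4
  have q1 : μ * av (fun x => u x ^ 2) ≤ μ * d2 := mul_le_mul_of_nonneg_left t2 hμ.le
  have q2 : av (fun x => (av (ψ1 x) - κ x) ^ 2) / μ ≤ e2 / μ :=
    div_le_div_of_nonneg_right b2 hμ.le
  have q3 := mul_le_mul_of_nonneg_left (add_le_add q1 q2) hs
  have q4 := mul_le_mul_of_nonneg_left b3 (sq_nonneg s)
  have q5 := mul_le_mul_of_nonneg_left b4 hB.le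
  have q6 : (2 + 2 * av (fun x => (av (ψ x) - 1) ^ 2) + av fun x => |u x| ^ 8) / (2 * B) ≤
      (2 + 2 * e1 + d8) / (2 * B) :=
    div_le_div_of_nonneg_right (by linarith) (by positivity)
  linarith

end fam

end SD
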