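import Pool.Agent.Lib.MP_ecee09_co.SD.Base

/-! Gaussian moments count perfect matchings. -/

namespace SD

open MeasureTheory ProbabilityTheory Finset

/-- the standard normal law -/
noncomputable abbrev gtG : Measure ℝ := gaussianReal 0 1

/-- the product of standard normal laws -/
noncomputable abbrev gtP (I : Type) [Fintype I] : Measure (I → ℝ) := Measure.pi fun _ : I => gtG

/-- moments of the standard normal law -/
noncomputable def gtm (k : ℕ) : ℝ := ∫ x, x ^ k ∂gtG

lemma gtm_zero : gtm 0 = 1 := by simp [gtm]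

lemma gtm_one : gtm 1 = 0 := by simp [gtm, integral_id_gaussianReal]

lemma gtm_eq (k : ℕ) : gtm k = iteratedDeriv k (fun t : ℝ => Real.exp (t ^ 2 / 2)) 0 := by
  have h := iteratedDeriv_mgf_zero (X := id) (μ := gtG) (by simp) k
  rw [mgf_id_gaussianReal] at h
  simp only [zero_mul, NNReal.coe_one, one_mul, zero_add] at h
  rw [h]; rfl

lemma gtm_succ (k : ℕ) : gtm (k + 2) = (k + 1) * gtm k := by
  have hd : deriv (fun t : ℝ => Real.exp (t ^ 2 / 2)) =
      fun t : ℝ => t * Real.exp (t ^ 2 / 2) := by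
    funext t
    have h1 : HasDerivAt (fun t : ℝ => t ^ 2 / 2) t t := by
      simpa using (hasDerivAt_pow 2 t).div_const 2
    rw [h1.exp.deriv]; ring
  rw [gtm_eq, gtm_eq, iteratedDeriv_succ', hd,
    iteratedDeriv_fun_mul (f := fun t : ℝ => t) (g := fun t : ℝ => Real.exp (t ^ 2 / 2))
      (by fun_prop) (by fun_prop)]
  rw [Finset.sum_eq_single 1]
  · simp [iteratedDeriv_fun_id_zero]
  · intro b _ hb; simp [iteratedDeriv_fun_id_zero, hb]
  · intro h; exfalso; apply h; simp

lemma gtm_succ' (c : ℕ) : gtm (c + 1) = c * gtm (c - 1) := by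
  rcases c with _ | c
  · simp [gtm_one]
  · rw [gtm_succ]; simp

section mtch
variable {α L : Type} [Fintype α] [DecidableEq α] [DecidableEq L]

/-- label preserving involutions whose support is `s` -/
def gtM (t : α → L) (s : Finset α) : Finset (α → α) :=
  univ.filter fun m => (∀ r, m (m r) = r) ∧ (∀ r, m r = r ↔ r ∉ s) ∧ ∀ r, t (m r) = t r

lemma mem_gtM {t : α → L} {s : Finset α} {m : α → α} :
    m ∈ gtM t s ↔ (∀ r, m (m r) = r) ∧ (∀ r, m r = r ↔ r ∉ s) ∧ ∀ r, t (m r) = t r := by
  simp [gtM]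

lemma gtM_empty (t : α → L) : (gtM t ∅).card = 1 := by
  rw [Finset.card_eq_one]
  refine ⟨id, ?_⟩
  ext m
  rw [mem_gtM, Finset.mem_singleton]
  constructor
  · rintro ⟨-, h, -⟩; funext r; exact (h r).2 (by simp)
  · rintro rfl; simp

lemma gtM_fib (t : α → L) (s : Finset α) (a b : α) (ha : a ∈ s) (hb : b ∈ s) (hab : b ≠ a)
    (ht : t b = t a) :
    ((gtM t s).filter fun m => m a = b).card = (gtM t ((s.erase a).erase b)).card := by
  refine Finset.card_nbij' (fun m => m ∘ Equiv.swap a b) (fun m => m ∘ Equiv.swap a b) ?_ ?_ ?_ ?_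
  · intro m hm
    rw [Finset.mem_coe, Finset.mem_filter, mem_gtM] at hm
    obtain ⟨⟨h1, h2, h3⟩, h4⟩ := hm
    have h5 : m b = a := by rw [← h4, h1]
    have key : ∀ r, r ≠ a → r ≠ b → m r ≠ a ∧ m r ≠ b := fun r hra hrb =>
      ⟨fun h => hrb (by rw [← h1 r, h, h4]), fun h => hra (by rw [← h1 r, h, h5])⟩
    rw [Finset.mem_coe, mem_gtM]
    refine ⟨fun r => ?_, fun r => ?_, fun r => ?_⟩ <;>
      by_cases hra : r = a <;> by_cases hrb : r = b <;>
      simp only [Function.comp_apply]
    all_goals first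
      | (exfalso; exact hab (hrb.symm.trans hra))
      | (subst hra; simp [h4, h5]; done)
      | (subst hrb; simp [h4, h5]; done)
      | skip
    · rw [Equiv.swap_apply_of_ne_of_ne hra hrb,
        Equiv.swap_apply_of_ne_of_ne (key r hra hrb).1 (key r hra hrb).2, h1]
    · rw [Equiv.swap_apply_of_ne_of_ne hra hrb, h2]; simp [hra, hrb]
    · rw [Equiv.swap_apply_of_ne_of_ne hra hrb, h3]
  · intro m hm
    rw [Finset.mem_coe, mem_gtM] at hm
    obtain ⟨h1, h2, h3⟩ := hm
    have h4 : m a = a := (h2 a).2 (by simp)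
    have h5 : m b = b := (h2 b).2 (by simp)
    have key : ∀ r, r ≠ a → r ≠ b → m r ≠ a ∧ m r ≠ b := fun r hra hrb =>
      ⟨fun h => hra (by rw [← h1 r, h, h4]), fun h => hrb (by rw [← h1 r, h, h5])⟩
    rw [Finset.mem_coe, Finset.mem_filter, mem_gtM]
    refine ⟨⟨fun r => ?_, fun r => ?_, fun r => ?_⟩, by simp [h5]⟩ <;>
      by_cases hra : r = a <;> by_cases hrb : r = b <;>
      simp only [Function.comp_apply]
    all_goals first
      | (exfalso; exact hab (hrb.symm.trans hra))
      | (subst hra; simp [h4, h5, ha, hb, hab, ht]; done)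
      | (subst hrb; simp [h4, h5, ha, hb, hab.symm, ht]; done)
      | skip
    · rw [Equiv.swap_apply_of_ne_of_ne hra hrb,
        Equiv.swap_apply_of_ne_of_ne (key r hra hrb).1 (key r hra hrb).2, h1]
    · rw [Equiv.swap_apply_of_ne_of_ne hra hrb, h2]; simp [hra, hrb]
    · rw [Equiv.swap_apply_of_ne_of_ne hra hrb, h3]
  · intro m _; funext r; simp
  · intro m _; funext r; simp

lemma gtM_rec (t : α → L) (s : Finset α) (a : α) (ha : a ∈ s) :
    (gtM t s).card =
      ∑ b ∈ (s.erase a).filter (fun b => t b = t a), (gtM t ((s.erase a).erase b)).card := by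
  rw [Finset.card_eq_sum_card_fiberwise (f := fun m => m a)
    (t := (s.erase a).filter (fun b => t b = t a))]
  · refine Finset.sum_congr rfl fun b hb => ?_
    rw [Finset.mem_filter, Finset.mem_erase] at hb
    exact gtM_fib t s a b ha hb.1.2 hb.1.1 hb.2
  · intro m hm
    rw [Finset.mem_coe, mem_gtM] at hm
    obtain ⟨h1, h2, h3⟩ := hm
    have h4 : m a ≠ a := fun h => (h2 a).1 h ha
    rw [Finset.mem_coe, Finset.mem_filter, Finset.mem_erase]
    refine ⟨⟨h4, ?_⟩, h3 a⟩
    by_contra h
    exact h4 (((h2 (m a)).2 h).symm.trans (h1 a))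

lemma gtM_card [Fintype L] (t : α → L) (n : ℕ) : ∀ s : Finset α, s.card = n →
    ((gtM t s).card : ℝ) = ∏ j, gtm (s.filter fun r => t r = j).card := by
  induction n using Nat.strong_induction_on with
  | _ n ih =>
  intro s hs
  rcases s.eq_empty_or_nonempty with rfl | ⟨a, ha⟩
  · simp [gtM_empty, gtm_zero]
  rw [gtM_rec t s a ha, Nat.cast_sum]
  have h1 : (s.filter fun r => t r = t a).card =
      ((s.erase a).filter fun r => t r = t a).card + 1 := by
    rw [Finset.filter_erase, Finset.card_erase_add_one]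
    simp [ha]
  have h2 : ∀ b ∈ (s.erase a).filter (fun b => t b = t a),
      ((gtM t ((s.erase a).erase b)).card : ℝ) =
        gtm (((s.erase a).filter fun r => t r = t a).card - 1) *
          ∏ j ∈ univ.erase (t a), gtm (s.filter fun r => t r = j).card := by
    intro b hb
    have hb' := hb
    rw [Finset.mem_filter] at hb'
    have hlt : ((s.erase a).erase b).card < n := by
      rw [← hs]
      exact lt_of_le_of_lt Finset.card_erase_le (Finset.card_erase_lt_of_mem ha)
    rw [ih _ hlt _ rfl, ← Finset.mul_prod_erase univ _ (Finset.mem_univ (t a))]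
    congr 1
    · rw [Finset.filter_erase, Finset.card_erase_of_mem hb]
    · refine Finset.prod_congr rfl fun j hj => ?_
      have hj' : j ≠ t a := (Finset.mem_erase.1 hj).1
      rw [Finset.filter_erase, Finset.filter_erase, Finset.erase_eq_of_notMem,
        Finset.erase_eq_of_notMem]
      · simp [hj'.symm]
      · simp [hb'.2, hj'.symm]
  rw [Finset.sum_congr rfl h2, Finset.sum_const, nsmul_eq_mul,
    ← Finset.mul_prod_erase univ _ (Finset.mem_univ (t a)), h1, gtm_succ', mul_assoc]

end mtch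

lemma gt_pm_eq {I : Type} [Fintype I] {R : ℕ} (l : Fin R → I) :
    pm l = ∫ z, ∏ r, z (l r) ∂gtP I := by
  classical
  have h1 : pm l = ((gtM l univ).card : ℝ) := by
    rw [pm, ← cnt_finset]
    congr 1
    ext m
    rw [Finset.mem_coe, mem_gtM]
    simp
  have h2 : ∀ z : I → ℝ, ∏ r, z (l r) = ∏ j, z j ^ (univ.filter fun r => l r = j).card := by
    intro z
    rw [← Finset.prod_fiberwise' univ l z]
    simp
  rw [h1, gtM_card l _ univ rfl]
  simp only [h2]
  rw [integral_fintype_prod_eq_prod (fun j (x : ℝ) => x ^ (univ.filter fun r => l r = j).card)]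
  rfl

lemma gt_pm_comp {I L : Type} {R : ℕ} (j : I → L) (hj : Function.Injective j) (l : Fin R → I) :
    pm (fun r => j (l r)) = pm l := by
  unfold pm
  congr 1
  ext m
  simp only [Set.mem_ofPred_eq, hj.eq_iff]

end SD
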