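import Pool.Agent.Lib.MP_ecee09_co.SD.GTa

/-! The method of moments for the standard normal law. -/

namespace SD

open MeasureTheory ProbabilityTheory Finset Filter Topology

lemma gt_taylor (u : ℝ) (n : ℕ) :
    ‖Complex.exp (u * Complex.I) - ∑ k ∈ range (n + 1), (Complex.I ^ k / k.factorial) * (u ^ k : ℝ)‖
      ≤ |u| ^ (n + 1) / n.factorial := by
  set c : ℂ := u * Complex.I with hc
  have hd : ∀ k : ℕ, iteratedDeriv k (fun s : ℝ => Complex.exp (s * c)) =
      fun s : ℝ => c ^ k * Complex.exp (s * c) := by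
    intro k
    induction k with
    | zero => simp
    | succ k ih =>
      rw [iteratedDeriv_succ, ih]
      funext s
      have h1 : HasDerivAt (fun s : ℝ => (s : ℂ) * c) c s := by
        simpa using (Complex.ofRealCLM.hasDerivAt (x := s)).mul_const c
      rw [(h1.cexp.const_mul (c ^ k)).deriv]; ring
  have hs : ∀ m : WithTop ℕ∞, ContDiff ℝ m (fun s : ℝ => Complex.exp (s * c)) := fun m =>
    Complex.contDiff_exp.comp (Complex.ofRealCLM.contDiff.mul contDiff_const)
  have hu : UniqueDiffOn ℝ (Set.Icc (0 : ℝ) 1) := uniqueDiffOn_Icc one_pos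
  have hw : ∀ (k : ℕ) (s : ℝ), s ∈ Set.Icc (0 : ℝ) 1 →
      iteratedDerivWithin k (fun s : ℝ => Complex.exp (s * c)) (Set.Icc 0 1) s =
        c ^ k * Complex.exp (s * c) := fun k s h => by
    rw [iteratedDerivWithin_eq_iteratedDeriv hu (hs _).contDiffAt h, hd]
  have h := taylor_mean_remainder_bound (f := fun s : ℝ => Complex.exp (s * c)) (a := 0) (b := 1)
    (x := 1) (n := n) (C := |u| ^ (n + 1)) zero_le_one (hs _).contDiffOn (by simp) (by
      intro s hs
      rw [hw _ s hs, norm_mul, norm_pow, hc, ← mul_assoc, ← Complex.ofReal_mul,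
        Complex.norm_exp_ofReal_mul_I]
      simp)
  rw [taylor_within_apply] at h
  simp only [hw _ 0 (by simp)] at h
  simp only [Complex.ofReal_one, one_mul, sub_zero, one_pow, mul_one, Complex.ofReal_zero,
    zero_mul, Complex.exp_zero] at h
  have h6 : ∀ k : ℕ, (Complex.I ^ k / k.factorial) * (u ^ k : ℝ) =
      ((k.factorial : ℝ))⁻¹ • c ^ k := fun k => by
    rw [hc, Complex.real_smul]
    push_cast
    ring
  simpa only [h6] using h

lemma gt_cf {Z : Type} [MeasurableSpace Z] (μ : Measure Z) [IsProbabilityMeasure μ] (u : Z → ℝ)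
    (hm : Measurable u) (hi : ∀ k : ℕ, Integrable (fun z => u z ^ k) μ) (d : ℕ) :
    ‖(∫ z, Complex.exp (u z * Complex.I) ∂μ) - ∑ k ∈ range (2 * d + 1 + 1),
      (Complex.I ^ k / k.factorial) * ((∫ z, u z ^ k ∂μ : ℝ) : ℂ)‖ ≤
      (∫ z, u z ^ (2 * d + 2) ∂μ) / (2 * d + 1).factorial := by
  have h1 : Integrable (fun z => Complex.exp (u z * Complex.I)) μ :=
    Integrable.of_bound (by fun_prop) 1
      (ae_of_all _ fun z => (Complex.norm_exp_ofReal_mul_I _).le)
  have h2 : ∀ k : ℕ, Integrable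
      (fun z => (Complex.I ^ k / k.factorial) * ((u z ^ k : ℝ) : ℂ)) μ := fun k =>
    (hi k).ofReal.const_mul _
  have h3 : ∑ k ∈ range (2 * d + 1 + 1),
      (Complex.I ^ k / k.factorial) * ((∫ z, u z ^ k ∂μ : ℝ) : ℂ) =
      ∫ z, ∑ k ∈ range (2 * d + 1 + 1),
        (Complex.I ^ k / k.factorial) * ((u z ^ k : ℝ) : ℂ) ∂μ := by
    rw [integral_finsetSum _ fun k _ => h2 k]
    refine Finset.sum_congr rfl fun k _ => ?_
    rw [integral_const_mul, integral_complex_ofReal]
  rw [h3, ← integral_sub h1 (integrable_finsetSum _ fun k _ => h2 k), ← integral_div]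
  refine norm_integral_le_of_norm_le ((hi _).div_const _) (ae_of_all _ fun z => ?_)
  have h4 := gt_taylor (u z) (2 * d + 1)
  rwa [show |u z| ^ (2 * d + 1 + 1) = u z ^ (2 * d + 2) from
    Even.pow_abs ⟨d + 1, by ring⟩ _] at h4

lemma gt_tail (u : ℝ) (d : ℕ) :
    u ^ (2 * d + 2) / (2 * d + 1).factorial ≤
      (1 / 2) ^ d * (Real.exp (3 * u) + Real.exp (-3 * u)) := by
  have h0 := abs_nonneg u
  have h1 := Real.pow_div_factorial_le_exp (2 * |u|) (by positivity) (2 * d + 1)
  have h2 : |u| ≤ Real.exp |u| := by linarith [Real.add_one_le_exp |u|]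
  have h3 : Real.exp (3 * |u|) ≤ Real.exp (3 * u) + Real.exp (-3 * u) := by
    have := Real.exp_pos (3 * u)
    have := Real.exp_pos (-3 * u)
    rcases abs_cases u with h | h <;> rw [h.1]
    · linarith
    · rw [show 3 * -u = -3 * u by ring]; linarith
  have h4 : ((1 : ℝ) / 2) ^ (2 * d + 1) ≤ (1 / 2) ^ d :=
    pow_le_pow_of_le_one (by norm_num) (by norm_num) (by omega)
  have h5 : u ^ (2 * d + 2) / (2 * d + 1).factorial =
      (1 / 2) ^ (2 * d + 1) * (|u| * ((2 * |u|) ^ (2 * d + 1) / (2 * d + 1).factorial)) := by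
    rw [← Even.pow_abs (a := u) (n := 2 * d + 2) ⟨d + 1, by ring⟩, mul_pow, one_div, inv_pow]
    field_simp
    ring
  rw [h5]
  refine mul_le_mul h4 ?_ (by positivity) (by positivity)
  refine le_trans (mul_le_mul h2 h1 (by positivity) (by positivity)) ?_
  rw [← Real.exp_add, show |u| + 2 * |u| = 3 * |u| by ring]
  exact h3

lemma gt_cf_lim {Z : Type} [MeasurableSpace Z] (μ : ℕ → Measure Z)
    [∀ n, IsProbabilityMeasure (μ n)] (ν : Measure Z) [IsProbabilityMeasure ν] (u : Z → ℝ)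
    (hm : Measurable u) (hi : ∀ n k : ℕ, Integrable (fun z => u z ^ k) (μ n))
    (hν : ∀ k : ℕ, Integrable (fun z => u z ^ k) ν)
    (he : ∀ c : ℝ, Integrable (fun z => Real.exp (c * u z)) ν)
    (h : ∀ k : ℕ, Tendsto (fun n => ∫ z, u z ^ k ∂μ n) atTop (𝓝 (∫ z, u z ^ k ∂ν))) :
    Tendsto (fun n => ∫ z, Complex.exp (u z * Complex.I) ∂μ n) atTop
      (𝓝 (∫ z, Complex.exp (u z * Complex.I) ∂ν)) := by
  rw [Metric.tendsto_nhds]
  intro ε hε
  set K := ∫ z, (Real.exp (3 * u z) + Real.exp (-3 * u z)) ∂ν with hK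
  have h1 : Tendsto (fun d : ℕ => ((1 : ℝ) / 2) ^ d * K) atTop (𝓝 0) := by
    simpa using (tendsto_pow_atTop_nhds_zero_of_lt_one (r := (1 : ℝ) / 2) (by norm_num)
      (by norm_num)).mul_const K
  obtain ⟨d, hd⟩ := (h1.eventually (gt_mem_nhds (show (0 : ℝ) < ε / 3 by linarith))).exists
  have h2 : (∫ z, u z ^ (2 * d + 2) ∂ν) / (2 * d + 1).factorial < ε / 3 := by
    refine lt_of_le_of_lt ?_ hd
    rw [← integral_div, hK, ← integral_const_mul]
    exact integral_mono ((hν _).div_const _) (((he 3).add (he (-3))).const_mul _)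
      fun z => gt_tail (u z) d
  have h3 := ((h (2 * d + 2)).div_const ((2 * d + 1).factorial : ℝ)).eventually (gt_mem_nhds h2)
  have h4 : Tendsto (fun n => ∑ k ∈ range (2 * d + 1 + 1),
      (Complex.I ^ k / k.factorial) * ((∫ z, u z ^ k ∂μ n : ℝ) : ℂ)) atTop
      (𝓝 (∑ k ∈ range (2 * d + 1 + 1),
        (Complex.I ^ k / k.factorial) * ((∫ z, u z ^ k ∂ν : ℝ) : ℂ))) :=
    tendsto_finsetSum _ fun k _ => ((Complex.continuous_ofReal.tendsto _).comp (h k)).const_mul _
  have h5 := Metric.tendsto_nhds.1 h4 (ε / 3) (by linarith)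
  filter_upwards [h3, h5] with n hn3 hn5
  have a1 := gt_cf (μ n) u hm (hi n) d
  have a2 := gt_cf ν u hm hν d
  rw [← dist_eq_norm] at a1 a2
  have a3 := dist_triangle4 (∫ z, Complex.exp (u z * Complex.I) ∂μ n) _ _
    (∫ z, Complex.exp (u z * Complex.I) ∂ν) |>.trans
    (add_le_add (add_le_add a1 hn5.le) ((dist_comm _ _).le.trans a2))
  linarith

/-- the empirical law of a finite family -/
noncomputable def gtE {Ω Z : Type} [Finite Ω] [MeasurableSpace Z] (y : Ω → Z) : Measure Z :=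
  (Nat.card Ω : ENNReal)⁻¹ • ∑ w ∈ @Finset.univ Ω (Fintype.ofFinite Ω), Measure.dirac (y w)

section emp
variable {Ω Z : Type} [Finite Ω] [Nonempty Ω] [MeasurableSpace Z] (y : Ω → Z)

instance gtE_prob : IsProbabilityMeasure (gtE y) := by
  constructor
  let _ := Fintype.ofFinite Ω
  have h : (Nat.card Ω : ENNReal) ≠ 0 := by exact_mod_cast (Nat.card_pos (α := Ω)).ne'
  simp only [gtE, Measure.smul_apply, Measure.coe_finsetSum, Finset.sum_apply, measure_univ,
    Finset.sum_const, Finset.card_univ, nsmul_eq_mul, mul_one, smul_eq_mul]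
  rw [← Nat.card_eq_fintype_card]
  exact ENNReal.inv_mul_cancel h (by simp)

variable [MeasurableSingletonClass Z]

lemma gtE_int (f : Z → ℝ) : Integrable f (gtE y) := by
  have h : (Nat.card Ω : ENNReal) ≠ 0 := by exact_mod_cast (Nat.card_pos (α := Ω)).ne'
  exact (integrable_finsetSum_measure.2 fun w _ => integrable_dirac (by simp)).smul_measure
    (ENNReal.inv_ne_top.2 h)

omit [Nonempty Ω] in
lemma gtE_eq (f : Z → ℝ) : ∫ z, f z ∂gtE y = av fun w => f (y w) := by
  let _ := Fintype.ofFinite Ω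
  rw [gtE, integral_smul_measure,
    integral_finsetSum_measure fun w _ => integrable_dirac (by simp), av_def, sm_eq]
  simp only [integral_dirac, ENNReal.toReal_inv, ENNReal.toReal_natCast, smul_eq_mul]
  ring

end emp

section lim
variable {I : Type} [Fintype I]

lemma gt_int_prod {R : ℕ} (l : Fin R → I) : Integrable (fun z : I → ℝ => ∏ r, z (l r)) (gtP I) := by
  classical
  have h2 : ∀ z : I → ℝ, ∏ r, z (l r) = ∏ j, z j ^ (univ.filter fun r => l r = j).card := by
    intro z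
    rw [← Finset.prod_fiberwise' univ l z]
    simp
  simp only [h2]
  exact Integrable.fintype_prod (f := fun j (x : ℝ) => x ^ (univ.filter fun r => l r = j).card)
    fun j => integrable_pow_of_mem_interior_integrableExpSet (X := fun x : ℝ => x) (by simp) _

lemma gt_lin_pow (ξ z : I → ℝ) (k : ℕ) :
    (∑ i, ξ i * z i) ^ k = ∑ l : Fin k → I, (∏ r, ξ (l r)) * ∏ r, z (l r) := by
  classical
  rw [Fintype.sum_pow]
  simp only [Finset.prod_mul_distrib]

lemma gt_weak (μ : ℕ → Measure (I → ℝ)) [∀ n, IsProbabilityMeasure (μ n)]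
    (hi : ∀ (n : ℕ) (f : (I → ℝ) → ℝ), Integrable f (μ n))
    (h : ∀ (R : ℕ) (l : Fin R → I), Tendsto (fun n => ∫ z, ∏ r, z (l r) ∂μ n) atTop
      (𝓝 (∫ z, ∏ r, z (l r) ∂gtP I)))
    (f : (I → ℝ) → ℝ) (hc : Continuous f) (C : ℝ) (hb : ∀ z, |f z| ≤ C) :
    Tendsto (fun n => ∫ z, f z ∂μ n) atTop (𝓝 (∫ z, f z ∂gtP I)) := by
  classical
  let e : (I → ℝ) ≃ᵐ EuclideanSpace ℝ I := MeasurableEquiv.toLp 2 (I → ℝ)
  let P : ∀ (m : Measure (I → ℝ)) [IsProbabilityMeasure m],
      ProbabilityMeasure (EuclideanSpace ℝ I) := fun m _ =>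
    ⟨m.map e, Measure.isProbabilityMeasure_map e.measurable.aemeasurable⟩
  have hch : ∀ (m : Measure (I → ℝ)) [IsProbabilityMeasure m] (ξ : EuclideanSpace ℝ I),
      charFun (P m : Measure (EuclideanSpace ℝ I)) ξ =
        ∫ z, Complex.exp ((∑ i, ξ i * z i : ℝ) * Complex.I) ∂m := by
    intro m _ ξ
    change charFun (m.map e) ξ = _
    rw [charFun_apply, integral_map_equiv]
    simp [e, PiLp.inner_apply]
  have h1 : Tendsto (fun n => P (μ n)) atTop (𝓝 (P (gtP I))) := by
    refine ProbabilityMeasure.tendsto_of_tendsto_charFun fun ξ => ?_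
    simp only [hch]
    have hν : ∀ k : ℕ, ∀ l ∈ (univ : Finset (Fin k → I)),
        Integrable (fun z : I → ℝ => (∏ r, ξ (l r)) * ∏ r, z (l r)) (gtP I) :=
      fun k l _ => (gt_int_prod l).const_mul _
    refine gt_cf_lim μ (gtP I) (fun z => ∑ i, ξ i * z i) (by fun_prop) (fun n k => hi n _)
      (fun k => ?_) (fun c => ?_) fun k => ?_
    · simp only [gt_lin_pow]
      exact integrable_finsetSum _ (hν k)
    · simp only [Finset.mul_sum, Real.exp_sum, ← mul_assoc]
      exact Integrable.fintype_prod (f := fun i (x : ℝ) => Real.exp (c * ξ i * x))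
        fun i => integrable_exp_mul_gaussianReal _
    · simp only [gt_lin_pow]
      rw [integral_finsetSum _ (hν k)]
      simp only [fun n => integral_finsetSum (μ := μ n) (univ : Finset (Fin k → I))
        (f := fun l z => (∏ r, ξ (l r)) * ∏ r, z (l r)) fun l _ => hi n _, integral_const_mul]
      exact tendsto_finsetSum _ fun l _ => (h k l).const_mul _
  have h2 := ProbabilityMeasure.tendsto_iff_forall_integral_tendsto.1 h1
    (BoundedContinuousFunction.ofNormedAddCommGroup (fun x : EuclideanSpace ℝ I => f x.ofLp)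
      (hc.comp (PiLp.continuous_ofLp 2 _)) C fun x => hb _)
  have h3 : ∀ (m : Measure (I → ℝ)) [IsProbabilityMeasure m],
      ∫ x, f x.ofLp ∂(P m : Measure (EuclideanSpace ℝ I)) = ∫ z, f z ∂m := by
    intro m _
    change ∫ x, f x.ofLp ∂(m.map e) = _
    rw [integral_map_equiv]
    simp [e]
  simpa only [BoundedContinuousFunction.coe_ofNormedAddCommGroup, h3] using h2

theorem gt_trans (f : (I → ℝ) → ℝ) (hc : Continuous f) (C : ℝ) (hb : ∀ z, |f z| ≤ C)
    (ε : ℝ) (hε : 0 < ε) : ∃ (R : ℕ) (δ : ℝ), 0 < δ ∧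
      ∀ (Ω : Type) [Finite Ω] [Nonempty Ω] (y : Ω → I → ℝ),
        (∀ R' : ℕ, R' ≤ R → ∀ l : Fin R' → I, |(av fun w => ∏ r, y w (l r)) - pm l| ≤ δ) →
        av (fun w => f (y w)) ≤ ∫ z, f z ∂gtP I + ε := by
  by_contra hcon
  push Not at hcon
  choose Ω hf hn y h1 h2 using fun n : ℕ => hcon n (1 / ((n : ℝ) + 1)) (by positivity)
  have h3 := gt_weak (fun n => gtE (y n)) (fun n g => gtE_int (y n) g) (fun R l => by
    simp only [gtE_eq, ← gt_pm_eq]
    rw [tendsto_iff_dist_tendsto_zero]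
    refine squeeze_zero' (Eventually.of_forall fun n => dist_nonneg) ?_
      tendsto_one_div_add_atTop_nhds_zero_nat
    filter_upwards [eventually_ge_atTop R] with n hn using h1 n R hn l) f hc C hb
  simp only [gtE_eq] at h3
  obtain ⟨n, hn⟩ := (h3.eventually (gt_mem_nhds (lt_add_of_pos_right _ hε))).exists
  exact lt_asymm hn (h2 n)

end lim

end SD
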