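import Pool.Agent.Lib.MP_ecee09_co.SD.Base
import Pool.Agent.Lib.MP_ecee09_co.SD.CW

/-! Lattice freeze, part a: codimension, and systems of bilinear forms. -/

namespace SD.Lf

open Module

section cod
variable {V Y : Type} [AddCommGroup V] [Module F V] [Finite V] [AddCommGroup Y] [Module F Y]
  [Finite Y]

/-- codimension -/
noncomputable def cod (W : Submodule F V) : ℕ := finrank F V - finrank F W

lemma cod_mono {W W' : Submodule F V} (h : W ≤ W') : cod W' ≤ cod W := by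
  have := Submodule.finrank_mono h
  unfold cod; omega

lemma cod_inf (W W' : Submodule F V) : cod (W ⊓ W') ≤ cod W + cod W' := by
  have h1 := Submodule.finrank_sup_add_finrank_inf_eq W W'
  have h2 := Submodule.finrank_le (W ⊔ W')
  have h3 := Submodule.finrank_le W
  have h4 := Submodule.finrank_le W'
  unfold cod; omega

lemma cod_ker (L : V →ₗ[F] Y) : cod (LinearMap.ker L) ≤ finrank F Y := by
  have h1 := L.finrank_range_add_finrank_ker
  have h2 := Submodule.finrank_le (LinearMap.range L)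
  unfold cod; omega

lemma cod_comap (L : V →ₗ[F] Y) (W : Submodule F Y) : cod (W.comap L) ≤ cod W := by
  have h1 := (W.mkQ.comp L).finrank_range_add_finrank_ker
  have h2 := Submodule.finrank_le (LinearMap.range (W.mkQ.comp L))
  have h3 := W.finrank_quotient_add_finrank
  rw [LinearMap.ker_comp, Submodule.ker_mkQ] at h1
  unfold cod; omega

omit [Finite V] in
lemma cod_top : cod (⊤ : Submodule F V) = 0 := by
  unfold cod; rw [finrank_top]; omega

lemma cod_iInf {ι : Type} [Fintype ι] (W : ι → Submodule F V) (c : ℕ) (h : ∀ i, cod (W i) ≤ c) :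
    cod (⨅ i, W i) ≤ Fintype.card ι * c := by
  classical
  have key : ∀ s : Finset ι, cod (s.inf W) ≤ s.card * c := by
    intro s
    induction s using Finset.induction_on with
    | empty => simp [cod_top]
    | insert a s ha ih =>
      rw [Finset.inf_insert, Finset.card_insert_of_notMem ha]
      have := cod_inf (W a) (s.inf W)
      have := h a
      nlinarith
  have := key Finset.univ
  rwa [Finset.inf_univ_eq_iInf, Finset.card_univ] at this

lemma av_mem (W : Submodule F V) : av (fun u => ind (u ∈ W)) = 1 / 2 ^ cod W := by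
  have h1 : sm (fun u => ind (u ∈ W)) = Nat.card W := cnt_eq_card (W : Set V)
  have h2 := Submodule.finrank_le W
  rw [av_def, h1, card_eq_pow, card_eq_pow (X := V)]
  have h3 : finrank F V = finrank F W + cod W := by unfold cod; omega
  rw [h3]; push_cast; rw [pow_add]; field_simp

lemma av_coset (W : Submodule F V) (P : V → Prop) (h : ∀ u u', P u → P u' → u + u' ∈ W) :
    av (fun u => ind (P u)) ≤ 1 / 2 ^ cod W := by
  by_cases hP : ∃ u0, P u0
  · obtain ⟨u0, h0⟩ := hP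
    rw [← av_mem, ← av_add_right (fun u => ind (u ∈ W)) u0]
    exact av_mono fun u => ind_mono fun hu => h u u0 hu h0
  · have : ∀ u, ind (P u) = 0 := fun u => ind_neg fun hu => hP ⟨u, hu⟩
    simp only [this, av_zero]; positivity

end cod

section sys
variable {V J κ : Type} [AddCommGroup V] [Module F V] [Fintype J] [Fintype κ]

abbrev Bil (V : Type) [AddCommGroup V] [Module F V] : Type := V →ₗ[F] V →ₗ[F] F

/-- a combination of the forms -/
def fl (b : J → Bil V) (l : J → F) : Bil V := ∑ j, l j • b j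

lemma fl_apply (b : J → Bil V) (l : J → F) (u u' : V) : fl b l u u' = ∑ j, l j * b j u u' := by
  simp [fl, LinearMap.sum_apply]

/-- left radical on `V0` -/
def Rad (V0 : Submodule F V) (f : Bil V) : Submodule F V := V0 ⊓ V0.dualAnnihilator.comap f

lemma mem_Rad {V0 : Submodule F V} {f : Bil V} {u : V} :
    u ∈ Rad V0 f ↔ u ∈ V0 ∧ ∀ u' ∈ V0, f u u' = 0 := by
  simp [Rad, Submodule.mem_dualAnnihilator]

noncomputable def rk (V0 : Submodule F V) (b : J → Bil V) (l : J → F) : ℕ := cod (Rad V0 (fl b l))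

lemma rk_zero (V0 : Submodule F V) (b : J → Bil V) : rk V0 b 0 = cod V0 := by
  have : Rad V0 (fl b 0) = V0 := by
    ext u; simp [mem_Rad, fl_apply]
  rw [rk, this]

/-- the common radical of the combinations of small rank -/
def V1 (V0 : Submodule F V) (b : J → Bil V) (t : ℕ) : Submodule F V :=
  V0 ⊓ ⨅ l : {l : J → F // rk V0 b l ≤ t}, Rad V0 (fl b l.1)

lemma mem_V1 {V0 : Submodule F V} {b : J → Bil V} {t : ℕ} {u : V} :
    u ∈ V1 V0 b t ↔ u ∈ V0 ∧ ∀ l, rk V0 b l ≤ t → ∀ u' ∈ V0, fl b l u u' = 0 := by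
  simp only [V1, Submodule.mem_inf, Submodule.mem_iInf, mem_Rad, Subtype.forall]
  exact ⟨fun h => ⟨h.1, fun l hl => (h.2 l hl).2⟩, fun h => ⟨h.1, fun l hl => ⟨h.1, h.2 l hl⟩⟩⟩

def Frp (V0 : Submodule F V) (b : J → Bil V) (t : ℕ) (y : κ → V) : Prop :=
  (∀ a, y a ∈ V1 V0 b t) ∧ ∀ j a a', b j (y a) (y a') = 0

noncomputable def Nf (κ : Type) (V0 : Submodule F V) (b : J → Bil V) (t : ℕ) : ℝ :=
  av fun y : κ → V => ind (Frp V0 b t y)

noncomputable def Jf (V0 : Submodule F V) (b : J → Bil V) (t : ℕ) (y : κ → V) : ℝ :=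
  av fun y' : κ → V => ind (Frp V0 b t y' ∧ ∀ j a i, b j (y a) (y' i) = 0)

noncomputable def pL (κ : Type) (V0 : Submodule F V) (b : J → Bil V) (t : ℕ) : ℝ :=
  av fun L : κ → κ → J → F => ind (∀ i a, rk V0 b (L i a) ≤ t)

def gch (b : J → Bil V) (L : κ → κ → J → F) (y : κ → V) : κ → Dual F V :=
  fun i => ∑ a, fl b (L i a) (y a)

noncomputable def cf (V0 : Submodule F V) (b : J → Bil V) (t : ℕ) (g : κ → Dual F V) : ℝ :=
  av fun y' : κ → V => ind (Frp V0 b t y') * sg (∑ i, g i (y' i))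

def Bad (V0 : Submodule F V) (b : J → Bil V) (t : ℕ) (δ : ℝ) (y : κ → V) : Prop :=
  ∃ L : κ → κ → J → F, (∃ i a, t < rk V0 b (L i a)) ∧ δ * Nf κ V0 b t < |cf V0 b t (gch b L y)|

/-- `b'` agrees with `b` on vectors orthogonal to `y` -/
def Close (V0 : Submodule F V) (b b' : J → Bil V) (y : κ → V) : Prop :=
  ∀ u ∈ V0, (∀ j a, b j (y a) u = 0) → ∀ j, ∀ u' ∈ V0, b' j u u' = b j u u'

variable {V0 : Submodule F V} {b b' : J → Bil V} {t : ℕ} {y : κ → V}

omit [Fintype J] [Fintype κ] in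
lemma Close.orth (h : Close V0 b b' y) (h0 : ∀ a, y a ∈ V0) (h1 : ∀ j a a', b j (y a) (y a') = 0)
    (j : J) (a : κ) {u : V} (hu : u ∈ V0) : b' j (y a) u = b j (y a) u :=
  h (y a) (h0 a) (fun j a' => h1 j a' a) j u hu

omit [Fintype J] [Fintype κ] in
lemma Close.symm (h : Close V0 b b' y) (h0 : ∀ a, y a ∈ V0)
    (h1 : ∀ j a a', b j (y a) (y a') = 0) : Close V0 b' b y := fun u hu hz j u' hu' =>
  (h u hu (fun j a => by rw [← h.orth h0 h1 j a hu]; exact hz j a) j u' hu').symm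

omit [Fintype κ] in
lemma Close.fl_eq (h : Close V0 b b' y) {u : V} (hu : u ∈ V0) (hz : ∀ j a, b j (y a) u = 0)
    (l : J → F) {u' : V} (hu' : u' ∈ V0) : fl b' l u u' = fl b l u u' := by
  simp only [fl_apply, h u hu hz _ u' hu']

lemma Close.rk_le [Finite V] (h : Close V0 b b' y) (l : J → F) :
    rk V0 b' l ≤ rk V0 b l + Fintype.card J * Fintype.card κ := by
  let L : V →ₗ[F] (J × κ → F) := LinearMap.pi fun p => b p.1 (y p.2)
  have h1 : Rad V0 (fl b l) ⊓ LinearMap.ker L ≤ Rad V0 (fl b' l) := by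
    intro u hu
    obtain ⟨hu1, hu2⟩ := Submodule.mem_inf.1 hu
    rw [mem_Rad] at hu1 ⊢
    have hz : ∀ j a, b j (y a) u = 0 := fun j a => congrFun (LinearMap.mem_ker.1 hu2) (j, a)
    exact ⟨hu1.1, fun u' hu' => by rw [h.fl_eq hu1.1 hz l hu']; exact hu1.2 u' hu'⟩
  have h2 := cod_mono h1
  have h3 := cod_inf (Rad V0 (fl b l)) (LinearMap.ker L)
  have h4 := cod_ker L
  simp only [finrank_fintype_fun_eq_card, Fintype.card_prod] at h4
  unfold rk; omega

omit [Fintype κ] in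
lemma Close.frp (h : Close V0 b b' y) (hL : ∀ l, rk V0 b' l ≤ t ↔ rk V0 b l ≤ t) {y' : κ → V}
    (hy' : Frp V0 b t y') (hz : ∀ j a i, b j (y a) (y' i) = 0) : Frp V0 b' t y' := by
  have h0 : ∀ i, y' i ∈ V0 := fun i => (mem_V1.1 (hy'.1 i)).1
  refine ⟨fun i => mem_V1.2 ⟨h0 i, fun l hl u' hu' => ?_⟩, fun j i i' => ?_⟩
  · rw [h.fl_eq (h0 i) (fun j a => hz j a i) l hu']
    exact (mem_V1.1 (hy'.1 i)).2 l ((hL l).1 hl) u' hu'
  · rw [h _ (h0 i) (fun j a => hz j a i) j _ (h0 i')]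
    exact hy'.2 j i i'

omit [Fintype κ] in
lemma Close.Jf_eq (h : Close V0 b b' y) (hL : ∀ l, rk V0 b' l ≤ t ↔ rk V0 b l ≤ t)
    (hy : Frp V0 b t y) : Jf V0 b' t y = Jf V0 b t y := by
  have h0 : ∀ i, y i ∈ V0 := fun i => (mem_V1.1 (hy.1 i)).1
  refine av_congr fun y' => ind_congr ⟨fun h' => ?_, fun h' => ?_⟩
  · have h0' : ∀ i, y' i ∈ V0 := fun i => (mem_V1.1 (h'.1.1 i)).1
    exact ⟨(h.symm h0 hy.2).frp (fun l => (hL l).symm) h'.1 h'.2,
      fun j a i => by rw [← h.orth h0 hy.2 j a (h0' i)]; exact h'.2 j a i⟩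
  · have h0' : ∀ i, y' i ∈ V0 := fun i => (mem_V1.1 (h'.1.1 i)).1
    exact ⟨h.frp hL h'.1 h'.2, fun j a i => by rw [h.orth h0 hy.2 j a (h0' i)]; exact h'.2 j a i⟩

omit [Fintype κ] in
lemma pL_eq (hL : ∀ l, rk V0 b' l ≤ t ↔ rk V0 b l ≤ t) : pL κ V0 b' t = pL κ V0 b t :=
  av_congr fun L => ind_congr (by simp only [hL])

lemma pL_ge (h0 : cod V0 ≤ t) : 1 / (Nat.card (κ → κ → J → F) : ℝ) ≤ pL κ V0 b t := by
  have := av_ind_eq (0 : κ → κ → J → F) fun _ => (1 : ℝ)
  rw [← this]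
  refine av_mono fun L => ?_
  rw [mul_one]
  refine ind_mono fun hL i a => ?_
  rw [hL]
  exact (rk_zero V0 b).trans_le h0

variable [Finite V]

lemma Nf_nonneg : 0 ≤ Nf κ V0 b t := av_ind_nonneg _

lemma Jf_expand (V0 : Submodule F V) (b : J → Bil V) (t : ℕ) (y : κ → V) :
    Jf V0 b t y = av fun L : κ → κ → J → F => cf V0 b t (gch b L y) := by
  classical
  simp only [cf]
  rw [av_comm]
  refine av_congr fun y' => ?_
  rw [av_mul_left, ind_and]
  congr 1
  have e : ∀ L : κ → κ → J → F, ∑ i, gch b L y i (y' i) =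
      ∑ i, ∑ a, ∑ j, L i a j * b j (y a) (y' i) := by
    intro L
    simp only [gch, LinearMap.sum_apply, fl_apply]
  simp only [e]
  rw [av_sg]
  · refine ind_congr ⟨fun h L => by simp [h], fun h j a i => ?_⟩
    have := h (Pi.single i (Pi.single a (Pi.single j 1)))
    rw [Finset.sum_eq_single i, Finset.sum_eq_single a, Finset.sum_eq_single j] at this
    · simpa using this
    · intro j' _ hj; simp [hj]
    · simp
    · intro a' _ ha; simp [ha]
    · simp
    · intro i' _ hi; simp [hi]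
    · simp
  · intro L L'
    simp only [Pi.add_apply, add_mul, Finset.sum_add_distrib]

/-- `J` against `N` -/
lemma Jf_close {δ : ℝ} (hδ : 0 ≤ δ) (hy : ∀ a, y a ∈ V1 V0 b t) (hb : ¬ Bad V0 b t δ y) :
    |Jf V0 b t y - pL κ V0 b t * Nf κ V0 b t| ≤ δ * Nf κ V0 b t := by
  rw [Jf_expand, pL, ← av_mul_right, ← av_sub]
  refine (abs_av_le _).trans (av_le_const fun L => ?_)
  by_cases hL : ∀ i a, rk V0 b (L i a) ≤ t
  · have : cf V0 b t (gch b L y) = Nf κ V0 b t := by
      refine av_congr fun y' => ?_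
      by_cases hy' : Frp V0 b t y'
      · have h0 : ∑ i, gch b L y i (y' i) = 0 := by
          refine Finset.sum_eq_zero fun i _ => ?_
          simp only [gch, LinearMap.sum_apply]
          exact Finset.sum_eq_zero fun a _ =>
            (mem_V1.1 (hy a)).2 _ (hL i a) _ (mem_V1.1 (hy'.1 i)).1
        rw [h0, sg_zero, mul_one]
      · rw [ind_neg hy', zero_mul]
    rw [this, ind_pos hL, one_mul, sub_self, abs_zero]
    exact mul_nonneg hδ Nf_nonneg
  · rw [ind_neg hL, zero_mul, sub_zero]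
    by_contra hc
    refine hb ⟨L, ?_, not_le.1 hc⟩
    by_contra h2
    exact hL fun i a => not_lt.1 fun h3 => h2 ⟨i, a, h3⟩

/-- the counts at two close systems agree -/
lemma Nf_ratio {ε : ℝ} (hε : 0 ≤ ε) (hε1 : ε ≤ 1) (h : Close V0 b b' y)
    (hL : ∀ l, rk V0 b' l ≤ t ↔ rk V0 b l ≤ t) (h0 : cod V0 ≤ t) (hy : Frp V0 b t y)
    (hb : ¬ Bad V0 b t (ε / 3 / Nat.card (κ → κ → J → F)) y)
    (hb' : ¬ Bad V0 b' t (ε / 3 / Nat.card (κ → κ → J → F)) y) :
    Nf κ V0 b' t ≤ (1 + ε) * Nf κ V0 b t := by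
  have hc := card_pos' (α := κ → κ → J → F)
  have hδ : 0 ≤ ε / 3 / Nat.card (κ → κ → J → F) := by positivity
  have h1 := Jf_close hδ hy.1 hb
  have h2 := Jf_close hδ (h.frp hL hy hy.2).1 hb'
  rw [h.Jf_eq hL hy, pL_eq hL] at h2
  have h3 := pL_ge (κ := κ) (b := b) h0
  have h4 : ε / 3 / Nat.card (κ → κ → J → F) ≤ ε / 3 * pL κ V0 b t := by
    rw [div_eq_mul_one_div (ε / 3)]
    exact mul_le_mul_of_nonneg_left h3 (by positivity)
  have hp : 0 < pL κ V0 b t := lt_of_lt_of_le (by positivity) h3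
  have hN := Nf_nonneg (κ := κ) (V0 := V0) (b := b) (t := t)
  have hN' := Nf_nonneg (κ := κ) (V0 := V0) (b := b') (t := t)
  generalize ε / 3 / Nat.card (κ → κ → J → F) = δ at *
  generalize pL κ V0 b t = p at *
  generalize Nf κ V0 b t = N at *
  generalize Nf κ V0 b' t = N' at *
  have h5 := (abs_le.1 h1).2
  have h6 := (abs_le.1 h2).1
  have h7 : δ * N ≤ ε / 3 * p * N := mul_le_mul_of_nonneg_right h4 hN
  have h8 : δ * N' ≤ ε / 3 * p * N' := mul_le_mul_of_nonneg_right h4 hN'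
  have h9 : p * ((1 - ε / 3) * N') ≤ p * ((1 + ε / 3) * N) := by nlinarith
  have h10 : (1 - ε / 3) * N' ≤ (1 + ε / 3) * N := le_of_mul_le_mul_left h9 hp
  have h11 : (1 - ε / 3) * N' ≤ (1 - ε / 3) * ((1 + ε) * N) := by
    refine h10.trans ?_
    have : 0 ≤ ε * (1 - ε) * N := by
      have : 0 ≤ 1 - ε := by linarith
      positivity
    nlinarith
  exact le_of_mul_le_mul_left h11 (by linarith)

end sys

end SD.Lf
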