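import Pool.Agent.Lib.MP_ecee09_co.SD.LFa

/-! Lattice freeze, part b: the count `N` is bounded below, and bad tuples are rare. -/

namespace SD.Lf

open Module

variable {V J κ : Type} [AddCommGroup V] [Module F V] [Finite V] [Fintype J] [Fintype κ]
variable {V0 : Submodule F V} {b : J → Bil V} {t : ℕ}

lemma cod_V1 (V0 : Submodule F V) (b : J → Bil V) (t : ℕ) :
    cod (V1 V0 b t) ≤ cod V0 + Nat.card (J → F) * t := by
  classical
  let _ := Fintype.ofFinite {l : J → F // rk V0 b l ≤ t}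
  have h1 := cod_inf V0 (⨅ l : {l : J → F // rk V0 b l ≤ t}, Rad V0 (fl b l.1))
  have h2 := cod_iInf (fun l : {l : J → F // rk V0 b l ≤ t} => Rad V0 (fl b l.1)) t fun l => l.2
  have h3 : Fintype.card {l : J → F // rk V0 b l ≤ t} ≤ Nat.card (J → F) := by
    rw [← Nat.card_eq_fintype_card]
    exact Nat.card_le_card_of_injective _ Subtype.val_injective
  have h4 := Nat.mul_le_mul_right t h3
  unfold V1; omega

/-- the exponent in the lower bound for `N` -/
noncomputable def cN (J κ : Type) [Fintype J] [Fintype κ] (R t : ℕ) : ℕ :=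
  Fintype.card κ * (R + Nat.card (J → F) * t) + 2 * Fintype.card (J × κ × κ)

lemma Nf_ge {R : ℕ} (h0 : cod V0 ≤ R) : 1 / 2 ^ cN J κ R t ≤ Nf κ V0 b t := by
  classical
  let S : Submodule F (κ → V) := ⨅ a : κ, (V1 V0 b t).comap (LinearMap.proj a)
  have hS : ∀ y : κ → V, y ∈ S ↔ ∀ a, y a ∈ V1 V0 b t := fun y => by
    simp [S, Submodule.mem_iInf]
  have h1 : cod S ≤ Fintype.card κ * (R + Nat.card (J → F) * t) :=
    cod_iInf _ _ fun a => (cod_comap _ _).trans ((cod_V1 V0 b t).trans (by omega))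
  have h2 := card_le_zeros_deg (V := S) (ι := J × κ × κ) 2
    (fun p y => b p.1 (((LinearMap.proj p.2.1).comp S.subtype) y)
      (((LinearMap.proj p.2.2).comp S.subtype) y))
    (fun p => DegLt.bilin _ _ _) 0 (fun p => by simp)
  have h3 : Nat.card {y : S // ∀ p : J × κ × κ,
      b p.1 (((LinearMap.proj p.2.1).comp S.subtype) y)
        (((LinearMap.proj p.2.2).comp S.subtype) y) = 0} ≤
      Nat.card {y : κ → V | Frp V0 b t y} := by
    refine Nat.card_le_card_of_injective
      (fun y => ⟨y.1.1, (hS _).1 y.1.2, fun j a a' => y.2 (j, a, a')⟩) ?_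
    intro y y' h
    have h' := congrArg (fun z : {y : κ → V | Frp V0 b t y} => (z : κ → V)) h
    exact Subtype.ext (Subtype.ext h')
  have h4 : Nf κ V0 b t = Nat.card {y : κ → V | Frp V0 b t y} / Nat.card (κ → V) := by
    rw [Nf, av_def, ← cnt_eq_card]; rfl
  have h5 := av_mem S
  have h6 : sm (fun u => ind (u ∈ S)) = Nat.card S := cnt_eq_card (S : Set (κ → V))
  rw [av_def, h6] at h5
  have hc := card_pos' (α := κ → V)
  have h7 : (Nat.card S : ℝ) ≤
      2 ^ (2 * Fintype.card (J × κ × κ)) * Nat.card {y : κ → V | Frp V0 b t y} := by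
    exact_mod_cast h2.trans (Nat.mul_le_mul_left _ h3)
  have h8 : (1 : ℝ) / 2 ^ (Fintype.card κ * (R + Nat.card (J → F) * t)) ≤ 1 / 2 ^ cod S :=
    one_div_le_one_div_of_le (by positivity) (pow_le_pow_right₀ (by norm_num) h1)
  rw [← h5, le_div_iff₀ hc] at h8
  rw [h4, cN, pow_add, le_div_iff₀ hc]
  have h9 : (0 : ℝ) < 2 ^ (2 * Fintype.card (J × κ × κ)) := by positivity
  calc 1 / (2 ^ (Fintype.card κ * (R + Nat.card (J → F) * t)) *
          2 ^ (2 * Fintype.card (J × κ × κ))) * (Nat.card (κ → V) : ℝ)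
      = (1 / 2 ^ (Fintype.card κ * (R + Nat.card (J → F) * t)) * (Nat.card (κ → V) : ℝ)) /
          2 ^ (2 * Fintype.card (J × κ × κ)) := by field_simp
    _ ≤ _ := by
      rw [div_le_iff₀ h9]
      linarith

lemma cf_parseval (V0 : Submodule F V) (b : J → Bil V) (t : ℕ) :
    sm (fun g : κ → Dual F V => cf V0 b t g ^ 2) = Nf κ V0 b t := by
  classical
  have h := pair_parseval (X := κ → V) (Y := κ → Dual F V) (fun y g => ∑ i, g i (y i))
    (fun y y' g => by simp [Finset.sum_add_distrib])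
    (fun y g g' => by simp [Finset.sum_add_distrib])
    (fun y hy => by
      funext i
      refine (Module.forall_dual_apply_eq_zero_iff F (y i)).1 fun φ => ?_
      have := hy (Pi.single i φ)
      rw [Finset.sum_eq_single i] at this
      · simpa using this
      · intro i' _ hi; simp [hi]
      · simp)
    (by rw [Nat.card_fun, Nat.card_fun, card_dual])
    (fun y => ind (Frp V0 b t y)) (fun y => ind (Frp V0 b t y))
  simp only [ind_mul_self] at h
  simp only [sq]
  exact h

lemma spec_le {δ : ℝ} (hδ : 0 < δ) (hN : 0 < Nf κ V0 b t) :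
    sm (fun g : κ → Dual F V => ind (δ * Nf κ V0 b t < |cf V0 b t g|)) ≤
      1 / (δ ^ 2 * Nf κ V0 b t) := by
  have h1 : ∀ g : κ → Dual F V, ind (δ * Nf κ V0 b t < |cf V0 b t g|) ≤
      cf V0 b t g ^ 2 / (δ * Nf κ V0 b t) ^ 2 := by
    intro g
    by_cases hg : δ * Nf κ V0 b t < |cf V0 b t g|
    · rw [ind_pos hg, le_div_iff₀ (by positivity), one_mul, ← sq_abs (cf V0 b t g)]
      exact pow_le_pow_left₀ (by positivity) hg.le 2
    · rw [ind_neg hg]; positivity
  refine (sm_mono h1).trans ?_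
  rw [sm_div, cf_parseval]
  apply le_of_eq
  field_simp

lemma gch_spread (V0 : Submodule F V) (b : J → Bil V) (L : κ → κ → J → F) (i0 a0 : κ)
    (g : κ → Dual F V) :
    av (fun y : κ → V => ind ((∀ a, y a ∈ V0) ∧ gch b L y = g)) ≤ 1 / 2 ^ rk V0 b (L i0 a0) := by
  classical
  rw [← av_shift (fun y : κ → V => ind ((∀ a, y a ∈ V0) ∧ gch b L y = g))
    (fun u : V => Pi.single a0 u)]
  refine av_le_const fun y => av_coset _ _ fun u u' hu hu' => ?_
  have e : ∀ u : V, gch b L (y + Pi.single a0 u) i0 = gch b L y i0 + fl b (L i0 a0) u := by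
    intro u
    simp only [gch, Pi.add_apply, map_add, Finset.sum_add_distrib]
    congr 1
    rw [Finset.sum_eq_single a0]
    · simp
    · intro a _ ha; simp [ha]
    · simp
  have h1 := congrFun hu.2 i0
  have h2 := congrFun hu'.2 i0
  rw [e] at h1 h2
  have h3 : fl b (L i0 a0) u = fl b (L i0 a0) u' := add_left_cancel (h1.trans h2.symm)
  have h4 := V0.add_mem (hu.1 a0) (hu'.1 a0)
  simp only [Pi.add_apply, Pi.single_eq_same] at h4
  rw [add_add_add_comm, add_self2, zero_add] at h4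
  refine mem_Rad.2 ⟨h4, fun w _ => ?_⟩
  rw [map_add, h3, add_self2]; rfl

/-- bad tuples are rare under a gap in the ranks -/
lemma bad_rare {δ : ℝ} (hδ : 0 < δ) {R F' : ℕ} (h0 : cod V0 ≤ R)
    (hg : ∀ l, rk V0 b l ≤ t ∨ F' ≤ rk V0 b l) :
    av (fun y : κ → V => ind ((∀ a, y a ∈ V0) ∧ Bad V0 b t δ y)) ≤
      Nat.card (κ → κ → J → F) * (2 ^ cN J κ R t / δ ^ 2) / 2 ^ F' := by
  have hN0 := Nf_ge (κ := κ) (b := b) (t := t) h0
  have hN : 0 < Nf κ V0 b t := lt_of_lt_of_le (by positivity) hN0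
  have h1 : ∀ y : κ → V, ind ((∀ a, y a ∈ V0) ∧ Bad V0 b t δ y) ≤
      sm fun L : κ → κ → J → F => sm fun g : κ → Dual F V =>
        ind (δ * Nf κ V0 b t < |cf V0 b t g|) *
          ind ((∃ i a, t < rk V0 b (L i a)) ∧ (∀ a, y a ∈ V0) ∧ gch b L y = g) := by
    intro y
    simp only [← ind_and]
    refine le_trans (ind_mono ?_) ((ind_exists_le _).trans (sm_mono fun L => ind_exists_le _))
    rintro ⟨hy, L, hL, hb⟩
    exact ⟨L, gch b L y, hb, hL, hy, rfl⟩
  refine (av_mono h1).trans ?_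
  rw [av_sm_comm]
  have h2 : ∀ L : κ → κ → J → F, (av fun y : κ → V => sm fun g : κ → Dual F V =>
        ind (δ * Nf κ V0 b t < |cf V0 b t g|) *
          ind ((∃ i a, t < rk V0 b (L i a)) ∧ (∀ a, y a ∈ V0) ∧ gch b L y = g)) ≤
      2 ^ cN J κ R t / δ ^ 2 / 2 ^ F' := by
    intro L
    rw [av_sm_comm]
    have h3 : ∀ g : κ → Dual F V, (av fun y : κ → V => ind (δ * Nf κ V0 b t < |cf V0 b t g|) *
          ind ((∃ i a, t < rk V0 b (L i a)) ∧ (∀ a, y a ∈ V0) ∧ gch b L y = g)) ≤
        ind (δ * Nf κ V0 b t < |cf V0 b t g|) * (1 / 2 ^ F') := by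
      intro g
      rw [av_mul_left]
      refine mul_le_mul_of_nonneg_left ?_ (ind_nonneg _)
      by_cases hL : ∃ i a, t < rk V0 b (L i a)
      · obtain ⟨i, a, hia⟩ := hL
        refine le_trans (av_mono fun y => ind_mono fun h => h.2) ((gch_spread V0 b L i a g).trans ?_)
        refine one_div_le_one_div_of_le (by positivity) (pow_le_pow_right₀ (by norm_num) ?_)
        have := hg (L i a)
        omega
      · have : ∀ y : κ → V, ind ((∃ i a, t < rk V0 b (L i a)) ∧ (∀ a, y a ∈ V0) ∧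
            gch b L y = g) = 0 := fun y => ind_neg fun h => hL h.1
        simp only [this, av_zero]; positivity
    refine (sm_mono h3).trans ?_
    rw [sm_mul_right, ← div_eq_mul_one_div]
    refine div_le_div_of_nonneg_right ((spec_le hδ hN).trans ?_) (by positivity)
    rw [div_le_div_iff₀ (by positivity) (by positivity), one_mul]
    rw [div_le_iff₀ (by positivity)] at hN0
    have : 0 < δ ^ 2 := by positivity
    nlinarith
  refine (sm_mono h2).trans ?_
  rw [sm_const, mul_div_assoc]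

end SD.Lf
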