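import Pool.Agent.Lib.MP_ecee09_co.SD.LFb

/-! Lattice freeze, part c: the system of forms attached to a linear map `T`, and how it moves
along a cell. -/

namespace SD.Lf

open Module

variable {V X ι U : Type} [AddCommGroup V] [Module F V] [AddCommGroup X] [Module F X]
  [AddCommGroup U] [Module F U] [Fintype ι] [DecidableEq ι]

lemma exists_sec {W : Type} [AddCommGroup W] [Module F W] (T : X →ₗ[F] W) :
    ∃ σ : W →ₗ[F] X, ∀ h, T (σ (T h)) = T h := by
  obtain ⟨s, hs⟩ := T.rangeRestrict.exists_rightInverse_of_surjective T.range_rangeRestrict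
  obtain ⟨σ, hσ⟩ := LinearMap.exists_extend s
  refine ⟨σ, fun h => ?_⟩
  have h1 : σ (T h) = s (T.rangeRestrict h) := by rw [← hσ]; rfl
  have h2 := congrArg Subtype.val (LinearMap.congr_fun hs (T.rangeRestrict h))
  rw [h1]
  exact h2

/-- a generalized inverse -/
noncomputable def sec {W : Type} [AddCommGroup W] [Module F W] (T : X →ₗ[F] W) : W →ₗ[F] X :=
  (exists_sec T).choose

lemma sec_spec {W : Type} [AddCommGroup W] [Module F W] (T : X →ₗ[F] W) {w : W}
    (hw : ∃ h, T h = w) : T (sec T w) = w := by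
  obtain ⟨h, rfl⟩ := hw
  exact (exists_sec T).choose_spec h

/-- the evaluation of the labels of the kernel -/
def kev (vv : X →ₗ[F] ι → Dual F V) (K : Submodule F X) : V →ₗ[F] ι → Dual F K :=
  LinearMap.pi fun l => (((LinearMap.proj l).comp vv).comp K.subtype).flip

def W0 (vv : X →ₗ[F] ι → Dual F V) (T : X →ₗ[F] ι → V) : Submodule F V :=
  (⨅ i, (LinearMap.range T).comap (LinearMap.single F (fun _ => V) i)) ⊓
    LinearMap.ker (kev vv (LinearMap.ker T))

omit [Fintype ι] in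
lemma mem_W0 {vv : X →ₗ[F] ι → Dual F V} {T : X →ₗ[F] ι → V} {u : V} :
    u ∈ W0 vv T ↔ (∀ i, ∃ h, T h = Pi.single i u) ∧ ∀ h, T h = 0 → ∀ l, vv h l u = 0 := by
  simp only [W0, Submodule.mem_inf, Submodule.mem_iInf, Submodule.mem_comap, LinearMap.mem_range,
    LinearMap.coe_single, LinearMap.mem_ker]
  refine and_congr Iff.rfl ⟨fun h x hx l => ?_, fun h => ?_⟩
  · exact LinearMap.congr_fun (congrFun h l) ⟨x, hx⟩
  · funext l
    exact LinearMap.ext fun x => h x.1 x.2 l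

noncomputable def aa (vv : X →ₗ[F] ι → Dual F V) (T : X →ₗ[F] ι → V) (i l : ι) : Bil V :=
  ((LinearMap.proj l).comp vv).comp ((sec T).comp (LinearMap.single F (fun _ => V) i))

omit [Fintype ι] in
lemma aa_apply (vv : X →ₗ[F] ι → Dual F V) (T : X →ₗ[F] ι → V) (i l : ι) (u u' : V) :
    aa vv T i l u u' = vv (sec T (Pi.single i u)) l u' := rfl

/-- the forms and their transposes -/
noncomputable def bb (vv : X →ₗ[F] ι → Dual F V) (T : X →ₗ[F] ι → V) :
    (ι × ι) ⊕ (ι × ι) → Bil V :=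
  Sum.elim (fun p => aa vv T p.1 p.2) fun p => (aa vv T p.1 p.2).flip

variable {vv : X →ₗ[F] ι → Dual F V} {T T' : X →ₗ[F] ι → V}

lemma key (h : X) (l : ι) {u' : V} (hu' : u' ∈ W0 vv T) :
    vv h l u' = ∑ i, aa vv T i l (T h i) u' := by
  have h1 : T (h + sec T (T h)) = 0 := by rw [map_add, sec_spec T ⟨h, rfl⟩, add_self2]
  have h2 := (mem_W0.1 hu').2 _ h1 l
  rw [map_add, Pi.add_apply, LinearMap.add_apply, add_eq_zero2] at h2
  rw [h2]
  conv_lhs => rw [← Finset.univ_sum_single (T h)]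
  simp only [map_sum, Finset.sum_apply, LinearMap.sum_apply, aa_apply]

lemma key_single {h : X} {i : ι} {u : V} (hh : T h = Pi.single i u) (l : ι) {u' : V}
    (hu' : u' ∈ W0 vv T) : vv h l u' = aa vv T i l u u' := by
  rw [key h l hu', hh, Finset.sum_eq_single i]
  · simp
  · intro i' _ hi; simp [hi]
  · simp

/-- `T'` is a neighbour of `T` along `Phi` -/
def Nb (vv : X →ₗ[F] ι → Dual F V) (T T' : X →ₗ[F] ι → V) (Φ : U →ₗ[F] V) : Prop :=
  (∀ h i, ∃ x, T' h i = T h i + Φ x) ∧ ∀ h, (∀ l x, vv h l (Φ x) = 0) → T' h = T h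

/-- the image of `Phi` lies in `W0` and all forms vanish on it -/
def Iso (vv : X →ₗ[F] ι → Dual F V) (T : X →ₗ[F] ι → V) (Φ : U →ₗ[F] V) : Prop :=
  (∀ x, Φ x ∈ W0 vv T) ∧ ∀ i l x x', aa vv T i l (Φ x) (Φ x') = 0

variable {Φ : U →ₗ[F] V}

lemma Iso.fr (hI : Iso vv T Φ) {h : X} (hh : ∀ i, ∃ x, T h i = Φ x) (l : ι) (x : U) :
    vv h l (Φ x) = 0 := by
  rw [key h l (hI.1 x)]
  refine Finset.sum_eq_zero fun i _ => ?_
  obtain ⟨x', hx'⟩ := hh i
  rw [hx']; exact hI.2 i l x' x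

lemma Iso.eq (hI : Iso vv T Φ) (hN : Nb vv T T' Φ) {h : X} (hh : ∀ i, ∃ x, T h i = Φ x) :
    T' h = T h := hN.2 h (hI.fr hh)

lemma Iso.eq' (hI : Iso vv T Φ) (hN : Nb vv T T' Φ) {h : X} (hh : ∀ i, ∃ x, T' h i = Φ x) :
    T' h = T h := by
  refine hI.eq hN fun i => ?_
  obtain ⟨x, hx⟩ := hh i
  obtain ⟨x', hx'⟩ := hN.1 h i
  refine ⟨x + x', ?_⟩
  rw [map_add, ← hx, hx', add_assoc, add_self2, add_zero]

lemma Iso.both (hI : Iso vv T Φ) (hN : Nb vv T T' Φ) (x : ι → U) :
    ∃ h, T h = (fun i => Φ (x i)) ∧ T' h = fun i => Φ (x i) := by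
  choose g hg using fun i => (mem_W0.1 (hI.1 (x i))).1 i
  have h1 : T (∑ i, g i) = fun i => Φ (x i) := by
    rw [map_sum]; simp only [hg]; exact Finset.univ_sum_single _
  exact ⟨_, h1, by rw [hI.eq hN fun i => ⟨x i, congrFun h1 i⟩, h1]⟩

lemma Iso.ker_iff (hI : Iso vv T Φ) (hN : Nb vv T T' Φ) (h : X) : T' h = 0 ↔ T h = 0 :=
  ⟨fun h0 => by rw [← hI.eq' hN fun i => ⟨0, by simp [h0]⟩, h0],
    fun h0 => by rw [hI.eq hN fun i => ⟨0, by simp [h0]⟩, h0]⟩

lemma Iso.range_iff (hI : Iso vv T Φ) (hN : Nb vv T T' Φ) (w : ι → V) :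
    (∃ h, T' h = w) ↔ ∃ h, T h = w := by
  constructor
  · rintro ⟨h, rfl⟩
    choose x hx using hN.1 h
    obtain ⟨g, hg, -⟩ := hI.both hN x
    exact ⟨h + g, by rw [map_add, hg]; funext i; exact (hx i).symm⟩
  · rintro ⟨h, rfl⟩
    choose x hx using hN.1 h
    obtain ⟨g, -, hg⟩ := hI.both hN x
    refine ⟨h + g, ?_⟩
    rw [map_add, hg]; funext i
    simp only [Pi.add_apply, hx i]
    rw [add_assoc, add_self2, add_zero]

lemma Iso.range_eq (hI : Iso vv T Φ) (hN : Nb vv T T' Φ) :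
    LinearMap.range T' = LinearMap.range T := by
  ext w; exact hI.range_iff hN w

lemma Iso.W0_eq (hI : Iso vv T Φ) (hN : Nb vv T T' Φ) : W0 vv T' = W0 vv T := by
  ext u; simp only [mem_W0, hI.range_iff hN, hI.ker_iff hN]

lemma Iso.aa_left (hI : Iso vv T Φ) (hN : Nb vv T T' Φ) {u u' : V} (hu : u ∈ W0 vv T)
    (hu' : u' ∈ W0 vv T) (i l : ι) (hz : ∀ l x, aa vv T i l u (Φ x) = 0) :
    aa vv T' i l u u' = aa vv T i l u u' := by
  have h1 : T (sec T (Pi.single i u)) = Pi.single i u := sec_spec T ((mem_W0.1 hu).1 i)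
  have h2 : T' (sec T (Pi.single i u)) = Pi.single i u := by
    rw [hN.2 (sec T (Pi.single i u)) hz, h1]
  rw [← key_single h2 l (by rw [hI.W0_eq hN]; exact hu'), aa_apply]

lemma Iso.aa_right (hI : Iso vv T Φ) (hN : Nb vv T T' Φ) {u u' : V} (hu : u ∈ W0 vv T)
    (hu' : u' ∈ W0 vv T) (i l : ι) (hz : ∀ i x, aa vv T i l (Φ x) u = 0) :
    aa vv T' i l u' u = aa vv T i l u' u := by
  have h1 : T' (sec T' (Pi.single i u')) = Pi.single i u' :=
    sec_spec T' ((hI.range_iff hN _).2 ((mem_W0.1 hu').1 i))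
  rw [aa_apply, key _ l hu]
  have h2 : ∀ i', aa vv T i' l (T (sec T' (Pi.single i u')) i') u =
      aa vv T i' l ((Pi.single i u' : ι → V) i') u := by
    intro i'
    obtain ⟨x, hx⟩ := hN.1 (sec T' (Pi.single i u')) i'
    rw [h1] at hx
    rw [hx, map_add, LinearMap.add_apply, hz, add_zero]
  simp only [h2]
  rw [Finset.sum_eq_single i]
  · simp
  · intro i' _ hi; simp [hi]
  · simp

variable [Finite V] [Finite X] [Finite U]

lemma cod_W0 {C' : ℕ} (hX : finrank F X ≤ C' + finrank F (ι → V)) :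
    cod (W0 vv T) ≤ Fintype.card ι * (2 * cod (LinearMap.range T) + C') := by
  have h1 := cod_iInf (fun i => (LinearMap.range T).comap (LinearMap.single F (fun _ => V) i))
    (cod (LinearMap.range T)) fun i => cod_comap _ _
  have h2 := cod_ker (kev vv (LinearMap.ker T))
  have h3 := cod_inf (⨅ i, (LinearMap.range T).comap (LinearMap.single F (fun _ => V) i))
    (LinearMap.ker (kev vv (LinearMap.ker T)))
  have h4 := T.finrank_range_add_finrank_ker
  have h5 := Submodule.finrank_le (LinearMap.range T)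
  have h6 : finrank F (LinearMap.ker T) ≤ cod (LinearMap.range T) + C' := by unfold cod; omega
  have h7 : finrank F (ι → Dual F (LinearMap.ker T)) =
      Fintype.card ι * finrank F (LinearMap.ker T) := by
    rw [Module.finrank_pi_fintype]
    simp [Subspace.dual_finrank_eq]
  have h8 := Nat.mul_le_mul_left (Fintype.card ι) h6
  unfold W0
  nlinarith

omit [DecidableEq ι] [Finite X] in
lemma Nb.cod_le (hN : Nb vv T T' Φ) :
    cod (LinearMap.range T) ≤ cod (LinearMap.range T') + Fintype.card ι * finrank F U := by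
  have h1 : LinearMap.range T' ≤ LinearMap.range T ⊔ LinearMap.range (Φ.compLeft ι) := by
    rintro _ ⟨h, rfl⟩
    choose x hx using hN.1 h
    refine Submodule.mem_sup.2 ⟨T h, ⟨h, rfl⟩, Φ.compLeft ι x, ⟨x, rfl⟩, ?_⟩
    funext i; exact (hx i).symm
  have h2 := Submodule.finrank_mono h1
  have h3 := Submodule.finrank_add_le_finrank_add_finrank (LinearMap.range T)
    (LinearMap.range (Φ.compLeft ι))
  have h4 := (Φ.compLeft ι).finrank_range_add_finrank_ker
  have h5 : finrank F (ι → U) = Fintype.card ι * finrank F U := by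
    rw [Module.finrank_pi_fintype]; simp
  have h6 := Submodule.finrank_le (LinearMap.range T')
  unfold cod; omega

end SD.Lf
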