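import Pool.Agent.Lib.MP_ecee09_co.SD.LFc
import Pool.Agent.Lib.MP_ecee09_co.SD.FamB

/-! Lattice freeze, part d: the data at a point `M`, and how it moves along a cell. -/

namespace SD.Lf

open Module

section mvs
variable {U V : Type} [AddCommGroup U] [Module F U] [AddCommGroup V] [Module F V]

lemma dext {x y : V} (h : ∀ l : Dual F V, l x = l y) : x = y := by
  rw [← sub_eq_zero, ← Module.forall_dual_apply_eq_zero_iff F]
  intro l
  rw [map_sub, h, sub_self]

variable [Finite V] [Finite U]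

lemma mv_sp (M : G V) (v y : Dual F V) : y (mv M v) = M (QuadraticMap.linMulLin y v) := by
  rw [mv, apply_evalEquiv_symm_apply]
  rfl

lemma dg_sp (M : G V) (y : Dual F V) : y (dg M) = M (QuadraticMap.linMulLin y y) := by
  rw [dg, apply_evalEquiv_symm_apply]
  rfl

lemma mv_pu (M : G V) (Φ : U →ₗ[F] V) (B : G U) (v : Dual F V) :
    mv (M + push Φ B) v = mv M v + Φ (mv B (v.comp Φ)) := by
  refine dext fun y => ?_
  rw [map_add, mv_sp, mv_sp, ← LinearMap.comp_apply y Φ, mv_sp]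
  rfl

lemma dg_pu (M : G V) (Φ : U →ₗ[F] V) (B : G U) : dg (M + push Φ B) = dg M + Φ (dg B) := by
  refine dext fun y => ?_
  rw [map_add, dg_sp, dg_sp, ← LinearMap.comp_apply y Φ, dg_sp]
  rfl

lemma mv_ad (M : G V) (v w : Dual F V) : mv M (v + w) = mv M v + mv M w := by
  refine dext fun y => ?_
  rw [map_add, mv_sp, mv_sp, mv_sp, ← map_add]
  congr 1
  ext x
  simp [QuadraticMap.linMulLin_apply]

lemma mv_ze (M : G V) : mv M 0 = 0 := by simpa using mv_ad M 0 0

lemma TM_add {ρ : ℕ} (M : G V) (h h' : Pt ρ V) : TM M (h + h') = TM M h + TM M h' := by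
  funext i
  simp only [TM, Prod.fst_add, Prod.snd_add, Pi.add_apply, mv_ad]
  abel

lemma TM_pu {ρ : ℕ} (M : G V) (Φ : U →ₗ[F] V) (B : G U) (h : Pt ρ V) (i : Fin ρ) :
    TM (M + push Φ B) h i = TM M h i + Φ (mv B ((h.1 i).comp Φ)) := by
  simp only [TM, mv_pu]; abel

end mvs

section tuples
variable {V : Type} [AddCommGroup V] [Module F V] {k : ℕ}

/-- the images of the basis vectors -/
def yv (Φ : Hom k V) : Fin k → V := fun a => Φ (Pi.single a 1)

lemma yv_sum (Φ : Hom k V) (x : Fk k) : Φ x = ∑ a, x a • yv Φ a := by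
  conv_lhs => rw [pi_eq_sum_univ' x]
  simp only [map_sum, map_smul, yv]

lemma yv_zero {Φ : Hom k V} {φ : Dual F V} (h : ∀ a, φ (yv Φ a) = 0) (x : Fk k) : φ (Φ x) = 0 := by
  rw [yv_sum]; simp [h]

lemma yv_mem {Φ : Hom k V} {W : Submodule F V} (h : ∀ a, yv Φ a ∈ W) (x : Fk k) : Φ x ∈ W := by
  rw [yv_sum]; exact W.sum_mem fun a _ => W.smul_mem _ (h a)

lemma av_yv [Finite V] (f : (Fin k → V) → ℝ) : av (fun Φ : Hom k V => f (yv Φ)) = av f :=
  av_surj yv (fun _ _ => rfl) (fun y => ⟨lin y, by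
    funext a; simp [yv, lin, Fintype.linearCombination_apply_single]⟩) f

lemma noninj [Finite V] :
    av (fun Φ : Hom k V => ind (¬ Function.Injective Φ)) ≤ 2 ^ k / 2 ^ finrank F V := by
  have h1 : ∀ Φ : Hom k V, ind (¬ Function.Injective Φ) ≤
      sm fun x : Fk k => ind (x ≠ 0 ∧ Φ x = 0) := fun Φ => by
    refine le_trans (ind_mono fun h => ?_) (ind_exists_le _)
    by_contra hc
    exact h ((injective_iff_map_eq_zero _).2 fun l hl => by_contra fun h0 => hc ⟨l, h0, hl⟩)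
  refine (av_mono h1).trans ?_
  rw [av_sm_comm]
  have h2 : ∀ x : Fk k, av (fun Φ : Hom k V => ind (x ≠ 0 ∧ Φ x = 0)) ≤ 1 / 2 ^ finrank F V := by
    intro x
    by_cases h0 : x = 0
    · simp only [h0, ne_eq, not_true_eq_false, false_and, ind_neg not_false, av_zero]
      positivity
    · obtain ⟨i, hi⟩ := Function.ne_iff.1 h0
      have hi1 : x i = 1 := (F_cases (x i)).resolve_left hi
      have hs : Function.Surjective fun Φ : Hom k V => Φ x := fun v =>
        ⟨(LinearMap.proj i : Fk k →ₗ[F] F).smulRight v, by simp [hi1]⟩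
      refine (av_mono fun Φ => ind_mono fun h => h.2).trans ?_
      rw [av_surj (fun Φ : Hom k V => Φ x) (fun _ _ => rfl) hs fun v => ind (v = 0)]
      have := av_ind_eq (0 : V) fun _ => (1 : ℝ)
      simp only [mul_one] at this
      rw [this, card_eq_pow]; push_cast; rfl
  refine (sm_mono h2).trans ?_
  rw [sm_const, card_eq_pow, finrank_Fk]; push_cast; rw [mul_one_div]

end tuples

section data
variable {ρ k : ℕ} {V : Type} [AddCommGroup V] [Module F V] [Finite V] (H : Submodule F (Pt ρ V))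

abbrev JJ (ρ : ℕ) : Type := (Fin ρ × Fin ρ) ⊕ (Fin ρ × Fin ρ)

def vH : H →ₗ[F] Fin ρ → Dual F V := (LinearMap.fst F _ _).comp H.subtype

noncomputable def TT (M : G V) : H →ₗ[F] Fin ρ → V :=
  linOf (fun h => TM M h.1) fun h h' => TM_add M h.1 h'.1

noncomputable def kp (M : G V) : ℕ := cod (LinearMap.range (TT H M))

noncomputable def Vz (M : G V) : Submodule F V := W0 (vH H) (TT H M)

noncomputable def bz (M : G V) : JJ ρ → Bil V := bb (vH H) (TT H M)

noncomputable def rz (M : G V) (l : JJ ρ → F) : ℕ := rk (Vz H M) (bz H M) l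

noncomputable def Nz (k t : ℕ) (M : G V) : ℝ := Nf (Fin k) (Vz H M) (bz H M) t

def Fz (t : ℕ) (M : G V) (Φ : Hom k V) : Prop := Frp (Vz H M) (bz H M) t (yv Φ)

variable {H}

lemma nb (M : G V) (Φ : Hom k V) (B : G (Fk k)) :
    Nb (vH H) (TT H M) (TT H (M + push Φ B)) Φ := by
  refine ⟨fun h i => ⟨_, TM_pu M Φ B h.1 i⟩, fun h hh => ?_⟩
  funext i
  have h1 : (h.1.1 i).comp Φ = 0 := LinearMap.ext fun x => hh i x
  have h2 := TM_pu M Φ B h.1 i
  rw [h1, mv_ze, map_zero, add_zero] at h2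
  exact h2

variable {t : ℕ} {M : G V} {Φ : Hom k V}

lemma Fz.iso (h : Fz H t M Φ) : Iso (vH H) (TT H M) Φ := by
  refine ⟨yv_mem fun a => (mem_V1.1 (h.1 a)).1, fun i l x x' => ?_⟩
  refine yv_zero (fun a' => ?_) x'
  exact yv_zero (φ := (aa (vH H) (TT H M) i l).flip (yv Φ a'))
    (fun a => h.2 (Sum.inl (i, l)) a a') x

lemma Fz.fr (h : Fz H t M Φ) : Fr H M Φ := fun p hp hr i =>
  LinearMap.ext fun x => h.iso.fr (h := ⟨p, hp⟩)
    (fun j => by obtain ⟨x, hx⟩ := hr j; exact ⟨x, hx.symm⟩) i x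

lemma Fz.Vz_eq (h : Fz H t M Φ) (B : G (Fk k)) : Vz H (M + push Φ B) = Vz H M :=
  h.iso.W0_eq (nb M Φ B)

lemma Fz.kp_eq (h : Fz H t M Φ) (B : G (Fk k)) : kp H (M + push Φ B) = kp H M := by
  rw [kp, h.iso.range_eq (nb M Φ B), kp]

lemma Fz.close (h : Fz H t M Φ) (B : G (Fk k)) :
    Close (Vz H M) (bz H M) (bz H (M + push Φ B)) (yv Φ) := by
  intro u hu hz j u' hu'
  rcases j with ⟨i, l⟩ | ⟨i, l⟩
  · exact h.iso.aa_left (nb M Φ B) hu hu' i l fun l x =>
      yv_zero (fun a => hz (Sum.inr (i, l)) a) x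
  · exact h.iso.aa_right (nb M Φ B) hu hu' i l fun i x =>
      yv_zero (φ := (aa (vH H) (TT H M) i l).flip u) (fun a => hz (Sum.inl (i, l)) a) x

lemma kp_le (M : G V) (Φ : Hom k V) (B : G (Fk k)) : kp H M ≤ kp H (M + push Φ B) + ρ * k := by
  have := (nb (H := H) M Φ B).cod_le
  rwa [Fintype.card_fin, finrank_Fk] at this

lemma cod_Vz {C' : ℕ} (hH : finrank F H ≤ C' + finrank F (Fin ρ → V)) (M : G V) :
    cod (Vz H M) ≤ ρ * (2 * kp H M + C') := by
  have := cod_W0 (vv := vH H) (T := TT H M) hH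
  rwa [Fintype.card_fin] at this

lemma high_of {R0 : ℕ} (h : R0 ≤ kp H M) : cnt (TM M '' (H : Set (Pt ρ V))) * 2 ^ R0 ≤ DP V ρ := by
  have h1 : TM M '' (H : Set (Pt ρ V)) = (LinearMap.range (TT H M) : Set (Fin ρ → V)) := by
    ext w
    exact ⟨fun ⟨p, hp, e⟩ => ⟨⟨p, hp⟩, e⟩, fun ⟨p, e⟩ => ⟨p.1, p.2, e⟩⟩
  have h2 : DP V ρ = Nat.card (Fin ρ → V) := by
    rw [DP, Nat.card_fun, Nat.card_eq_fintype_card (α := Fin ρ), Fintype.card_fin]; push_cast; rfl
  have h3 : (Nat.card (LinearMap.range (TT H M) : Set (Fin ρ → V)) : ℝ) =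
      2 ^ finrank F (LinearMap.range (TT H M)) := by
    have := card_eq_pow (X := LinearMap.range (TT H M))
    exact_mod_cast this
  rw [h1, cnt_eq_card, h2, h3, card_eq_pow]
  push_cast
  rw [← pow_add]
  refine pow_le_pow_right₀ (by norm_num) ?_
  have := Submodule.finrank_le (LinearMap.range (TT H M))
  unfold kp cod at h
  omega

end data

end SD.Lf
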