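import Pool.Agent.Lib.MP_ecee09_co.SD.LFd

/-! Lattice freeze, part e: the density `psi` and its properties. -/

namespace SD.Lf

open Module

variable {ρ k : ℕ} {V : Type} [AddCommGroup V] [Module F V] [Finite V]

def cell (M : G V) (Φ : Hom k V) : Set (G V) := {M' | ∃ B, M' = M + push Φ B}

omit [Finite V] in
lemma cell_shift (M : G V) (Φ : Hom k V) (B : G (Fk k)) : cell (M + push Φ B) Φ = cell M Φ := by
  ext M'
  constructor
  · rintro ⟨B', rfl⟩
    exact ⟨B + B', by rw [map_add, add_assoc]⟩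
  · rintro ⟨B', rfl⟩
    exact ⟨B + B', by rw [map_add, add_assoc, ← add_assoc (push Φ B), add_self2, zero_add]⟩

omit [Finite V] in
lemma self_mem_cell (M : G V) (Φ : Hom k V) : M ∈ cell M Φ := ⟨0, by simp⟩

variable (H : Submodule F (Pt ρ V)) (R t : ℕ) (K : ℝ)

def OK (c : Set (G V)) (Φ : Hom k V) : Prop :=
  Function.Injective Φ ∧ (∀ M ∈ c, kp H M ≤ R ∧ Fz H t M Φ) ∧
    ∀ M ∈ c, ∀ M' ∈ c, Nz H k t M ≤ K * Nz H k t M'

noncomputable def Nav (M : G V) (Φ : Hom k V) : ℝ := av fun B => Nz H k t (M + push Φ B)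

noncomputable def psi (M : G V) (Φ : Hom k V) : ℝ :=
  ind (OK H R t K (cell M Φ) Φ) / (K * Nav H t M Φ) +
    ind (Function.Injective Φ ∧ ∀ M' ∈ cell M Φ, R < kp H M')

variable {H R t K}

lemma Nz_nonneg (M : G V) : 0 ≤ Nz H k t M := Nf_nonneg

lemma Nav_nonneg (M : G V) (Φ : Hom k V) : 0 ≤ Nav H t M Φ := av_nonneg fun _ => Nz_nonneg _

lemma psi_nonneg (hK : 0 ≤ K) (M : G V) (Φ : Hom k V) : 0 ≤ psi H R t K M Φ :=
  add_nonneg (div_nonneg (ind_nonneg _) (mul_nonneg hK (Nav_nonneg M Φ))) (ind_nonneg _)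

lemma psi_shift (M : G V) (Φ : Hom k V) (B : G (Fk k)) :
    psi H R t K (M + push Φ B) Φ = psi H R t K M Φ := by
  have : Nav H t (M + push Φ B) Φ = Nav H t M Φ := by
    rw [Nav, Nav, ← av_add_left (fun B' => Nz H k t (M + push Φ B')) B]
    simp only [map_add, add_assoc]
  rw [psi, psi, cell_shift, this]

lemma av_Fz (M : G V) : av (fun Φ : Hom k V => ind (Fz H t M Φ)) = Nz H k t M :=
  av_yv fun y => ind (Frp (Vz H M) (bz H M) t y)

lemma Nz_pos {M : G V} {Φ : Hom k V} (h : Fz H t M Φ) : 0 < Nz H k t M := by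
  rw [← av_Fz, av_def]
  refine div_pos (lt_of_lt_of_le ?_
    (single_le_sm (f := fun Φ : Hom k V => ind (Fz H t M Φ)) (fun _ => ind_nonneg _) Φ)) card_pos'
  rw [ind_pos h]; norm_num

lemma OK.le_Nav {M : G V} {Φ : Hom k V} (h : OK H R t K (cell M Φ) Φ) :
    Nz H k t M ≤ K * Nav H t M Φ := by
  rw [Nav, ← av_mul_left]
  exact const_le_av fun B => h.2.2 M (self_mem_cell M Φ) _ ⟨B, rfl⟩

lemma OK.Nav_le {M : G V} {Φ : Hom k V} (h : OK H R t K (cell M Φ) Φ) :
    Nav H t M Φ ≤ K * Nz H k t M :=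
  av_le_const fun B => h.2.2 _ ⟨B, rfl⟩ M (self_mem_cell M Φ)

lemma av_psi_le (M : G V) : av (psi H R t K M : Hom k V → ℝ) ≤ 1 := by
  by_cases hM : kp H M ≤ R
  · have h1 : ∀ Φ : Hom k V, psi H R t K M Φ ≤ ind (Fz H t M Φ) / Nz H k t M := by
      intro Φ
      rw [psi, ind_neg (p := Function.Injective Φ ∧ ∀ M' ∈ cell M Φ, R < kp H M')
        fun h => absurd (h.2 M (self_mem_cell M Φ)) (not_lt.2 hM), add_zero]
      by_cases hO : OK H R t K (cell M Φ) Φ
      · have hF := (hO.2.1 M (self_mem_cell M Φ)).2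
        rw [ind_pos hO, ind_pos hF]
        exact one_div_le_one_div_of_le (Nz_pos hF) hO.le_Nav
      · rw [ind_neg hO, zero_div]; exact div_nonneg (ind_nonneg _) (Nz_nonneg M)
    refine (av_mono h1).trans ?_
    rw [av_div, av_Fz]
    exact div_self_le_one _
  · refine av_le_const fun Φ => ?_
    rw [psi, ind_neg fun h => hM (h.2.1 M (self_mem_cell M Φ)).1, zero_div, zero_add]
    exact ind_le_one _

lemma psi_supp {R0 : ℕ} (hR : R0 ≤ R) (M : G V) (Φ : Hom k V) :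
    psi H R t K M Φ * ind (¬ (Function.Injective Φ ∧ (Fr H M Φ ∨ High H R0 M Φ))) = 0 := by
  by_cases h : Function.Injective Φ ∧ (Fr H M Φ ∨ High H R0 M Φ)
  · rw [ind_neg (not_not.2 h), mul_zero]
  · rw [psi, ind_neg fun hO => h ⟨hO.1, Or.inl (hO.2.1 M (self_mem_cell M Φ)).2.fr⟩,
      ind_neg fun hO => h ⟨hO.1, Or.inr fun B => high_of (hR.trans (hO.2 _ ⟨B, rfl⟩).le)⟩]
    simp

/-- bad labels at a point with a gap in the ranks -/
def BadW (H : Submodule F (Pt ρ V)) (R t F' : ℕ) (δ : ℝ) (M : G V) (Φ : Hom k V) : Prop :=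
  cod (Vz H M) ≤ R ∧ (∀ l, rz H M l ≤ t ∨ F' ≤ rz H M l) ∧ (∀ a, yv Φ a ∈ Vz H M) ∧
    Bad (Vz H M) (bz H M) t δ (yv Φ)

lemma av_BadW {F' : ℕ} {δ : ℝ} (hδ : 0 < δ) (M : G V) :
    av (fun Φ : Hom k V => ind (BadW H R t F' δ M Φ)) ≤
      Nat.card (Fin k → Fin k → JJ ρ → F) * (2 ^ cN (JJ ρ) (Fin k) R t / δ ^ 2) / 2 ^ F' := by
  by_cases h : cod (Vz H M) ≤ R ∧ ∀ l, rz H M l ≤ t ∨ F' ≤ rz H M l
  · refine le_trans ?_ (bad_rare hδ h.1 h.2)
    rw [← av_yv]
    exact av_mono fun Φ => ind_mono fun hb => hb.2.2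
  · have : ∀ Φ : Hom k V, ind (BadW H R t F' δ M Φ) = 0 := fun Φ =>
      ind_neg fun hb => h ⟨hb.1, hb.2.1⟩
    simp only [this, av_zero]; positivity

/-- at a good point, frozen labels that are nowhere bad give good cells -/
lemma ok_of {ε : ℝ} (hε : 0 ≤ ε) (hε1 : ε ≤ 1) {s F' Fb : ℕ}
    (hs : s = Fintype.card (JJ ρ) * Fintype.card (Fin k)) (h1 : F' + s ≤ Fb) (h2 : R + 2 * s ≤ Fb)
    {M : G V} (hk : kp H M ≤ R) (h0 : cod (Vz H M) ≤ R)
    (hg : ∀ l, rz H M l ≤ R ∨ Fb < rz H M l) {Φ : Hom k V} (hi : Function.Injective Φ)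
    (hF : Fz H (R + s) M Φ)
    (hb : ∀ B, ¬ BadW H R (R + s) F' (ε / 3 / Nat.card (Fin k → Fin k → JJ ρ → F))
      (M + push Φ B) Φ) :
    OK H R (R + s) ((1 + ε) ^ 2) (cell M Φ) Φ := by
  have hy : ∀ a, yv Φ a ∈ Vz H M := fun a => (mem_V1.1 (hF.1 a)).1
  have hup : ∀ B l, rk (Vz H M) (bz H (M + push Φ B)) l ≤ rk (Vz H M) (bz H M) l + s :=
    fun B l => hs ▸ (hF.close B).rk_le l
  have hdn : ∀ B l, rk (Vz H M) (bz H M) l ≤ rk (Vz H M) (bz H (M + push Φ B)) l + s :=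
    fun B l => hs ▸ ((hF.close B).symm hy hF.2).rk_le l
  have hL : ∀ B l, rk (Vz H M) (bz H (M + push Φ B)) l ≤ R + s ↔
      rk (Vz H M) (bz H M) l ≤ R + s := by
    intro B l
    have a1 := hup B l
    have a2 := hdn B l
    have a3 := hg l
    unfold rz at a3
    omega
  have hnb : ∀ B, ¬ Bad (Vz H M) (bz H (M + push Φ B)) (R + s)
      (ε / 3 / Nat.card (Fin k → Fin k → JJ ρ → F)) (yv Φ) := by
    intro B hB
    refine hb B ?_
    unfold BadW rz
    rw [hF.Vz_eq B]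
    refine ⟨h0, fun l => ?_, hy, hB⟩
    have a1 := hup B l
    have a2 := hdn B l
    have a3 := hg l
    unfold rz at a3
    omega
  have hnb0 := hnb 0
  rw [map_zero, add_zero] at hnb0
  have hfr : ∀ B, Frp (Vz H M) (bz H (M + push Φ B)) (R + s) (yv Φ) :=
    fun B => (hF.close B).frp (hL B) hF hF.2
  have hN : ∀ B, Nz H k (R + s) (M + push Φ B) =
      Nf (Fin k) (Vz H M) (bz H (M + push Φ B)) (R + s) := fun B => by rw [Nz, hF.Vz_eq B]
  have r1 : ∀ B, Nz H k (R + s) (M + push Φ B) ≤ (1 + ε) * Nz H k (R + s) M := fun B => by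
    rw [hN]
    exact Nf_ratio hε hε1 (hF.close B) (hL B) (by omega) hF hnb0 (hnb B)
  have r2 : ∀ B, Nz H k (R + s) M ≤ (1 + ε) * Nz H k (R + s) (M + push Φ B) := fun B => by
    rw [hN]
    exact Nf_ratio hε hε1 ((hF.close B).symm hy hF.2) (fun l => (hL B l).symm) (by omega)
      (hfr B) (hnb B) hnb0
  refine ⟨hi, ?_, ?_⟩
  · rintro _ ⟨B, rfl⟩
    refine ⟨(hF.kp_eq B).trans_le hk, ?_⟩
    unfold Fz
    rw [hF.Vz_eq B]
    exact hfr B
  · rintro _ ⟨B, rfl⟩ _ ⟨B', rfl⟩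
    refine (r1 B).trans ?_
    rw [sq, mul_assoc]
    exact mul_le_mul_of_nonneg_left (r2 B') (by linarith)

/-- the quantities whose values must avoid a window -/
noncomputable def qq (H : Submodule F (Pt ρ V)) : Option (JJ ρ → F) → G V → ℕ
  | none, M => kp H M
  | some l, M => rz H M l

/-- the mass lost at a point -/
lemma loss {ε : ℝ} (hε : 0 ≤ ε) (hε1 : ε ≤ 1) {s F' Fb C' : ℕ}
    (hs : s = Fintype.card (JJ ρ) * Fintype.card (Fin k)) (h1 : F' + s ≤ Fb) (h2 : R + 2 * s ≤ Fb)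
    (h3 : R + ρ * k ≤ Fb) (h4 : ρ * (2 * R + C') ≤ Fb)
    (hH : finrank F H ≤ C' + finrank F (Fin ρ → V)) (M : G V) :
    1 - av (psi H R (R + s) ((1 + ε) ^ 2) M : Hom k V → ℝ) ≤
      ind (∃ j, R < qq H j M ∧ qq H j M ≤ Fb) + 4 * ε + 2 ^ cN (JJ ρ) (Fin k) R (R + s) *
        ((av fun Φ : Hom k V => ind (¬ Function.Injective Φ)) +
          av fun Φ : Hom k V => sm fun B => ind (BadW H R (R + s) F'
            (ε / 3 / Nat.card (Fin k → Fin k → JJ ρ → F)) (M + push Φ B) Φ)) := by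
  have hK : (0 : ℝ) < (1 + ε) ^ 2 := by positivity
  have e1 : 0 ≤ av fun Φ : Hom k V => ind (¬ Function.Injective Φ) := av_ind_nonneg _
  have e2 : 0 ≤ av fun Φ : Hom k V => sm fun B => ind (BadW H R (R + s) F'
      (ε / 3 / Nat.card (Fin k → Fin k → JJ ρ → F)) (M + push Φ B) Φ) :=
    av_nonneg fun _ => sm_nonneg fun _ => ind_nonneg _
  have e3 : (1 : ℝ) ≤ 2 ^ cN (JJ ρ) (Fin k) R (R + s) := one_le_pow₀ (by norm_num)
  have e4 : 0 ≤ av (psi H R (R + s) ((1 + ε) ^ 2) M : Hom k V → ℝ) :=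
    av_nonneg fun Φ => psi_nonneg hK.le M Φ
  by_cases hn : ∃ j, R < qq H j M ∧ qq H j M ≤ Fb
  · rw [ind_pos hn]
    have := mul_nonneg (zero_le_one.trans e3) (add_nonneg e1 e2)
    linarith
  rw [ind_neg hn, zero_add]
  have hq : ∀ j, qq H j M ≤ R ∨ Fb < qq H j M := fun j => by
    by_contra hc
    exact hn ⟨j, by omega, by omega⟩
  rcases hq none with hk | hk
  · have hg : ∀ l, rz H M l ≤ R ∨ Fb < rz H M l := fun l => hq (some l)
    have hk' : kp H M ≤ R := hk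
    have h0 : cod (Vz H M) ≤ R := by
      have a1 := hg 0
      rw [rz, rk_zero] at a1
      have a2 := cod_Vz hH M
      have a3 : ρ * (2 * kp H M + C') ≤ ρ * (2 * R + C') := Nat.mul_le_mul_left _ (by omega)
      omega
    have hN0 : 1 / 2 ^ cN (JJ ρ) (Fin k) R (R + s) ≤ Nz H k (R + s) M := Nf_ge h0
    have hN : 0 < Nz H k (R + s) M := lt_of_lt_of_le (by positivity) hN0
    have p1 : ∀ Φ : Hom k V, (ind (Fz H (R + s) M Φ) - ind (¬ Function.Injective Φ) -
        sm fun B => ind (BadW H R (R + s) F'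
          (ε / 3 / Nat.card (Fin k → Fin k → JJ ρ → F)) (M + push Φ B) Φ)) /
        (((1 + ε) ^ 2) ^ 2 * Nz H k (R + s) M) ≤ psi H R (R + s) ((1 + ε) ^ 2) M Φ := by
      intro Φ
      have b1 := ind_nonneg (¬ Function.Injective Φ)
      have b2 := ind_exists_le fun B => BadW H R (R + s) F'
          (ε / 3 / Nat.card (Fin k → Fin k → JJ ρ → F)) (M + push Φ B) Φ
      have b3 := ind_nonneg (∃ B, BadW H R (R + s) F'
          (ε / 3 / Nat.card (Fin k → Fin k → JJ ρ → F)) (M + push Φ B) Φ)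
      have b4 := ind_le_one (Fz H (R + s) M Φ)
      by_cases hO : OK H R (R + s) ((1 + ε) ^ 2) (cell M Φ) Φ
      · refine le_trans ?_ (le_add_of_nonneg_right (ind_nonneg _))
        rw [ind_pos hO]
        have c1 := hO.le_Nav
        have c2 := mul_le_mul_of_nonneg_left hO.Nav_le hK.le
        refine le_trans (div_le_div_of_nonneg_right (by linarith) (by positivity))
          (one_div_le_one_div_of_le (hN.trans_le c1) ?_)
        rw [sq ((1 + ε) ^ 2), mul_assoc]; exact c2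
      · refine le_trans (div_nonpos_of_nonpos_of_nonneg ?_ (by positivity)) (psi_nonneg hK.le M Φ)
        by_cases hF : Fz H (R + s) M Φ
        · by_cases hi : Function.Injective Φ
          · have : ∃ B, BadW H R (R + s) F'
                (ε / 3 / Nat.card (Fin k → Fin k → JJ ρ → F)) (M + push Φ B) Φ := by
              by_contra hc
              exact hO (ok_of hε hε1 hs h1 h2 hk' h0 hg hi hF fun B hB => hc ⟨B, hB⟩)
            rw [ind_pos this] at b2
            linarith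
          · rw [ind_pos hi]; linarith
        · rw [ind_neg hF]; linarith
    have p2 := av_mono p1
    rw [av_div, av_sub, av_sub, av_Fz] at p2
    generalize (av fun Φ : Hom k V => ind (¬ Function.Injective Φ)) = a at *
    generalize (av fun Φ : Hom k V => sm fun B => ind (BadW H R (R + s) F'
      (ε / 3 / Nat.card (Fin k → Fin k → JJ ρ → F)) (M + push Φ B) Φ)) = b at *
    generalize (2 : ℝ) ^ cN (JJ ρ) (Fin k) R (R + s) = c at *
    generalize Nz H k (R + s) M = N at *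
    have hK1 : 1 ≤ ((1 + ε) ^ 2) ^ 2 := one_le_pow₀ (one_le_pow₀ (by linarith))
    have d1 : 1 - 4 * ε ≤ 1 / ((1 + ε) ^ 2) ^ 2 := by
      rw [le_div_iff₀ (by positivity)]
      nlinarith [pow_nonneg hε 2, pow_nonneg hε 3, pow_nonneg hε 4, pow_nonneg hε 5]
    have d2 : (a + b) / (((1 + ε) ^ 2) ^ 2 * N) ≤ c * (a + b) := by
      rw [div_le_iff₀ (by positivity)]
      rw [div_le_iff₀ (by linarith)] at hN0
      have : 1 ≤ c * (((1 + ε) ^ 2) ^ 2 * N) := by nlinarith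
      nlinarith
    have d3 : (N - a - b) / (((1 + ε) ^ 2) ^ 2 * N) =
        1 / ((1 + ε) ^ 2) ^ 2 - (a + b) / (((1 + ε) ^ 2) ^ 2 * N) := by
      field_simp; ring
    linarith
  · have hk' : Fb < kp H M := hk
    have p1 : ∀ Φ : Hom k V, 1 - ind (¬ Function.Injective Φ) ≤
        psi H R (R + s) ((1 + ε) ^ 2) M Φ := by
      intro Φ
      by_cases hi : Function.Injective Φ
      · rw [ind_neg (not_not.2 hi), sub_zero, psi, ind_pos (p := Function.Injective Φ ∧ _) ⟨hi, ?_⟩]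
        · exact le_add_of_nonneg_left
            (div_nonneg (ind_nonneg _) (mul_nonneg hK.le (Nav_nonneg M Φ)))
        · rintro _ ⟨B, rfl⟩
          have := kp_le (H := H) M Φ B
          omega
      · rw [ind_pos hi, sub_self]; exact psi_nonneg hK.le M Φ
    have p2 := av_mono p1
    rw [av_sub, av_const] at p2
    nlinarith

end SD.Lf
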