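import Mathlib

/-! (LP), abstract form: the eigencomponent of eigenvalue `2 ^ (-J)` of an averaging operator with
spectrum in `{0} ∪ {2 ^ (-i)}` has all moments controlled. -/

namespace SD

open Finset

theorem abs_sum_pow_le (m p : ℕ) (hp : p ≠ 0) (u : ℕ → ℝ) :
    |∑ k ∈ range m, u k| ^ p ≤ ∑ k ∈ range m, (2 ^ (k + 1) * |u k|) ^ p := by
  rcases Nat.eq_zero_or_pos m with rfl | hm
  · simp [hp]
  obtain ⟨k0, hk0, hmax⟩ := exists_max_image (range m) (fun k => (2 : ℝ) ^ (k + 1) * |u k|)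
    ⟨0, mem_range.2 hm⟩
  have h0 : (0 : ℝ) ≤ 2 ^ (k0 + 1) * |u k0| := by positivity
  have h1 : |∑ k ∈ range m, u k| ≤ 2 ^ (k0 + 1) * |u k0| := by
    calc |∑ k ∈ range m, u k| ≤ ∑ k ∈ range m, |u k| := abs_sum_le_sum_abs _ _
      _ ≤ ∑ k ∈ range m, (1 / 2) * (1 / 2) ^ k * (2 ^ (k0 + 1) * |u k0|) := by
        refine sum_le_sum fun k hk => ?_
        have h2 := hmax k hk
        have h3 : (1 / 2 : ℝ) * (1 / 2) ^ k * (2 ^ (k + 1) * |u k|) = |u k| := by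
          rw [one_div_pow, pow_succ]; field_simp
        rw [← h3]
        exact mul_le_mul_of_nonneg_left h2 (by positivity)
      _ = (1 / 2) * (∑ k ∈ range m, (1 / 2 : ℝ) ^ k) * (2 ^ (k0 + 1) * |u k0|) := by
        rw [mul_sum, sum_mul]
      _ ≤ (1 / 2) * 2 * (2 ^ (k0 + 1) * |u k0|) := by
        refine mul_le_mul_of_nonneg_right (mul_le_mul_of_nonneg_left ?_ (by norm_num)) h0
        exact sum_geometric_two_le m
      _ = _ := by ring
  exact (pow_le_pow_left₀ (abs_nonneg _) h1 p).trans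
    (single_le_sum (f := fun k => ((2 : ℝ) ^ (k + 1) * |u k|) ^ p) (fun k _ => by positivity) hk0)

theorem summable_pow_mul_half_sq (K : ℝ) (hK : 0 ≤ K) :
    Summable fun k : ℕ => K ^ k * (1 / 2 : ℝ) ^ (k ^ 2) := by
  refine summable_of_ratio_norm_eventually_le (r := 1 / 2) (by norm_num) ?_
  have ht : Filter.Tendsto (fun k : ℕ => K * (1 / 2 : ℝ) ^ k) Filter.atTop (nhds (K * 0)) :=
    (tendsto_pow_atTop_nhds_zero_of_lt_one (by norm_num) (by norm_num)).const_mul K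
  rw [mul_zero] at ht
  filter_upwards [ht.eventually (gt_mem_nhds one_pos)] with k hk
  rw [Real.norm_of_nonneg (by positivity), Real.norm_of_nonneg (by positivity)]
  have e : K ^ (k + 1) * (1 / 2 : ℝ) ^ ((k + 1) ^ 2) =
      (K * (1 / 2) ^ k) * (1 / 2) ^ k * (1 / 2 * (K ^ k * (1 / 2) ^ (k ^ 2))) := by ring
  rw [e]
  have h1 : (1 / 2 : ℝ) ^ k ≤ 1 := pow_le_one₀ (by norm_num) (by norm_num)
  have h2 : (K * (1 / 2) ^ k) * (1 / 2 : ℝ) ^ k ≤ 1 :=
    mul_le_one₀ hk.le (by positivity) h1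
  exact mul_le_of_le_one_left (by positivity) h2

theorem abs_sub_pow_le (a b : ℝ) (q : ℕ) : |a - b| ^ q ≤ 2 ^ q * (|a| ^ q + |b| ^ q) := by
  have h1 : |a - b| ^ q ≤ (|a| + |b|) ^ q := pow_le_pow_left₀ (abs_nonneg _) (abs_sub a b) q
  have h2 := add_pow_le (abs_nonneg a) (abs_nonneg b) q
  have h3 : (2 : ℝ) ^ (q - 1) ≤ 2 ^ q := pow_le_pow_right₀ (by norm_num) (Nat.sub_le _ _)
  exact h1.trans (h2.trans (mul_le_mul_of_nonneg_right h3 (by positivity)))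

theorem abs_add_pow_le (a b : ℝ) (q : ℕ) : |a + b| ^ q ≤ 2 ^ q * (|a| ^ q + |b| ^ q) := by
  simpa using abs_sub_pow_le a (-b) q

theorem abs_pow_succ_le (d t : ℝ) (ht : 0 < t) (r : ℕ) :
    |d| ^ (r + 1) ≤ t * d ^ 2 + |d| ^ (2 * r) / t := by
  have h1 : 0 ≤ (t * |d| - |d| ^ r) ^ 2 := sq_nonneg _
  have h2 : |d| ^ (2 * r) = (|d| ^ r) ^ 2 := by ring
  have h3 : 0 ≤ |d| * |d| ^ r := by positivity
  rw [h2, ← sq_abs d, pow_succ, ← sub_nonneg]
  have : t * |d| ^ 2 + (|d| ^ r) ^ 2 / t - |d| ^ r * |d| =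
      (t * |d| - |d| ^ r) ^ 2 / t + |d| * |d| ^ r := by field_simp; ring
  rw [this]; positivity

theorem telescope_moment (r L0 : ℕ) (β : ℝ) (hβ : 1 ≤ β) : ∃ C : ℝ, 0 ≤ C ∧
    ∀ (X : Type*) [Fintype X] (g : ℕ → X → ℝ) (v : X → ℝ) (H : ℝ) (n : ℕ), L0 ≤ n → g n = v →
      0 ≤ H →
      (∀ L, L0 ≤ L → ∑ x, (g L x - v x) ^ 2 ≤ (β ^ (L + 1) * (1 / 2) ^ (L ^ 2)) ^ 2 * H) →
      (∀ L, ∑ x, |g L x| ^ (2 * r) ≤ (β ^ (L + 1)) ^ (2 * r) * H) →
      (∀ L, ∑ x, |g L x| ^ (r + 1) ≤ (β ^ (L + 1)) ^ (r + 1) * H) →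
      ∑ x, |v x| ^ (r + 1) ≤ C * H := by
  have hβ0 : 0 < β := by linarith
  set A : ℝ := 2 ^ (2 * (r + 1)) * 2 ^ (2 * r + 1) * β ^ ((L0 + 2) * (2 * r)) * 4 *
    β ^ (2 * (L0 + 2)) with hA
  set K : ℝ := 2 ^ (2 * (r + 1)) * β ^ (2 * r) * 2 * β ^ 2 with hK
  have hsum : Summable fun k : ℕ => A * (K ^ k * (1 / 2 : ℝ) ^ (k ^ 2)) + (1 / 2 : ℝ) ^ k :=
    ((summable_pow_mul_half_sq K (by positivity)).mul_left A).add summable_geometric_two
  have hterm : ∀ k : ℕ, 0 ≤ A * (K ^ k * (1 / 2 : ℝ) ^ (k ^ 2)) + (1 / 2 : ℝ) ^ k := fun k => by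
    positivity
  set C1 : ℝ := ∑' k : ℕ, (A * (K ^ k * (1 / 2 : ℝ) ^ (k ^ 2)) + (1 / 2 : ℝ) ^ k) with hC1
  have hC10 : 0 ≤ C1 := tsum_nonneg hterm
  refine ⟨2 ^ (r + 1) * ((β ^ (L0 + 1)) ^ (r + 1) + C1), by positivity, ?_⟩
  intro X _ g v H n hn hv hH h2 hq hp
  obtain ⟨m, rfl⟩ := Nat.exists_eq_add_of_le hn
  have htel : ∀ x, v x = g L0 x + ∑ k ∈ range m, (g (L0 + (k + 1)) x - g (L0 + k) x) := by
    intro x
    rw [sum_range_sub (fun k => g (L0 + k) x), ← hv]; simp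
  have hk : ∀ k, ∑ x, (2 ^ (k + 1) * |g (L0 + (k + 1)) x - g (L0 + k) x|) ^ (r + 1) ≤
      (A * (K ^ k * (1 / 2 : ℝ) ^ (k ^ 2)) + (1 / 2 : ℝ) ^ k) * H := by
    intro k
    set B : ℝ := 2 ^ (2 * r + 1) * β ^ ((L0 + k + 2) * (2 * r)) with hB
    set E : ℝ := 4 * β ^ (2 * (L0 + k + 2)) * (1 / 2) ^ (k ^ 2) with hE
    set W : ℝ := 2 ^ ((k + 1) * (r + 1)) with hW
    have hB0 : 0 < B := by positivity
    have hW0 : 0 < W := by positivity
    set t : ℝ := W * B * 2 ^ k with ht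
    have ht0 : 0 < t := by positivity
    have he : ∀ L, L0 + k ≤ L → L ≤ L0 + (k + 1) →
        (β ^ (L + 1) * (1 / 2) ^ (L ^ 2)) ^ 2 ≤ β ^ (2 * (L0 + k + 2)) * (1 / 2) ^ (k ^ 2) := by
      intro L h1 h3
      rw [mul_pow, ← pow_mul, ← pow_mul]
      refine mul_le_mul (pow_le_pow_right₀ hβ (by omega))
        (pow_le_pow_of_le_one (by norm_num) (by norm_num) ?_) (by positivity) (by positivity)
      have : k ≤ L := by omega
      nlinarith
    have hE' : ∑ x, (g (L0 + (k + 1)) x - g (L0 + k) x) ^ 2 ≤ E * H := by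
      have a1 := (h2 (L0 + (k + 1)) (by omega)).trans
        (mul_le_mul_of_nonneg_right (he _ (by omega) le_rfl) hH)
      have a2 := (h2 (L0 + k) (by omega)).trans
        (mul_le_mul_of_nonneg_right (he _ le_rfl (by omega)) hH)
      calc ∑ x, (g (L0 + (k + 1)) x - g (L0 + k) x) ^ 2
          ≤ ∑ x, (2 * (g (L0 + (k + 1)) x - v x) ^ 2 + 2 * (g (L0 + k) x - v x) ^ 2) :=
            sum_le_sum fun x _ => by
              nlinarith [sq_nonneg (g (L0 + (k + 1)) x + g (L0 + k) x - 2 * v x)]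
        _ = 2 * ∑ x, (g (L0 + (k + 1)) x - v x) ^ 2 + 2 * ∑ x, (g (L0 + k) x - v x) ^ 2 := by
            rw [sum_add_distrib, mul_sum, mul_sum]
        _ ≤ E * H := by rw [hE]; linarith
    have hB' : ∑ x, |g (L0 + (k + 1)) x - g (L0 + k) x| ^ (2 * r) ≤ B * H := by
      have hb : ∀ L, L ≤ L0 + (k + 1) →
          (β ^ (L + 1)) ^ (2 * r) ≤ β ^ ((L0 + k + 2) * (2 * r)) := by
        intro L h3
        rw [← pow_mul]
        exact pow_le_pow_right₀ hβ (Nat.mul_le_mul_right _ (by omega))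
      have a1 := (hq (L0 + (k + 1))).trans (mul_le_mul_of_nonneg_right (hb _ le_rfl) hH)
      have a2 := (hq (L0 + k)).trans (mul_le_mul_of_nonneg_right (hb _ (by omega)) hH)
      calc ∑ x, |g (L0 + (k + 1)) x - g (L0 + k) x| ^ (2 * r)
          ≤ ∑ x, 2 ^ (2 * r) * (|g (L0 + (k + 1)) x| ^ (2 * r) + |g (L0 + k) x| ^ (2 * r)) :=
            sum_le_sum fun x _ => abs_sub_pow_le _ _ _
        _ = 2 ^ (2 * r) * (∑ x, |g (L0 + (k + 1)) x| ^ (2 * r) +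
              ∑ x, |g (L0 + k) x| ^ (2 * r)) := by rw [← mul_sum, sum_add_distrib]
        _ ≤ 2 ^ (2 * r) * (β ^ ((L0 + k + 2) * (2 * r)) * H +
              β ^ ((L0 + k + 2) * (2 * r)) * H) :=
            mul_le_mul_of_nonneg_left (add_le_add a1 a2) (by positivity)
        _ = B * H := by rw [hB]; ring
    calc ∑ x, (2 ^ (k + 1) * |g (L0 + (k + 1)) x - g (L0 + k) x|) ^ (r + 1)
        ≤ ∑ x, W * (t * (g (L0 + (k + 1)) x - g (L0 + k) x) ^ 2 +
            |g (L0 + (k + 1)) x - g (L0 + k) x| ^ (2 * r) / t) := by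
          refine sum_le_sum fun x _ => ?_
          rw [mul_pow, ← pow_mul]
          exact mul_le_mul_of_nonneg_left (abs_pow_succ_le _ t ht0 r) hW0.le
      _ = W * (t * ∑ x, (g (L0 + (k + 1)) x - g (L0 + k) x) ^ 2 +
            (∑ x, |g (L0 + (k + 1)) x - g (L0 + k) x| ^ (2 * r)) / t) := by
          rw [← mul_sum, sum_add_distrib, ← mul_sum, sum_div]
      _ ≤ W * (t * (E * H) + B * H / t) := by gcongr
      _ = (W * t * E + W * B / t) * H := by ring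
      _ = _ := by
          congr 2
          · rw [ht, hW, hB, hE, hA, hK]; simp only [mul_pow, ← pow_mul]; ring
          · rw [ht, one_div_pow]; field_simp
  calc ∑ x, |v x| ^ (r + 1)
      ≤ ∑ x, 2 ^ (r + 1) * (|g L0 x| ^ (r + 1) + ∑ k ∈ range m,
          (2 ^ (k + 1) * |g (L0 + (k + 1)) x - g (L0 + k) x|) ^ (r + 1)) := by
        refine sum_le_sum fun x _ => ?_
        rw [htel x]
        refine (abs_add_pow_le _ _ _).trans ?_
        gcongr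
        exact abs_sum_pow_le m (r + 1) (by omega) _
    _ = 2 ^ (r + 1) * (∑ x, |g L0 x| ^ (r + 1) + ∑ k ∈ range m, ∑ x,
          (2 ^ (k + 1) * |g (L0 + (k + 1)) x - g (L0 + k) x|) ^ (r + 1)) := by
        rw [← mul_sum, sum_add_distrib, sum_comm]
    _ ≤ 2 ^ (r + 1) * ((β ^ (L0 + 1)) ^ (r + 1) * H + C1 * H) := by
        gcongr
        · exact hp L0
        · refine (sum_le_sum fun k _ => hk k).trans ?_
          rw [← sum_mul]
          exact mul_le_mul_of_nonneg_right (hsum.sum_le_tsum _ fun k _ => hterm k) hH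
    _ = _ := by ring

end SD
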