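import Pool.Agent.Lib.MP_ecee09_co.SD.LPa

/-! (LP), multiplier form. -/

namespace SD

open Finset

/-- one interpolation factor -/
noncomputable def lpF (J i : ℕ) (s : ℝ) : ℝ :=
  if i = J then 1 else (s - (1 / 2) ^ i) / ((1 / 2) ^ J - (1 / 2) ^ i)

/-- the multiplier of level `L` -/
noncomputable def lpM (J L : ℕ) (s : ℝ) : ℝ := (2 ^ J * s) ^ L * ∏ i ∈ range (L + 1), lpF J i s

theorem lp_gap {J i : ℕ} (h : i ≠ J) :
    (1 / 2 : ℝ) ^ (J + 1) ≤ |(1 / 2 : ℝ) ^ J - (1 / 2) ^ i| := by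
  have hJ : (0 : ℝ) < (1 / 2) ^ J := by positivity
  rcases lt_or_gt_of_ne h with h | h
  · have h1 : (1 / 2 : ℝ) ^ J ≤ (1 / 2) ^ (i + 1) :=
      pow_le_pow_of_le_one (by norm_num) (by norm_num) h
    rw [pow_succ] at h1 ⊢
    rw [abs_sub_comm]
    exact le_trans (by linarith) (le_abs_self _)
  · have h1 : (1 / 2 : ℝ) ^ i ≤ (1 / 2) ^ (J + 1) :=
      pow_le_pow_of_le_one (by norm_num) (by norm_num) h
    rw [pow_succ] at h1 ⊢
    exact le_trans (by linarith) (le_abs_self _)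

theorem lp_gap_inv {J i : ℕ} (h : i ≠ J) :
    |((1 / 2 : ℝ) ^ J - (1 / 2) ^ i)⁻¹| ≤ 2 ^ (J + 1) := by
  rw [abs_inv]
  have := inv_anti₀ (by positivity) (lp_gap h)
  rwa [one_div_pow (2 : ℝ) (J + 1), one_div ((2 : ℝ) ^ (J + 1)), inv_inv] at this

theorem abs_lpF_le (J i : ℕ) {s : ℝ} (h0 : 0 ≤ s) (h1 : s ≤ 1) : |lpF J i s| ≤ 2 ^ (J + 2) := by
  unfold lpF
  split_ifs with h
  · rw [abs_one]; exact one_le_pow₀ (by norm_num)
  · rw [div_eq_mul_inv, abs_mul, pow_succ' (2 : ℝ) (J + 1)]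
    refine mul_le_mul ?_ (lp_gap_inv h) (abs_nonneg _) (by norm_num)
    have a : (0 : ℝ) < (1 / 2) ^ i := by positivity
    have b : (1 / 2 : ℝ) ^ i ≤ 1 := pow_le_one₀ (by norm_num) (by norm_num)
    rw [abs_le]; constructor <;> linarith

theorem lpM_self (J L : ℕ) : lpM J L ((1 / 2) ^ J) = 1 := by
  unfold lpM
  rw [← mul_pow, show (2 : ℝ) * (1 / 2) = 1 by norm_num, one_pow, one_pow, one_mul]
  refine prod_eq_one fun i _ => ?_
  unfold lpF
  split_ifs with h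
  · rfl
  · refine div_self fun h0 => ?_
    have := lp_gap h
    rw [h0, abs_zero] at this
    exact absurd this (not_le.2 (by positivity))

theorem lpM_low {J L i : ℕ} (h : i ≠ J) (hi : i ≤ L) : lpM J L ((1 / 2) ^ i) = 0 := by
  unfold lpM
  rw [prod_eq_zero (i := i) (mem_range.2 (by omega)) (by simp [lpF, h]), mul_zero]

theorem lpM_zero (J : ℕ) {L : ℕ} (h : 1 ≤ L) : lpM J L 0 = 0 := by
  unfold lpM
  rw [mul_zero, zero_pow (by omega), zero_mul]

theorem lpM_high (J : ℕ) {L i : ℕ} (hi : L ≤ i) :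
    |lpM J L ((1 / 2) ^ i)| ≤ ((2 : ℝ) ^ (2 * J + 2)) ^ (L + 1) * (1 / 2) ^ (L ^ 2) := by
  unfold lpM
  have a : (0 : ℝ) < (1 / 2) ^ i := by positivity
  have b : (1 / 2 : ℝ) ^ i ≤ 1 := pow_le_one₀ (by norm_num) (by norm_num)
  have h1 : |∏ k ∈ range (L + 1), lpF J k ((1 / 2) ^ i)| ≤ ((2 : ℝ) ^ (J + 2)) ^ (L + 1) := by
    rw [abs_prod]
    calc _ ≤ ∏ _k ∈ range (L + 1), (2 : ℝ) ^ (J + 2) :=
          prod_le_prod (fun _ _ => abs_nonneg _) fun k _ => abs_lpF_le J k a.le b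
      _ = _ := by rw [prod_const, card_range]
  have h2 : |((2 : ℝ) ^ J * (1 / 2) ^ i) ^ L| ≤ (2 ^ J) ^ (L + 1) * (1 / 2) ^ (L ^ 2) := by
    rw [abs_of_nonneg (by positivity), mul_pow]
    refine mul_le_mul (pow_le_pow_right₀ (one_le_pow₀ (by norm_num)) (by omega)) ?_
      (by positivity) (by positivity)
    rw [← pow_mul]
    exact pow_le_pow_of_le_one (by norm_num) (by norm_num) (by nlinarith)
  rw [abs_mul]
  refine (mul_le_mul h2 h1 (abs_nonneg _) (by positivity)).trans_eq ?_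
  rw [show 2 * J + 2 = J + (J + 2) by ring, pow_add (2 : ℝ) J (J + 2), mul_pow]; ring

theorem mom_sub_le {X : Type} [Fintype X] (a b : X → ℝ) (c d κ N : ℝ) (q : ℕ) (hc : |c| ≤ 1)
    (hd : |d| ≤ κ) (ha : ∑ x, |a x| ^ q ≤ N) (hb : ∑ x, |b x| ^ q ≤ N) :
    ∑ x, |d * (a x - c * b x)| ^ q ≤ (2 * κ) ^ q * N := by
  rcases Nat.eq_zero_or_pos q with rfl | hq
  · simpa using ha
  obtain ⟨r, rfl⟩ : ∃ r, q = r + 1 := ⟨q - 1, by omega⟩
  have hκ : 0 ≤ κ := (abs_nonneg _).trans hd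
  calc ∑ x, |d * (a x - c * b x)| ^ (r + 1)
      ≤ ∑ x, κ ^ (r + 1) * (2 ^ r * (|a x| ^ (r + 1) + |b x| ^ (r + 1))) := by
        refine sum_le_sum fun x _ => ?_
        rw [abs_mul, mul_pow]
        refine mul_le_mul (pow_le_pow_left₀ (abs_nonneg _) hd _) ?_ (by positivity) (by positivity)
        have h1 : |a x - c * b x| ≤ |a x| + |b x| := by
          refine (abs_sub _ _).trans ?_
          rw [abs_mul]
          nlinarith [abs_nonneg (b x)]
        have h2 := add_pow_le (abs_nonneg (a x)) (abs_nonneg (b x)) (r + 1)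
        rw [Nat.add_sub_cancel] at h2
        exact (pow_le_pow_left₀ (abs_nonneg _) h1 _).trans h2
    _ = κ ^ (r + 1) * (2 ^ r * (∑ x, |a x| ^ (r + 1) + ∑ x, |b x| ^ (r + 1))) := by
        rw [← mul_sum, ← mul_sum, sum_add_distrib]
    _ ≤ κ ^ (r + 1) * (2 ^ r * (N + N)) := by gcongr
    _ = _ := by ring

theorem lp_mult (J r : ℕ) : ∃ C : ℝ, 0 ≤ C ∧
    ∀ (X Y : Type) [Fintype X] [Fintype Y] (χ : Y → X → ℝ) (S : (X → ℝ) → X → ℝ) (s : Y → ℝ)
      (rk : Y → ℕ) (cl : Y → Prop) (n : ℕ) (c w : Y → ℝ),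
      (∀ a : Y → ℝ, ∑ x, (∑ Q, a Q * χ Q x) ^ 2 = Fintype.card X * ∑ Q, a Q ^ 2) →
      (∀ a : Y → ℝ, S (fun x => ∑ Q, a Q * χ Q x) = fun x => ∑ Q, s Q * a Q * χ Q x) →
      (∀ (q : ℕ) g, ∑ x, |S g x| ^ q ≤ ∑ x, |g x| ^ q) →
      (∀ Q, cl Q → s Q = (1 / 2) ^ rk Q) → (∀ Q, ¬ cl Q → s Q = 0) → (∀ Q, rk Q ≤ n) →
      (∀ Q, rk Q = J ∧ cl Q → w Q = 1) → (∀ Q, ¬ (rk Q = J ∧ cl Q) → w Q = 0) →
      ∑ x, |∑ Q, w Q * c Q * χ Q x| ^ (r + 1) ≤
        C * (Fintype.card X + ∑ x, |∑ Q, c Q * χ Q x| ^ (2 * (r + 1))) := by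
  obtain ⟨C, hC, hT⟩ := telescope_moment r (max J 1) (2 ^ (2 * J + 2)) (one_le_pow₀ (by norm_num))
  refine ⟨C, hC, ?_⟩
  intro X Y _ _ χ S s rk cl n c w hP hS hM hs1 hs0 hn hw1 hw0
  set H : ℝ := Fintype.card X + ∑ x, |∑ Q, c Q * χ Q x| ^ (2 * (r + 1)) with hH
  have hH0 : 0 ≤ H := by positivity
  have hj : ∀ j, j ≤ 2 * (r + 1) → ∑ x, |∑ Q, c Q * χ Q x| ^ j ≤ H := by
    intro j hj
    rw [hH, ← card_univ, card_eq_sum_ones, Nat.cast_sum, ← sum_add_distrib]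
    refine sum_le_sum fun x _ => ?_
    rcases le_total |∑ Q, c Q * χ Q x| 1 with h | h
    · have := pow_le_one₀ (n := j) (abs_nonneg _) h
      have : 0 ≤ |∑ Q, c Q * χ Q x| ^ (2 * (r + 1)) := by positivity
      push_cast; linarith
    · have := pow_le_pow_right₀ h hj
      push_cast; linarith
  -- the error of the multiplier
  have herr : ∀ L, max J 1 ≤ L → ∀ Q, (rk Q ≤ L → lpM J L (s Q) = w Q) ∧
      |lpM J L (s Q) - w Q| ≤ ((2 : ℝ) ^ (2 * J + 2)) ^ (L + 1) * (1 / 2) ^ (L ^ 2) := by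
    intro L hL Q
    have hpos : (0 : ℝ) ≤ ((2 : ℝ) ^ (2 * J + 2)) ^ (L + 1) * (1 / 2) ^ (L ^ 2) := by positivity
    by_cases hc : cl Q
    · by_cases hJ : rk Q = J
      · rw [hs1 Q hc, hw1 Q ⟨hJ, hc⟩, hJ, lpM_self]; simp
      · rw [hs1 Q hc, hw0 Q fun h => hJ h.1]
        refine ⟨fun h => lpM_low hJ h, ?_⟩
        rcases le_total (rk Q) L with h | h
        · rw [lpM_low hJ h]; simp
        · rw [sub_zero]; exact lpM_high J h
    · rw [hs0 Q hc, hw0 Q fun h => hc h.2, lpM_zero J (le_trans (le_max_right _ _) hL)]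
      simp
  -- moments
  have hB : ∀ (q L : ℕ), ∑ x, |∑ Q, (∏ i ∈ range L, lpF J i (s Q)) * c Q * χ Q x| ^ q ≤
      (((2 : ℝ) ^ (J + 2)) ^ L) ^ q * ∑ x, |∑ Q, c Q * χ Q x| ^ q := by
    intro q L
    induction L with
    | zero => simp
    | succ L ih =>
      have hN : 0 ≤ ∑ x, |∑ Q, c Q * χ Q x| ^ q := by positivity
      by_cases h : L = J
      · simp only [prod_range_succ]
        have : ∀ Q, lpF J L (s Q) = 1 := fun Q => by simp [lpF, h]
        simp only [this, mul_one]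
        refine ih.trans (mul_le_mul_of_nonneg_right (pow_le_pow_left₀ (by positivity)
          (pow_le_pow_right₀ (one_le_pow₀ (by norm_num)) (by omega)) _) hN)
      · have h1 := (hM q fun x => ∑ Q, ((∏ i ∈ range L, lpF J i (s Q)) * c Q) * χ Q x).trans ih
        rw [hS] at h1
        have h2 := mom_sub_le _ _ ((1 / 2) ^ L) _ _ _ q
          (by rw [abs_of_nonneg (by positivity)]; exact pow_le_one₀ (by norm_num) (by norm_num))
          (lp_gap_inv h) h1 ih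
        refine le_of_eq_of_le (sum_congr rfl fun x _ => ?_) (h2.trans_eq ?_)
        · congr 2
          rw [mul_sum, ← sum_sub_distrib, mul_sum]
          refine sum_congr rfl fun Q _ => ?_
          rw [prod_range_succ, lpF, if_neg h, div_eq_mul_inv]; ring
        · rw [pow_succ _ L, ← pow_succ' (2 : ℝ) (J + 1), mul_pow, mul_comm (_ ^ q) (_ ^ q),
            mul_assoc]
  have hG : ∀ (q L j : ℕ), ∑ x, |∑ Q, ((2 ^ J * s Q) ^ j * ∏ i ∈ range L, lpF J i (s Q)) * c Q *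
      χ Q x| ^ q ≤ (((2 : ℝ) ^ J) ^ j * ((2 : ℝ) ^ (J + 2)) ^ L) ^ q *
        ∑ x, |∑ Q, c Q * χ Q x| ^ q := by
    intro q L j
    induction j with
    | zero => simpa using hB q L
    | succ j ih =>
      have h1 := (hM q fun x => ∑ Q, (((2 ^ J * s Q) ^ j * ∏ i ∈ range L, lpF J i (s Q)) * c Q) *
        χ Q x).trans ih
      rw [hS] at h1
      have h2 := mul_le_mul_of_nonneg_left h1 (show (0 : ℝ) ≤ (2 ^ J) ^ q by positivity)
      refine le_of_eq_of_le ?_ (h2.trans_eq ?_)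
      · rw [mul_sum]
        refine sum_congr rfl fun x _ => ?_
        rw [← mul_pow, ← abs_of_nonneg (show (0 : ℝ) ≤ 2 ^ J by positivity), ← abs_mul,
          abs_of_nonneg (show (0 : ℝ) ≤ 2 ^ J by positivity), mul_sum]
        congr 2
        exact sum_congr rfl fun Q _ => by ring
      · rw [pow_succ _ j, mul_pow, mul_pow, mul_pow]; ring
  have hG' : ∀ (q L : ℕ), q ≤ 2 * (r + 1) → ∑ x, |∑ Q, lpM J L (s Q) * c Q * χ Q x| ^ q ≤
      (((2 : ℝ) ^ (2 * J + 2)) ^ (L + 1)) ^ q * H := by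
    intro q L hq
    refine (hG q (L + 1) L).trans (mul_le_mul (pow_le_pow_left₀ (by positivity) ?_ _) (hj q hq)
      (by positivity) (by positivity))
    rw [show 2 * J + 2 = J + (J + 2) by ring, pow_add (2 : ℝ) J (J + 2), mul_pow]
    exact mul_le_mul_of_nonneg_right (pow_le_pow_right₀ (one_le_pow₀ (by norm_num)) (by omega))
      (by positivity)
  refine hT X (fun L x => ∑ Q, lpM J L (s Q) * c Q * χ Q x) _ H (max (max J 1) n) (le_max_left _ _)
    ?_ hH0 (fun L hL => ?_) (fun L => hG' _ L (by omega)) (fun L => hG' _ L (by omega))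
  · funext x
    refine sum_congr rfl fun Q _ => ?_
    rw [(herr _ (le_max_left _ _) Q).1 ((hn Q).trans (le_max_right _ _))]
  · have e : ∀ x, ∑ Q, lpM J L (s Q) * c Q * χ Q x - ∑ Q, w Q * c Q * χ Q x =
        ∑ Q, ((lpM J L (s Q) - w Q) * c Q) * χ Q x := fun x => by
      rw [← sum_sub_distrib]; exact sum_congr rfl fun Q _ => by ring
    simp only [e]
    rw [hP]
    have h2 := hj 2 (by omega)
    simp only [sq_abs] at h2
    rw [hP] at h2
    refine le_trans ?_ (mul_le_mul_of_nonneg_left h2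
      (sq_nonneg (((2 : ℝ) ^ (2 * J + 2)) ^ (L + 1) * (1 / 2) ^ (L ^ 2))))
    rw [mul_left_comm]
    refine mul_le_mul_of_nonneg_left ?_ (Nat.cast_nonneg _)
    rw [mul_sum]
    refine sum_le_sum fun Q _ => ?_
    rw [mul_pow]
    refine mul_le_mul_of_nonneg_right ?_ (sq_nonneg _)
    rw [← sq_abs]
    exact pow_le_pow_left₀ (abs_nonneg _) (herr L hL Q).2 2

end SD
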