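import Pool.Agent.Lib.MP_ecee09_co.SD.MOM3
import Pool.Agent.Lib.MP_ecee09_co.SD.Stmts

/-! The moment lemma (MOM). -/

namespace SD.Mo

open Module QuadraticMap

variable {n R : ℕ} {E : Type} [AddCommGroup E] [Module F E]

/-- the admissible row spaces -/
def TT (q : QF E) (T : Submodule F (Fin R → E)) : Prop := ∀ w ∈ T, ∀ e, ∑ r, q (w r + e) = 0

lemma TT.iso {q : QF E} {T : Submodule F (Fin R → E)} (h : TT q T) {w w' : Fin R → E}
    (hw : w ∈ T) (hw' : w' ∈ T) : brk q w w' = 0 := by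
  have h1 := h _ (T.add_mem hw hw') 0
  have h2 := h _ hw 0
  have h3 := h _ hw' 0
  simp only [add_zero, Pi.add_apply] at h1 h2 h3
  simp only [brk, polar_eq, Finset.sum_add_distrib, h1, h2, h3, add_zero]

lemma TT.diag {q : QF E} {T : Submodule F (Fin R → E)} (h : TT q T) {w : Fin R → E}
    (hw : w ∈ T) (e : E) : brk q w (fun _ => e) = 0 := by
  have h1 := h _ hw e
  have h2 := h _ hw 0
  have h3 := h _ T.zero_mem e
  simp only [add_zero, Pi.zero_apply, zero_add] at h2 h3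
  simp only [brk, polar_eq, Finset.sum_add_distrib, h1, h2, h3, add_zero]

/-- the row space of a tuple of labels -/
def rows (Z : Fin R → Fin n → E) : Submodule F (Fin R → E) :=
  LinearMap.range (lin fun i r => Z r i)

lemma rows_le {Z : Fin R → Fin n → E} {T : Submodule F (Fin R → E)} :
    rows Z ≤ T ↔ ∀ i, (fun r => Z r i) ∈ T := by
  rw [rows, lin, Fintype.range_linearCombination, Submodule.span_le, Set.range_subset_iff]
  rfl

lemma lin_row (Z : Fin R → Fin n → E) (x : Fk n) (r : Fin R) :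
    lin (fun i r => Z r i) x r = lin (Z r) x := by
  simp [lin, Fintype.linearCombination_apply]

lemma sum_QZ_iff (q : QF E) (Z : Fin R → Fin n → E) :
    ∑ r, QZ q (Z r) = 0 ↔ TT q (rows Z) := by
  constructor
  · rintro h _ ⟨x, rfl⟩ e
    have := congrArg (fun Q : QF (Fk n × E) => Q (x, e)) h
    simpa only [_root_.sum_apply, QZ_apply, _root_.zero_apply, lin_row] using this
  · intro h
    refine QuadraticMap.ext fun p => ?_
    have := h _ ⟨p.1, rfl⟩ p.2
    rw [_root_.sum_apply]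
    simp only [lin_row] at this
    exact this

/-- the orthogonal complement for `brk` -/
def pp (q : QF E) (T : Submodule F (Fin R → E)) : Submodule F (Fin R → E) :=
  (brkB q).orthogonal T

lemma mem_pp {q : QF E} {T : Submodule F (Fin R → E)} {x : Fin R → E} :
    x ∈ pp q T ↔ ∀ w ∈ T, brk q w x = 0 := Iff.rfl

lemma TT_PS (q : QF E) {m : Fin R → Fin R} (hm : IsM m) : TT q (PS E m) := fun w hw e =>
  Finset.sum_involution (fun r _ => m r) (fun r _ => by rw [hw r, F_add_self])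
    (fun r _ _ => hm.2 r) (fun _ _ => Finset.mem_univ _) fun r _ => hm.1 r

lemma pair_mem {m : Fin R → Fin R} (hm : IsM m) (r : Fin R) (e : E) :
    (Pi.single r e + Pi.single (m r) e : Fin R → E) ∈ PS E m := fun j => by
  have h1 : m j = r ↔ j = m r := ⟨fun h => by rw [← h, hm.1], fun h => by rw [h, hm.1]⟩
  have h2 : m j = m r ↔ j = r := ⟨fun h => by rw [← hm.1 j, h, hm.1], fun h => by rw [h]⟩
  simp only [Pi.add_apply, Pi.single_apply, h1, h2]
  exact add_comm _ _

lemma pp_PS_le {q : QF E} (hq : ND q) {m : Fin R → Fin R} (hm : IsM m) :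
    pp q (PS E m) ≤ PS E m := fun x hx r => by
  refine add_eq_zero2.1 (hq _ fun e => ?_)
  have := hx _ (pair_mem hm r e)
  rwa [brkB_apply, brk_add_left, brk_single, brk_single, ← polar_add_right, add_comm] at this

lemma PS_max {q : QF E} (hq : ND q) {m : Fin R → Fin R} (hm : IsM m)
    {T : Submodule F (Fin R → E)} (hT : TT q T) (h : PS E m ≤ T) : T = PS E m :=
  le_antisymm (fun _ hx => pp_PS_le hq hm fun _ hw => hT.iso (h hw) hx) h

lemma pp_PS {q : QF E} (hq : ND q) {m : Fin R → Fin R} (hm : IsM m) :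
    pp q (PS E m) = PS E m :=
  le_antisymm (pp_PS_le hq hm) fun _ hx _ hw => (TT_PS q hm).iso hw hx

lemma PS_inj [Nontrivial E] {m m' : Fin R → Fin R} (hm : IsM m) (hm' : IsM m')
    (h : PS E m = PS E m') : m = m' := by
  funext r
  obtain ⟨e, he⟩ := exists_ne (0 : E)
  have h1 := (h ▸ pair_mem hm r e : _ ∈ PS E m') r
  by_contra h2
  rw [Pi.add_apply, Pi.add_apply, Pi.single_eq_of_ne (hm'.2 r), Pi.single_eq_of_ne (Ne.symm h2),
    Pi.single_eq_same, Pi.single_eq_of_ne (hm.2 r).symm, add_zero, add_zero] at h1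
  exact he h1.symm

variable [Finite E]

lemma pp_pp {q : QF E} (hq : ND q) (T : Submodule F (Fin R → E)) : pp q (pp q T) = T := by
  have hr : (brkB (ι := Fin R) q).IsRefl := fun x y h => by rwa [brkB_apply, brk_comm]
  refine LinearMap.BilinForm.orthogonal_orthogonal ?_ hr T
  exact ⟨fun x hx => brk_nd q hq x fun b => by rw [brk_comm]; exact hx b,
    fun x hx => brk_nd q hq x hx⟩

lemma AT_eq_mW {q : QF E} (hq : ND q) (c : (Fin n → E) → ℝ) {T : Submodule F (Fin R → E)}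
    (hT : TT q T) (z : Fin R → Fin n → E) : AT q c T z = mW (fld q c) (pp q T) z := by
  rw [mW_eq]
  refine sm_congr fun Z => ?_
  congr 1
  refine ind_congr ⟨fun h => ⟨?_, fun i w hw => ?_⟩, fun h i => ?_⟩
  · exact (sum_QZ_iff q Z).2 fun w hw => hT w (rows_le.2 h hw)
  · rw [brk_comm]
    exact hw _ (h i)
  · rw [← pp_pp hq T]
    exact h.2 i

lemma abs_le_of_pow {x ε : ℝ} {p : ℕ} (hp : Even p) (hp0 : p ≠ 0) (hε : 0 ≤ ε)
    (h : x ^ p ≤ ε ^ p) : |x| ≤ ε := by
  rw [← hp.pow_abs] at h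
  exact (pow_le_pow_iff_left₀ (abs_nonneg _) hε hp0).1 h

/-- matchings that respect the labels -/
def Good {L : Type} (t : Fin R → L) (m : Fin R → Fin R) : Prop :=
  (∀ r, m (m r) = r) ∧ (∀ r, m r ≠ r) ∧ ∀ r, t (m r) = t r

lemma Good.isM {L : Type} {t : Fin R → L} {m : Fin R → Fin R} (h : Good t m) : IsM m :=
  ⟨h.1, h.2.1⟩

theorem term_le (hCL : CL) [Nontrivial E] {D : ℕ → ℝ} {q : QF E} (hq : ND q)
    {c : (Fin n → E) → ℝ} (hK : Tame D (fld q c)) {R0 : ℕ} (hR : R ≤ R0) {η ε : ℝ} (h0 : 0 ≤ η)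
    (hε : 0 ≤ ε) (e1 : Gm D R0 ^ 3 * η ≤ ε ^ 4) (e2 : Gm D R0 ^ 7 * η ≤ ε ^ 8)
    (e3 : ((1 + |D 2|) ^ R0) ^ 2 * η ≤ ε ^ 2)
    (hη : ∀ S : Submodule F E, S ≠ ⊥ → S ≠ ⊤ → box (fld q c) S (perp q S) ≤ η)
    (hη3 : box3 (fld q c) ≤ η) {κ : Type} [Fintype κ] (t : Fin R → κ → E)
    {T : Submodule F (Fin R → E)} (hT : TT q T) :
    |(av fun y : κ → Fk n => AT q c T fun r => star y (t r)) -
      Real.sqrt (sm fun Z => c Z ^ 2) ^ R * sm fun m => ind (Good t m ∧ T = PS E m)| ≤ ε := by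
  by_cases hg : ∃ m, Good t m ∧ T = PS E m
  · obtain ⟨m, hm, rfl⟩ := hg
    have h1 : ∀ m', ind (Good t m' ∧ PS E m = PS E m') = ind (m' = m) := fun m' =>
      ind_congr ⟨fun h => (PS_inj hm.isM h.1.isM h.2).symm, fun h => by rw [h]; exact ⟨hm, rfl⟩⟩
    have h2 : ∀ y : κ → Fk n, (AT q c (PS E m) fun r => star y (t r)) =
        Real.sqrt (sm fun Z => c Z ^ 2) ^ R := fun y =>
      AT_matched q c hm.isM _ fun r => by rw [hm.2.2 r]
    simp only [h1, h2]
    rw [sm_ind_one, av_const, mul_one, sub_self, abs_zero]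
    exact hε
  have h1 : ∀ m, ind (Good t m ∧ T = PS E m) = 0 := fun m => ind_neg fun h => hg ⟨m, h⟩
  simp only [h1]
  rw [sm_zero, mul_zero, sub_zero]
  have hall : (∀ z, |mW (fld q c) (pp q T) z| ≤ ε) →
      |av fun y : κ → Fk n => AT q c T fun r => star y (t r)| ≤ ε := fun h =>
    (abs_av_le _).trans (av_le_const fun y => by rw [AT_eq_mW hq c hT]; exact h _)
  rcases hCL E q hq R (pp q T)
    (fun x hx => by
      have : x ∈ pp q (pp q T) := fun w hw => by rw [brkB_apply, brk_comm]; exact hx w hw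
      rw [pp_pp hq] at this
      exact fun w hw => hT.iso hw this)
    (fun e w hw => hT.diag hw e) with ⟨r, C, S, -, s1, s2, s3, s4⟩ | ⟨r, cl, s1⟩ | ⟨m, m1, m2, m3⟩
  · exact hall fun z => abs_le_of_pow (by decide) (by decide) hε
      ((case_a hK hR _ z r C S _ (hη S s1 s2) s3 s4 h0).trans e1)
  · exact hall fun z => abs_le_of_pow (by decide) (by decide) hε
      ((case_b hK hR _ z r cl hη3 s1 h0).trans e2)
  · have hm : IsM m := ⟨m1, m2⟩
    have hW : pp q T = PS E m := Submodule.ext m3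
    have hT' : T = PS E m := by rw [← pp_pp hq T, hW, pp_PS hq hm]
    have hne : ¬ ∀ r, t (m r) = t r := fun h => hg ⟨m, ⟨m1, m2, h⟩, hT'⟩
    rw [hT']
    exact abs_le_of_pow (by decide) (by decide) hε ((case_c hq hK hR hη t hm hne).trans e3)

lemma card_sub_le {J R0 : ℕ} (hJ : finrank F E = J) (hR : R ≤ R0)
    (s : Finset (Submodule F (Fin R → E))) : s.card ≤ 2 ^ (2 ^ J) ^ R0 := by
  classical
  let _ := Fintype.ofFinite (Fin R → E)
  have h1 : s.card ≤ (Finset.univ : Finset (Set (Fin R → E))).card :=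
    Finset.card_le_card_of_injOn (fun T => (T : Set (Fin R → E))) (fun _ _ => Finset.mem_univ _)
      fun _ _ _ _ h => SetLike.coe_injective h
  rw [Finset.card_univ, Fintype.card_set, ← Nat.card_eq_fintype_card, Nat.card_fun, card_eq_pow,
    hJ, Nat.card_eq_fintype_card, Fintype.card_fin] at h1
  exact h1.trans (Nat.pow_le_pow_right (by decide)
    (Nat.pow_le_pow_right (Nat.two_pow_pos J) hR))

theorem expand {q : QF E} (hq : ND q) : ∃ (s : Finset (Submodule F (Fin R → E)))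
    (a : Submodule F (Fin R → E) → ℝ), (∀ T ∈ s, TT q T) ∧ ∑ T ∈ s, |a T| ≤ 2 ^ s.card ∧
      (∀ U, ind (TT q U) = ∑ T ∈ s, a T * ind (U ≤ T)) ∧
      ∀ m, IsM m → ∑ T ∈ s, a T * ind (T = PS E m) = 1 := by
  classical
  let _ : Fintype (Submodule F (Fin R → E)) := Fintype.ofFinite _
  obtain ⟨a, ha, hb⟩ := Moa.exists_moebius
    (Finset.univ.filter fun T : Submodule F (Fin R → E) => TT q T)
  have h1 : ∀ U, ind (TT q U) = ∑ T ∈ Finset.univ.filter (fun T : Submodule F (Fin R → E) =>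
      TT q T), a T * ind (U ≤ T) := fun U => by
    by_cases hU : TT q U
    · rw [ind_pos hU, ← ha U (by simpa using hU), Finset.sum_filter (fun T => U ≤ T)]
      exact Finset.sum_congr rfl fun T _ => by by_cases h : U ≤ T <;> simp [ind, h]
    · rw [ind_neg hU]
      refine (Finset.sum_eq_zero fun T hT => ?_).symm
      rw [ind_neg fun h => hU fun w hw => (Finset.mem_filter.1 hT).2 w (h hw), mul_zero]
  refine ⟨_, a, fun T hT => (Finset.mem_filter.1 hT).2, by linarith, h1, fun m hm => ?_⟩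
  rw [← ind_pos (TT_PS q hm), h1]
  refine Finset.sum_congr rfl fun T hT => ?_
  congr 1
  exact ind_congr ⟨fun h => h.ge, fun h => PS_max hq hm (Finset.mem_filter.1 hT).2 h⟩

end SD.Mo

namespace SD

open Module Mo

theorem mom_of (hCL : CL) : MOM := by
  intro D J R0 δ hδ
  obtain ⟨ε, hε, hεδ⟩ : ∃ ε : ℝ, 0 < ε ∧ 2 ^ (2 ^ (2 ^ J) ^ R0) * ε = δ :=
    ⟨δ / 2 ^ (2 ^ (2 ^ J) ^ R0), by positivity, by field_simp⟩
  have hG : 0 < Gm D R0 := zero_lt_one.trans_le (one_le_Gm D R0)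
  obtain ⟨η, h0, e1, e2, e3⟩ : ∃ η : ℝ, 0 < η ∧ Gm D R0 ^ 3 * η ≤ ε ^ 4 ∧
      Gm D R0 ^ 7 * η ≤ ε ^ 8 ∧ ((1 + |D 2|) ^ R0) ^ 2 * η ≤ ε ^ 2 :=
    ⟨min (min (ε ^ 4 / Gm D R0 ^ 3) (ε ^ 8 / Gm D R0 ^ 7)) (ε ^ 2 / ((1 + |D 2|) ^ R0) ^ 2),
      by positivity,
      (le_div_iff₀' (by positivity)).1 ((min_le_left _ _).trans (min_le_left _ _)),
      (le_div_iff₀' (by positivity)).1 ((min_le_left _ _).trans (min_le_right _ _)),
      (le_div_iff₀' (by positivity)).1 (min_le_right _ _)⟩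
  refine ⟨η, h0, fun n E _ _ _ q c hJ hJ1 hq hK hη hη3 κ _ R hR t => ?_⟩
  have : Nontrivial E := Module.nontrivial_of_finrank_pos (R := F) (by omega)
  obtain ⟨s, a, hs, ha, hU, hM⟩ := expand (R := R) hq
  have h1 : (av fun M => av fun y : κ → Fk n => ∏ r, fld q c (M + tau (star y (t r)))) =
      ∑ T ∈ s, a T * av fun y : κ → Fk n => AT q c T fun r => star y (t r) := by
    rw [av_comm]
    simp only [← av_mul_left]
    rw [← av_sum s fun T (y : κ → Fk n) => a T * AT q c T fun r => star y (t r)]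
    refine av_congr fun y => ?_
    rw [av_prod_fld q c fun r => star y (t r)]
    simp only [AT, ← sm_mul_left]
    rw [← sm_sum s fun T (Z : Fin R → Fin n → E) =>
      a T * (wt q c (fun r => star y (t r)) Z * ind (∀ i, (fun r => Z r i) ∈ T))]
    refine sm_congr fun Z => ?_
    rw [ind_congr (sum_QZ_iff q Z), hU, Finset.mul_sum]
    refine Finset.sum_congr rfl fun T _ => ?_
    rw [ind_congr rows_le]
    ring
  have h2 : pm t = ∑ T ∈ s, a T * sm fun m => ind (Good t m ∧ T = PS E m) := by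
    simp only [← sm_mul_left]
    rw [← sm_sum s fun T m => a T * ind (Good t m ∧ T = PS E m)]
    refine sm_congr fun m => ?_
    change ind (Good t m) = _
    by_cases hm : Good t m
    · rw [ind_pos hm, ← hM m hm.isM]
      exact Finset.sum_congr rfl fun T _ => by rw [ind_and, ind_pos hm, one_mul]
    · rw [ind_neg hm]
      exact (Finset.sum_eq_zero fun T _ => by rw [ind_neg fun h => hm h.1, mul_zero]).symm
  rw [h1, h2, Finset.mul_sum, ← Finset.sum_sub_distrib]
  refine (Finset.abs_sum_le_sum_abs _ _).trans ?_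
  have h3 : ∀ T ∈ s, |(a T * av fun y : κ → Fk n => AT q c T fun r => star y (t r)) -
      Real.sqrt (sm fun Z => c Z ^ 2) ^ R * (a T * sm fun m => ind (Good t m ∧ T = PS E m))| ≤
      |a T| * ε := fun T hT => by
    rw [mul_left_comm, ← mul_sub, abs_mul]
    exact mul_le_mul_of_nonneg_left
      (term_le hCL hq hK hR h0.le hε.le e1 e2 e3 hη hη3 t (hs T hT)) (abs_nonneg _)
  refine (Finset.sum_le_sum h3).trans ?_
  rw [← Finset.sum_mul, ← hεδ]
  exact mul_le_mul_of_nonneg_right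
    (ha.trans (pow_le_pow_right₀ one_le_two (card_sub_le hJ hR s))) hε.le

end SD
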