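import Pool.Agent.Lib.MP_ecee09_co.SD.Base

/-! Moment lemma, part 1: Fourier expansion of products of shifted fields. -/

namespace SD.Mo

open Module QuadraticMap

variable {n R : ℕ} {E : Type} [AddCommGroup E] [Module F E]

lemma polar_eq {V : Type} [AddCommGroup V] [Module F V] (Q : QF V) (x y : V) :
    polar Q x y = Q (x + y) + Q x + Q y := by
  rw [QuadraticMap.polar, sub_eq2, sub_eq2]

lemma polar_self2 {V : Type} [AddCommGroup V] [Module F V] (Q : QF V) (x : V) :
    polar Q x x = 0 := by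
  rw [polar_eq, add_self2, map_zero, zero_add, F_add_self]

section brk
variable {ι : Type} [Fintype ι] (q : QF E)

lemma brk_add_left (b b' Z : ι → E) : brk q (b + b') Z = brk q b Z + brk q b' Z := by
  simp only [brk, Pi.add_apply, polar_add_left, Finset.sum_add_distrib]

lemma brk_add_right (b Z Z' : ι → E) : brk q b (Z + Z') = brk q b Z + brk q b Z' := by
  simp only [brk, Pi.add_apply, polar_add_right, Finset.sum_add_distrib]

lemma brk_comm (b Z : ι → E) : brk q b Z = brk q Z b :=
  Finset.sum_congr rfl fun _ _ => polar_comm _ _ _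

lemma brk_zero_left (Z : ι → E) : brk q 0 Z = 0 := by simp [brk]

lemma brk_single [DecidableEq ι] (i : ι) (e : E) (Z : ι → E) :
    brk q (Pi.single i e) Z = polar q e (Z i) := by
  rw [brk, Finset.sum_eq_single i]
  · simp
  · intro j _ hj; simp [Pi.single_eq_of_ne hj]
  · simp

/-- the bilinear form `brk` -/
def brkB : LinearMap.BilinForm F (ι → E) :=
  linOf (fun b => linOf (brk q b) (brk_add_right q b)) fun b b' =>
    LinearMap.ext fun Z => brk_add_left q b b' Z

@[simp] lemma brkB_apply (b Z : ι → E) : brkB q b Z = brk q b Z := rfl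

lemma brk_nd (hq : ND q) (Z : ι → E) (h : ∀ b, brk q b Z = 0) : Z = 0 := by
  classical
  funext i
  exact hq _ fun e => by rw [← brk_single q i e Z, h]

end brk

lemma tau_apply (b : Fin n → E) (Q : QF (Fk n × E)) :
    tau b Q = ∑ i, polar Q (Pi.single i 1, 0) (0, b i) := by
  rw [tau, LinearMap.sum_apply]
  refine Finset.sum_congr rfl fun i _ => ?_
  rw [polar_eq, Prod.mk_add_mk, add_zero, zero_add]
  rfl

lemma tau_add (b b' : Fin n → E) : tau (b + b') = tau b + tau b' := by
  refine LinearMap.ext fun Q => ?_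
  rw [LinearMap.add_apply, tau_apply, tau_apply, tau_apply, ← Finset.sum_add_distrib]
  refine Finset.sum_congr rfl fun i _ => ?_
  rw [← polar_add_right, Prod.mk_add_mk, add_zero, Pi.add_apply]

lemma tau_zero : tau (0 : Fin n → E) = 0 := by simpa using tau_add (0 : Fin n → E) 0

lemma QZ_apply (q : QF E) (Z : Fin n → E) (x : Fk n) (e : E) :
    QZ q Z (x, e) = q (lin Z x + e) := rfl

lemma lin_single {V : Type} [AddCommGroup V] [Module F V] (Z : Fin n → V) (i : Fin n) :
    lin Z (Pi.single i 1) = Z i := by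
  simp [lin]

lemma tau_QZ (q : QF E) (b Z : Fin n → E) : tau b (QZ q Z) = brk q b Z := by
  rw [tau_apply, brk]
  refine Finset.sum_congr rfl fun i _ => ?_
  rw [polar_comm q, polar_eq, polar_eq, Prod.mk_add_mk, QZ_apply, QZ_apply, QZ_apply]
  simp only [add_zero, zero_add, map_zero, lin_single]

lemma QZ_inj {q : QF E} (hq : ND q) {Z Z' : Fin n → E} (h : QZ q Z = QZ q Z') : Z = Z' := by
  refine add_eq_zero2.1 (brk_nd q hq _ fun b => ?_)
  rw [brk_add_right, ← tau_QZ, ← tau_QZ, h, F_add_self]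

lemma fld_tau (q : QF E) (c : (Fin n → E) → ℝ) (M : G (Fk n × E)) (b : Fin n → E) :
    fld q c (M + tau b) = sm fun Z => c Z * sg (brk q b Z) * chi (QZ q Z) M := by
  refine sm_congr fun Z => ?_
  rw [chi, chi, LinearMap.add_apply, sg_add, tau_QZ]
  ring

/-- the weight of a tuple of labels -/
noncomputable def wt (q : QF E) (c : (Fin n → E) → ℝ) (z Z : Fin R → Fin n → E) : ℝ :=
  ∏ r, c (Z r) * sg (brk q (z r) (Z r))

variable [Finite E]

lemma av_prod_fld (q : QF E) (c : (Fin n → E) → ℝ) (z : Fin R → Fin n → E) :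
    (av fun M => ∏ r, fld q c (M + tau (z r))) =
      sm fun Z : Fin R → Fin n → E => wt q c z Z * ind (∑ r, QZ q (Z r) = 0) := by
  simp only [fld_tau]
  have h : ∀ M : G (Fk n × E),
      (∏ r, sm fun Z => c Z * sg (brk q (z r) Z) * chi (QZ q Z) M) =
        sm fun Z : Fin R → Fin n → E => wt q c z Z * sg (M (∑ r, QZ q (Z r))) := fun M => by
    rw [prod_sm fun r Z => c Z * sg (brk q (z r) Z) * chi (QZ q Z) M]
    refine sm_congr fun Z => ?_
    rw [Finset.prod_mul_distrib, map_sum, sg_sum]
    rfl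
  simp only [h]
  rw [av_sm_comm]
  refine sm_congr fun Z => ?_
  rw [av_mul_left, av_sg_dual]

/-- the two point function -/
noncomputable def two (q : QF E) (c : (Fin n → E) → ℝ) (h : Fin n → E) : ℝ :=
  sm fun Z => c Z ^ 2 * sg (brk q h Z)

lemma av_two {q : QF E} (hq : ND q) (c : (Fin n → E) → ℝ) (h : Fin n → E) :
    (av fun M => fld q c M * fld q c (M + tau h)) = two q c h := by
  have h1 : ∀ M, fld q c M * fld q c (M + tau h) =
      sm fun Z => sm fun Z' => c Z * (c Z' * sg (brk q h Z')) * sg (M (QZ q Z + QZ q Z')) :=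
    fun M => by
      rw [fld_tau, fld, sm_mul_sm]
      refine sm_congr fun Z => sm_congr fun Z' => ?_
      rw [map_add, sg_add, chi, chi]
      ring
  simp only [h1]
  rw [av_sm_comm]
  refine sm_congr fun Z => ?_
  rw [av_sm_comm]
  have h2 : ∀ Z', (av fun M : G (Fk n × E) =>
      c Z * (c Z' * sg (brk q h Z')) * sg (M (QZ q Z + QZ q Z'))) =
        ind (Z = Z') * (c Z * (c Z' * sg (brk q h Z'))) := fun Z' => by
    rw [av_mul_left, av_sg_dual, mul_comm]
    congr 1
    exact ind_congr ⟨fun h => QZ_inj hq (add_eq_zero2.1 h), fun h => by rw [h, add_self2]⟩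
  simp only [h2]
  rw [sm_ind_eq' Z fun Z' => c Z * (c Z' * sg (brk q h Z'))]
  ring

omit [Finite E] in
lemma two_zero (q : QF E) (c : (Fin n → E) → ℝ) : two q c 0 = sm fun Z => c Z ^ 2 := by
  simp only [two, brk_zero_left, sg_zero, mul_one]

lemma abs_two_le (q : QF E) (c : (Fin n → E) → ℝ) (h : Fin n → E) :
    |two q c h| ≤ sm fun Z => c Z ^ 2 := by
  refine (abs_sm_le _).trans (le_of_eq (sm_congr fun Z => ?_))
  rw [abs_mul, abs_sg, mul_one, abs_sq]

lemma sig_le {D : ℕ → ℝ} {q : QF E} (hq : ND q) {c : (Fin n → E) → ℝ} (hD : Tame D (fld q c)) :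
    (sm fun Z => c Z ^ 2) ≤ D 2 := by
  rw [← two_zero q, ← av_two hq, tau_zero]
  simpa only [add_zero, pow_two] using hD.sq

/-- the moment averaged over shifts with rows in `W` -/
noncomputable def mW (K : G (Fk n × E) → ℝ) (W : Submodule F (Fin R → E))
    (z : Fin R → Fin n → E) : ℝ :=
  av fun b : Fin n → W => av fun M => ∏ r, K (M + tau (z r + fun i => (b i).1 r))

lemma mW_eq (q : QF E) (c : (Fin n → E) → ℝ) (W : Submodule F (Fin R → E))
    (z : Fin R → Fin n → E) :
    mW (fld q c) W z = sm fun Z : Fin R → Fin n → E => wt q c z Z *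
      ind (∑ r, QZ q (Z r) = 0 ∧ ∀ i, ∀ w ∈ W, brk q w (fun r => Z r i) = 0) := by
  classical
  simp only [mW, av_prod_fld]
  rw [av_sm_comm]
  refine sm_congr fun Z => ?_
  have h1 : ∀ b : Fin n → W, wt q c (fun r => z r + fun i => (b i).1 r) Z =
      wt q c z Z * sg (∑ i, brk q (b i).1 (fun r => Z r i)) := fun b => by
    have : ∑ i, brk q (b i).1 (fun r => Z r i) = ∑ r, brk q (fun i => (b i).1 r) (Z r) :=
      Finset.sum_comm
    rw [this, sg_sum, wt, wt, ← Finset.prod_mul_distrib]
    refine Finset.prod_congr rfl fun r _ => ?_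
    rw [brk_add_left, sg_add, mul_assoc]
  simp only [h1]
  rw [av_mul_right, av_mul_left, av_sg (fun b : Fin n → W => ∑ i, brk q (b i).1 (fun r => Z r i))
    fun a b => by
      simp only [Pi.add_apply, Submodule.coe_add, brk_add_left, Finset.sum_add_distrib],
    ind_and, mul_assoc, mul_comm (ind _)]
  congr 2
  refine ind_congr ⟨fun h i w hw => ?_, fun h b => Finset.sum_eq_zero fun i _ => h i _ (b i).2⟩
  have := h (Pi.single i ⟨w, hw⟩)
  rw [Finset.sum_eq_single i] at this
  · simpa using this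
  · intro j _ hj
    rw [Pi.single_eq_of_ne hj]
    exact brk_zero_left q _
  · simp

end SD.Mo
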