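import Mathlib

/-! Box Cauchy-Schwarz inequalities for translations in a finite abelian group. -/

namespace SD.Mom

open Finset
open scoped BigOperators

section

variable {Ω : Type*} [AddCommGroup Ω] [Fintype Ω]

theorem ex_shift (f : Ω → ℝ) (a : Ω) : 𝔼 ω, f (ω + a) = 𝔼 ω, f ω :=
  Fintype.expect_equiv (Equiv.addRight a) _ _ (fun _ => rfl)

theorem sq_ex_le {ι : Type*} [Fintype ι] [Nonempty ι] (f : ι → ℝ) :
    (𝔼 i, f i) ^ 2 ≤ 𝔼 i, f i ^ 2 := by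
  have := expect_mul_sq_le_sq_mul_sq (univ : Finset ι) f (fun _ => (1 : ℝ))
  simpa [Fintype.expect_const] using this

theorem ex_le_ex {ι : Type*} [Fintype ι] {f g : ι → ℝ} (h : ∀ i, f i ≤ g i) :
    𝔼 i, f i ≤ 𝔼 i, g i := expect_le_expect fun i _ => h i

theorem ex_nonneg {ι : Type*} [Fintype ι] {f : ι → ℝ} (h : ∀ i, 0 ≤ f i) :
    0 ≤ 𝔼 i, f i := expect_nonneg fun i _ => h i

theorem ex_mul_shift_le (f : Ω → ℝ) (a : Ω) :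
    𝔼 ω, (f ω * f (ω + a)) ^ 2 ≤ 𝔼 ω, f ω ^ 4 := by
  have h1 : 𝔼 ω, (f ω * f (ω + a)) ^ 2 ≤ 𝔼 ω, (f ω ^ 4 / 2 + f (ω + a) ^ 4 / 2) :=
    ex_le_ex fun ω => by nlinarith [sq_nonneg (f ω ^ 2 - f (ω + a) ^ 2)]
  rw [expect_add_distrib, ex_shift (fun ω => f ω ^ 4 / 2) a, ← expect_add_distrib] at h1
  simpa using h1

variable {H : Type*} [AddCommGroup H] [Fintype H]

theorem ex_sq_ex (a : H →+ Ω) (k : Ω → ℝ) :
    𝔼 ω, (𝔼 h, k (ω + a h)) ^ 2 = 𝔼 h, 𝔼 ω, k ω * k (ω + a h) := by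
  have h1 : ∀ ω, (𝔼 h, k (ω + a h)) ^ 2 = 𝔼 h, 𝔼 h', k (ω + a h) * k (ω + a h') := fun ω => by
    rw [sq, Fintype.expect_mul_expect]
  simp only [h1]
  rw [expect_comm]
  have h2 : ∀ h, 𝔼 ω, 𝔼 h', k (ω + a h) * k (ω + a h') =
      𝔼 h', 𝔼 ω, k ω * k (ω + a h') := fun h => by
    rw [expect_comm, ← ex_shift (fun h' => 𝔼 ω, k (ω + a h) * k (ω + a h')) h]
    refine expect_congr rfl fun h' _ => ?_
    rw [← ex_shift (fun ω => k ω * k (ω + a h')) (a h)]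
    refine expect_congr rfl fun ω _ => ?_
    rw [map_add]; congr 2; abel
  simp only [h2]
  exact Fintype.expect_const _

theorem cs_step (a : H →+ Ω) (k f : Ω → ℝ) (hf : ∀ ω h, f (ω + a h) = f ω) :
    (𝔼 ω, k ω * f ω) ^ 2 ≤ (𝔼 ω, f ω ^ 2) * 𝔼 h, 𝔼 ω, k ω * k (ω + a h) := by
  have h1 : 𝔼 ω, k ω * f ω = 𝔼 ω, f ω * 𝔼 h, k (ω + a h) := by
    simp only [mul_expect]
    rw [expect_comm]
    have : ∀ h, 𝔼 ω, f ω * k (ω + a h) = 𝔼 ω, k ω * f ω := fun h => by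
      rw [← ex_shift (fun ω => k ω * f ω) (a h)]
      exact expect_congr rfl fun ω _ => by rw [hf, mul_comm]
    simp only [this]
    exact (Fintype.expect_const _).symm
  rw [h1, ← ex_sq_ex]
  exact expect_mul_sq_le_sq_mul_sq _ _ _

theorem box1_nonneg (a : H →+ Ω) (k : Ω → ℝ) : 0 ≤ 𝔼 h, 𝔼 ω, k ω * k (ω + a h) := by
  rw [← ex_sq_ex]; exact ex_nonneg fun _ => sq_nonneg _

theorem sq_le_box1 (a : H →+ Ω) (k : Ω → ℝ) :
    (𝔼 ω, k ω) ^ 2 ≤ 𝔼 h, 𝔼 ω, k ω * k (ω + a h) := by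
  have := cs_step a k (fun _ => 1) (fun _ _ => rfl)
  simpa [Fintype.expect_const] using this

variable {H₂ : Type*} [AddCommGroup H₂] [Fintype H₂]

/-- The two dimensional box average. -/
noncomputable def bx2 (a : H →+ Ω) (b : H₂ →+ Ω) (k : Ω → ℝ) : ℝ :=
  𝔼 h, 𝔼 h', 𝔼 ω, (k ω * k (ω + a h)) * (k (ω + b h') * k (ω + b h' + a h))

theorem bx2_nonneg (a : H →+ Ω) (b : H₂ →+ Ω) (k : Ω → ℝ) : 0 ≤ bx2 a b k :=
  ex_nonneg fun h => box1_nonneg b (fun ω => k ω * k (ω + a h))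

theorem le_bx2 (a : H →+ Ω) (b : H₂ →+ Ω) (k : Ω → ℝ) :
    𝔼 h, (𝔼 ω, k ω * k (ω + a h)) ^ 2 ≤ bx2 a b k :=
  ex_le_ex fun h => sq_le_box1 b (fun ω => k ω * k (ω + a h))

theorem cs_box2 (a : H →+ Ω) (b : H₂ →+ Ω) (k f g : Ω → ℝ)
    (hf : ∀ ω h, f (ω + a h) = f ω) (hg : ∀ ω h, g (ω + b h) = g ω) :
    (𝔼 ω, k ω * g ω * f ω) ^ 4 ≤ (𝔼 ω, f ω ^ 2) ^ 2 * (𝔼 ω, g ω ^ 4) * bx2 a b k := by
  have h1 := cs_step a (fun ω => k ω * g ω) f hf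
  have h2 : ∀ h, (𝔼 ω, k ω * g ω * (k (ω + a h) * g (ω + a h))) ^ 2 ≤
      (𝔼 ω, g ω ^ 4) * 𝔼 h', 𝔼 ω, (k ω * k (ω + a h)) * (k (ω + b h') * k (ω + b h' + a h)) :=
    fun h => by
      have h3 := cs_step b (fun ω => k ω * k (ω + a h)) (fun ω => g ω * g (ω + a h))
        (fun ω h' => by
          have : ω + b h' + a h = ω + a h + b h' := by abel
          rw [this, hg, hg])
      have h4 : 𝔼 ω, k ω * g ω * (k (ω + a h) * g (ω + a h)) =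
          𝔼 ω, k ω * k (ω + a h) * (g ω * g (ω + a h)) := expect_congr rfl fun ω _ => by ring
      rw [h4]
      exact h3.trans (mul_le_mul_of_nonneg_right (ex_mul_shift_le g (a h))
        (box1_nonneg b (fun ω => k ω * k (ω + a h))))
  have h5 : (𝔼 h, 𝔼 ω, k ω * g ω * (k (ω + a h) * g (ω + a h))) ^ 2 ≤
      (𝔼 ω, g ω ^ 4) * bx2 a b k := by
    refine (sq_ex_le _).trans ((ex_le_ex h2).trans (le_of_eq ?_))
    rw [bx2, mul_expect]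
  calc (𝔼 ω, k ω * g ω * f ω) ^ 4 = ((𝔼 ω, k ω * g ω * f ω) ^ 2) ^ 2 := by ring
    _ ≤ ((𝔼 ω, f ω ^ 2) * 𝔼 h, 𝔼 ω, k ω * g ω * (k (ω + a h) * g (ω + a h))) ^ 2 :=
        pow_le_pow_left₀ (sq_nonneg _) h1 2
    _ ≤ _ := by
        rw [mul_pow, mul_assoc]
        exact mul_le_mul_of_nonneg_left h5 (sq_nonneg _)

variable {H₃ : Type*} [AddCommGroup H₃] [Fintype H₃]

/-- The three dimensional box average. -/
noncomputable def bx3 (a : H →+ Ω) (b : H₂ →+ Ω) (c : H₃ →+ Ω) (k : Ω → ℝ) : ℝ :=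
  𝔼 h, bx2 b c (fun ω => k ω * k (ω + a h))

theorem bx3_nonneg (a : H →+ Ω) (b : H₂ →+ Ω) (c : H₃ →+ Ω) (k : Ω → ℝ) : 0 ≤ bx3 a b c k :=
  ex_nonneg fun _ => bx2_nonneg _ _ _

theorem cs_box3 (a : H →+ Ω) (b : H₂ →+ Ω) (c : H₃ →+ Ω) (k f g l : Ω → ℝ)
    (hf : ∀ ω h, f (ω + a h) = f ω) (hg : ∀ ω h, g (ω + b h) = g ω)
    (hl : ∀ ω h, l (ω + c h) = l ω) :
    (𝔼 ω, k ω * l ω * g ω * f ω) ^ 8 ≤
      (𝔼 ω, f ω ^ 2) ^ 4 * (𝔼 ω, g ω ^ 4) ^ 2 * (𝔼 ω, l ω ^ 8) * bx3 a b c k := by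
  have h1 := cs_step a (fun ω => k ω * l ω * g ω) f hf
  have h2 : ∀ h, (𝔼 ω, k ω * l ω * g ω * (k (ω + a h) * l (ω + a h) * g (ω + a h))) ^ 4 ≤
      (𝔼 ω, g ω ^ 4) ^ 2 * (𝔼 ω, l ω ^ 8) * bx2 b c (fun ω => k ω * k (ω + a h)) :=
    fun h => by
      have h3 := cs_box2 b c (fun ω => k ω * k (ω + a h)) (fun ω => g ω * g (ω + a h))
        (fun ω => l ω * l (ω + a h))
        (fun ω h' => by
          have : ω + b h' + a h = ω + a h + b h' := by abel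
          rw [this, hg, hg])
        (fun ω h' => by
          have : ω + c h' + a h = ω + a h + c h' := by abel
          rw [this, hl, hl])
      have h4 : 𝔼 ω, k ω * l ω * g ω * (k (ω + a h) * l (ω + a h) * g (ω + a h)) =
          𝔼 ω, k ω * k (ω + a h) * (l ω * l (ω + a h)) * (g ω * g (ω + a h)) :=
        expect_congr rfl fun ω _ => by ring
      have h6 : 𝔼 ω, (l ω * l (ω + a h)) ^ 4 ≤ 𝔼 ω, l ω ^ 8 := by
        have := ex_mul_shift_le (fun ω => l ω ^ 2) (a h)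
        refine le_of_eq_of_le (expect_congr rfl fun ω _ => by ring)
          (this.trans (le_of_eq (expect_congr rfl fun ω _ => by ring)))
      rw [h4]
      refine h3.trans (mul_le_mul_of_nonneg_right ?_ (bx2_nonneg _ _ _))
      exact mul_le_mul (pow_le_pow_left₀ (ex_nonneg fun _ => sq_nonneg _)
        (ex_mul_shift_le g (a h)) 2) h6 (ex_nonneg fun _ => by positivity) (sq_nonneg _)
  have h5 : (𝔼 h, 𝔼 ω, k ω * l ω * g ω * (k (ω + a h) * l (ω + a h) * g (ω + a h))) ^ 4 ≤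
      (𝔼 ω, g ω ^ 4) ^ 2 * (𝔼 ω, l ω ^ 8) * bx3 a b c k := by
    have h7 : ∀ X : H → ℝ, (𝔼 h, X h) ^ 4 ≤ 𝔼 h, X h ^ 4 := fun X => by
      calc (𝔼 h, X h) ^ 4 = ((𝔼 h, X h) ^ 2) ^ 2 := by ring
        _ ≤ (𝔼 h, X h ^ 2) ^ 2 := pow_le_pow_left₀ (sq_nonneg _) (sq_ex_le X) 2
        _ ≤ 𝔼 h, (X h ^ 2) ^ 2 := sq_ex_le _
        _ = _ := expect_congr rfl fun _ _ => by ring
    refine (h7 _).trans ((ex_le_ex h2).trans (le_of_eq ?_))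
    exact (mul_expect _ _ _).symm
  calc (𝔼 ω, k ω * l ω * g ω * f ω) ^ 8 = ((𝔼 ω, k ω * l ω * g ω * f ω) ^ 2) ^ 4 := by ring
    _ ≤ ((𝔼 ω, f ω ^ 2) *
          𝔼 h, 𝔼 ω, k ω * l ω * g ω * (k (ω + a h) * l (ω + a h) * g (ω + a h))) ^ 4 :=
        pow_le_pow_left₀ (sq_nonneg _) h1 4
    _ ≤ _ := by
        rw [mul_pow, mul_assoc, mul_assoc, ← mul_assoc ((𝔼 ω, g ω ^ 4) ^ 2)]
        exact mul_le_mul_of_nonneg_left h5 (by positivity)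

end

end SD.Mom
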