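import Pool.Agent.Lib.MP_ecee09_co.SD.MOM1
import Pool.Agent.Lib.MP_ecee09_co.SD.MomCS
import Pool.Agent.Lib.MP_ecee09_co.SD.MOMa

/-! Moment lemma, part 2: the two box cases. -/

namespace SD.Mo

open Module QuadraticMap

section cs
variable {Ω H₁ H₂ H₃ : Type} [AddCommGroup Ω] [Finite Ω] [AddCommGroup H₁] [Finite H₁]
  [AddCommGroup H₂] [Finite H₂] [AddCommGroup H₃] [Finite H₃]

lemma cs2 (a : H₁ →+ Ω) (b : H₂ →+ Ω) (k f g : Ω → ℝ)
    (hf : ∀ ω h, f (ω + a h) = f ω) (hg : ∀ ω h, g (ω + b h) = g ω) :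
    (av fun ω => k ω * g ω * f ω) ^ 4 ≤ (av fun ω => f ω ^ 2) ^ 2 * (av fun ω => g ω ^ 4) *
      av fun h => av fun h' => av fun ω =>
        (k ω * k (ω + a h)) * (k (ω + b h') * k (ω + b h' + a h)) := by
  let _ := Fintype.ofFinite Ω
  let _ := Fintype.ofFinite H₁
  let _ := Fintype.ofFinite H₂
  simp only [av_eq_expect]
  exact Mom.cs_box2 a b k f g hf hg

lemma le2 (a : H₁ →+ Ω) (b : H₂ →+ Ω) (k : Ω → ℝ) :
    (av fun h => (av fun ω => k ω * k (ω + a h)) ^ 2) ≤
      av fun h => av fun h' => av fun ω =>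
        (k ω * k (ω + a h)) * (k (ω + b h') * k (ω + b h' + a h)) := by
  let _ := Fintype.ofFinite Ω
  let _ := Fintype.ofFinite H₁
  let _ := Fintype.ofFinite H₂
  simp only [av_eq_expect]
  exact Mom.le_bx2 a b k

lemma cs3 (a : H₁ →+ Ω) (b : H₂ →+ Ω) (c : H₃ →+ Ω) (k f g l : Ω → ℝ)
    (hf : ∀ ω h, f (ω + a h) = f ω) (hg : ∀ ω h, g (ω + b h) = g ω)
    (hl : ∀ ω h, l (ω + c h) = l ω) :
    (av fun ω => k ω * l ω * g ω * f ω) ^ 8 ≤
      (av fun ω => f ω ^ 2) ^ 4 * (av fun ω => g ω ^ 4) ^ 2 * (av fun ω => l ω ^ 8) *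
        av fun h => av fun h' => av fun h'' => av fun ω =>
          ((k ω * k (ω + a h)) * (k (ω + b h') * k (ω + b h' + a h))) *
            ((k (ω + c h'') * k (ω + c h'' + a h)) *
              (k (ω + c h'' + b h') * k (ω + c h'' + b h' + a h))) := by
  let _ := Fintype.ofFinite Ω
  let _ := Fintype.ofFinite H₁
  let _ := Fintype.ofFinite H₂
  let _ := Fintype.ofFinite H₃
  simp only [av_eq_expect]
  exact Mom.cs_box3 a b c k f g l hf hg hl

end cs

variable {n R : ℕ} {E : Type} [AddCommGroup E] [Module F E]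

lemma exists_sec {U : Type} [AddCommGroup U] [Module F U] (ι : U →ₗ[F] E)
    (W : Submodule F (Fin R → E)) (r : Fin R) (P : Fin R → Prop)
    (h : ∀ u, ∃ x ∈ W, x r = ι u ∧ ∀ j, P j → x j = 0) :
    ∃ σ : U →ₗ[F] W, (∀ u, (σ u).1 r = ι u) ∧ ∀ u j, P j → (σ u).1 j = 0 := by
  choose x hx h1 h2 using h
  let B := Basis.ofVectorSpace F U
  let σ : U →ₗ[F] W := B.constr F fun i => ⟨x (B i), hx _⟩
  have hσ : ∀ i, (σ (B i)).1 = x (B i) := fun i => by simp [σ]
  refine ⟨σ, fun u => ?_, fun u j hj => ?_⟩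
  · have : (LinearMap.proj r ∘ₗ W.subtype ∘ₗ σ : U →ₗ[F] E) = ι :=
      B.ext fun i => by simpa [hσ] using h1 _
    exact LinearMap.congr_fun this u
  · have : (LinearMap.proj j ∘ₗ W.subtype ∘ₗ σ : U →ₗ[F] E) = 0 :=
      B.ext fun i => by simpa [hσ] using h2 _ j hj
    exact LinearMap.congr_fun this u

/-- the sample space -/
abbrev Om (n : ℕ) (W : Submodule F (Fin R → E)) : Type := G (Fk n × E) × (Fin n → W)

/-- the point seen by party `r` -/
def pt (W : Submodule F (Fin R → E)) (z : Fin R → Fin n → E) (r : Fin R) (ω : Om n W) :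
    G (Fk n × E) := ω.1 + tau (z r + fun i => (ω.2 i).1 r)

/-- shift of the sample space along a section -/
def sh {U : Type} [AddCommGroup U] [Module F U] {W : Submodule F (Fin R → E)} (n : ℕ)
    (σ : U →ₗ[F] W) : (Fin n → U) →+ Om n W where
  toFun h := (0, fun i => σ (h i))
  map_zero' := Prod.ext rfl (funext fun _ => map_zero σ)
  map_add' _ _ := Prod.ext (add_zero _).symm (funext fun _ => map_add σ _ _)

lemma pt_sh {U : Type} [AddCommGroup U] [Module F U] {W : Submodule F (Fin R → E)}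
    (z : Fin R → Fin n → E) (σ : U →ₗ[F] W) (j : Fin R) (ω : Om n W) (h : Fin n → U) :
    pt W z j (ω + sh n σ h) = pt W z j ω + tau fun i => (σ (h i)).1 j := by
  have h1 : (ω + sh n σ h).1 = ω.1 := add_zero _
  have h2 : (fun i => ((ω + sh n σ h).2 i).1 j) =
      (fun i => (ω.2 i).1 j) + fun i => (σ (h i)).1 j := rfl
  rw [pt, pt, h1, h2, ← add_assoc, tau_add, add_assoc]

lemma prod_inv {U : Type} [AddCommGroup U] [Module F U] {W : Submodule F (Fin R → E)}
    (K : G (Fk n × E) → ℝ) (z : Fin R → Fin n → E) (σ : U →ₗ[F] W) (s : Finset (Fin R))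
    (hs : ∀ u, ∀ j ∈ s, (σ u).1 j = 0) (ω : Om n W) (h : Fin n → U) :
    ∏ j ∈ s, K (pt W z j (ω + sh n σ h)) = ∏ j ∈ s, K (pt W z j ω) := by
  refine Finset.prod_congr rfl fun j hj => ?_
  have : (fun i => (σ (h i)).1 j) = 0 := funext fun i => hs _ j hj
  rw [pt_sh, this, tau_zero, add_zero]

/-- the additive map `h -> tau (iota h)` -/
def tauH {U : Type} [AddCommGroup U] [Module F U] (n : ℕ) (ι : U →ₗ[F] E) :
    (Fin n → U) →+ G (Fk n × E) where
  toFun h := tau fun i => ι (h i)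
  map_zero' := (congrArg tau (funext fun _ => map_zero ι)).trans tau_zero
  map_add' a b := by
    rw [← tau_add]
    exact congrArg tau (funext fun i => map_add ι _ _)

variable [Finite E]

lemma av_pt (W : Submodule F (Fin R → E)) (z : Fin R → Fin n → E) (r : Fin R)
    (Ψ : G (Fk n × E) → ℝ) : (av fun ω : Om n W => Ψ (pt W z r ω)) = av Ψ := by
  rw [av_prod]
  exact av_shift Ψ fun b : Fin n → W => tau (z r + fun i => (b i).1 r)

lemma mW_om (K : G (Fk n × E) → ℝ) (W : Submodule F (Fin R → E)) (z : Fin R → Fin n → E) :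
    mW K W z = av fun ω : Om n W => ∏ r, K (pt W z r ω) := by
  rw [av_prod, mW, av_comm]
  rfl

/-- a bound for the moments of the class products -/
noncomputable def Gm (D : ℕ → ℝ) (R0 : ℕ) : ℝ :=
  1 + R0 * (|D (2 * R0)| + |D (4 * R0)| + |D (8 * R0)|)

lemma one_le_Gm (D : ℕ → ℝ) (R0 : ℕ) : 1 ≤ Gm D R0 :=
  le_add_of_nonneg_right (by positivity)

lemma av_prod_pow {D : ℕ → ℝ} {K : G (Fk n × E) → ℝ} (hK : Tame D K) {R0 : ℕ} (hR : R ≤ R0)
    (W : Submodule F (Fin R → E)) (z : Fin R → Fin n → E) (s : Finset (Fin R)) (p : ℕ)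
    (hp : p = 2 ∨ p = 4 ∨ p = 8) :
    (av fun ω : Om n W => (∏ j ∈ s, K (pt W z j ω)) ^ p) ≤ Gm D R0 := by
  have hs : s.card ≤ R0 := (Finset.card_le_univ s).trans (by simpa using hR)
  have h1 : ∀ ω : Om n W, (∏ j ∈ s, K (pt W z j ω)) ^ p ≤
      1 + ∑ j ∈ s, |K (pt W z j ω)| ^ (p * R0) := fun ω => by
    refine (le_abs_self _).trans ?_
    rw [abs_pow, Finset.abs_prod, ← Finset.prod_pow]
    simp only [pow_mul]
    exact Moa.prod_le_one_add_sum s _ (fun _ => by positivity) R0 hs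
  refine (av_mono h1).trans ?_
  rw [av_add, av_const, av_sum s fun j (ω : Om n W) => |K (pt W z j ω)| ^ (p * R0), Gm]
  have h2 : ∀ j ∈ s, (av fun ω : Om n W => |K (pt W z j ω)| ^ (p * R0)) ≤
      |D (2 * R0)| + |D (4 * R0)| + |D (8 * R0)| := fun j _ => by
    rw [av_pt W z j fun M => |K M| ^ (p * R0)]
    refine (hK _).trans ((le_abs_self _).trans ?_)
    have := abs_nonneg (D (2 * R0))
    have := abs_nonneg (D (4 * R0))
    have := abs_nonneg (D (8 * R0))
    rcases hp with rfl | rfl | rfl <;> linarith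
  have h3 := Finset.sum_le_card_nsmul s _ _ h2
  rw [nsmul_eq_mul] at h3
  have h4 : (s.card : ℝ) ≤ R0 := by exact_mod_cast hs
  have h5 := mul_le_mul_of_nonneg_right h4
    (show 0 ≤ |D (2 * R0)| + |D (4 * R0)| + |D (8 * R0)| by positivity)
  linarith

lemma box_eq (K : G (Fk n × E) → ℝ) (S1 S2 : Submodule F E) :
    box K S1 S2 = av fun h : Fin n → S1 => av fun h' : Fin n → S2 => av fun M =>
      (K M * K (M + tau fun i => (h i : E))) *
        (K (M + tau fun i => (h' i : E)) *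
          K (M + (tau fun i => (h' i : E)) + tau fun i => (h i : E))) := by
  rw [box, av_comm]
  refine av_congr fun h => ?_
  rw [av_comm]
  refine av_congr fun h' => av_congr fun M => ?_
  rw [add_right_comm M, mul_assoc]

lemma box3_eq (K : G (Fk n × E) → ℝ) :
    box3 K = av fun h : Fin n → E => av fun h' : Fin n → E => av fun h'' : Fin n → E =>
      av fun M => ((K M * K (M + tau h)) * (K (M + tau h') * K (M + tau h' + tau h))) *
        ((K (M + tau h'') * K (M + tau h'' + tau h)) *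
          (K (M + tau h'' + tau h') * K (M + tau h'' + tau h' + tau h))) := by
  rw [box3, av_comm]
  refine av_congr fun h => ?_
  rw [av_comm]
  refine av_congr fun h' => ?_
  rw [av_comm]
  refine av_congr fun h'' => av_congr fun M => ?_
  have e1 : M + tau h' + tau h = M + tau h + tau h' := by abel
  have e2 : M + tau h'' + tau h = M + tau h + tau h'' := by abel
  have e3 : M + tau h'' + tau h' = M + tau h' + tau h'' := by abel
  have e4 : M + tau h'' + tau h' + tau h = M + tau h + tau h' + tau h'' := by abel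
  rw [e4, e1, e2, e3]
  ring

theorem case_a {D : ℕ → ℝ} {K : G (Fk n × E) → ℝ} (hK : Tame D K) {R0 : ℕ} (hR : R ≤ R0)
    (W : Submodule F (Fin R → E)) (z : Fin R → Fin n → E) (r : Fin R) (C : Set (Fin R))
    (S1 S2 : Submodule F E) {η : ℝ} (hη : box K S1 S2 ≤ η)
    (h1 : ∀ s ∈ S1, ∃ x ∈ W, x r = s ∧ ∀ j ∈ C, x j = 0)
    (h2 : ∀ s ∈ S2, ∃ x ∈ W, x r = s ∧ ∀ j, j ∉ C → j ≠ r → x j = 0) (h0 : 0 ≤ η) :
    mW K W z ^ 4 ≤ Gm D R0 ^ 3 * η := by
  classical
  obtain ⟨σ1, a1, b1⟩ := exists_sec S1.subtype W r (fun j => j ∈ C) fun u => h1 u.1 u.2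
  obtain ⟨σ2, a2, b2⟩ := exists_sec S2.subtype W r (fun j => j ∉ C ∧ j ≠ r) fun u => by
    obtain ⟨x, hx, e1, e2⟩ := h2 u.1 u.2
    exact ⟨x, hx, e1, fun j hj => e2 j hj.1 hj.2⟩
  have key := cs2 (sh n σ1) (sh n σ2) (fun ω => K (pt W z r ω))
    (fun ω => ∏ j ∈ (Finset.univ.erase r).filter (fun j => j ∈ C), K (pt W z j ω))
    (fun ω => ∏ j ∈ (Finset.univ.erase r).filter (fun j => ¬ j ∈ C), K (pt W z j ω))
    (prod_inv K z σ1 _ fun u j hj => b1 u j (Finset.mem_filter.1 hj).2)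
    (prod_inv K z σ2 _ fun u j hj => b2 u j
      ⟨(Finset.mem_filter.1 hj).2, (Finset.mem_erase.1 (Finset.mem_filter.1 hj).1).1⟩)
  have e1 : mW K W z = av fun ω : Om n W => K (pt W z r ω) *
      (∏ j ∈ (Finset.univ.erase r).filter (fun j => ¬ j ∈ C), K (pt W z j ω)) *
      ∏ j ∈ (Finset.univ.erase r).filter (fun j => j ∈ C), K (pt W z j ω) := by
    rw [mW_om]
    refine av_congr fun ω => ?_
    rw [mul_assoc, mul_comm (∏ j ∈ _, _), Finset.prod_filter_mul_prod_filter_not,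
      Finset.mul_prod_erase _ (fun j => K (pt W z j ω)) (Finset.mem_univ r)]
  simp only [pt_sh, a1, a2, Submodule.subtype_apply] at key
  have e2 : ∀ (h : Fin n → S1) (h' : Fin n → S2), _ = _ := fun h h' => av_pt W z r fun M =>
    (K M * K (M + tau fun i => (h i : E))) * (K (M + tau fun i => (h' i : E)) *
      K (M + (tau fun i => (h' i : E)) + tau fun i => (h i : E)))
  simp only [e2] at key
  rw [← box_eq, ← e1] at key
  have g1 := av_prod_pow hK hR W z ((Finset.univ.erase r).filter fun j => j ∈ C) 2 (by simp)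
  have g2 := av_prod_pow hK hR W z ((Finset.univ.erase r).filter fun j => ¬ j ∈ C) 4 (by simp)
  have p1 : 0 ≤ av fun ω : Om n W =>
      (∏ j ∈ (Finset.univ.erase r).filter (fun j => j ∈ C), K (pt W z j ω)) ^ 2 :=
    av_nonneg fun _ => by positivity
  have p2 : 0 ≤ av fun ω : Om n W =>
      (∏ j ∈ (Finset.univ.erase r).filter (fun j => ¬ j ∈ C), K (pt W z j ω)) ^ 4 :=
    av_nonneg fun _ => by positivity
  have pG : 0 ≤ Gm D R0 := zero_le_one.trans (one_le_Gm D R0)
  refine key.trans ((mul_le_mul_of_nonneg_left hη (by positivity)).trans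
    (mul_le_mul_of_nonneg_right ?_ h0))
  calc _ ≤ Gm D R0 ^ 2 * Gm D R0 := by gcongr
    _ = _ := by ring

theorem case_b {D : ℕ → ℝ} {K : G (Fk n × E) → ℝ} (hK : Tame D K) {R0 : ℕ} (hR : R ≤ R0)
    (W : Submodule F (Fin R → E)) (z : Fin R → Fin n → E) (r : Fin R) (cl : Fin R → Fin 3)
    {η : ℝ} (hη : box3 K ≤ η)
    (h : ∀ (i : Fin 3) (s : E), ∃ x ∈ W, x r = s ∧ ∀ j, j ≠ r → cl j = i → x j = 0)
    (h0 : 0 ≤ η) : mW K W z ^ 8 ≤ Gm D R0 ^ 7 * η := by
  classical
  have hs : ∀ i : Fin 3, ∃ σ : E →ₗ[F] W, (∀ u, (σ u).1 r = u) ∧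
      ∀ u, ∀ j ∈ (Finset.univ.erase r).filter (fun j => cl j = i), (σ u).1 j = 0 := fun i => by
    obtain ⟨σ, a, b⟩ := exists_sec (LinearMap.id : E →ₗ[F] E) W r (fun j => j ≠ r ∧ cl j = i)
      fun u => by
        obtain ⟨x, hx, e1, e2⟩ := h i u
        exact ⟨x, hx, e1, fun j hj => e2 j hj.1 hj.2⟩
    exact ⟨σ, a, fun u j hj => b u j
      ⟨(Finset.mem_erase.1 (Finset.mem_filter.1 hj).1).1, (Finset.mem_filter.1 hj).2⟩⟩
  choose σ a b using hs
  have key := cs3 (sh n (σ 0)) (sh n (σ 1)) (sh n (σ 2)) (fun ω => K (pt W z r ω))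
    (fun ω => ∏ j ∈ (Finset.univ.erase r).filter (fun j => cl j = 0), K (pt W z j ω))
    (fun ω => ∏ j ∈ (Finset.univ.erase r).filter (fun j => cl j = 1), K (pt W z j ω))
    (fun ω => ∏ j ∈ (Finset.univ.erase r).filter (fun j => cl j = 2), K (pt W z j ω))
    (prod_inv K z (σ 0) _ (b 0)) (prod_inv K z (σ 1) _ (b 1)) (prod_inv K z (σ 2) _ (b 2))
  have e1 : mW K W z = av fun ω : Om n W => K (pt W z r ω) *
      (∏ j ∈ (Finset.univ.erase r).filter (fun j => cl j = 2), K (pt W z j ω)) *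
      (∏ j ∈ (Finset.univ.erase r).filter (fun j => cl j = 1), K (pt W z j ω)) *
      ∏ j ∈ (Finset.univ.erase r).filter (fun j => cl j = 0), K (pt W z j ω) := by
    rw [mW_om]
    refine av_congr fun ω => ?_
    rw [← Finset.mul_prod_erase _ (fun j => K (pt W z j ω)) (Finset.mem_univ r),
      ← Finset.prod_fiberwise (Finset.univ.erase r) cl, Fin.prod_univ_three]
    ring
  simp only [pt_sh, a] at key
  have e2 : ∀ h h' h'' : Fin n → E, _ = _ := fun h h' h'' => av_pt W z r fun M =>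
    ((K M * K (M + tau h)) * (K (M + tau h') * K (M + tau h' + tau h))) *
      ((K (M + tau h'') * K (M + tau h'' + tau h)) *
        (K (M + tau h'' + tau h') * K (M + tau h'' + tau h' + tau h)))
  simp only [e2] at key
  rw [← box3_eq, ← e1] at key
  have g1 := av_prod_pow hK hR W z ((Finset.univ.erase r).filter fun j => cl j = 0) 2 (by simp)
  have g2 := av_prod_pow hK hR W z ((Finset.univ.erase r).filter fun j => cl j = 1) 4 (by simp)
  have g3 := av_prod_pow hK hR W z ((Finset.univ.erase r).filter fun j => cl j = 2) 8 (by simp)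
  have p1 : 0 ≤ av fun ω : Om n W =>
      (∏ j ∈ (Finset.univ.erase r).filter (fun j => cl j = 0), K (pt W z j ω)) ^ 2 :=
    av_nonneg fun _ => by positivity
  have p2 : 0 ≤ av fun ω : Om n W =>
      (∏ j ∈ (Finset.univ.erase r).filter (fun j => cl j = 1), K (pt W z j ω)) ^ 4 :=
    av_nonneg fun _ => by positivity
  have p3 : 0 ≤ av fun ω : Om n W =>
      (∏ j ∈ (Finset.univ.erase r).filter (fun j => cl j = 2), K (pt W z j ω)) ^ 8 :=
    av_nonneg fun _ => by positivity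
  have pG : 0 ≤ Gm D R0 := zero_le_one.trans (one_le_Gm D R0)
  refine key.trans ((mul_le_mul_of_nonneg_left hη (by positivity)).trans
    (mul_le_mul_of_nonneg_right ?_ h0))
  calc _ ≤ Gm D R0 ^ 4 * Gm D R0 ^ 2 * Gm D R0 := by gcongr
    _ = _ := by ring

/-- the pair term is bounded by a box norm -/
theorem av_two_sq_le {q : QF E} (hq : ND q) (c : (Fin n → E) → ℝ) (S1 S2 : Submodule F E) :
    (av fun h : Fin n → S1 => two q c (fun i => (h i : E)) ^ 2) ≤ box (fld q c) S1 S2 := by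
  rw [box_eq]
  simp only [← av_two hq]
  exact le2 (tauH n S1.subtype) (tauH n S2.subtype) (fld q c)

end SD.Mo
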