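import Pool.Agent.Lib.MP_ecee09_co.SD.MOM2

/-! Moment lemma, part 3: pairing spaces. -/

namespace SD.Mo

open Module QuadraticMap

variable {n R : ℕ} {E : Type} [AddCommGroup E] [Module F E]

/-- perfect matchings -/
def IsM (m : Fin R → Fin R) : Prop := (∀ r, m (m r) = r) ∧ ∀ r, m r ≠ r

lemma IsM.lt {m : Fin R → Fin R} (hm : IsM m) {r : Fin R} (h : ¬ r < m r) : m r < m (m r) := by
  rw [hm.1]
  exact lt_of_le_of_ne (not_lt.1 h) (hm.2 r)

lemma prod_pair {m : Fin R → Fin R} (hm : IsM m) (f : Fin R → ℝ) :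
    ∏ r, f r = ∏ r ∈ Finset.univ.filter (fun r => r < m r), f r * f (m r) := by
  rw [Finset.prod_mul_distrib,
    ← Finset.prod_filter_mul_prod_filter_not Finset.univ (fun r => r < m r) f]
  congr 1
  refine Finset.prod_nbij' m m ?_ ?_ (fun r _ => hm.1 r) (fun r _ => hm.1 r)
    (fun r _ => by rw [hm.1])
  · intro r hr
    simp only [Finset.mem_filter, Finset.mem_univ, true_and] at hr ⊢
    exact hm.lt hr
  · intro r hr
    simp only [Finset.mem_filter, Finset.mem_univ, true_and] at hr ⊢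
    rw [hm.1]
    exact not_lt.2 hr.le

/-- the smaller end of the pair of `r` -/
def rep {m : Fin R → Fin R} (hm : IsM m) (r : Fin R) : {r // r < m r} :=
  if h : r < m r then ⟨r, h⟩ else ⟨m r, hm.lt h⟩

lemma rep_m {m : Fin R → Fin R} (hm : IsM m) (r : Fin R) : rep hm (m r) = rep hm r := by
  by_cases h : r < m r
  · have h' : ¬ m r < m (m r) := by rw [hm.1]; exact not_lt.2 h.le
    rw [rep, rep, dif_pos h, dif_neg h']
    exact Subtype.ext (hm.1 r)
  · rw [rep, rep, dif_neg h, dif_pos (hm.lt h)]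

lemma rep_val {m : Fin R → Fin R} (hm : IsM m) (r : {r // r < m r}) : rep hm r.1 = r := by
  rw [rep, dif_pos r.2]

lemma sm_pair {X : Type} [Finite X] {m : Fin R → Fin R} (hm : IsM m) (g : Fin R → X → ℝ) :
    (sm fun Z : Fin R → X => (∏ r, g r (Z r)) * ind (∀ r, Z (m r) = Z r)) =
      ∏ r ∈ Finset.univ.filter (fun r => r < m r), sm fun x => g r x * g (m r) x := by
  let e : ({r // r < m r} → X) ≃ {Z : Fin R → X // ∀ r, Z (m r) = Z r} :=
    { toFun := fun Z => ⟨fun r => Z (rep hm r), fun r => congrArg Z (rep_m hm r)⟩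
      invFun := fun Z r => Z.1 r.1
      left_inv := fun Z => funext fun r => by simp only [rep_val]
      right_inv := fun Z => Subtype.ext (funext fun r => by
        by_cases h : r < m r
        · simp only [rep, dif_pos h]
        · simp only [rep, dif_neg h, Z.2]) }
  simp only [mul_comm _ (ind _)]
  rw [← sm_subtype (fun Z : Fin R → X => ∀ r, Z (m r) = Z r) fun Z => ∏ r, g r (Z r),
    ← sm_equiv e, Finset.prod_subtype (p := fun r => r < m r) _ (by simp)
      fun r => sm fun x => g r x * g (m r) x,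
    prod_sm fun (r : {r // r < m r}) x => g r x * g (m r) x]
  refine sm_congr fun Z => ?_
  rw [prod_pair hm, Finset.prod_subtype (p := fun r => r < m r) _ (by simp)
    fun r => g r ((e Z).1 r) * g (m r) ((e Z).1 (m r))]
  refine Finset.prod_congr rfl fun r _ => ?_
  simp only [e, Equiv.coe_fn_mk, rep_m, rep_val]

/-- the pairing space of `m` -/
def PS (E : Type) [AddCommGroup E] [Module F E] (m : Fin R → Fin R) :
    Submodule F (Fin R → E) where
  carrier := {x | ∀ r, x (m r) = x r}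
  add_mem' := fun ha hb r => by rw [Pi.add_apply, Pi.add_apply, ha r, hb r]
  zero_mem' := fun _ => rfl
  smul_mem' := fun c x hx r => by rw [Pi.smul_apply, Pi.smul_apply, hx r]

lemma mem_PS {m : Fin R → Fin R} {x : Fin R → E} : x ∈ PS E m ↔ ∀ r, x (m r) = x r := Iff.rfl

lemma star_add_left {κ : Type} [Fintype κ] (y y' : κ → Fk n) (t : κ → E) :
    star (y + y') t = star y t + star y' t := by
  funext i
  simp only [star, Pi.add_apply, add_smul, Finset.sum_add_distrib]

lemma star_add_right {κ : Type} [Fintype κ] (y : κ → Fk n) (t t' : κ → E) :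
    star y (t + t') = star y t + star y t' := by
  funext i
  simp only [star, Pi.add_apply, smul_add, Finset.sum_add_distrib]

/-- the part of the moment with all rows in `T` -/
noncomputable def AT (q : QF E) (c : (Fin n → E) → ℝ) (T : Submodule F (Fin R → E))
    (z : Fin R → Fin n → E) : ℝ :=
  sm fun Z : Fin R → Fin n → E => wt q c z Z * ind (∀ i, (fun r => Z r i) ∈ T)

variable [Finite E]

lemma AT_PS (q : QF E) (c : (Fin n → E) → ℝ) {m : Fin R → Fin R} (hm : IsM m)
    (z : Fin R → Fin n → E) :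
    AT q c (PS E m) z =
      ∏ r ∈ Finset.univ.filter (fun r => r < m r), two q c (z r + z (m r)) := by
  have h1 : ∀ Z : Fin R → Fin n → E,
      ind (∀ i, (fun r => Z r i) ∈ PS E m) = ind (∀ r, Z (m r) = Z r) := fun Z =>
    ind_congr ⟨fun h r => funext fun i => h i r, fun h i r => congrFun (h r) i⟩
  simp only [AT, h1, wt]
  rw [sm_pair hm fun r x => c x * sg (brk q (z r) x)]
  refine Finset.prod_congr rfl fun r _ => sm_congr fun x => ?_
  rw [brk_add_left, sg_add]
  ring

lemma AT_matched (q : QF E) (c : (Fin n → E) → ℝ) {m : Fin R → Fin R} (hm : IsM m)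
    (z : Fin R → Fin n → E) (hz : ∀ r, z (m r) = z r) :
    AT q c (PS E m) z = Real.sqrt (sm fun Z => c Z ^ 2) ^ R := by
  have h := prod_pair hm fun _ => Real.sqrt (sm fun Z => c Z ^ 2)
  rw [Finset.prod_const, Finset.card_univ, Fintype.card_fin] at h
  rw [AT_PS q c hm, h]
  refine Finset.prod_congr rfl fun r _ => ?_
  rw [hz, add_self2, two_zero, Real.mul_self_sqrt (sm_nonneg fun _ => sq_nonneg _)]

lemma AT_sq_le (q : QF E) (c : (Fin n → E) → ℝ) {m : Fin R → Fin R} (hm : IsM m)
    (z : Fin R → Fin n → E) {B : ℝ} (hB : (sm fun Z => c Z ^ 2) ≤ B) (hB1 : 1 ≤ B) {R0 : ℕ}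
    (hR : R ≤ R0) {r : Fin R} (hr : r < m r) :
    AT q c (PS E m) z ^ 2 ≤ (B ^ R0) ^ 2 * two q c (z r + z (m r)) ^ 2 := by
  have hr' : r ∈ Finset.univ.filter (fun r => r < m r) := by simpa using hr
  rw [AT_PS q c hm, ← Finset.mul_prod_erase _ (fun r => two q c (z r + z (m r))) hr', mul_pow,
    mul_comm]
  refine mul_le_mul_of_nonneg_right ?_ (sq_nonneg _)
  rw [← sq_abs]
  refine pow_le_pow_left₀ (abs_nonneg _) ?_ 2
  rw [Finset.abs_prod]
  refine (Finset.prod_le_prod (g := fun _ => B) (fun _ _ => abs_nonneg _)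
    fun j _ => (abs_two_le q c _).trans hB).trans ?_
  rw [Finset.prod_const]
  exact pow_le_pow_right₀ hB1 ((Finset.card_le_univ _).trans (by simpa using hR))

lemma av_two_sq {A : Type} [AddCommGroup A] [Finite A] (q : QF E) (c : (Fin n → E) → ℝ)
    (φ : A → Fin n → E) (hφ : ∀ a b, φ (a + b) = φ a + φ b) :
    (av fun a => two q c (φ a) ^ 2) =
      sm fun Z => sm fun Z' => c Z ^ 2 * c Z' ^ 2 * ind (∀ a, brk q (φ a) (Z + Z') = 0) := by
  have h1 : ∀ a, two q c (φ a) ^ 2 =
      sm fun Z => sm fun Z' => c Z ^ 2 * c Z' ^ 2 * sg (brk q (φ a) (Z + Z')) := fun a => by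
    rw [pow_two, two, sm_mul_sm]
    refine sm_congr fun Z => sm_congr fun Z' => ?_
    rw [brk_add_right, sg_add]
    ring
  simp only [h1]
  rw [av_sm_comm]
  refine sm_congr fun Z => ?_
  rw [av_sm_comm]
  refine sm_congr fun Z' => ?_
  rw [av_mul_left, av_sg (fun a => brk q (φ a) (Z + Z')) fun a b => by rw [hφ, brk_add_left]]

lemma av_star_le {κ : Type} [Fintype κ] (q : QF E) (c : (Fin n → E) → ℝ) (s : κ → E) (a : κ) :
    (av fun y : κ → Fk n => two q c (star y s) ^ 2) ≤
      av fun h : Fin n → (F ∙ s a) => two q c (fun i => (h i : E)) ^ 2 := by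
  classical
  rw [av_two_sq q c (fun y : κ → Fk n => star y s) fun y y' => star_add_left y y' s,
    av_two_sq q c (fun (h : Fin n → (F ∙ s a)) i => (h i : E)) fun _ _ => rfl]
  refine sm_mono fun Z => sm_mono fun Z' => ?_
  refine mul_le_mul_of_nonneg_left (ind_mono fun h b => ?_) (by positivity)
  choose l hl using fun i => Submodule.mem_span_singleton.1 (b i).2
  have : star (Pi.single a l : κ → Fk n) s = fun i => (b i : E) := by
    funext i
    rw [star, Finset.sum_eq_single a, Pi.single_eq_same, hl]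
    · intro j _ hj
      rw [Pi.single_eq_of_ne hj, Pi.zero_apply, zero_smul]
    · simp
  rw [← this]
  exact h _

theorem case_c {D : ℕ → ℝ} {q : QF E} (hq : ND q) {c : (Fin n → E) → ℝ} (hK : Tame D (fld q c))
    {R0 : ℕ} (hR : R ≤ R0) {η : ℝ}
    (hη : ∀ S : Submodule F E, S ≠ ⊥ → S ≠ ⊤ → box (fld q c) S (perp q S) ≤ η)
    {κ : Type} [Fintype κ] (t : Fin R → κ → E) {m : Fin R → Fin R} (hm : IsM m)
    (ht : ¬ ∀ r, t (m r) = t r) :
    (av fun y : κ → Fk n => AT q c (PS E m) fun r => star y (t r)) ^ 2 ≤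
      ((1 + |D 2|) ^ R0) ^ 2 * η := by
  obtain ⟨r, hr, hne⟩ : ∃ r, r < m r ∧ t (m r) ≠ t r := by
    push Not at ht
    obtain ⟨r, hr⟩ := ht
    by_cases h : r < m r
    · exact ⟨r, h, hr⟩
    · exact ⟨m r, hm.lt h, by rw [hm.1]; exact hr.symm⟩
  obtain ⟨a, ha⟩ : ∃ a, (t r + t (m r)) a ≠ 0 := by
    by_contra h
    push Not at h
    exact hne (add_eq_zero2.1 (funext h)).symm
  have hB : (sm fun Z => c Z ^ 2) ≤ 1 + |D 2| :=
    (sig_le hq hK).trans ((le_abs_self _).trans (by linarith))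
  have hB1 : 1 ≤ 1 + |D 2| := le_add_of_nonneg_right (abs_nonneg _)
  refine (av_sq_le _).trans ((av_mono fun y => AT_sq_le q c hm _ hB hB1 hR hr).trans ?_)
  rw [av_mul_left]
  refine mul_le_mul_of_nonneg_left ?_ (by positivity)
  simp only [← star_add_right]
  refine (av_star_le q c _ a).trans ((av_two_sq_le hq c _ (perp q _)).trans (hη _ ?_ ?_))
  · rwa [Ne, Submodule.span_singleton_eq_bot]
  · intro h
    refine ha (hq _ fun x => ?_)
    have hx : x ∈ F ∙ (t r + t (m r)) a := h ▸ Submodule.mem_top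
    obtain ⟨l, rfl⟩ := Submodule.mem_span_singleton.1 hx
    rw [polar_smul_left, polar_self2, smul_zero]

end SD.Mo
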