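import Pool.Agent.Lib.MP_ecee09_co.SD.Base

/-! Abstract analytic part of the degenerate case (PA): labelled parts of a function. -/

set_option linter.unusedSectionVars false

namespace SD

section orth
variable {A Λ Y : Type} [AddCommGroup A] [Finite A] [Finite Λ] [Finite Y] [Nonempty Y]

/-- parts with different labels are orthogonal -/
lemma pa_orth (i : Y → A) (χ : Λ → Y → ℝ)
    (hχ : ∀ v w, av (fun y => χ v y * χ w y) = ind (v = w)) (f g : Λ → A → ℝ)
    (hf : ∀ v a y, f v (a + i y) = f v a * χ v y) (hg : ∀ v a y, g v (a + i y) = g v a * χ v y) :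
    av (fun a => sm (fun v => f v a) * sm (fun w => g w a)) =
      sm fun v => av fun a => f v a * g v a := by
  have h1 : ∀ v w, av (fun a => f v a * g w a) = ind (w = v) * av fun a => f v a * g w a := by
    intro v w
    conv_lhs => rw [← av_shift (fun a => f v a * g w a) i]
    rw [← av_mul_left]
    refine av_congr fun a => ?_
    have : ∀ y, f v (a + i y) * g w (a + i y) = (f v a * g w a) * (χ w y * χ v y) := fun y => by
      rw [hf, hg]; ring
    rw [av_congr this, av_mul_left, hχ]; ring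
  simp only [sm_mul_sm]
  rw [av_sm_comm]
  refine sm_congr fun v => ?_
  rw [av_sm_comm, sm_congr (h1 v)]
  exact sm_ind_eq v fun w => av fun a => f v a * g w a

omit [Finite A] in
/-- the sum of the squares of the parts -/
lemma pa_sumsq (i : Y → A) (χ : Λ → Y → ℝ)
    (hχ : ∀ v w, av (fun y => χ v y * χ w y) = ind (v = w)) (f : Λ → A → ℝ)
    (hf : ∀ v a y, f v (a + i y) = f v a * χ v y) (a : A) :
    sm (fun v => f v a ^ 2) = av fun y => sm (fun v => f v (a + i y)) ^ 2 := by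
  have h1 : ∀ y, sm (fun v => f v (a + i y)) ^ 2 =
      sm fun v => sm fun w => (f v a * f w a) * (χ w y * χ v y) := fun y => by
    rw [sq, sm_mul_sm]
    exact sm_congr fun v => sm_congr fun w => by rw [hf, hf]; ring
  rw [av_congr h1, av_sm_comm]
  refine sm_congr fun v => ?_
  rw [av_sm_comm]
  have h2 : ∀ w, av (fun y => (f v a * f w a) * (χ w y * χ v y)) = ind (w = v) * (f v a * f w a) :=
    fun w => by rw [av_mul_left, hχ]; ring
  rw [sm_congr h2, sm_ind_eq v fun w => f v a * f w a, sq]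

variable {B : Type} [AddCommGroup B] [Finite B]

/-- the box form of a sum of labelled parts -/
lemma pa_box_fix (i : Y → A) (j : Y → B) (χ : Λ → Y → ℝ)
    (hχ : ∀ v w, av (fun y => χ v y * χ w y) = ind (v = w)) (f : Λ → A → B → ℝ)
    (h1 : ∀ v a b y, f v (a + i y) b = f v a b * χ v y)
    (h2 : ∀ v a b y, f v a (b + j y) = f v a b * χ v y) :
    av (fun a' => av fun a => (av fun b => sm (fun v => f v a b) * sm (fun v => f v a' b)) ^ 2) ≤
      sm fun v => (av fun a => av fun b => f v a b ^ 2) ^ 2 := by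
  have e1 : ∀ a a', av (fun b => sm (fun v => f v a b) * sm (fun v => f v a' b)) =
      sm fun v => av fun b => f v a b * f v a' b := fun a a' =>
    pa_orth j χ hχ (fun v b => f v a b) (fun v b => f v a' b) (fun v b y => h2 v a b y)
      (fun v b y => h2 v a' b y)
  have e2 : ∀ a', av (fun a => (av fun b => sm (fun v => f v a b) * sm (fun v => f v a' b)) ^ 2) =
      sm fun v => av fun a => (av fun b => f v a b * f v a' b) * av fun b => f v a b * f v a' b := by
    intro a'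
    have hg : ∀ v a y, (av fun b => f v (a + i y) b * f v a' b) =
        (av fun b => f v a b * f v a' b) * χ v y := fun v a y => by
      rw [← av_mul_right]
      exact av_congr fun b => by rw [h1]; ring
    rw [← pa_orth i χ hχ (fun v a => av fun b => f v a b * f v a' b)
      (fun v a => av fun b => f v a b * f v a' b) hg hg]
    exact av_congr fun a => by rw [e1, sq]
  rw [av_congr e2, av_sm_comm]
  refine sm_mono fun v => ?_
  rw [sq, av_mul_av]
  refine av_mono fun a' => av_mono fun a => ?_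
  rw [← sq, mul_comm]
  exact av_cs _ _

end orth

section core
variable {X Λ Y H1 H2 : Type} [AddCommGroup X] [Finite X] [Finite Λ] [Finite Y] [Nonempty Y]
  [AddCommGroup H1] [Finite H1] [AddCommGroup H2] [Finite H2]

/-- the energy of the part `v` near `M` -/
noncomputable def paE (s1 : H1 → X) (s2 : H2 → X) (Kv : Λ → X → ℝ) (v : Λ) (M : X) : ℝ :=
  av fun a => av fun b => Kv v (M + s1 a + s2 b) ^ 2

/-- the data of a labelled decomposition -/
structure PaD (s1 : H1 → X) (s2 : H2 → X) (t : Y → X) (χ : Λ → Y → ℝ) (Kv : Λ → X → ℝ) :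
    Prop where
  a1 : ∀ a a', s1 (a + a') = s1 a + s1 a'
  a2 : ∀ b b', s2 (b + b') = s2 b + s2 b'
  t1 : ∀ y, ∃ a, s1 a = t y
  t2 : ∀ y, ∃ b, s2 b = t y
  orth : ∀ v w, av (fun y => χ v y * χ w y) = ind (v = w)
  sq : ∀ v y, χ v y ^ 2 = 1
  cov : ∀ v M y, Kv v (M + t y) = Kv v M * χ v y

variable {s1 : H1 → X} {s2 : H2 → X} {t : Y → X} {χ : Λ → Y → ℝ} {Kv : Λ → X → ℝ}

omit [Finite X] [Finite Λ] [AddCommGroup H1] [AddCommGroup H2] in
lemma paE_nonneg (v : Λ) (M : X) : 0 ≤ paE s1 s2 Kv v M :=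
  av_nonneg fun _ => av_nonneg fun _ => sq_nonneg _

omit [Finite X] [Finite Λ] [Finite Y] [Nonempty Y] [Finite H1] [Finite H2] in
lemma PaD.e_shift (h : PaD s1 s2 t χ Kv) (v : Λ) (M : X) (a : H1) (b : H2) :
    paE s1 s2 Kv v (M + s1 a + s2 b) = paE s1 s2 Kv v M := by
  unfold paE
  rw [← av_add_left (fun a' => av fun b' => Kv v (M + s1 a' + s2 b') ^ 2) a]
  refine av_congr fun a' => ?_
  rw [← av_add_left (fun b' => Kv v (M + s1 (a + a') + s2 b') ^ 2) b]
  refine av_congr fun b' => ?_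
  rw [h.a1, h.a2]
  congr 2
  abel

omit [Finite X] [Finite Λ] [Finite Y] [Nonempty Y] [Finite H1] [Finite H2] in
lemma PaD.e_t (h : PaD s1 s2 t χ Kv) (v : Λ) (M : X) (y : Y) :
    paE s1 s2 Kv v (M + t y) = paE s1 s2 Kv v M := by
  unfold paE
  refine av_congr fun a => av_congr fun b => ?_
  rw [show M + t y + s1 a + s2 b = M + s1 a + s2 b + t y by abel, h.cov, mul_pow, h.sq, mul_one]

/-- averaging over the two shifts -/
lemma pa_shift2 (s1 : H1 → X) (s2 : H2 → X) (f : X → ℝ) :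
    av (fun M => av fun a => av fun b => f (M + s1 a + s2 b)) = av f := by
  rw [← av_shift f s2, ← av_shift (fun M => av fun b => f (M + s2 b)) s1]

lemma PaD.box_le (h : PaD s1 s2 t χ Kv) :
    av (fun M => av fun a => av fun b =>
      sm (fun v => Kv v M) * sm (fun v => Kv v (M + s1 a)) * sm (fun v => Kv v (M + s2 b)) *
        sm (fun v => Kv v (M + s1 a + s2 b))) ≤
      av fun M => sm fun v => paE s1 s2 Kv v M ^ 2 := by
  set K : X → ℝ := fun M => sm fun v => Kv v M with hK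
  choose i hi using h.t1
  choose j hj using h.t2
  rw [← pa_shift2 s1 s2 (fun M => av fun a => av fun b =>
    K M * K (M + s1 a) * K (M + s2 b) * K (M + s1 a + s2 b))]
  refine av_mono fun M => ?_
  refine le_trans (le_of_eq ?_) (pa_box_fix i j χ h.orth (fun v a b => Kv v (M + s1 a + s2 b))
    (fun v a b y => ?_) (fun v a b y => ?_))
  · refine av_congr fun a0 => ?_
    rw [av_comm, ← av_add_left (fun a => (av fun b => sm (fun v => Kv v (M + s1 a + s2 b)) *
      sm (fun v => Kv v (M + s1 a0 + s2 b))) ^ 2) a0]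
    refine av_congr fun a => ?_
    rw [pow_two, av_mul_av]
    refine av_congr fun b0 => ?_
    rw [← av_add_left (fun b => sm (fun v => Kv v (M + s1 (a0 + a) + s2 b0)) *
      sm (fun v => Kv v (M + s1 a0 + s2 b0)) * (sm (fun v => Kv v (M + s1 (a0 + a) + s2 b)) *
      sm (fun v => Kv v (M + s1 a0 + s2 b)))) b0]
    refine av_congr fun b => ?_
    rw [h.a1, h.a2]
    rw [show M + s1 a0 + s2 b0 + s1 a = M + (s1 a0 + s1 a) + s2 b0 by abel,
      show M + s1 a0 + s2 b0 + s2 b = M + s1 a0 + (s2 b0 + s2 b) by abel,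
      show M + (s1 a0 + s1 a) + s2 b0 + s2 b = M + (s1 a0 + s1 a) + (s2 b0 + s2 b) by abel]
    simp only [hK]
    ring
  · rw [h.a1, hi, show M + (s1 a + t y) + s2 b = M + s1 a + s2 b + t y by abel, h.cov]
  · rw [h.a2, hj, ← add_assoc, h.cov]

omit [Finite X] in
lemma PaD.sumsq (h : PaD s1 s2 t χ Kv) (M : X) :
    sm (fun v => Kv v M ^ 2) = av fun y => sm (fun v => Kv v (M + t y)) ^ 2 :=
  pa_sumsq t χ h.orth Kv h.cov M

lemma pa_pow_av {O : Type} [Finite O] [Nonempty O] (f : O → ℝ) (hf : ∀ o, 0 ≤ f o) (p : ℕ) :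
    av f ^ p ≤ av fun o => f o ^ p := by
  have := abs_av_pow_le f p
  rw [abs_of_nonneg (av_nonneg hf)] at this
  refine this.trans (le_of_eq (av_congr fun o => ?_))
  rw [abs_of_nonneg (hf o)]

lemma PaD.sumsq_pow (h : PaD s1 s2 t χ Kv) {D : ℕ → ℝ} (hD : Tame D fun M => sm fun v => Kv v M)
    (p : ℕ) : av (fun M => sm (fun v => Kv v M ^ 2) ^ p) ≤ D (2 * p) := by
  refine le_trans ?_ (hD (2 * p))
  rw [← av_shift (fun M => |sm fun v => Kv v M| ^ (2 * p)) t]
  refine av_mono fun M => ?_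
  rw [h.sumsq]
  refine (pa_pow_av _ (fun _ => sq_nonneg _) p).trans (le_of_eq (av_congr fun y => ?_))
  rw [pow_mul, sq_abs]

omit [Finite X] [Finite Y] [Nonempty Y] [AddCommGroup H1] [AddCommGroup H2] in
lemma pa_sumE (M : X) : sm (fun v => paE s1 s2 Kv v M) =
    av fun a => av fun b => sm fun v => Kv v (M + s1 a + s2 b) ^ 2 := by
  unfold paE
  rw [← av_sm_comm]
  exact av_congr fun a => (av_sm_comm _).symm

lemma PaD.sumE_pow (h : PaD s1 s2 t χ Kv) {D : ℕ → ℝ} (hD : Tame D fun M => sm fun v => Kv v M)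
    (p : ℕ) : av (fun M => sm (fun v => paE s1 s2 Kv v M) ^ p) ≤ D (2 * p) := by
  refine le_trans ?_ (h.sumsq_pow hD p)
  rw [← pa_shift2 s1 s2 (fun M => sm (fun v => Kv v M ^ 2) ^ p)]
  refine av_mono fun M => ?_
  rw [pa_sumE]
  refine (pa_pow_av _ (fun _ => av_nonneg fun _ => sm_nonneg fun _ => sq_nonneg _) p).trans
    (av_mono fun a => pa_pow_av _ (fun _ => sm_nonneg fun _ => sq_nonneg _) p)

/-- mass of the heavy parts -/
noncomputable def paK (s1 : H1 → X) (s2 : H2 → X) (Kv : Λ → X → ℝ) (θ : ℝ) : ℝ :=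
  av fun M => sm fun v => paE s1 s2 Kv v M * ind (θ ≤ paE s1 s2 Kv v M)

/-- the heavy part -/
noncomputable def paK0 (s1 : H1 → X) (s2 : H2 → X) (Kv : Λ → X → ℝ) (θ : ℝ) (M : X) : ℝ :=
  sm fun v => Kv v M * ind (θ ≤ paE s1 s2 Kv v M)

lemma PaD.heavy (h : PaD s1 s2 t χ Kv) (θ : ℝ) (v : Λ) :
    av (fun M => Kv v M ^ 2 * ind (θ ≤ paE s1 s2 Kv v M)) =
      av fun M => paE s1 s2 Kv v M * ind (θ ≤ paE s1 s2 Kv v M) := by
  rw [← pa_shift2 s1 s2 (fun M => Kv v M ^ 2 * ind (θ ≤ paE s1 s2 Kv v M))]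
  refine av_congr fun M => ?_
  simp only [h.e_shift]
  simp only [av_mul_right]
  rfl

lemma PaD.inner_K0 (h : PaD s1 s2 t χ Kv) (θ : ℝ) :
    av (fun M => sm (fun v => Kv v M) * paK0 s1 s2 Kv θ M) = paK s1 s2 Kv θ := by
  unfold paK0 paK
  rw [pa_orth t χ h.orth Kv (fun v M => Kv v M * ind (θ ≤ paE s1 s2 Kv v M)) h.cov
    (fun v M y => by rw [h.cov, h.e_t]; ring), av_sm_comm]
  refine sm_congr fun v => ?_
  rw [← h.heavy]
  exact av_congr fun M => by ring

lemma PaD.sq_K0 (h : PaD s1 s2 t χ Kv) (θ : ℝ) :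
    av (fun M => paK0 s1 s2 Kv θ M ^ 2) = paK s1 s2 Kv θ := by
  unfold paK0 paK
  simp only [pow_two (sm _)]
  have hc : ∀ v M y, Kv v (M + t y) * ind (θ ≤ paE s1 s2 Kv v (M + t y)) =
      Kv v M * ind (θ ≤ paE s1 s2 Kv v M) * χ v y := fun v M y => by rw [h.cov, h.e_t]; ring
  rw [pa_orth t χ h.orth (fun v M => Kv v M * ind (θ ≤ paE s1 s2 Kv v M))
    (fun v M => Kv v M * ind (θ ≤ paE s1 s2 Kv v M)) hc hc, av_sm_comm]
  refine sm_congr fun v => ?_
  rw [← h.heavy]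
  refine av_congr fun M => ?_
  have := ind_mul_self (θ ≤ paE s1 s2 Kv v M)
  calc _ = Kv v M ^ 2 * (ind (θ ≤ paE s1 s2 Kv v M) * ind (θ ≤ paE s1 s2 Kv v M)) := by ring
    _ = _ := by rw [this]

lemma PaD.K_le (h : PaD s1 s2 t χ Kv) {D : ℕ → ℝ} (hD : Tame D fun M => sm fun v => Kv v M)
    (θ : ℝ) : paK s1 s2 Kv θ ≤ D 2 := by
  refine le_trans (av_mono fun M => ?_) (h.sumE_pow hD 1)
  rw [pow_one]
  exact sm_mono fun v => mul_le_of_le_one_right (paE_nonneg v M) (ind_le_one _)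

lemma PaD.le_K (h : PaD s1 s2 t χ Kv) {D : ℕ → ℝ} (hD : Tame D fun M => sm fun v => Kv v M)
    {η θ : ℝ} (hη : 0 < η) (hθ : 0 ≤ θ) (hθη : θ * D 2 ≤ η / 2)
    (hb : η ≤ av fun M => sm fun v => paE s1 s2 Kv v M ^ 2) :
    (η / 2) ^ 2 ≤ D 6 * paK s1 s2 Kv θ := by
  set S : X → ℝ := fun M => sm fun v => paE s1 s2 Kv v M with hS
  set T : X → ℝ := fun M => sm fun v => paE s1 s2 Kv v M * ind (θ ≤ paE s1 s2 Kv v M) with hT
  have hT0 : ∀ M, 0 ≤ T M := fun M => sm_nonneg fun v => mul_nonneg (paE_nonneg v M) (ind_nonneg _)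
  have hTS : ∀ M, T M ≤ S M := fun M =>
    sm_mono fun v => mul_le_of_le_one_right (paE_nonneg v M) (ind_le_one _)
  have h1 : ∀ M, sm (fun v => paE s1 s2 Kv v M ^ 2) ≤ θ * S M + S M * T M := by
    intro M
    rw [hS, hT]
    simp only []
    rw [← sm_mul_left θ, ← sm_mul_left (sm fun v => paE s1 s2 Kv v M), ← sm_add]
    refine sm_mono fun v => ?_
    have e0 := paE_nonneg (s1 := s1) (s2 := s2) (Kv := Kv) v M
    have e1 := single_le_sm (fun v => paE_nonneg (s1 := s1) (s2 := s2) (Kv := Kv) v M) v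
    by_cases hv : θ ≤ paE s1 s2 Kv v M
    · rw [ind_pos hv]; nlinarith
    · rw [ind_neg hv]; push Not at hv; nlinarith
  have h2 : η ≤ θ * av S + av fun M => S M * T M := by
    rw [← av_mul_left, ← av_add]; exact hb.trans (av_mono h1)
  have h3 : av S ≤ D 2 := by simpa using h.sumE_pow hD 1
  have h4 : η / 2 ≤ av fun M => S M * T M := by nlinarith
  have h5 := av_cs (fun M => S M * Real.sqrt (T M)) (fun M => Real.sqrt (T M))
  have e5 : ∀ M, S M * Real.sqrt (T M) * Real.sqrt (T M) = S M * T M := fun M => by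
    rw [mul_assoc, Real.mul_self_sqrt (hT0 M)]
  have e6 : ∀ M, (S M * Real.sqrt (T M)) ^ 2 ≤ S M ^ 3 := fun M => by
    rw [mul_pow, Real.sq_sqrt (hT0 M)]
    nlinarith [hTS M, sq_nonneg (S M)]
  have e7 : ∀ M, Real.sqrt (T M) ^ 2 = T M := fun M => Real.sq_sqrt (hT0 M)
  rw [av_congr e5, av_congr e7] at h5
  have h6 : av (fun M => (S M * Real.sqrt (T M)) ^ 2) ≤ D 6 :=
    (av_mono e6).trans (h.sumE_pow hD 3)
  calc (η / 2) ^ 2 ≤ (av fun M => S M * T M) ^ 2 := pow_le_pow_left₀ (by linarith) h4 2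
    _ ≤ _ := h5
    _ ≤ D 6 * av T := mul_le_mul_of_nonneg_right h6 (av_nonneg hT0)

omit [Finite X] [Finite Y] [Nonempty Y] [AddCommGroup H1] [AddCommGroup H2] in
lemma pa_count_le {θ : ℝ} (hθ : 0 < θ) (M : X) :
    sm (fun v => ind (θ ≤ paE s1 s2 Kv v M)) ≤ sm (fun v => paE s1 s2 Kv v M) / θ := by
  rw [← sm_div]
  refine sm_mono fun v => ?_
  by_cases hv : θ ≤ paE s1 s2 Kv v M
  · rw [ind_pos hv, le_div_iff₀ hθ]; linarith
  · rw [ind_neg hv]; exact div_nonneg (paE_nonneg v M) hθ.le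

/-- the weight that controls the error term -/
noncomputable def paW (s1 : H1 → X) (s2 : H2 → X) (Kv : Λ → X → ℝ) (θ : ℝ) (M : X) : ℝ :=
  (sm (fun v => paE s1 s2 Kv v M) ^ 4 + sm (fun v => Kv v M ^ 2) ^ 4) / θ ^ 2

lemma PaD.W_le (h : PaD s1 s2 t χ Kv) {D : ℕ → ℝ} (hD : Tame D fun M => sm fun v => Kv v M)
    (θ : ℝ) : av (paW s1 s2 Kv θ) ≤ 2 * D 8 / θ ^ 2 := by
  unfold paW
  rw [av_div, av_add]
  have h1 := h.sumE_pow hD 4
  have h2 := h.sumsq_pow hD 4
  exact div_le_div_of_nonneg_right (by norm_num at h1 h2; linarith) (sq_nonneg _)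

omit [Finite X] [Finite Y] [Nonempty Y] [AddCommGroup H1] [AddCommGroup H2] in
/-- the error made by dropping the parts that are not reduced -/
lemma pa_err {θ T : ℝ} (hθ : 0 < θ) (hT : 0 < T) (red : Λ → Prop) (M : X) :
    (paK0 s1 s2 Kv θ M - sm fun v => Kv v M * ind (θ ≤ paE s1 s2 Kv v M ∧ red v)) ^ 2 ≤
      T * ind (∃ v, θ ≤ paE s1 s2 Kv v M ∧ ¬ red v) + paW s1 s2 Kv θ M / T := by
  have e : paK0 s1 s2 Kv θ M - sm (fun v => Kv v M * ind (θ ≤ paE s1 s2 Kv v M ∧ red v)) =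
      sm fun v => Kv v M * ind (θ ≤ paE s1 s2 Kv v M ∧ ¬ red v) := by
    unfold paK0
    rw [← sm_sub]
    refine sm_congr fun v => ?_
    rw [ind_and, ind_and, ind_not]; ring
  rw [e]
  have hW : 0 ≤ paW s1 s2 Kv θ M := by unfold paW; positivity
  by_cases hb : ∃ v, θ ≤ paE s1 s2 Kv v M ∧ ¬ red v
  · rw [ind_pos hb, mul_one]
    set S := sm fun v => paE s1 s2 Kv v M with hS
    set Q := sm fun v => Kv v M ^ 2 with hQ
    have hQ0 : 0 ≤ Q := sm_nonneg fun _ => sq_nonneg _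
    have h1 := sm_cs (fun v => Kv v M) (fun v => ind (θ ≤ paE s1 s2 Kv v M ∧ ¬ red v))
    have h2 : sm (fun v => ind (θ ≤ paE s1 s2 Kv v M ∧ ¬ red v) ^ 2) ≤ S / θ := by
      refine le_trans (sm_mono fun v => ?_) (pa_count_le hθ M)
      rw [ind_sq]; exact ind_mono And.left
    have h3 : (Q * (S / θ)) ^ 2 ≤ paW s1 s2 Kv θ M := by
      unfold paW
      rw [mul_pow, div_pow, ← mul_div_assoc]
      refine div_le_div_of_nonneg_right ?_ (sq_nonneg _)
      nlinarith [sq_nonneg (S ^ 2 - Q ^ 2), sq_nonneg (S * Q)]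
    have h4 : Q * (S / θ) ≤ T + (Q * (S / θ)) ^ 2 / T := by
      have : Q * (S / θ) * T ≤ T * T + (Q * (S / θ)) ^ 2 := by
        nlinarith [sq_nonneg (Q * (S / θ) - T), sq_nonneg (Q * (S / θ)), sq_nonneg T]
      rw [← sub_le_iff_le_add', le_div_iff₀ hT]; linarith
    calc _ ≤ Q * (S / θ) := h1.trans (mul_le_mul_of_nonneg_left h2 hQ0)
      _ ≤ T + (Q * (S / θ)) ^ 2 / T := h4
      _ ≤ _ := by gcongr
  · have : sm (fun v => Kv v M * ind (θ ≤ paE s1 s2 Kv v M ∧ ¬ red v)) = 0 := by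
      rw [← sm_zero (α := Λ)]
      exact sm_congr fun v => by rw [ind_neg fun hv => hb ⟨v, hv⟩, mul_zero]
    rw [this, ind_neg hb]
    have := div_nonneg hW hT.le
    nlinarith

end core

/-- the pointwise inequality behind the gain -/
lemma pa_point {δ : ℝ} (hδ : 0 < δ) (u k g : ℝ) :
    2 * (u * k) - (1 + δ) * k ^ 2 - δ * u ^ 2 - (1 + 2 / δ) * (k - g) ^ 2 ≤ 2 * (u * g) - g ^ 2 := by
  have h1 : 2 * (u * (k - g)) ≤ δ * u ^ 2 + (k - g) ^ 2 / δ := by
    have : 0 ≤ (δ * u - (k - g)) ^ 2 / δ := by positivity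
    have e : (δ * u - (k - g)) ^ 2 / δ = δ * u ^ 2 + (k - g) ^ 2 / δ - 2 * (u * (k - g)) := by
      field_simp; ring
    linarith
  have h2 : -(2 * (k * (k - g))) ≤ δ * k ^ 2 + (k - g) ^ 2 / δ := by
    have : 0 ≤ (δ * k + (k - g)) ^ 2 / δ := by positivity
    have e : (δ * k + (k - g)) ^ 2 / δ = δ * k ^ 2 + (k - g) ^ 2 / δ + 2 * (k * (k - g)) := by
      field_simp; ring
    linarith
  have e : (1 + 2 / δ) * (k - g) ^ 2 = (k - g) ^ 2 + 2 * ((k - g) ^ 2 / δ) := by ring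
  rw [e]
  nlinarith

end SD
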