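import Pool.Agent.Lib.MP_ecee09_co.SD.Four

/-! Algebra for the degenerate case (PA): labels, the particle map, shifted forms. -/

set_option linter.unusedSectionVars false

namespace SD

open Module QuadraticMap

section mvs
variable {U V : Type} [AddCommGroup U] [Module F U] [AddCommGroup V] [Module F V] [Finite U]
  [Finite V]

lemma pa_mv (M : G V) (v y : Dual F V) : y (mv M v) = M (linMulLin y v) :=
  Module.apply_evalEquiv_symm_apply F V y _

lemma pa_dg (M : G V) (y : Dual F V) : y (dg M) = M (linMulLin y y) :=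
  Module.apply_evalEquiv_symm_apply F V y _

lemma pa_ext {a b : V} (h : ∀ y : Dual F V, y a = y b) : a = b := by
  rw [← sub_eq_zero, ← Module.forall_dual_apply_eq_zero_iff F]
  intro y
  rw [map_sub, h, sub_self]

lemma pa_mv_add (M M' : G V) (v : Dual F V) : mv (M + M') v = mv M v + mv M' v :=
  pa_ext fun y => by rw [map_add, pa_mv, pa_mv, pa_mv, LinearMap.add_apply]

lemma pa_push (Φ : U →ₗ[F] V) (B : G U) (Q : QF V) : push Φ B Q = B (Q.comp Φ) := rfl

lemma pa_lml_comp (y v : Dual F V) (Φ : U →ₗ[F] V) :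
    (linMulLin y v : QF V).comp Φ = linMulLin (y.comp Φ) (v.comp Φ) := by
  ext x; simp

lemma pa_mv_push_zero (Φ : U →ₗ[F] V) (B : G U) (v : Dual F V) (h : v.comp Φ = 0) :
    mv (push Φ B) v = 0 :=
  pa_ext fun y => by
    rw [pa_mv, pa_push, pa_lml_comp, h, map_zero]
    have : (linMulLin (y.comp Φ) (0 : Dual F U) : QF U) = 0 := by ext x; simp
    rw [this, map_zero]

lemma pa_polar_lml (y v : Dual F V) (a b : V) :
    polar (linMulLin y v : QF V) a b = y a * v b + y b * v a := by
  rw [polar_eq]
  simp only [linMulLin_apply, map_add]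
  generalize y a = s; generalize y b = t; generalize v a = u; generalize v b = w
  revert s t u w; decide

/-- a form pulled back along a map that is not onto has smaller rank -/
lemma pa_rank_lt (q : QF V) (w : U →ₗ[F] V) (hw : LinearMap.range w ≠ ⊤) :
    rank (q.comp w) < finrank F V := by
  have h1 : LinearMap.ker w ≤ (q.comp w).radical := by
    intro y hy
    rw [LinearMap.mem_ker] at hy
    refine ⟨by simp [hy], ?_⟩
    ext x
    simp [polar_comp', hy]
  have h2 := Submodule.finrank_quotient_add_finrank (q.comp w).radical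
  have h3 := LinearMap.finrank_range_add_finrank_ker w
  have h4 := Submodule.finrank_mono h1
  have h5 := Submodule.finrank_lt hw
  unfold rank
  omega

end mvs

section flds
variable {n ρ : ℕ} {E : Type} [AddCommGroup E] [Module F E] [Finite E]

lemma pa_lin {V : Type} [AddCommGroup V] [Module F V] (Z : Fin n → V) (x : Fk n) :
    lin Z x = ∑ j, x j • Z j := Fintype.linearCombination_apply _ _ _

lemma pa_lin_single {V : Type} [AddCommGroup V] [Module F V] (Z : Fin n → V) (j : Fin n) :
    lin Z (Pi.single j 1) = Z j := by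
  unfold lin; rw [Fintype.linearCombination_apply_single, one_smul]

lemma pa_lin_add {V : Type} [AddCommGroup V] [Module F V] (Z W : Fin n → V) (x : Fk n) :
    lin (Z + W) x = lin Z x + lin W x := by
  simp only [pa_lin, Pi.add_apply, smul_add, Finset.sum_add_distrib]

lemma pa_lin_star (y : Fin ρ → Fk n) (r : Fin ρ → E) (x : Fk n) :
    lin (star y r) x = ∑ i, lin (y i) x • r i := by
  simp only [pa_lin, star, Finset.smul_sum, Finset.sum_smul, smul_eq_mul, mul_smul]
  exact Finset.sum_comm

lemma pa_QZ (q : QF E) (Z : Fin n → E) (x : Fk n) (e : E) : QZ q Z (x, e) = q (lin Z x + e) := rfl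

lemma pa_tau (b : Fin n → E) (Q : QF (Fk n × E)) :
    tau b Q = ∑ i, polar Q (Pi.single i 1, 0) (0, b i) := by
  unfold tau
  rw [LinearMap.sum_apply]
  refine Finset.sum_congr rfl fun i _ => ?_
  rw [polar_eq, Prod.mk_add_mk, add_zero, zero_add]
  rfl

lemma pa_tau_add (b b' : Fin n → E) : tau (b + b') = tau b + tau b' := by
  ext Q
  rw [LinearMap.add_apply, pa_tau, pa_tau, pa_tau, ← Finset.sum_add_distrib]
  refine Finset.sum_congr rfl fun i _ => ?_
  rw [← polar_add_right, Prod.mk_add_mk, add_zero]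
  rfl

lemma pa_tau_QZ (q : QF E) (b Z : Fin n → E) : tau b (QZ q Z) = brk q b Z := by
  rw [pa_tau]
  refine Finset.sum_congr rfl fun i _ => ?_
  unfold QZ
  rw [polar_comp', polar_comm]
  simp [pa_lin_single]

lemma pa_chi_tau (q : QF E) (b Z : Fin n → E) (M : G (Fk n × E)) :
    chi (QZ q Z) (M + tau b) = chi (QZ q Z) M * sg (brk q b Z) := by
  rw [chi_add, ← pa_tau_QZ]; rfl

lemma pa_brk_add_left (q : QF E) (b b' Z : Fin n → E) :
    brk q (b + b') Z = brk q b Z + brk q b' Z := by
  simp only [brk, Pi.add_apply, polar_add_left, Finset.sum_add_distrib]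

lemma pa_brk_add_right (q : QF E) (b Z Z' : Fin n → E) :
    brk q b (Z + Z') = brk q b Z + brk q b Z' := by
  simp only [brk, Pi.add_apply, polar_add_right, Finset.sum_add_distrib]

lemma pa_QZ_inj {q : QF E} (hq : ND q) {Z Z' : Fin n → E} (h : QZ q Z = QZ q Z') : Z = Z' := by
  funext j
  rw [← add_eq_zero2]
  refine hq _ fun e => ?_
  have h1 := pa_tau_QZ q (Pi.single j e) Z
  rw [h, pa_tau_QZ] at h1
  have h2 : ∀ W : Fin n → E, brk q (Pi.single j e) W = polar q e (W j) := fun W => by
    unfold brk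
    rw [Finset.sum_eq_single j]
    · simp
    · intro i _ hi; simp [Pi.single_eq_of_ne hi]
    · simp
  rw [h2, h2] at h1
  rw [polar_add_right, h1, F_add_self]

/-- `<u, f> = <K, f>` for a field `f` -/
lemma pa_inner {q : QF E} (hq : ND q) (u : G (Fk n × E) → ℝ) (a : (Fin n → E) → ℝ) :
    av (fun M => u M * fld q a M) = av fun M => fld q (cf q u) M * fld q a M := by
  have h : ∀ w : G (Fk n × E) → ℝ, av (fun M => w M * fld q a M) =
      sm fun Z => a Z * coef w (QZ q Z) := fun w => by
    unfold fld coef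
    simp only [← sm_mul_left]
    rw [av_sm_comm]
    refine sm_congr fun Z => ?_
    rw [← av_mul_left]
    exact av_congr fun M => by ring
  rw [h, h]
  refine sm_congr fun Z => ?_
  congr 1
  unfold fld
  rw [coef_sm]
  rw [sm_congr fun Z' => by rw [ind_congr (⟨pa_QZ_inj hq, fun h => h ▸ rfl⟩ :
    QZ q Z' = QZ q Z ↔ Z' = Z)], sm_ind_eq]
  rfl

/-- the label of `Z` -/
def paLab (q : QF E) (r : Fin ρ → E) (Z : Fin n → E) : Fin ρ → Dual F (Fk n) :=
  fun i => (polarBilin q (r i)).comp (lin Z)

def paPhi (n : ℕ) (q : QF E) (r : Fin ρ → E) (i : Fin ρ) : Dual F (Fk n × E) :=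
  (polarBilin q (r i)).comp (LinearMap.snd F (Fk n) E)

/-- the map to the particle space -/
noncomputable def paL (q : QF E) (r : Fin ρ → E) (M : G (Fk n × E)) : Gam ρ (Fk n) :=
  (push (LinearMap.fst F (Fk n) E) M, fun i => (mv M (paPhi n q r i)).1)

def paEps (q : QF E) (r : Fin ρ → E) : Fk ρ := fun i => q (r i)

/-- the position of the present particle with label `v` -/
noncomputable def paXi (q : QF E) (r : Fin ρ → E) (M : G (Fk n × E))
    (v : Fin ρ → Dual F (Fk n)) : Fin ρ → Fk n :=
  resid (paEps q r) (v, 0) (paL q r M)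

def paP (y ξ : Fin ρ → Fk n) : F := ∑ i, lin (y i) (ξ i)

lemma pa_resid (q : QF E) (r : Fin ρ → E) (M : G (Fk n × E)) (p : Pt ρ (Fk n)) :
    resid (paEps q r) p (paL q r M) = 0 ↔ paXi q r M p.1 = p.2 := by
  have : resid (paEps q r) p (paL q r M) = paXi q r M p.1 + p.2 := by
    funext i; simp [paXi, resid]
  rw [this, add_eq_zero2]

lemma pa_brk_star (q : QF E) (r : Fin ρ → E) (y : Fin ρ → Fk n) (Z : Fin n → E) :
    brk q (star y r) Z = ∑ i, paLab q r Z i (y i) := by
  simp only [brk, star, paLab, LinearMap.comp_apply, pa_lin, map_sum, map_smul,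
    ← polarBilin_apply_apply, LinearMap.sum_apply, LinearMap.smul_apply]
  exact Finset.sum_comm

lemma pa_lab_star {q : QF E} {r : Fin ρ → E} (hr : ∀ i j, polar q (r i) (r j) = 0)
    (y : Fin ρ → Fk n) (Z : Fin n → E) : paLab q r (Z + star y r) = paLab q r Z := by
  funext i
  refine LinearMap.ext fun x => ?_
  simp only [paLab, LinearMap.comp_apply, pa_lin_add, pa_lin_star, map_add, map_sum, map_smul,
    polarBilin_apply_apply, hr, smul_zero, Finset.sum_const_zero, add_zero]

lemma pa_q_sum {q : QF E} {r : Fin ρ → E} (hr : ∀ i j, polar q (r i) (r j) = 0) (t : Fin ρ → F)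
    (s : Finset (Fin ρ)) : q (∑ i ∈ s, t i • r i) = ∑ i ∈ s, q (r i) * (t i * t i) := by
  classical
  induction s using Finset.induction_on with
  | empty => simp
  | insert a s ha ih =>
    rw [Finset.sum_insert ha, Finset.sum_insert ha, map_add2, ih, QuadraticMap.map_smul,
      ← polarBilin_apply_apply, map_sum]
    simp [hr, mul_comm]

lemma pa_QZ_star {q : QF E} {r : Fin ρ → E} (hr : ∀ i j, polar q (r i) (r j) = 0)
    (y : Fin ρ → Fk n) (Z : Fin n → E) :
    QZ q (Z + star y r) = QZ q Z + ∑ i,
      ((linMulLin (lin (y i)) (paLab q r Z i) : QF (Fk n)).comp (LinearMap.fst F (Fk n) E) +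
        linMulLin ((lin (y i)).comp (LinearMap.fst F (Fk n) E)) (paPhi n q r i) +
        q (r i) • (linMulLin (lin (y i)) (lin (y i)) : QF (Fk n)).comp
          (LinearMap.fst F (Fk n) E)) := by
  ext ⟨x, e⟩
  rw [pa_QZ, pa_lin_add, pa_lin_star, add_right_comm, map_add2, pa_q_sum hr, polar_comm,
    ← polarBilin_apply_apply, _root_.add_apply, pa_QZ, _root_.sum_apply, add_assoc]
  congr 1
  rw [map_sum, LinearMap.sum_apply, ← Finset.sum_add_distrib]
  refine Finset.sum_congr rfl fun i _ => ?_
  simp [paLab, paPhi]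
  ring

lemma pa_chi_star {q : QF E} {r : Fin ρ → E} (hr : ∀ i j, polar q (r i) (r j) = 0)
    (y : Fin ρ → Fk n) (Z : Fin n → E) (M : G (Fk n × E)) :
    chi (QZ q (Z + star y r)) M = chi (QZ q Z) M * sg (paP y (paXi q r M (paLab q r Z))) := by
  rw [pa_QZ_star hr, chi_add_left]
  congr 1
  unfold chi paP
  rw [map_sum]
  congr 1
  refine Finset.sum_congr rfl fun i _ => ?_
  rw [map_add, map_add, map_smul, ← pa_push, ← pa_push, ← pa_mv, ← pa_mv, ← pa_dg]
  simp [paXi, resid, paL, paEps]

lemma paL_add (q : QF E) (r : Fin ρ → E) (M M' : G (Fk n × E)) :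
    paL q r (M + M') = paL q r M + paL q r M' := by
  unfold paL
  refine Prod.ext (map_add _ _ _) (funext fun i => ?_)
  simp [pa_mv_add]

lemma paL_push {U : Type} [AddCommGroup U] [Module F U] [Finite U] (q : QF E) (r : Fin ρ → E)
    (Φ : U →ₗ[F] Fk n) (B : G U) :
    paL q r (push ((LinearMap.inl F (Fk n) E).comp Φ) B) = gpush Φ (B, 0) := by
  unfold paL
  refine Prod.ext ?_ (funext fun i => ?_)
  · change push _ (push _ B) = push Φ B
    rw [← push_comp, ← LinearMap.comp_assoc, LinearMap.fst_comp_inl, LinearMap.id_comp]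
  · change (mv (push _ B) (paPhi n q r i)).1 = Φ 0
    rw [pa_mv_push_zero _ _ _ (by ext; simp [paPhi])]
    simp

lemma pa_dual_vec {q : QF E} (hq : ND q) {r : Fin ρ → E} (hli : LinearIndependent F r) :
    ∃ s : Fin ρ → E, ∀ i j, polar q (r i) (s j) = (Pi.single j 1 : Fk ρ) i := by
  let T : E →ₗ[F] Fk ρ := LinearMap.pi fun i => polarBilin q (r i)
  have hs : Function.Surjective T := by
    rw [← LinearMap.dualMap_injective_iff, injective_iff_map_eq_zero]
    intro f hf
    have h1 : ∀ z : Fk ρ, f z = ∑ i, z i * f (Pi.single i 1) := fun z => by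
      conv_lhs => rw [← Finset.univ_sum_single z, map_sum]
      refine Finset.sum_congr rfl fun i _ => ?_
      rw [← smul_eq_mul, ← map_smul, ← Pi.single_smul, smul_eq_mul, mul_one]
    have h2 : ∑ i, f (Pi.single i 1) • r i = 0 := by
      refine hq _ fun e => ?_
      have := LinearMap.congr_fun hf e
      rw [LinearMap.dualMap_apply, h1, LinearMap.zero_apply] at this
      rw [polar_comm, ← polarBilin_apply_apply, map_sum, LinearMap.sum_apply, ← this]
      refine Finset.sum_congr rfl fun i _ => ?_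
      simp [T, mul_comm]
    have h3 := Fintype.linearIndependent_iff.1 hli _ h2
    refine LinearMap.ext fun z => ?_
    rw [h1]; simp [h3]
  choose s hs using fun j => hs (Pi.single j 1)
  exact ⟨s, fun i j => congrFun (hs j) i⟩

lemma paL_surj {q : QF E} (hq : ND q) {r : Fin ρ → E} (hli : LinearIndependent F r) :
    Function.Surjective (paL (n := n) q r) := by
  obtain ⟨s, hs⟩ := pa_dual_vec hq hli
  rintro ⟨M, β⟩
  refine ⟨push ((LinearMap.inl F (Fk n) E).comp LinearMap.id) M + tau (star β s), ?_⟩
  rw [paL_add, paL_push]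
  have h1 : paL q r (tau (star β s)) = (0, β) := by
    unfold paL
    refine Prod.ext ?_ (funext fun i => pa_ext fun y => ?_)
    · ext Q
      change tau _ (Q.comp _) = 0
      rw [pa_tau]
      exact Finset.sum_eq_zero fun j _ => by simp [polar_comp']
    · change (y.comp (LinearMap.fst F (Fk n) E)) (mv _ _) = y (β i)
      rw [pa_mv, pa_tau]
      conv_rhs => rw [← Finset.univ_sum_single (β i), map_sum]
      refine Finset.sum_congr rfl fun j _ => ?_
      rw [pa_polar_lml]
      have : polar q (r i) (star β s j) = β i j := by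
        unfold star
        rw [← polarBilin_apply_apply, map_sum, Finset.sum_eq_single i]
        · simp [hs]
        · intro a _ ha; simp [hs, Pi.single_eq_of_ne ha.symm]
        · simp
      have h2 : (Pi.single j (β i j) : Fk n) = β i j • Pi.single j 1 := by
        rw [← Pi.single_smul, smul_eq_mul, mul_one]
      rw [h2, map_smul]
      simp [paPhi, this, mul_comm]
  rw [h1]
  simp [gpush, push_id]

lemma pa_low {q : QF E} (hq : ND q) {r : Fin ρ → E} (hli : LinearIndependent F r)
    {U : Type} [AddCommGroup U] [Module F U] [Finite U] (Φ : U →ₗ[F] Fk n) (Z : Fin n → E)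
    (h : ¬ LinearIndependent F fun i => (paLab q r Z i).comp Φ) :
    Low (finrank F E) ((QZ q Z).comp ((LinearMap.inl F (Fk n) E).comp Φ)) := by
  have e : (QZ q Z).comp ((LinearMap.inl F (Fk n) E).comp Φ) = q.comp ((lin Z).comp Φ) := by
    ext x; simp [pa_QZ]
  rw [e]
  refine pa_rank_lt q _ fun ht => h ?_
  rw [Fintype.linearIndependent_iff]
  intro l hl
  refine Fintype.linearIndependent_iff.1 hli l (hq _ fun e => ?_)
  obtain ⟨x, rfl⟩ := LinearMap.range_eq_top.1 ht e
  have := LinearMap.congr_fun hl x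
  rw [polar_comm, ← polarBilin_apply_apply, map_sum, LinearMap.sum_apply]
  simpa [paLab] using this

end flds

end SD
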