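import Pool.Agent.Lib.MP_ecee09_co.SD.PAa
import Pool.Agent.Lib.MP_ecee09_co.SD.PAb
import Pool.Agent.Lib.MP_ecee09_co.SD.FamB

/-! The degenerate case (PA): labelled fields, particles and the lifted family. -/

set_option linter.unusedSectionVars false

namespace SD

open Module QuadraticMap

variable {n ρ : ℕ} {E : Type} [AddCommGroup E] [Module F E] [Finite E]

/-- the part of a field with label `v` -/
noncomputable def paKv (q : QF E) (r : Fin ρ → E) (c : (Fin n → E) → ℝ)
    (v : Fin ρ → Dual F (Fk n)) (M : G (Fk n × E)) : ℝ :=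
  fld q (fun Z => ind (paLab q r Z = v) * c Z) M

def paS (n : ℕ) (S : Submodule F E) (h : Fin n → S) : G (Fk n × E) := tau fun i => (h i : E)

/-- `r` is a basis of the radical of `S` -/
structure PaR (q : QF E) (S : Submodule F E) (r : Fin ρ → E) : Prop where
  nd : ND q
  inS : ∀ i, r i ∈ S
  inP : ∀ i, r i ∈ perp q S
  li : LinearIndependent F r
  sp : ∀ w ∈ S, w ∈ perp q S → ∃ y : Fk ρ, w = ∑ i, y i • r i

lemma pa_perp_perp {q : QF E} (hq : ND q) (S : Submodule F E) : perp q (perp q S) = S := by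
  refine LinearMap.BilinForm.orthogonal_orthogonal ⟨fun x hx => hq x fun y => ?_,
    fun x hx => hq x fun y => hx y⟩ (fun x y h => ?_) S
  · rw [polar_comm]; exact hx y
  · rw [polarBilin_apply_apply, polar_comm]; exact h

lemma pa_exists_R {q : QF E} (hq : ND q) {S : Submodule F E} (h : S ⊓ perp q S ≠ ⊥) :
    ∃ ρ : ℕ, 1 ≤ ρ ∧ ρ ≤ finrank F E ∧ ∃ r : Fin ρ → E, PaR q S r := by
  let b := Module.finBasis F (S ⊓ perp q S : Submodule F E)
  refine ⟨finrank F (S ⊓ perp q S : Submodule F E), ?_, Submodule.finrank_le _,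
    fun i => (b i : E), hq, fun i => (b i).2.1, fun i => (b i).2.2,
    b.linearIndependent.map' (Submodule.subtype _) (Submodule.ker_subtype _), fun w h1 h2 => ?_⟩
  · exact Nat.one_le_iff_ne_zero.2 fun h0 => h (Submodule.finrank_eq_zero.1 h0)
  · refine ⟨fun i => b.repr ⟨w, h1, h2⟩ i, ?_⟩
    have := congrArg Subtype.val (b.sum_repr ⟨w, h1, h2⟩)
    rw [Submodule.coe_sum] at this
    exact this.symm

variable {q : QF E} {S : Submodule F E} {r : Fin ρ → E}

lemma PaR.iso (h : PaR q S r) (i j : Fin ρ) : polar q (r i) (r j) = 0 :=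
  (mem_perp q S _).1 (h.inP j) _ (h.inS i)

lemma pa_sum_Kv (q : QF E) (r : Fin ρ → E) (c : (Fin n → E) → ℝ) (M : G (Fk n × E)) :
    sm (fun v => paKv q r c v M) = fld q c M := by
  unfold paKv fld
  rw [sm_fiber (paLab q r)]
  exact sm_congr fun v => sm_congr fun Z => mul_assoc _ _ _

lemma paS_add (S : Submodule F E) (a a' : Fin n → S) : paS n S (a + a') = paS n S a + paS n S a' :=
  pa_tau_add (fun i => (a i : E)) (fun i => (a' i : E))

lemma PaR.data (h : PaR q S r) (c : (Fin n → E) → ℝ) :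
    PaD (paS n S) (paS n (perp q S)) (fun y : Fin ρ → Fk n => tau (star y r))
      (fun v y => sg (∑ i, v i (y i))) (paKv q r c) where
  a1 := paS_add S
  a2 := paS_add _
  t1 y := ⟨fun j => ⟨star y r j, S.sum_mem fun i _ => S.smul_mem _ (h.inS i)⟩, rfl⟩
  t2 y := ⟨fun j => ⟨star y r j, (perp q S).sum_mem fun i _ => (perp q S).smul_mem _ (h.inP i)⟩,
    rfl⟩
  orth v w := by
    simp only [← sg_add]
    rw [av_sg _ fun a b => by simp only [Pi.add_apply, map_add, Finset.sum_add_distrib]; ring]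
    refine ind_congr ⟨fun hx => funext fun i => LinearMap.ext fun x => ?_, fun hx y => ?_⟩
    · have := hx (Pi.single i x)
      rw [Finset.sum_eq_single i, Finset.sum_eq_single i] at this
      · simpa [add_eq_zero2] using this
      all_goals first | (intro j _ hj; simp [Pi.single_eq_of_ne hj]) | simp
    · rw [hx, F_add_self]
  sq v y := sg_sq _
  cov v M y := by
    unfold paKv fld
    rw [← sm_mul_right]
    refine sm_congr fun Z => ?_
    rw [pa_chi_tau, pa_brk_star]
    beta_reduce
    by_cases hv : paLab q r Z = v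
    · rw [hv]; ring
    · rw [ind_neg hv]; ring

lemma pa_brk_perp (T : Submodule F E) (W : Fin n → E)
    (h : ∀ a : Fin n → T, brk q (fun i => (a i : E)) W = 0) (j : Fin n) : W j ∈ perp q T := by
  classical
  refine (mem_perp q T _).2 fun s hs => ?_
  have := h (Pi.single j ⟨s, hs⟩)
  unfold brk at this
  rw [Finset.sum_eq_single j] at this
  · simpa using this
  · intro i _ hi; simp [Pi.single_eq_of_ne hi]
  · simp

lemma pa_av_brk (T : Submodule F E) (W : Fin n → E) :
    av (fun a : Fin n → T => sg (brk q (fun i => (a i : E)) W)) =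
      ind (∀ a : Fin n → T, brk q (fun i => (a i : E)) W = 0) :=
  av_sg _ fun a b => pa_brk_add_left q (fun i => (a i : E)) (fun i => (b i : E)) W

/-- the energy of a part depends only on the present particle -/
lemma PaR.inv (h : PaR q S r) (c : (Fin n → E) → ℝ) (v : Fin ρ → Dual F (Fk n))
    {M M' : G (Fk n × E)} (hM : paXi q r M v = paXi q r M' v) :
    paE (paS n S) (paS n (perp q S)) (paKv q r c) v M =
      paE (paS n S) (paS n (perp q S)) (paKv q r c) v M' := by
  have e : ∀ M : G (Fk n × E), paE (paS n S) (paS n (perp q S)) (paKv q r c) v M =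
      sm fun Z => sm fun Z' => (ind (paLab q r Z = v) * c Z * (ind (paLab q r Z' = v) * c Z')) *
        (chi (QZ q Z) M * chi (QZ q Z') M) *
        (ind (∀ a : Fin n → S, brk q (fun i => (a i : E)) (Z + Z') = 0) *
          ind (∀ a : Fin n → perp q S, brk q (fun i => (a i : E)) (Z + Z') = 0)) := by
    intro M
    unfold paE paKv fld paS
    simp only [pow_two, sm_mul_sm, av_sm_comm]
    refine sm_congr fun Z => sm_congr fun Z' => ?_
    rw [← pa_av_brk, ← pa_av_brk, av_mul_av, ← av_mul_left]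
    refine av_congr fun a => ?_
    rw [← av_mul_left]
    refine av_congr fun b => ?_
    simp only [pa_chi_tau, pa_brk_add_right, sg_add]
    ring
  rw [e, e]
  refine sm_congr fun Z => sm_congr fun Z' => ?_
  by_cases hv : paLab q r Z = v
  swap
  · rw [ind_neg hv]; ring
  by_cases h1 : ∀ a : Fin n → S, brk q (fun i => (a i : E)) (Z + Z') = 0
  swap
  · rw [ind_neg h1]; ring
  by_cases h2 : ∀ a : Fin n → perp q S, brk q (fun i => (a i : E)) (Z + Z') = 0
  swap
  · rw [ind_neg h2]; ring
  have h3 := fun j => h.sp _ (pa_perp_perp h.nd S ▸ pa_brk_perp _ _ h2 j) (pa_brk_perp _ _ h1 j)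
  choose y hy using h3
  have hZ : Z' = Z + star (fun a j => y j a) r := by
    have : star (fun a j => y j a) r = Z + Z' := funext fun j => (hy j).symm
    rw [this, ← add_assoc, add_self2, zero_add]
  have hc : ∀ M : G (Fk n × E), chi (QZ q Z) M * chi (QZ q Z') M =
      sg (paP (fun a j => y j a) (paXi q r M v)) := fun M => by
    rw [hZ, pa_chi_star h.iso, ← mul_assoc, chi_mul_self, one_mul, hv]
  rw [hc, hc, hM]

lemma pa_pair_inv (g : (Fin ρ → Fk n) → ℝ) (ξ : Fin ρ → Fk n) :
    sm (fun y => (av fun x => g x * sg (paP y x)) * sg (paP y ξ)) = g ξ := by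
  refine pair_inv (fun x y => paP y x) (fun x x' y => ?_) (fun x y y' => ?_) (fun x hx => ?_) rfl g ξ
  · simp only [paP, Pi.add_apply, map_add, Finset.sum_add_distrib]
  · simp only [paP, Pi.add_apply, pa_lin_add, Finset.sum_add_distrib]
  · funext i j
    have := hx (Pi.single i (Pi.single j 1))
    unfold paP at this
    rw [Finset.sum_eq_single i] at this
    · simpa [pa_lin, Pi.single_apply] using this
    · intro a _ ha; simp [Pi.single_eq_of_ne ha, pa_lin]
    · simp

/-- parts multiplied by functions of the present particle form a field -/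
lemma PaR.field (h : PaR q S r) (c : (Fin n → E) → ℝ)
    (g : (Fin ρ → Dual F (Fk n)) → (Fin ρ → Fk n) → ℝ) :
    ∃ a : (Fin n → E) → ℝ, (∀ Z, a Z ≠ 0 → ∃ ξ, g (paLab q r Z) ξ ≠ 0) ∧
      ∀ M, sm (fun v => paKv q r c v M * g v (paXi q r M v)) = fld q a M := by
  refine ⟨fun Z => sm fun y => (av fun x => g (paLab q r Z) x * sg (paP y x)) * c (Z + star y r),
    fun Z hZ => ?_, fun M => ?_⟩
  · by_contra hn
    push Not at hn
    apply hZ
    simp only [hn, zero_mul, av_zero, sm_zero]
  · have e1 : sm (fun v => paKv q r c v M * g v (paXi q r M v)) =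
        sm fun Z => c Z * chi (QZ q Z) M * g (paLab q r Z) (paXi q r M (paLab q r Z)) := by
      rw [sm_fiber (paLab q r)]
      refine sm_congr fun v => ?_
      unfold paKv fld
      rw [← sm_mul_right]
      refine sm_congr fun Z => ?_
      beta_reduce
      by_cases hv : paLab q r Z = v
      · rw [hv]; ring
      · rw [ind_neg hv]; ring
    rw [e1]
    unfold fld
    simp only [← sm_mul_right]
    rw [sm_comm]
    have e2 : ∀ Z, c Z * chi (QZ q Z) M * g (paLab q r Z) (paXi q r M (paLab q r Z)) =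
        sm fun y => (av fun x => g (paLab q r Z) x * sg (paP y x)) * c Z *
          chi (QZ q (Z + star y r)) M := fun Z => by
      rw [← pa_pair_inv (g (paLab q r Z)) (paXi q r M (paLab q r Z)), ← sm_mul_left]
      exact sm_congr fun y => by rw [pa_chi_star h.iso]; ring
    rw [sm_congr e2, sm_comm]
    refine sm_congr fun y => ?_
    rw [← sm_add_right (fun Z => (av fun x => g (paLab q r Z) x * sg (paP y x)) * c (Z + star y r) *
      chi (QZ q Z) M) (star y r)]
    refine sm_congr fun Z => ?_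
    rw [pa_lab_star h.iso, add_assoc, add_self2, add_zero]

/-- the heavy particles -/
def paPP (q : QF E) (S : Submodule F E) (r : Fin ρ → E) (c : (Fin n → E) → ℝ) (θ : ℝ) :
    Set (Pt ρ (Fk n)) :=
  {p | ∃ M, paXi q r M p.1 = p.2 ∧ θ ≤ paE (paS n S) (paS n (perp q S)) (paKv q r c) p.1 M}

lemma PaR.mem (h : PaR q S r) (c : (Fin n → E) → ℝ) (θ : ℝ) (v : Fin ρ → Dual F (Fk n))
    (M : G (Fk n × E)) : (v, paXi q r M v) ∈ paPP q S r c θ ↔
      θ ≤ paE (paS n S) (paS n (perp q S)) (paKv q r c) v M :=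
  ⟨fun ⟨_, h1, h2⟩ => h.inv c v h1 ▸ h2, fun h1 => ⟨M, rfl, h1⟩⟩

lemma PaR.NN_eq (h : PaR q S r) (c : (Fin n → E) → ℝ) (θ : ℝ) (M : G (Fk n × E)) :
    NN (paEps q r) (paPP q S r c θ) (paL q r M) =
      sm fun v => ind (θ ≤ paE (paS n S) (paS n (perp q S)) (paKv q r c) v M) := by
  unfold NN
  rw [sm_prod]
  refine sm_congr fun v => ?_
  rw [← ind_congr (h.mem c θ v M),
    ← sm_ind_eq' (paXi q r M v) fun ξ => ind ((v, ξ) ∈ paPP q S r c θ)]
  refine sm_congr fun ξ => ?_
  rw [ind_and, ind_congr (pa_resid q r M (v, ξ)), mul_comm]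

lemma PaR.tame (h : PaR q S r) {c : (Fin n → E) → ℝ} {D : ℕ → ℝ} (hD : Tame D (fld q c)) {θ : ℝ}
    (hθ : 0 < θ) : Tame (fun p => D (2 * p) / θ ^ p) (NN (paEps q r) (paPP q S r c θ)) := by
  intro p
  have hD' : Tame D fun M => sm fun v => paKv q r c v M := by
    simpa only [pa_sum_Kv] using hD
  rw [← av_surj (paL q r) (paL_add q r) (paL_surj h.nd h.li)]
  refine le_trans (av_mono fun M => ?_) ((av_div (θ ^ p) _).trans_le
    (div_le_div_of_nonneg_right ((h.data c).sumE_pow hD' p) (by positivity)))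
  have h0 : 0 ≤ sm fun v => ind (θ ≤ paE (paS n S) (paS n (perp q S)) (paKv q r c) v M) :=
    sm_nonneg fun _ => ind_nonneg _
  rw [h.NN_eq, abs_of_nonneg h0, ← div_pow]
  exact pow_le_pow_left₀ h0 (pa_count_le hθ M) p

/-- refine a particle family and lift it along `paL` -/
lemma PaR.fam (h : PaR q S r) {k : ℕ} (A : PFam ρ k (Fk n)) :
    ∃ A' : GFam k (Fk n × E),
      (∀ f g, (∀ M (Φ : Hom k (Fk n)), f M ((LinearMap.inl F (Fk n) E).comp Φ) ≤
        g M ((LinearMap.inl F (Fk n) E).comp Φ)) → A'.E f ≤ A'.E g) ∧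
      ∀ ψ : Gam ρ (Fk n) → Hom k (Fk n) → ℝ,
        (A'.E fun M Φ => av fun B => ψ (paL q r (M + push Φ B)) ((LinearMap.fst F (Fk n) E).comp Φ)) =
          A.E fun x Φ => av fun B => ψ (x + gpush Φ B) Φ := by
  have key : ∀ (g : G (Fk n × E) → ℝ) (x : Gam ρ (Fk n)) (Φ : Hom k (Fk n)),
      (av fun B : Gam ρ (Fk k) => cond (paL q r) (fun M => av fun B' =>
        g (M + push ((LinearMap.inl F (Fk n) E).comp Φ) B')) (x + gpush Φ B)) =
      av fun B : Gam ρ (Fk k) => cond (paL q r) g (x + gpush Φ B) := by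
    intro g x Φ
    rw [← av_shift (fun B : Gam ρ (Fk k) => cond (paL q r) g (x + gpush Φ B))
      (fun B' : G (Fk k) => ((B', 0) : Gam ρ (Fk k)))]
    refine av_congr fun B => ?_
    rw [cond_av]
    refine av_congr fun B' => ?_
    rw [cond_shift _ (paL_add q r), paL_push, map_add, add_assoc]
  refine ⟨⟨fun f => A.E fun x Φ => av fun B : Gam ρ (Fk k) =>
    cond (paL q r) (fun M => f M ((LinearMap.inl F (Fk n) E).comp Φ)) (x + gpush Φ B),
    fun f g => ?_, fun a f => ?_, fun f hf => ?_, fun g => ?_⟩, fun f g hfg => ?_, fun ψ => ?_⟩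
  · rw [← A.add]
    exact A.congr' fun x Φ => by simp only [cond_add, av_add]
  · rw [← A.smul]
    exact A.congr' fun x Φ => by simp only [cond_mul_left, av_mul_left]
  · exact A.pos _ fun x Φ => av_nonneg fun B => cond_nonneg _ (fun M => hf _ _) _
  · rw [A.congr' (key g), A.marg, av_cond]
  · exact A.mono fun x Φ => av_mono fun B => cond_mono _ (fun M => hfg M Φ) _
  · refine A.congr' fun x Φ => ?_
    beta_reduce
    rw [← LinearMap.comp_assoc, LinearMap.fst_comp_inl, LinearMap.id_comp,
      key (fun M => ψ (paL q r M) Φ)]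
    exact av_congr fun B => cond_comp _ (paL_add q r) (paL_surj h.nd h.li) (fun x => ψ x Φ) _

end SD
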