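import Pool.Agent.Lib.MP_ecee09_co.SD.Base

/-! Section 4 (PR), abstract part: two commuting systems of signs. -/

namespace SD.Pr

open SD

/-- a family of signs `χ z` with shifts `t h` that separate the indices -/
structure Sys {X A : Type} [AddCommGroup X] (χ : A → X → ℝ) (t : A → X) (σ : A → A → ℝ) :
    Prop where
  sq : ∀ z M, χ z M * χ z M = 1
  shift : ∀ z M h, χ z (M + t h) = χ z M * σ h z
  orth : ∀ z z', av (fun h => σ h z * σ h z') = ind (z = z')

noncomputable def fl {X A : Type} (χ : A → X → ℝ) (a : A → ℝ) (M : X) : ℝ :=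
  sm fun z => a z * χ z M

/-- the field of a matrix of coefficients -/
noncomputable def kk {X A B : Type} (χ1 : A → X → ℝ) (χ2 : B → X → ℝ) (C : A → B → ℝ) (M : X) :
    ℝ := fl χ1 (fun z => fl χ2 (C z) M) M

variable {X A B : Type} [AddCommGroup X] [Finite X] [Finite A] [Finite B] [Nonempty A]
  [Nonempty B]

section one
variable {χ : A → X → ℝ} {t : A → X} {σ : A → A → ℝ}

omit [Finite X] [Nonempty A] in
lemma Sys.avh (S : Sys χ t σ) (a a' : A → ℝ) (M : X) :
    av (fun h => fl χ a (M + t h) * fl χ a' (M + t h)) = sm fun z => a z * a' z := by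
  have e : ∀ h, fl χ a (M + t h) * fl χ a' (M + t h) =
      sm fun z => sm fun z' => (a z * a' z' * (χ z M * χ z' M)) * (σ h z * σ h z') := by
    intro h
    simp only [fl, S.shift]
    rw [sm_mul_sm]
    exact sm_congr fun z => sm_congr fun z' => by ring
  simp only [e]
  rw [av_sm_comm]
  refine sm_congr fun z => ?_
  rw [av_sm_comm]
  simp only [av_mul_left, S.orth]
  rw [sm_congr (g := fun z' => ind (z = z') * (a z * a' z' * (χ z M * χ z' M))) fun z' =>
    mul_comm _ _, sm_ind_eq', S.sq, mul_one]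

lemma avP (t : A → X) (f g : X → ℝ) (hg : ∀ M h, g (M + t h) = g M) :
    av (fun M => f M * g M) = av fun M => (av fun h => f (M + t h)) * g M := by
  rw [← av_shift (fun M => f M * g M) t]
  refine av_congr fun M => ?_
  simp only [hg, av_mul_right]

lemma Sys.inner (S : Sys χ t σ) (a a' : A → ℝ) :
    av (fun M => fl χ a M * fl χ a' M) = sm fun z => a z * a' z := by
  rw [← av_shift (fun M => fl χ a M * fl χ a' M) t]
  simp only [S.avh, av_const]

lemma Sys.inner_sq (S : Sys χ t σ) (a : A → ℝ) :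
    av (fun M => fl χ a M ^ 2) = sm fun z => a z ^ 2 := by
  simpa only [pow_two] using S.inner a a

omit [Finite X] [Finite A] [Nonempty A] in
lemma fl_inv {O : Type} {s : O → X} (h : ∀ z M o, χ z (M + s o) = χ z M) (a : A → ℝ) (M : X)
    (o : O) : fl χ a (M + s o) = fl χ a M := by
  simp only [fl, h]

end one

/-- two systems, each invariant under the shifts of the other -/
structure Bi (χ1 : A → X → ℝ) (t1 : A → X) (σ1 : A → A → ℝ) (χ2 : B → X → ℝ) (t2 : B → X)
    (σ2 : B → B → ℝ) : Prop where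
  s1 : Sys χ1 t1 σ1
  s2 : Sys χ2 t2 σ2
  i1 : ∀ w M h, χ2 w (M + t1 h) = χ2 w M
  i2 : ∀ z M h, χ1 z (M + t2 h) = χ1 z M

variable {χ1 : A → X → ℝ} {t1 : A → X} {σ1 : A → A → ℝ} {χ2 : B → X → ℝ} {t2 : B → X}
  {σ2 : B → B → ℝ}

omit [Finite X] [Finite A] [Finite B] [Nonempty A] [Nonempty B] in
lemma Bi.kk1 (S : Bi χ1 t1 σ1 χ2 t2 σ2) (C : A → B → ℝ) (M : X) (h : A) :
    kk χ1 χ2 C (M + t1 h) = fl χ1 (fun z => fl χ2 (C z) M) (M + t1 h) := by
  simp only [kk, fl_inv S.i1]

omit [Finite X] [Nonempty A] [Nonempty B] in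
lemma Bi.proj (S : Bi χ1 t1 σ1 χ2 t2 σ2) (C : A → B → ℝ) (a : A → ℝ) (M : X) :
    av (fun h => kk χ1 χ2 C (M + t1 h) * fl χ1 a (M + t1 h)) =
      fl χ2 (fun w => sm fun z => C z w * a z) M := by
  simp only [S.kk1]
  rw [S.s1.avh]
  simp only [fl, ← sm_mul_right]
  rw [sm_comm]
  exact sm_congr fun w => sm_congr fun z => by ring

lemma Bi.prod_sq (S : Bi χ1 t1 σ1 χ2 t2 σ2) (a : A → ℝ) (b : B → ℝ) :
    av (fun M => fl χ1 a M ^ 2 * fl χ2 b M ^ 2) = (sm fun z => a z ^ 2) * sm fun w => b w ^ 2 := by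
  rw [avP t1 _ _ fun M h => by rw [fl_inv S.i1]]
  simp only [pow_two, S.s1.avh, av_mul_left, S.s2.inner]

lemma Bi.inner3 (S : Bi χ1 t1 σ1 χ2 t2 σ2) (C : A → B → ℝ) (a : A → ℝ) (b : B → ℝ) :
    av (fun M => kk χ1 χ2 C M * fl χ1 a M * fl χ2 b M) =
      sm fun w => (sm fun z => C z w * a z) * b w := by
  rw [avP t1 (fun M => kk χ1 χ2 C M * fl χ1 a M) _ fun M h => by rw [fl_inv S.i1]]
  simp only [S.proj, S.s2.inner]

lemma Bi.kk_sq (S : Bi χ1 t1 σ1 χ2 t2 σ2) (C : A → B → ℝ) :
    av (fun M => kk χ1 χ2 C M ^ 2) = sm fun z => sm fun w => C z w * C z w := by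
  rw [← av_shift (fun M => kk χ1 χ2 C M ^ 2) t1]
  simp only [pow_two, S.kk1, S.s1.avh]
  rw [av_sm_comm]
  simp only [S.s2.inner]

lemma Bi.box (S : Bi χ1 t1 σ1 χ2 t2 σ2) (C : A → B → ℝ) :
    (av fun M => av fun h1 => av fun h2 => kk χ1 χ2 C M * kk χ1 χ2 C (M + t1 h1) *
      kk χ1 χ2 C (M + t2 h2) * kk χ1 χ2 C (M + t1 h1 + t2 h2)) =
      sm fun z' => sm fun z => (sm fun w => C z w * C z' w) ^ 2 := by
  set K := kk χ1 χ2 C with hK
  set W : X → B → ℝ := fun M h2 => sm fun z => fl χ2 (C z) M * fl χ2 (C z) (M + t2 h2) with hW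
  have hWe : ∀ M h2, (av fun h1 => K (M + t1 h1) * K (M + t1 h1 + t2 h2)) = W M h2 := by
    intro M h2
    have e : ∀ h1, K (M + t1 h1 + t2 h2) =
        fl χ1 (fun z => fl χ2 (C z) (M + t2 h2)) (M + t1 h1) := by
      intro h1
      rw [hK, add_right_comm, S.kk1, add_right_comm, fl_inv S.i2]
    simp only [e]
    simp only [hK, S.kk1]
    exact S.s1.avh _ _ M
  have hWi : ∀ h2 M h1, W (M + t1 h1) h2 = W M h2 := by
    intro h2 M h1
    simp only [hW, add_right_comm M (t1 h1), fl_inv S.i1]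
  calc _ = av fun M => av fun h2 => (K M * K (M + t2 h2)) * W M h2 := by
        refine av_congr fun M => ?_
        rw [av_comm]
        refine av_congr fun h2 => ?_
        rw [← hWe, ← av_mul_left]
        exact av_congr fun h1 => by ring
    _ = av fun h2 => av fun M => W M h2 * W M h2 := by
        rw [av_comm]
        refine av_congr fun h2 => ?_
        rw [avP t1 (fun M => K M * K (M + t2 h2)) (fun M => W M h2) (hWi h2)]
        simp only [hWe]
    _ = av fun M => sm fun z' => sm fun z =>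
          (fl χ2 (C z) M * fl χ2 (C z') M) * sm fun w => C z w * C z' w := by
        rw [av_comm]
        refine av_congr fun M => ?_
        simp only [hW, sm_mul_sm]
        rw [av_sm_comm, sm_comm]
        refine sm_congr fun z => ?_
        rw [av_sm_comm]
        refine sm_congr fun z' => ?_
        rw [← S.s2.avh (C z) (C z') M, ← av_mul_left]
        exact av_congr fun h2 => by ring
    _ = _ := by
        rw [av_sm_comm]
        refine sm_congr fun z' => ?_
        rw [av_sm_comm]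
        refine sm_congr fun z => ?_
        rw [av_mul_right, S.s2.inner, pow_two]

omit [Nonempty A] [Nonempty B] in
lemma exists_unit (C : A → B → ℝ) {θ : ℝ} (hθ : 0 ≤ θ)
    (h : θ * (sm fun z => sm fun w => C z w * C z w) <
      sm fun z' => sm fun z => (sm fun w => C z w * C z' w) ^ 2) :
    ∃ (c1 : A → ℝ) (c2 : B → ℝ), (sm fun z => c1 z ^ 2) = 1 ∧ (sm fun w => c2 w ^ 2) = 1 ∧
      Real.sqrt θ ≤ sm fun w => (sm fun z => C z w * c1 z) * c2 w := by
  have hex : ∃ z0, θ * (sm fun w => C z0 w * C z0 w) <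
      sm fun z => (sm fun w => C z w * C z0 w) ^ 2 := by
    by_contra hn
    push Not at hn
    rw [← sm_mul_left] at h
    exact absurd (sm_mono hn) (not_le.2 h)
  obtain ⟨z0, hz⟩ := hex
  set ρ := sm fun w => C z0 w * C z0 w with hρ
  set v : A → ℝ := fun z => sm fun w => C z w * C z0 w with hv
  set ν := sm fun z => v z ^ 2 with hν
  have hρ0 : 0 ≤ ρ := sm_nonneg fun w => mul_self_nonneg _
  have hν0 : 0 < ν := lt_of_le_of_lt (mul_nonneg hθ hρ0) hz
  have hρp : 0 < ρ := by
    rcases hρ0.lt_or_eq with h1 | h1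
    · exact h1
    · exfalso
      have hz0 : ∀ w, C z0 w = 0 := fun w => by
        have := single_le_sm (f := fun w => C z0 w * C z0 w) (fun w => mul_self_nonneg _) w
        rw [← hρ, ← h1] at this
        exact mul_self_eq_zero.1 (le_antisymm this (mul_self_nonneg _))
      have : ν = 0 := by simp only [hν, hv, hz0, mul_zero, sm_zero]; simp [sm_zero]
      exact hν0.ne' this
  have sρ := Real.sqrt_pos.2 hρp
  have sν := Real.sqrt_pos.2 hν0
  refine ⟨fun z => v z / Real.sqrt ν, fun w => C z0 w / Real.sqrt ρ, ?_, ?_, ?_⟩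
  · simp only [div_pow]
    rw [sm_div, Real.sq_sqrt hν0.le, ← hν, div_self hν0.ne']
  · simp only [div_pow]
    rw [sm_div, Real.sq_sqrt hρ0]
    simp only [pow_two]
    rw [← hρ, div_self hρp.ne']
  · have e : (sm fun w => (sm fun z => C z w * (v z / Real.sqrt ν)) * (C z0 w / Real.sqrt ρ)) =
        ν / (Real.sqrt ν * Real.sqrt ρ) := by
      simp only [← sm_mul_right]
      rw [sm_comm, hν, ← sm_div]
      refine sm_congr fun z => ?_
      rw [← hν, sm_congr (g := fun w => (C z w * C z0 w) * (v z / (Real.sqrt ν * Real.sqrt ρ)))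
        fun w => by field_simp, sm_mul_right]
      change v z * _ = _
      ring
    rw [e, le_div_iff₀ (mul_pos sν sρ)]
    have h1 : Real.sqrt θ * Real.sqrt ρ ≤ Real.sqrt ν := by
      rw [← Real.sqrt_mul hθ]; exact Real.sqrt_le_sqrt hz.le
    calc Real.sqrt θ * (Real.sqrt ν * Real.sqrt ρ) = Real.sqrt ν * (Real.sqrt θ * Real.sqrt ρ) := by
          ring
      _ ≤ Real.sqrt ν * Real.sqrt ν := mul_le_mul_of_nonneg_left h1 sν.le
      _ = ν := Real.mul_self_sqrt hν0.le

lemma trunc_point {l μ T : ℝ} (hl : 0 < l) (hμ : 0 < μ) (hT : 0 < T) (x y k : ℝ) :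
    x * y * (k - if |k| ≤ T then k else 0) ≤
      l / 2 * (y ^ 2 * k ^ 2) + μ / (4 * l) * x ^ 4 + 1 / (4 * l * μ * T ^ 2) * k ^ 2 := by
  split_ifs with h
  · rw [sub_self, mul_zero]; positivity
  · have h1 : T ^ 2 ≤ k ^ 2 := by
      rw [← sq_abs k]; exact pow_le_pow_left₀ hT.le (not_le.1 h).le 2
    have h2 : 1 / (4 * l * μ) ≤ 1 / (4 * l * μ * T ^ 2) * k ^ 2 := by
      rw [div_mul_eq_mul_div, div_le_div_iff₀ (by positivity) (by positivity)]
      have : 0 < 4 * l * μ := by positivity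
      nlinarith
    have h3 : x * (y * k) ≤ l / 2 * (y * k) ^ 2 + x ^ 2 / (2 * l) := by
      have : 0 ≤ (l * (y * k) - x) ^ 2 / (2 * l) := by positivity
      have e : (l * (y * k) - x) ^ 2 / (2 * l) =
          l / 2 * (y * k) ^ 2 + x ^ 2 / (2 * l) - x * (y * k) := by field_simp; ring
      linarith
    have h4 : x ^ 2 / (2 * l) ≤ μ / (4 * l) * x ^ 4 + 1 / (4 * l * μ) := by
      have : 0 ≤ (μ * x ^ 2 - 1) ^ 2 / (4 * l * μ) := by positivity
      have e : (μ * x ^ 2 - 1) ^ 2 / (4 * l * μ) =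
          μ / (4 * l) * x ^ 4 + 1 / (4 * l * μ) - x ^ 2 / (2 * l) := by field_simp; ring
      linarith
    rw [sub_zero, mul_assoc, ← mul_pow]
    linarith

/-- the abstract part of (PR) -/
lemma core (D : ℕ → ℝ) {η : ℝ} (hη : 0 < η) : ∃ T γ : ℝ, 0 < T ∧ 0 < γ ∧
    ∀ (X A B : Type) [AddCommGroup X] [Finite X] [Finite A] [Finite B] [Nonempty A] [Nonempty B]
      (χ1 : A → X → ℝ) (t1 : A → X) (σ1 : A → A → ℝ) (χ2 : B → X → ℝ) (t2 : B → X)
      (σ2 : B → B → ℝ) (C : A → B → ℝ), Bi χ1 t1 σ1 χ2 t2 σ2 → Tame D (kk χ1 χ2 C) →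
      η ≤ (av fun M => av fun h1 => av fun h2 => kk χ1 χ2 C M * kk χ1 χ2 C (M + t1 h1) *
        kk χ1 χ2 C (M + t2 h2) * kk χ1 χ2 C (M + t1 h1 + t2 h2)) →
      ∃ f : X → ℝ, (∀ M, |f M| ≤ T) ∧
        γ ≤ sm fun w => (sm fun z => C z w * av fun M => kk χ1 χ2 C M * f M * χ1 z M) ^ 2 := by
  set d2 := |D 2| + 1 with hd2
  set d4 := |D 4| + 1 with hd4
  have hd2p : 0 < d2 := by positivity
  have hd4p : 0 < d4 := by positivity
  set θ := η / (2 * d2) with hθ
  have hθp : 0 < θ := by positivity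
  set g := Real.sqrt θ with hg
  have hgp : 0 < g := Real.sqrt_pos.2 hθp
  set μ := g ^ 2 / (4 * d4) with hμ
  have hμp : 0 < μ := by positivity
  set T := Real.sqrt (4 / (μ * g ^ 2)) with hT
  have hTp : 0 < T := Real.sqrt_pos.2 (by positivity)
  have hT2 : T ^ 2 = 4 / (μ * g ^ 2) := Real.sq_sqrt (by positivity)
  refine ⟨T, (g ^ 2 / 4) ^ 2, hTp, by positivity, ?_⟩
  intro X A B _ _ _ _ _ _ χ1 t1 σ1 χ2 t2 σ2 C S hD hbox
  rw [S.box] at hbox
  have hsig : (sm fun z => sm fun w => C z w * C z w) ≤ d2 := by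
    rw [← S.kk_sq]
    exact hD.sq.trans ((le_abs_self _).trans (by linarith))
  have hlt : θ * (sm fun z => sm fun w => C z w * C z w) <
      sm fun z' => sm fun z => (sm fun w => C z w * C z' w) ^ 2 := by
    refine lt_of_lt_of_le (lt_of_le_of_lt (mul_le_mul_of_nonneg_left hsig hθp.le) ?_) hbox
    have : θ * d2 = η / 2 := by rw [hθ]; field_simp
    linarith
  obtain ⟨c1, c2, h1, h2, h12⟩ := exists_unit C hθp.le hlt
  set K := kk χ1 χ2 C with hK
  set f : X → ℝ := fun M => if |fl χ2 c2 M| ≤ T then fl χ2 c2 M else 0 with hf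
  have hfi : ∀ M h, f (M + t1 h) = f M := fun M h => by simp only [hf, fl_inv S.i1]
  have hf2 : av (fun M => f M ^ 2) ≤ 1 := by
    rw [← h2, ← S.s2.inner_sq]
    refine av_mono fun M => ?_
    simp only [hf]
    split_ifs
    · exact le_rfl
    · rw [zero_pow two_ne_zero]; positivity
  set a : A → ℝ := fun z => av fun M => K M * f M * χ1 z M with ha
  have hfa : ∀ c : A → ℝ, av (fun M => K M * fl χ1 c M * f M) = sm fun z => c z * a z := by
    intro c
    simp only [fl, ← sm_mul_left, ← sm_mul_right]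
    rw [av_sm_comm]
    refine sm_congr fun z => ?_
    rw [ha, ← av_mul_left]
    exact av_congr fun M => by ring
  have hK4 : av (fun M => K M ^ 4) ≤ d4 := by
    have := hD 4
    simp only [show ∀ x : ℝ, |x| ^ 4 = x ^ 4 from fun x => Even.pow_abs (by decide) x] at this
    exact this.trans ((le_abs_self _).trans (by linarith))
  have herr : av (fun M => K M * fl χ1 c1 M * (fl χ2 c2 M - f M)) ≤ g / 2 := by
    refine (av_mono fun M => trunc_point (l := g / 2) (by positivity) hμp hTp (K M) (fl χ1 c1 M)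
      (fl χ2 c2 M)).trans ?_
    rw [av_add, av_add, av_mul_left, av_mul_left, av_mul_left, S.prod_sq, S.s2.inner_sq, h1, h2]
    have e1 : μ / (4 * (g / 2)) * d4 = g / 8 := by rw [hμ]; field_simp; ring
    have e2 : 1 / (4 * (g / 2) * μ * T ^ 2) = g / 8 := by rw [hT2]; field_simp; ring
    have e3 := mul_le_mul_of_nonneg_left hK4 (show 0 ≤ μ / (4 * (g / 2)) by positivity)
    rw [e2]; linarith
  have hca : g / 2 ≤ sm fun z => c1 z * a z := by
    rw [← hfa]
    have e : av (fun M => K M * fl χ1 c1 M * f M) = av (fun M => K M * fl χ1 c1 M * fl χ2 c2 M) -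
        av (fun M => K M * fl χ1 c1 M * (fl χ2 c2 M - f M)) := by
      rw [← av_sub]; exact av_congr fun M => by ring
    rw [e, hK, S.inner3]
    linarith
  have ha2 : g ^ 2 / 4 ≤ sm fun z => a z ^ 2 := by
    have := sm_cs c1 a
    rw [h1, one_mul] at this
    refine le_trans ?_ this
    have := pow_le_pow_left₀ (by positivity) hca 2
    linarith
  refine ⟨f, fun M => ?_, ?_⟩
  · simp only [hf]
    split_ifs with h
    · exact h
    · rw [abs_zero]; exact hTp.le
  · set b : B → ℝ := fun w => sm fun z => C z w * a z with hb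
    have e : av (fun M => fl χ2 b M * f M) = sm fun z => a z ^ 2 := by
      have := avP t1 (fun M => K M * fl χ1 a M) f hfi
      simp only [hK, S.proj] at this
      rw [← this, ← hK, hfa]
      simp only [pow_two]
    have hcs := av_cs (fl χ2 b) f
    rw [e, S.s2.inner_sq] at hcs
    have hb0 : 0 ≤ sm fun w => b w ^ 2 := sm_nonneg fun w => sq_nonneg _
    calc (g ^ 2 / 4) ^ 2 ≤ (sm fun z => a z ^ 2) ^ 2 := pow_le_pow_left₀ (by positivity) ha2 2
      _ ≤ _ := hcs
      _ ≤ sm fun w => b w ^ 2 := mul_le_of_le_one_right hb0 hf2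

end SD.Pr
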