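import Pool.Agent.Lib.MP_ecee09_co.SD.Fld

/-! Particles: `mv`, `dg`, `resid`, `NN`, `subP`. -/

namespace SD

open Module

variable {ρ : ℕ} {U V W : Type} [AddCommGroup U] [Module F U] [AddCommGroup V] [Module F V]
  [AddCommGroup W] [Module F W]

lemma eq_of_dual {x x' : V} (h : ∀ y : Dual F V, y x = y x') : x = x' :=
  sub_eq_zero.1 ((Module.forall_dual_apply_eq_zero_iff F _).1 fun y => by rw [map_sub, h, sub_self])

lemma linMulLin_comm' (y v : Dual F V) :
    QuadraticMap.linMulLin y v = QuadraticMap.linMulLin v y := by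
  ext x; simp [QuadraticMap.linMulLin_apply, mul_comm]

lemma not_red_of_comp {p : Pt ρ W} {Φ : V →ₗ[F] W} {Ψ : U →ₗ[F] V} (h : ¬ Red p (Φ.comp Ψ)) :
    ¬ Red p Φ := by
  simp only [Red, not_not] at h ⊢
  exact LinearIndependent.of_comp Ψ.dualMap h

lemma red_of_zero (hρ : 1 ≤ ρ) {p : Pt ρ V} {Φ : U →ₗ[F] V} (h : ∀ i, (p.1 i).comp Φ = 0) :
    Red p Φ := fun hl => hl.ne_zero ⟨0, hρ⟩ (h _)

lemma DP_eq [Finite V] : DP V ρ = Nat.card (Fin ρ → V) := by
  rw [DP, Nat.card_fun, Nat.card_eq_fintype_card (α := Fin ρ), Fintype.card_fin]; push_cast; rfl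

lemma DP_eq_dual [Finite V] : DP V ρ = Nat.card (Fin ρ → Dual F V) := by
  rw [DP, Nat.card_fun, Nat.card_eq_fintype_card (α := Fin ρ), Fintype.card_fin, card_dual]
  push_cast; rfl

lemma DP_pos [Finite V] (j : ℕ) : 0 < DP V j := pow_pos card_pos' j

lemma DP_add (i j : ℕ) : DP V (i + j) = DP V i * DP V j := pow_add _ _ _

variable [Finite U] [Finite V] [Finite W]

@[simp] lemma mv_apply (M : G V) (v y : Dual F V) : y (mv M v) = M (QuadraticMap.linMulLin y v) :=
  apply_evalEquiv_symm_apply F V y _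

@[simp] lemma dg_apply (M : G V) (y : Dual F V) : y (dg M) = M (QuadraticMap.linMulLin y y) :=
  apply_evalEquiv_symm_apply F V y _

lemma mv_symm (M : G V) (v y : Dual F V) : y (mv M v) = v (mv M y) := by
  rw [mv_apply, mv_apply, linMulLin_comm']

lemma mv_self (M : G V) (v : Dual F V) : v (mv M v) = v (dg M) := by rw [mv_apply, dg_apply]

lemma mv_add_left (M M' : G V) (v : Dual F V) : mv (M + M') v = mv M v + mv M' v :=
  eq_of_dual fun y => by simp

lemma mv_add_right (M : G V) (v v' : Dual F V) : mv M (v + v') = mv M v + mv M v' :=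
  eq_of_dual fun y => by simp [QuadraticMap.linMulLin_add]

lemma dg_add (M M' : G V) : dg (M + M') = dg M + dg M' := eq_of_dual fun y => by simp

/-- `v -> M v` as a linear map -/
noncomputable def mvL (M : G V) : Dual F V →ₗ[F] V := linOf (mv M) (mv_add_right M)

@[simp] lemma mvL_apply (M : G V) (v : Dual F V) : mvL M v = mv M v := rfl

@[simp] lemma mv_zero_right (M : G V) : mv M 0 = 0 := (mvL M).map_zero

@[simp] lemma mv_zero_left (v : Dual F V) : mv 0 v = 0 := eq_of_dual fun y => by simp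

@[simp] lemma dg_zero : dg (0 : G V) = 0 := eq_of_dual fun y => by simp

lemma mv_sum {ι : Type} (s : Finset ι) (M : G V) (l : ι → F) (v : ι → Dual F V) :
    mv M (∑ i ∈ s, l i • v i) = ∑ i ∈ s, l i • mv M (v i) := by
  simp only [← mvL_apply, map_sum, map_smul]

lemma mv_push (Φ : U →ₗ[F] V) (B : G U) (v : Dual F V) :
    mv (push Φ B) v = Φ (mv B (v.comp Φ)) :=
  eq_of_dual fun y => by
    rw [mv_apply, push_apply, QuadraticMap.linMulLin_comp, ← mv_apply]; rfl

lemma dg_push (Φ : U →ₗ[F] V) (B : G U) : dg (push Φ B) = Φ (dg B) :=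
  eq_of_dual fun y => by
    rw [dg_apply, push_apply, QuadraticMap.linMulLin_comp, ← dg_apply]; rfl

lemma mv_ev (x : V) (v : Dual F V) : mv (ev x) v = v x • x :=
  eq_of_dual fun y => by simp [QuadraticMap.linMulLin_apply, mul_comm]

lemma dg_ev (x : V) : dg (ev x) = x :=
  eq_of_dual fun y => by simp [QuadraticMap.linMulLin_apply, F_mul_self]

lemma TM_add (M : G V) (h h' : Pt ρ V) : TM M (h + h') = TM M h + TM M h' := by
  funext i; simp only [TM, Prod.fst_add, Prod.snd_add, Pi.add_apply, mv_add_right]; abel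

/-- `T_M` as a linear map -/
noncomputable def TML (M : G V) : Pt ρ V →ₗ[F] (Fin ρ → V) := linOf (TM M) (TM_add M)

@[simp] lemma TML_apply (M : G V) (h : Pt ρ V) : TML M h = TM M h := rfl

lemma TM_push (M : G V) (Φ : U →ₗ[F] V) (B : G U) (h : Pt ρ V) (i : Fin ρ) :
    TM (M + push Φ B) h i = TM M h i + Φ (mv B ((h.1 i).comp Φ)) := by
  simp only [TM, mv_add_left, mv_push]; abel

lemma resid_eq (ε : Fk ρ) (p : Pt ρ V) (x : Gam ρ V) (i : Fin ρ) :
    resid ε p x i = TM x.1 p i + (x.2 i + ε i • dg x.1) := by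
  simp only [resid, TM]; abel

lemma resid_add_resid (ε : Fk ρ) (p p' : Pt ρ V) (x : Gam ρ V) :
    resid ε p x + resid ε p' x = TM x.1 (p + p') := by
  funext i
  rw [Pi.add_apply, resid_eq, resid_eq, TM_add, Pi.add_apply, add_add_add_comm, add_self2, add_zero]

lemma resid_gpush (ε : Fk ρ) (p : Pt ρ V) (x : Gam ρ V) (Φ : U →ₗ[F] V) (B : Gam ρ U) (i : Fin ρ) :
    resid ε p (x + gpush Φ B) i =
      resid ε p x i + Φ (mv B.1 ((p.1 i).comp Φ) + B.2 i + ε i • dg B.1) := by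
  simp only [resid, Prod.fst_add, Prod.snd_add, Pi.add_apply, gpush_fst, gpush_snd, mv_add_left,
    dg_add, mv_push, dg_push, map_add, map_smul, smul_add]
  abel

/-- the residual is uniform -/
lemma av_resid (ε : Fk ρ) (p : Pt ρ V) (f : (Fin ρ → V) → ℝ) :
    av (fun x => f (resid ε p x)) = av f := by
  rw [av_prod, ← av_const (α := G V) (av f)]
  refine av_congr fun M => ?_
  rw [← av_add_right f fun i => TM M p i + ε i • dg M]
  refine av_congr fun β => congrArg f (funext fun i => ?_)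
  rw [resid_eq, Pi.add_apply]; abel

lemma av_present (ε : Fk ρ) (p : Pt ρ V) : av (fun x => ind (resid ε p x = 0)) = 1 / DP V ρ := by
  rw [av_resid ε p fun w => ind (w = 0), DP_eq]
  simpa using av_ind_eq (0 : Fin ρ → V) fun _ => 1

lemma av_NN (ε : Fk ρ) (P : Set (Pt ρ V)) : av (NN ε P) = cnt P / DP V ρ := by
  have : av (NN ε P) = av fun x => sm fun p => ind (p ∈ P ∧ resid ε p x = 0) := rfl
  rw [this, av_sm_comm, cnt, ← sm_div]
  refine sm_congr fun p => ?_
  simp only [ind_and]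
  rw [av_mul_left, av_present, mul_one_div]

lemma NN_nonneg (ε : Fk ρ) (P : Set (Pt ρ V)) (x : Gam ρ V) : 0 ≤ NN ε P x :=
  sm_nonneg fun _ => ind_nonneg _

lemma NN_mono (ε : Fk ρ) {P P' : Set (Pt ρ V)} (h : P ⊆ P') (x : Gam ρ V) : NN ε P x ≤ NN ε P' x :=
  sm_mono fun _ => ind_mono fun hp => ⟨h hp.1, hp.2⟩

lemma bad_nonneg (ε : Fk ρ) (P : Set (Pt ρ V)) (x : Gam ρ V) (Φ : U →ₗ[F] V) : 0 ≤ bad ε P x Φ :=
  av_ind_nonneg _

lemma bad_le_one (ε : Fk ρ) (P : Set (Pt ρ V)) (x : Gam ρ V) (Φ : U →ₗ[F] V) : bad ε P x Φ ≤ 1 :=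
  av_ind_le_one _

/-- at a given point there is one present particle with a given label -/
lemma present_unique {ε : Fk ρ} {p p' : Pt ρ V} {x : Gam ρ V} (h : resid ε p x = 0)
    (h' : resid ε p' x = 0) (e : p.1 = p'.1) : p = p' := by
  refine Prod.ext e (funext fun i => ?_)
  have h1 := congrFun (h.trans h'.symm) i
  simp only [resid, e] at h1
  exact add_left_cancel h1

lemma NN_subP_le (ε : Fk ρ) (P : Set (Pt ρ V)) (x : Gam ρ V) (Φ : U →ₗ[F] V) (B : Gam ρ U) :
    NN ε (subP ε P x Φ) B ≤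
      sm fun p => ind (p ∈ P ∧ resid ε p (x + gpush Φ B) = 0 ∧ ¬ Red p Φ) := by
  refine sm_ind_le_of_inj _ _ (fun p' p => ∀ i, p'.1 i = (p.1 i).comp Φ) ?_ ?_
  · rintro p' ⟨⟨p, hp, h1, h2, h3⟩, h4⟩
    refine ⟨p, ⟨hp, funext fun i => ?_, h3⟩, h1⟩
    have h5 := congrFun h4 i
    rw [resid_gpush, h2, ← map_add, ← h1, add_comm]
    exact (congrArg Φ h5).trans Φ.map_zero
  · intro p1 p2 p h1 h2 e1 e2
    exact present_unique h1.2 h2.2 (funext fun i => (e1 i).trans (e2 i).symm)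

lemma NN_subP_le' (ε : Fk ρ) (P : Set (Pt ρ V)) (x : Gam ρ V) (Φ : U →ₗ[F] V) (B : Gam ρ U) :
    NN ε (subP ε P x Φ) B ≤ NN ε P (x + gpush Φ B) :=
  (NN_subP_le ε P x Φ B).trans (sm_mono fun _ => ind_mono fun h => ⟨h.1, h.2.1⟩)

lemma av_NN_subP_le (ε : Fk ρ) (P : Set (Pt ρ V)) (x : Gam ρ V) (Φ : U →ₗ[F] V) :
    av (NN ε (subP ε P x Φ)) ≤ unred ε P x Φ := av_mono (NN_subP_le ε P x Φ)

/-- bad for the composite is at most bad for the sub-object -/
lemma bad_comp_le (ε : Fk ρ) (P : Set (Pt ρ W)) (x : Gam ρ W) (Φ : V →ₗ[F] W) (B : Gam ρ V)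
    (Ψ : U →ₗ[F] V) :
    bad ε P (x + gpush Φ B) (Φ.comp Ψ) ≤ bad ε (subP ε P x Φ) B Ψ := by
  refine av_mono fun B' => ind_mono ?_
  rintro ⟨p, hp, h1, h2⟩
  rw [gpush_comp, add_assoc, ← map_add] at h1
  set B2 := B + gpush Ψ B' with hB2
  refine ⟨(fun i => (p.1 i).comp Φ, fun i => mv B2.1 ((p.1 i).comp Φ) + B2.2 i + ε i • dg B2.1),
    ⟨p, hp, fun _ => rfl, fun i => ?_, not_red_of_comp h2⟩, funext fun i => add_self2 _, h2⟩
  have := congrFun h1 i
  rw [resid_gpush] at this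
  exact add_eq_zero2.1 this

end SD
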