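import Pool.Agent.Lib.MP_ecee09_co.SD.Pu0
import Pool.Agent.Lib.MP_ecee09_co.SD.Pu1

/-! Section 7, (P2): dependent tuples. -/

namespace SD

open Module

variable {ρ m : ℕ} {U V : Type} [AddCommGroup U] [Module F U] [Finite U] [AddCommGroup V]
  [Module F V] [Finite V]

/-- the equations that the relations in `DD` force on a matching tuple -/
def puEq (DD : Submodule F (Fin m → Fk ρ)) (p : Fin m → Pt ρ V) (w : Fin m → Fin ρ → V) : Prop :=
  ∀ l ∈ DD, ∑ r, comb (l r) (p r) = (0, ∑ r, ∑ i, l r i • w r i)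

namespace P2

/-- the values of a particle on the `r`-th components of the relations -/
def ff (DD : Submodule F (Fin m → Fk ρ)) (r : Fin m) (a : Pt ρ V) : DD → Dual F V × V :=
  fun l => comb (l.1 r) a

/-- the right side of the forced equations -/
def zz (DD : Submodule F (Fin m → Fk ρ)) (w : Fin m → Fin ρ → V) : DD → Dual F V × V :=
  fun l => (0, ∑ r, ∑ i, l.1 r i • w r i)

omit [Finite V] in
lemma eq_iff (DD : Submodule F (Fin m → Fk ρ)) (p : Fin m → Pt ρ V) (w : Fin m → Fin ρ → V) :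
    puEq DD p w ↔ ∑ r, ff DD r (p r) = zz DD w := by
  rw [funext_iff]
  simp only [Finset.sum_apply, ff, zz, Subtype.forall]
  rfl

omit [Finite V] in
lemma ff_add (DD : Submodule F (Fin m → Fk ρ)) (r : Fin m) (a b : Pt ρ V) :
    ff DD r (a + b) = ff DD r a + ff DD r b := funext fun _ => comb_add' _ _ _

lemma sum_upd {ι X Y : Type} [Fintype ι] [DecidableEq ι] [AddCommGroup Y] (f : ι → X → Y)
    (p : ι → X) (r : ι) (a : X) :
    ∑ j, f j (Function.update p r a j) = f r a + (∑ j, f j (p j) - f r (p r)) := by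
  rw [← Finset.add_sum_erase _ _ (Finset.mem_univ r),
    ← Finset.add_sum_erase _ (fun j => f j (p j)) (Finset.mem_univ r), Function.update_self,
    add_sub_cancel_left]
  congr 1
  exact Finset.sum_congr rfl fun j hj => by
    rw [Function.update_of_ne (Finset.ne_of_mem_erase hj)]

/-- the `r`-th components of the relations -/
def cp (DD : Submodule F (Fin m → Fk ρ)) (r : Fin m) : Submodule F (Fk ρ) :=
  DD.map (LinearMap.proj r)

lemma rk_cp {DD : Submodule F (Fin m → Fk ρ)} (hmin : ∀ l ∈ DD, ∀ r, l r = 0 → l = 0)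
    (r : Fin m) : finrank F (cp DD r) = finrank F DD := by
  have hi : Function.Injective ((LinearMap.proj r : (Fin m → Fk ρ) →ₗ[F] Fk ρ).comp DD.subtype) := by
    rw [← LinearMap.ker_eq_bot, LinearMap.ker_eq_bot']
    intro l hl
    exact Subtype.ext (hmin l.1 l.2 r hl)
  rw [← LinearMap.finrank_range_of_inj hi, LinearMap.range_comp, Submodule.range_subtype]
  rfl

omit [Finite V] in
lemma ff_eq_iff (DD : Submodule F (Fin m → Fk ρ)) (r : Fin m) (a b : Pt ρ V) :
    ff DD r a = ff DD r b ↔ ∀ l ∈ cp DD r, comb l a = comb l b := by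
  constructor
  · rintro h _ ⟨l, hl, rfl⟩
    exact congrFun h ⟨l, hl⟩
  · intro h
    exact funext fun l => h _ ⟨l.1, l.2, rfl⟩

omit [Finite V] in
lemma ext_comb {a b : Pt ρ V} (h : ∀ l, comb l a = comb l b) : a = b := by
  refine Prod.ext (funext fun i => ?_) (funext fun i => ?_)
  · have := h (Pi.single i 1)
    rw [comb_single, comb_single] at this
    exact congrArg Prod.fst this
  · have := h (Pi.single i 1)
    rw [comb_single, comb_single] at this
    exact congrArg Prod.snd this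

lemma cp_top {DD : Submodule F (Fin m → Fk ρ)} (hmin : ∀ l ∈ DD, ∀ r, l r = 0 → l = 0)
    (hd : finrank F DD = ρ) (r : Fin m) : cp DD r = ⊤ :=
  Submodule.eq_top_of_finrank_eq (by rw [rk_cp hmin, hd, finrank_Fk])

omit [Finite V] in
lemma ff_inj {DD : Submodule F (Fin m → Fk ρ)} (hmin : ∀ l ∈ DD, ∀ r, l r = 0 → l = 0)
    (hd : finrank F DD = ρ) (r : Fin m) : Function.Injective (ff (V := V) DD r) := by
  intro a b h
  rw [ff_eq_iff, cp_top hmin hd] at h
  exact ext_comb fun l => h l trivial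

lemma col_le {P : Set (Pt ρ V)} {η : ℝ} {K : Submodule F (Fk ρ)} (h : coll P K ≤ η) :
    (sm fun a => sm fun b => ind (a ∈ P ∧ b ∈ P ∧ ∀ l ∈ K, comb l a = comb l b)) ≤
      η * DP V (2 * ρ) / DP V (finrank F K) := by
  have h1 := DP_pos (V := V) (2 * ρ)
  have h2 := DP_pos (V := V) (finrank F K)
  rw [coll, div_mul_eq_mul_div, div_le_iff₀ h1] at h
  rw [le_div_iff₀ h2]
  linarith

lemma cnt_pow {P : Set (Pt ρ V)} {lam η : ℝ} (h : PuH P lam η) (j : ℕ) :
    cnt P ^ j ≤ lam ^ j * DP V (ρ * j) := by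
  rw [DP_mul, ← mul_pow]
  exact pow_le_pow_left₀ (cnt_nonneg _) h.lam j

lemma av_uniq {α : Type} [Finite α] (q : α → Prop) (h : ∀ x y, q x → q y → x = y) :
    av (fun x => ind (q x)) ≤ 1 / Nat.card α := by
  by_cases h0 : ∃ x, q x
  · obtain ⟨x0, hx0⟩ := h0
    refine (av_mono (g := fun x => ind (x = x0)) fun x => ind_mono fun hx => h _ _ hx hx0).trans ?_
    rw [av_def, sm_ind_one]
  · have : (fun x => ind (q x)) = fun _ => (0 : ℝ) := funext fun x => ind_neg fun hx => h0 ⟨x, hx⟩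
    rw [this, av_zero]
    positivity

/-- the chance that a random probe takes given values on a tuple -/
lemma av_probe (τ : Fin ρ → U) (u : Fin ρ → V) :
    (av fun Φ : U →ₗ[F] V => ind (∀ i, Φ (τ i) = u i)) ≤
      DP V (finrank F (LinearMap.ker (lin τ))) / DP V ρ := by
  set W := LinearMap.range (lin τ) with hW
  have hτ : ∀ i, τ i ∈ W := fun i => ⟨Pi.single i 1, by simp [lin]⟩
  have e1 : (av fun Φ : U →ₗ[F] V => ind (∀ i, Φ (τ i) = u i)) =
      av fun ψ : W →ₗ[F] V => ind (∀ i, ψ ⟨τ i, hτ i⟩ = u i) :=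
    av_surj (fun Φ : U →ₗ[F] V => Φ.comp W.subtype) (fun a b => LinearMap.add_comp _ _ _)
      (fun ψ => LinearMap.exists_extend ψ) (fun ψ => ind (∀ i, ψ ⟨τ i, hτ i⟩ = u i))
  rw [e1]
  refine (av_uniq _ fun ψ ψ' h h' => ?_).trans (le_of_eq ?_)
  · refine LinearMap.ext ?_
    rintro ⟨_, l, rfl⟩
    have : (⟨lin τ l, l, rfl⟩ : W) = ∑ i, l i • (⟨τ i, hτ i⟩ : W) := by
      apply Subtype.ext
      simp [lin, Fintype.linearCombination_apply]
    rw [this, map_sum, map_sum]
    exact Finset.sum_congr rfl fun i _ => by rw [map_smul, map_smul, h, h']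
  · have hr := LinearMap.finrank_range_add_finrank_ker (lin τ)
    rw [finrank_Fk] at hr
    have hc : (Nat.card (W →ₗ[F] V) : ℝ) = DP V (finrank F W) := by
      rw [DP, card_eq_pow, card_eq_pow (X := V), Module.finrank_linearMap]
      push_cast
      rw [← pow_mul, mul_comm]
    have h1 := DP_pos (V := V) (finrank F W)
    have h2 := DP_pos (V := V) (finrank F (LinearMap.ker (lin τ)))
    have h3 : DP V ρ = DP V (finrank F W) * DP V (finrank F (LinearMap.ker (lin τ))) := by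
      rw [← DP_add, hr]
    rw [hc, h3]
    field_simp

end P2

/-- case `dim DD < rho` -/
lemma pu2_low {P : Set (Pt ρ V)} {lam η : ℝ} (h : PuH P lam η)
    (DD : Submodule F (Fin m → Fk ρ)) (h0 : DD ≠ ⊥) (hm : 2 ≤ m)
    (hmin : ∀ l ∈ DD, ∀ r, l r = 0 → l = 0) (hd : finrank F DD < ρ) (w : Fin m → Fin ρ → V) :
    DP V (finrank F DD) / DP V (ρ * m) *
      (sm fun p : Fin m → Pt ρ V => ind (∀ r, p r ∈ P) * ind (puEq DD p w)) ≤ η * lam ^ m := by
  set r : Fin m := ⟨0, by omega⟩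
  set s : Fin m := ⟨1, by omega⟩
  have hrs : r ≠ s := fun e => absurd (congrArg Fin.val e) (by simp [r, s])
  have hc : ∀ j, (sm fun a => sm fun b => ind (a ∈ P ∧ b ∈ P ∧ P2.ff DD j a = P2.ff DD j b)) ≤
      η * DP V (2 * ρ) / DP V (finrank F DD) := fun j => by
    simp only [P2.ff_eq_iff]
    rw [← P2.rk_cp hmin j]
    refine P2.col_le (h.coll _ (fun e => h0 ?_) fun e => ?_)
    · rw [← Submodule.finrank_eq_zero, ← P2.rk_cp hmin j, e, finrank_bot]
    · have := P2.rk_cp hmin j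
      rw [e, finrank_top, finrank_Fk] at this
      omega
  have key := pu_peel2 P (fun p : Fin m → Pt ρ V => ind (puEq DD p w)) r s hrs
    (η * DP V (2 * ρ) / DP V (finrank F DD)) fun p => by
      rw [abs_of_nonneg (sm_nonneg fun _ => sm_nonneg fun _ =>
        mul_nonneg (mul_nonneg (ind_nonneg _) (ind_nonneg _)) (ind_nonneg _))]
      have e : ∀ a b, puEq DD (Function.update (Function.update p r a) s b) w ↔
          P2.ff DD r a + P2.ff DD s b = P2.zz DD w -
            (∑ j, P2.ff DD j (p j) - P2.ff DD r (p r) - P2.ff DD s (p s)) := fun a b => by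
        rw [P2.eq_iff, P2.sum_upd, P2.sum_upd, Function.update_of_ne hrs.symm, eq_sub_iff_add_eq]
        exact Eq.congr_left (by abel)
      simp only [e]
      refine (pu_c2 P _ _ _).trans ?_
      linarith [hc r, hc s]
  have h1 := DP_pos (V := V) (2 * ρ)
  have h2 := DP_pos (V := V) (finrank F DD)
  have h3 := DP_pos (V := V) (ρ * (m - 2))
  have h4 : DP V (ρ * m) = DP V (2 * ρ) * DP V (ρ * (m - 2)) := by
    rw [← DP_add]
    congr 1
    obtain ⟨n, rfl⟩ := Nat.exists_eq_add_of_le hm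
    rw [Nat.add_sub_cancel_left]
    ring
  rw [Fintype.card_fin] at key
  have h5 := (le_abs_self _).trans (key.trans (mul_le_mul_of_nonneg_left (P2.cnt_pow h (m - 2))
    (div_nonneg (mul_nonneg h.pos.le h1.le) h2.le)))
  refine (mul_le_mul_of_nonneg_left h5 (div_nonneg h2.le (DP_pos _).le)).trans ?_
  rw [h4]
  have h6 : DP V (finrank F DD) / (DP V (2 * ρ) * DP V (ρ * (m - 2))) *
      (η * DP V (2 * ρ) / DP V (finrank F DD) * (lam ^ (m - 2) * DP V (ρ * (m - 2)))) =
      η * lam ^ (m - 2) := by field_simp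
  rw [h6]
  exact mul_le_mul_of_nonneg_left (pow_le_pow_right₀ h.one (Nat.sub_le _ _)) h.pos.le

/-- case `dim DD = rho`, at least three particles -/
lemma pu2_three {P : Set (Pt ρ V)} {lam η : ℝ} (h : PuH P lam η)
    (DD : Submodule F (Fin m → Fk ρ)) (hm : 3 ≤ m)
    (hmin : ∀ l ∈ DD, ∀ r, l r = 0 → l = 0) (hd : finrank F DD = ρ) (w : Fin m → Fin ρ → V) :
    DP V (finrank F DD) / DP V (ρ * m) *
      (sm fun p : Fin m → Pt ρ V => ind (∀ r, p r ∈ P) * ind (puEq DD p w)) ≤
        Real.sqrt η * lam ^ m := by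
  set r : Fin m := ⟨0, by omega⟩
  set s : Fin m := ⟨1, by omega⟩
  set u : Fin m := ⟨2, by omega⟩
  have hrs : r ≠ s := fun e => absurd (congrArg Fin.val e) (by simp [r, s])
  have hru : r ≠ u := fun e => absurd (congrArg Fin.val e) (by simp [r, u])
  have hsu : s ≠ u := fun e => absurd (congrArg Fin.val e) (by simp [s, u])
  have h1 := DP_pos (V := V) ρ
  have h2 := DP_pos (V := V) (2 * ρ)
  have h3 := DP_pos (V := V) (ρ * (m - 3))
  have hl : 0 ≤ lam := zero_le_one.trans h.one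
  have hs := Real.sqrt_nonneg η
  have key := pu_peel3 P (fun p : Fin m → Pt ρ V => ind (puEq DD p w)) r s u hrs hru hsu
    (Real.sqrt η * lam * DP V (2 * ρ)) fun p => by
      have e : ∀ a b c, puEq DD
          (Function.update (Function.update (Function.update p r a) s b) u c) w ↔
          P2.ff DD r a + P2.ff DD s b + P2.ff DD u c = P2.zz DD w -
            (∑ j, P2.ff DD j (p j) - P2.ff DD r (p r) - P2.ff DD s (p s) - P2.ff DD u (p u)) :=
        fun a b c => by
        rw [P2.eq_iff, P2.sum_upd, P2.sum_upd, P2.sum_upd, Function.update_of_ne hrs.symm,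
          Function.update_of_ne hsu.symm, Function.update_of_ne hru.symm, eq_sub_iff_add_eq]
        exact Eq.congr_left (by abel)
      simp only [e]
      refine abs_le_of_sq_le_sq' ?_ (by positivity) |> abs_le.2
      refine (pu_c3 P _ _ _ (P2.ff_inj hmin hd r) (P2.ff_inj hmin hd s) (P2.ff_inj hmin hd u)
        (P2.ff_add DD s) (P2.ff_add DD u) _).trans ?_
      have he : 0 ≤ energy P := sm_nonneg fun _ => sm_nonneg fun _ => sm_nonneg fun _ =>
        ind_nonneg _
      refine (mul_le_mul h.lam h.en he (by positivity)).trans ?_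
      have e2 : DP V (2 * ρ) ^ 2 = DP V ρ * DP V (3 * ρ) := by
        rw [← DP_mul, ← DP_add]
        congr 1
        ring
      rw [mul_pow, mul_pow, Real.sq_sqrt h.pos.le, e2]
      have h7 : lam ≤ lam ^ 2 := by nlinarith [h.one]
      have h8 : 0 ≤ η * (DP V ρ * DP V (3 * ρ)) :=
        mul_nonneg h.pos.le (mul_nonneg h1.le (DP_pos _).le)
      nlinarith [mul_le_mul_of_nonneg_right h7 h8]
  have h4 : DP V (ρ * m) = DP V ρ * (DP V (2 * ρ) * DP V (ρ * (m - 3))) := by
    rw [← DP_add, ← DP_add]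
    congr 1
    obtain ⟨n, rfl⟩ := Nat.exists_eq_add_of_le hm
    rw [Nat.add_sub_cancel_left]
    ring
  rw [Fintype.card_fin] at key
  have h5 := (le_abs_self _).trans (key.trans (mul_le_mul_of_nonneg_left (P2.cnt_pow h (m - 3))
    (by positivity)))
  refine (mul_le_mul_of_nonneg_left h5 (div_nonneg (DP_pos _).le (DP_pos _).le)).trans ?_
  rw [h4, hd]
  have h6 : DP V ρ / (DP V ρ * (DP V (2 * ρ) * DP V (ρ * (m - 3)))) *
      (Real.sqrt η * lam * DP V (2 * ρ) * (lam ^ (m - 3) * DP V (ρ * (m - 3)))) =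
      Real.sqrt η * lam ^ (m - 3 + 1) := by
    rw [pow_succ]
    field_simp
  rw [h6]
  exact mul_le_mul_of_nonneg_left (pow_le_pow_right₀ h.one (by omega)) hs

/-- case `dim DD = rho`, two distinct particles: average over the probe -/
lemma pu2_two {P : Set (Pt ρ V)} {lam η : ℝ} (h : PuH P lam η) (hρ : 1 ≤ ρ)
    (DD : Submodule F (Fin 2 → Fk ρ)) (hs : ∀ l ∈ DD, ∑ r, l r = 0)
    (hmin : ∀ l ∈ DD, ∀ r, l r = 0 → l = 0) (hd : finrank F DD = ρ) (t : Fin 2 → Fin ρ → U) :
    (av fun Φ : U →ₗ[F] V => DP V (finrank F DD) / DP V (ρ * 2) *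
      sm fun p : Fin 2 → Pt ρ V =>
        ind (∀ r, p r ∈ P) * ind (Function.Injective p ∧ puEq DD p (puW Φ t))) ≤ η := by
  set τ : Fin ρ → U := fun i => t 0 i + t 1 i with hτ
  set K := LinearMap.ker (lin τ) with hK
  have h1 := DP_pos (V := V) ρ
  have h2 := DP_pos (V := V) (finrank F K)
  have hrel : ∀ (p : Fin 2 → Pt ρ V) (Φ : U →ₗ[F] V), puEq DD p (puW Φ t) →
      (p 0).1 = (p 1).1 ∧ ∀ i, Φ (τ i) = (p 0).2 i + (p 1).2 i := by
    intro p Φ hp
    have e : ∀ i, (p 0).1 i = (p 1).1 i ∧ Φ (τ i) = (p 0).2 i + (p 1).2 i := fun i => by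
      have hm : (Pi.single i 1 : Fk ρ) ∈ P2.cp DD 0 := by rw [P2.cp_top hmin hd]; trivial
      obtain ⟨l, hl, hl0⟩ := hm
      have hl0' : l 0 = Pi.single i 1 := hl0
      have hl1 : l 1 = Pi.single i 1 := by
        have := hs l hl
        rw [Fin.sum_univ_two, add_eq_zero2] at this
        rw [← this, hl0']
      have := hp l hl
      rw [Fin.sum_univ_two, Fin.sum_univ_two, hl0', hl1, comb_single, comb_single] at this
      refine ⟨add_eq_zero2.1 (congrArg Prod.fst this), ?_⟩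
      have h2 := congrArg Prod.snd this
      simp only [Prod.snd_add, Pi.single_apply, ite_smul, one_smul, zero_smul,
        Finset.sum_ite_eq', Finset.mem_univ, if_true, puW] at h2
      rw [h2, hτ, map_add]
    exact ⟨funext fun i => (e i).1, fun i => (e i).2⟩
  let q : Pt ρ V → Pt ρ V → Prop := fun a b =>
    a ∈ P ∧ b ∈ P ∧ a ≠ b ∧ a.1 = b.1 ∧ ∀ l ∈ K, comb l a = comb l b
  have hstep : ∀ Φ : U →ₗ[F] V, (sm fun p : Fin 2 → Pt ρ V =>
      ind (∀ r, p r ∈ P) * ind (Function.Injective p ∧ puEq DD p (puW Φ t))) ≤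
      sm fun a => sm fun b => ind (q a b) * ind (∀ i, Φ (τ i) = a.2 i + b.2 i) := by
    intro Φ
    rw [← sm_prod (fun c : Pt ρ V × Pt ρ V =>
      ind (q c.1 c.2) * ind (∀ i, Φ (τ i) = c.1.2 i + c.2.2 i)),
      ← sm_equiv (finTwoArrowEquiv (Pt ρ V))]
    refine sm_mono fun p => ?_
    rw [← ind_and, ← ind_and]
    refine ind_mono ?_
    rintro ⟨hP, hi, he⟩
    obtain ⟨e1, e2⟩ := hrel p Φ he
    refine ⟨⟨hP 0, hP 1, fun e => absurd (hi e) (by decide), e1, fun l hl => ?_⟩, e2⟩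
    change comb l (p 0) = comb l (p 1)
    refine Prod.ext (by simp only [comb, e1]) ?_
    have hl0 : ∑ i, l i • τ i = 0 := by
      have : lin τ l = 0 := hl
      rwa [lin, Fintype.linearCombination_apply] at this
    have := congrArg Φ hl0
    rw [map_sum, map_zero] at this
    simp only [map_smul, e2, smul_add, Finset.sum_add_distrib] at this
    exact add_eq_zero2.1 this
  have hav : (av fun Φ : U →ₗ[F] V =>
      sm fun a => sm fun b => ind (q a b) * ind (∀ i, Φ (τ i) = a.2 i + b.2 i)) ≤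
      (sm fun a => sm fun b => ind (q a b)) * (DP V (finrank F K) / DP V ρ) := by
    rw [av_sm_comm, ← sm_mul_right]
    refine sm_mono fun a => ?_
    rw [av_sm_comm, ← sm_mul_right]
    refine sm_mono fun b => ?_
    rw [av_mul_left]
    exact mul_le_mul_of_nonneg_left (P2.av_probe τ _) (ind_nonneg _)
  have hq : (sm fun a => sm fun b => ind (q a b)) ≤ η * DP V (2 * ρ) / DP V (finrank F K) := by
    by_cases hb : K = ⊥
    · have hl : (Pi.single (⟨0, hρ⟩ : Fin ρ) 1 : Fk ρ) ≠ 0 := fun e => by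
        simpa using congrFun e ⟨0, hρ⟩
      have := h.att _ hl
      rw [puAt, div_le_iff₀ (DP_pos _)] at this
      rw [hb, finrank_bot, show DP V 0 = 1 from pow_zero _, div_one]
      refine le_trans (sm_mono fun a => sm_mono fun b => ind_mono fun hq => ?_) this
      exact ⟨hq.1, hq.2.1, by simp only [comb, hq.2.2.2.1]⟩
    by_cases ht : K = ⊤
    · have : (sm fun a => sm fun b => ind (q a b)) = 0 := by
        rw [← sm_zero (α := Pt ρ V)]
        refine sm_congr fun a => ?_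
        rw [← sm_zero (α := Pt ρ V)]
        refine sm_congr fun b => ind_neg fun hq => hq.2.2.1 (P2.ext_comb fun l => ?_)
        exact hq.2.2.2.2 l (by rw [ht]; trivial)
      rw [this]
      exact div_nonneg (mul_nonneg h.pos.le (DP_pos _).le) h2.le
    · refine le_trans (sm_mono fun a => sm_mono fun b => ind_mono fun hq => ?_)
        (P2.col_le (h.coll K hb ht))
      exact ⟨hq.1, hq.2.1, hq.2.2.2.2⟩
  rw [av_mul_left]
  have h5 := ((av_mono hstep).trans hav).trans
    (mul_le_mul_of_nonneg_right hq (div_nonneg h2.le h1.le))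
  refine (mul_le_mul_of_nonneg_left h5 (div_nonneg (DP_pos _).le (DP_pos _).le)).trans
    (le_of_eq ?_)
  have h3 := DP_pos (V := V) (2 * ρ)
  rw [hd, mul_comm ρ 2]
  field_simp

/-- (P2) for minimal dependent tuples -/
lemma pu2_min {P : Set (Pt ρ V)} {lam η : ℝ} (h : PuH P lam η) (ε : Fk ρ)
    (t : Fin m → Fin ρ → U) :
    (av fun Φ : U →ₗ[F] V => av fun x : Gam ρ V => ind (∃ p : Fin m → Pt ρ V,
      (∀ r, p r ∈ P) ∧ Function.Injective p ∧ puDD p ≠ ⊥ ∧
        (∀ l ∈ puDD p, ∀ r, l r = 0 → l = 0) ∧ puM ε p (puW Φ t) x)) ≤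
      (Nat.card (Submodule F (Fin m → Fk ρ)) : ℝ) * 2 ^ ((m * ρ) ^ 2) *
        (Real.sqrt η * lam ^ m) := by
  have hfin : Finite (Submodule F (Fin m → Fk ρ)) :=
    Finite.of_injective _ (SetLike.coe_injective (A := Submodule F (Fin m → Fk ρ)))
  let g : Submodule F (Fin m → Fk ρ) → Prop := fun DD =>
    DD ≠ ⊥ ∧ (∀ l ∈ DD, ∀ r, l r = 0 → l = 0) ∧ ∀ l ∈ DD, ∑ r, l r = 0
  let T : Submodule F (Fin m → Fk ρ) → (U →ₗ[F] V) → ℝ := fun DD Φ =>
    DP V (finrank F DD) / DP V (ρ * m) * sm fun p : Fin m → Pt ρ V =>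
      ind (∀ r, p r ∈ P) * ind (Function.Injective p ∧ puEq DD p (puW Φ t))
  have hs := Real.sqrt_nonneg η
  have hl : (1 : ℝ) ≤ lam ^ m := one_le_pow₀ h.one
  have hη : η ≤ Real.sqrt η := by
    rw [Real.le_sqrt h.pos.le h.pos.le]
    nlinarith [h.pos, h.le1]
  have hT : ∀ DD, g DD → av (T DD) ≤ Real.sqrt η * lam ^ m := by
    rintro DD ⟨h0, hmin, hsum⟩
    have hm : 2 ≤ m := by
      by_contra hm
      refine h0 ((Submodule.eq_bot_iff _).2 fun l hl => ?_)
      obtain rfl | rfl : m = 0 ∨ m = 1 := by omega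
      · exact Subsingleton.elim _ _
      · exact hmin l hl 0 (by simpa using hsum l hl)
    have hw : ∀ Φ : U →ₗ[F] V, T DD Φ ≤ DP V (finrank F DD) / DP V (ρ * m) *
        sm fun p : Fin m → Pt ρ V => ind (∀ r, p r ∈ P) * ind (puEq DD p (puW Φ t)) := fun Φ =>
      mul_le_mul_of_nonneg_left (sm_mono fun p => mul_le_mul_of_nonneg_left
        (ind_mono fun hp => hp.2) (ind_nonneg _)) (div_nonneg (DP_pos _).le (DP_pos _).le)
    have hle : finrank F DD ≤ ρ := by
      rw [← P2.rk_cp hmin ⟨0, by omega⟩]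
      exact (Submodule.finrank_le _).trans (finrank_Fk ρ).le
    rcases hle.lt_or_eq with hd | hd
    · refine av_le_const fun Φ => (hw Φ).trans ((pu2_low h DD h0 hm hmin hd _).trans ?_)
      exact mul_le_mul_of_nonneg_right hη (zero_le_one.trans hl)
    rcases hm.lt_or_eq with hm3 | hm2
    · exact av_le_const fun Φ => (hw Φ).trans (pu2_three h DD hm3 hmin hd _)
    · subst hm2
      have hρ : 1 ≤ ρ := by
        rw [← hd, Nat.one_le_iff_ne_zero]
        exact fun e => h0 (Submodule.finrank_eq_zero.1 e)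
      refine (pu2_two h hρ DD hsum hmin hd t).trans (hη.trans ?_)
      exact le_mul_of_one_le_right hs hl
  have hΦ : ∀ Φ : U →ₗ[F] V, (av fun x : Gam ρ V => ind (∃ p : Fin m → Pt ρ V,
      (∀ r, p r ∈ P) ∧ Function.Injective p ∧ puDD p ≠ ⊥ ∧
        (∀ l ∈ puDD p, ∀ r, l r = 0 → l = 0) ∧ puM ε p (puW Φ t) x)) ≤
      sm fun DD => 2 ^ ((m * ρ) ^ 2) * (ind (g DD) * T DD Φ) := by
    intro Φ
    refine (av_mono fun x => ind_exists_le _).trans ?_
    rw [av_sm_comm, sm_fiber (fun p : Fin m → Pt ρ V => puDD p)]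
    refine sm_mono fun DD => ?_
    simp only [T]
    rw [← sm_mul_left, ← sm_mul_left, ← sm_mul_left]
    refine sm_mono fun p => ?_
    have hn : 0 ≤ 2 ^ ((m * ρ) ^ 2) * (ind (g DD) * (DP V (finrank F DD) / DP V (ρ * m) *
        (ind (∀ r, p r ∈ P) * ind (Function.Injective p ∧ puEq DD p (puW Φ t))))) :=
      mul_nonneg (by positivity) (mul_nonneg (ind_nonneg _) (mul_nonneg
        (div_nonneg (DP_pos _).le (DP_pos _).le) (mul_nonneg (ind_nonneg _) (ind_nonneg _))))
    by_cases hp : puDD p = DD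
    swap
    · rwa [ind_neg hp, zero_mul]
    subst hp
    rw [ind_pos rfl, one_mul]
    by_cases hx : ∃ x : Gam ρ V, (∀ r, p r ∈ P) ∧ Function.Injective p ∧ puDD p ≠ ⊥ ∧
        (∀ l ∈ puDD p, ∀ r, l r = 0 → l = 0) ∧ puM ε p (puW Φ t) x
    swap
    · refine le_trans (le_of_eq ?_) hn
      rw [← av_zero (α := Gam ρ V)]
      exact av_congr fun x => ind_neg fun hh => hx ⟨x, hh⟩
    obtain ⟨x, a1, a2, a3, a4, a5⟩ := hx
    have he : puEq (puDD p) p (puW Φ t) := fun l hl =>
      Prod.ext (by rw [Prod.fst_sum]; exact (mem_puDD.1 hl).2)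
        (by rw [Prod.snd_sum]; exact pu1_forced a5 hl)
    rw [ind_pos (p := g (puDD p)) ⟨a3, a4, fun l hl => (mem_puDD.1 hl).1⟩, ind_pos a1,
      ind_pos (p := Function.Injective p ∧ puEq (puDD p) p (puW Φ t)) ⟨a2, he⟩, mul_one, mul_one,
      one_mul, ← mul_div_assoc]
    exact (av_mono fun x => ind_mono fun hh => hh.2.2.2.2).trans (pu1_le ε p _)
  refine (av_mono hΦ).trans ?_
  rw [av_sm_comm, mul_assoc, ← sm_const]
  refine sm_mono fun DD => ?_
  rw [av_mul_left, av_mul_left]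
  refine mul_le_mul_of_nonneg_left ?_ (by positivity)
  by_cases hg : g DD
  · rw [ind_pos hg, one_mul]
    exact hT DD hg
  · rw [ind_neg hg, zero_mul]
    positivity

theorem pu2 : PU2 := by
  intro ρ m lam
  induction m with
  | zero =>
    intro δ hδ
    refine ⟨1, one_pos, fun η _ U V _ _ _ _ _ _ ε P _ t => ?_⟩
    refine av_le_const fun Φ => av_le_const fun x => ?_
    rw [ind_neg]
    · exact hδ.le
    · rintro ⟨p, -, -, h, -⟩
      exact h ((Submodule.eq_bot_iff _).2 fun l _ => Subsingleton.elim _ _)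
  | succ m ih =>
    intro δ hδ
    obtain ⟨η1, hη1, h1⟩ := ih (δ / (2 * (m + 1))) (by positivity)
    set K : ℝ := (Nat.card (Submodule F (Fin (m + 1) → Fk ρ)) : ℝ) * 2 ^ (((m + 1) * ρ) ^ 2) *
      |lam| ^ (m + 1) + 1 with hK
    have hK0 : 0 < K := by positivity
    refine ⟨min η1 ((δ / (2 * K)) ^ 2), lt_min hη1 (by positivity),
      fun η hη U V _ _ _ _ _ _ ε P hP t => ?_⟩
    have key : ∀ (Φ : U →ₗ[F] V) (x : Gam ρ V), ind (∃ p : Fin (m + 1) → Pt ρ V,
        (∀ r, p r ∈ P) ∧ Function.Injective p ∧ puDD p ≠ ⊥ ∧ puM ε p (puW Φ t) x) ≤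
        ind (∃ p : Fin (m + 1) → Pt ρ V, (∀ r, p r ∈ P) ∧ Function.Injective p ∧ puDD p ≠ ⊥ ∧
          (∀ l ∈ puDD p, ∀ r, l r = 0 → l = 0) ∧ puM ε p (puW Φ t) x) +
        ∑ r : Fin (m + 1), ind (∃ p : Fin m → Pt ρ V, (∀ j, p j ∈ P) ∧ Function.Injective p ∧
          puDD p ≠ ⊥ ∧ puM ε p (puW Φ fun j => t (r.succAbove j)) x) := by
      intro Φ x
      have n1 : 0 ≤ ∑ r : Fin (m + 1), ind (∃ p : Fin m → Pt ρ V, (∀ j, p j ∈ P) ∧
          Function.Injective p ∧ puDD p ≠ ⊥ ∧ puM ε p (puW Φ fun j => t (r.succAbove j)) x) :=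
        Finset.sum_nonneg fun _ _ => ind_nonneg _
      by_cases he : ∃ p : Fin (m + 1) → Pt ρ V,
        (∀ r, p r ∈ P) ∧ Function.Injective p ∧ puDD p ≠ ⊥ ∧ puM ε p (puW Φ t) x
      swap
      · rw [ind_neg he]
        exact add_nonneg (ind_nonneg _) n1
      rw [ind_pos he]
      obtain ⟨p, a1, a2, a3, a4⟩ := he
      by_cases hmin : ∀ l ∈ puDD p, ∀ r, l r = 0 → l = 0
      · rw [ind_pos ⟨p, a1, a2, a3, hmin, a4⟩]
        linarith
      push Not at hmin
      obtain ⟨l, hl, r, hr, hl0⟩ := hmin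
      refine le_add_of_nonneg_of_le (ind_nonneg _) (le_trans (ind_pos ?_).ge
        (Finset.single_le_sum (f := fun r : Fin (m + 1) => ind (∃ p : Fin m → Pt ρ V,
          (∀ j, p j ∈ P) ∧ Function.Injective p ∧ puDD p ≠ ⊥ ∧
            puM ε p (puW Φ fun j => t (r.succAbove j)) x)) (fun _ _ => ind_nonneg _)
          (Finset.mem_univ r)))
      refine ⟨fun j => p (r.succAbove j), fun j => a1 _, a2.comp Fin.succAbove_right_injective,
        fun e => hl0 ?_, fun j => a4 _⟩
      have hm : (fun j => l (r.succAbove j)) ∈ puDD fun j => p (r.succAbove j) := by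
        obtain ⟨b1, b2⟩ := mem_puDD.1 hl
        rw [Fin.sum_univ_succAbove _ r, hr] at b1 b2
        rw [comb_zero] at b2
        exact mem_puDD.2 ⟨by simpa using b1, by simpa using b2⟩
      rw [e, Submodule.mem_bot] at hm
      funext j
      rcases Fin.eq_self_or_eq_succAbove r j with rfl | ⟨j', rfl⟩
      · exact hr
      · exact congrFun hm j'
    refine (av_mono fun Φ => av_mono fun x => key Φ x).trans ?_
    simp only [av_add, av_sum]
    have e1 := pu2_min hP ε t
    have e2 : ∑ r : Fin (m + 1), (av fun Φ : U →ₗ[F] V => av fun x : Gam ρ V =>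
        ind (∃ p : Fin m → Pt ρ V, (∀ j, p j ∈ P) ∧ Function.Injective p ∧
          puDD p ≠ ⊥ ∧ puM ε p (puW Φ fun j => t (r.succAbove j)) x)) ≤ δ / 2 := by
      refine (Finset.sum_le_sum fun r _ =>
        h1 η (hη.trans (min_le_left _ _)) U V ε P hP fun j => t (r.succAbove j)).trans
        (le_of_eq ?_)
      rw [Finset.sum_const, Finset.card_univ, Fintype.card_fin, nsmul_eq_mul]
      push_cast
      field_simp
    have e3 : Real.sqrt η ≤ δ / (2 * K) :=
      Real.sqrt_le_iff.2 ⟨by positivity, hη.trans (min_le_right _ _)⟩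
    have e4 : (Nat.card (Submodule F (Fin (m + 1) → Fk ρ)) : ℝ) * 2 ^ (((m + 1) * ρ) ^ 2) *
        (Real.sqrt η * lam ^ (m + 1)) ≤ δ / 2 := by
      have hs := Real.sqrt_nonneg η
      have : (Nat.card (Submodule F (Fin (m + 1) → Fk ρ)) : ℝ) * 2 ^ (((m + 1) * ρ) ^ 2) *
          (Real.sqrt η * lam ^ (m + 1)) = (K - 1) * Real.sqrt η := by
        rw [hK, abs_of_nonneg (zero_le_one.trans hP.one)]
        ring
      rw [this]
      have e5 : K * Real.sqrt η ≤ δ / 2 := by
        refine (mul_le_mul_of_nonneg_left e3 hK0.le).trans (le_of_eq ?_)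
        field_simp
      linarith
    linarith

end SD
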