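import Pool.Agent.Lib.MP_ecee09_co.SD.Pu0

/-! Section 7, (P5): sums over tuples of candidates. -/

namespace SD

open Module

namespace P5

variable {ρ m : ℕ} {U V : Type} [AddCommGroup U] [Module F U] [Finite U] [AddCommGroup V]
  [Module F V] [Finite V]

/-- the weighted count of matching injective tuples with labels `t` -/
noncomputable def inn (ε : Fk ρ) (P : Set (Pt ρ V)) (t : Fin m → Fin ρ → U)
    (a : Fin m → (Fin ρ → Dual F U) → ℝ) (Φ : U →ₗ[F] V) (x : Gam ρ V) : ℝ :=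
  sm fun p : Fin m → Pt ρ V =>
    ind ((∀ r, p r ∈ P) ∧ Function.Injective p ∧ puM ε p (puW Φ t) x) * ∏ r, a r (puV (p r) Φ)

/-- the same, summed over the labels in `LL` -/
noncomputable def XX (m : ℕ) (ε : Fk ρ) (P : Set (Pt ρ V)) (LL : Set (Fin ρ → U))
    (b : (Fin ρ → U) → (Fin ρ → Dual F U) → ℝ) (Φ : U →ₗ[F] V) (x : Gam ρ V) : ℝ :=
  sm fun t : Fin m → Fin ρ → U => ind (∀ r, t r ∈ LL) * inn ε P t (fun r => b (t r)) Φ x

lemma tuples (m : ℕ) (ε : Fk ρ) (P : Set (Pt ρ V)) (LL : Set (Fin ρ → U))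
    (b : (Fin ρ → U) → (Fin ρ → Dual F U) → ℝ) {Φ : U →ₗ[F] V} (hΦ : Function.Injective Φ)
    (x : Gam ρ V) :
    (sm fun z : Fin m → Pt ρ V × (Fin ρ → U) =>
      ind ((∀ r, z r ∈ puC ε P LL x Φ) ∧ Function.Injective z) *
        ∏ r, b (z r).2 (puV (z r).1 Φ)) = XX m ε P LL b Φ x := by
  rw [← sm_equiv (Equiv.arrowProdEquivProdArrow (Fin m) (fun _ => Pt ρ V)
    (fun _ => Fin ρ → U)).symm, sm_prod, sm_comm, XX]
  refine sm_congr fun t => ?_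
  rw [inn, ← sm_mul_left]
  refine sm_congr fun p => ?_
  rw [← mul_assoc, ← ind_and]
  refine congrArg₂ _ (ind_congr ?_) rfl
  simp only [mem_puC]
  constructor
  · rintro ⟨h1, h2⟩
    refine ⟨fun r => (h1 r).2.1, fun r => (h1 r).1, fun r s e => h2 (Prod.ext e ?_),
      fun r => funext (h1 r).2.2⟩
    funext i
    apply hΦ
    have a := (h1 r).2.2 i
    have c := (h1 s).2.2 i
    change resid ε (p r) x i = Φ (t r i) at a
    change resid ε (p s) x i = Φ (t s i) at c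
    change Φ (t r i) = Φ (t s i)
    rw [← a, ← c, e]
  · rintro ⟨h1, h2, h3, h4⟩
    exact ⟨fun r => ⟨h2 r, h1 r, congrFun (h4 r)⟩, fun r s e => h3 (congrArg Prod.fst e)⟩

lemma card_lab {Γ : ℝ} (h : (Nat.card (Fin ρ → U) : ℝ) ≤ Γ) (m : ℕ) :
    (Nat.card (Fin m → Fin ρ → U) : ℝ) ≤ Γ ^ m := by
  rw [Nat.card_fun, Nat.card_eq_fintype_card (α := Fin m), Fintype.card_fin]
  push_cast
  exact pow_le_pow_left₀ (Nat.cast_nonneg _) h m

lemma sm_le {α : Type} [Finite α] {f : α → ℝ} {B C : ℝ} (h : ∀ x, f x ≤ B) (hB : 0 ≤ B)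
    (hC : (Nat.card α : ℝ) ≤ C) : sm f ≤ C * B :=
  (sm_mono h).trans ((sm_const B).le.trans (mul_le_mul_of_nonneg_right hC hB))

lemma abs_inn_le (ε : Fk ρ) (P : Set (Pt ρ V)) (t : Fin m → Fin ρ → U)
    (a : Fin m → (Fin ρ → Dual F U) → ℝ) (ha : ∀ r w, |a r w| ≤ 1) (Φ : U →ₗ[F] V)
    (x : Gam ρ V) : |inn ε P t a Φ x| ≤ ∏ r, NN ε P (x + (0, puW Φ t r)) := by
  refine (abs_sm_le _).trans ?_
  simp only [NN]
  rw [prod_sm]
  refine sm_mono fun p => ?_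
  rw [← ind_forall, abs_mul, abs_ind, Finset.abs_prod]
  refine (mul_le_of_le_one_right (ind_nonneg _)
    (Finset.prod_le_one (fun _ _ => abs_nonneg _) fun r _ => ha r _)).trans (ind_mono ?_)
  rintro ⟨h1, -, h3⟩ r
  refine ⟨h1 r, funext fun i => ?_⟩
  have e : resid ε (p r) (x + (0, puW Φ t r)) i = resid ε (p r) x i + puW Φ t r i := by
    simp only [resid, Prod.fst_add, Prod.snd_add, add_zero, Pi.add_apply]
    abel
  rw [e, h3 r]
  exact add_self2 _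

lemma av_abs_inn {D : ℕ → ℝ} {ε : Fk ρ} {P : Set (Pt ρ V)} (hT : Tame D (NN ε P))
    (t : Fin m → Fin ρ → U) (a : Fin m → (Fin ρ → Dual F U) → ℝ) (ha : ∀ r w, |a r w| ≤ 1)
    (Φ : U →ₗ[F] V) : (av fun x => |inn ε P t a Φ x|) ≤ 1 + m * D m := by
  refine (av_mono fun x => (abs_inn_le ε P t a ha Φ x).trans
    ((le_abs_self _).trans (abs_prod_le _))).trans ?_
  rw [av_add, av_const, av_sum, Fintype.card_fin]
  refine add_le_add le_rfl ((Finset.sum_le_sum (g := fun _ => D m) fun r _ => ?_).trans ?_)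
  · rw [av_add_right fun x => |NN ε P x| ^ m]
    exact hT m
  · simp

lemma av_abs_XX {D : ℕ → ℝ} {ε : Fk ρ} {P : Set (Pt ρ V)} (hT : Tame D (NN ε P)) {Γ : ℝ}
    (h : (Nat.card (Fin ρ → U) : ℝ) ≤ Γ) (m : ℕ) (LL : Set (Fin ρ → U))
    (b : (Fin ρ → U) → (Fin ρ → Dual F U) → ℝ) (hb : ∀ t w, |b t w| ≤ 1) (Φ : U →ₗ[F] V) :
    (av fun x => |XX m ε P LL b Φ x|) ≤ Γ ^ m * (1 + m * D m) := by
  refine (av_mono fun x => abs_sm_le _).trans ?_
  rw [av_sm_comm]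
  refine sm_le (fun t => ?_) (add_nonneg zero_le_one (mul_nonneg (Nat.cast_nonneg _)
    (hT.nonneg m))) (card_lab h m)
  refine le_trans (av_mono fun x => ?_) (av_abs_inn hT t (fun r => b (t r)) (fun r => hb _) Φ)
  rw [abs_mul, abs_ind]
  exact mul_le_of_le_one_left (abs_nonneg _) (ind_le_one _)

/-- a bound for each label tuple gives a bound for the sum -/
lemma abs_av_XX {ε : Fk ρ} {P : Set (Pt ρ V)} {Γ B : ℝ} (h : (Nat.card (Fin ρ → U) : ℝ) ≤ Γ)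
    (hB : 0 ≤ B) (m : ℕ) (LL : Set (Fin ρ → U)) (b : (Fin ρ → U) → (Fin ρ → Dual F U) → ℝ)
    (hb : ∀ t : Fin m → Fin ρ → U,
      |av fun Φ : U →ₗ[F] V => av fun x => inn ε P t (fun r => b (t r)) Φ x| ≤ B) :
    |av fun Φ : U →ₗ[F] V => av fun x => XX m ε P LL b Φ x| ≤ Γ ^ m * B := by
  simp only [XX, av_sm_comm, av_mul_left]
  refine (abs_sm_le _).trans (sm_le (fun t => ?_) hB (card_lab h m))
  rw [abs_mul, abs_ind]
  exact (mul_le_of_le_one_left (abs_nonneg _) (ind_le_one _)).trans (hb t)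

omit [Finite U] in
lemma abs_nu_le {P : Set (Pt ρ V)} {lam η : ℝ} (h : PuH P lam η) (a : (Fin ρ → Dual F U) → ℝ)
    (ha : ∀ w, |a w| ≤ 1) (Φ : U →ₗ[F] V) : |puNu P a Φ| ≤ lam := by
  have h1 := DP_pos (V := V) ρ
  rw [puNu, abs_div, abs_of_pos h1, div_le_iff₀ h1]
  refine (abs_sm_le _).trans (le_trans (sm_mono fun p => ?_) h.lam)
  rw [abs_mul, abs_ind]
  exact mul_le_of_le_one_right (ind_nonneg _) (ha _)

omit [Finite U] in
lemma abs_prod_nu {P : Set (Pt ρ V)} {lam η : ℝ} (h : PuH P lam η)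
    (a : Fin m → (Fin ρ → Dual F U) → ℝ) (ha : ∀ r w, |a r w| ≤ 1) (Φ : U →ₗ[F] V) :
    |∏ r, puNu P (a r) Φ| ≤ lam ^ m := by
  rw [Finset.abs_prod]
  refine (Finset.prod_le_prod (fun _ _ => abs_nonneg _)
    fun r _ => abs_nu_le h (a r) (ha r) Φ).trans ?_
  simp

lemma abs_puF {Γ : ℝ} (h : (Nat.card (Fin ρ → U) : ℝ) ≤ Γ) (c : (Fin ρ → U) → ℝ)
    (hc : ∀ s, |c s| ≤ 1) (w : Fin ρ → Dual F U) : |puF c w| ≤ Γ := by
  refine (abs_sm_le _).trans ((sm_le (B := 1) (fun s => ?_) zero_le_one h).trans (mul_one _).le)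
  rw [abs_mul, abs_sg, mul_one]
  exact hc s

/-- the main term of a factorial moment with mean zero weights is small -/
lemma main_small {P : Set (Pt ρ V)} {lam η Γ : ℝ} (h : PuH P lam η) (hΓ : 0 < Γ)
    (hc : (Nat.card (Fin ρ → U) : ℝ) ≤ Γ) (c : Fin (m + 1) → (Fin ρ → U) → ℝ)
    (h1 : ∀ r s, |c r s| ≤ 1) (h0 : ∀ r, c r 0 = 0) :
    |av fun Φ : U →ₗ[F] V => ∏ r, puNu P (fun w => puF (c r) w / Γ) Φ| ≤
      Real.sqrt η * lam ^ m := by
  have ha : ∀ r w, |puF (c r) w / Γ| ≤ 1 := fun r w => by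
    rw [abs_div, abs_of_pos hΓ, div_le_one hΓ]
    exact abs_puF hc _ (h1 r) w
  have hl : 0 ≤ lam ^ m := pow_nonneg (zero_le_one.trans h.one) m
  refine (abs_av_le _).trans ((av_mono (g := fun Φ : U →ₗ[F] V =>
    |puNu P (fun w => puF (c 0) w / Γ) Φ| * lam ^ m) fun Φ => ?_).trans ?_)
  · rw [Fin.prod_univ_succ, abs_mul]
    exact mul_le_mul_of_nonneg_left (abs_prod_nu h (fun r w => puF (c r.succ) w / Γ)
      (fun r => ha _) Φ) (abs_nonneg _)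
  rw [av_mul_right]
  refine mul_le_mul_of_nonneg_right (Real.le_sqrt_of_sq_le ((av_sq_le _).trans ?_)) hl
  have e : ∀ Φ : U →ₗ[F] V, |puNu P (fun w => puF (c 0) w / Γ) Φ| ^ 2 =
      puNu P (puF (c 0)) Φ ^ 2 / Γ ^ 2 := fun Φ => by
    rw [sq_abs, ← div_pow]
    congr 1
    simp only [puNu, ← mul_div_assoc, sm_div]
    ring
  simp only [e]
  rw [av_div, div_le_iff₀ (by positivity)]
  refine (pu_nu h (c 0) (h1 0) (h0 0)).trans ?_
  rw [mul_comm]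
  exact mul_le_mul_of_nonneg_left (pow_le_pow_left₀ (Nat.cast_nonneg _) hc 2) h.pos.le

lemma fin_min (g : ℕ → ℝ) (hg : ∀ m, 0 < g m) (n : ℕ) : ∃ e, 0 < e ∧ ∀ m ≤ n, e ≤ g m := by
  obtain ⟨m0, -, h⟩ := Finset.exists_min_image (Finset.range (n + 1)) g ⟨0, by simp⟩
  exact ⟨g m0, hg m0, fun m hm => h m (Finset.mem_range.2 (by omega))⟩

lemma junk_le (hρ : 1 ≤ ρ) {Γ θ : ℝ} (hc : (Nat.card (Fin ρ → U) : ℝ) ≤ Γ) (hθ : 0 < θ) {n : ℕ}
    (hn : Γ / θ ≤ n) (hV : n ≤ finrank F V) :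
    (av fun Φ : U →ₗ[F] V => ind (¬ Function.Injective Φ)) ≤ θ := by
  refine pu_inj.trans ?_
  have h1 : (Nat.card U : ℝ) ≤ Γ := by
    refine le_trans ?_ hc
    have : Nonempty (Fin ρ) := ⟨⟨0, hρ⟩⟩
    exact_mod_cast Nat.card_le_card_of_injective (fun (u : U) (_ : Fin ρ) => u)
      fun a b e => congrFun e ⟨0, hρ⟩
  have h2 : (n : ℝ) ≤ Nat.card V := by
    rw [card_eq_pow]
    exact_mod_cast hV.trans Nat.lt_two_pow_self.le
  rw [div_le_iff₀ card_pos']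
  rw [div_le_iff₀ hθ] at hn
  nlinarith

end P5

end SD
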