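import Pool.Agent.Lib.MP_ecee09_co.SD.Part
import Pool.Agent.Lib.MP_ecee09_co.SD.Stmts

/-! Definitions for section 7 (the pure case). -/

namespace SD

open Module

section defs
variable {ρ m : ℕ} {U V : Type} [AddCommGroup U] [Module F U] [AddCommGroup V] [Module F V]

lemma comb_add (l l' : Fk ρ) (p : Pt ρ V) : comb (l + l') p = comb l p + comb l' p := by
  simp [comb, add_smul, Finset.sum_add_distrib]

lemma comb_zero (p : Pt ρ V) : comb (0 : Fk ρ) p = 0 := by simp [comb]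

lemma comb_smul (a : F) (l : Fk ρ) (p : Pt ρ V) : comb (a • l) p = a • comb l p := by
  simp [comb, Finset.smul_sum, mul_smul]

lemma comb_add' (l : Fk ρ) (p p' : Pt ρ V) : comb l (p + p') = comb l p + comb l p' := by
  simp [comb, Finset.sum_add_distrib]

lemma comb_zero' (l : Fk ρ) : comb l (0 : Pt ρ V) = 0 := by simp [comb]

lemma comb_single (i : Fin ρ) (p : Pt ρ V) : comb (Pi.single i 1) p = (p.1 i, p.2 i) := by
  simp [comb, Pi.single_apply, ite_smul]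

/-- the relations among the labels of a tuple of particles -/
def puDD (p : Fin m → Pt ρ V) : Submodule F (Fin m → Fk ρ) where
  carrier := {l | ∑ r, l r = 0 ∧ ∑ r, (comb (l r) (p r)).1 = 0}
  zero_mem' := by simp [comb_zero]
  add_mem' := by
    intro a b ha hb
    simp only [Set.mem_ofPred_eq, Pi.add_apply, comb_add, Prod.fst_add,
      Finset.sum_add_distrib] at ha hb ⊢
    simp [ha.1, ha.2, hb.1, hb.2]
  smul_mem' := by
    intro c a ha
    simp only [Set.mem_ofPred_eq, Pi.smul_apply, comb_smul, Prod.smul_fst,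
      ← Finset.smul_sum] at ha ⊢
    simp [ha.1, ha.2]

lemma mem_puDD {p : Fin m → Pt ρ V} {l : Fin m → Fk ρ} :
    l ∈ puDD p ↔ ∑ r, l r = 0 ∧ ∑ r, (comb (l r) (p r)).1 = 0 := Iff.rfl

/-- the tuple has residues `w` at the point `x` -/
def puM [Finite V] (ε : Fk ρ) (p : Fin m → Pt ρ V) (w : Fin m → Fin ρ → V) (x : Gam ρ V) : Prop :=
  ∀ r, resid ε (p r) x = w r

/-- the target residues of labels `t` under the probe `Phi` -/
def puW (Φ : U →ₗ[F] V) (t : Fin m → Fin ρ → U) : Fin m → Fin ρ → V := fun r i => Φ (t r i)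

/-- the labels of `p` pulled back by the probe -/
def puV (p : Pt ρ V) (Φ : U →ₗ[F] V) : Fin ρ → Dual F U := fun i => (p.1 i).comp Φ

/-- symmetric matrices with zero diagonal and zero block sums -/
def puMM (m ρ : ℕ) : Set (Fin m × Fin ρ → Fin m × Fin ρ → F) :=
  {μ | (∀ a b, μ a b = μ b a) ∧ (∀ a, μ a a = 0) ∧ ∀ i b, ∑ r, μ (r, i) b = 0}

/-- the phase of a tuple -/
def puPh (μ : Fin m × Fin ρ → Fin m × Fin ρ → F) (p : Fin m → Pt ρ V) (w : Fin m → Fin ρ → V) :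
    F := ∑ a, ∑ b, μ a b * (p a.1).1 a.2 ((p b.1).2 b.2 + w b.1 b.2)

/-- the symplectic pairing twisted by a matrix -/
def puB (A : Fin ρ → Fin ρ → F) (p p' : Pt ρ V) : F :=
  ∑ i, ∑ j, A i j * (p.1 i (p'.2 j) + p'.1 j (p.2 i))

/-- normalized number of pairs with the same combination of labels -/
noncomputable def puAt (P : Set (Pt ρ V)) (l : Fk ρ) : ℝ :=
  (sm fun p => sm fun p' => ind (p ∈ P ∧ p' ∈ P ∧ (comb l p).1 = (comb l p').1)) / DP V (2 * ρ)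

/-- normalized weighted count of the particles -/
noncomputable def puNu (P : Set (Pt ρ V)) (a : (Fin ρ → Dual F U) → ℝ) (Φ : U →ₗ[F] V) : ℝ :=
  (sm fun p => ind (p ∈ P) * a (puV p Φ)) / DP V ρ

/-- the hypotheses of the pure case -/
structure PuH (P : Set (Pt ρ V)) (lam η : ℝ) : Prop where
  one : 1 ≤ lam
  pos : 0 < η
  le1 : η ≤ 1
  lam : cnt P ≤ lam * DP V ρ
  coll : ∀ DD : Submodule F (Fk ρ), DD ≠ ⊥ → DD ≠ ⊤ → coll P DD ≤ η
  en : energy P ≤ η * DP V (3 * ρ)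
  att : ∀ l : Fk ρ, l ≠ 0 → puAt P l ≤ η

omit [AddCommGroup V] [Module F V] in
lemma DP_mul (i j : ℕ) : DP V (i * j) = DP V i ^ j := pow_mul _ _ _

lemma PuH.mono [Finite V] {P : Set (Pt ρ V)} {lam η η' : ℝ} (h : PuH P lam η) (h1 : η ≤ η')
    (h2 : η' ≤ 1) : PuH P lam η' where
  one := h.one
  pos := h.pos.trans_le h1
  le1 := h2
  lam := h.lam
  coll := fun DD a b => (h.coll DD a b).trans h1
  en := h.en.trans (mul_le_mul_of_nonneg_right h1 (DP_pos _).le)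
  att := fun l hl => (h.att l hl).trans h1

/-- a sum of non trivial characters with coefficients bounded by one -/
noncomputable def puF [Finite U] (c : (Fin ρ → U) → ℝ) (w : Fin ρ → Dual F U) : ℝ :=
  sm fun s => c s * sg (∑ i, w i (s i))

/-- the candidates with labels in `LL` -/
noncomputable def puC [Finite U] [Finite V] (ε : Fk ρ) (P : Set (Pt ρ V)) (LL : Set (Fin ρ → U))
    (x : Gam ρ V) (Φ : U →ₗ[F] V) : Finset (Pt ρ V × (Fin ρ → U)) :=
  (Set.toFinite {c : Pt ρ V × (Fin ρ → U) |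
    c.1 ∈ P ∧ c.2 ∈ LL ∧ ∀ i, resid ε c.1 x i = Φ (c.2 i)}).toFinset

lemma mem_puC [Finite U] [Finite V] {ε : Fk ρ} {P : Set (Pt ρ V)} {LL : Set (Fin ρ → U)}
    {x : Gam ρ V} {Φ : U →ₗ[F] V} {c : Pt ρ V × (Fin ρ → U)} :
    c ∈ puC ε P LL x Φ ↔ c.1 ∈ P ∧ c.2 ∈ LL ∧ ∀ i, resid ε c.1 x i = Φ (c.2 i) := by
  simp [puC]

/-- the truncated product over the candidates -/
noncomputable def puPi [Finite U] [Finite V] (ε : Fk ρ) (P : Set (Pt ρ V))
    (LL : Set (Fin ρ → U)) (c : (Fin ρ → U) → (Fin ρ → U) → ℝ) (L : ℕ)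
    (x : Gam ρ V) (Φ : U →ₗ[F] V) : ℝ :=
  ind (Function.Injective Φ) * ind ((puC ε P LL x Φ).card ≤ L) *
    ∏ z ∈ puC ε P LL x Φ, (1 + puF (c z.2) (puV z.1 Φ))

end defs

/-- (P2e): a dependent injective tuple matches with small probability -/
def PU2 : Prop :=
  ∀ (ρ m : ℕ) (lam δ : ℝ), 0 < δ → ∃ η0 : ℝ, 0 < η0 ∧ ∀ η : ℝ, η ≤ η0 →
    ∀ (U V : Type) [AddCommGroup U] [Module F U] [Finite U] [AddCommGroup V] [Module F V]
      [Finite V] (ε : Fk ρ) (P : Set (Pt ρ V)), PuH P lam η → ∀ t : Fin m → Fin ρ → U,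
      (av fun Φ : U →ₗ[F] V => av fun x : Gam ρ V => ind (∃ p : Fin m → Pt ρ V,
        (∀ r, p r ∈ P) ∧ Function.Injective p ∧ puDD p ≠ ⊥ ∧ puM ε p (puW Φ t) x)) ≤ δ

/-- (P4): factorial moments factorize -/
def PU4 : Prop :=
  ∀ (ρ m : ℕ) (D : ℕ → ℝ) (lam δ : ℝ), 1 ≤ ρ → 0 < δ → ∃ η0 : ℝ, 0 < η0 ∧ ∀ η : ℝ, η ≤ η0 →
    ∀ (U V : Type) [AddCommGroup U] [Module F U] [Finite U] [AddCommGroup V] [Module F V]
      [Finite V] (ε : Fk ρ) (P : Set (Pt ρ V)), Tame D (NN ε P) → PuH P lam η →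
      ∀ (t : Fin m → Fin ρ → U) (a : Fin m → (Fin ρ → Dual F U) → ℝ), (∀ r w, |a r w| ≤ 1) →
      |(av fun Φ : U →ₗ[F] V => av fun x : Gam ρ V => sm fun p : Fin m → Pt ρ V =>
          ind ((∀ r, p r ∈ P) ∧ Function.Injective p ∧ puM ε p (puW Φ t) x) *
            ∏ r, a r (puV (p r) Φ)) -
        av fun Φ : U →ₗ[F] V => ∏ r, puNu P (a r) Φ| ≤ δ

/-- (P5): the truncated product has mean close to one -/
def PU5 : Prop :=
  ∀ (ρ : ℕ) (D : ℕ → ℝ) (lam : ℝ) (N : ℕ) (δ : ℝ), 1 ≤ ρ → 0 < δ → ∃ L0 : ℕ, ∀ L : ℕ, L0 ≤ L →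
    ∃ η0 : ℝ, 0 < η0 ∧ ∃ n0 : ℕ, ∀ η : ℝ, η ≤ η0 →
    ∀ (U V : Type) [AddCommGroup U] [Module F U] [Finite U] [AddCommGroup V] [Module F V]
      [Finite V] (ε : Fk ρ) (P : Set (Pt ρ V)), Nat.card (Fin ρ → U) ≤ N → n0 ≤ finrank F V →
      Tame D (NN ε P) → PuH P lam η →
      ∀ (LL : Set (Fin ρ → U)) (c : (Fin ρ → U) → (Fin ρ → U) → ℝ),
        (∀ t s, |c t s| ≤ 1) → (∀ t, c t 0 = 0) →
        |(av fun Φ : U →ₗ[F] V => av fun x : Gam ρ V => puPi ε P LL c L x Φ) - 1| ≤ δ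

end SD
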