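import Pool.Agent.Lib.MP_ecee09_co.SD.FamB

/-! Rank, clean forms, the class `CJ`, (GC) and (DROP). -/

namespace SD

open Module

variable {U V W : Type} [AddCommGroup U] [Module F U] [AddCommGroup V] [Module F V]
  [AddCommGroup W] [Module F W]

lemma mem_rad (Q : QF V) (y : V) :
    y ∈ Q.radical ↔ Q y = 0 ∧ ∀ x, QuadraticMap.polar Q x y = 0 := by
  rw [QuadraticMap.mem_radical_iff']
  refine and_congr_right fun h => forall_congr' fun x => ?_
  rw [add_comm, map_add2, h, add_zero, add_eq_left]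

lemma ND.clean {q : QF V} (h : ND q) : Clean q := fun y hy => by rw [h y hy, map_zero]

lemma ND.rad {q : QF V} (h : ND q) : q.radical = ⊥ :=
  (Submodule.eq_bot_iff _).2 fun y hy => h y ((mem_rad q y).1 hy).2

lemma comap_rad_le (Q : QF V) (Φ : U →ₗ[F] V) : Q.radical.comap Φ ≤ (Q.comp Φ).radical := by
  intro y hy
  rw [Submodule.mem_comap, mem_rad] at hy
  rw [mem_rad]
  exact ⟨hy.1, fun x => by rw [polar_comp']; exact hy.2 _⟩

lemma rad_comp_of_surj (Q : QF V) {Φ : U →ₗ[F] V} (h : Function.Surjective Φ) :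
    (Q.comp Φ).radical = Q.radical.comap Φ := by
  refine le_antisymm (fun y hy => ?_) (comap_rad_le Q Φ)
  rw [mem_rad] at hy
  rw [Submodule.mem_comap, mem_rad]
  refine ⟨hy.1, fun x => ?_⟩
  obtain ⟨x, rfl⟩ := h x
  rw [← polar_comp']; exact hy.2 x

lemma clean_comp_of_surj {Q : QF V} (hQ : Clean Q) {Φ : U →ₗ[F] V} (h : Function.Surjective Φ) :
    Clean (Q.comp Φ) := fun y hy => hQ (Φ y) fun x => by
  obtain ⟨x, rfl⟩ := h x
  rw [← polar_comp']; exact hy x

variable [Finite U] [Finite V] [Finite W]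

instance finQuot (N : Submodule F V) : Finite (V ⧸ N) :=
  Finite.of_surjective _ (Submodule.mkQ_surjective N)

lemma rank_add_rad (Q : QF V) : rank Q + finrank F Q.radical = finrank F V :=
  Submodule.finrank_quotient_add_finrank _

lemma rank_le_finrank (Q : QF V) : rank Q ≤ finrank F V := by
  have := rank_add_rad Q; omega

/-- a subspace inside the radical bounds the rank -/
lemma rank_le_of_le_rad (Q : QF V) (N : Submodule F V) (h : N ≤ Q.radical) :
    rank Q + finrank F N ≤ finrank F V := by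
  have := rank_add_rad Q
  have := Submodule.finrank_mono h
  omega

lemma rank_le_of_ker (Q : QF V) (π : V →ₗ[F] W) (h : LinearMap.ker π ≤ Q.radical) :
    rank Q ≤ finrank F (LinearMap.range π) := by
  have := rank_le_of_le_rad Q _ h
  have := π.finrank_range_add_finrank_ker
  omega

lemma rank_comp_le_range (q : QF W) (π : V →ₗ[F] W) :
    rank (q.comp π) ≤ finrank F (LinearMap.range π) :=
  rank_le_of_ker _ π fun y hy => comap_rad_le q π (by
    rw [Submodule.mem_comap, LinearMap.mem_ker.1 hy]; exact Submodule.zero_mem _)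

lemma rank_comp_lt (q : QF W) (π : V →ₗ[F] W) (h : ¬ Function.Surjective π) :
    rank (q.comp π) < finrank F W :=
  (rank_comp_le_range q π).trans_lt
    (Submodule.finrank_lt fun e => h (LinearMap.range_eq_top.1 e))

lemma rank_comp_le (Q : QF V) (Φ : U →ₗ[F] V) : rank (Q.comp Φ) ≤ rank Q :=
  (rank_le_of_ker _ (Q.radical.mkQ.comp Φ) (by
    rw [LinearMap.ker_comp, Submodule.ker_mkQ]; exact comap_rad_le Q Φ)).trans
    (Submodule.finrank_le _)

lemma rank_comp_of_surj (Q : QF V) {Φ : U →ₗ[F] V} (h : Function.Surjective Φ) :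
    rank (Q.comp Φ) = rank Q := by
  refine le_antisymm (rank_comp_le Q Φ) ?_
  obtain ⟨s, hs⟩ := Φ.exists_rightInverse_of_surjective (LinearMap.range_eq_top.2 h)
  have e : Q = (Q.comp Φ).comp s := by rw [comp_comp', hs]; rfl
  conv_lhs => rw [e]
  exact rank_comp_le _ s

lemma rank_add_le (Q Q' : QF V) : rank (Q + Q') ≤ rank Q + rank Q' := by
  have h : Q.radical ⊓ Q'.radical ≤ (Q + Q').radical := by
    intro y hy
    obtain ⟨h1, h2⟩ := Submodule.mem_inf.1 hy
    rw [QuadraticMap.mem_radical_iff'] at h1 h2 ⊢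
    exact ⟨by simp [h1.1, h2.1], fun n => by simp [h1.2 n, h2.2 n]⟩
  have h1 := rank_le_of_le_rad _ _ h
  have h2 := Submodule.finrank_sup_add_finrank_inf_eq Q.radical Q'.radical
  have h3 := Submodule.finrank_le (Q.radical ⊔ Q'.radical)
  have h4 := rank_add_rad Q
  have h5 := rank_add_rad Q'
  omega

lemma rank_eq_zero {Q : QF V} : rank Q = 0 ↔ Q = 0 := by
  constructor
  · intro h
    have h1 := rank_add_rad Q
    have h2 : Q.radical = ⊤ := Submodule.eq_top_of_finrank_eq (by omega)
    ext x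
    exact ((mem_rad Q x).1 (h2 ▸ Submodule.mem_top)).1
  · rintro rfl
    have := rank_le_of_le_rad (0 : QF V) ⊤ fun y _ => by
      rw [QuadraticMap.mem_radical_iff']; simp
    rw [finrank_top] at this; omega

lemma low_zero {J : ℕ} (hJ : 1 ≤ J) : Low J (0 : QF V) := by
  rw [Low, rank_eq_zero.2 rfl]; exact hJ

lemma ND.rank {q : QF V} (h : ND q) : rank q = finrank F V := by
  have := rank_add_rad q
  rw [h.rad, finrank_bot] at this; omega

lemma top_comp_of_surj {J : ℕ} {Q : QF V} (hQ : Top J Q) {Φ : U →ₗ[F] V}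
    (h : Function.Surjective Φ) : Top J (Q.comp Φ) :=
  ⟨(rank_comp_of_surj Q h).trans hQ.1, clean_comp_of_surj hQ.2 h⟩

lemma ND.top {q : QF V} (h : ND q) : Top (finrank F V) q := ⟨h.rank, h.clean⟩

/-- a clean form factors through an onto map to a space with nondegenerate polar form -/
lemma Clean.nd_lift {Q : QF V} (h : Clean Q) : ND (Q.lift Q.radical le_rfl) := by
  intro y hy
  induction y using Submodule.Quotient.induction_on with
  | H y =>
  rw [Submodule.Quotient.mk_eq_zero, mem_rad]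
  have h1 : ∀ x, QuadraticMap.polar Q x y = 0 := fun x => hy (Submodule.Quotient.mk x)
  exact ⟨h y h1, h1⟩

lemma top_iff {J : ℕ} {Q : QF V} : Top J Q ↔
    ∃ (π : V →ₗ[F] Fk J) (q : QF (Fk J)), Function.Surjective π ∧ ND q ∧ Q = q.comp π := by
  constructor
  · rintro ⟨h1, h2⟩
    have e : (V ⧸ Q.radical) ≃ₗ[F] Fk J :=
      LinearEquiv.ofFinrankEq _ _ (by rw [finrank_Fk]; exact h1)
    refine ⟨e.toLinearMap.comp Q.radical.mkQ, (Q.lift Q.radical le_rfl).comp e.symm.toLinearMap,
      e.surjective.comp (Submodule.mkQ_surjective _), fun y hy => ?_, ?_⟩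
    · have := h2.nd_lift (e.symm y) fun x => by
        have := hy (e x)
        rw [polar_comp'] at this
        simpa using this
      simpa using this
    · ext x; simp
  · rintro ⟨π, q, h1, h2, rfl⟩
    have := top_comp_of_surj h2.top h1
    rwa [finrank_Fk] at this

lemma Low.comp {J : ℕ} {Q : QF V} (h : Low J Q) (Φ : U →ₗ[F] V) : Low J (Q.comp Φ) :=
  (rank_comp_le Q Φ).trans_lt h

lemma Top.comp {J : ℕ} {Q : QF V} (h : Top J Q) (Φ : U →ₗ[F] V) : CJ J (Q.comp Φ) := by
  obtain ⟨π, q, h1, h2, rfl⟩ := top_iff.1 h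
  rw [comp_comp']
  by_cases hs : Function.Surjective (π.comp Φ)
  · exact Or.inr (top_iff.2 ⟨_, q, hs, h2, rfl⟩)
  · have := rank_comp_lt q _ hs
    rw [finrank_Fk] at this
    exact Or.inl this

lemma CJ.comp {J : ℕ} {Q : QF V} (h : CJ J Q) (Φ : U →ₗ[F] V) : CJ J (Q.comp Φ) :=
  h.elim (fun h => Or.inl (h.comp Φ)) fun h => h.comp Φ

omit [Finite V] in
lemma not_low_of_top {J : ℕ} {Q : QF V} (h : Top J Q) : ¬ Low J Q := by
  rw [Low, h.1]; exact lt_irrefl J

lemma Spec.res_low {J : ℕ} {h : G V → ℝ} (hs : Spec (Low J) h) (x : G V) (Φ : U →ₗ[F] V) :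
    Spec (Low J) (SD.res h x Φ) := hs.res x Φ fun _ hQ => hQ.comp Φ

lemma Spec.res_cj {J : ℕ} {h : G V → ℝ} (hs : Spec (CJ J) h) (x : G V) (Φ : U →ₗ[F] V) :
    Spec (CJ J) (SD.res h x Φ) := hs.res x Φ fun _ hQ => hQ.comp Φ

lemma Spec.en_split {J : ℕ} {h : G V → ℝ} (hs : Spec (CJ J) h) :
    en (Low J) h + en (Top J) h = av fun M => h M ^ 2 := by
  rw [← hs.en_eq, en, en, ← sm_add]
  refine sm_congr fun Q => ?_
  by_cases h1 : Top J Q
  · rw [ind_pos h1, ind_neg (not_low_of_top h1), ind_pos (show CJ J Q from Or.inr h1)]; ring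
  · rw [ind_neg h1, ind_congr (show CJ J Q ↔ Low J Q from ⟨fun h => h.resolve_right h1, Or.inl⟩)]
    ring

lemma Spec.split {J : ℕ} {h : G V → ℝ} (hs : Spec (CJ J) h) (M : G V) :
    h M = proj (Low J) h M + proj (Top J) h M := by
  refine congrFun (eq_of_coef (f := h) (g := fun M => proj (Low J) h M + proj (Top J) h M)
    fun Q => ?_) M
  rw [coef_add, coef_proj, coef_proj]
  by_cases h0 : coef h Q = 0
  · simp [h0]
  · rcases hs Q h0 with h1 | h1
    · rw [ind_pos h1, ind_neg fun h2 => not_low_of_top h2 h1]; ring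
    · rw [ind_pos h1, ind_neg (not_low_of_top h1)]; ring

/-- `lam Q`, the eigenvalue of `Tee` -/
noncomputable def lam (Q : QF V) : ℝ := av fun x => sg (Q x)

lemma lam_sq (Q : QF V) : lam Q ^ 2 = ind (Clean Q) * (1 / 2) ^ rank Q := by
  have e1 : lam Q ^ 2 = av fun y => sg (Q y) * ind (∀ x, QuadraticMap.polar Q x y = 0) := by
    rw [sq, lam, av_mul_av]
    have : ∀ x, (av fun y => sg (Q x) * sg (Q y)) =
        av fun y => sg (Q y) * sg (QuadraticMap.polar Q x y) := fun x => by
      rw [← av_add_left (fun y => sg (Q x) * sg (Q y)) x]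
      refine av_congr fun y => ?_
      rw [map_add2, sg_add, sg_add, ← mul_assoc, ← mul_assoc, sg_mul_self, one_mul]
    simp only [this]
    rw [av_comm]
    refine av_congr fun y => ?_
    rw [av_mul_left, av_sg _ fun a b => QuadraticMap.polar_add_left Q a b y]
  let N : Submodule F V := LinearMap.ker (QuadraticMap.polarBilin Q).flip
  have hN : ∀ y, y ∈ N ↔ ∀ x, QuadraticMap.polar Q x y = 0 := fun y => by
    simp [N, LinearMap.ext_iff]
  have hV := card_pos' (α := V)
  have e2 : lam Q ^ 2 = Nat.card N * ind (Clean Q) / Nat.card V := by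
    rw [e1, av_def]
    congr 1
    have := sm_subtype (fun y => y ∈ N) fun y => sg (Q y)
    rw [sm_congr (g := fun y => ind (y ∈ N) * sg (Q y)) fun y => by
      rw [mul_comm, ind_congr (hN y)], ← this, sm_eq_card_mul_av,
      av_sg (X := N) (fun y => Q y) fun a b => by
        rw [Submodule.coe_add, map_add2, (hN _).1 b.2, add_zero]]
    congr 1
    exact ind_congr ⟨fun h y hy => h ⟨y, (hN y).2 hy⟩, fun h y => h y ((hN _).1 y.2)⟩
  rw [e2]
  by_cases hc : Clean Q
  · have : N = Q.radical := by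
      ext y; rw [hN, mem_rad]; exact ⟨fun h => ⟨hc y h, h⟩, fun h => h.2⟩
    rw [ind_pos hc, this, card_eq_pow, card_eq_pow (X := V), ← rank_add_rad Q]
    push_cast
    rw [pow_add, one_div, inv_pow]; field_simp
  · rw [ind_neg hc]; simp

lemma coef_ev_shift (h : G V → ℝ) (Q : QF V) :
    coef (fun M => av fun x => h (M + ev x)) Q = coef h Q * lam Q := by
  rw [coef_av fun x M => h (M + ev x)]
  simp only [coef_shift, chi_ev]
  rw [av_mul_left, lam]

section gc
variable {k : ℕ}

/-- (GC) -/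
lemma Fam.gc (A : GFam k V) (J : ℕ) (f : G V → ℝ) :
    (A.E fun x Φ => en (Low J) (res f x Φ)) = en (Low J) f +
      A.E fun x Φ => en (Low J) (res (fun M => f M - proj (Low J) f M) x Φ) := by
  set g := proj (Low J) f with hg
  set w : G V → ℝ := fun M => f M - g M with hw
  have hsg : Spec (Low J) g := spec_proj _ _
  have e : ∀ (x : G V) (Φ : Hom k V), en (Low J) (res f x Φ) =
      (SD.av fun B => res g x Φ B ^ 2) + (2 * (SD.av fun B => res g x Φ B * res w x Φ B) +
        en (Low J) (res w x Φ)) := by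
    intro x Φ
    have hs := hsg.res_low x Φ
    have e0 : res f x Φ = fun B => res g x Φ B + res w x Φ B := by
      funext B; simp [res, hw]
    rw [← parseval_sq, ← parseval, en, en, ← sm_mul_left, ← sm_add, ← sm_add]
    refine sm_congr fun Q => ?_
    rw [e0, coef_add]
    have := hs.ind_mul Q
    linear_combination (coef (res g x Φ) Q + 2 * coef (res w x Φ) Q) * this
  have e1 : (SD.av fun M => g M * w M) = 0 := by
    have h1 := en_eq (Low J) f
    have h2 := en_eq_inner (Low J) f
    rw [av_congr (g := fun M => f M * g M - g M ^ 2) fun M => by simp only [hw]; ring, av_sub]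
    rw [← hg] at h1 h2
    linarith
  rw [A.congr' e, A.add, A.add, A.smul, A.res_sq, A.res_inner, e1, en_eq (Low J) f]
  ring

lemma Fam.gc_mono (A : GFam k V) (J : ℕ) (f : G V → ℝ) :
    en (Low J) f ≤ A.E fun x Φ => en (Low J) (res f x Φ) := by
  rw [A.gc]
  exact le_add_of_nonneg_right (A.pos _ fun _ _ => en_nonneg _ _)

/-- (DROP) -/
lemma Fam.drop (A : GFam k V) {J : ℕ} {h : G V → ℝ} (hs : Spec (CJ J) h) :
    (A.E fun x Φ => en (Top J) (res h x Φ)) =
      en (Top J) h - A.E fun x Φ => en (Low J) (res (proj (Top J) h) x Φ) := by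
  have e1 := A.gc J h
  have e2 : (fun M => h M - proj (Low J) h M) = proj (Top J) h := by
    funext M; rw [hs.split M]; simp only [← hs.split M]; linarith [hs.split M]
  rw [e2] at e1
  have e3 := A.res_sq h
  rw [← A.congr' fun x Φ => (hs.res_cj x Φ).en_split, A.add, ← hs.en_split] at e3
  linarith

lemma Gain.drop {J : ℕ} {h : G V → ℝ} (hs : Spec (CJ J) h) {η c : ℝ}
    (hg : Gain J (proj (Top J) h) k η c) : Drop J h k η (en (Top J) h - c) := by
  obtain ⟨A, h1, h2⟩ := hg
  exact ⟨A, h1, by rw [A.drop hs]; linarith⟩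

end gc

end SD
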