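import Pool.Agent.Lib.MP_ecee09_co.SD.Four

/-! Fourier facts used in the reduction of the main theorem to `FULL`. -/

namespace SD

open Module

set_option linter.unusedSectionVars false

variable {U V : Type} [AddCommGroup U] [Module F U] [Finite U] [AddCommGroup V] [Module F V]
  [Finite V]

lemma top_best {P : QF V → Prop} (f : G V → ℝ) {g : G V → ℝ} (hg : Spec P g) :
    en (fun Q => ¬ P Q) f ≤ av fun M => (f M - g M) ^ 2 := by
  rw [← parseval_sq]
  refine sm_mono fun Q => ?_
  by_cases c : P Q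
  · rw [ind_neg (not_not.2 c), zero_mul]
    exact sq_nonneg _
  · rw [ind_pos c, coef_sub, not_not.1 fun k => c (hg Q k), sub_zero, one_mul]

lemma top_sq_sub (P : QF V → Prop) (f : G V → ℝ) :
    av (fun M => (f M - proj P f M) ^ 2) = en (fun Q => ¬ P Q) f := by
  rw [← parseval_sq]
  refine sm_congr fun Q => ?_
  rw [coef_sub, coef_proj]
  by_cases c : P Q
  · rw [ind_pos c, ind_neg (not_not.2 c)]
    ring
  · rw [ind_neg c, ind_pos c]
    ring

lemma top_rank_aux (Φ : U →ₗ[F] V) (Q : QF V) :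
    rank (Q.comp Φ) ≤ finrank F (LinearMap.range (Q.radical.mkQ.comp Φ)) := by
  have h : LinearMap.ker (Q.radical.mkQ.comp Φ) ≤ (Q.comp Φ).radical := fun y hy => by
    have k : Φ y ∈ Q.radical := (Submodule.Quotient.mk_eq_zero _).1 hy
    rw [QuadraticMap.mem_radical_iff'] at k ⊢
    exact ⟨k.1, fun n => (congrArg Q (map_add Φ y n)).trans (k.2 _)⟩
  have h1 := LinearMap.finrank_range_add_finrank_ker (Q.radical.mkQ.comp Φ)
  have h2 := Submodule.finrank_quotient_add_finrank (Q.comp Φ).radical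
  have h3 := Submodule.finrank_mono h
  rw [rank]
  omega

lemma top_rank_pull (Φ : U →ₗ[F] V) (Q : QF V) : rank (Q.comp Φ) ≤ rank Q :=
  (top_rank_aux Φ Q).trans (Submodule.finrank_le _)

lemma top_low_pull {J : ℕ} (Φ : U →ₗ[F] V) (Q : QF V) (h : Low J Q) : Low J (Q.comp Φ) :=
  (top_rank_pull Φ Q).trans_lt h

lemma top_cj_pull {J : ℕ} (Φ : U →ₗ[F] V) (Q : QF V) (h : Top J Q) : CJ J (Q.comp Φ) := by
  rcases ((top_rank_pull Φ Q).trans h.1.le).eq_or_lt with e | e
  · refine .inr ⟨e, fun y hy => h.2 (Φ y) fun v => ?_⟩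
    have s : LinearMap.range (Q.radical.mkQ.comp Φ) = ⊤ :=
      Submodule.eq_top_of_finrank_eq (le_antisymm (Submodule.finrank_le _)
        ((h.1.trans e.symm).le.trans (top_rank_aux Φ Q)))
    obtain ⟨x, hx⟩ := LinearMap.range_eq_top.1 s (Q.radical.mkQ v)
    have k : Φ x - v ∈ Q.radical := (Submodule.Quotient.eq _).1 hx
    have k1 : QuadraticMap.polar Q (Φ x - v) (Φ y) = 0 := LinearMap.congr_fun k.2 (Φ y)
    have k2 : QuadraticMap.polar Q (Φ x) (Φ y) = 0 := by
      rw [← hy x]
      simp only [QuadraticMap.polar, ← map_add]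
      rfl
    rwa [QuadraticMap.polar_sub_left, k2, zero_sub, neg_eq_zero] at k1
  · exact .inl e

lemma top_lam_sq (Q : QF V) : av (fun x => sg (Q x)) ^ 2 =
    av fun y => sg (Q y) * ind (∀ x, QuadraticMap.polar Q x y = 0) := by
  rw [sq, av_mul_av]
  have e : ∀ x, (av fun y => sg (Q x) * sg (Q y)) =
      av fun y => sg (Q y) * sg (QuadraticMap.polar Q x y) := fun x => by
    rw [← av_add_left (fun y => sg (Q x) * sg (Q y)) x]
    refine av_congr fun y => ?_
    rw [QuadraticMap.map_add Q x y, sg_add, sg_add, ← mul_assoc, ← mul_assoc, sg_mul_self, one_mul]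
  simp only [e]
  rw [av_comm]
  exact av_congr fun y => by
    rw [av_mul_left, av_sg _ fun a b => QuadraticMap.polar_add_left Q a b y]

lemma top_lam_zero {Q : QF V} (h : ¬ Clean Q) : av (fun x => sg (Q x)) = 0 := by
  obtain ⟨y, hy⟩ := not_forall.1 h
  obtain ⟨h1, h2⟩ := Classical.not_imp.1 hy
  have k := av_add_right (fun x => sg (Q x)) y
  simp only [QuadraticMap.map_add Q, h1, add_zero, sg_add, (F_cases _).resolve_left h2, sg_one,
    av_mul_right] at k
  linarith

lemma top_lam_le {Q : QF V} (h : Clean Q) : av (fun x => sg (Q x)) ^ 2 ≤ (1 / 2) ^ rank Q := by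
  rw [top_lam_sq]
  refine (av_mono (g := fun y => ind (y ∈ (Q.radical : Set V))) fun y => ?_).trans (le_of_eq ?_)
  · refine (mul_le_of_le_one_left (ind_nonneg _) (sg_le_one _)).trans (ind_mono fun k => ?_)
    exact ⟨h y k, LinearMap.ext fun x => (QuadraticMap.polar_comm Q y x).trans (k x)⟩
  · have h2 := Submodule.finrank_quotient_add_finrank Q.radical
    rw [av_def, ← cnt, cnt_eq_card, card_eq_pow (X := V), ← h2, rank]
    erw [card_eq_pow (X := Q.radical)]
    push_cast
    rw [pow_add, one_div_pow]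
    field_simp

lemma top_rank_zero {Q : QF V} (h : rank Q = 0) : Q = 0 := by
  have h2 := Submodule.finrank_quotient_add_finrank Q.radical
  rw [rank] at h
  have e : Q.radical = ⊤ := Submodule.eq_top_of_finrank_eq (by omega)
  exact QuadraticMap.ext fun x => (show x ∈ Q.radical from e ▸ Submodule.mem_top).1

lemma top_tee (f : G V → ℝ) : av (fun x : V => av fun M => f M * f (M + ev x)) =
    sm fun Q => coef f Q ^ 2 * av fun x => sg (Q x) := by
  simp only [← av_mul_left]
  rw [← av_sm_comm]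
  refine av_congr fun x => ?_
  rw [← parseval f fun M => f (M + ev x)]
  exact sm_congr fun Q => by rw [coef_shift, chi_ev, sq, mul_assoc]

end SD
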