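import Pool.Agent.Lib.MP_ecee09_co.SD.Base
import Pool.Agent.Lib.MP_ecee09_co.SD.Stmts

/-! Section 6, first part: the self dual weight `p = W0 ^ 2` has a heavy set with large additive
energy, hence a heavy set inside a subspace of comparable size. -/

namespace SD

open Module

section u3a
variable {A : Type} [AddCommGroup A] [Module F A] [Finite A]

/-- a symmetric nondegenerate biadditive pairing -/
structure U3Prg (β : A → A → F) : Prop where
  addl : ∀ x x' y, β (x + x') y = β x y + β x' y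
  symm : ∀ x y, β x y = β y x
  nd : ∀ x, (∀ y, β x y = 0) → x = 0

noncomputable def u3W (β : A → A → F) (c : A → ℝ) (x : A × A) : ℝ :=
  sm fun Z => c Z * c (Z + x.2) * sg (β x.1 Z)

noncomputable def u3p (β : A → A → F) (c : A → ℝ) (x : A × A) : ℝ := u3W β c x ^ 2

def u3om (β : A → A → F) (x y : A × A) : F := β x.1 y.2 + β y.1 x.2

variable {β : A → A → F}

omit [Module F A] [Finite A] in
lemma U3Prg.addr (h : U3Prg β) (x y y' : A) : β x (y + y') = β x y + β x y' := by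
  rw [h.symm, h.addl, h.symm y, h.symm y']

omit [Module F A] [Finite A] in
lemma U3Prg.zero_left (h : U3Prg β) (y : A) : β 0 y = 0 := by simpa using h.addl 0 0 y

omit [Module F A] [Finite A] in
lemma U3Prg.zero_right (h : U3Prg β) (y : A) : β y 0 = 0 := by rw [h.symm, h.zero_left]

omit [Module F A] in
lemma U3Prg.av_orth (h : U3Prg β) (Z : A) : av (fun x => sg (β x Z)) = ind (Z = 0) := by
  rw [av_sg (fun x => β x Z) fun a b => h.addl a b Z]
  exact ind_congr ⟨fun h0 => h.nd Z fun y => by rw [h.symm]; exact h0 y,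
    fun h0 x => by rw [h0, h.zero_right]⟩

omit [Module F A] in
lemma U3Prg.sm_orth (h : U3Prg β) (Z : A) :
    sm (fun x => sg (β x Z)) = Nat.card A * ind (Z = 0) := by
  rw [sm_eq_card_mul_av, h.av_orth]

omit [Module F A] [Finite A] in
lemma U3Prg.om_addl (h : U3Prg β) (x x' y : A × A) :
    u3om β (x + x') y = u3om β x y + u3om β x' y := by
  simp only [u3om, Prod.fst_add, Prod.snd_add, h.addl, h.addr]; ring

omit [AddCommGroup A] [Module F A] [Finite A] in
lemma u3om_symm (x y : A × A) : u3om β x y = u3om β y x := by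
  simp only [u3om]; ring

omit [Module F A] [Finite A] in
lemma U3Prg.om (h : U3Prg β) : U3Prg (u3om β) where
  addl := h.om_addl
  symm := u3om_symm
  nd x hx := by
    have h1 : x.1 = 0 := h.nd _ fun y => by simpa [u3om, h.zero_left] using hx (0, y)
    have h2 : x.2 = 0 := h.nd _ fun y => by
      have := hx (y, 0)
      simp only [u3om, h.zero_right, zero_add] at this
      rw [h.symm]; exact this
    exact Prod.ext h1 h2

omit [Module F A] [Finite A] in
lemma u3p_nonneg (c : A → ℝ) (x : A × A) : 0 ≤ u3p β c x := sq_nonneg _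

omit [Module F A] in
lemma u3p_le (c : A → ℝ) (x : A × A) : u3p β c x ≤ (sm fun Z => c Z ^ 2) ^ 2 := by
  have h := sm_cs c (fun Z => c (Z + x.2) * sg (β x.1 Z))
  simp only [mul_pow, sg_sq, mul_one] at h
  rw [sm_add_right (fun Z => c Z ^ 2) x.2, ← sq] at h
  simpa only [u3p, u3W, mul_assoc] using h

/-- the weight is its own symplectic transform -/
lemma U3Prg.p_dual (h : U3Prg β) (c : A → ℝ) (y : A × A) :
    sm (fun x => u3p β c x * sg (u3om β x y)) = Nat.card A * u3p β c y := by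
  have e1 : ∀ ζ, sm (fun ξ => u3p β c (ξ, ζ) * sg (β ξ y.2)) =
      Nat.card A * sm fun Z => c Z * c (Z + ζ) * (c (Z + y.2) * c (Z + y.2 + ζ)) := by
    intro ζ
    have e2 : ∀ ξ, u3p β c (ξ, ζ) * sg (β ξ y.2) = sm fun Z => sm fun Z' =>
        c Z * c (Z + ζ) * (c Z' * c (Z' + ζ)) * sg (β ξ (Z + Z' + y.2)) := by
      intro ξ
      rw [u3p, sq, u3W, sm_mul_sm, ← sm_mul_right]
      refine sm_congr fun Z => ?_
      rw [← sm_mul_right]
      refine sm_congr fun Z' => ?_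
      simp only [h.addr, sg_add]; ring
    simp only [e2]
    rw [sm_comm, ← sm_mul_left]
    refine sm_congr fun Z => ?_
    rw [sm_comm]
    have e3 : ∀ Z', sm (fun ξ => c Z * c (Z + ζ) * (c Z' * c (Z' + ζ)) *
        sg (β ξ (Z + Z' + y.2))) = ind (Z' = Z + y.2) *
          (Nat.card A * (c Z * c (Z + ζ) * (c Z' * c (Z' + ζ)))) := by
      intro Z'
      rw [sm_mul_left, h.sm_orth, ind_congr (q := Z' = Z + y.2)]
      · ring
      · rw [add_right_comm, add_eq_zero2, eq_comm]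
    simp only [e3]
    rw [sm_ind_eq]
  rw [sm_prod, sm_comm]
  have e4 : ∀ ζ, sm (fun ξ => u3p β c (ξ, ζ) * sg (u3om β (ξ, ζ) y)) =
      Nat.card A * sm fun Z => c Z * c (Z + y.2) * sg (β y.1 Z) *
        (c (Z + ζ) * c (Z + ζ + y.2) * sg (β y.1 (Z + ζ))) := by
    intro ζ
    have : ∀ ξ, u3p β c (ξ, ζ) * sg (u3om β (ξ, ζ) y) =
        u3p β c (ξ, ζ) * sg (β ξ y.2) * sg (β y.1 ζ) := fun ξ => by
      simp only [u3om, sg_add]; ring
    simp only [this]
    rw [sm_mul_right, e1, mul_assoc, ← sm_mul_right]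
    congr 1
    refine sm_congr fun Z => ?_
    rw [h.addr, sg_add, add_right_comm Z ζ y.2]
    have := sg_mul_self (β y.1 Z)
    linear_combination (-(c Z * c (Z + ζ) * (c (Z + y.2) * c (Z + y.2 + ζ)) * sg (β y.1 ζ))) * this
  simp only [e4]
  rw [sm_mul_left, sm_comm]
  congr 1
  rw [u3p, sq, u3W, sm_mul_sm]
  refine sm_congr fun Z => ?_
  exact sm_add_left (fun Z' => c Z * c (Z + y.2) * sg (β y.1 Z) *
    (c Z' * c (Z' + y.2) * sg (β y.1 Z'))) Z

lemma U3Prg.sm_p (h : U3Prg β) (c : A → ℝ) :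
    sm (u3p β c) = Nat.card A * (sm fun Z => c Z ^ 2) ^ 2 := by
  have := h.p_dual c 0
  simp only [h.om.zero_right, sg_zero, mul_one] at this
  rw [this]
  congr 1
  simp only [u3p, u3W, Prod.snd_zero, Prod.fst_zero, add_zero, h.zero_left, sg_zero, mul_one, sq]

/-- triple convolution -/
noncomputable def u3T (p : A × A → ℝ) (a : A × A) : ℝ :=
  sm fun b => sm fun d => p b * p d * p (a + b + d)

lemma U3Prg.T_eq (h : U3Prg β) (c : A → ℝ) (a : A × A) :
    u3T (u3p β c) a = Nat.card A * sm fun y => u3p β c y ^ 3 * sg (u3om β a y) := by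
  have hN := card_pos' (α := A)
  have e1 : ∀ b d, u3p β c b * u3p β c d * u3p β c (a + b + d) =
      (Nat.card A : ℝ)⁻¹ * sm fun y => u3p β c y * sg (u3om β a y) *
        ((u3p β c b * sg (u3om β b y)) * (u3p β c d * sg (u3om β d y))) := by
    intro b d
    have h1 := h.p_dual c (a + b + d)
    have h2 : u3p β c (a + b + d) = (Nat.card A : ℝ)⁻¹ *
        sm (fun x => u3p β c x * sg (u3om β x (a + b + d))) := by
      rw [h1]; field_simp
    rw [h2, mul_left_comm, ← sm_mul_left]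
    congr 1
    refine sm_congr fun y => ?_
    rw [u3om_symm y, h.om_addl, h.om_addl, sg_add, sg_add]; ring
  simp only [u3T, e1, sm_mul_left]
  have e2 : (sm fun b => sm fun d => sm fun y => u3p β c y * sg (u3om β a y) *
        ((u3p β c b * sg (u3om β b y)) * (u3p β c d * sg (u3om β d y)))) =
      sm fun y => u3p β c y * sg (u3om β a y) * (Nat.card A * u3p β c y) ^ 2 := by
    have : ∀ b, (sm fun d => sm fun y => u3p β c y * sg (u3om β a y) *
        ((u3p β c b * sg (u3om β b y)) * (u3p β c d * sg (u3om β d y)))) =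
        sm fun y => u3p β c y * sg (u3om β a y) * (Nat.card A * u3p β c y) *
          (u3p β c b * sg (u3om β b y)) := fun b => by
      rw [sm_comm]
      refine sm_congr fun y => ?_
      rw [sm_mul_left, sm_mul_left, h.p_dual]; ring
    simp only [this]
    rw [sm_comm]
    refine sm_congr fun y => ?_
    rw [sm_mul_left, h.p_dual]; ring
  rw [e2, ← sm_mul_left, ← sm_mul_left]
  refine sm_congr fun y => ?_
  field_simp

lemma U3Prg.La_eq (h : U3Prg β) (c : A → ℝ) :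
    sm (fun a => u3p β c a * u3T (u3p β c) a) =
      (Nat.card A : ℝ) ^ 2 * sm fun y => u3p β c y ^ 4 := by
  simp only [h.T_eq]
  have : ∀ a, u3p β c a * (Nat.card A * sm fun y => u3p β c y ^ 3 * sg (u3om β a y)) =
      sm fun y => Nat.card A * u3p β c y ^ 3 * (u3p β c a * sg (u3om β a y)) := fun a => by
    rw [← sm_mul_left, ← sm_mul_left]; exact sm_congr fun y => by ring
  simp only [this]
  rw [sm_comm, ← sm_mul_left]
  refine sm_congr fun y => ?_
  rw [sm_mul_left, h.p_dual]; ring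

lemma U3Prg.parseval (h : U3Prg β) (g : A → ℝ) :
    sm (fun a => (sm fun y => g y * sg (β a y)) ^ 2) = Nat.card A * sm fun y => g y ^ 2 := by
  have e1 : ∀ a, (sm fun y => g y * sg (β a y)) ^ 2 =
      sm fun y => sm fun y' => g y * g y' * sg (β a (y + y')) := fun a => by
    rw [sq, sm_mul_sm]
    exact sm_congr fun y => sm_congr fun y' => by rw [h.addr, sg_add]; ring
  simp only [e1]
  rw [sm_comm, ← sm_mul_left]
  refine sm_congr fun y => ?_
  rw [sm_comm]
  have e2 : ∀ y', (sm fun a => g y * g y' * sg (β a (y + y'))) =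
      ind (y' = y) * (Nat.card A * (g y * g y')) := fun y' => by
    rw [sm_mul_left, h.sm_orth, ind_congr (q := y' = y) (by rw [add_eq_zero2, eq_comm])]; ring
  simp only [e2]
  rw [sm_ind_eq, sq]

lemma U3Prg.T_sq (h : U3Prg β) (c : A → ℝ) :
    sm (fun a => u3T (u3p β c) a ^ 2) = (Nat.card A : ℝ) ^ 4 * sm fun y => u3p β c y ^ 6 := by
  simp only [h.T_eq, mul_pow]
  rw [sm_mul_left, h.om.parseval, Nat.card_prod]
  simp only [← pow_mul]
  push_cast; ring

/-- removing the light part of a weight costs at most four times the mixed count -/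
lemma u3_heavy (p : A × A → ℝ) (hp : ∀ x, 0 ≤ p x) (b th : ℝ) (hb : ∀ x, p x ≤ b) :
    sm (fun a => p a * u3T p a) ≤ b ^ 4 * energy {x | th ≤ p x} +
      4 * sm fun a => ind (¬ th ≤ p a) * p a * u3T p a := by
  set l : A × A → ℝ := fun a => ind (¬ th ≤ p a) * p a with hl
  have hl0 : ∀ a, 0 ≤ l a := fun a => mul_nonneg (ind_nonneg _) (hp a)
  have hb0 : 0 ≤ b := (hp 0).trans (hb 0)
  have pt : ∀ a1 a2 a3 a4, p a1 * (p a2 * p a3 * p a4) ≤
      b ^ 4 * ind (a1 ∈ {x | th ≤ p x} ∧ a2 ∈ {x | th ≤ p x} ∧ a3 ∈ {x | th ≤ p x} ∧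
        a4 ∈ {x | th ≤ p x}) + (l a1 * (p a2 * p a3 * p a4) + l a2 * (p a1 * p a3 * p a4) +
        l a3 * (p a2 * p a1 * p a4) + l a4 * (p a2 * p a3 * p a1)) := by
    intro a1 a2 a3 a4
    have q1 := hp a1; have q2 := hp a2; have q3 := hp a3; have q4 := hp a4
    have t1 : 0 ≤ l a1 * (p a2 * p a3 * p a4) := mul_nonneg (hl0 _) (by positivity)
    have t2 : 0 ≤ l a2 * (p a1 * p a3 * p a4) := mul_nonneg (hl0 _) (by positivity)
    have t3 : 0 ≤ l a3 * (p a2 * p a1 * p a4) := mul_nonneg (hl0 _) (by positivity)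
    have t4 : 0 ≤ l a4 * (p a2 * p a3 * p a1) := mul_nonneg (hl0 _) (by positivity)
    have t0 : 0 ≤ b ^ 4 * ind (a1 ∈ {x | th ≤ p x} ∧ a2 ∈ {x | th ≤ p x} ∧
        a3 ∈ {x | th ≤ p x} ∧ a4 ∈ {x | th ≤ p x}) := mul_nonneg (by positivity) (ind_nonneg _)
    have hlp : ∀ a, ¬ th ≤ p a → l a = p a := fun a ha => by
      simp only [hl]; rw [ind_pos ha, one_mul]
    by_cases h1 : th ≤ p a1
    · by_cases h2 : th ≤ p a2
      · by_cases h3 : th ≤ p a3
        · by_cases h4 : th ≤ p a4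
          · rw [ind_pos ⟨h1, h2, h3, h4⟩]
            have : p a1 * (p a2 * p a3 * p a4) ≤ b * (b * b * b) := by
              have := hb a1; have := hb a2; have := hb a3; have := hb a4
              gcongr
            nlinarith
          · rw [hlp a4 h4] at t4 ⊢; nlinarith
        · rw [hlp a3 h3] at t3 ⊢; nlinarith
      · rw [hlp a2 h2] at t2 ⊢; nlinarith
    · rw [hlp a1 h1] at t1 ⊢; nlinarith
  have base : ∀ f : A × A → ℝ, sm (fun a => f a * u3T p a) =
      sm fun a1 => sm fun a2 => sm fun a3 => f a1 * (p a2 * p a3 * p (a1 + a2 + a3)) := fun f => by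
    simp only [u3T, ← sm_mul_left]
  have s2 : (sm fun a1 => sm fun a2 => sm fun a3 => l a2 * (p a1 * p a3 * p (a1 + a2 + a3))) =
      sm (fun a => l a * u3T p a) := by
    rw [base, sm_comm]; simp only [add_comm]
  have s3 : (sm fun a1 => sm fun a2 => sm fun a3 => l a3 * (p a2 * p a1 * p (a1 + a2 + a3))) =
      sm (fun a => l a * u3T p a) := by
    rw [base]
    calc _ = sm fun a2 => sm fun a1 => sm fun a3 => l a3 * (p a2 * p a1 * p (a1 + a2 + a3)) :=
          sm_comm _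
      _ = sm fun a2 => sm fun a3 => sm fun a1 => l a3 * (p a2 * p a1 * p (a1 + a2 + a3)) :=
          sm_congr fun a2 => sm_comm _
      _ = sm fun a3 => sm fun a2 => sm fun a1 => l a3 * (p a2 * p a1 * p (a1 + a2 + a3)) :=
          sm_comm _
      _ = _ := sm_congr fun a3 => sm_congr fun a2 => sm_congr fun a1 => by
          rw [show a1 + a2 + a3 = a3 + a2 + a1 by abel]
  have s4 : (sm fun a1 => sm fun a2 => sm fun a3 => l (a1 + a2 + a3) * (p a2 * p a3 * p a1)) =
      sm (fun a => l a * u3T p a) := by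
    rw [base]
    have r : ∀ g : A × A → A × A → A × A → ℝ, (sm fun a1 => sm fun a2 => sm fun a3 => g a1 a2 a3) =
        sm fun a2 => sm fun a3 => sm fun a1 => g a1 a2 a3 := fun g => by
      rw [sm_comm]; exact sm_congr fun a2 => sm_comm _
    rw [r, r (fun a1 a2 a3 => l a1 * (p a2 * p a3 * p (a1 + a2 + a3)))]
    refine sm_congr fun a2 => sm_congr fun a3 => ?_
    rw [← sm_add_right (fun a1 => l a1 * (p a2 * p a3 * p (a1 + a2 + a3))) (a2 + a3)]
    refine sm_congr fun a1 => ?_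
    have : a1 + (a2 + a3) + a2 + a3 = a1 := by
      rw [show a1 + (a2 + a3) + a2 + a3 = a1 + ((a2 + a3) + (a2 + a3)) by abel, add_self2,
        add_zero]
    rw [this, add_assoc]
  calc sm (fun a => p a * u3T p a)
      ≤ sm fun a1 => sm fun a2 => sm fun a3 =>
        (b ^ 4 * ind (a1 ∈ {x | th ≤ p x} ∧ a2 ∈ {x | th ≤ p x} ∧ a3 ∈ {x | th ≤ p x} ∧
        a1 + a2 + a3 ∈ {x | th ≤ p x}) + (l a1 * (p a2 * p a3 * p (a1 + a2 + a3)) +
        l a2 * (p a1 * p a3 * p (a1 + a2 + a3)) +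
        l a3 * (p a2 * p a1 * p (a1 + a2 + a3)) + l (a1 + a2 + a3) * (p a2 * p a3 * p a1))) := by
        rw [base]
        exact sm_mono fun a1 => sm_mono fun a2 => sm_mono fun a3 => pt _ _ _ _
    _ = _ := by
        simp only [sm_add]
        rw [s2, s3, s4, ← base l]
        simp only [sm_mul_left, energy]
        ring

omit [Module F A] in
lemma u3_energy_le (P : Set A) : energy P ≤ cnt P ^ 3 := by
  have : cnt P ^ 3 = sm fun a => sm fun b => sm fun c => ind (a ∈ P) * ind (b ∈ P) * ind (c ∈ P) := by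
    simp only [sm_mul_left, sm_mul_right, cnt]; ring
  rw [this]
  refine sm_mono fun a => sm_mono fun b => sm_mono fun c => ?_
  rw [← ind_and, ← ind_and]
  exact ind_mono fun h => ⟨⟨h.1, h.2.1⟩, h.2.2.1⟩

end u3a

/-- energy of the heavy set -/
theorem u3_energy (u s : ℝ) (hu : 0 < u) (hs : 0 < s) : ∃ th c0 : ℝ, 0 < th ∧ 0 < c0 ∧
    ∀ (A : Type) [AddCommGroup A] [Module F A] [Finite A] (β : A → A → F) (c : A → ℝ),
      U3Prg β → (sm fun Z => c Z ^ 2) ≤ s → u * Nat.card A ≤ (sm fun x => u3p β c x ^ 2) →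
      c0 * (Nat.card A : ℝ) ^ 3 ≤ energy {x | th ≤ u3p β c x} ∧
        th * cnt {x | th ≤ u3p β c x} ≤ s ^ 2 * Nat.card A := by
  obtain ⟨κ, hκ⟩ : ∃ κ, κ = u / (2 * s ^ 2) := ⟨_, rfl⟩
  have hκ0 : 0 < κ := by rw [hκ]; positivity
  obtain ⟨θ, hθ⟩ : ∃ θ, θ = κ ^ 2 * u / (16 * s ^ 7) := ⟨_, rfl⟩
  have hθ0 : 0 < θ := by rw [hθ]; positivity
  refine ⟨θ ^ 2, κ ^ 2 * u / (4 * s ^ 8), by positivity, by positivity, ?_⟩
  intro A _ _ _ β c h hc hbig
  have hN := card_pos' (α := A)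
  set N : ℝ := (Nat.card A : ℝ) with hNdef
  set p := u3p β c with hp
  have p0 : ∀ x, 0 ≤ p x := u3p_nonneg c
  have hc0 : 0 ≤ sm fun Z => c Z ^ 2 := sm_nonneg fun _ => sq_nonneg _
  have hc2 : (sm fun Z => c Z ^ 2) ^ 2 ≤ s ^ 2 := pow_le_pow_left₀ hc0 hc 2
  have p1 : ∀ x, p x ≤ s ^ 2 := fun x => (u3p_le c x).trans hc2
  have p2 : sm p ≤ s ^ 2 * N := by
    rw [hp, h.sm_p, mul_comm]; exact mul_le_mul_of_nonneg_right hc2 hN.le
  have p4 : κ ^ 2 * u / 2 * N ≤ sm fun x => p x ^ 4 := by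
    have pt : ∀ x, κ ^ 2 * p x ^ 2 ≤ κ ^ 3 * p x + p x ^ 4 := fun x => by
      have := p0 x
      rcases le_total (p x) κ with h1 | h1
      · have : κ ^ 2 * p x ^ 2 ≤ κ ^ 3 * p x := by
          calc κ ^ 2 * p x ^ 2 = κ ^ 2 * p x * p x := by ring
            _ ≤ κ ^ 2 * p x * κ := by gcongr
            _ = _ := by ring
        nlinarith [pow_nonneg (p0 x) 4]
      · have : κ ^ 2 * p x ^ 2 ≤ p x ^ 2 * p x ^ 2 := by gcongr
        nlinarith [mul_nonneg (pow_nonneg hκ0.le 3) (p0 x)]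
    have h1 := sm_mono pt
    rw [sm_add, sm_mul_left, sm_mul_left] at h1
    have h2 : κ ^ 3 * sm p ≤ κ ^ 3 * (s ^ 2 * N) := by gcongr
    have h3 : κ ^ 2 * (u * N) ≤ κ ^ 2 * sm fun x => p x ^ 2 := by gcongr
    have h4 : κ ^ 3 * (s ^ 2 * N) = κ ^ 2 * u / 2 * N := by
      have : κ * s ^ 2 = u / 2 := by rw [hκ]; field_simp
      calc κ ^ 3 * (s ^ 2 * N) = κ ^ 2 * (κ * s ^ 2) * N := by ring
        _ = _ := by rw [this]; ring
    nlinarith
  have p6 : (sm fun x => p x ^ 6) ≤ s ^ 12 * N := by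
    calc (sm fun x => p x ^ 6) ≤ sm fun x => (s ^ 2) ^ 5 * p x := sm_mono fun x => by
          have := p0 x; have := p1 x
          calc p x ^ 6 = p x ^ 5 * p x := by ring
            _ ≤ _ := by gcongr
      _ = (s ^ 2) ^ 5 * sm p := sm_mul_left _ _
      _ ≤ (s ^ 2) ^ 5 * (s ^ 2 * N) := by gcongr
      _ = _ := by ring
  have pl : (sm fun a => (ind (¬ θ ^ 2 ≤ p a) * p a) ^ 2) ≤ θ ^ 2 * (s ^ 2 * N) := by
    calc _ ≤ sm fun a => θ ^ 2 * p a := sm_mono fun a => by
          have := p0 a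
          by_cases h1 : θ ^ 2 ≤ p a
          · rw [ind_neg (not_not.2 h1), zero_mul, zero_pow two_ne_zero]; positivity
          · rw [ind_pos h1, one_mul, sq (p a)]
            exact mul_le_mul_of_nonneg_right (le_of_lt (not_le.1 h1)) this
      _ = θ ^ 2 * sm p := sm_mul_left _ _
      _ ≤ _ := by gcongr
  have hL : (sm fun a => ind (¬ θ ^ 2 ≤ p a) * p a * u3T p a) ≤ θ * s ^ 7 * N ^ 3 := by
    have h1 := sm_cs (fun a => ind (¬ θ ^ 2 ≤ p a) * p a) (u3T p)
    have h2 : sm (fun a => u3T p a ^ 2) ≤ N ^ 4 * (s ^ 12 * N) := by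
      rw [hp, h.T_sq]; gcongr
    have h3 : (sm fun a => ind (¬ θ ^ 2 ≤ p a) * p a * u3T p a) ^ 2 ≤ (θ * s ^ 7 * N ^ 3) ^ 2 :=
      calc _ ≤ _ := h1
        _ ≤ θ ^ 2 * (s ^ 2 * N) * (N ^ 4 * (s ^ 12 * N)) :=
          mul_le_mul pl h2 (sm_nonneg fun _ => sq_nonneg _) (by positivity)
        _ = _ := by ring
    exact (abs_le_of_sq_le_sq' h3 (by positivity)).2
  have hH := u3_heavy p p0 (s ^ 2) (θ ^ 2) p1
  have hLa : sm (fun a => p a * u3T p a) = N ^ 2 * sm fun y => p y ^ 4 := h.La_eq c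
  refine ⟨?_, ?_⟩
  · have h1 : N ^ 2 * (κ ^ 2 * u / 2 * N) ≤ N ^ 2 * sm fun y => p y ^ 4 := by gcongr
    have h2 : 4 * (θ * s ^ 7 * N ^ 3) = κ ^ 2 * u / 4 * N ^ 3 := by rw [hθ]; field_simp; ring
    have h3 : κ ^ 2 * u / 4 * N ^ 3 ≤ s ^ 8 * energy {x | θ ^ 2 ≤ p x} := by nlinarith
    rw [div_mul_eq_mul_div, div_le_iff₀ (by positivity)]
    nlinarith
  · refine le_trans ?_ p2
    rw [cnt, ← sm_mul_left]
    refine sm_mono fun x => ?_
    by_cases h1 : θ ^ 2 ≤ p x
    · rw [ind_pos (show x ∈ {x | θ ^ 2 ≤ p x} from h1), mul_one]; exact h1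
    · rw [ind_neg (show ¬ x ∈ {x | θ ^ 2 ≤ p x} from h1), mul_zero]; exact p0 x

/-- a subspace of size about `|A|` that holds about `|A|` heavy points -/
theorem u3_struct (hBF : BF) (u s : ℝ) (hu : 0 < u) (hs : 0 < s) :
    ∃ th C lam : ℝ, 0 < th ∧ 0 < lam ∧
    ∀ (A : Type) [AddCommGroup A] [Module F A] [Finite A] (β : A → A → F) (c : A → ℝ),
      U3Prg β → (sm fun Z => c Z ^ 2) ≤ s → u * Nat.card A ≤ (sm fun x => u3p β c x ^ 2) →
      ∃ H : Submodule F (A × A), (Nat.card H : ℝ) ≤ C * Nat.card A ∧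
        lam * Nat.card A ≤ cnt {x | th ≤ u3p β c x ∧ x ∈ H} := by
  obtain ⟨th, c0, hth, hc0, hE⟩ := u3_energy u s hu hs
  obtain ⟨C, hC, hB⟩ := hBF (c0 * th ^ 3 / s ^ 6) (by positivity)
  refine ⟨th, C * (s ^ 2 / th), min c0 1 / C, hth, by positivity, ?_⟩
  intro A _ _ _ β c h hc hbig
  obtain ⟨h1, h2⟩ := hE A β c h hc hbig
  have hN := card_pos' (α := A)
  set N : ℝ := (Nat.card A : ℝ)
  set P : Set (A × A) := {x | th ≤ u3p β c x} with hP
  have P0 := cnt_nonneg P
  have h3 := u3_energy_le P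
  have h4 : min c0 1 * N ≤ cnt P := by
    have m0 : 0 < min c0 1 := lt_min hc0 one_pos
    have m1 : min c0 1 ^ 3 ≤ c0 := by
      calc min c0 1 ^ 3 ≤ min c0 1 ^ 1 :=
            pow_le_pow_of_le_one m0.le (min_le_right _ _) (by norm_num)
        _ ≤ c0 := by rw [pow_one]; exact min_le_left _ _
    have : (min c0 1 * N) ^ 3 ≤ cnt P ^ 3 := by
      rw [mul_pow]
      exact le_trans (mul_le_mul_of_nonneg_right m1 (by positivity)) (h1.trans h3)
    exact le_of_pow_le_pow_left₀ (by norm_num) P0 this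
  have hne : P.Nonempty := by
    by_contra hne
    rw [Set.not_nonempty_iff_eq_empty] at hne
    have : cnt P = 0 := by rw [cnt_eq_ncard, hne]; simp
    have : 0 < min c0 1 * N := mul_pos (lt_min hc0 one_pos) hN
    linarith
  have h5 : cnt P ≤ s ^ 2 / th * N := by
    rw [div_mul_eq_mul_div, le_div_iff₀ hth, mul_comm]; exact h2
  obtain ⟨H, hH1, hH2⟩ := hB (A × A) P hne (by
    refine le_trans ?_ h1
    calc c0 * th ^ 3 / s ^ 6 * cnt P ^ 3 ≤ c0 * th ^ 3 / s ^ 6 * (s ^ 2 / th * N) ^ 3 := by gcongr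
      _ = _ := by field_simp)
  refine ⟨H, hH1.trans ?_, ?_⟩
  · rw [mul_assoc]; gcongr
  · rw [div_mul_eq_mul_div, div_le_iff₀ hC, mul_comm _ C]
    exact h4.trans hH2

end SD
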