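import Pool.Agent.Lib.MP_ecee09_co.SD.U3a
import Pool.Agent.Lib.MP_ecee09_co.SD.FamB

/-! Section 6, second part: algebra of fields, the weight `W0` as a Fourier coefficient. -/

namespace SD

open Module

section alg
variable {n : ℕ} {E : Type} [AddCommGroup E] [Module F E]

lemma u3_lin_single {V : Type} [AddCommGroup V] [Module F V] (Z : Fin n → V) (i : Fin n) :
    lin Z (Pi.single i 1) = Z i := by
  simp [lin, Fintype.linearCombination_apply_single]

lemma u3_lin_apply {V : Type} [AddCommGroup V] [Module F V] (Z : Fin n → V) (x : Fk n) :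
    lin Z x = ∑ i, x i • Z i := by
  simp [lin, Fintype.linearCombination_apply]

lemma u3_lin_add {V : Type} [AddCommGroup V] [Module F V] (Z Z' : Fin n → V) (x : Fk n) :
    lin (Z + Z') x = lin Z x + lin Z' x := by
  simp [u3_lin_apply, Finset.sum_add_distrib]

lemma u3_lin_zero {V : Type} [AddCommGroup V] [Module F V] (x : Fk n) :
    lin (0 : Fin n → V) x = 0 := by
  simp [u3_lin_apply]

lemma u3_lin_ext {V : Type} [AddCommGroup V] [Module F V] (T : Fk n →ₗ[F] V) :
    lin (fun i => T (Pi.single i 1)) = T := by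
  refine LinearMap.pi_ext' fun i => LinearMap.ext_ring ?_
  simp [u3_lin_single]

lemma u3_QZ_apply (q : QF E) (Z : Fin n → E) (x : Fk n) (e : E) :
    QZ q Z (x, e) = q (lin Z x + e) := rfl

lemma u3_polar_addr (q : QF E) (x y y' : E) : QuadraticMap.polar q x (y + y') =
    QuadraticMap.polar q x y + QuadraticMap.polar q x y' := QuadraticMap.polar_add_right _ _ _ _

lemma u3_tau_apply (b : Fin n → E) (Q : QF (Fk n × E)) :
    tau b Q = ∑ i, QuadraticMap.polar Q (Pi.single i 1, 0) (0, b i) := by
  simp only [tau, LinearMap.sum_apply, LinearMap.add_apply, ev_apply, polar_eq, Prod.mk_add_mk,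
    add_zero, zero_add]

lemma u3_tau_add (b b' : Fin n → E) : tau (b + b') = tau b + tau b' := by
  ext Q
  simp only [LinearMap.add_apply, u3_tau_apply, ← Finset.sum_add_distrib]
  refine Finset.sum_congr rfl fun i _ => ?_
  rw [← QuadraticMap.polar_add_right]
  simp

lemma u3_tau_QZ (q : QF E) (b Z : Fin n → E) : tau b (QZ q Z) = brk q b Z := by
  rw [u3_tau_apply, brk]
  refine Finset.sum_congr rfl fun i _ => ?_
  rw [QZ, polar_comp', QuadraticMap.polar_comm]
  simp [u3_lin_single]

lemma u3_fst_tau (b : Fin n → E) : push (LinearMap.fst F (Fk n) E) (tau b) = 0 := by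
  ext Q
  rw [push_apply, u3_tau_apply]
  simp [polar_comp']

lemma u3_fst_inr (a : G E) :
    push (LinearMap.fst F (Fk n) E) (push (LinearMap.inr F (Fk n) E) a) = 0 := by
  rw [← push_comp, LinearMap.fst_comp_inr, push_zero]

lemma u3_fst_inl {U : Type} [AddCommGroup U] [Module F U] (Φ : U →ₗ[F] Fk n) (B : G U) :
    push (LinearMap.fst F (Fk n) E) (push ((LinearMap.inl F (Fk n) E).comp Φ) B) = push Φ B := by
  rw [← push_comp, ← LinearMap.comp_assoc, LinearMap.fst_comp_inl, LinearMap.id_comp]

lemma u3_QZ_inr (q : QF E) (Z : Fin n → E) : (QZ q Z).comp (LinearMap.inr F (Fk n) E) = q := by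
  ext e
  simp [QZ]

/-- the images of the basis vectors -/
def u3y {m : ℕ} (Φ : Hom m (Fk n)) : Fin m → Fk n := fun a => Φ (Pi.single a 1)

/-- `Z Phi` -/
def u3zp {m : ℕ} (Φ : Hom m (Fk n)) (Z : Fin n → E) : Fin m → E := fun a => lin Z (u3y Φ a)

lemma u3_lin_zp {m : ℕ} (Φ : Hom m (Fk n)) (Z : Fin n → E) :
    lin (u3zp Φ Z) = (lin Z).comp Φ := u3_lin_ext ((lin Z).comp Φ)

lemma u3_QZ_inl {m : ℕ} (q : QF E) (Z : Fin n → E) (Φ : Hom m (Fk n)) :
    (QZ q Z).comp ((LinearMap.inl F (Fk n) E).comp Φ) = q.comp (lin (u3zp Φ Z)) := by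
  ext x
  simp [QZ, u3_lin_zp]

lemma u3_brk_addl {ι : Type} [Fintype ι] (q : QF E) (b b' Z : ι → E) :
    brk q (b + b') Z = brk q b Z + brk q b' Z := by
  simp only [brk, Pi.add_apply, QuadraticMap.polar_add_left, Finset.sum_add_distrib]

lemma u3_prg {ι : Type} [Fintype ι] {q : QF E} (h : ND q) : U3Prg (brk (ι := ι) q) where
  addl := u3_brk_addl q
  symm x y := by simp only [brk, QuadraticMap.polar_comm q (x _)]
  nd x hx := by
    classical
    funext i
    refine h _ fun e => ?_
    have := hx (Pi.single i e)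
    rw [brk, Finset.sum_eq_single i (fun j _ hj => by simp [hj]) (by simp)] at this
    rw [QuadraticMap.polar_comm]
    simpa using this

lemma u3_brk_star {κ : Type} [Fintype κ] (q : QF E) (y : κ → Fk n) (t : κ → E) (Z : Fin n → E) :
    brk q (star y t) Z = brk q t fun a => lin Z (y a) := by
  have e : ∀ x y, QuadraticMap.polar q x y = QuadraticMap.polarBilin q x y := fun _ _ => rfl
  simp only [brk, star, u3_lin_apply, e, map_sum, LinearMap.sum_apply, map_smul,
    LinearMap.smul_apply]
  exact Finset.sum_comm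

lemma u3_star_addl {κ : Type} [Fintype κ] (y y' : κ → Fk n) (t : κ → E) :
    star (y + y') t = star y t + star y' t := by
  funext i; simp [star, add_smul, Finset.sum_add_distrib]

lemma u3_star_addr {κ : Type} [Fintype κ] (y : κ → Fk n) (t t' : κ → E) :
    star y (t + t') = star y t + star y t' := by
  funext i; simp [star, Finset.sum_add_distrib]

lemma u3_star_comp {m J : ℕ} (Φ : Hom m (Fk n)) (t : Fin J → Fk m) (f : Fin J → E) :
    star (fun l => Φ (t l)) f = star (u3y Φ) (star t f) := by
  funext i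
  have e : ∀ l, Φ (t l) = ∑ a, t l a • u3y Φ a := fun l => by
    rw [← u3_lin_apply]; exact (LinearMap.congr_fun (u3_lin_ext Φ) (t l)).symm
  simp only [star, e, Finset.sum_apply, Pi.smul_apply, smul_eq_mul, Finset.sum_smul,
    Finset.smul_sum, smul_smul]
  rw [Finset.sum_comm]
  exact Finset.sum_congr rfl fun a _ => Finset.sum_congr rfl fun l _ => by rw [mul_comm]

lemma u3_star_bij {J : ℕ} (f : Basis (Fin J) F E) :
    Function.Bijective fun y : Fin J → Fk n => star y f := by
  refine Function.bijective_iff_has_inverse.2 ⟨fun b l i => f.repr (b i) l, fun y => ?_, fun b => ?_⟩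
  · funext l i
    simp [star, Finsupp.single_apply]
  · funext i
    simp [star]

/-- the element of `E^n` attached to the labels `v` -/
def u3z {J : ℕ} (f : Fin J → E) (v : Fin J → Dual F (Fk n)) : Fin n → E :=
  star (fun l i => v l (Pi.single i 1)) f

lemma u3_lin_z {J : ℕ} (f : Fin J → E) (v : Fin J → Dual F (Fk n)) (x : Fk n) :
    lin (u3z f v) x = ∑ l, v l x • f l := by
  have e : ∀ l, v l x = ∑ i, x i * v l (Pi.single i 1) := fun l => by
    conv_lhs => rw [← u3_lin_ext (v l), u3_lin_apply]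
    rfl
  simp only [u3_lin_apply, u3z, star, e, Finset.sum_smul, Finset.smul_sum, smul_smul]
  exact Finset.sum_comm

lemma u3z_add {J : ℕ} (f : Fin J → E) (v v' : Fin J → Dual F (Fk n)) :
    u3z f (v + v') = u3z f v + u3z f v' := by
  rw [u3z, u3z, u3z, ← u3_star_addl]; rfl

lemma u3z_bij {J : ℕ} (f : Basis (Fin J) F E) :
    Function.Bijective fun v : Fin J → Dual F (Fk n) => u3z f v := by
  have h : Function.Bijective fun (v : Fin J → Dual F (Fk n)) (l : Fin J) (i : Fin n) =>
      v l (Pi.single i 1) :=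
    Function.bijective_iff_has_inverse.2 ⟨fun y l => lin (y l), fun v => funext fun l =>
      u3_lin_ext (v l), fun y => funext fun l => funext fun i => u3_lin_single _ _⟩
  exact (u3_star_bij f).comp h

/-- particles as points of `E^n x E^n` -/
def u3e {J : ℕ} (f : Fin J → E) : Pt J (Fk n) →ₗ[F] (Fin n → E) × (Fin n → E) :=
  linOf (fun p => (star p.2 f, u3z f p.1)) fun p p' =>
    Prod.ext (u3_star_addl p.2 p'.2 f) (u3z_add f p.1 p'.1)

lemma u3e_apply {J : ℕ} (f : Fin J → E) (p : Pt J (Fk n)) : u3e f p = (star p.2 f, u3z f p.1) :=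
  rfl

lemma u3e_bij {J : ℕ} (f : Basis (Fin J) F E) : Function.Bijective (u3e (n := n) f) :=
  ((u3_star_bij f).prodMap (u3z_bij f)).comp Prod.swap_bijective

lemma u3_mv {V : Type} [AddCommGroup V] [Module F V] [Finite V] (M : G V) (v y : Dual F V) :
    y (mv M v) = M (QuadraticMap.linMulLin y v) := by
  rw [mv, Module.apply_evalEquiv_symm_apply]; rfl

/-- `M zeta` -/
noncomputable def u3m {J : ℕ} (f : Fin J → E) (M : G (Fk n)) (v : Fin J → Dual F (Fk n)) :
    Fin n → E := star (fun l => mv M (v l)) f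

lemma u3_QZ_sum {J : ℕ} (q : QF E) (f : Fin J → E) (v : Fin J → Dual F (Fk n)) (Z : Fin n → E) :
    QZ q (Z + u3z f v) + QZ q Z = QZ q 0 + QZ q (u3z f v) +
      (∑ l, QuadraticMap.linMulLin ((QuadraticMap.polarBilin q (f l)).comp (lin Z)) (v l)).comp
        (LinearMap.fst F (Fk n) E) := by
  ext ⟨x, e⟩
  have e1 : (∑ l, QuadraticMap.linMulLin ((QuadraticMap.polarBilin q (f l)).comp (lin Z)) (v l)) x =
      QuadraticMap.polar q (lin (u3z f v) x) (lin Z x) := by
    have e : ∀ x y, QuadraticMap.polar q x y = QuadraticMap.polarBilin q x y := fun _ _ => rfl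
    rw [u3_lin_z, e, map_sum, LinearMap.sum_apply, sum_apply]
    refine Finset.sum_congr rfl fun l _ => ?_
    simp [QuadraticMap.linMulLin_apply, mul_comm]
  simp only [add_apply, u3_QZ_apply, QuadraticMap.comp_apply, LinearMap.fst_apply, e1,
    u3_lin_add, u3_lin_zero, zero_add]
  set a := lin Z x
  set z := lin (u3z f v) x
  rw [show a + z + e = z + (a + e) by abel, map_add2 q z (a + e), map_add2 q z e, u3_polar_addr]
  have h1 := F_add_self (q (a + e))
  have h2 := F_add_self (q e)
  linear_combination h1 - h2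

lemma u3_chi_pair {J : ℕ} (q : QF E) (f : Fin J → E) (v : Fin J → Dual F (Fk n))
    (Z : Fin n → E) (M : G (Fk n × E)) :
    chi (QZ q (Z + u3z f v)) M * chi (QZ q Z) M = chi (QZ q 0 + QZ q (u3z f v)) M *
      sg (brk q (u3m f (push (LinearMap.fst F (Fk n) E) M) v) Z) := by
  rw [← chi_add_left, u3_QZ_sum, chi_add_left]
  congr 1
  rw [← chi_push, chi, map_sum, u3m, u3_brk_star, brk]
  congr 1
  exact Finset.sum_congr rfl fun l _ => by rw [← u3_mv]; rfl

end alg

section fld
variable {n : ℕ} {E : Type} [AddCommGroup E] [Module F E] [Finite E]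

omit [Finite E] in
lemma u3_fld_tau (q : QF E) (c : (Fin n → E) → ℝ) (M : G (Fk n × E)) (b : Fin n → E) :
    fld q c (M + tau b) = sm fun Z => c Z * chi (QZ q Z) M * sg (brk q b Z) :=
  sm_congr fun Z => by rw [chi_add, chi, chi, u3_tau_QZ, mul_assoc]

lemma u3_fld_inr (q : QF E) (c : (Fin n → E) → ℝ) (M : G (Fk n × E)) (a : G E) :
    fld q c (M + push (LinearMap.inr F (Fk n) E) a) = fld q c M * chi q a := by
  rw [fld, fld, ← sm_mul_right]
  exact sm_congr fun Z => by rw [chi_add, chi_push, u3_QZ_inr, mul_assoc]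

omit [Finite E] in
lemma u3_QZ_inj {q : QF E} (h : ND q) {Z Z' : Fin n → E} (e : QZ q Z = QZ q Z') : Z = Z' := by
  refine add_eq_zero2.1 ((u3_prg h).nd _ fun b => ?_)
  rw [u3_brk_addl, (u3_prg h).symm Z, (u3_prg h).symm Z', ← u3_tau_QZ, ← u3_tau_QZ, e, F_add_self]

lemma u3_fld_sq {q : QF E} (h : ND q) (c : (Fin n → E) → ℝ) :
    (sm fun Z => c Z ^ 2) = av fun M => fld q c M ^ 2 := by
  simp only [fld, sq, sm_mul_sm]
  rw [av_sm_comm]
  refine sm_congr fun Z => ?_
  rw [av_sm_comm, ← sm_ind_eq' Z fun Z' => c Z * c Z']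
  refine sm_congr fun Z' => ?_
  rw [av_congr (g := fun M => (c Z * c Z') * (chi (QZ q Z) M * chi (QZ q Z') M)) fun M => by ring,
    av_mul_left, av_chi_mul, mul_comm, ind_congr ⟨u3_QZ_inj h, fun e => by rw [e]⟩]

/-- the Fourier coefficient of the derivative along the `tau` orbit is `W0` up to sign -/
lemma u3_coef_W {J : ℕ} {q : QF E} (h : ND q) (c : (Fin n → E) → ℝ) (f : Fin J → E)
    (v : Fin J → Dual F (Fk n)) (M : G (Fk n × E)) (g : Fin n → E) :
    (av fun b => fld q c (M + tau b) * fld q c (M + tau b + tau g) * sg (brk q b (u3z f v))) ^ 2 =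
      u3p (brk q) c (g + u3m f (push (LinearMap.fst F (Fk n) E) M) v, u3z f v) := by
  have P := u3_prg (ι := Fin n) h
  set ζ := u3z f v with hζ
  have e1 : ∀ b, fld q c (M + tau b) * fld q c (M + tau b + tau g) * sg (brk q b ζ) =
      sm fun Z => sm fun Z' => c Z' * chi (QZ q Z') M * (c Z * chi (QZ q Z) M * sg (brk q g Z)) *
        sg (brk q b (Z' + Z + ζ)) := by
    intro b
    rw [add_assoc, ← u3_tau_add, u3_fld_tau, u3_fld_tau, mul_comm (sm _), sm_mul_sm,
      ← sm_mul_right]
    refine sm_congr fun Z => ?_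
    rw [← sm_mul_right]
    refine sm_congr fun Z' => ?_
    simp only [P.addl, P.addr, sg_add]; ring
  have e2 : (av fun b => fld q c (M + tau b) * fld q c (M + tau b + tau g) * sg (brk q b ζ)) =
      chi (QZ q 0 + QZ q ζ) M *
        u3W (brk q) c (g + u3m f (push (LinearMap.fst F (Fk n) E) M) v, ζ) := by
    simp only [e1]
    rw [av_sm_comm, u3W, ← sm_mul_left]
    refine sm_congr fun Z => ?_
    rw [av_sm_comm]
    have e3 : ∀ Z', (av fun b => c Z' * chi (QZ q Z') M * (c Z * chi (QZ q Z) M * sg (brk q g Z)) *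
        sg (brk q b (Z' + Z + ζ))) = ind (Z' = Z + ζ) *
          (c Z' * chi (QZ q Z') M * (c Z * chi (QZ q Z) M * sg (brk q g Z))) := fun Z' => by
      rw [av_mul_left, P.av_orth, mul_comm, add_assoc, ind_congr add_eq_zero2]
    simp only [e3]
    rw [sm_ind_eq, P.addl, sg_add]
    have := u3_chi_pair q f v Z M
    rw [← hζ] at this
    linear_combination (c Z * c (Z + ζ) * sg (brk q g Z)) * this
  rw [e2, mul_pow, chi_sq, one_mul, u3p]

/-- fourth moment of the Fourier transform -/
lemma U3Prg.u2 {A : Type} [AddCommGroup A] [Module F A] [Finite A] {β : A → A → F} (P : U3Prg β)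
    (k1 k2 : A → ℝ) :
    (av fun t' => (av fun t => k1 t * k2 (t + t')) ^ 2) =
      sm fun w => (av fun t => k1 t * sg (β t w)) ^ 2 * (av fun t => k2 t * sg (β t w)) ^ 2 := by
  have := pair_parseval β P.addl P.addr P.nd rfl (fun t' => av fun t => k1 t * k2 (t + t'))
    (fun t' => av fun t => k1 t * k2 (t + t'))
  simp only [sq]
  rw [← this]
  refine sm_congr fun w => ?_
  have e : (av fun t' => (av fun t => k1 t * k2 (t + t')) * sg (β t' w)) =
      (av fun t => k1 t * sg (β t w)) * av fun t => k2 t * sg (β t w) := by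
    simp only [← av_mul_right]
    rw [av_comm]
    refine av_congr fun t => ?_
    rw [← av_add_left (fun s => k2 s * sg (β s w)) t, ← av_mul_left]
    refine av_congr fun t' => ?_
    rw [P.addl, sg_add]
    have := sg_mul_self (β t w)
    linear_combination (-(k1 t * k2 (t + t') * sg (β t' w))) * this
  rw [e]; ring

lemma u3_box3 {J : ℕ} {q : QF E} (h : ND q) (c : (Fin n → E) → ℝ) (f : Basis (Fin J) F E) :
    box3 (fld q c) * Nat.card (Fin n → E) = sm fun x => u3p (brk q) c x ^ 2 := by
  have P := u3_prg (ι := Fin n) h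
  set K := fld q c with hK
  -- the inner average over the orbit
  have e1 : ∀ (M : G (Fk n × E)) (g : Fin n → E),
      (av fun b => av fun h2 : Fin n → E => av fun h3 : Fin n → E =>
        K (M + tau b) * K (M + tau b + tau g) * K (M + tau b + tau h2) *
          K (M + tau b + tau g + tau h2) *
        (K (M + tau b + tau h3) * K (M + tau b + tau g + tau h3) * K (M + tau b + tau h2 + tau h3) *
          K (M + tau b + tau g + tau h2 + tau h3))) =
      sm fun v : Fin J → Dual F (Fk n) =>
        u3p (brk q) c (g + u3m f (push (LinearMap.fst F (Fk n) E) M) v, u3z f v) ^ 2 := by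
    intro M g
    set k : (Fin n → E) → ℝ := fun b => K (M + tau b) * K (M + tau b + tau g) with hk
    have e2 := P.u2 k k
    have e3 : (sm fun w => (av fun t => k t * sg (brk q t w)) ^ 2 *
        (av fun t => k t * sg (brk q t w)) ^ 2) = sm fun v : Fin J → Dual F (Fk n) =>
        u3p (brk q) c (g + u3m f (push (LinearMap.fst F (Fk n) E) M) v, u3z f v) ^ 2 := by
      rw [← sm_equiv (Equiv.ofBijective _ (u3z_bij f))]
      refine sm_congr fun v => ?_
      rw [← u3_coef_W h c f v M g, ← sq]; rfl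
    rw [← e3, ← e2, av_comm]
    refine av_congr fun h2 => ?_
    rw [sq, av_mul_av]
    refine av_congr fun b => ?_
    rw [← av_add_left (fun t => k b * k (b + h2) * (k t * k (t + h2))) b]
    refine av_congr fun h3 => ?_
    simp only [hk, u3_tau_add]
    rw [show M + (tau b + tau h2) + tau g = M + tau b + tau g + tau h2 by abel,
      show M + (tau b + tau h3) + tau g = M + tau b + tau g + tau h3 by abel,
      show M + (tau b + tau h3 + tau h2) + tau g = M + tau b + tau g + tau h2 + tau h3 by abel,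
      show M + (tau b + tau h3 + tau h2) = M + tau b + tau h2 + tau h3 by abel,
      ← add_assoc, ← add_assoc]
    ring
  have e4 : box3 K = av fun M => av fun g : Fin n → E => sm fun v : Fin J → Dual F (Fk n) =>
      u3p (brk q) c (g + u3m f (push (LinearMap.fst F (Fk n) E) M) v, u3z f v) ^ 2 := by
    rw [box3, ← av_shift _ (fun b : Fin n → E => tau b)]
    refine av_congr fun M => ?_
    rw [av_comm]
    exact av_congr fun g => e1 M g
  have e5 : ∀ M : G (Fk n × E), (av fun g : Fin n → E => sm fun v : Fin J → Dual F (Fk n) =>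
      u3p (brk q) c (g + u3m f (push (LinearMap.fst F (Fk n) E) M) v, u3z f v) ^ 2) =
      (sm fun x => u3p (brk q) c x ^ 2) / Nat.card (Fin n → E) := by
    intro M
    rw [av_def, sm_comm, sm_prod, sm_comm (fun x y => u3p (brk q) c (x, y) ^ 2),
      ← sm_equiv (Equiv.ofBijective _ (u3z_bij f))]
    congr 1
    exact sm_congr fun v => sm_add_right (fun g => u3p (brk q) c (g, u3z f v) ^ 2) _
  rw [e4]
  simp only [e5]
  rw [av_const]
  have := card_pos' (α := Fin n → E)
  field_simp

end fld

end SD
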