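import Pool.Agent.Lib.MP_ecee09_co.SD.U3b
import Pool.Agent.Lib.MP_ecee09_co.SD.Fld

/-! Section 6, third part: heavy particles are present with positive probability; a present heavy
particle killed by the label forces a large fourth moment of the class sums `S_w`. -/

namespace SD

open Module

variable {n m J : ℕ} {E : Type} [AddCommGroup E] [Module F E] [Finite E]

/-- the class sum `S_w` of a function along the orbit of the probe -/
noncomputable def u3S (q : QF E) (K : G (Fk n × E) → ℝ) (Φ : Hom m (Fk n)) (w : Fin m → E)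
    (M : G (Fk n × E)) : ℝ :=
  av fun t : Fin m → E => K (M + tau (star (u3y Φ) t)) * sg (brk q t w)

lemma u3S_tau {q : QF E} (h : ND q) (K : G (Fk n × E) → ℝ) (Φ : Hom m (Fk n)) (w t0 : Fin m → E)
    (M : G (Fk n × E)) :
    u3S q K Φ w (M + tau (star (u3y Φ) t0)) = u3S q K Φ w M * sg (brk q t0 w) := by
  have P := u3_prg (ι := Fin m) h
  rw [u3S, u3S, ← av_add_left (fun t => K (M + tau (star (u3y Φ) t)) * sg (brk q t w)) t0,
    ← av_mul_right]
  refine av_congr fun t => ?_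
  rw [u3_star_addr, u3_tau_add, add_assoc, P.addl, sg_add]
  have := sg_mul_self (brk q t0 w)
  linear_combination (-(K (M + (tau (star (u3y Φ) t0) + tau (star (u3y Φ) t))) *
    sg (brk q t w))) * this

lemma u3S_inr (q : QF E) (c : (Fin n → E) → ℝ) (Φ : Hom m (Fk n)) (w : Fin m → E)
    (M : G (Fk n × E)) (a : G E) :
    u3S q (fld q c) Φ w (M + push (LinearMap.inr F (Fk n) E) a) =
      u3S q (fld q c) Φ w M * chi q a := by
  rw [u3S, u3S, ← av_mul_right]
  refine av_congr fun t => ?_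
  rw [add_right_comm, u3_fld_inr]; ring

lemma u3S_eq {q : QF E} (h : ND q) (c : (Fin n → E) → ℝ) (Φ : Hom m (Fk n)) (w : Fin m → E)
    (M : G (Fk n × E)) :
    u3S q (fld q c) Φ w M = sm fun Z => ind (u3zp Φ Z = w) * (c Z * chi (QZ q Z) M) := by
  have P := u3_prg (ι := Fin m) h
  simp only [u3S, u3_fld_tau, ← sm_mul_right]
  rw [av_sm_comm]
  refine sm_congr fun Z => ?_
  rw [av_congr (g := fun t => (c Z * chi (QZ q Z) M) * sg (brk q t (u3zp Φ Z + w))) fun t => by
    rw [u3_brk_star, P.addr, sg_add, ← mul_assoc]; rfl]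
  rw [av_mul_left, P.av_orth, mul_comm, ind_congr add_eq_zero2]

lemma u3S_inl {q : QF E} (h : ND q) (c : (Fin n → E) → ℝ) (Φ : Hom m (Fk n)) (w : Fin m → E)
    (M : G (Fk n × E)) (B : G (Fk m)) :
    u3S q (fld q c) Φ w (M + push ((LinearMap.inl F (Fk n) E).comp Φ) B) =
      u3S q (fld q c) Φ w M * chi (q.comp (lin w)) B := by
  rw [u3S_eq h, u3S_eq h, ← sm_mul_right]
  refine sm_congr fun Z => ?_
  by_cases hz : u3zp Φ Z = w
  · rw [chi_add, chi_push, u3_QZ_inl, hz]; ring
  · rw [ind_neg hz]; ring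

lemma u3S_sumsq {q : QF E} (h : ND q) (K : G (Fk n × E) → ℝ) (Φ : Hom m (Fk n))
    (M : G (Fk n × E)) :
    (sm fun w => u3S q K Φ w M ^ 2) = av fun t : Fin m → E => K (M + tau (star (u3y Φ) t)) ^ 2 := by
  have P := u3_prg (ι := Fin m) h
  simp only [sq]
  exact pair_parseval (brk q) P.addl P.addr P.nd rfl (fun t => K (M + tau (star (u3y Φ) t)))
    (fun t => K (M + tau (star (u3y Φ) t)))

/-- the fourth moment of the class sums -/
noncomputable def u3Psi (q : QF E) (K : G (Fk n × E) → ℝ) (Φ : Hom m (Fk n))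
    (M : G (Fk n × E)) : ℝ := sm fun w => u3S q K Φ w M ^ 4

lemma u3Psi_inl {q : QF E} (h : ND q) (c : (Fin n → E) → ℝ) (Φ : Hom m (Fk n))
    (M : G (Fk n × E)) (B : G (Fk m)) :
    u3Psi q (fld q c) Φ (M + push ((LinearMap.inl F (Fk n) E).comp Φ) B) =
      u3Psi q (fld q c) Φ M := by
  refine sm_congr fun w => ?_
  rw [u3S_inl h, mul_pow, show (4 : ℕ) = 2 * 2 from rfl, pow_mul (chi _ _), chi_sq]; simp

/-- correlation along the probe orbit -/
noncomputable def u3r (K : G (Fk n × E) → ℝ) (Φ : Hom m (Fk n)) (M : G (Fk n × E))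
    (g : Fin n → E) : ℝ :=
  av fun t : Fin m → E => K (M + tau (star (u3y Φ) t)) * K (M + tau (star (u3y Φ) t) + tau g)

lemma u3r_sq {q : QF E} (h : ND q) (K : G (Fk n × E) → ℝ) (Φ : Hom m (Fk n))
    (M : G (Fk n × E)) (g : Fin n → E) :
    (av fun t' : Fin m → E => u3r K Φ M (g + star (u3y Φ) t') ^ 2) ≤
      (u3Psi q K Φ M + u3Psi q K Φ (M + tau g)) / 2 := by
  have P := u3_prg (ι := Fin m) h
  have e := P.u2 (fun t => K (M + tau (star (u3y Φ) t)))
    (fun t => K (M + tau g + tau (star (u3y Φ) t)))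
  have e1 : ∀ t', u3r K Φ M (g + star (u3y Φ) t') = av fun t => K (M + tau (star (u3y Φ) t)) *
      K (M + tau g + tau (star (u3y Φ) (t + t'))) := fun t' =>
    av_congr fun t => by
      rw [u3_star_addr, u3_tau_add, u3_tau_add]
      congr 2
      abel
  simp only [e1]
  rw [e, u3Psi, u3Psi, ← sm_add, ← sm_div]
  refine sm_mono fun w => ?_
  change u3S q K Φ w M ^ 2 * u3S q K Φ w (M + tau g) ^ 2 ≤ _
  nlinarith [sq_nonneg (u3S q K Φ w M ^ 2 - u3S q K Φ w (M + tau g) ^ 2)]

/-- a heavy particle is present and its labels are killed by `Phi` -/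
def u3Ev (q : QF E) (c : (Fin n → E) → ℝ) (f : Fin J → E) (th : ℝ) (Φ : Hom m (Fk n))
    (x : Gam J (Fk n)) : Prop :=
  ∃ p : Pt J (Fk n), th ≤ u3p (brk q) c (u3e f p) ∧ resid 0 p x = 0 ∧ ∀ i, (p.1 i).comp Φ = 0

omit [Finite E] in
lemma u3_resid {p : Pt J (Fk n)} {x : Gam J (Fk n)} :
    resid 0 p x = 0 ↔ p.2 = fun l => x.2 l + mv x.1 (p.1 l) := by
  rw [funext_iff, funext_iff]
  refine forall_congr' fun l => ?_
  simp only [resid, Pi.zero_apply, zero_smul, add_zero, add_eq_zero2]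
  rw [eq_comm, add_comm]

omit [Finite E] in
lemma u3_e_present (f : Fin J → E) {p : Pt J (Fk n)} {x : Gam J (Fk n)} (hp : resid 0 p x = 0) :
    u3e f p = (star x.2 f + u3m f x.1 p.1, u3z f p.1) := by
  rw [u3e_apply, u3_resid.1 hp, u3m, ← u3_star_addl]; rfl

lemma u3_key1 {q : QF E} (h : ND q) (c : (Fin n → E) → ℝ) (f : Fin J → E) (th : ℝ)
    (Φ : Hom m (Fk n)) (M : G (Fk n × E)) (β : Fin J → Fk n) :
    th * ind (u3Ev q c f th Φ (push (LinearMap.fst F (Fk n) E) M, β)) ≤
      av fun b => u3r (fld q c) Φ (M + tau b) (star β f) ^ 2 := by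
  have P := u3_prg (ι := Fin n) h
  by_cases hE : u3Ev q c f th Φ (push (LinearMap.fst F (Fk n) E) M, β)
  swap
  · rw [ind_neg hE, mul_zero]; exact av_nonneg fun _ => sq_nonneg _
  rw [ind_pos hE, mul_one]
  obtain ⟨p, h1, h2, h3⟩ := hE
  rw [u3_e_present f h2, ← u3_coef_W h c f p.1 M] at h1
  refine h1.trans ?_
  have hz : ∀ t, brk q (star (u3y Φ) t) (u3z f p.1) = 0 := fun t => by
    rw [u3_brk_star]
    have : (fun a => lin (u3z f p.1) (u3y Φ a)) = 0 := funext fun a => by
      rw [u3_lin_z]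
      refine Finset.sum_eq_zero fun l _ => ?_
      have : p.1 l (u3y Φ a) = 0 := LinearMap.congr_fun (h3 l) (Pi.single a 1)
      rw [this, zero_smul]
    rw [this, brk_zero_right]
  have e : (av fun b => fld q c (M + tau b) * fld q c (M + tau b + tau (star β f)) *
      sg (brk q b (u3z f p.1))) =
      av fun b => u3r (fld q c) Φ (M + tau b) (star β f) * sg (brk q b (u3z f p.1)) := by
    rw [← av_shift _ (fun t : Fin m → E => star (u3y Φ) t)]
    refine av_congr fun b => ?_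
    rw [u3r, ← av_mul_right]
    refine av_congr fun t => ?_
    rw [P.addl, hz, add_zero, u3_tau_add, ← add_assoc]
  change (av fun b => fld q c (M + tau b) * fld q c (M + tau b + tau (star β f)) *
      sg (brk q b (u3z f p.1))) ^ 2 ≤ _
  rw [e]
  refine (av_sq_le _).trans (le_of_eq (av_congr fun b => ?_))
  rw [mul_pow, sg_sq, mul_one]

lemma u3_key {q : QF E} (h : ND q) (c : (Fin n → E) → ℝ) (f : Basis (Fin J) F E) {th : ℝ}
    (Φ : Hom m (Fk n)) (M : G (Fk n × E)) (β : Fin J → Fk n) :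
    th * (av fun t : Fin J → Fk m =>
      ind (u3Ev q c f th Φ (push (LinearMap.fst F (Fk n) E) M, β + fun l => Φ (t l)))) ≤
      av fun b => u3Psi q (fld q c) Φ (M + tau b) := by
  rw [← av_mul_left]
  refine (av_mono fun t => u3_key1 h c f th Φ M _).trans ?_
  simp only [u3_star_addl, u3_star_comp]
  rw [av_surj (fun t : Fin J → Fk m => star t f) (fun a b => u3_star_addl a b f)
    (u3_star_bij f).2 (fun t' => av fun b =>
      u3r (fld q c) Φ (M + tau b) (star β f + star (u3y Φ) t') ^ 2), av_comm]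
  refine (av_mono fun b => u3r_sq h (fld q c) Φ (M + tau b) (star β f)).trans (le_of_eq ?_)
  rw [av_div, av_add]
  have := av_add_right (fun b => u3Psi q (fld q c) Φ (M + tau b)) (star β f)
  simp only [u3_tau_add, ← add_assoc] at this
  rw [this]; ring

/-- number of present particles of a set of points of `E^n x E^n` -/
noncomputable def u3N (f : Fin J → E) (P : Set ((Fin n → E) × (Fin n → E))) (x : Gam J (Fk n)) :
    ℝ := sm fun p : Pt J (Fk n) => ind (u3e f p ∈ P ∧ resid 0 p x = 0)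

omit [Finite E] in
lemma u3_card (f : Basis (Fin J) F E) : Nat.card (Fin J → Fk n) = Nat.card (Fin n → E) :=
  Nat.card_eq_of_bijective _ (u3_star_bij f)

omit [Finite E] in
lemma u3N_av (f : Basis (Fin J) F E) (P : Set ((Fin n → E) × (Fin n → E))) :
    av (u3N f P) = cnt P / Nat.card (Fin n → E) := by
  unfold u3N
  rw [av_sm_comm, cnt, ← sm_equiv (Equiv.ofBijective _ (u3e_bij f)), ← sm_div]
  refine sm_congr fun p => ?_
  rw [av_prod, ← av_const (α := G (Fk n)) (ind (_ ∈ P) / _)]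
  refine av_congr fun M => ?_
  rw [← u3_card f, Equiv.ofBijective_apply, ← av_ind_eq (fun l => p.2 l + mv M (p.1 l)) fun _ => ind (u3e f p ∈ P)]
  refine av_congr fun β => ?_
  rw [ind_and, mul_comm]
  congr 1
  refine ind_congr ?_
  rw [u3_resid, funext_iff, funext_iff]
  refine forall_congr' fun l => ⟨fun e => ?_, fun e => ?_⟩
  · rw [e, add_assoc, add_self2, add_zero]
  · change p.2 l = β l + mv M (p.1 l)
    rw [e, add_assoc, add_self2, add_zero]

lemma u3N_le {q : QF E} (h : ND q) (c : (Fin n → E) → ℝ) (f : Basis (Fin J) F E) (th : ℝ)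
    (P : Set ((Fin n → E) × (Fin n → E))) (hP : ∀ x ∈ P, th ≤ u3p (brk q) c x)
    (M : G (Fk n × E)) (β : Fin J → Fk n) :
    th * u3N f P (push (LinearMap.fst F (Fk n) E) M, β) ≤
      av fun b => (fld q c (M + tau b) * fld q c (M + tau b + tau (star β f))) ^ 2 := by
  have Pr := u3_prg (ι := Fin n) h
  have e := pair_parseval (brk q) Pr.addl Pr.addr Pr.nd rfl
    (fun b => fld q c (M + tau b) * fld q c (M + tau b + tau (star β f)))
    (fun b => fld q c (M + tau b) * fld q c (M + tau b + tau (star β f)))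
  simp only [← sq] at e
  rw [← e, ← sm_equiv (Equiv.ofBijective _ (u3z_bij f)), u3N, ← sm_mul_left, sm_prod]
  refine sm_mono fun v => ?_
  have e2 := u3_coef_W h c f v M (star β f)
  refine le_trans ?_ e2.ge
  rw [← sm_ind_eq (fun l => β l + mv (push (LinearMap.fst F (Fk n) E) M) (v l)) fun _ =>
    u3p (brk q) c (star β f + u3m f (push (LinearMap.fst F (Fk n) E) M) v, u3z f v)]
  refine sm_mono fun ξ => ?_
  by_cases hx : u3e f (v, ξ) ∈ P ∧ resid 0 (v, ξ) (push (LinearMap.fst F (Fk n) E) M, β) = 0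
  · rw [ind_pos hx, ind_pos (u3_resid.1 hx.2), mul_one, one_mul]
    have := hP _ hx.1
    rwa [u3_e_present f hx.2] at this
  · rw [ind_neg hx, mul_zero]
    exact mul_nonneg (ind_nonneg _) (u3p_nonneg _ _)

lemma u3N_sq {q : QF E} (h : ND q) (c : (Fin n → E) → ℝ) (f : Basis (Fin J) F E) {th : ℝ}
    (hth : 0 ≤ th) (P : Set ((Fin n → E) × (Fin n → E))) (hP : ∀ x ∈ P, th ≤ u3p (brk q) c x) :
    th ^ 2 * av (fun x => u3N f P x ^ 2) ≤ av fun M => fld q c M ^ 8 := by
  set K := fld q c with hK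
  rw [← av_mul_left, ← av_surj (fun y : G (Fk n × E) × (Fin J → Fk n) =>
    ((push (LinearMap.fst F (Fk n) E) y.1, y.2) : Gam J (Fk n)))
    (fun a b => Prod.ext (map_add _ _ _) rfl)
    ((push_surj LinearMap.fst_surjective).prodMap Function.surjective_id), av_prod]
  have e : ∀ (M : G (Fk n × E)) (β : Fin J → Fk n),
      th ^ 2 * u3N f P (push (LinearMap.fst F (Fk n) E) M, β) ^ 2 ≤
        av fun b => (K (M + tau b) ^ 8 + K (M + tau b + tau (star β f)) ^ 8) / 2 := by
    intro M β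
    rw [← mul_pow]
    refine (pow_le_pow_left₀ (mul_nonneg hth (sm_nonneg fun _ => ind_nonneg _))
      (u3N_le h c f th P hP M β) 2).trans ((av_sq_le _).trans (av_mono fun b => ?_))
    rw [← hK]
    nlinarith [sq_nonneg (K (M + tau b) ^ 4 - K (M + tau b + tau (star β f)) ^ 4)]
  refine (av_mono fun M => av_mono fun β => e M β).trans (le_of_eq ?_)
  rw [av_comm]
  rw [← av_const (α := Fin J → Fk n) (av fun M => K M ^ 8)]
  refine av_congr fun β => ?_
  rw [av_shift (fun M => (K M ^ 8 + K (M + tau (star β f)) ^ 8) / 2) (fun b : Fin n → E => tau b),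
    av_div, av_add, av_add_right (fun M => K M ^ 8)]
  ring

/-- second moment bound for the presence of a heavy particle -/
lemma u3_present {q : QF E} (h : ND q) (c : (Fin n → E) → ℝ) (f : Basis (Fin J) F E) {th lam d : ℝ}
    (hth : 0 ≤ th) (hlam : 0 ≤ lam) (hd : 0 < d) (P : Set ((Fin n → E) × (Fin n → E)))
    (hP : ∀ x ∈ P, th ≤ u3p (brk q) c x) (hc : lam * Nat.card (Fin n → E) ≤ cnt P)
    (h8 : (av fun M => fld q c M ^ 8) ≤ d) :
    lam ^ 2 * th ^ 2 / d ≤ av fun x : Gam J (Fk n) => ind (∃ p, u3e f p ∈ P ∧ resid 0 p x = 0) := by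
  have hN := card_pos' (α := Fin n → E)
  have h1 : lam ≤ av (u3N f P) := by rw [u3N_av, le_div_iff₀ hN]; exact hc
  have h2 : av (u3N f P) = av fun x : Gam J (Fk n) =>
      ind (∃ p, u3e f p ∈ P ∧ resid 0 p x = 0) * u3N f P x := av_congr fun x => by
    by_cases hx : ∃ p, u3e f p ∈ P ∧ resid 0 p x = 0
    · rw [ind_pos hx, one_mul]
    · rw [ind_neg hx, zero_mul, u3N, ← sm_zero (α := Pt J (Fk n))]
      exact sm_congr fun p => ind_neg fun hp => hx ⟨p, hp⟩
  have h3 := av_cs (fun x : Gam J (Fk n) => ind (∃ p, u3e f p ∈ P ∧ resid 0 p x = 0)) (u3N f P)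
  rw [← h2] at h3
  simp only [ind_sq] at h3
  have h4 := (u3N_sq h c f hth P hP).trans h8
  have h5 := av_ind_nonneg fun x : Gam J (Fk n) => ∃ p, u3e f p ∈ P ∧ resid 0 p x = 0
  rw [div_le_iff₀ hd]
  calc lam ^ 2 * th ^ 2 ≤ av (u3N f P) ^ 2 * th ^ 2 := by gcongr
    _ ≤ (av fun x : Gam J (Fk n) => ind (∃ p, u3e f p ∈ P ∧ resid 0 p x = 0)) *
        (av fun x => u3N f P x ^ 2) * th ^ 2 := by gcongr
    _ = (av fun x : Gam J (Fk n) => ind (∃ p, u3e f p ∈ P ∧ resid 0 p x = 0)) *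
        (th ^ 2 * av fun x => u3N f P x ^ 2) := by ring
    _ ≤ _ := by gcongr

end SD
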